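import Pool.Agent.FND.Defs
import Pool.Agent.Neu.Main1
import Pool.Agent.CS4.Pt

/-!
FND-BaseA: continuity.
-/

set_option autoImplicit false

open MeasureTheory Set
open Pool.Agent.Neu
open Pool.Agent.CS4 (Prof2 bb vv eV)

namespace Pool.Agent.FND

variable {K L : ℝ} {φ ψ χ ω : ℝ → ℝ}

theorem cont_et : Continuous et := by
  unfold et
  refine Continuous.if_le (by fun_prop) continuous_const continuous_id continuous_const ?_
  intro s hs
  have hs' : s = 1 := hs
  rw [hs']
  norm_num

theorem cont_etd : Continuous etd := by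
  unfold etd
  refine Continuous.if_le (by fun_prop) continuous_const continuous_id continuous_const ?_
  intro s hs
  have hs' : s = 1 := hs
  rw [hs']
  norm_num

theorem deriv_et (s : ℝ) : HasDerivAt et (etd s) s := by
  have hp : HasDerivAt (fun s : ℝ => (1 - s) ^ 3 * (1 + s)) (-2 * (1 - s) ^ 2 * (1 + 2 * s)) s := by
    have h1 : HasDerivAt (fun s : ℝ => 1 - s) (-1) s := by
      simpa using (hasDerivAt_id s).const_sub 1
    have h2 : HasDerivAt (fun s : ℝ => 1 + s) 1 s := by
      simpa using (hasDerivAt_id s).const_add 1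
    have h3 := (h1.pow 3).mul h2
    refine h3.congr_deriv ?_
    push_cast
    simp only [Pi.pow_apply]
    ring
  rcases lt_trichotomy s 1 with h | h | h
  · have e1 : etd s = -2 * (1 - s) ^ 2 * (1 + 2 * s) := by
      unfold etd
      rw [if_pos h.le]
    rw [e1]
    refine hp.congr_of_eventuallyEq ?_
    filter_upwards [Iio_mem_nhds h] with x hx
    have hx' : x < 1 := hx
    unfold et
    rw [if_pos hx'.le]
  · subst h
    have e1 : etd 1 = 0 := by
      unfold etd
      norm_num
    have e2 : et 1 = 0 := by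
      unfold et
      norm_num
    rw [e1]
    have h1 : HasDerivWithinAt et 0 (Iic (1 : ℝ)) 1 := by
      have h2 : HasDerivWithinAt (fun s : ℝ => (1 - s) ^ 3 * (1 + s)) 0 (Iic (1 : ℝ)) 1 := by
        have h3 := hp.hasDerivWithinAt (s := Iic (1 : ℝ))
        norm_num at h3
        exact h3
      refine h2.congr (fun x hx => ?_) ?_
      · have hx' : x ≤ 1 := hx
        unfold et
        rw [if_pos hx']
      · rw [e2]
        norm_num
    have h4 : HasDerivWithinAt et 0 (Ici (1 : ℝ)) 1 := by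
      refine (hasDerivWithinAt_const (1 : ℝ) (Ici (1 : ℝ)) (0 : ℝ)).congr (fun x hx => ?_) e2
      have hx' : 1 ≤ x := hx
      rcases eq_or_lt_of_le hx' with h5 | h5
      · rw [← h5]
        exact e2
      · unfold et
        rw [if_neg (not_le.2 h5)]
    have h6 := h1.union h4
    rw [Iic_union_Ici, hasDerivWithinAt_univ] at h6
    exact h6
  · have e1 : etd s = 0 := by
      unfold etd
      rw [if_neg (not_le.2 h)]
    rw [e1]
    refine (hasDerivAt_const s (0 : ℝ)).congr_of_eventuallyEq ?_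
    filter_upwards [Ioi_mem_nhds h] with x hx
    have hx' : 1 < x := hx
    unfold et
    rw [if_neg (not_le.2 hx')]

theorem et_nonneg {s : ℝ} (hs : 0 ≤ s) : 0 ≤ et s := by
  unfold et
  split_ifs with h
  · have h1 : 0 ≤ 1 - s := sub_nonneg.2 h
    positivity
  · exact le_refl _

theorem deriv_zt (h : Prof K φ ψ) (s : ℝ) : HasDerivAt (zt K φ) (ztd K φ ψ s) s := by
  exact (deriv_et s).add ((h.deriv s).const_mul (a0 K φ))

theorem cont_zt (h : Prof K φ ψ) : Continuous (zt K φ) := by
  have h1 := h.phi_cont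
  have h2 := cont_et
  unfold zt
  fun_prop

theorem cont_ztd (h : Prof K φ ψ) : Continuous (ztd K φ ψ) := by
  have h1 := h.cont
  have h2 := cont_etd
  unfold ztd
  fun_prop

private theorem ba_chi (h2 : Prof2 L χ ω) : Continuous χ :=
  continuous_iff_continuousAt.2 fun s => (h2.deriv s).continuousAt

private theorem ba_Nd (m : ℝ) : Continuous (Nd m) := by
  unfold Nd
  fun_prop

private theorem ba_c3 : Continuous c3 := by
  unfold c3
  fun_prop

private theorem ba_s3 : Continuous s3 := by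
  unfold s3
  fun_prop

private theorem ba_R3 (a b : ℝ) : Continuous (R3 a b) := by
  have h1 := ba_c3
  have h2 := ba_s3
  unfold R3
  fun_prop

private theorem ba_R1 (a b : ℝ) : Continuous (R1 a b) := by
  unfold R1
  fun_prop

private theorem ba_pb (a b : ℝ) (i : Fin 2) : Continuous (pb a b i) := by
  unfold pb
  split_ifs <;> fun_prop

private theorem ba_X3 (h2 : Prof2 L χ ω) {ζ ζ' : ℝ → ℝ} (h : Continuous ζ) (h' : Continuous ζ')
    (m a b : ℝ) : Continuous (X3 m a b χ ω ζ ζ') := by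
  have h3 := ba_chi h2
  have h4 := h2.cont
  have h5 := h
  have h6 := h'
  have h7 : Continuous (sq : E → ℝ) := M1x.cont_sq
  have h8 := ba_Nd m
  have h9 := ba_R3 a b
  have h10 := ba_R1 a b
  unfold X3
  fun_prop

private theorem ba_b1 (h : Prof K φ ψ) (h2 : Prof2 L χ ω) (m : ℝ) :
    Continuous (b1 m φ ψ χ ω) := by
  have h3 := ba_chi h2
  have h4 := h2.cont
  have h5 := h.phi_cont
  have h6 := h.cont
  have h7 : Continuous (sq : E → ℝ) := M1x.cont_sq
  have h8 := ba_Nd m
  unfold b1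
  fun_prop

private theorem ba_b2 (h : Prof K φ ψ) : Continuous (b2 φ ψ (zt K φ) (ztd K φ ψ)) := by
  have h3 := cont_zt h
  have h4 := cont_ztd h
  have h5 := h.phi_cont
  have h6 := h.cont
  have h7 : Continuous (sq : E → ℝ) := M1x.cont_sq
  unfold b2
  fun_prop

private theorem ba_b3 (h : Prof K φ ψ) (m : ℝ) : Continuous (b3 m φ ψ (zt K φ) (ztd K φ ψ)) := by
  have h3 := cont_zt h
  have h4 := cont_ztd h
  have h5 := h.phi_cont
  have h6 := h.cont
  have h7 : Continuous (sq : E → ℝ) := M1x.cont_sq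
  have h8 := ba_Nd m
  unfold b3
  fun_prop

private theorem ba_c1 (h : Prof K φ ψ) (h2 : Prof2 L χ ω) :
    Continuous fun y : E => χ (sq y) * ψ (sq y) * sq y :=
  (((ba_chi h2).comp M1x.cont_sq).mul (h.cont.comp M1x.cont_sq)).mul M1x.cont_sq

private theorem ba_c2 (h : Prof K φ ψ) (h2 : Prof2 L χ ω) :
    Continuous fun y : E => ω (sq y) * φ (sq y) :=
  (h2.cont.comp M1x.cont_sq).mul (h.phi_cont.comp M1x.cont_sq)

theorem cont_GI (h : Prof K φ ψ) (m : ℝ) : Continuous (GI m φ) := by
  have h1 := h.phi_cont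
  have h2 := M1x.cont_sq
  have h3 := ba_Nd m
  unfold GI
  fun_prop

theorem cont_ew {ζ ζ' : ℝ → ℝ} (h : Continuous ζ) (h' : Continuous ζ') (m : ℝ) :
    Continuous (ew m ζ ζ') := by
  have h2 := M1x.cont_sq
  have h3 := M1x.cont_N ((1 + m) / 2) 0 ((1 - m) / 2)
  unfold ew eQ
  fun_prop

theorem cont_eVm (h2 : Prof2 L χ ω) (m : ℝ) : Continuous (eVm m χ ω) := by
  exact Pool.Agent.CS4.cont_eV h2 _ _ _

theorem cont_eA (h2 : Prof2 L χ ω) {ζ ζ' : ℝ → ℝ} (h : Continuous ζ) (h' : Continuous ζ')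
    (m a b : ℝ) : Continuous (eA m a b χ ω ζ ζ') := by
  have h3 := ba_X3 h2 h h' m a b
  have h4 := cont_eVm h2 m
  have h5 := cont_ew h h' m
  unfold eA
  fun_prop

theorem cont_bR (h : Prof K φ ψ) (h2 : Prof2 L χ ω) (m a b : ℝ) :
    Continuous (bR m a b φ ψ χ ω (zt K φ) (ztd K φ ψ)) := by
  have h3 := ba_b1 h h2 m
  have h4 := ba_b2 h
  have h5 := ba_b3 h m
  have h6 := ba_c3
  have h7 := ba_c1 h h2
  have h8 := ba_c2 h h2
  unfold bR
  have e1 : Continuous fun y : E => 2 * m * χ (sq y) * ψ (sq y) * sq y * y 0 := by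
    have h9 : Continuous fun y : E => 2 * m * (χ (sq y) * ψ (sq y) * sq y) * y 0 := by fun_prop
    refine h9.congr fun y => ?_
    ring
  have e2 : Continuous fun y : E => m * ω (sq y) * φ (sq y) * c3 y := by
    have h9 : Continuous fun y : E => m * (ω (sq y) * φ (sq y)) * c3 y := by fun_prop
    refine h9.congr fun y => ?_
    ring
  fun_prop

theorem cont_bI (h : Prof K φ ψ) (h2 : Prof2 L χ ω) (m a b : ℝ) :
    Continuous (bI m a b φ ψ χ ω (zt K φ) (ztd K φ ψ)) := by
  have h3 := ba_b1 h h2 m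
  have h4 := ba_b2 h
  have h5 := ba_b3 h m
  have h6 := ba_s3
  have h7 := ba_c1 h h2
  have h8 := ba_c2 h h2
  unfold bI
  have e1 : Continuous fun y : E => 2 * m * χ (sq y) * ψ (sq y) * sq y * y 1 := by
    have h9 : Continuous fun y : E => 2 * m * (χ (sq y) * ψ (sq y) * sq y) * y 1 := by fun_prop
    refine h9.congr fun y => ?_
    ring
  have e2 : Continuous fun y : E => m * ω (sq y) * φ (sq y) * s3 y := by
    have h9 : Continuous fun y : E => m * (ω (sq y) * φ (sq y)) * s3 y := by fun_prop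
    refine h9.congr fun y => ?_
    ring
  fun_prop

theorem cont_Af (h2 : Prof2 L χ ω) {ζ : ℝ → ℝ} (h : Continuous ζ) (a b : ℝ) (i : Fin 2) :
    Continuous (Af χ ζ a b i) := by
  have h3 := Pool.Agent.CS4.cont_vv h2 i
  have h4 := M1x.cont_sq
  have h5 := ba_pb a b i
  unfold Af
  fun_prop

theorem cont_nr (h : Prof K φ ψ) (h2 : Prof2 L χ ω) (a b : ℝ) : Continuous (nr K φ χ a b) := by
  have h3 := cont_Af h2 (cont_zt h) a b 0
  have h4 := cont_Af h2 (cont_zt h) a b 1
  have h5 := ba_chi h2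
  have h55 := h.phi_cont
  have h56 := M1x.cont_sq
  have h6 := ba_R3 a b
  unfold nr
  fun_prop

theorem cont_Ft (h : Prof K φ ψ) (h2 : Prof2 L χ ω) (M z m a b : ℝ) :
    Continuous (Ft K L φ ψ χ ω M z m a b) := by
  have h3 := cont_nr h h2 a b
  have h4 := cont_GI h m
  have h5 := cont_ew h.phi_cont h.cont m
  have h6 := cont_eA h2 (cont_zt h) (cont_ztd h) m a b
  have h7 := ba_chi h2
  have h8 := ba_R3 a b
  have h9 := ba_R1 a b
  have h10 := ba_Nd m
  have h11 := M1x.cont_sq
  have h12 := h.phi_cont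
  unfold Ft
  fun_prop

theorem cont_jE (h : Prof K φ ψ) : Continuous (jE K φ) := by
  have h11 := M1x.cont_sq
  have h12 := h.phi_cont
  have h13 := cont_et
  unfold jE
  fun_prop

theorem cont_jD (h : Prof K φ ψ) (h2 : Prof2 L χ ω) (P : ℝ) : Continuous (jD φ χ P) := by
  have h11 := M1x.cont_sq
  have h12 := h.phi_cont
  have h13 := cont_et
  have h14 := ba_chi h2
  unfold jD
  fun_prop

theorem cont_jM (h : Prof K φ ψ) (h2 : Prof2 L χ ω) (P : ℝ) : Continuous (jM φ χ P) := by
  have h11 := M1x.cont_sq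
  have h12 := h.phi_cont
  have h13 := cont_et
  have h14 := ba_chi h2
  unfold jM
  fun_prop

end Pool.Agent.FND
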