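import Pool.Agent.FND.Defs
import Pool.Agent.FND.BaseA
import Pool.Agent.Neu.Main1
import Pool.Agent.CS4.Pt

/-!
FND-Base: simple facts.
-/

set_option autoImplicit false

open MeasureTheory Set
open Pool.Agent.Neu
open Pool.Agent.CS4 (Prof2 bb vv eV)

namespace Pool.Agent.FND

variable {K L : ℝ} {φ ψ χ ω : ℝ → ℝ}

/-- integrals over `W` and over `D` differ by the integrals over `O` and `S` -/
theorem split_int {W : Set E} (hW : MeasurableSet W) (hb : Bornology.IsBounded W) {F : E → ℝ}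
    (hF : Continuous F) :
    ∫ y in W, F y = (∫ y in D, F y) + (∫ y in W \ D, F y) - ∫ y in D \ W, F y := by
  have e4 : (∫ y in W ∩ D, F y) + ∫ y in W \ D, F y = ∫ y in W, F y :=
    integral_inter_add_sdiff M1x.measD (M1x.intOn hF hb)
  have e5 : (∫ y in D ∩ W, F y) + ∫ y in D \ W, F y = ∫ y in D, F y :=
    integral_inter_add_sdiff hW (M1x.intOn hF M1x.bdD)
  rw [inter_comm] at e5
  linarith

/-- outside the unit disc -/
theorem phi_out (h : Prof K φ ψ) {s : ℝ} (hs : 1 ≤ s) : φ s ^ 2 * s = 1 := by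
  have h0 : 0 < s := lt_of_lt_of_le one_pos hs
  rw [h.out s hs, div_pow, one_pow, Real.sq_sqrt h0.le, one_div, inv_mul_cancel₀ h0.ne']

/-- `s ≤ g² ≤ 1` -/
theorem g2_bd (h : Prof K φ ψ) {s : ℝ} (hs : s ∈ Icc (0 : ℝ) 1) :
    s ≤ s * φ s ^ 2 ∧ s * φ s ^ 2 ≤ 1 := by
  have h1 := h.one_le s hs
  constructor
  · nlinarith [hs.1, mul_nonneg hs.1 (mul_nonneg (sub_nonneg.2 h1) (by linarith : 0 ≤ φ s + 1))]
  · have hd : ∀ t, HasDerivAt (fun t => t * φ t ^ 2) (φ t * (φ t + 2 * t * ψ t)) t := by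
      intro t
      have h2 := (hasDerivAt_id t).mul ((h.deriv t).pow 2)
      refine h2.congr_deriv ?_
      simp only [id, Pi.pow_apply]
      norm_num
      ring
    have hmono : MonotoneOn (fun t => t * φ t ^ 2) (Icc 0 1) := by
      refine monotoneOn_of_deriv_nonneg (convex_Icc _ _)
        (fun t _ => (hd t).continuousAt.continuousWithinAt)
        (fun t _ => (hd t).differentiableAt.differentiableWithinAt) (fun t ht => ?_)
      rw [interior_Icc] at ht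
      rw [(hd t).deriv]
      have ht' : t ∈ Icc (0 : ℝ) 1 := ⟨ht.1.le, ht.2.le⟩
      have h3 := h.one_le t ht'
      exact mul_nonneg (by linarith) (h.mono t ht')
    have h4 : s * φ s ^ 2 ≤ 1 * φ 1 ^ 2 := hmono hs ⟨zero_le_one, le_rfl⟩ hs.2
    have h5 : φ 1 = 1 := by
      rw [h.out 1 le_rfl]
      norm_num
    rw [h5] at h4
    linarith

theorem Nd_bd {m : ℝ} (hm0 : 0 ≤ m) (hm1 : m ≤ 1) (y : E) :
    (1 - m) / 2 * sq y ≤ Nd m y ∧ Nd m y ≤ (1 + m) / 2 * sq y := by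
  unfold Nd Pool.Agent.Neu.sq
  constructor
  · nlinarith [mul_nonneg hm0 (_root_.sq_nonneg (y 1))]
  · nlinarith [mul_nonneg hm0 (_root_.sq_nonneg (y 0))]

/-- on the disc `-GI` is at least `(1 - g²)/2` and at least `(1-m)/2 (1 - s)` -/
theorem GI_in (h : Prof K φ ψ) {m : ℝ} (hm0 : 0 ≤ m) (hm1 : m ≤ 1) {y : E} (hy : sq y ≤ 1) :
    (1 - sq y * φ (sq y) ^ 2) / 2 ≤ -GI m φ y ∧ (1 - m) / 2 * (1 - sq y) ≤ -GI m φ y ∧
      ((1 - m) * (1 - sq y) + m * (1 - sq y * φ (sq y) ^ 2)) / 2 ≤ -GI m φ y := by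
  have hs : sq y ∈ Icc (0 : ℝ) 1 := ⟨M1x.sq_nonneg y, hy⟩
  have h1 := h.one_le _ hs
  obtain ⟨g1, g2⟩ := g2_bd h hs
  obtain ⟨n1, n2⟩ := Nd_bd hm0 hm1 y
  have h2 : 0 ≤ φ (sq y) ^ 2 - 1 := by nlinarith
  have h3 : (1 - m) / 2 * sq y * (φ (sq y) ^ 2 - 1) ≤ Nd m y * (φ (sq y) ^ 2 - 1) :=
    mul_le_mul_of_nonneg_right n1 h2
  have h4 : 0 ≤ (1 - m) / 2 * sq y * (φ (sq y) ^ 2 - 1) :=
    mul_nonneg (mul_nonneg (by linarith) hs.1) h2
  have h5 : 0 ≤ m * (1 - sq y * φ (sq y) ^ 2) := mul_nonneg hm0 (by linarith)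
  unfold GI
  refine ⟨?_, ?_, ?_⟩
  · linarith
  · linarith
  · linarith

/-- outside the disc -/
theorem GI_out (h : Prof K φ ψ) {m : ℝ} {y : E} (hy : 1 ≤ sq y) :
    GI m φ y = Nd m y / sq y * (sq y - 1) := by
  have h0 : 0 < sq y := lt_of_lt_of_le one_pos hy
  have h1 := phi_out h hy
  have h2 : φ (sq y) ^ 2 = 1 / sq y := by
    rw [eq_div_iff h0.ne']
    exact h1
  unfold GI
  rw [h2]
  field_simp
  ring

end Pool.Agent.FND
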