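import Pool.Agent.FND.Defs

/-!
FND-BathA: angular integrals.

Plan.  m = 2z/(1+z²), ν = (1 - m cos 2t)/2 = |1 - z ξ|²/(2(1+z²)), ξ = e^{2it}.  With
C3 = a cos 3t + b sin 3t = Re(P̄ e^{3it}), C1 = Re(P̄ e^{it}) (P = a + ib), Pu = C3 - z C1:
∫ BA²/ν = l² ∫ Pu²/ν + 2 l c ∫ Pu C3 + c² ∫ ν C3².
∫ν C3² = (pi/2)(a²+b²) (elementary), ∫ Pu C3 = pi (a²+b²), and
Pu = Re(P̄ e^{it}(ξ - z)), ν = |ξ - z|²/(2(1+z²)), so Pu²/ν = (1+z²)(|P|² + Re(P̄² ξ (ξ - z)/(ξ̄ - z))) and
ξ(ξ - z)/(ξ̄ - z) = ξ² (ξ - z)/(1 - z ξ), a function analytic in |ξ| <= 1 vanishing at 0: its mean over the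
circle is 0 (geometric series 1/(1 - zξ) = Σ z^k ξ^k, or the Cauchy / mean value theorem; an alternative is an
explicit antiderivative).  Hence ∫ Pu²/ν = 2 pi (1+z²)(a²+b²).
ang_half: BA(t + pi) = -BA(t), ν has period pi; max(0,B)² + max(0,-B)² = B².
-/

set_option autoImplicit false

open MeasureTheory Set
open Pool.Agent.Neu
open Pool.Agent.CS4 (Prof2 bb vv eV)

namespace Pool.Agent.FND

variable {K L : ℝ} {φ ψ χ ω : ℝ → ℝ}

/-- the boundary multiplier on the unit circle -/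
noncomputable def BA (z a b l c t : ℝ) : ℝ :=
  l * ((a * Real.cos (3 * t) + b * Real.sin (3 * t)) - z * (a * Real.cos t + b * Real.sin t))
    + c * ((1 - 2 * z / (1 + z ^ 2) * Real.cos (2 * t)) / 2)
      * (a * Real.cos (3 * t) + b * Real.sin (3 * t))

private theorem Dpos {z : ℝ} (hz0 : 0 ≤ z) (hz1 : z < 1) (t : ℝ) :
    0 < 1 + z ^ 2 - 2 * z * Real.cos t := by
  have h1 := Real.cos_le_one t
  have h2 : z * Real.cos t ≤ z * 1 := mul_le_mul_of_nonneg_left h1 hz0
  nlinarith [pow_pos (sub_pos.2 hz1) 2]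

private theorem icos (n : ℕ) (hn : n ≠ 0) :
    ∫ t in (-Real.pi)..Real.pi, Real.cos ((n : ℝ) * t) = 0 := by
  have hn' : (n : ℝ) ≠ 0 := by exact_mod_cast hn
  rw [intervalIntegral.integral_comp_mul_left _ hn', integral_cos, mul_neg, Real.sin_neg,
    Real.sin_nat_mul_pi]
  simp

/-- the mean value of the analytic function -/
private theorem mean0 {z : ℝ} (hz0 : 0 ≤ z) (hz1 : z < 1) :
    ∫ θ in (0 : ℝ)..2 * Real.pi, (Real.cos (3 * θ) - 2 * z * Real.cos (2 * θ)
      + z ^ 2 * Real.cos θ) / (1 + z ^ 2 - 2 * z * Real.cos θ) = 0 := by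
  obtain ⟨f, hf⟩ : ∃ f : ℂ → ℂ, f = (fun ξ : ℂ => ξ ^ 2 * (ξ - (z : ℂ)) / (1 - (z : ℂ) * ξ)) :=
    ⟨fun ξ : ℂ => ξ ^ 2 * (ξ - (z : ℂ)) / (1 - (z : ℂ) * ξ), rfl⟩
  have hne : ∀ ξ ∈ Metric.closedBall (0 : ℂ) 1, 1 - (z : ℂ) * ξ ≠ 0 := by
    intro ξ hξ h0
    rw [mem_closedBall_zero_iff] at hξ
    have h1 : (z : ℂ) * ξ = 1 := by linear_combination -h0
    have h2 : ‖(z : ℂ) * ξ‖ = 1 := by rw [h1, norm_one]
    rw [norm_mul, Complex.norm_real, Real.norm_eq_abs, abs_of_nonneg hz0] at h2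
    have h3 : z * ‖ξ‖ ≤ z * 1 := mul_le_mul_of_nonneg_left hξ hz0
    linarith
  have hfd : DifferentiableOn ℂ f (Metric.closedBall 0 1) := by
    rw [hf]
    refine DifferentiableOn.div (by fun_prop) (by fun_prop) hne
  have h1 := hfd.circleIntegral_sub_inv_smul (w := 0) (by simp)
  have hf0 : f 0 = 0 := by rw [hf]; simp
  rw [hf0, smul_zero] at h1
  have h2 : ∀ θ : ℝ, deriv (circleMap (0 : ℂ) 1) θ • ((circleMap 0 1 θ - 0)⁻¹ • f (circleMap 0 1 θ)) =
      Complex.I * f (circleMap 0 1 θ) := by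
    intro θ
    rw [deriv_circleMap, sub_zero, smul_eq_mul, smul_eq_mul]
    have h3 : circleMap (0 : ℂ) 1 θ ≠ 0 := circleMap_ne_center one_ne_zero
    field_simp
  unfold circleIntegral at h1
  rw [intervalIntegral.integral_congr (fun θ _ => h2 θ), intervalIntegral.integral_const_mul] at h1
  have h3 : ∫ θ in (0 : ℝ)..2 * Real.pi, f (circleMap 0 1 θ) = 0 := by
    rcases mul_eq_zero.1 h1 with h | h
    · exact absurd h Complex.I_ne_zero
    · exact h
  have hcm : Continuous (circleMap (0 : ℂ) 1) := continuous_circleMap 0 1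
  have hcf : Continuous (fun θ => f (circleMap 0 1 θ)) := by
    refine hfd.continuousOn.comp_continuous hcm fun θ => ?_
    exact circleMap_mem_closedBall 0 zero_le_one θ
  have h4 := Complex.reCLM.intervalIntegral_comp_comm (μ := volume)
    (hcf.intervalIntegrable 0 (2 * Real.pi))
  rw [h3, map_zero] at h4
  refine Eq.trans ?_ h4
  refine intervalIntegral.integral_congr fun θ _ => ?_
  have hD := Dpos hz0 hz1 θ
  have e1 : circleMap (0 : ℂ) 1 θ = Complex.cos θ + Complex.sin θ * Complex.I := by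
    rw [circleMap]
    simp [Complex.exp_mul_I]
  obtain ⟨w, hw⟩ : ∃ w : ℂ, w = circleMap 0 1 θ := ⟨_, rfl⟩
  obtain ⟨v, hv⟩ : ∃ v : ℂ, v = Complex.cos θ - Complex.sin θ * Complex.I := ⟨_, rfl⟩
  have hwv : w * v = 1 := by
    rw [hw, hv, e1]
    have := Complex.sin_sq_add_cos_sq (θ : ℂ)
    linear_combination this - Complex.sin θ ^ 2 * Complex.I_sq
  have hwz : 1 - (z : ℂ) * w ≠ 0 := hne w (by
    rw [hw]
    exact circleMap_mem_closedBall 0 zero_le_one θ)
  have hDc : (1 + (z : ℂ) ^ 2 - 2 * z * Complex.cos θ) = (1 - z * w) * (1 - z * v) := by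
    have h5 : w + v = 2 * Complex.cos θ := by
      rw [hw, hv, e1]
      ring
    linear_combination (z : ℂ) * h5 - (z : ℂ) ^ 2 * hwv
  have hf1 : f w = w * (w - z) ^ 2 / ((1 + z ^ 2 - 2 * z * Real.cos θ : ℝ) : ℂ) := by
    rw [hf, eq_div_iff (by exact_mod_cast hD.ne')]
    push_cast
    rw [hDc]
    have h6 : w ^ 2 * (w - z) / (1 - z * w) * ((1 - z * w) * (1 - z * v)) =
        w ^ 2 * (w - z) * (1 - z * v) := by
      rw [← mul_assoc, div_mul_cancel₀ _ hwz]
    rw [h6]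
    linear_combination (-(w * (w - z) * z) : ℂ) * hwv
  show _ = (f (circleMap 0 1 θ)).re
  rw [← hw, hf1, Complex.div_ofReal_re]
  congr 1
  have e2 : w * (w - z) ^ 2 = w ^ 3 - 2 * z * w ^ 2 + z ^ 2 * w := by ring
  have e3 : ∀ n : ℕ, w ^ n = Complex.cos ((n : ℂ) * θ) + Complex.sin ((n : ℂ) * θ) * Complex.I := by
    intro n
    rw [hw, e1, Complex.cos_add_sin_mul_I_pow]
  have e4 := e3 3
  have e5 := e3 2
  have e6 := e3 1
  rw [pow_one] at e6
  rw [e2, e4, e5, e6]
  have r3 : Complex.cos (((3 : ℕ) : ℂ) * θ) = ((Real.cos (3 * θ) : ℝ) : ℂ) := by push_cast; rfl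
  have r3' : Complex.sin (((3 : ℕ) : ℂ) * θ) = ((Real.sin (3 * θ) : ℝ) : ℂ) := by push_cast; rfl
  have r2 : Complex.cos (((2 : ℕ) : ℂ) * θ) = ((Real.cos (2 * θ) : ℝ) : ℂ) := by push_cast; rfl
  have r2' : Complex.sin (((2 : ℕ) : ℂ) * θ) = ((Real.sin (2 * θ) : ℝ) : ℂ) := by push_cast; rfl
  have r1 : Complex.cos (((1 : ℕ) : ℂ) * θ) = ((Real.cos θ : ℝ) : ℂ) := by push_cast; rw [one_mul]
  have r1' : Complex.sin (((1 : ℕ) : ℂ) * θ) = ((Real.sin θ : ℝ) : ℂ) := by push_cast; rw [one_mul]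
  rw [r3, r3', r2, r2', r1, r1']
  have e7 : ((Real.cos (3 * θ) : ℝ) : ℂ) + ((Real.sin (3 * θ) : ℝ) : ℂ) * Complex.I
      - 2 * z * (((Real.cos (2 * θ) : ℝ) : ℂ) + ((Real.sin (2 * θ) : ℝ) : ℂ) * Complex.I)
      + z ^ 2 * (((Real.cos θ : ℝ) : ℂ) + ((Real.sin θ : ℝ) : ℂ) * Complex.I) =
      ((Real.cos (3 * θ) - 2 * z * Real.cos (2 * θ) + z ^ 2 * Real.cos θ : ℝ) : ℂ) +
      ((Real.sin (3 * θ) - 2 * z * Real.sin (2 * θ) + z ^ 2 * Real.sin θ : ℝ) : ℂ) * Complex.I := by
    push_cast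
    ring
  rw [e7]
  simp only [Complex.add_re, Complex.ofReal_re, Complex.mul_re, Complex.I_re, mul_zero,
    Complex.ofReal_im, Complex.I_im, mul_one, sub_self, add_zero]

private theorem icos2 (n : ℕ) (hn : n ≠ 0) (k : ℝ) (hk : k = n) :
    ∫ t in (-Real.pi)..Real.pi, Real.cos (k * t) = 0 := by
  rw [hk]
  exact icos n hn

/-- the oscillating quotient -/
private noncomputable def gg (z θ : ℝ) : ℝ := (Real.cos (3 * θ) - 2 * z * Real.cos (2 * θ)
      + z ^ 2 * Real.cos θ) / (1 + z ^ 2 - 2 * z * Real.cos θ)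

private theorem gg_cont {z : ℝ} (hz0 : 0 ≤ z) (hz1 : z < 1) : Continuous (gg z) := by
  unfold gg
  exact Continuous.div (by fun_prop) (by fun_prop) fun θ => (Dpos hz0 hz1 θ).ne'

private theorem gg_int {z : ℝ} (hz0 : 0 ≤ z) (hz1 : z < 1) :
    ∫ t in (-Real.pi)..Real.pi, gg z (2 * t) = 0 := by
  have hp : Function.Periodic (gg z) (2 * Real.pi) := by
    intro θ
    unfold gg
    have e1 : 3 * (θ + 2 * Real.pi) = 3 * θ + (3 : ℕ) * (2 * Real.pi) := by push_cast; ring
    have e2 : 2 * (θ + 2 * Real.pi) = 2 * θ + (2 : ℕ) * (2 * Real.pi) := by push_cast; ring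
    rw [e1, e2, Real.cos_add_nat_mul_two_pi, Real.cos_add_nat_mul_two_pi, Real.cos_add_two_pi]
  have h0 : ∫ θ in (0 : ℝ)..2 * Real.pi, gg z θ = 0 := mean0 hz0 hz1
  have h1 := hp.intervalIntegral_add_eq (-(2 * Real.pi)) 0
  rw [zero_add, neg_add_cancel, h0] at h1
  rw [intervalIntegral.integral_comp_mul_left _ (two_ne_zero)]
  have h2 := intervalIntegral.integral_add_adjacent_intervals (μ := volume)
    ((gg_cont hz0 hz1).intervalIntegrable (-(2 * Real.pi)) 0)
    ((gg_cont hz0 hz1).intervalIntegrable 0 (2 * Real.pi))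
  rw [h1, h0, add_zero] at h2
  rw [mul_neg, ← h2, smul_zero]

private theorem odd_int {f : ℝ → ℝ} (hf : ∀ t, f (-t) = - f t) :
    ∫ t in (-Real.pi)..Real.pi, f t = 0 := by
  have h1 := intervalIntegral.integral_comp_neg (a := -Real.pi) (b := Real.pi) f
  rw [neg_neg] at h1
  have h2 : ∫ t in (-Real.pi)..Real.pi, f (-t) = - ∫ t in (-Real.pi)..Real.pi, f t := by
    rw [← intervalIntegral.integral_neg]
    exact intervalIntegral.integral_congr fun t _ => hf t
  linarith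

theorem ang_int {z : ℝ} (hz0 : 0 ≤ z) (hz1 : z < 1) (a b l c : ℝ) :
    ∫ t in (-Real.pi)..Real.pi,
        BA z a b l c t ^ 2 / ((1 - 2 * z / (1 + z ^ 2) * Real.cos (2 * t)) / 2)
      = (2 * Real.pi * l ^ 2 * (1 + z ^ 2) + 2 * Real.pi * l * c + Real.pi * c ^ 2 / 2)
        * (a ^ 2 + b ^ 2) := by
  have hz2 : 0 < 1 + z ^ 2 := by positivity
  obtain ⟨m, hm⟩ : ∃ m, m = 2 * z / (1 + z ^ 2) := ⟨_, rfl⟩
  obtain ⟨X, hX⟩ : ∃ X : ℝ → ℝ, X = fun t => Real.cos (3 * t) - z * Real.cos t := ⟨_, rfl⟩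
  obtain ⟨Y, hY⟩ : ∃ Y : ℝ → ℝ, Y = fun t => Real.sin (3 * t) - z * Real.sin t := ⟨_, rfl⟩
  obtain ⟨ν, hν⟩ : ∃ ν : ℝ → ℝ, ν = fun t => (1 - m * Real.cos (2 * t)) / 2 := ⟨_, rfl⟩
  have hνD : ∀ t, ν t * (2 * (1 + z ^ 2)) = 1 + z ^ 2 - 2 * z * Real.cos (2 * t) := by
    intro t
    rw [hν, hm]
    field_simp
  have hνp : ∀ t, 0 < ν t := by
    intro t
    have h1 := Dpos hz0 hz1 (2 * t)
    rw [← hνD] at h1
    exact pos_of_mul_pos_left h1 (by positivity)
  obtain ⟨S, hS⟩ : ∃ S : ℝ → ℝ, S = fun t => 2 * (1 + z ^ 2) * l ^ 2 + 2 * l * c + c ^ 2 / 2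
    - (2 * l * c * z + c ^ 2 * m / 2) * Real.cos (2 * t) := ⟨_, rfl⟩
  obtain ⟨Q, hQ⟩ : ∃ Q : ℝ → ℝ, Q = fun t => 2 * (1 + z ^ 2) * l ^ 2 * gg z (2 * t)
    + ((2 * l * c + c ^ 2 / 2) * Real.cos (6 * t)
    + (-(2 * l * c * z + c ^ 2 * m / 4) * Real.cos (4 * t)
    + -(c ^ 2 * m / 4) * Real.cos (8 * t))) := ⟨_, rfl⟩
  obtain ⟨O, hO⟩ : ∃ O : ℝ → ℝ, O = fun t => (l * X t + c * ν t * Real.cos (3 * t)) *
    (l * Y t + c * ν t * Real.sin (3 * t)) / ν t := ⟨_, rfl⟩
  have hgc : Continuous (fun t => gg z (2 * t)) := (gg_cont hz0 hz1).comp (by fun_prop)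
  have hSc : Continuous S := by rw [hS]; fun_prop
  have hQc : Continuous Q := by rw [hQ]; fun_prop
  have hXc : Continuous X := by rw [hX]; fun_prop
  have hYc : Continuous Y := by rw [hY]; fun_prop
  have hνc : Continuous ν := by rw [hν]; fun_prop
  have hOc : Continuous O := by
    rw [hO]
    exact Continuous.div (by fun_prop) hνc fun t => (hνp t).ne'
  -- pointwise
  have hpt : ∀ t, BA z a b l c t ^ 2 / ((1 - 2 * z / (1 + z ^ 2) * Real.cos (2 * t)) / 2) =
      (a ^ 2 + b ^ 2) / 2 * S t + ((a ^ 2 - b ^ 2) / 2 * Q t + 2 * a * b * O t) := by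
    intro t
    have hν0 := (hνp t).ne'
    have hB : BA z a b l c t = a * (l * X t + c * ν t * Real.cos (3 * t)) +
        b * (l * Y t + c * ν t * Real.sin (3 * t)) := by
      rw [hX, hY, hν, hm]
      unfold BA
      ring
    have hν1 : (1 - 2 * z / (1 + z ^ 2) * Real.cos (2 * t)) / 2 = ν t := by rw [hν, hm]
    rw [hν1, hB]
    have c1 := Real.sin_sq_add_cos_sq t
    have c3 := Real.sin_sq_add_cos_sq (3 * t)
    have k2 : Real.cos (2 * t) = Real.cos (3 * t) * Real.cos t + Real.sin (3 * t) * Real.sin t := by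
      rw [← Real.cos_sub]
      ring_nf
    have k4 : Real.cos (4 * t) = Real.cos (3 * t) * Real.cos t - Real.sin (3 * t) * Real.sin t := by
      rw [← Real.cos_add]
      ring_nf
    have k6 : Real.cos (6 * t) = Real.cos (3 * t) ^ 2 - Real.sin (3 * t) ^ 2 := by
      have : 6 * t = 3 * t + 3 * t := by ring
      rw [this, Real.cos_add]
      ring
    have k48 : Real.cos (4 * t) + Real.cos (8 * t) = 2 * Real.cos (6 * t) * Real.cos (2 * t) := by
      have e1 : 4 * t = 6 * t - 2 * t := by ring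
      have e2 : 8 * t = 6 * t + 2 * t := by ring
      rw [e1, e2, Real.cos_sub, Real.cos_add]
      ring
    have hsum : X t ^ 2 + Y t ^ 2 = ν t * (2 * (1 + z ^ 2)) := by
      rw [hνD, hX, hY, k2]
      linear_combination c3 + z ^ 2 * c1
    have hdif : X t ^ 2 - Y t ^ 2 = gg z (2 * t) * (ν t * (2 * (1 + z ^ 2))) := by
      have h1 := Dpos hz0 hz1 (2 * t)
      rw [hνD]
      unfold gg
      rw [div_mul_cancel₀ _ h1.ne']
      have e1 : 3 * (2 * t) = 6 * t := by ring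
      have e2 : 2 * (2 * t) = 4 * t := by ring
      rw [e1, e2, hX, hY, k6, k4]
      have k2' : Real.cos (2 * t) = Real.cos t ^ 2 - Real.sin t ^ 2 := by
        have : 2 * t = t + t := by ring
        rw [this, Real.cos_add]
        ring
      rw [k2']
      ring
    have hX3 : X t * Real.cos (3 * t) + Y t * Real.sin (3 * t) = 1 - z * Real.cos (2 * t) := by
      rw [hX, hY, k2]
      linear_combination c3
    have hX4 : X t * Real.cos (3 * t) - Y t * Real.sin (3 * t) =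
        Real.cos (6 * t) - z * Real.cos (4 * t) := by
      rw [hX, hY, k6, k4]
      ring
    have hSt : ((l * X t + c * ν t * Real.cos (3 * t)) ^ 2 +
        (l * Y t + c * ν t * Real.sin (3 * t)) ^ 2) / ν t = S t := by
      rw [div_eq_iff hν0]
      have e1 : S t = 2 * (1 + z ^ 2) * l ^ 2 + 2 * l * c * (1 - z * Real.cos (2 * t))
          + c ^ 2 * ν t := by
        rw [hS, hν]
        ring
      rw [e1]
      linear_combination l ^ 2 * hsum + 2 * l * c * ν t * hX3 + c ^ 2 * ν t ^ 2 * c3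
    have hQt : ((l * X t + c * ν t * Real.cos (3 * t)) ^ 2 -
        (l * Y t + c * ν t * Real.sin (3 * t)) ^ 2) / ν t = Q t := by
      rw [div_eq_iff hν0]
      have e1 : Q t = 2 * (1 + z ^ 2) * l ^ 2 * gg z (2 * t) +
          2 * l * c * (Real.cos (6 * t) - z * Real.cos (4 * t)) + c ^ 2 * ν t * Real.cos (6 * t) := by
        have e2 : ν t = (1 - m * Real.cos (2 * t)) / 2 := by rw [hν]
        rw [e2, hQ]
        linear_combination (-(c ^ 2 * m / 4)) * k48
      rw [e1]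
      linear_combination l ^ 2 * hdif + 2 * l * c * ν t * hX4 - c ^ 2 * ν t ^ 2 * k6
    have hOt : O t = (l * X t + c * ν t * Real.cos (3 * t)) *
      (l * Y t + c * ν t * Real.sin (3 * t)) / ν t := by rw [hO]
    rw [← hSt, ← hQt, hOt]
    field_simp
    ring
  rw [intervalIntegral.integral_congr fun t _ => hpt t]
  have i1 : IntervalIntegrable (fun t => (a ^ 2 + b ^ 2) / 2 * S t) volume (-Real.pi) Real.pi :=
    (continuous_const.mul hSc).intervalIntegrable _ _
  have i2 : IntervalIntegrable (fun t => (a ^ 2 - b ^ 2) / 2 * Q t) volume (-Real.pi) Real.pi :=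
    (continuous_const.mul hQc).intervalIntegrable _ _
  have i3 : IntervalIntegrable (fun t => 2 * a * b * O t) volume (-Real.pi) Real.pi :=
    (continuous_const.mul hOc).intervalIntegrable _ _
  rw [intervalIntegral.integral_add i1 (i2.add i3), intervalIntegral.integral_add i2 i3,
    intervalIntegral.integral_const_mul, intervalIntegral.integral_const_mul,
    intervalIntegral.integral_const_mul]
  have hO0 : ∫ t in (-Real.pi)..Real.pi, O t = 0 := by
    refine odd_int fun t => ?_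
    have e1 : X (-t) = X t := by
      rw [hX]
      show Real.cos (3 * -t) - z * Real.cos (-t) = Real.cos (3 * t) - z * Real.cos t
      rw [mul_neg, Real.cos_neg, Real.cos_neg]
    have e2 : Y (-t) = - Y t := by
      rw [hY]
      show Real.sin (3 * -t) - z * Real.sin (-t) = -(Real.sin (3 * t) - z * Real.sin t)
      rw [mul_neg, Real.sin_neg, Real.sin_neg]
      ring
    have e3 : ν (-t) = ν t := by
      rw [hν]
      show (1 - m * Real.cos (2 * -t)) / 2 = (1 - m * Real.cos (2 * t)) / 2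
      rw [mul_neg, Real.cos_neg]
    rw [hO]
    show (l * X (-t) + c * ν (-t) * Real.cos (3 * -t)) *
      (l * Y (-t) + c * ν (-t) * Real.sin (3 * -t)) / ν (-t) = -((l * X t + c * ν t *
        Real.cos (3 * t)) * (l * Y t + c * ν t * Real.sin (3 * t)) / ν t)
    rw [e1, e2, e3, mul_neg, Real.cos_neg, Real.sin_neg]
    ring
  have hS0 : ∫ t in (-Real.pi)..Real.pi, S t = 2 * Real.pi * (2 * (1 + z ^ 2) * l ^ 2 + 2 * l * c
      + c ^ 2 / 2) := by
    rw [hS, intervalIntegral.integral_sub intervalIntegrable_const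
      ((by fun_prop : Continuous fun t : ℝ => (2 * l * c * z + c ^ 2 * m / 2) *
        Real.cos (2 * t)).intervalIntegrable _ _), intervalIntegral.integral_const_mul,
      icos2 2 two_ne_zero 2 (by norm_num), intervalIntegral.integral_const, smul_eq_mul]
    ring
  have hQ0 : ∫ t in (-Real.pi)..Real.pi, Q t = 0 := by
    have j1 : IntervalIntegrable (fun t => 2 * (1 + z ^ 2) * l ^ 2 * gg z (2 * t)) volume
      (-Real.pi) Real.pi := (continuous_const.mul hgc).intervalIntegrable _ _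
    have j2 : IntervalIntegrable (fun t => (2 * l * c + c ^ 2 / 2) * Real.cos (6 * t)) volume
      (-Real.pi) Real.pi := (by fun_prop : Continuous _).intervalIntegrable _ _
    have j3 : IntervalIntegrable (fun t => -(2 * l * c * z + c ^ 2 * m / 4) * Real.cos (4 * t)) volume
      (-Real.pi) Real.pi := (by fun_prop : Continuous _).intervalIntegrable _ _
    have j4 : IntervalIntegrable (fun t => -(c ^ 2 * m / 4) * Real.cos (8 * t)) volume
      (-Real.pi) Real.pi := (by fun_prop : Continuous _).intervalIntegrable _ _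
    rw [hQ, intervalIntegral.integral_add j1 (j2.add (j3.add j4)),
      intervalIntegral.integral_add j2 (j3.add j4), intervalIntegral.integral_add j3 j4,
      intervalIntegral.integral_const_mul, intervalIntegral.integral_const_mul,
      intervalIntegral.integral_const_mul, intervalIntegral.integral_const_mul, gg_int hz0 hz1,
      icos2 6 (by norm_num) 6 (by norm_num), icos2 4 (by norm_num) 4 (by norm_num),
      icos2 8 (by norm_num) 8 (by norm_num)]
    ring
  rw [hS0, hQ0, hO0]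
  ring

/-- half of the integral, by the symmetry `t ↦ t + π` -/
theorem ang_half {z : ℝ} (hz0 : 0 ≤ z) (hz1 : z < 1) (a b l c : ℝ) :
    ∫ t in (-Real.pi)..Real.pi,
        max 0 (BA z a b l c t) ^ 2 / ((1 - 2 * z / (1 + z ^ 2) * Real.cos (2 * t)) / 2)
      = (2 * Real.pi * l ^ 2 * (1 + z ^ 2) + 2 * Real.pi * l * c + Real.pi * c ^ 2 / 2)
        * (a ^ 2 + b ^ 2) / 2 := by
  rw [← ang_int hz0 hz1]
  obtain ⟨F, hF⟩ : ∃ F : ℝ → ℝ, F = fun t =>
    max 0 (BA z a b l c t) ^ 2 / ((1 - 2 * z / (1 + z ^ 2) * Real.cos (2 * t)) / 2) := ⟨_, rfl⟩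
  have hFt : ∀ t, F t =
    max 0 (BA z a b l c t) ^ 2 / ((1 - 2 * z / (1 + z ^ 2) * Real.cos (2 * t)) / 2) := by
    intro t
    rw [hF]
  have hz2 : 0 < 1 + z ^ 2 := by positivity
  have hν : ∀ t, 0 < (1 - 2 * z / (1 + z ^ 2) * Real.cos (2 * t)) / 2 := by
    intro t
    have h1 := Dpos hz0 hz1 (2 * t)
    have h2 : (1 - 2 * z / (1 + z ^ 2) * Real.cos (2 * t)) / 2 =
        (1 + z ^ 2 - 2 * z * Real.cos (2 * t)) / (2 * (1 + z ^ 2)) := by
      field_simp
    rw [h2]
    positivity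
  have hBc : Continuous (fun t : ℝ => BA z a b l c t) := by
    unfold BA
    fun_prop
  have hFc : Continuous F := by
    rw [hF]
    exact Continuous.div ((continuous_const.max hBc).pow 2) (by fun_prop) fun t => (hν t).ne'
  have hpi : ∀ t, BA z a b l c (t + Real.pi) = - BA z a b l c t := by
    intro t
    unfold BA
    have e1 : 3 * (t + Real.pi) = 3 * t + Real.pi + 2 * Real.pi := by ring
    have e2 : 2 * (t + Real.pi) = 2 * t + 2 * Real.pi := by ring
    rw [e1, e2, Real.cos_add_two_pi, Real.sin_add_two_pi, Real.cos_add_two_pi, Real.cos_add_pi,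
      Real.sin_add_pi, Real.cos_add_pi, Real.sin_add_pi]
    ring
  have hcp : ∀ t, Real.cos (2 * (t + Real.pi)) = Real.cos (2 * t) := by
    intro t
    have e2 : 2 * (t + Real.pi) = 2 * t + 2 * Real.pi := by ring
    rw [e2, Real.cos_add_two_pi]
  have hper : Function.Periodic F (2 * Real.pi) := by
    intro t
    have e1 : t + 2 * Real.pi = t + Real.pi + Real.pi := by ring
    rw [hFt, hFt, e1, hpi, hpi, neg_neg, hcp, hcp]
  have hsum : ∀ t, BA z a b l c t ^ 2 / ((1 - 2 * z / (1 + z ^ 2) * Real.cos (2 * t)) / 2) =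
      F t + F (t + Real.pi) := by
    intro t
    rw [hFt, hFt, hpi, hcp, ← add_div]
    congr 1
    rcases le_total 0 (BA z a b l c t) with h | h
    · rw [max_eq_right h, max_eq_left (by linarith)]
      ring
    · rw [max_eq_left h, max_eq_right (by linarith)]
      ring
  have h1 : ∫ t in (-Real.pi)..Real.pi, F (t + Real.pi) = ∫ t in (-Real.pi)..Real.pi, F t := by
    rw [intervalIntegral.integral_comp_add_right, neg_add_cancel]
    have h2 := hper.intervalIntegral_add_eq (-Real.pi) 0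
    have e1 : -Real.pi + 2 * Real.pi = Real.pi := by ring
    rw [e1, zero_add] at h2
    rw [h2]
    congr 1
    ring
  have h2 : ∫ t in (-Real.pi)..Real.pi,
      BA z a b l c t ^ 2 / ((1 - 2 * z / (1 + z ^ 2) * Real.cos (2 * t)) / 2) =
      (∫ t in (-Real.pi)..Real.pi, F t) + ∫ t in (-Real.pi)..Real.pi, F (t + Real.pi) := by
    have hFc2 : Continuous (fun t => F (t + Real.pi)) := hFc.comp (by fun_prop)
    rw [← intervalIntegral.integral_add (hFc.intervalIntegrable _ _)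
      (hFc2.intervalIntegrable _ _)]
    exact intervalIntegral.integral_congr fun t _ => hsum t
  rw [h2, h1]
  have h3 : ∫ t in (-Real.pi)..Real.pi,
        max 0 (BA z a b l c t) ^ 2 / ((1 - 2 * z / (1 + z ^ 2) * Real.cos (2 * t)) / 2) =
      ∫ t in (-Real.pi)..Real.pi, F t := by rw [hF]
  rw [h3]
  ring

end Pool.Agent.FND
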