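import Pool.Agent.FND.Defs
import Pool.Agent.FND.BathA
import Pool.Agent.FND.Base
import Pool.Agent.Neu.Disc

/-!
FND-BathI: bathtub inequality inside the disc.

Plan.  As BathO with k(y) = max 0 (-Bf - σ (N/s)(1 - s)) on the disc:
∫_0^1 max(0, -B - σν(1-r²)) r dr <= max(0,-B)²/(4σν) (substitution v = 1 - r², integral over [0,1] <= over [0,∞)).
-Bf corresponds to (-a, -b), so ang_half applies with -a, -b.  The origin has measure 0.
-/

set_option autoImplicit false

open MeasureTheory Set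
open Pool.Agent.Neu
open Pool.Agent.CS4 (Prof2 bb vv eV)

namespace Pool.Agent.FND

variable {K L : ℝ} {φ ψ χ ω : ℝ → ℝ}

private theorem bi_msq (x : ℝ) : HasDerivAt (fun x : ℝ => max 0 x ^ 2) (2 * max 0 x) x := by
  rcases lt_trichotomy x 0 with h | h | h
  · have e : (fun x : ℝ => max 0 x ^ 2) =ᶠ[nhds x] fun _ => 0 := by
      filter_upwards [Iio_mem_nhds h] with t ht
      rw [max_eq_left (le_of_lt ht)]
      norm_num
    rw [max_eq_left h.le, mul_zero]
    exact (hasDerivAt_const x (0 : ℝ)).congr_of_eventuallyEq e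
  · subst h
    have hO : (fun x : ℝ => max 0 x ^ 2) =O[nhds 0] fun x => ‖x - 0‖ ^ 2 := by
      refine Asymptotics.IsBigO.of_bound 1 (Filter.Eventually.of_forall fun t => ?_)
      rw [one_mul, Real.norm_eq_abs, Real.norm_eq_abs, sub_zero, Real.norm_eq_abs, sq_abs,
        abs_of_nonneg (by positivity), abs_of_nonneg (by positivity)]
      rcases le_total t 0 with h | h
      · rw [max_eq_left h]
        nlinarith [sq_nonneg t]
      · rw [max_eq_right h]
    have h1 := (hO.hasFDerivAt (𝕜 := ℝ) (by norm_num)).hasDerivAt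
    simpa using h1
  · have e : (fun x : ℝ => max 0 x ^ 2) =ᶠ[nhds x] fun x => x ^ 2 := by
      filter_upwards [Ioi_mem_nhds h] with t ht
      rw [max_eq_right (le_of_lt ht)]
    rw [max_eq_right h.le]
    have h2 : HasDerivAt (fun x : ℝ => x ^ 2) (2 * x) x := by simpa using hasDerivAt_pow 2 x
    exact h2.congr_of_eventuallyEq e

private theorem bi_one {c : ℝ} (hc : 0 < c) (β : ℝ) :
    ∫ r in (0 : ℝ)..1, r * max 0 (β - c * (1 - r ^ 2)) ≤ max 0 β ^ 2 / (4 * c) := by
  have hd : ∀ r : ℝ, HasDerivAt (fun r : ℝ => max 0 (β - c * (1 - r ^ 2)) ^ 2 / (4 * c))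
      (r * max 0 (β - c * (1 - r ^ 2))) r := by
    intro r
    have h1 : HasDerivAt (fun r : ℝ => β - c * (1 - r ^ 2)) (c * (2 * r)) r := by
      have := (((hasDerivAt_pow 2 r).const_sub 1).const_mul c).const_sub β
      refine this.congr_deriv ?_
      norm_num
    have h2 := ((bi_msq (β - c * (1 - r ^ 2))).comp r h1).div_const (4 * c)
    refine h2.congr_deriv ?_
    field_simp
    ring
  rw [intervalIntegral.integral_eq_sub_of_hasDerivAt (fun x _ => hd x)
    (Continuous.intervalIntegrable (by fun_prop) _ _)]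
  have h3 : 0 ≤ max 0 (β - c * (1 - (0 : ℝ) ^ 2)) ^ 2 / (4 * c) := by positivity
  have h4 : β - c * (1 - (1 : ℝ) ^ 2) = β := by ring
  rw [h4]
  linarith

private theorem bi_lone {c : ℝ} (hc : 0 < c) (β : ℝ) :
    ∫⁻ r in Ioo (0 : ℝ) 1, ENNReal.ofReal (r * max 0 (β - c * (1 - r ^ 2)))
      ≤ ENNReal.ofReal (max 0 β ^ 2 / (4 * c)) := by
  have hcont : Continuous fun r : ℝ => r * max 0 (β - c * (1 - r ^ 2)) := by fun_prop
  rw [← ofReal_integral_eq_lintegral_ofReal]
  · refine ENNReal.ofReal_le_ofReal ?_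
    rw [← integral_Ioc_eq_integral_Ioo, ← intervalIntegral.integral_of_le zero_le_one]
    exact bi_one hc β
  · exact (hcont.intervalIntegrable 0 1).1.mono_set Ioo_subset_Ioc_self
  · refine (ae_restrict_mem measurableSet_Ioo).mono fun r hr => ?_
    exact mul_nonneg hr.1.le (le_max_left _ _)

private theorem bi_lint_E (g : E → ENNReal) :
    ∫⁻ y, g y = ∫⁻ p : ℝ × ℝ, g !₂[p.1, p.2] := by
  have h1 := (PiLp.volume_preserving_toLp (Fin 2)).lintegral_comp_emb
    (MeasurableEquiv.toLp 2 (Fin 2 → ℝ)).measurableEmbedding g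
  have h2 := (volume_preserving_finTwoArrow ℝ).symm.lintegral_comp_emb
    (MeasurableEquiv.finTwoArrow (α := ℝ)).symm.measurableEmbedding
    (fun x : Fin 2 → ℝ => g (WithLp.toLp 2 x))
  rw [← h1, ← h2]
  rfl

private noncomputable def bnu (z t : ℝ) : ℝ := (1 - 2 * z / (1 + z ^ 2) * Real.cos (2 * t)) / 2

private theorem bnu_cont (z : ℝ) : Continuous (bnu z) := by
  unfold bnu
  fun_prop

private theorem bnu_pos {z : ℝ} (hz0 : 0 ≤ z) (hz1 : z < 1) (t : ℝ) : 0 < bnu z t := by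
  unfold bnu
  have h1 : (0 : ℝ) < 1 + z ^ 2 := by positivity
  have h2 : 2 * z / (1 + z ^ 2) < 1 := by
    rw [div_lt_one h1]
    nlinarith [mul_pos (sub_pos.2 hz1) (sub_pos.2 hz1)]
  have h3 : 0 ≤ 2 * z / (1 + z ^ 2) := by positivity
  have h4 := Real.cos_le_one (2 * t)
  have h5 : 2 * z / (1 + z ^ 2) * Real.cos (2 * t) ≤ 2 * z / (1 + z ^ 2) * 1 :=
    mul_le_mul_of_nonneg_left h4 h3
  linarith

/-- the kernel -/
private noncomputable def bk (z a b l c σ : ℝ) (y : E) : ℝ :=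
  max 0 (-Bf (2 * z / (1 + z ^ 2)) z a b l c y
      - σ * (Nd (2 * z / (1 + z ^ 2)) y / sq y) * (1 - sq y))

private theorem bk_meas (z a b l c σ : ℝ) : Measurable (bk z a b l c σ) := by
  have h0 : Measurable fun y : E => y 0 := (by fun_prop : Continuous fun y : E => y 0).measurable
  have h1 : Measurable fun y : E => y 1 := (by fun_prop : Continuous fun y : E => y 1).measurable
  unfold bk Bf Nd R3 R1 c3 s3 Neu.sq
  fun_prop

private theorem bk_nonneg (z a b l c σ : ℝ) (y : E) : 0 ≤ bk z a b l c σ y := le_max_left _ _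

private theorem bk_ray (z a b l c σ : ℝ) {r : ℝ} (hr : 0 < r) (t : ℝ) :
    bk z a b l c σ !₂[r * Real.cos t, r * Real.sin t]
      = max 0 (BA z (-a) (-b) l c t - σ * bnu z t * (1 - r ^ 2)) := by
  have hcs := Real.sin_sq_add_cos_sq t
  set y : E := !₂[r * Real.cos t, r * Real.sin t] with hy
  have y0 : y 0 = r * Real.cos t := rfl
  have y1 : y 1 = r * Real.sin t := rfl
  have hs : sq y = r ^ 2 := by
    unfold Neu.sq
    rw [y0, y1]
    linear_combination r ^ 2 * hcs
  have hsq : √(sq y) = r := by rw [hs, Real.sqrt_sq hr.le]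
  have h3 : R3 a b y = r ^ 3 * (a * Real.cos (3 * t) + b * Real.sin (3 * t)) := by
    unfold R3 c3 s3
    rw [y0, y1, Real.cos_three_mul, Real.sin_three_mul]
    linear_combination (r ^ 3 * (-3 * a * Real.cos t + 3 * b * Real.sin t)) * hcs
  have h1 : R1 a b y = r * (a * Real.cos t + b * Real.sin t) := by
    unfold R1
    rw [y0, y1]
    ring
  have hN : Nd (2 * z / (1 + z ^ 2)) y = r ^ 2 * bnu z t := by
    unfold Nd bnu
    rw [y0, y1, Real.cos_two_mul]
    generalize 2 * z / (1 + z ^ 2) = m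
    linear_combination (r ^ 2 * (1 + m) / 2) * hcs
  have hr2 : r ^ 2 ≠ 0 := by positivity
  have hr3 : r ^ 3 ≠ 0 := by positivity
  unfold bk Bf
  rw [hsq, h3, h1, hN, hs, mul_div_cancel_left₀ _ hr2, mul_div_cancel_left₀ _ hr3,
    mul_div_cancel_left₀ _ hr.ne']
  congr 1
  unfold BA bnu
  ring

private theorem bk_in {r t : ℝ} (hr : 0 < r) (h : (!₂[r * Real.cos t, r * Real.sin t] : E) ∈ D) :
    r < 1 := by
  rw [mem_ball_zero_iff, EuclideanSpace.norm_eq, Fin.sum_univ_two] at h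
  simp only [Real.norm_eq_abs, sq_abs] at h
  have h9 : (r * Real.cos t) ^ 2 + (r * Real.sin t) ^ 2 = r ^ 2 := by
    have := Real.sin_sq_add_cos_sq t
    linear_combination r ^ 2 * this
  change √((r * Real.cos t) ^ 2 + (r * Real.sin t) ^ 2) < 1 at h
  rwa [h9, Real.sqrt_sq hr.le] at h

private theorem BA_cont (z a b l c : ℝ) : Continuous (BA z a b l c) := by
  unfold BA
  fun_prop

private theorem bk_lint {z : ℝ} (hz0 : 0 ≤ z) (hz1 : z < 1) (a b l c : ℝ) {σ : ℝ} (hσ : 0 < σ) :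
    ∫⁻ y in D, ENNReal.ofReal (bk z a b l c σ y)
      ≤ ENNReal.ofReal (1 / (8 * σ) * (2 * Real.pi * l ^ 2 * (1 + z ^ 2) + 2 * Real.pi * l * c
      + Real.pi * c ^ 2 / 2) * (a ^ 2 + b ^ 2)) := by
  have cB := BA_cont z (-a) (-b) l c
  have cn := bnu_cont z
  have hpos := bnu_pos hz0 hz1
  set f : ℝ → ℝ → ℝ := fun r t => r * max 0 (BA z (-a) (-b) l c t - σ * bnu z t * (1 - r ^ 2))
    with hf
  have cf : Continuous fun p : ℝ × ℝ => f p.1 p.2 := by
    rw [hf]
    fun_prop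
  have cg : Continuous fun t : ℝ => max 0 (BA z (-a) (-b) l c t) ^ 2 / (4 * (σ * bnu z t)) :=
    Continuous.div (by fun_prop) (by fun_prop) fun t => by
      have := hpos t
      positivity
  rw [← lintegral_indicator Metric.isOpen_ball.measurableSet, bi_lint_E,
    ← lintegral_comp_polarCoord_symm]
  have h1 : ∫⁻ p in polarCoord.target, ENNReal.ofReal p.1 •
      (fun q : ℝ × ℝ => (D.indicator fun y => ENNReal.ofReal (bk z a b l c σ y)) !₂[q.1, q.2])
      (polarCoord.symm p) ≤ ∫⁻ p in polarCoord.target,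
        (Set.indicator (Ioo (0 : ℝ) 1 ×ˢ (univ : Set ℝ))
          (fun p : ℝ × ℝ => ENNReal.ofReal (f p.1 p.2))) p := by
    refine setLIntegral_mono' polarCoord.open_target.measurableSet ?_
    rintro ⟨r, t⟩ ⟨hr, ht⟩
    simp only [polarCoord_symm_apply]
    simp only [mem_Ioi] at hr
    by_cases hmem : (!₂[r * Real.cos t, r * Real.sin t] : E) ∈ D
    · have hr1 := bk_in hr hmem
      have hm : (r, t) ∈ Ioo (0 : ℝ) 1 ×ˢ (univ : Set ℝ) := ⟨⟨hr, hr1⟩, trivial⟩
      rw [indicator_of_mem hmem, indicator_of_mem hm, bk_ray z a b l c σ hr t, smul_eq_mul,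
        ← ENNReal.ofReal_mul hr.le]
    · rw [indicator_of_notMem hmem, smul_zero]
      exact zero_le
  refine h1.trans ?_
  have h2 : polarCoord.target = Ioi (0 : ℝ) ×ˢ Ioo (-Real.pi) Real.pi := rfl
  rw [h2, Measure.volume_eq_prod, ← Measure.prod_restrict, lintegral_prod_symm]
  swap
  · exact ((ENNReal.measurable_ofReal.comp cf.measurable).indicator
      (measurableSet_Ioo.prod MeasurableSet.univ)).aemeasurable
  have h3 : ∀ t : ℝ, ∫⁻ r in Ioi (0 : ℝ), (Set.indicator (Ioo (0 : ℝ) 1 ×ˢ (univ : Set ℝ))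
          (fun p : ℝ × ℝ => ENNReal.ofReal (f p.1 p.2))) (r, t)
        ≤ ENNReal.ofReal (max 0 (BA z (-a) (-b) l c t) ^ 2 / (4 * (σ * bnu z t))) := by
    intro t
    have e : ∀ r : ℝ, (Set.indicator (Ioo (0 : ℝ) 1 ×ˢ (univ : Set ℝ))
          (fun p : ℝ × ℝ => ENNReal.ofReal (f p.1 p.2))) (r, t)
        = (Ioo (0 : ℝ) 1).indicator (fun r => ENNReal.ofReal (f r t)) r := by
      intro r
      by_cases hr : r ∈ Ioo (0 : ℝ) 1
      · rw [indicator_of_mem hr, indicator_of_mem (show (r, t) ∈ Ioo (0 : ℝ) 1 ×ˢ (univ : Set ℝ)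
          from ⟨hr, trivial⟩)]
      · rw [indicator_of_notMem hr, indicator_of_notMem (fun h => hr h.1)]
    simp only [e]
    refine (setLIntegral_le_lintegral _ _).trans ?_
    rw [lintegral_indicator measurableSet_Ioo]
    exact bi_lone (mul_pos hσ (hpos t)) (BA z (-a) (-b) l c t)
  refine (lintegral_mono h3).trans ?_
  rw [← ofReal_integral_eq_lintegral_ofReal]
  · refine ENNReal.ofReal_le_ofReal ?_
    have hpi : -Real.pi ≤ Real.pi := by linarith [Real.pi_pos]
    rw [← integral_Ioc_eq_integral_Ioo, ← intervalIntegral.integral_of_le hpi]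
    have h4 := ang_half hz0 hz1 (-a) (-b) l c
    have h5 : (fun t : ℝ => max 0 (BA z (-a) (-b) l c t) ^ 2 / (4 * (σ * bnu z t)))
        = fun t => 1 / (4 * σ) * (max 0 (BA z (-a) (-b) l c t) ^ 2 /
          ((1 - 2 * z / (1 + z ^ 2) * Real.cos (2 * t)) / 2)) := by
      funext t
      change _ = 1 / (4 * σ) * (max 0 (BA z (-a) (-b) l c t) ^ 2 / bnu z t)
      have := hpos t
      field_simp
    rw [h5, intervalIntegral.integral_const_mul, h4]
    have h6 : (-a) ^ 2 + (-b) ^ 2 = a ^ 2 + b ^ 2 := by ring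
    rw [h6]
    apply le_of_eq
    field_simp
    ring
  · exact (cg.intervalIntegrable (-Real.pi) Real.pi).1.mono_set Ioo_subset_Ioc_self
  · refine Filter.Eventually.of_forall fun t => ?_
    have := hpos t
    show (0 : ℝ) ≤ max 0 (BA z (-a) (-b) l c t) ^ 2 / (4 * (σ * bnu z t))
    positivity

theorem bath_in {z : ℝ} (hz0 : 0 ≤ z) (hz1 : z < 1) {a b l c σ : ℝ} (hσ : 0 < σ) {T : Set E}
    (hT : MeasurableSet T) (hT1 : T ⊆ D) {F : E → ℝ} (hF : IntegrableOn F T)
    (hpt : ∀ y ∈ T, y ≠ 0 → -max 0 (-Bf (2 * z / (1 + z ^ 2)) z a b l c y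
      - σ * (Nd (2 * z / (1 + z ^ 2)) y / sq y) * (1 - sq y)) ≤ F y) :
    -(1 / (8 * σ) * (2 * Real.pi * l ^ 2 * (1 + z ^ 2) + 2 * Real.pi * l * c
      + Real.pi * c ^ 2 / 2) * (a ^ 2 + b ^ 2)) ≤ ∫ y in T, F y := by
  have hl := bk_lint hz0 hz1 a b l c hσ
  have km := bk_meas z a b l c σ
  have k0 := bk_nonneg z a b l c σ
  have hi : IntegrableOn (bk z a b l c σ) D := by
    refine ⟨km.aestronglyMeasurable, ?_⟩
    rw [hasFiniteIntegral_iff_ofReal (Filter.Eventually.of_forall k0)]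
    exact hl.trans_lt ENNReal.ofReal_lt_top
  have hX : 0 ≤ 1 / (8 * σ) * (2 * Real.pi * l ^ 2 * (1 + z ^ 2) + 2 * Real.pi * l * c
      + Real.pi * c ^ 2 / 2) * (a ^ 2 + b ^ 2) := by
    have e : 2 * Real.pi * l ^ 2 * (1 + z ^ 2) + 2 * Real.pi * l * c + Real.pi * c ^ 2 / 2
        = Real.pi * (2 * (l * z) ^ 2 + 2 * (l + c / 2) ^ 2) := by ring
    rw [e]
    have := Real.pi_pos
    positivity
  have h1 : ∫ y in D, bk z a b l c σ y ≤ 1 / (8 * σ) * (2 * Real.pi * l ^ 2 * (1 + z ^ 2)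
      + 2 * Real.pi * l * c + Real.pi * c ^ 2 / 2) * (a ^ 2 + b ^ 2) := by
    rw [integral_eq_lintegral_of_nonneg_ae (Filter.Eventually.of_forall k0)
      km.aestronglyMeasurable]
    exact ENNReal.toReal_le_of_le_ofReal hX hl
  have h2 : ∫ y in T, bk z a b l c σ y ≤ ∫ y in D, bk z a b l c σ y :=
    setIntegral_mono_set hi (Filter.Eventually.of_forall k0) (Filter.Eventually.of_forall hT1)
  have h3 : ∫ y in T, -bk z a b l c σ y ≤ ∫ y in T, F y := by
    refine integral_mono_ae (hi.mono_set hT1).neg hF ?_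
    have h0 : ∀ᵐ y : E ∂(volume.restrict T), y ≠ 0 := by
      apply ae_restrict_of_ae
      rw [ae_iff]
      simp
    filter_upwards [h0, ae_restrict_mem hT] with y hy hyT
    exact hpt y hyT hy
  rw [integral_neg] at h3
  linarith

end Pool.Agent.FND
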