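import Pool.Agent.FND.Defs
import Pool.Agent.FND.BathA
import Pool.Agent.FND.Base
import Pool.Agent.Neu.Disc

/-!
FND-BathO: bathtub inequality outside the disc.

Plan.  ∫_T F >= -∫_T k >= -∫_{sq y >= 1} k, k(y) = max 0 (Bf y - σ (N/s)(s - 1)), which vanishes for large |y|
(Bf is bounded: 0-homogeneous; N/s >= (1-m)/2 > 0), so it is integrable on {sq y >= 1}.  Polar coordinates
(Neu/Disc.lean: integral_E_eq_prod, or Mathlib integral_comp_polarCoord_symm): on the ray with angle t, Bf = BA z a b l c t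
(note R3 = r³(a cos 3t + b sin 3t), R1 = r(a cos t + b sin t), N/s = ν(t)), and
∫_1^∞ max(0, B - σν(r²-1)) r dr = max(0,B)²/(4σν) (substitution v = r² - 1).  Then ang_half.
-/

set_option autoImplicit false

open MeasureTheory Set
open Pool.Agent.Neu
open Pool.Agent.CS4 (Prof2 bb vv eV)

namespace Pool.Agent.FND

variable {K L : ℝ} {φ ψ χ ω : ℝ → ℝ}

private theorem dmax (x : ℝ) : HasDerivAt (fun x : ℝ => max 0 x ^ 2) (2 * max 0 x) x := by
  rcases lt_trichotomy x 0 with h | h | h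
  · have e : 2 * max 0 x = 0 := by rw [max_eq_left h.le, mul_zero]
    rw [e]
    refine (hasDerivAt_const x (0 : ℝ)).congr_of_eventuallyEq ?_
    filter_upwards [Iio_mem_nhds h] with t ht
    rw [max_eq_left (le_of_lt ht)]
    norm_num
  · subst h
    have e : 2 * max 0 (0 : ℝ) = 0 := by simp
    rw [e, hasDerivAt_iff_isLittleO]
    simp only [max_self, smul_zero, sub_zero]
    have h2 : (fun x : ℝ => max 0 x ^ 2 - 0 ^ 2) =O[nhds 0] fun x : ℝ => x ^ 2 := by
      refine Asymptotics.isBigO_of_le _ fun x => ?_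
      rw [Real.norm_eq_abs, Real.norm_eq_abs, abs_of_nonneg (sq_nonneg x)]
      have h3 : (0 : ℝ) ^ 2 = 0 := by norm_num
      rw [h3, sub_zero, abs_of_nonneg (sq_nonneg _)]
      rcases le_total 0 x with h4 | h4
      · rw [max_eq_right h4]
      · rw [max_eq_left h4]
        nlinarith [sq_nonneg x]
    refine h2.trans_isLittleO ?_
    exact Asymptotics.isLittleO_pow_id (one_lt_two)
  · have e : 2 * max 0 x = 2 * x := by rw [max_eq_right h.le]
    rw [e]
    have h2 := hasDerivAt_pow 2 x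
    have h3 : ((2 : ℕ) : ℝ) * x ^ (2 - 1) = 2 * x := by norm_num
    rw [h3] at h2
    refine h2.congr_of_eventuallyEq ?_
    filter_upwards [Ioi_mem_nhds h] with t ht
    rw [max_eq_right (le_of_lt ht)]

/-- radial integral -/
private theorem rad (B s R : ℝ) (hs : 0 < s) (hR : 1 ≤ R) :
    ∫ r in (1 : ℝ)..R, r * max 0 (B - s * (r ^ 2 - 1)) ≤ max 0 B ^ 2 / (4 * s) := by
  have hd : ∀ r ∈ uIcc 1 R, HasDerivAt
      (fun r : ℝ => -(max 0 (B - s * (r ^ 2 - 1)) ^ 2) / (4 * s))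
      (r * max 0 (B - s * (r ^ 2 - 1))) r := by
    intro r _
    have h1 : HasDerivAt (fun r : ℝ => B - s * (r ^ 2 - 1)) (-(s * (2 * r))) r := by
      have h2 := (((hasDerivAt_pow 2 r).sub_const 1).const_mul s).const_sub B
      refine h2.congr_deriv ?_
      norm_num
    have h3 := (((dmax (B - s * (r ^ 2 - 1))).comp r h1).neg).div_const (4 * s)
    refine h3.congr_deriv ?_
    field_simp
    ring
  have hc : Continuous (fun r : ℝ => r * max 0 (B - s * (r ^ 2 - 1))) := by fun_prop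
  rw [intervalIntegral.integral_eq_sub_of_hasDerivAt hd (hc.intervalIntegrable _ _)]
  have h4 : 0 ≤ max 0 (B - s * (R ^ 2 - 1)) ^ 2 / (4 * s) := by positivity
  have h5 : B - s * (1 ^ 2 - 1) = B := by ring
  rw [h5, neg_div, neg_div]
  linarith

private theorem m_bd {z : ℝ} (hz0 : 0 ≤ z) (hz1 : z < 1) :
    0 ≤ 2 * z / (1 + z ^ 2) ∧ 2 * z / (1 + z ^ 2) < 1 := by
  have h1 : 0 < 1 + z ^ 2 := by positivity
  constructor
  · positivity
  · rw [div_lt_one h1]
    nlinarith [pow_pos (sub_pos.2 hz1) 2]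

private theorem sqP (r t : ℝ) : sq (!₂[r * Real.cos t, r * Real.sin t] : E) = r ^ 2 := by
  have := Real.sin_sq_add_cos_sq t
  show (r * Real.cos t) ^ 2 + (r * Real.sin t) ^ 2 = r ^ 2
  linear_combination r ^ 2 * this

private theorem NdP (m r t : ℝ) : Nd m (!₂[r * Real.cos t, r * Real.sin t] : E) =
    r ^ 2 * ((1 - m * Real.cos (2 * t)) / 2) := by
  have h1 := Real.sin_sq_add_cos_sq t
  have h2 := Real.cos_two_mul t
  show ((1 - m) * (r * Real.cos t) ^ 2 + (1 + m) * (r * Real.sin t) ^ 2) / 2 = _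
  rw [h2]
  linear_combination r ^ 2 * (1 + m) / 2 * h1

private theorem R3P (a b r t : ℝ) : R3 a b (!₂[r * Real.cos t, r * Real.sin t] : E) =
    r ^ 3 * (a * Real.cos (3 * t) + b * Real.sin (3 * t)) := by
  have h1 := Real.sin_sq_add_cos_sq t
  have h2 := Real.cos_three_mul t
  have h3 := Real.sin_three_mul t
  show a * ((r * Real.cos t) ^ 3 - 3 * (r * Real.cos t) * (r * Real.sin t) ^ 2)
    + b * (3 * (r * Real.cos t) ^ 2 * (r * Real.sin t) - (r * Real.sin t) ^ 3) = _
  rw [h2, h3]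
  have h4 : Real.sin t ^ 2 = 1 - Real.cos t ^ 2 := by linarith
  have h5 : Real.cos t ^ 2 = 1 - Real.sin t ^ 2 := by linarith
  have e1 : (r * Real.cos t) ^ 3 - 3 * (r * Real.cos t) * (r * Real.sin t) ^ 2
      = r ^ 3 * (Real.cos t ^ 3 - 3 * Real.cos t * Real.sin t ^ 2) := by ring
  have e2 : 3 * (r * Real.cos t) ^ 2 * (r * Real.sin t) - (r * Real.sin t) ^ 3
      = r ^ 3 * (3 * Real.cos t ^ 2 * Real.sin t - Real.sin t ^ 3) := by ring
  rw [e1, e2, h4]
  have e3 : 3 * Real.cos t ^ 2 * Real.sin t - Real.sin t ^ 3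
      = 3 * Real.sin t - 4 * Real.sin t ^ 3 := by
    rw [h5]
    ring
  rw [e3]
  ring

private theorem R1P (a b r t : ℝ) : R1 a b (!₂[r * Real.cos t, r * Real.sin t] : E) =
    r * (a * Real.cos t + b * Real.sin t) := by
  show a * (r * Real.cos t) + b * (r * Real.sin t) = _
  ring

private theorem BfP (z a b l c : ℝ) {r t : ℝ} (hr : 0 < r) :
    Bf (2 * z / (1 + z ^ 2)) z a b l c (!₂[r * Real.cos t, r * Real.sin t] : E) =
      BA z a b l c t := by
  unfold Bf BA
  rw [R3P, R1P, NdP, sqP, Real.sqrt_sq hr.le]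
  have h1 : r ^ 3 ≠ 0 := by positivity
  have h2 : r ^ 2 ≠ 0 := by positivity
  rw [mul_div_cancel_left₀ _ h1, mul_div_cancel_left₀ _ h2, mul_div_cancel_left₀ _ hr.ne']

private theorem Bf_bd {m z : ℝ} (hm0 : 0 ≤ m) (hm1 : m ≤ 1) (hz0 : 0 ≤ z) (a b l c : ℝ) {y : E}
    (hy : 0 < sq y) : Bf m z a b l c y ≤
      |l| * ((|a| + |b|) + z * (|a| + |b|)) + |c| * (|a| + |b|) := by
  obtain ⟨q, hq⟩ : ∃ q, q = √(sq y) := ⟨_, rfl⟩
  have hq0 : 0 < q := by rw [hq]; exact Real.sqrt_pos.2 hy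
  have hq2 : q ^ 2 = sq y := by rw [hq]; exact Real.sq_sqrt hy.le
  have hsq : sq y = y 0 ^ 2 + y 1 ^ 2 := rfl
  have hab : 0 ≤ |a| + |b| := by positivity
  have h1 : |y 0| ≤ q := by
    refine abs_le_of_sq_le_sq ?_ hq0.le
    rw [hq2, hsq]
    nlinarith [sq_nonneg (y 1)]
  have h2 : |y 1| ≤ q := by
    refine abs_le_of_sq_le_sq ?_ hq0.le
    rw [hq2, hsq]
    nlinarith [sq_nonneg (y 0)]
  have h3 : c3 y ^ 2 + s3 y ^ 2 = (q ^ 3) ^ 2 := by
    have e : (q ^ 3) ^ 2 = (q ^ 2) ^ 3 := by ring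
    rw [e, hq2, hsq]
    unfold c3 s3
    ring
  have h4 : |c3 y| ≤ q ^ 3 := by
    refine abs_le_of_sq_le_sq ?_ (by positivity)
    nlinarith [sq_nonneg (s3 y)]
  have h5 : |s3 y| ≤ q ^ 3 := by
    refine abs_le_of_sq_le_sq ?_ (by positivity)
    nlinarith [sq_nonneg (c3 y)]
  have h6 : |R3 a b y / q ^ 3| ≤ |a| + |b| := by
    rw [abs_div, abs_of_pos (by positivity : 0 < q ^ 3), div_le_iff₀ (by positivity)]
    unfold R3
    refine (abs_add_le _ _).trans ?_
    rw [abs_mul, abs_mul, add_mul]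
    exact add_le_add (mul_le_mul_of_nonneg_left h4 (abs_nonneg _))
      (mul_le_mul_of_nonneg_left h5 (abs_nonneg _))
  have h7 : |R1 a b y / q| ≤ |a| + |b| := by
    rw [abs_div, abs_of_pos hq0, div_le_iff₀ hq0]
    unfold R1
    refine (abs_add_le _ _).trans ?_
    rw [abs_mul, abs_mul, add_mul]
    exact add_le_add (mul_le_mul_of_nonneg_left h1 (abs_nonneg _))
      (mul_le_mul_of_nonneg_left h2 (abs_nonneg _))
  have h8 : |Nd m y / sq y| ≤ 1 := by
    obtain ⟨n1, n2⟩ := Nd_bd hm0 hm1 y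
    have h9 : 0 ≤ Nd m y := le_trans (mul_nonneg (by linarith) hy.le) n1
    rw [abs_of_nonneg (div_nonneg h9 hy.le), div_le_one hy]
    nlinarith
  unfold Bf
  rw [← hq]
  have h10 : |l * (R3 a b y / q ^ 3 - z * (R1 a b y / q))| ≤
      |l| * ((|a| + |b|) + z * (|a| + |b|)) := by
    rw [abs_mul]
    refine mul_le_mul_of_nonneg_left ?_ (abs_nonneg _)
    refine (abs_sub _ _).trans ?_
    refine add_le_add h6 ?_
    rw [abs_mul, abs_of_nonneg hz0]
    exact mul_le_mul_of_nonneg_left h7 hz0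
  have h11 : |c * (Nd m y / sq y) * (R3 a b y / q ^ 3)| ≤ |c| * (|a| + |b|) := by
    rw [abs_mul, abs_mul]
    refine mul_le_mul ?_ h6 (abs_nonneg _) (abs_nonneg _)
    calc |c| * |Nd m y / sq y| ≤ |c| * 1 := mul_le_mul_of_nonneg_left h8 (abs_nonneg _)
      _ = |c| := mul_one _
  have h12 := le_abs_self (l * (R3 a b y / q ^ 3 - z * (R1 a b y / q)))
  have h13 := le_abs_self (c * (Nd m y / sq y) * (R3 a b y / q ^ 3))
  linarith

/-- polar coordinates on an annulus -/
private theorem polar_ann {R : ℝ} (hR : 1 ≤ R) (k : E → ℝ) (G : ℝ → ℝ → ℝ)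
    (hG : Continuous (fun p : ℝ × ℝ => G p.1 p.2))
    (hk : ∀ r t : ℝ, 1 ≤ r → r ≤ R →
      r * k !₂[r * Real.cos t, r * Real.sin t] = G r t) :
    ∫ y, {y : E | 1 ≤ sq y ∧ sq y ≤ R ^ 2}.indicator k y = ∫ t in (-Real.pi)..Real.pi,
      ∫ r in (1 : ℝ)..R, G r t := by
  rw [Discx.integral_E_eq_prod, ← integral_comp_polarCoord_symm]
  have h1 : ∫ p in polarCoord.target, p.1 • (fun q : ℝ × ℝ =>
      ({y : E | 1 ≤ sq y ∧ sq y ≤ R ^ 2}.indicator k) !₂[q.1, q.2])
      (polarCoord.symm p) = ∫ p in polarCoord.target,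
        (Set.indicator (Icc (1 : ℝ) R ×ˢ Ioo (-Real.pi) Real.pi)
          (fun p : ℝ × ℝ => G p.1 p.2)) p := by
    refine setIntegral_congr_fun polarCoord.open_target.measurableSet ?_
    rintro ⟨r, t⟩ ⟨hr, ht⟩
    simp only [polarCoord_symm_apply]
    simp only [mem_Ioi] at hr
    simp only at ht
    have hmem : (!₂[r * Real.cos t, r * Real.sin t] : E) ∈
        {y : E | 1 ≤ sq y ∧ sq y ≤ R ^ 2} ↔ r ∈ Icc 1 R := by
      rw [mem_setOf_eq, sqP, mem_Icc]
      constructor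
      · rintro ⟨h1, h2⟩
        constructor
        · by_contra h3
          nlinarith [not_le.1 h3]
        · exact le_of_sq_le_sq h2 (by linarith)
      · rintro ⟨h1, h2⟩
        constructor
        · nlinarith
        · exact pow_le_pow_left₀ hr.le h2 2
    by_cases hr1 : r ∈ Icc 1 R
    · have hm : (r, t) ∈ Icc (1 : ℝ) R ×ˢ Ioo (-Real.pi) Real.pi := ⟨hr1, ht⟩
      rw [indicator_of_mem (hmem.2 hr1), indicator_of_mem hm, smul_eq_mul]
      exact hk r t hr1.1 hr1.2
    · have hm : (r, t) ∉ Icc (1 : ℝ) R ×ˢ Ioo (-Real.pi) Real.pi := fun h => hr1 h.1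
      rw [indicator_of_notMem (fun h => hr1 (hmem.1 h)), indicator_of_notMem hm]
      simp
  rw [h1, setIntegral_indicator (measurableSet_Icc.prod measurableSet_Ioo)]
  have h2 : polarCoord.target ∩ (Icc (1 : ℝ) R ×ˢ Ioo (-Real.pi) Real.pi)
      = Icc (1 : ℝ) R ×ˢ Ioo (-Real.pi) Real.pi := by
    apply inter_eq_right.2
    rintro ⟨r, t⟩ ⟨hr, ht⟩
    exact ⟨lt_of_lt_of_le one_pos hr.1, ht⟩
  rw [h2]
  have hint : IntegrableOn (fun p : ℝ × ℝ => G p.1 p.2)
      (Icc (1 : ℝ) R ×ˢ Ioo (-Real.pi) Real.pi) (volume.prod volume) := by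
    have : IntegrableOn (fun p : ℝ × ℝ => G p.1 p.2)
      (Icc (1 : ℝ) R ×ˢ Icc (-Real.pi) Real.pi) (volume : Measure (ℝ × ℝ)) :=
      hG.continuousOn.integrableOn_compact (isCompact_Icc.prod isCompact_Icc)
    exact this.mono_set (prod_mono subset_rfl Ioo_subset_Icc_self)
  have h3 := setIntegral_prod _ hint
  have h4 : (volume : Measure (ℝ × ℝ)) = (volume : Measure ℝ).prod volume := rfl
  have h5 := Discx.swap hG 1 R (-Real.pi) Real.pi
  rw [← h5, h4, h3, intervalIntegral.integral_of_le hR, integral_Icc_eq_integral_Ioc]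
  congr 1
  funext r
  rw [intervalIntegral.integral_of_le (by linarith [Real.pi_pos]), integral_Ioc_eq_integral_Ioo]

theorem bath_out {z : ℝ} (hz0 : 0 ≤ z) (hz1 : z < 1) {a b l c σ : ℝ} (hσ : 0 < σ) {T : Set E}
    (hT : MeasurableSet T) (hT1 : ∀ y ∈ T, 1 ≤ sq y) {F : E → ℝ} (hF : IntegrableOn F T)
    (hpt : ∀ y ∈ T, -max 0 (Bf (2 * z / (1 + z ^ 2)) z a b l c y
      - σ * (Nd (2 * z / (1 + z ^ 2)) y / sq y) * (sq y - 1)) ≤ F y) :
    -(1 / (8 * σ) * (2 * Real.pi * l ^ 2 * (1 + z ^ 2) + 2 * Real.pi * l * c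
      + Real.pi * c ^ 2 / 2) * (a ^ 2 + b ^ 2)) ≤ ∫ y in T, F y := by
  obtain ⟨m, hm⟩ : ∃ m, m = 2 * z / (1 + z ^ 2) := ⟨_, rfl⟩
  obtain ⟨hm0, hm1⟩ := m_bd hz0 hz1
  rw [← hm] at hpt hm0 hm1
  obtain ⟨C, hC⟩ : ∃ C, C = |l| * ((|a| + |b|) + z * (|a| + |b|)) + |c| * (|a| + |b|) := ⟨_, rfl⟩
  have hC0 : 0 ≤ C := by rw [hC]; positivity
  have hm2 : 0 < 1 - m := by linarith
  obtain ⟨k, hk⟩ : ∃ k : E → ℝ, k = fun y => max 0 (Bf m z a b l c y
      - σ * (Nd m y / sq y) * (sq y - 1)) := ⟨_, rfl⟩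
  have hky : ∀ y, k y = max 0 (Bf m z a b l c y - σ * (Nd m y / sq y) * (sq y - 1)) := by
    intro y
    rw [hk]
  obtain ⟨R, hR⟩ : ∃ R, R = √(1 + 2 * C / (σ * (1 - m))) := ⟨_, rfl⟩
  have hC1 : 0 ≤ 2 * C / (σ * (1 - m)) := by positivity
  have hR2 : R ^ 2 = 1 + 2 * C / (σ * (1 - m)) := by rw [hR]; exact Real.sq_sqrt (by linarith)
  have hR1 : 1 ≤ R := by
    rw [hR]
    exact Real.one_le_sqrt.2 (by linarith)
  obtain ⟨A, hA⟩ : ∃ A : Set E, A = {y : E | 1 ≤ sq y ∧ sq y ≤ R ^ 2} := ⟨_, rfl⟩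
  have hsqc : Continuous (fun y : E => sq y) := by
    unfold Pool.Agent.Neu.sq
    fun_prop
  have hAm : MeasurableSet A := by
    rw [hA]
    exact (isClosed_le continuous_const hsqc).inter (isClosed_le hsqc continuous_const) |>.measurableSet
  have hk0 : ∀ y, 0 ≤ k y := fun y => by rw [hky]; exact le_max_left _ _
  have hkz : ∀ y, R ^ 2 < sq y → k y = 0 := by
    intro y hy
    have h1 : 1 ≤ R ^ 2 := by nlinarith
    have hy0 : 0 < sq y := by linarith
    have h2 := Bf_bd hm0 hm1.le hz0 a b l c hy0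
    rw [← hC] at h2
    obtain ⟨n1, _⟩ := Nd_bd hm0 hm1.le y
    have h3 : (1 - m) / 2 ≤ Nd m y / sq y := by
      rw [le_div_iff₀ hy0]
      exact n1
    have h4 : 2 * C / (σ * (1 - m)) < sq y - 1 := by linarith
    rw [div_lt_iff₀ (by positivity)] at h4
    rw [hky]
    refine max_eq_left ?_
    have h5 : σ * ((1 - m) / 2) * (sq y - 1) ≤ σ * (Nd m y / sq y) * (sq y - 1) := by
      refine mul_le_mul_of_nonneg_right (mul_le_mul_of_nonneg_left h3 hσ.le) (by linarith)
    nlinarith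
  have hkC : ∀ y, 1 ≤ sq y → k y ≤ C := by
    intro y hy
    have hy0 : 0 < sq y := by linarith
    have h2 := Bf_bd hm0 hm1.le hz0 a b l c hy0
    rw [← hC] at h2
    obtain ⟨n1, _⟩ := Nd_bd hm0 hm1.le y
    have h3 : 0 ≤ Nd m y / sq y := by
      refine div_nonneg (le_trans (mul_nonneg (by linarith) hy0.le) n1) hy0.le
    rw [hky]
    refine max_le hC0 ?_
    have h5 : 0 ≤ σ * (Nd m y / sq y) * (sq y - 1) :=
      mul_nonneg (mul_nonneg hσ.le h3) (by linarith)
    linarith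
  have hkm : Measurable k := by
    rw [hk]
    have c0 : Measurable (fun y : E => y 0) := by fun_prop
    have c1 : Measurable (fun y : E => y 1) := by fun_prop
    have hs : Measurable (fun y : E => sq y) := hsqc.measurable
    have hsr : Measurable (fun y : E => √(sq y)) := hs.sqrt
    have hN : Measurable (fun y : E => Nd m y) := by
      unfold Nd
      fun_prop
    have hR3 : Measurable (fun y : E => R3 a b y) := by
      unfold R3 c3 s3
      fun_prop
    have hR1' : Measurable (fun y : E => R1 a b y) := by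
      unfold R1
      fun_prop
    unfold Bf
    exact measurable_const.max (((((hR3.div (hsr.pow_const 3)).sub
      ((hR1'.div hsr).const_mul z)).const_mul l).add
      (((hN.div hs).const_mul c).mul (hR3.div (hsr.pow_const 3)))).sub
      (((hN.div hs).const_mul σ).mul (hs.sub_const 1)))
  have hAfin : volume A < ⊤ := by
    have h1 : A ⊆ Metric.closedBall (0 : E) R := by
      intro y hy
      rw [hA] at hy
      rw [mem_closedBall_zero_iff, EuclideanSpace.norm_eq, Fin.sum_univ_two]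
      simp only [Real.norm_eq_abs, sq_abs]
      exact Real.sqrt_le_iff.2 ⟨by linarith, hy.2⟩
    exact lt_of_le_of_lt (measure_mono h1) measure_closedBall_lt_top
  have hkA : IntegrableOn k A := by
    refine Measure.integrableOn_of_bounded (M := C) hAfin.ne hkm.aestronglyMeasurable ?_
    rw [ae_restrict_iff' hAm]
    refine Filter.Eventually.of_forall fun y hy => ?_
    rw [Real.norm_eq_abs, abs_of_nonneg (hk0 y)]
    rw [hA] at hy
    exact hkC y hy.1
  have hki : Integrable (A.indicator k) := (integrable_indicator_iff hAm).2 hkA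
  have hge : ∀ y ∈ T, -(A.indicator k y) ≤ F y := by
    intro y hy
    have h1 := hpt y hy
    rw [← hky] at h1
    by_cases h2 : y ∈ A
    · rw [indicator_of_mem h2]
      exact h1
    · rw [indicator_of_notMem h2]
      have h3 : k y = 0 := by
        refine hkz y ?_
        by_contra h4
        exact h2 (by rw [hA]; exact ⟨hT1 y hy, not_lt.1 h4⟩)
      rw [h3] at h1
      exact h1
  have h1 : -∫ y, A.indicator k y ≤ ∫ y in T, F y := by
    have h2 : ∫ y in T, -(A.indicator k y) ≤ ∫ y in T, F y :=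
      setIntegral_mono_on hki.neg.integrableOn hF hT hge
    have h3 : ∫ y in T, A.indicator k y ≤ ∫ y, A.indicator k y :=
      setIntegral_le_integral hki (Filter.Eventually.of_forall fun y =>
        indicator_nonneg (fun y _ => hk0 y) y)
    rw [integral_neg] at h2
    linarith
  refine le_trans ?_ h1
  rw [neg_le_neg_iff]
  have hBc : Continuous (fun t : ℝ => BA z a b l c t) := by
    unfold BA
    fun_prop
  obtain ⟨G, hG⟩ : ∃ G : ℝ → ℝ → ℝ, G = fun r t => r * max 0 (BA z a b l c t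
      - σ * ((1 - m * Real.cos (2 * t)) / 2) * (r ^ 2 - 1)) := ⟨_, rfl⟩
  have hGc : Continuous (fun p : ℝ × ℝ => G p.1 p.2) := by
    rw [hG]
    have h2 : Continuous (fun p : ℝ × ℝ => BA z a b l c p.2) := hBc.comp continuous_snd
    fun_prop
  have hpol := polar_ann hR1 k G hGc (fun r t hr1 _ => by
    have hr : 0 < r := by linarith
    rw [hky, hG, hm, BfP z a b l c hr, NdP, sqP, mul_div_cancel_left₀ _ (by positivity)])
  rw [← hA] at hpol
  rw [hpol]
  have hν : ∀ t : ℝ, 0 < (1 - m * Real.cos (2 * t)) / 2 := by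
    intro t
    have h2 := Real.cos_le_one (2 * t)
    have h3 : m * Real.cos (2 * t) ≤ m * 1 := mul_le_mul_of_nonneg_left h2 hm0
    linarith
  have hνc : Continuous (fun t : ℝ => (1 - m * Real.cos (2 * t)) / 2) := by fun_prop
  have hmx : Continuous (fun t : ℝ => max 0 (BA z a b l c t) ^ 2) :=
    (continuous_const.max hBc).pow 2
  have h2 : ∫ t in (-Real.pi)..Real.pi, ∫ r in (1 : ℝ)..R, G r t ≤
      ∫ t in (-Real.pi)..Real.pi, 1 / (4 * σ) *
        (max 0 (BA z a b l c t) ^ 2 / ((1 - m * Real.cos (2 * t)) / 2)) := by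
    refine intervalIntegral.integral_mono_on (by linarith [Real.pi_pos]) ?_ ?_ ?_
    · have h3 : Continuous (fun p : ℝ × ℝ => G p.2 p.1) :=
        hGc.comp (continuous_snd.prodMk continuous_fst)
      exact (Discx.cont_int (F := fun t r => G r t) h3 1 R).intervalIntegrable _ _
    · exact (continuous_const.mul (hmx.div hνc fun t => (hν t).ne')).intervalIntegrable _ _
    · intro t _
      rw [hG]
      have h3 := rad (BA z a b l c t) (σ * ((1 - m * Real.cos (2 * t)) / 2)) R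
        (mul_pos hσ (hν t)) hR1
      refine h3.trans (le_of_eq ?_)
      have h4 := (hν t).ne'
      field_simp
  refine h2.trans (le_of_eq ?_)
  rw [intervalIntegral.integral_const_mul, hm, ang_half hz0 hz1]
  field_simp
  ring

end Pool.Agent.FND
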