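import Pool.Agent.FND.Defs

/-!
FND-Cst: numerical constants.
-/

set_option autoImplicit false

open MeasureTheory Set
open Pool.Agent.Neu
open Pool.Agent.CS4 (Prof2 bb vv eV)

namespace Pool.Agent.FND

variable {K L : ℝ} {φ ψ χ ω : ℝ → ℝ}

private theorem cst_int (c d : ℝ) :
    ∫ s in (0 : ℝ)..1, s * ((1 - s) ^ 3 * (1 + s)) * (1 + (1 - s) / 2 + (1 - s) ^ 2 *
      (c + d * (1 - s))) =
      1 / 2 - 2 / 5 + (-1 / 2 + 2 * c) / 6 + (1 / 2 - 3 * c + 2 * d) / 7 + (c - 3 * d) / 8 + d / 9 := by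
  have hd : ∀ s ∈ uIcc (0 : ℝ) 1, HasDerivAt (fun s : ℝ => -(1 / 2 * (1 - s) ^ 4 -
      2 / 5 * (1 - s) ^ 5 + (-1 / 2 + 2 * c) / 6 * (1 - s) ^ 6 +
      (1 / 2 - 3 * c + 2 * d) / 7 * (1 - s) ^ 7 + (c - 3 * d) / 8 * (1 - s) ^ 8 +
      d / 9 * (1 - s) ^ 9)) (s * ((1 - s) ^ 3 * (1 + s)) * (1 + (1 - s) / 2 + (1 - s) ^ 2 *
      (c + d * (1 - s)))) s := by
    intro s _
    have h : HasDerivAt (fun s : ℝ => 1 - s) (-1) s := by
      have h0 := (hasDerivAt_id s).const_sub 1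
      exact h0
    have h1 := ((((((h.pow 4).const_mul (1 / 2)).sub ((h.pow 5).const_mul (2 / 5))).add
      ((h.pow 6).const_mul ((-1 / 2 + 2 * c) / 6))).add
      ((h.pow 7).const_mul ((1 / 2 - 3 * c + 2 * d) / 7))).add
      ((h.pow 8).const_mul ((c - 3 * d) / 8))).add ((h.pow 9).const_mul (d / 9))
    have h2 := h1.neg
    refine h2.congr_deriv ?_
    push_cast
    ring
  rw [intervalIntegral.integral_eq_sub_of_hasDerivAt hd ?_]
  · ring
  · exact (by fun_prop : Continuous fun s : ℝ => s * ((1 - s) ^ 3 * (1 + s)) *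
      (1 + (1 - s) / 2 + (1 - s) ^ 2 * (c + d * (1 - s)))).intervalIntegrable _ _

private theorem cst_kap (d : Dat K L φ ψ χ ω) : 28427 / 100000 < kap φ ∧ kap φ < 28431 / 100000 := by
  have hφ : Continuous φ := continuous_iff_continuousAt.2 fun s => (d.prof.deriv s).continuousAt
  have e1 : ∫ s in (0 : ℝ)..1, s * et s * φ s =
      ∫ s in (0 : ℝ)..1, s * ((1 - s) ^ 3 * (1 + s)) * φ s := by
    refine intervalIntegral.integral_congr fun s hs => ?_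
    rw [uIcc_of_le zero_le_one] at hs
    show s * et s * φ s = _
    rw [et, if_pos hs.2]
  have hI : IntervalIntegrable (fun s : ℝ => s * ((1 - s) ^ 3 * (1 + s)) * φ s) volume 0 1 :=
    (by fun_prop : Continuous fun s : ℝ => s * ((1 - s) ^ 3 * (1 + s)) * φ s).intervalIntegrable _ _
  have hJ : ∀ c d : ℝ, IntervalIntegrable (fun s : ℝ => s * ((1 - s) ^ 3 * (1 + s)) *
      (1 + (1 - s) / 2 + (1 - s) ^ 2 * (c + d * (1 - s)))) volume 0 1 := fun c d =>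
    (by fun_prop : Continuous fun s : ℝ => s * ((1 - s) ^ 3 * (1 + s)) *
      (1 + (1 - s) / 2 + (1 - s) ^ 2 * (c + d * (1 - s)))).intervalIntegrable _ _
  have hpos : ∀ s ∈ Icc (0 : ℝ) 1, 0 ≤ s * ((1 - s) ^ 3 * (1 + s)) := fun s hs =>
    mul_nonneg hs.1 (mul_nonneg (pow_nonneg (by linarith [hs.2]) _) (by linarith [hs.1]))
  have l1 : ∫ s in (0 : ℝ)..1, s * ((1 - s) ^ 3 * (1 + s)) * (1 + (1 - s) / 2 + (1 - s) ^ 2 *
      (761 / 10000 + 59 / 10000 * (1 - s))) ≤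
      ∫ s in (0 : ℝ)..1, s * ((1 - s) ^ 3 * (1 + s)) * φ s := by
    refine intervalIntegral.integral_mono_on zero_le_one (hJ _ _) hI fun s hs => ?_
    refine mul_le_mul_of_nonneg_left ?_ (hpos s hs)
    have h := (abs_le.1 (d.enc.phi s hs)).1
    linarith
  have l2 : ∫ s in (0 : ℝ)..1, s * ((1 - s) ^ 3 * (1 + s)) * φ s ≤
      ∫ s in (0 : ℝ)..1, s * ((1 - s) ^ 3 * (1 + s)) * (1 + (1 - s) / 2 + (1 - s) ^ 2 *
      (763 / 10000 + 59 / 10000 * (1 - s))) := by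
    refine intervalIntegral.integral_mono_on zero_le_one hI (hJ _ _) fun s hs => ?_
    refine mul_le_mul_of_nonneg_left ?_ (hpos s hs)
    have h := (abs_le.1 (d.enc.phi s hs)).2
    linarith
  rw [cst_int] at l1 l2
  have hp1 := Real.pi_gt_d6
  have hp2 := Real.pi_lt_d6
  unfold kap
  rw [e1]
  obtain ⟨J, hJ'⟩ : ∃ J, J = ∫ s in (0 : ℝ)..1, s * ((1 - s) ^ 3 * (1 + s)) * φ s := ⟨_, rfl⟩
  rw [← hJ'] at l1 l2 ⊢
  norm_num at l1 l2 hp1 hp2 ⊢
  constructor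
  · nlinarith [mul_le_mul hp1.le l1 (by norm_num) (by positivity)]
  · have h0 : 0 ≤ J := by linarith
    nlinarith [mul_le_mul hp2.le l2 h0 (by norm_num)]

private theorem cst_inv (d : Dat K L φ ψ χ ω) : 2949852 / 10000000 < 1 / K ∧ 1 / K < 2949941 / 10000000
    := by
  have h1 := d.enc.K_lo
  have h2 := d.enc.K_hi
  have h0 : 0 < K := by linarith
  constructor
  · rw [lt_div_iff₀ h0]
    linarith
  · rw [div_lt_iff₀ h0]
    linarith

private theorem cst_inv4 (d : Dat K L φ ψ χ ω) : 428798 / 1000000 < 4 / L ∧ 4 / L < 428803 / 1000000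
    := by
  have h1 := d.enc.L_lo
  have h2 := d.enc.L_hi
  have h0 : 0 < L := by linarith
  constructor
  · rw [lt_div_iff₀ h0]
    linarith
  · rw [div_lt_iff₀ h0]
    linarith

theorem mw_bd (d : Dat K L φ ψ χ ω) : 22148 / 10000 < mw K ∧ mw K < 22149 / 10000 := by
  obtain ⟨h1, h2⟩ := cst_inv d
  have hp1 := Real.pi_gt_d6
  have hp2 := Real.pi_lt_d6
  norm_num at hp1 hp2
  unfold mw
  obtain ⟨x, hx⟩ : ∃ x, x = 1 / K := ⟨_, rfl⟩
  rw [← hx] at h1 h2 ⊢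
  constructor <;> nlinarith

theorem mV_bd (d : Dat K L φ ψ χ ω) : 17944 / 10000 < mV L ∧ mV L < 17945 / 10000 := by
  obtain ⟨h1, h2⟩ := cst_inv4 d
  have hp1 := Real.pi_gt_d6
  have hp2 := Real.pi_lt_d6
  norm_num at hp1 hp2
  unfold mV
  obtain ⟨x, hx⟩ : ∃ x, x = 4 / L := ⟨_, rfl⟩
  rw [← hx] at h1 h2 ⊢
  constructor <;> nlinarith

theorem T0_bd (d : Dat K L φ ψ χ ω) : 102547 / 10000 < T0 K L ∧ T0 K L < 102550 / 10000 := by
  have h1 := d.enc.K_lo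
  have h2 := d.enc.K_hi
  have h3 := d.enc.L_lo
  have h4 := d.enc.L_hi
  have hp1 := Real.pi_gt_d6
  have hp2 := Real.pi_lt_d6
  norm_num at hp1 hp2
  have hp : 0 < Real.pi := Real.pi_pos
  unfold T0
  constructor
  · rw [lt_div_iff₀ hp]
    linarith
  · rw [div_lt_iff₀ hp]
    linarith

theorem a0_bd (d : Dat K L φ ψ χ ω) : 3231 / 10000 < a0 K φ ∧ a0 K φ < 3232 / 10000 := by
  obtain ⟨h1, h2⟩ := mw_bd d
  obtain ⟨h3, h4⟩ := cst_kap d
  have h0 : 0 < mw K := by linarith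
  unfold a0
  constructor
  · rw [lt_div_iff₀ h0]
    linarith
  · rw [div_lt_iff₀ h0]
    linarith

theorem a0_mul (d : Dat K L φ ψ χ ω) : a0 K φ * mw K = 1 - kap φ := by
  obtain ⟨h1, h2⟩ := mw_bd d
  have h0 : mw K ≠ 0 := by
    intro h
    rw [h] at h1
    norm_num at h1
  unfold a0
  exact div_mul_cancel₀ _ h0

theorem cM_bd (d : Dat K L φ ψ χ ω) : 0 < cM K φ ∧ cM K φ < 1466 / 10000 := by
  obtain ⟨h1, h2⟩ := mw_bd d
  obtain ⟨h3, h4⟩ := a0_bd d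
  have hp1 := Real.pi_gt_d6
  have hp2 := Real.pi_lt_d6
  norm_num at hp1 hp2
  unfold cM
  obtain ⟨x, hx⟩ : ∃ x, x = a0 K φ := ⟨_, rfl⟩
  obtain ⟨y, hy⟩ : ∃ y, y = mw K := ⟨_, rfl⟩
  rw [← hx] at h3 h4 ⊢
  rw [← hy] at h1 h2 ⊢
  have h5 : x ^ 2 < (3232 / 10000) ^ 2 := by nlinarith
  have h6 : (3231 / 10000) ^ 2 < x ^ 2 := by nlinarith
  obtain ⟨z, hz⟩ : ∃ z, z = x ^ 2 := ⟨_, rfl⟩
  rw [← hz] at h5 h6 ⊢
  norm_num at h5 h6
  constructor
  · nlinarith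
  · nlinarith [mul_lt_mul h5 h2.le (by linarith) (by norm_num)]

theorem CC_bd (d : Dat K L φ ψ χ ω) : CC K L φ < 21455 / 10000 := by
  obtain ⟨h1, h2⟩ := mw_bd d
  obtain ⟨h3, h4⟩ := a0_bd d
  obtain ⟨h5, h6⟩ := cst_kap d
  obtain ⟨h7, h8⟩ := cM_bd d
  have hK1 := d.enc.K_lo
  have hK2 := d.enc.K_hi
  have hL1 := d.enc.L_lo
  have hL2 := d.enc.L_hi
  have hp1 := Real.pi_gt_d6
  have hp2 := Real.pi_lt_d6
  norm_num at hp1 hp2
  unfold CC CZ
  obtain ⟨x, hx⟩ : ∃ x, x = a0 K φ := ⟨_, rfl⟩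
  obtain ⟨y, hy⟩ : ∃ y, y = mw K := ⟨_, rfl⟩
  obtain ⟨z, hz⟩ : ∃ z, z = kap φ := ⟨_, rfl⟩
  obtain ⟨t, ht⟩ : ∃ t, t = cM K φ := ⟨_, rfl⟩
  rw [← hx] at h3 h4 ⊢
  rw [← hy] at h1 h2 ⊢
  rw [← hz] at h5 h6 ⊢
  rw [← ht] at h7 h8 ⊢
  have hx0 : 0 < x := by linarith
  have hy0 : 0 < y := by linarith
  have hz0 : 0 < z := by linarith
  have hK0 : 0 < K := by linarith
  have hL0 : 0 < L := by linarith
  have a1 : x * K ≤ 3232 / 10000 * (339 / 100) := mul_le_mul h4.le hK2.le hK0.le (by norm_num)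
  have a2 : x * K * z ≤ 3232 / 10000 * (339 / 100) * (28431 / 100000) :=
    mul_le_mul a1 h6.le hz0.le (by norm_num)
  have a3 : x ^ 2 ≤ (3232 / 10000) ^ 2 := pow_le_pow_left₀ hx0.le h4.le 2
  have a4 : K * y ≤ 339 / 100 * (22149 / 10000) := mul_le_mul hK2.le h2.le hy0.le (by norm_num)
  have a5 : x ^ 2 * (K * y / 2) ≤ (3232 / 10000) ^ 2 * (339 / 100 * (22149 / 10000) / 2) :=
    mul_le_mul a3 (by linarith) (by positivity) (by norm_num)
  have a6 : L / 2 * t ≤ 93284 / 10000 / 2 * (1466 / 10000) :=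
    mul_le_mul (by linarith) h8.le h7.le (by norm_num)
  norm_num at a2 a5 a6 ⊢
  linarith

theorem scalar (d : Dat K L φ ψ χ ω) {c : Cell} (hc : IsCell c) {z : ℝ} (hz0 : 0 ≤ z)
    (hz : z ≤ c.z1) :
    1 / 8 * (1 / c.sO + 1 / c.si) * (50 * Real.pi * (1 + z ^ 2) + 40 * Real.pi * a0 K φ
      + 8 * Real.pi * a0 K φ ^ 2) ≤ 5 - CC K L φ := by
  obtain ⟨h3, h4⟩ := a0_bd d
  have hC := CC_bd d
  have hp1 := Real.pi_gt_d6
  have hp2 := Real.pi_lt_d6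
  norm_num at hp1 hp2
  have hp : 0 < Real.pi := Real.pi_pos
  obtain ⟨x, hx⟩ : ∃ x, x = a0 K φ := ⟨_, rfl⟩
  rw [← hx] at h3 h4 ⊢
  have hx0 : 0 < x := by linarith
  have key : ∀ q w : ℝ, 0 ≤ q → z ≤ w → 1 / 8 * q * (50 * (3141593 / 1000000) * (1 + w ^ 2) +
      40 * (3141593 / 1000000) * (3232 / 10000) + 8 * (3141593 / 1000000) * (3232 / 10000) ^ 2) ≤
      5 - 21455 / 10000 →
      1 / 8 * q * (50 * Real.pi * (1 + z ^ 2) + 40 * Real.pi * x + 8 * Real.pi * x ^ 2) ≤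
        5 - CC K L φ := by
    intro q w hq hw h
    have a1 : z ^ 2 ≤ w ^ 2 := pow_le_pow_left₀ hz0 hw 2
    have a2 : x ^ 2 ≤ (3232 / 10000) ^ 2 := pow_le_pow_left₀ hx0.le h4.le 2
    have a3 : Real.pi * (1 + z ^ 2) ≤ 3141593 / 1000000 * (1 + w ^ 2) :=
      mul_le_mul (by linarith) (by linarith) (by positivity) (by norm_num)
    have a4 : Real.pi * x ≤ 3141593 / 1000000 * (3232 / 10000) :=
      mul_le_mul (by linarith) h4.le hx0.le (by norm_num)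
    have a5 : Real.pi * x ^ 2 ≤ 3141593 / 1000000 * (3232 / 10000) ^ 2 :=
      mul_le_mul (by linarith) a2 (by positivity) (by norm_num)
    have a6 : 1 / 8 * q * (50 * Real.pi * (1 + z ^ 2) + 40 * Real.pi * x + 8 * Real.pi * x ^ 2) ≤
        1 / 8 * q * (50 * (3141593 / 1000000) * (1 + w ^ 2) +
      40 * (3141593 / 1000000) * (3232 / 10000) + 8 * (3141593 / 1000000) * (3232 / 10000) ^ 2) :=
      mul_le_mul_of_nonneg_left (by linarith) (by positivity)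
    linarith
  rcases hc with rfl | rfl | rfl
  · refine key _ _ ?_ hz ?_
    · simp only [cA]
      norm_num
    · simp only [cA]
      norm_num
  · refine key _ _ ?_ hz ?_
    · simp only [cB]
      norm_num
    · simp only [cB]
      norm_num
  · refine key _ _ ?_ hz ?_
    · simp only [cC]
      norm_num
    · simp only [cC]
      norm_num

end Pool.Agent.FND
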