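import Pool.Agent.FND.Defs
import Pool.Agent.FND.Base
import Pool.Agent.Neu.Rad
import Pool.Agent.CS4.DI

/-!
FND-DIa: integrals over the disc, first part.

Plan.  Neu/Rad.lean: disc_radial, disc_radial_N, disc_odd; Neu/Main1 Prof.integral_qq_disc, mass_ge;
CS4/DI.lean mass_disc, int_qV_disc; Nd m = N ((1+m)/2) 0 ((1-m)/2) (trace 1), ew = eQ, eVm = eV with these
parameters.  int_odd_disc: the substitution y -> -y (no integrability needed).
int_g2_disc = pi ∫ s φ² = pi (1 - 1/K).  GI: ∫_D N = pi/4, ∫_D φ²N = mw/2, area pi.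
ew: (φ+2sψ)² - 4ψ(φ+sψ)N; ∫_D F(s) N = (pi/2) ∫ s F, so the integral is (pi/2)∫((φ+2sψ)² + φ²) ds = K mw/2;
(in Neu this is contained in integral_qq_disc).  et: (pi/2)∫((η+2sη')² + η²) ds with u = 1-s:
η = u³(2-u), η + 2sη' = -12u² + 22u³ - 9u⁴; integrals 3/10 and 23/126.
eVm: (pi/2) ∫ (4s(χ+sω)² + 4sχ²) ds = (L/2) mV, compare int_qV_disc.
-/

set_option autoImplicit false

open MeasureTheory Set
open Pool.Agent.Neu
open Pool.Agent.CS4 (Prof2 bb vv eV)

namespace Pool.Agent.FND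

variable {K L : ℝ} {φ ψ χ ω : ℝ → ℝ}

private theorem di_chi (h2 : Prof2 L χ ω) : Continuous χ :=
  continuous_iff_continuousAt.2 fun s => (h2.deriv s).continuousAt

private theorem di_U (h2 : Prof2 L χ ω) {s : ℝ} (h0 : 0 < s) (h1 : s < 1) :
    HasDerivAt (fun t => t * χ t + t ^ 2 * ω t) (χ s - L / 4 * (s * χ s)) s := by
  have e1 : HasDerivAt (fun t => t * χ t) (1 * χ s + s * ω s) s :=
    (hasDerivAt_id s).mul (h2.deriv s)
  have e2 : HasDerivAt (fun t => t ^ 3 * ω t / t)
      ((-(L / 4) * (s ^ 2 * χ s) * s - s ^ 3 * ω s * 1) / s ^ 2) s :=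
    (h2.ode s h1).div (hasDerivAt_id s) h0.ne'
  have e3 : HasDerivAt (fun t => t * χ t + t ^ 3 * ω t / t)
      (1 * χ s + s * ω s + (-(L / 4) * (s ^ 2 * χ s) * s - s ^ 3 * ω s * 1) / s ^ 2) s := e1.add e2
  refine (e3.congr_of_eventuallyEq ?_).congr_deriv ?_
  · filter_upwards [Ioi_mem_nhds h0] with t ht
    have ht' : t ≠ 0 := ne_of_gt ht
    show t * χ t + t ^ 2 * ω t = t * χ t + t ^ 3 * ω t / t
    field_simp
  · have hs : s ≠ 0 := h0.ne'
    field_simp
    ring

private theorem di_H (h2 : Prof2 L χ ω) (s : ℝ) :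
    HasDerivAt (fun t => t * χ t) (χ s + s * ω s) s := by
  have e1 : HasDerivAt (fun t => t * χ t) (1 * χ s + s * ω s) s :=
    (hasDerivAt_id s).mul (h2.deriv s)
  rwa [one_mul] at e1

private theorem di_sq {f : ℝ → ℝ} {f' s : ℝ} (h : HasDerivAt f f' s) :
    HasDerivAt (fun t => f t ^ 2) (2 * f s * f') s := by
  have e : HasDerivAt (fun t => f t * f t) (f' * f s + f s * f') s := h.mul h
  have e2 : (fun t => f t ^ 2) = fun t => f t * f t := by
    funext t
    ring
  rw [e2]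
  exact e.congr_deriv (by ring)

private theorem di_chi1 (h2 : Prof2 L χ ω) : χ 1 = 1 := by
  rw [h2.out 1 le_rfl, div_one]

private theorem di_om1 (h2 : Prof2 L χ ω) : ω 1 = -1 := by
  rw [h2.outd 1 le_rfl]
  norm_num

private theorem di_mass (h2 : Prof2 L χ ω) :
    ∫ s in (0 : ℝ)..1, (χ s * s) ^ 2 = 1 - 4 / L := by
  have hL : 0 < L := by linarith [h2.L_lo]
  have hχ := di_chi h2
  have hω := h2.cont
  have key : ∫ s in (0 : ℝ)..1, L / 4 * (χ s * s) ^ 2 = L / 4 - 1 := by
    rw [intervalIntegral.integral_eq_sub_of_hasDerivAt_of_le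
      (f := fun s : ℝ => (s * χ s + s ^ 2 * ω s) ^ 2 - (s * χ s) ^ 2 + L / 4 * (s * (s * χ s) ^ 2))
      zero_le_one (Continuous.continuousOn (by fun_prop))]
    · simp only [di_chi1 h2, di_om1 h2]
      ring
    · intro s hs
      have hU := di_sq (di_U h2 hs.1 hs.2)
      have hH := di_sq (di_H h2 s)
      have hsH := (hasDerivAt_id s).mul hH
      have h := (hU.sub hH).add (hsH.const_mul (L / 4))
      refine h.congr_deriv ?_
      simp only [id]
      ring
    · exact Continuous.intervalIntegrable (by fun_prop) _ _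
  rw [intervalIntegral.integral_const_mul] at key
  field_simp at key ⊢
  linarith

private theorem di_energy (h2 : Prof2 L χ ω) :
    ∫ s in (0 : ℝ)..1, (4 * s * (χ s + s * ω s) ^ 2 + 4 * s * χ s ^ 2) = L - 4 := by
  have hL : 0 < L := by linarith [h2.L_lo]
  have hχ := di_chi h2
  have hω := h2.cont
  have hc1 : Continuous fun s => 4 * s * (χ s + s * ω s) ^ 2 + 4 * s * χ s ^ 2 := by fun_prop
  have hc2 : Continuous fun s => L * (χ s * s) ^ 2 := by fun_prop
  have key : ∫ s in (0 : ℝ)..1, ((4 * s * (χ s + s * ω s) ^ 2 + 4 * s * χ s ^ 2) -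
      L * (χ s * s) ^ 2) = 0 := by
    rw [intervalIntegral.integral_eq_sub_of_hasDerivAt_of_le
      (f := fun s : ℝ => 4 * ((s * χ s) * (s * χ s + s ^ 2 * ω s)))
      zero_le_one (Continuous.continuousOn (by fun_prop))]
    · simp only [di_chi1 h2, di_om1 h2]
      norm_num
    · intro s hs
      have h := ((di_H h2 s).mul (di_U h2 hs.1 hs.2)).const_mul 4
      refine h.congr_deriv ?_
      ring
    · exact (hc1.sub hc2).intervalIntegrable _ _
  rw [intervalIntegral.integral_sub (hc1.intervalIntegrable _ _) (hc2.intervalIntegrable _ _),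
    intervalIntegral.integral_const_mul, di_mass h2] at key
  have e : L * (1 - 4 / L) = L - 4 := by
    field_simp
  rw [e] at key
  linarith

private theorem Nd_eq (m : ℝ) (y : E) : Nd m y = N ((1 + m) / 2) 0 ((1 - m) / 2) y := by
  unfold Nd N
  ring

private theorem int_AB {A B : ℝ → ℝ} (hA : Continuous A) (hB : Continuous B) (m : ℝ) :
    ∫ y in D, (A (sq y) + B (sq y) * N ((1 + m) / 2) 0 ((1 - m) / 2) y)
      = Real.pi * ∫ s in (0 : ℝ)..1, (A s + s * B s / 2) := by
  have i1 : IntegrableOn (fun y : E => A (sq y)) D := M1x.intOn (hA.comp M1x.cont_sq) M1x.bdD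
  have i2 : IntegrableOn (fun y : E => B (sq y) * N ((1 + m) / 2) 0 ((1 - m) / 2) y) D :=
    M1x.intOn ((hB.comp M1x.cont_sq).mul (M1x.cont_N _ _ _)) M1x.bdD
  rw [integral_add i1 i2, disc_radial hA, disc_radial_N hB,
    intervalIntegral.integral_add (hA.intervalIntegrable _ _)
      (Continuous.intervalIntegrable (by fun_prop) _ _)]
  have e : ∫ s in (0 : ℝ)..1, s * B s / 2 = (∫ s in (0 : ℝ)..1, s * B s) / 2 := by
    rw [intervalIntegral.integral_div]
  rw [e]
  ring

private theorem int_F {F : E → ℝ} {A B : ℝ → ℝ} (hA : Continuous A) (hB : Continuous B) (m : ℝ)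
    (hF : ∀ y, F y = A (sq y) + B (sq y) * N ((1 + m) / 2) 0 ((1 - m) / 2) y) :
    ∫ y in D, F y = Real.pi * ∫ s in (0 : ℝ)..1, (A s + s * B s / 2) := by
  rw [← int_AB hA hB m]
  exact integral_congr_ae (Filter.Eventually.of_forall fun y => hF y)

/-- odd integrands -/
theorem int_odd_disc {F : E → ℝ} (hF : ∀ y, F (-y) = -F y) : ∫ y in D, F y = 0 := by
  have h := Radx.integral_iso (LinearIsometryEquiv.neg ℝ) F
  have h2 : ∀ y : E, F ((LinearIsometryEquiv.neg ℝ : E ≃ₗᵢ[ℝ] E) y) = - F y := by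
    intro y
    have := hF y
    simpa using this
  simp only [h2, integral_neg] at h
  linarith

theorem int_g2_disc (h : Prof K φ ψ) : ∫ y in D, sq y * φ (sq y) ^ 2 = mw K := by
  have cφ := h.phi_cont
  have h7 : ∫ y in D, sq y * φ (sq y) ^ 2 = Real.pi * ∫ s in (0 : ℝ)..1, s * φ s ^ 2 :=
    disc_radial (f := fun s => s * φ s ^ 2) (by fun_prop)
  rw [h7, mw]
  have hK : (0 : ℝ) < K := by have := h.K_lo; linarith
  have h8 := h.int2
  congr 1
  field_simp
  linarith

theorem int_GI_disc (h : Prof K φ ψ) (m : ℝ) : ∫ y in D, GI m φ y = -(Real.pi / 4) := by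
  have cφ := h.phi_cont
  rw [int_F (F := GI m φ) (A := fun s => -((1 - s * φ s ^ 2) / 2)) (B := fun s => 1 - φ s ^ 2)
    (by fun_prop) (by fun_prop) m (fun y => by rw [GI, Nd_eq]; ring)]
  have e : (fun s : ℝ => -((1 - s * φ s ^ 2) / 2) + s * (1 - φ s ^ 2) / 2)
      = fun s => (s - 1) * (1 / 2) := by
    funext s
    ring
  simp only [e]
  rw [intervalIntegral.integral_mul_const, intervalIntegral.integral_sub
    (Continuous.intervalIntegrable (by fun_prop) _ _)
    (Continuous.intervalIntegrable (by fun_prop) _ _), integral_id,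
    intervalIntegral.integral_const]
  norm_num
  ring

theorem int_N_disc (h : Prof K φ ψ) (m : ℝ) :
    ∫ y in D, (φ (sq y) ^ 2 * Nd m y + (1 - sq y * φ (sq y) ^ 2) / 2) = Real.pi / 2 := by
  have cφ := h.phi_cont
  rw [int_F (F := fun y => φ (sq y) ^ 2 * Nd m y + (1 - sq y * φ (sq y) ^ 2) / 2)
    (A := fun s => (1 - s * φ s ^ 2) / 2) (B := fun s => φ s ^ 2)
    (by fun_prop) (by fun_prop) m (fun y => by rw [Nd_eq]; ring)]
  have e : (fun s : ℝ => (1 - s * φ s ^ 2) / 2 + s * φ s ^ 2 / 2)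
      = fun _ => 1 / 2 := by
    funext s
    ring
  simp only [e]
  rw [intervalIntegral.integral_const]
  norm_num
  ring

private theorem int_ew_gen {f f' : ℝ → ℝ} (hf : Continuous f) (hf' : Continuous f') (m : ℝ) :
    ∫ y in D, ew m f f' y = Real.pi / 2 * ∫ s in (0 : ℝ)..1, ((f s + 2 * s * f' s) ^ 2 + f s ^ 2) := by
  rw [int_F (F := ew m f f') (A := fun s => (f s + 2 * s * f' s) ^ 2)
    (B := fun s => -(4 * f' s * (f s + s * f' s)))
    (by fun_prop) (by fun_prop) m (fun y => by rw [ew, eQ]; ring)]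
  rw [div_mul_eq_mul_div, mul_div_assoc, ← intervalIntegral.integral_div]
  congr 1
  refine intervalIntegral.integral_congr fun s _ => ?_
  ring

theorem int_ew_disc (h : Prof K φ ψ) (m : ℝ) : ∫ y in D, ew m φ ψ y = K * mw K / 2 := by
  rw [int_ew_gen h.phi_cont h.cont, h.int1, h.int2, mw]
  have hK : (0 : ℝ) < K := by have := h.K_lo; linarith
  field_simp

private theorem et_cont : Continuous et := by
  unfold et
  refine Continuous.if_le (by fun_prop) continuous_const continuous_id continuous_const ?_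
  intro x hx
  rw [hx]
  norm_num

private theorem etd_cont : Continuous etd := by
  unfold etd
  refine Continuous.if_le (by fun_prop) continuous_const continuous_id continuous_const ?_
  intro x hx
  rw [hx]
  norm_num

theorem int_ew_et_disc (m : ℝ) :
    ∫ y in D, ew m et etd y = Real.pi * (3 / 20 + 23 / 252) := by
  rw [int_ew_gen et_cont etd_cont]
  have e1 : ∫ s in (0 : ℝ)..1, ((et s + 2 * s * etd s) ^ 2 + et s ^ 2)
      = ∫ s in (0 : ℝ)..1, (fun u : ℝ => (-12 * u ^ 2 + 22 * u ^ 3 - 9 * u ^ 4) ^ 2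
        + (2 * u ^ 3 - u ^ 4) ^ 2) (1 - s) := by
    refine intervalIntegral.integral_congr fun s hs => ?_
    rw [uIcc_of_le zero_le_one] at hs
    simp only [et, etd, if_pos hs.2]
    ring
  rw [e1, intervalIntegral.integral_comp_sub_left (fun u : ℝ =>
    (-12 * u ^ 2 + 22 * u ^ 3 - 9 * u ^ 4) ^ 2 + (2 * u ^ 3 - u ^ 4) ^ 2) 1]
  rw [sub_self, sub_zero]
  have e2 : ∀ x : ℝ, HasDerivAt (fun u : ℝ => 144 / 5 * u ^ 5 - 88 * u ^ 6 + (488 + 216) / 7 * u ^ 7
      - 50 * u ^ 8 + 82 / 9 * u ^ 9)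
      ((-12 * x ^ 2 + 22 * x ^ 3 - 9 * x ^ 4) ^ 2 + (2 * x ^ 3 - x ^ 4) ^ 2) x := by
    intro x
    have h5 := (hasDerivAt_pow 5 x).const_mul (144 / 5 : ℝ)
    have h6 := (hasDerivAt_pow 6 x).const_mul (88 : ℝ)
    have h7 := (hasDerivAt_pow 7 x).const_mul ((488 + 216) / 7 : ℝ)
    have h8 := (hasDerivAt_pow 8 x).const_mul (50 : ℝ)
    have h9 := (hasDerivAt_pow 9 x).const_mul (82 / 9 : ℝ)
    refine ((((h5.sub h6).add h7).sub h8).add h9).congr_deriv ?_
    norm_num
    ring
  rw [intervalIntegral.integral_eq_sub_of_hasDerivAt (fun x _ => e2 x)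
    (Continuous.intervalIntegrable (by fun_prop) _ _)]
  norm_num
  ring

theorem int_eVm_disc (h2 : Prof2 L χ ω) (m : ℝ) : ∫ y in D, eVm m χ ω y = L / 2 * mV L := by
  have hχ := di_chi h2
  have hω := h2.cont
  have e0 := di_energy h2
  rw [int_F (F := eVm m χ ω) (A := fun s => 4 * s * (χ s + s * ω s) ^ 2)
    (B := fun s => -(4 * s * ω s * (2 * χ s + s * ω s)))
    (by fun_prop) (by fun_prop) m (fun y => by rw [eVm, eV]; ring)]
  have e : (fun s : ℝ => 4 * s * (χ s + s * ω s) ^ 2 + s * -(4 * s * ω s * (2 * χ s + s * ω s)) / 2)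
      = fun s => 1 / 2 * (4 * s * (χ s + s * ω s) ^ 2 + 4 * s * χ s ^ 2) := by
    funext s
    ring
  simp only [e]
  rw [intervalIntegral.integral_const_mul, e0, mV]
  have hL : 0 < L := by linarith [h2.L_lo]
  field_simp

end Pool.Agent.FND
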