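import Pool.Agent.FND.Defs
import Pool.Agent.FND.DIa
import Pool.Agent.FND.Cst

/-!
FND-DI: integrals over the disc, second part.

Plan.  zt = η + a0 φ.  ew m zt ztd integrates to (pi/2) ∫ ((zt+2s ztd)² + zt²) ds
= (pi/2) [∫((η+2sη')²+η²) + 2 a0 ∫((η+2sη')(φ+2sψ) + ηφ) + a0² ∫((φ+2sψ)²+φ²)] and the mixed integral is
K ∫ s η φ ds: indeed with r-variables it is the weak form of the equation of g tested with ζ; in the variable
s: d/ds (2 s η (φ + 2sψ)) = (η+2sη')(φ+2sψ) + ηφ - K s η φ ... check with Prof.ode ((s²ψ)' = -(K/4) s φ, i.e.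
s ψ' = -2ψ - (K/4) φ) and integrate (boundary terms 0, η(1) = 0).
eA: the mixed term X3 is odd under y -> -y (int_odd_disc), rest int_eVm_disc.
A2: |A|² = (sχ)² - 2 χ zt R3 + p s zt²; R3 odd; s zt² = s η² + 2 a0 s η φ + a0² s φ², ∫_0^1 s η² = 17/630.
nr: definition, the term with R3 is odd.
-/

set_option autoImplicit false

open MeasureTheory Set
open Pool.Agent.Neu
open Pool.Agent.CS4 (Prof2 bb vv eV)

namespace Pool.Agent.FND

variable {K L : ℝ} {φ ψ χ ω : ℝ → ℝ}

private theorem di_ew {ζ ζ' : ℝ → ℝ} (h : Continuous ζ) (h' : Continuous ζ') (m : ℝ) :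
    ∫ y in D, ew m ζ ζ' y
      = Real.pi / 2 * ∫ s in (0 : ℝ)..1, ((ζ s + 2 * s * ζ' s) ^ 2 + ζ s ^ 2) := by
  set A : ℝ → ℝ := fun s => ((1 + m) / 2 + (1 - m) / 2) * (ζ s + 2 * s * ζ' s) ^ 2 with hA
  set B : ℝ → ℝ := fun s => - 4 * ζ' s * (ζ s + s * ζ' s) with hB
  have cA : Continuous A := by rw [hA]; fun_prop
  have cB : Continuous B := by rw [hB]; fun_prop
  have i1 : IntegrableOn (fun y : E => A (sq y)) D := M1x.intOn (cA.comp M1x.cont_sq) M1x.bdD
  have i2 : IntegrableOn (fun y : E => B (sq y) * N ((1 + m) / 2) 0 ((1 - m) / 2) y) D :=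
    M1x.intOn ((cB.comp M1x.cont_sq).mul (M1x.cont_N _ _ _)) M1x.bdD
  have e2 : ∫ y in D, ew m ζ ζ' y
      = (∫ y in D, A (sq y)) + ∫ y in D, B (sq y) * N ((1 + m) / 2) 0 ((1 - m) / 2) y := by
    rw [← integral_add i1 i2]
    refine integral_congr_ae (Filter.Eventually.of_forall fun y => ?_)
    simp only [hA, hB, ew, eQ]
    ring
  rw [e2, disc_radial cA, disc_radial_N cB]
  have e3 : ((1 + m) / 2 + (1 - m) / 2) / 2 * (Real.pi * ∫ s in (0 : ℝ)..1, s * B s)
      = Real.pi * ∫ s in (0 : ℝ)..1, 1 / 2 * (s * B s) := by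
    rw [intervalIntegral.integral_const_mul]
    ring
  rw [e3, ← mul_add, ← intervalIntegral.integral_add]
  · have e4 : (fun s : ℝ => A s + 1 / 2 * (s * B s))
        = fun s => 1 / 2 * ((ζ s + 2 * s * ζ' s) ^ 2 + ζ s ^ 2) := by
      funext s
      simp only [hA, hB]
      ring
    rw [e4, intervalIntegral.integral_const_mul]
    ring
  · exact cA.intervalIntegrable _ _
  · exact Continuous.intervalIntegrable (by fun_prop) _ _

private theorem di_mix (h : Prof K φ ψ) :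
    ∫ s in (0 : ℝ)..1, ((et s + 2 * s * etd s) * (φ s + 2 * s * ψ s) + et s * φ s)
      = K * ∫ s in (0 : ℝ)..1, s * et s * φ s := by
  have hφ := h.phi_cont
  have hψ := h.cont
  have he := cont_et
  have hed := cont_etd
  have hc1 : Continuous fun s => (et s + 2 * s * etd s) * (φ s + 2 * s * ψ s) + et s * φ s := by
    fun_prop
  have hc2 : Continuous fun s : ℝ => s * et s * φ s := by fun_prop
  have h1e : et 1 = 0 := by
    unfold et
    rw [if_pos le_rfl]
    norm_num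
  have key : ∫ s in (0 : ℝ)..1, (((et s + 2 * s * etd s) * (φ s + 2 * s * ψ s) + et s * φ s) -
      K * (s * et s * φ s)) = 0 := by
    have hcF : Continuous fun s : ℝ => 2 * s * et s * φ s + 4 * (s ^ 2 * ψ s) * et s := by fun_prop
    rw [intervalIntegral.integral_eq_sub_of_hasDerivAt_of_le
      (f := fun s : ℝ => 2 * s * et s * φ s + 4 * (s ^ 2 * ψ s) * et s) zero_le_one
      hcF.continuousOn]
    · simp only [h1e]
      ring
    · intro s hs
      have h1 := h.deriv s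
      have h2 := h.ode s hs.2
      have h5 := deriv_et s
      have h3 : HasDerivAt (fun s : ℝ => 2 * s) 2 s := by
        simpa using (hasDerivAt_id s).const_mul (2 : ℝ)
      have h4 := ((h3.mul h5).mul h1).add ((h2.const_mul (4 : ℝ)).mul h5)
      refine h4.congr_deriv ?_
      simp only [Pi.mul_apply]
      ring
    · exact (hc1.sub (hc2.const_mul K)).intervalIntegrable _ _
  rw [intervalIntegral.integral_sub (hc1.intervalIntegrable _ _)
    ((hc2.const_mul K).intervalIntegrable _ _), intervalIntegral.integral_const_mul] at key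
  linarith

private theorem di_kap (φ : ℝ → ℝ) :
    ∫ s in (0 : ℝ)..1, s * et s * φ s = kap φ / Real.pi := by
  unfold kap
  have := Real.pi_ne_zero
  field_simp

private theorem di_phi2 (h : Prof K φ ψ) : ∫ s in (0 : ℝ)..1, s * φ s ^ 2 = mw K / Real.pi := by
  have h1 := h.int2
  have hK : K ≠ 0 := by
    have := h.K_lo
    intro h0
    rw [h0] at this
    norm_num at this
  have hp := Real.pi_ne_zero
  unfold mw
  field_simp
  linarith

private theorem di_et2 : ∫ s in (0 : ℝ)..1, s * et s ^ 2 = 17 / 630 := by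
  have e1 : ∫ s in (0 : ℝ)..1, s * et s ^ 2 =
      ∫ s in (0 : ℝ)..1, s * ((1 - s) ^ 3 * (1 + s)) ^ 2 := by
    refine intervalIntegral.integral_congr fun s hs => ?_
    rw [uIcc_of_le zero_le_one] at hs
    show s * et s ^ 2 = _
    rw [et, if_pos hs.2]
  rw [e1]
  have hd : ∀ s ∈ uIcc (0 : ℝ) 1, HasDerivAt (fun s : ℝ => -(4 / 7 * (1 - s) ^ 7 -
      (1 - s) ^ 8 + 5 / 9 * (1 - s) ^ 9 - 1 / 10 * (1 - s) ^ 10))
      (s * ((1 - s) ^ 3 * (1 + s)) ^ 2) s := by
    intro s _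
    have h : HasDerivAt (fun s : ℝ => 1 - s) (-1) s := by
      have h0 := (hasDerivAt_id s).const_sub 1
      exact h0
    have h1 := ((((h.pow 7).const_mul (4 / 7)).sub (h.pow 8)).add
      ((h.pow 9).const_mul (5 / 9))).sub ((h.pow 10).const_mul (1 / 10))
    have h2 := h1.neg
    refine h2.congr_deriv ?_
    push_cast
    ring
  rw [intervalIntegral.integral_eq_sub_of_hasDerivAt hd ?_]
  · norm_num
  · exact (by fun_prop : Continuous fun s : ℝ =>
      s * ((1 - s) ^ 3 * (1 + s)) ^ 2).intervalIntegrable _ _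

private theorem di_R3 (a b : ℝ) (y : E) : R3 a b (-y) = -R3 a b y := by
  simp only [R3, c3, s3, PiLp.neg_apply]
  ring

private theorem di_R1 (a b : ℝ) (y : E) : R1 a b (-y) = -R1 a b y := by
  simp only [R1, PiLp.neg_apply]
  ring

private theorem di_sq (y : E) : sq (-y) = sq y := by
  unfold Neu.sq
  simp only [PiLp.neg_apply]
  ring

private theorem di_i3 {F G H : E → ℝ} (cF : Continuous F) (cG : Continuous G) (cH : Continuous H) :
    ∫ y in D, (F y + G y - H y) = (∫ y in D, F y) + (∫ y in D, G y) - ∫ y in D, H y := by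
  have j1 : IntegrableOn F D := M1x.intOn cF M1x.bdD
  have j2 : IntegrableOn G D := M1x.intOn cG M1x.bdD
  have j3 : IntegrableOn H D := M1x.intOn cH M1x.bdD
  have e1 : ∫ y in D, (F y + G y - H y) = (∫ y in D, (F y + G y)) - ∫ y in D, H y :=
    integral_sub (j1.add j2) j3
  rw [e1, integral_add j1 j2]

private theorem di_l3 {A B C : ℝ → ℝ} (cA : Continuous A) (cB : Continuous B) (cC : Continuous C)
    (x z : ℝ) : ∫ s in (0 : ℝ)..1, ((A s + x * B s) + z * C s) =
      ((∫ s in (0 : ℝ)..1, A s) + x * ∫ s in (0 : ℝ)..1, B s) + z * ∫ s in (0 : ℝ)..1, C s := by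
  have j1 : IntervalIntegrable A volume 0 1 := cA.intervalIntegrable _ _
  have j2 : IntervalIntegrable (fun s => x * B s) volume 0 1 :=
    (cB.const_mul x).intervalIntegrable _ _
  have j3 : IntervalIntegrable (fun s => z * C s) volume 0 1 :=
    (cC.const_mul z).intervalIntegrable _ _
  have e1 : ∫ s in (0 : ℝ)..1, ((A s + x * B s) + z * C s) =
      (∫ s in (0 : ℝ)..1, (A s + x * B s)) + ∫ s in (0 : ℝ)..1, z * C s :=
    intervalIntegral.integral_add (j1.add j2) j3
  rw [e1, intervalIntegral.integral_add j1 j2, intervalIntegral.integral_const_mul,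
    intervalIntegral.integral_const_mul]

private theorem di_Nd (m : ℝ) (y : E) : Nd m (-y) = Nd m y := by
  simp only [Nd, PiLp.neg_apply]
  ring

private theorem di_contR3 (a b : ℝ) : Continuous (R3 a b) := by
  unfold R3 c3 s3
  fun_prop

theorem int_ew_zt_disc (h : Prof K φ ψ) (m : ℝ) :
    ∫ y in D, ew m (zt K φ) (ztd K φ ψ) y = CZ K φ := by
  have hφ := h.phi_cont
  have hψ := h.cont
  have he := cont_et
  have hed := cont_etd
  have hp := Real.pi_ne_zero
  have e0 := int_ew_et_disc m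
  rw [di_ew he hed m] at e0
  rw [di_ew (cont_zt h) (cont_ztd h) m]
  have e1 := di_mix h
  rw [di_kap] at e1
  have e2 := h.int1
  rw [di_phi2 h] at e2
  have c0 : Continuous fun s => (et s + 2 * s * etd s) ^ 2 + et s ^ 2 := by fun_prop
  have c1 : Continuous fun s => (et s + 2 * s * etd s) * (φ s + 2 * s * ψ s) + et s * φ s := by
    fun_prop
  have c2 : Continuous fun s => (φ s + 2 * s * ψ s) ^ 2 + φ s ^ 2 := by fun_prop
  have e3 : (fun s : ℝ => (zt K φ s + 2 * s * ztd K φ ψ s) ^ 2 + zt K φ s ^ 2) = fun s =>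
      (((et s + 2 * s * etd s) ^ 2 + et s ^ 2) + 2 * a0 K φ *
        ((et s + 2 * s * etd s) * (φ s + 2 * s * ψ s) + et s * φ s)) +
      a0 K φ ^ 2 * ((φ s + 2 * s * ψ s) ^ 2 + φ s ^ 2) := by
    funext s
    simp only [zt, ztd]
    ring
  rw [e3, di_l3 c0 c1 c2, e1, e2]
  unfold CZ
  rw [← e0]
  field_simp

theorem int_eA_disc (h : Prof K φ ψ) (h2 : Prof2 L χ ω) (m a b : ℝ) :
    ∫ y in D, eA m a b χ ω (zt K φ) (ztd K φ ψ) y = L / 2 * mV L + (a ^ 2 + b ^ 2) * CZ K φ := by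
  have cV := cont_eVm h2 m
  have cw := cont_ew (cont_zt h) (cont_ztd h) m
  have cA := cont_eA h2 (cont_zt h) (cont_ztd h) m a b
  have hX : ∀ y, 2 * X3 m a b χ ω (zt K φ) (ztd K φ ψ) y =
      (eVm m χ ω y + (a ^ 2 + b ^ 2) * ew m (zt K φ) (ztd K φ ψ) y) -
        eA m a b χ ω (zt K φ) (ztd K φ ψ) y := by
    intro y
    unfold eA
    ring
  have o1 : ∫ y in D, 2 * X3 m a b χ ω (zt K φ) (ztd K φ ψ) y = 0 := by
    refine int_odd_disc fun y => ?_
    unfold X3
    rw [di_R3, di_R1, di_sq, di_Nd]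
    ring
  simp only [hX] at o1
  rw [di_i3 cV (cw.const_mul _) cA, integral_const_mul, int_eVm_disc h2 m,
    int_ew_zt_disc h m] at o1
  linarith

private theorem di_A2 (a b : ℝ) (y : E) :
    Af χ (zt K φ) a b 0 y ^ 2 + Af χ (zt K φ) a b 1 y ^ 2 =
      ((χ (sq y) * sq y) ^ 2 + (a ^ 2 + b ^ 2) * (sq y * zt K φ (sq y) ^ 2)) -
        2 * (χ (sq y) * zt K φ (sq y) * R3 a b y) := by
  have e0 : pb a b 0 y = a * y 0 + b * y 1 := by
    unfold pb
    rw [if_pos rfl]
  have e1 : pb a b 1 y = b * y 0 - a * y 1 := by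
    unfold pb
    rw [if_neg (by decide)]
  have f0 : vv χ 0 y = χ (sq y) * (y 0 ^ 2 - y 1 ^ 2) := by
    unfold vv bb
    rw [if_pos rfl]
  have f1 : vv χ 1 y = χ (sq y) * (2 * (y 0 * y 1)) := by
    unfold vv bb
    rw [if_neg (by decide)]
  unfold Af
  rw [e0, e1, f0, f1]
  unfold R3 c3 s3
  obtain ⟨x, hx⟩ : ∃ x, x = χ (sq y) := ⟨_, rfl⟩
  obtain ⟨z, hz⟩ : ∃ z, z = zt K φ (sq y) := ⟨_, rfl⟩
  rw [← hx, ← hz]
  unfold Neu.sq
  ring

theorem int_A2_disc (h : Prof K φ ψ) (h2 : Prof2 L χ ω) (a b : ℝ) :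
    ∫ y in D, (Af χ (zt K φ) a b 0 y ^ 2 + Af χ (zt K φ) a b 1 y ^ 2)
      = mV L + (a ^ 2 + b ^ 2) *
        (Real.pi * (17 / 630) + 2 * a0 K φ * kap φ + a0 K φ ^ 2 * mw K) := by
  have hφ := h.phi_cont
  have he := cont_et
  have hz := cont_zt h
  have hχ : Continuous χ := continuous_iff_continuousAt.2 fun s => (h2.deriv s).continuousAt
  have hp := Real.pi_ne_zero
  have cs := M1x.cont_sq
  have cR := di_contR3 a b
  simp only [di_A2]
  have o1 : ∫ y in D, 2 * (χ (sq y) * zt K φ (sq y) * R3 a b y) = 0 := by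
    refine int_odd_disc fun y => ?_
    rw [di_R3, di_sq]
    ring
  have j1 : Continuous (fun y : E => (χ (sq y) * sq y) ^ 2) := by fun_prop
  have j2 : Continuous (fun y : E => (a ^ 2 + b ^ 2) * (sq y * zt K φ (sq y) ^ 2)) := by fun_prop
  have j3 : Continuous (fun y : E => 2 * (χ (sq y) * zt K φ (sq y) * R3 a b y)) := by fun_prop
  rw [di_i3 j1 j2 j3, o1, integral_const_mul, CS4.mass_disc h2]
  have e1 : ∫ y in D, sq y * zt K φ (sq y) ^ 2 =
      Real.pi * ∫ s in (0 : ℝ)..1, s * zt K φ s ^ 2 :=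
    disc_radial (f := fun s => s * zt K φ s ^ 2) (by fun_prop)
  have c0 : Continuous fun s : ℝ => s * et s ^ 2 := by fun_prop
  have c1 : Continuous fun s : ℝ => s * et s * φ s := by fun_prop
  have c2 : Continuous fun s : ℝ => s * φ s ^ 2 := by fun_prop
  have e3 : (fun s : ℝ => s * zt K φ s ^ 2) = fun s =>
      (s * et s ^ 2 + 2 * a0 K φ * (s * et s * φ s)) + a0 K φ ^ 2 * (s * φ s ^ 2) := by
    funext s
    simp only [zt]
    ring
  rw [e1, e3, di_l3 c0 c1 c2, di_et2, di_kap, di_phi2 h]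
  unfold mV
  field_simp
  ring

theorem int_nr_disc (h : Prof K φ ψ) (h2 : Prof2 L χ ω) (a b : ℝ) :
    ∫ y in D, nr K φ χ a b y = mV L + (a ^ 2 + b ^ 2) *
        (Real.pi * (17 / 630) + 2 * a0 K φ * kap φ + a0 K φ ^ 2 * mw K)
        - Real.pi * (1 + a0 K φ ^ 2 * (a ^ 2 + b ^ 2)) := by
  have hφ := h.phi_cont
  have hχ : Continuous χ := continuous_iff_continuousAt.2 fun s => (h2.deriv s).continuousAt
  have cs := M1x.cont_sq
  have cR := di_contR3 a b
  have c0 := cont_Af h2 (cont_zt h) a b 0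
  have c1 := cont_Af h2 (cont_zt h) a b 1
  have o1 : ∫ y in D, 2 * a0 K φ * (φ (sq y) * χ (sq y) * R3 a b y) = 0 := by
    refine int_odd_disc fun y => ?_
    rw [di_R3, di_sq]
    ring
  have j1 : Continuous (fun y : E => Af χ (zt K φ) a b 0 y ^ 2 + Af χ (zt K φ) a b 1 y ^ 2) := by
    fun_prop
  have j2 : Continuous (fun _ : E => 1 + a0 K φ ^ 2 * (a ^ 2 + b ^ 2)) := continuous_const
  have j3 : Continuous (fun y : E => 2 * a0 K φ * (φ (sq y) * χ (sq y) * R3 a b y)) := by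
    fun_prop
  have hv : volume.real (D : Set E) = Real.pi := by
    unfold Measure.real
    rw [disc_volume, ENNReal.toReal_ofReal Real.pi_nonneg]
  have e0 : ∀ y : E, nr K φ χ a b y = (Af χ (zt K φ) a b 0 y ^ 2 + Af χ (zt K φ) a b 1 y ^ 2) +
      2 * a0 K φ * (φ (sq y) * χ (sq y) * R3 a b y) - (1 + a0 K φ ^ 2 * (a ^ 2 + b ^ 2)) := by
    intro y
    unfold nr
    ring
  simp only [e0]
  rw [di_i3 j1 j3 j2, o1, int_A2_disc h h2 a b, setIntegral_const, hv, smul_eq_mul]
  ring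

end Pool.Agent.FND
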