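import Pool.Agent.FND.Defs
import Pool.Agent.FND.Base
import Pool.Agent.FND.DI

/-!
FND-Wid: identities for `W`.
-/

set_option autoImplicit false

open MeasureTheory Set
open Pool.Agent.Neu
open Pool.Agent.CS4 (Prof2 bb vv eV)

namespace Pool.Agent.FND

variable {K L : ℝ} {φ ψ χ ω : ℝ → ℝ}

private theorem wi_chi (h2 : Prof2 L χ ω) : Continuous χ :=
  continuous_iff_continuousAt.2 fun x => (h2.deriv x).continuousAt

private theorem wi_Nd (m : ℝ) : Continuous (Nd m) := by
  unfold Nd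
  fun_prop

private theorem wi_volW {W : Set E} {a b : ℝ} (hW : WS φ χ W a b) : volume.real W = Real.pi := by
  unfold Measure.real
  rw [hW.vol, ENNReal.toReal_ofReal Real.pi_pos.le]

private theorem wi_const {W : Set E} {a b : ℝ} (hW : WS φ χ W a b) (c : ℝ) :
    ∫ _y in W, c = Real.pi * c := by
  rw [setIntegral_const, wi_volW hW, smul_eq_mul]

theorem W_N {W : Set E} {a b : ℝ} (h : Prof K φ ψ) (hW : WS φ χ W a b) (m : ℝ) :
    ∫ y in W, (φ (sq y) ^ 2 * Nd m y + (1 - sq y * φ (sq y) ^ 2) / 2) = Real.pi / 2 := by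
  have cp := h.phi_cont
  have cs := M1x.cont_sq
  have cw0 := M1x.cont_w h 0
  have cw1 := M1x.cont_w h 1
  have e1 : ∀ y : E, φ (sq y) ^ 2 * Nd m y + (1 - sq y * φ (sq y) ^ 2) / 2 =
      1 / 2 - m / 2 * (w φ 0 y ^ 2 - w φ 1 y ^ 2) := by
    intro y
    simp only [Nd, w, Pool.Agent.Neu.sq]
    ring
  have e2 : ∫ y in W, (φ (sq y) ^ 2 * Nd m y + (1 - sq y * φ (sq y) ^ 2) / 2) =
      ∫ y in W, (1 / 2 - m / 2 * (w φ 0 y ^ 2 - w φ 1 y ^ 2)) :=
    integral_congr_ae (Filter.Eventually.of_forall fun y => e1 y)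
  have i1 : IntegrableOn (fun _ : E => (1 / 2 : ℝ)) W := M1x.intOn continuous_const hW.bdd
  have i2 : IntegrableOn (fun y : E => m / 2 * (w φ 0 y ^ 2 - w φ 1 y ^ 2)) W :=
    M1x.intOn (by fun_prop) hW.bdd
  rw [e2, integral_sub i1 i2, wi_const hW, integral_const_mul, hW.w1]
  ring

theorem W_P {W : Set E} {a b : ℝ} (h : Prof K φ ψ) (h2 : Prof2 L χ ω) (hW : WS φ χ W a b) :
    ∫ y in W, φ (sq y) * χ (sq y) * R3 a b y = a ^ 2 + b ^ 2 := by
  have cp := h.phi_cont
  have cx := wi_chi h2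
  have cs := M1x.cont_sq
  have e1 : ∀ y : E, φ (sq y) * χ (sq y) * R3 a b y =
      a * (φ (sq y) * χ (sq y) * c3 y) + b * (φ (sq y) * χ (sq y) * s3 y) := by
    intro y
    simp only [R3]
    ring
  have e2 : ∫ y in W, φ (sq y) * χ (sq y) * R3 a b y =
      ∫ y in W, (a * (φ (sq y) * χ (sq y) * c3 y) + b * (φ (sq y) * χ (sq y) * s3 y)) :=
    integral_congr_ae (Filter.Eventually.of_forall fun y => e1 y)
  have c1 : Continuous c3 := by
    unfold c3
    fun_prop
  have c2 : Continuous s3 := by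
    unfold s3
    fun_prop
  have i1 : IntegrableOn (fun y : E => a * (φ (sq y) * χ (sq y) * c3 y)) W :=
    M1x.intOn (by fun_prop) hW.bdd
  have i2 : IntegrableOn (fun y : E => b * (φ (sq y) * χ (sq y) * s3 y)) W :=
    M1x.intOn (by fun_prop) hW.bdd
  rw [e2, integral_add i1 i2, integral_const_mul, integral_const_mul, hW.Pa, hW.Pb]
  ring

theorem W_R1 {W : Set E} {a b : ℝ} (h : Prof K φ ψ) (hW : WS φ χ W a b) (a' b' : ℝ) :
    ∫ y in W, φ (sq y) * R1 a' b' y = 0 := by
  have cw0 := M1x.cont_w h 0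
  have cw1 := M1x.cont_w h 1
  have e1 : ∀ y : E, φ (sq y) * R1 a' b' y = a' * w φ 0 y + b' * w φ 1 y := by
    intro y
    simp only [R1, w]
    ring
  have e2 : ∫ y in W, φ (sq y) * R1 a' b' y = ∫ y in W, (a' * w φ 0 y + b' * w φ 1 y) :=
    integral_congr_ae (Filter.Eventually.of_forall fun y => e1 y)
  have i1 : IntegrableOn (fun y : E => a' * w φ 0 y) W := M1x.intOn (by fun_prop) hW.bdd
  have i2 : IntegrableOn (fun y : E => b' * w φ 1 y) W := M1x.intOn (by fun_prop) hW.bdd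
  rw [e2, integral_add i1 i2, integral_const_mul, integral_const_mul, hW.w0 0, hW.w0 1]
  ring

/-- `∫_W g² = mw + ∫_S (1 - g²)` -/
theorem W_M1 {W : Set E} {a b : ℝ} (h : Prof K φ ψ) (hW : WS φ χ W a b) :
    ∫ y in W, sq y * φ (sq y) ^ 2 = mw K + ∫ y in D \ W, (1 - sq y * φ (sq y) ^ 2) := by
  have cp := h.phi_cont
  have cs := M1x.cont_sq
  have cF : Continuous (fun y : E => sq y * φ (sq y) ^ 2) := by fun_prop
  have bS : Bornology.IsBounded (D \ W : Set E) := M1x.bdD.subset sdiff_subset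
  have e1 := split_int hW.meas hW.bdd cF
  have e2 : ∫ y in W \ D, sq y * φ (sq y) ^ 2 = volume.real (W \ D) := by
    have e3 : ∫ y in W \ D, sq y * φ (sq y) ^ 2 = ∫ _y in W \ D, (1 : ℝ) := by
      refine setIntegral_congr_fun (hW.meas.diff M1x.measD) (fun y hy => ?_)
      have h3 : 1 ≤ sq y := by
        by_contra h4
        exact hy.2 (M1x.mem_D.2 (not_le.1 h4))
      have h4 := phi_out h h3
      show sq y * φ (sq y) ^ 2 = 1
      rw [mul_comm]
      exact h4
    rw [e3, setIntegral_const, smul_eq_mul, mul_one]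
  have i1 : IntegrableOn (fun _ : E => (1 : ℝ)) (D \ W) := M1x.intOn continuous_const bS
  have i2 : IntegrableOn (fun y : E => sq y * φ (sq y) ^ 2) (D \ W) := M1x.intOn cF bS
  have e4 : ∫ y in D \ W, (1 - sq y * φ (sq y) ^ 2) =
      volume.real (D \ W) - ∫ y in D \ W, sq y * φ (sq y) ^ 2 := by
    rw [integral_sub i1 i2, setIntegral_const, smul_eq_mul, mul_one]
  have e5 := M1x.vol_diff hW.meas hW.vol
  rw [e1, int_g2_disc h, e2, e4, e5]
  ring

/-- `I = ∫_O GI - ∫_S GI` -/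
theorem II_eq {W : Set E} {a b : ℝ} (h : Prof K φ ψ) (hW : WS φ χ W a b) (m : ℝ) :
    II m φ W = (∫ y in W \ D, GI m φ y) - ∫ y in D \ W, GI m φ y := by
  have e1 := split_int hW.meas hW.bdd (cont_GI h m)
  unfold II
  rw [e1, int_GI_disc h m]
  ring

/-- the variance -/
theorem var_eq {W : Set E} {a b : ℝ} (h : Prof K φ ψ) (hW : WS φ χ W a b) (m : ℝ) {x : E}
    (hx : ∀ i, Real.pi * x i = ∫ y in W, y i) :
    ∫ y in W, Nd m (y - x) = Real.pi / 4 + II m φ W - Real.pi * Nd m x := by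
  have cp := h.phi_cont
  have cs := M1x.cont_sq
  have cN := wi_Nd m
  have e1 : ∀ y : E, Nd m (y - x) =
      (Nd m y - ((1 - m) * x 0 * y 0 + (1 + m) * x 1 * y 1)) + Nd m x := by
    intro y
    simp only [Nd, PiLp.sub_apply]
    ring
  have e2 : ∫ y in W, Nd m (y - x) =
      ∫ y in W, ((Nd m y - ((1 - m) * x 0 * y 0 + (1 + m) * x 1 * y 1)) + Nd m x) :=
    integral_congr_ae (Filter.Eventually.of_forall fun y => e1 y)
  have i1 : IntegrableOn (fun y : E => Nd m y) W := M1x.intOn cN hW.bdd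
  have i2 : IntegrableOn (fun y : E => (1 - m) * x 0 * y 0) W :=
    M1x.intOn (by fun_prop) hW.bdd
  have i3 : IntegrableOn (fun y : E => (1 + m) * x 1 * y 1) W :=
    M1x.intOn (by fun_prop) hW.bdd
  have i4 : IntegrableOn (fun _ : E => Nd m x) W := M1x.intOn continuous_const hW.bdd
  have e3 : ∫ y in W, Nd m y = Real.pi / 4 + II m φ W := by
    have i5 : IntegrableOn (fun y : E => GI m φ y) W := M1x.intOn (cont_GI h m) hW.bdd
    have i6 : IntegrableOn
        (fun y : E => φ (sq y) ^ 2 * Nd m y + (1 - sq y * φ (sq y) ^ 2) / 2) W :=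
      M1x.intOn (by fun_prop) hW.bdd
    have e4 : ∫ y in W, Nd m y = ∫ y in W, (GI m φ y +
        (φ (sq y) ^ 2 * Nd m y + (1 - sq y * φ (sq y) ^ 2) / 2)) := by
      refine integral_congr_ae (Filter.Eventually.of_forall fun y => ?_)
      simp only [GI]
      ring
    rw [e4, integral_add i5 i6, W_N h hW m]
    unfold II
    ring
  have i7 : IntegrableOn (fun y : E => (1 - m) * x 0 * y 0 + (1 + m) * x 1 * y 1) W := i2.add i3
  have i8 : IntegrableOn
      (fun y : E => Nd m y - ((1 - m) * x 0 * y 0 + (1 + m) * x 1 * y 1)) W := i1.sub i7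
  rw [e2, integral_add i8 i4, integral_sub i1 i7, integral_add i2 i3, integral_const_mul,
    integral_const_mul, wi_const hW, ← hx 0, ← hx 1, e3]
  simp only [Nd]
  ring

/-- volumes of `O` and `S` -/
theorem vol_OS {W : Set E} {a b : ℝ} (hW : WS φ χ W a b) :
    volume.real (W \ D) = volume.real (D \ W) := by
  exact M1x.vol_diff hW.meas hW.vol

end Pool.Agent.FND
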