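import Pool.Agent.FND.Defs
import Pool.Agent.FND.Base
import Pool.Agent.FND.DIa
import Pool.Agent.FND.Wid
import Pool.Agent.FND.Cst
import Pool.Agent.Neu.Main2

/-!
FND-CenI: bounds for the centroid.

Plan.
1. cen_sqrt.  As in Neu: ∫_W φ(s) y = 0 (WS) and ∫_D (anything radial) y = 0, so
pi x = ∫_W (1-φ) y = ∫_{W\D} y - ∫_{D\W} ... : pi x = ∫_{W\D} (1 - φ) y + ∫_{D\W} (φ - 1) y
(here φ is the profile, for s > 1 it is given by φ(s) with g = rφ(r²) as in Prof; see Defs).  √N is a norm, so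
the triangle inequality for integrals gives the statement: test with one vector: for e with N-dual
norm 1, <e, pi x> = sum of ∫ (..)<e,y> and <e,y> <= √N(y) √N*(e) (Cauchy-Schwarz for the 2x2 diagonal form
N = ((1+m) y_0² + (1-m) y_1²)/2; take e = (N-gradient of x)/√N(x)).
2. cen_I.  Let ν = N/s in [(1-m)/2, (1+m)/2], νmin = (1-m)/2, r = √s.  Pointwise:
 out: (1-φ) √N 2√νmin <= GI;  since √N √νmin <= N/r ..., GI for s > 1 is in Base (GI_out);
 in:  (φ-1)√N 2√νmin <= -GI: with g = rφ, X = 1 - g², u = 1 - s, -GI = ν(u - X) + X/2 (Base GI_in),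
 (φ-1)√N 2√νmin = (g-r) 2√(ν νmin).  If ν <= 1/2: 2√(ννmin) <= 2ν and g - r <= u/2 (u/2 >= g - r as
 (1-r²)/2 >= g - r ⇔ g <= (1 + 2r - r²)/2); and ν u <= ν(u - X) + X/2 as ν <= 1/2.  If ν > 1/2:
 2√(ννmin) <= ν + νmin <= ν + 1/2, and (g-r)(ν+1/2) <= νu - (ν - 1/2)X is linear in ν: check ν = 1/2
 (g - r <= u/2) and ν = 1 (3/2 (g-r) <= u - X/2).
 Then multiply cen_sqrt by 2√νmin and integrate.
-/

set_option autoImplicit false

open MeasureTheory Set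
open Pool.Agent.Neu
open Pool.Agent.CS4 (Prof2 bb vv eV)

namespace Pool.Agent.FND

variable {K L : ℝ} {φ ψ χ ω : ℝ → ℝ}

private theorem ci_Nd (m : ℝ) : Continuous (Nd m) := by
  unfold Nd
  fun_prop

private theorem ci_cen {W : Set E} {a b : ℝ} (d : Dat K L φ ψ χ ω) (hW : WS φ χ W a b)
    {x : E} (hx : ∀ i, Real.pi * x i = ∫ y in W, y i) (e0 e1 : ℝ) :
    Real.pi * (e0 * x 0 + e1 * x 1) =
      (∫ y in W \ D, (1 - φ (sq y)) * (e0 * y 0 + e1 * y 1)) +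
        ∫ y in D \ W, (φ (sq y) - 1) * (e0 * y 0 + e1 * y 1) := by
  have cφ := d.prof.phi_cont
  have cs := M1x.cont_sq
  have cF : Continuous fun y : E => (1 - φ (sq y)) * (e0 * y 0 + e1 * y 1) := by fun_prop
  have h1 := split_int hW.meas hW.bdd cF
  have h2 : ∫ y in D, (1 - φ (sq y)) * (e0 * y 0 + e1 * y 1) = 0 := by
    refine int_odd_disc fun y => ?_
    have h3 : sq (-y) = sq y := by
      simp [Pool.Agent.Neu.sq]
    rw [h3]
    simp only [PiLp.neg_apply]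
    ring
  have h3 : ∫ y in D \ W, (φ (sq y) - 1) * (e0 * y 0 + e1 * y 1) =
      - ∫ y in D \ W, (1 - φ (sq y)) * (e0 * y 0 + e1 * y 1) := by
    rw [← integral_neg]
    refine integral_congr_ae (Filter.Eventually.of_forall fun y => ?_)
    ring
  have i0 : ∀ i : Fin 2, IntegrableOn (fun y : E => y i) W := fun i =>
    M1x.intOn (by fun_prop) hW.bdd
  have iw : ∀ i : Fin 2, IntegrableOn (fun y : E => w φ i y) W := fun i =>
    M1x.intOn (M1x.cont_w d.prof i) hW.bdd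
  have h4 : ∫ y in W, (1 - φ (sq y)) * (e0 * y 0 + e1 * y 1) =
      Real.pi * (e0 * x 0 + e1 * x 1) := by
    have h5 : ∫ y in W, (1 - φ (sq y)) * (e0 * y 0 + e1 * y 1) =
        ∫ y in W, ((e0 * y 0 + e1 * y 1) - (e0 * w φ 0 y + e1 * w φ 1 y)) := by
      refine integral_congr_ae (Filter.Eventually.of_forall fun y => ?_)
      simp only [w]
      ring
    have j1 : IntegrableOn (fun y : E => e0 * y 0 + e1 * y 1) W :=
      ((i0 0).const_mul e0).add ((i0 1).const_mul e1)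
    have j2 : IntegrableOn (fun y : E => e0 * w φ 0 y + e1 * w φ 1 y) W :=
      ((iw 0).const_mul e0).add ((iw 1).const_mul e1)
    rw [h5, integral_sub j1 j2,
      integral_add ((i0 0).const_mul e0) ((i0 1).const_mul e1),
      integral_add ((iw 0).const_mul e0) ((iw 1).const_mul e1), integral_const_mul,
      integral_const_mul, integral_const_mul, integral_const_mul, hW.w0 0, hW.w0 1, ← hx 0, ← hx 1]
    ring
  rw [h3, ← h4, h1, h2]
  ring

private theorem ci_out {y : E} (hy : y ∉ D) : 1 ≤ sq y := by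
  by_contra h
  exact hy (M1x.mem_D.2 (not_le.1 h))

private theorem ci_in {y : E} (hy : y ∈ D) : sq y ≤ 1 := (M1x.mem_D.1 hy).le

private theorem ci_phi_out (d : Dat K L φ ψ χ ω) {y : E} (hy : 1 ≤ sq y) :
    0 ≤ 1 - φ (sq y) := by
  rw [d.prof.out _ hy, sub_nonneg, div_le_one (Real.sqrt_pos.2 (by linarith))]
  exact Real.one_le_sqrt.2 hy

private theorem ci_phi_in (d : Dat K L φ ψ χ ω) {y : E} (hy : sq y ≤ 1) :
    0 ≤ φ (sq y) - 1 := by
  have := d.prof.one_le (sq y) ⟨M1x.sq_nonneg y, hy⟩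
  linarith

/-- Cauchy-Schwarz for the form -/
private theorem ci_cs {m : ℝ} (hm0 : 0 ≤ m) (hm1 : m < 1) (x y : E) :
    (1 - m) * x 0 / 2 * y 0 + (1 + m) * x 1 / 2 * y 1 ≤ √(Nd m x) * √(Nd m y) := by
  have hx : 0 ≤ Nd m x := by
    unfold Nd
    have := _root_.sq_nonneg (x 0)
    have := _root_.sq_nonneg (x 1)
    have h1 : 0 ≤ (1 - m) * x 0 ^ 2 := mul_nonneg (by linarith) (_root_.sq_nonneg _)
    have h2 : 0 ≤ (1 + m) * x 1 ^ 2 := mul_nonneg (by linarith) (_root_.sq_nonneg _)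
    linarith
  rw [← Real.sqrt_mul hx]
  refine Real.le_sqrt_of_sq_le ?_
  unfold Nd
  have h3 : 0 ≤ (1 - m) * (1 + m) * (x 0 * y 1 - x 1 * y 0) ^ 2 :=
    mul_nonneg (mul_nonneg (by linarith) (by linarith)) (_root_.sq_nonneg _)
  nlinarith [h3]

/-- Jensen type bound -/
theorem cen_sqrt {W : Set E} {a b : ℝ} (d : Dat K L φ ψ χ ω) (hW : WS φ χ W a b) {m : ℝ}
    (hm0 : 0 ≤ m) (hm1 : m < 1) {x : E} (hx : ∀ i, Real.pi * x i = ∫ y in W, y i) :
    Real.pi * √(Nd m x) ≤ (∫ y in W \ D, (1 - φ (sq y)) * √(Nd m y))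
      + ∫ y in D \ W, (φ (sq y) - 1) * √(Nd m y) := by
  have cφ := d.prof.phi_cont
  have cs := M1x.cont_sq
  have cN := ci_Nd m
  have bO : Bornology.IsBounded (W \ D : Set E) := hW.bdd.subset sdiff_subset
  have bS : Bornology.IsBounded (D \ W : Set E) := M1x.bdD.subset sdiff_subset
  have mO : MeasurableSet (W \ D : Set E) := hW.meas.diff M1x.measD
  have mS : MeasurableSet (D \ W : Set E) := M1x.measD.diff hW.meas
  have hNx : 0 ≤ Nd m x := by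
    unfold Nd
    have h1 : 0 ≤ (1 - m) * x 0 ^ 2 := mul_nonneg (by linarith) (_root_.sq_nonneg _)
    have h2 : 0 ≤ (1 + m) * x 1 ^ 2 := mul_nonneg (by linarith) (_root_.sq_nonneg _)
    linarith
  rcases hNx.eq_or_lt with h0 | h0
  · rw [← h0, Real.sqrt_zero, mul_zero]
    refine add_nonneg (setIntegral_nonneg mO fun y hy => ?_) (setIntegral_nonneg mS fun y hy => ?_)
    · exact mul_nonneg (ci_phi_out d (ci_out hy.2)) (Real.sqrt_nonneg _)
    · exact mul_nonneg (ci_phi_in d (ci_in hy.1)) (Real.sqrt_nonneg _)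
  · have hq : 0 < √(Nd m x) := Real.sqrt_pos.2 h0
    have h1 := ci_cen d hW hx ((1 - m) * x 0 / 2) ((1 + m) * x 1 / 2)
    have h2 : (1 - m) * x 0 / 2 * x 0 + (1 + m) * x 1 / 2 * x 1 = √(Nd m x) * √(Nd m x) := by
      rw [Real.mul_self_sqrt hNx]
      unfold Nd
      ring
    rw [h2] at h1
    have h3 : ∫ y in W \ D, (1 - φ (sq y)) * ((1 - m) * x 0 / 2 * y 0 + (1 + m) * x 1 / 2 * y 1) ≤
        ∫ y in W \ D, √(Nd m x) * ((1 - φ (sq y)) * √(Nd m y)) := by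
      refine setIntegral_mono_on (M1x.intOn (by fun_prop) bO) (M1x.intOn (by fun_prop) bO) mO
        fun y hy => ?_
      calc (1 - φ (sq y)) * ((1 - m) * x 0 / 2 * y 0 + (1 + m) * x 1 / 2 * y 1)
          ≤ (1 - φ (sq y)) * (√(Nd m x) * √(Nd m y)) :=
            mul_le_mul_of_nonneg_left (ci_cs hm0 hm1 x y) (ci_phi_out d (ci_out hy.2))
        _ = √(Nd m x) * ((1 - φ (sq y)) * √(Nd m y)) := by ring
    have h4 : ∫ y in D \ W, (φ (sq y) - 1) * ((1 - m) * x 0 / 2 * y 0 + (1 + m) * x 1 / 2 * y 1) ≤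
        ∫ y in D \ W, √(Nd m x) * ((φ (sq y) - 1) * √(Nd m y)) := by
      refine setIntegral_mono_on (M1x.intOn (by fun_prop) bS) (M1x.intOn (by fun_prop) bS) mS
        fun y hy => ?_
      calc (φ (sq y) - 1) * ((1 - m) * x 0 / 2 * y 0 + (1 + m) * x 1 / 2 * y 1)
          ≤ (φ (sq y) - 1) * (√(Nd m x) * √(Nd m y)) :=
            mul_le_mul_of_nonneg_left (ci_cs hm0 hm1 x y) (ci_phi_in d (ci_in hy.1))
        _ = √(Nd m x) * ((φ (sq y) - 1) * √(Nd m y)) := by ring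
    rw [integral_const_mul] at h3 h4
    have h5 : √(Nd m x) * (Real.pi * √(Nd m x)) ≤ √(Nd m x) *
        ((∫ y in W \ D, (1 - φ (sq y)) * √(Nd m y)) + ∫ y in D \ W, (φ (sq y) - 1) * √(Nd m y)) := by
      rw [mul_add]
      calc √(Nd m x) * (Real.pi * √(Nd m x)) = Real.pi * (√(Nd m x) * √(Nd m x)) := by ring
        _ ≤ _ := by linarith
    exact le_of_mul_le_mul_left h5 hq

/-- pointwise bound outside the disc -/
private theorem ci_pt_out (d : Dat K L φ ψ χ ω) {m : ℝ} (hm0 : 0 ≤ m) (hm1 : m < 1) {y : E}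
    (hy : 1 ≤ sq y) : (1 - φ (sq y)) * √(Nd m y) * (2 * √((1 - m) / 2)) ≤ GI m φ y := by
  obtain ⟨n1, -⟩ := Nd_bd hm0 hm1.le y
  have hs : 0 < sq y := by linarith
  have hr : 0 < √(sq y) := Real.sqrt_pos.2 hs
  have hr1 : 1 ≤ √(sq y) := Real.one_le_sqrt.2 hy
  have hN : 0 ≤ Nd m y := le_trans (mul_nonneg (by linarith) hs.le) n1
  have hc : √((1 - m) / 2) * √(sq y) ≤ √(Nd m y) := by
    rw [← Real.sqrt_mul (by linarith)]
    exact Real.sqrt_le_sqrt n1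
  have hn : 0 ≤ √(Nd m y) := Real.sqrt_nonneg _
  have hnn : √(Nd m y) * √(Nd m y) = Nd m y := Real.mul_self_sqrt hN
  have hrr : √(sq y) * √(sq y) = sq y := Real.mul_self_sqrt hs.le
  rw [GI_out d.prof hy, d.prof.out _ hy]
  have e1 : Nd m y / sq y * (sq y - 1) =
      Nd m y * (√(sq y) - 1) * (√(sq y) + 1) / (√(sq y) * √(sq y)) := by
    rw [hrr]
    have : (√(sq y) - 1) * (√(sq y) + 1) = sq y - 1 := by
      calc (√(sq y) - 1) * (√(sq y) + 1) = √(sq y) * √(sq y) - 1 := by ring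
        _ = sq y - 1 := by rw [hrr]
    rw [mul_assoc, this]
    ring
  rw [e1, le_div_iff₀ (mul_pos hr hr)]
  have e2 : (1 - 1 / √(sq y)) * √(Nd m y) * (2 * √((1 - m) / 2)) * (√(sq y) * √(sq y)) =
      (√(sq y) - 1) * (2 * √(Nd m y)) * (√((1 - m) / 2) * √(sq y)) := by
    field_simp
  rw [e2]
  calc (√(sq y) - 1) * (2 * √(Nd m y)) * (√((1 - m) / 2) * √(sq y))
      ≤ (√(sq y) - 1) * (2 * √(Nd m y)) * √(Nd m y) :=
        mul_le_mul_of_nonneg_left hc (mul_nonneg (by linarith) (by linarith))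
    _ = (√(Nd m y) * √(Nd m y)) * (√(sq y) - 1) * 2 := by ring
    _ = Nd m y * (√(sq y) - 1) * 2 := by rw [hnn]
    _ ≤ Nd m y * (√(sq y) - 1) * (√(sq y) + 1) :=
        mul_le_mul_of_nonneg_left (by linarith) (mul_nonneg hN (by linarith))

/-- the profile: `g - r ≤ (1 - s)/2` and `(3/2) (g - r) ≤ u - X/2`, with `s = r²`, `δ = φ - 1` -/
private theorem ci_prof (d : Dat K L φ ψ χ ω) {r : ℝ} (hr0 : 0 ≤ r) (hr1 : r ≤ 1) :
    r * (φ (r ^ 2) - 1) ≤ (1 - r ^ 2) / 2 ∧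
      3 / 2 * (r * (φ (r ^ 2) - 1)) ≤ (1 - r ^ 2) - (1 - r ^ 2 * φ (r ^ 2) ^ 2) / 2 := by
  have hs : r ^ 2 ∈ Icc (0 : ℝ) 1 := ⟨by positivity, by nlinarith⟩
  have h1 := d.prof.le _ hs
  have h2 := d.prof.one_le _ hs
  have h3 := (abs_le.1 (d.enc.phi _ hs)).2
  obtain ⟨δ, hδ⟩ : ∃ δ, δ = φ (r ^ 2) - 1 := ⟨_, rfl⟩
  have hφ : φ (r ^ 2) = 1 + δ := by rw [hδ]; ring
  rw [hφ] at h1 h2 h3 ⊢
  have hδ0 : 0 ≤ δ := by linarith
  have hδ1 : δ ≤ 27 / 40 * (1 - r ^ 2) := by linarith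
  have hu : 0 ≤ 1 - r ^ 2 := by linarith [hs.2]
  constructor
  · -- the enclosure
    have h4 : δ ≤ (1 - r ^ 2) / 2 + (1 - r ^ 2) ^ 2 * (763 / 10000 + 59 / 10000 * (1 - r ^ 2)) := by
      linarith
    have h5 : r * δ ≤ r * ((1 - r ^ 2) / 2 +
        (1 - r ^ 2) ^ 2 * (763 / 10000 + 59 / 10000 * (1 - r ^ 2))) :=
      mul_le_mul_of_nonneg_left h4 hr0
    have h6 : r * ((1 - r ^ 2) / 2 + (1 - r ^ 2) ^ 2 * (763 / 10000 + 59 / 10000 * (1 - r ^ 2))) ≤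
        (1 - r ^ 2) / 2 := by
      have e1 : (1 - r ^ 2) / 2 - r * ((1 - r ^ 2) / 2 +
          (1 - r ^ 2) ^ 2 * (763 / 10000 + 59 / 10000 * (1 - r ^ 2))) =
          (1 - r ^ 2) * (1 - r) * (1 / 2 - r * (1 + r) *
            (763 / 10000 + 59 / 10000 * (1 - r ^ 2))) := by ring
      have h7 : r * (1 + r) ≤ 2 := by nlinarith
      have h8 : 0 ≤ r * (1 + r) := by positivity
      have h9 : 763 / 10000 + 59 / 10000 * (1 - r ^ 2) ≤ 1 / 10 := by nlinarith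
      have h10 : 0 ≤ 763 / 10000 + 59 / 10000 * (1 - r ^ 2) := by linarith
      have h11 : r * (1 + r) * (763 / 10000 + 59 / 10000 * (1 - r ^ 2)) ≤ 2 * (1 / 10) :=
        mul_le_mul h7 h9 h10 (by norm_num)
      have h12 : 0 ≤ (1 - r ^ 2) * (1 - r) * (1 / 2 - r * (1 + r) *
            (763 / 10000 + 59 / 10000 * (1 - r ^ 2))) :=
        mul_nonneg (mul_nonneg hu (by linarith)) (by linarith)
      linarith
    linarith
  · have h5 : (3 / 2 - r) * r ≤ 9 / 16 := by nlinarith [_root_.sq_nonneg (r - 3 / 4)]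
    have h6 : 0 ≤ (3 / 2 - r) * r := mul_nonneg (by linarith) hr0
    have h7 : (3 / 2 - r) * r * δ ≤ 9 / 16 * (27 / 40 * (1 - r ^ 2)) :=
      mul_le_mul h5 hδ1 hδ0 (by norm_num)
    nlinarith [_root_.sq_nonneg (r * δ)]

/-- pointwise bound inside the disc -/
private theorem ci_pt_in (d : Dat K L φ ψ χ ω) {m : ℝ} (hm0 : 0 ≤ m) (hm1 : m < 1) {y : E}
    (hy : sq y ≤ 1) : (φ (sq y) - 1) * √(Nd m y) * (2 * √((1 - m) / 2)) ≤ -GI m φ y := by
  obtain ⟨n1, n2⟩ := Nd_bd hm0 hm1.le y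
  have hs0 := M1x.sq_nonneg y
  obtain ⟨r, hr0, hr⟩ : ∃ r : ℝ, 0 ≤ r ∧ sq y = r ^ 2 :=
    ⟨√(sq y), Real.sqrt_nonneg _, (Real.sq_sqrt hs0).symm⟩
  have hr1 : r ≤ 1 := by nlinarith
  obtain ⟨p1, p2⟩ := ci_prof d hr0 hr1
  obtain ⟨g1, g2⟩ := g2_bd d.prof (s := r ^ 2) ⟨by positivity, by nlinarith⟩
  have hφ := d.prof.one_le (r ^ 2) ⟨by positivity, by nlinarith⟩
  unfold GI
  rw [hr] at n1 n2 ⊢
  obtain ⟨N, hN⟩ : ∃ N, N = Nd m y := ⟨_, rfl⟩
  rw [← hN] at n1 n2 ⊢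
  obtain ⟨g, hg⟩ : ∃ g, g = φ (r ^ 2) := ⟨_, rfl⟩
  rw [← hg] at p1 p2 g1 g2 hφ ⊢
  rcases hr0.eq_or_lt with h0 | h0
  · rw [← h0] at n1 n2 g1 g2 ⊢
    have hN0 : N = 0 := by nlinarith
    rw [hN0, Real.sqrt_zero]
    norm_num
  · obtain ⟨v, hv⟩ : ∃ v, N = v * r ^ 2 := ⟨N / r ^ 2, by field_simp⟩
    have hr2 : 0 < r ^ 2 := by positivity
    have hv1 : (1 - m) / 2 ≤ v := by
      rw [hv] at n1
      exact le_of_mul_le_mul_right n1 hr2
    have hv2 : v ≤ (1 + m) / 2 := by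
      rw [hv] at n2
      exact le_of_mul_le_mul_right n2 hr2
    have hv0 : 0 ≤ v := by linarith
    have e1 : √N = √v * r := by
      rw [hv, Real.sqrt_mul hv0, Real.sqrt_sq hr0]
    have a1 : √v * √((1 - m) / 2) ≤ v := by
      have h1 : √((1 - m) / 2) ≤ √v := Real.sqrt_le_sqrt hv1
      have h2 := mul_le_mul_of_nonneg_left h1 (Real.sqrt_nonneg v)
      rwa [Real.mul_self_sqrt hv0] at h2
    have a2 : 2 * (√v * √((1 - m) / 2)) ≤ v + 1 / 2 := by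
      have h1 := _root_.sq_nonneg (√v - √((1 - m) / 2))
      have h2 : √v * √v = v := Real.mul_self_sqrt hv0
      have h3 : √((1 - m) / 2) * √((1 - m) / 2) = (1 - m) / 2 :=
        Real.mul_self_sqrt (by linarith)
      nlinarith
    have hd : 0 ≤ r * (g - 1) := mul_nonneg hr0 (by linarith)
    rw [e1, hv]
    have e2 : (g - 1) * (√v * r) * (2 * √((1 - m) / 2)) =
        r * (g - 1) * (2 * (√v * √((1 - m) / 2))) := by ring
    rw [e2]
    have e3 : -(v * r ^ 2 - g ^ 2 * (v * r ^ 2) - (1 - r ^ 2 * g ^ 2) / 2) =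
        v * ((1 - r ^ 2) - (1 - r ^ 2 * g ^ 2)) + (1 - r ^ 2 * g ^ 2) / 2 := by ring
    rw [e3]
    obtain ⟨X, hX⟩ : ∃ X, X = 1 - r ^ 2 * g ^ 2 := ⟨_, rfl⟩
    have hX0 : 0 ≤ X := by linarith
    rw [← hX] at p2 ⊢
    obtain ⟨u, hu⟩ : ∃ u, u = 1 - r ^ 2 := ⟨_, rfl⟩
    rw [← hu] at p1 p2 ⊢
    obtain ⟨t, ht⟩ : ∃ t, t = r * (g - 1) := ⟨_, rfl⟩
    rw [← ht] at p1 p2 hd ⊢
    rcases le_total v (1 / 2) with hvh | hvh
    · calc t * (2 * (√v * √((1 - m) / 2))) ≤ t * (2 * v) :=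
            mul_le_mul_of_nonneg_left (by linarith) hd
        _ ≤ u / 2 * (2 * v) := mul_le_mul_of_nonneg_right p1 (by linarith)
        _ ≤ v * (u - X) + X / 2 := by nlinarith [mul_nonneg hX0 (by linarith : 0 ≤ 1 / 2 - v)]
    · calc t * (2 * (√v * √((1 - m) / 2))) ≤ t * (v + 1 / 2) :=
            mul_le_mul_of_nonneg_left a2 hd
        _ ≤ v * (u - X) + X / 2 := by
            nlinarith [mul_nonneg (by linarith : 0 ≤ 1 - v) (by linarith : 0 ≤ u / 2 - t),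
              mul_nonneg (by linarith : 0 ≤ v - 1 / 2) (by linarith : 0 ≤ (u - X / 2) - 3 / 2 * t)]

theorem cen_I {W : Set E} {a b : ℝ} (d : Dat K L φ ψ χ ω) (hW : WS φ χ W a b) {m : ℝ}
    (hm0 : 0 ≤ m) (hm1 : m < 1) {x : E} (hx : ∀ i, Real.pi * x i = ∫ y in W, y i) :
    Real.pi * √(Nd m x) * (2 * √((1 - m) / 2)) ≤ II m φ W := by
  have cφ := d.prof.phi_cont
  have cs := M1x.cont_sq
  have cN := ci_Nd m
  have cG := cont_GI d.prof m
  have bO : Bornology.IsBounded (W \ D : Set E) := hW.bdd.subset sdiff_subset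
  have bS : Bornology.IsBounded (D \ W : Set E) := M1x.bdD.subset sdiff_subset
  have mO : MeasurableSet (W \ D : Set E) := hW.meas.diff M1x.measD
  have mS : MeasurableSet (D \ W : Set E) := M1x.measD.diff hW.meas
  have h1 := cen_sqrt d hW hm0 hm1 hx
  have hc : 0 ≤ 2 * √((1 - m) / 2) := by positivity
  have h2 := mul_le_mul_of_nonneg_right h1 hc
  rw [add_mul, ← integral_mul_const, ← integral_mul_const] at h2
  rw [II_eq d.prof hW m]
  have h3 : ∫ y in W \ D, (1 - φ (sq y)) * √(Nd m y) * (2 * √((1 - m) / 2)) ≤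
      ∫ y in W \ D, GI m φ y :=
    setIntegral_mono_on (M1x.intOn (by fun_prop) bO) (M1x.intOn cG bO) mO
      fun y hy => ci_pt_out d hm0 hm1 (ci_out hy.2)
  have h4 : ∫ y in D \ W, (φ (sq y) - 1) * √(Nd m y) * (2 * √((1 - m) / 2)) ≤
      ∫ y in D \ W, -GI m φ y :=
    setIntegral_mono_on (M1x.intOn (by fun_prop) bS) (M1x.intOn cG.neg bS) mS
      fun y hy => ci_pt_in d hm0 hm1 (ci_in hy.1)
  rw [integral_neg] at h4
  linarith

end Pool.Agent.FND
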