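import Pool.Agent.FND.Defs
import Pool.Agent.FND.Base
import Pool.Agent.FND.DIa
import Pool.Agent.FND.Wid
import Pool.Agent.FND.Cst
import Pool.Agent.Neu.Main2

/-!
FND-CenP: positivity of `Var - π/4`.

Plan.  Neu centroid1: for x the centroid, Var = ∫_W N(y - x) and by Cauchy-Schwarz (pi x = ∫_{W\D}(1-φ)y +
∫_{D\W}(φ-1) y, as in CenI / CenA) with weights: pi x = A + B, A over W\D with |W\D| <= 10 pi/11 and B over D\W:
pi N(x) = N(A+B)/pi <= (11/10) N(A)/pi + 11 N(B)/pi, N(A) <= |W\D| ∫_{W\D} (1-φ)²N <= (10 pi/11) ∫ (1-φ)² N, and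
N(B) <= |D\W| ∫_{D\W}(φ-1)²N <= (10 pi/11) ∫ ...: so pi N(x) <= ∫_{W\D} (1-φ)²N + 10 ∫_{D\W} (φ-1)²N.
Var = ∫_W N - pi N(x), ∫_W N = pi/4 + II (see Base: II is the difference ∫_W N - pi/4 in terms of GI; the balance
identity), II = ∫_{W\D} GI - ∫_{D\W} GI, so
Var - pi/4 >= ∫_{W\D} (GI - (1-φ)²N) + ∫_{D\W} (-GI - 10(φ-1)²N).
Outside: GI - (1-φ)²N = N - φ²N - (1-φ)²N = 2φ(1-φ)N exactly (s >= 1; φ²N = ν as g = 1).
Inside: -GI >= 10 (φ-1)²N for all m < 1: affine in ν, check ν = 0 (X/2 >= 0) and ν = 1: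
u - X/2 >= 10 s(φ-1)² (slack .016 u; enclosure Enc: u - X/2 = u - (1 - g²)/2).
-/

set_option autoImplicit false

open MeasureTheory Set
open Pool.Agent.Neu
open Pool.Agent.CS4 (Prof2 bb vv eV)

namespace Pool.Agent.FND

variable {K L : ℝ} {φ ψ χ ω : ℝ → ℝ}

private theorem cp_Nd (m : ℝ) : Continuous (Nd m) := by
  unfold Nd
  fun_prop

private theorem cp_cen {W : Set E} {a b : ℝ} (d : Dat K L φ ψ χ ω) (hW : WS φ χ W a b)
    {x : E} (hx : ∀ i, Real.pi * x i = ∫ y in W, y i) (e0 e1 : ℝ) :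
    Real.pi * (e0 * x 0 + e1 * x 1) =
      (∫ y in W \ D, (1 - φ (sq y)) * (e0 * y 0 + e1 * y 1)) +
        ∫ y in D \ W, (φ (sq y) - 1) * (e0 * y 0 + e1 * y 1) := by
  have cφ := d.prof.phi_cont
  have cs := M1x.cont_sq
  have cF : Continuous fun y : E => (1 - φ (sq y)) * (e0 * y 0 + e1 * y 1) := by fun_prop
  have h1 := split_int hW.meas hW.bdd cF
  have h2 : ∫ y in D, (1 - φ (sq y)) * (e0 * y 0 + e1 * y 1) = 0 := by
    refine int_odd_disc fun y => ?_
    have h3 : sq (-y) = sq y := by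
      simp [Pool.Agent.Neu.sq]
    rw [h3]
    simp only [PiLp.neg_apply]
    ring
  have h3 : ∫ y in D \ W, (φ (sq y) - 1) * (e0 * y 0 + e1 * y 1) =
      - ∫ y in D \ W, (1 - φ (sq y)) * (e0 * y 0 + e1 * y 1) := by
    rw [← integral_neg]
    refine integral_congr_ae (Filter.Eventually.of_forall fun y => ?_)
    ring
  have i0 : ∀ i : Fin 2, IntegrableOn (fun y : E => y i) W := fun i =>
    M1x.intOn (by fun_prop) hW.bdd
  have iw : ∀ i : Fin 2, IntegrableOn (fun y : E => w φ i y) W := fun i =>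
    M1x.intOn (M1x.cont_w d.prof i) hW.bdd
  have h4 : ∫ y in W, (1 - φ (sq y)) * (e0 * y 0 + e1 * y 1) =
      Real.pi * (e0 * x 0 + e1 * x 1) := by
    have h5 : ∫ y in W, (1 - φ (sq y)) * (e0 * y 0 + e1 * y 1) =
        ∫ y in W, ((e0 * y 0 + e1 * y 1) - (e0 * w φ 0 y + e1 * w φ 1 y)) := by
      refine integral_congr_ae (Filter.Eventually.of_forall fun y => ?_)
      simp only [w]
      ring
    have j1 : IntegrableOn (fun y : E => e0 * y 0 + e1 * y 1) W :=
      ((i0 0).const_mul e0).add ((i0 1).const_mul e1)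
    have j2 : IntegrableOn (fun y : E => e0 * w φ 0 y + e1 * w φ 1 y) W :=
      ((iw 0).const_mul e0).add ((iw 1).const_mul e1)
    rw [h5, integral_sub j1 j2,
      integral_add ((i0 0).const_mul e0) ((i0 1).const_mul e1),
      integral_add ((iw 0).const_mul e0) ((iw 1).const_mul e1), integral_const_mul,
      integral_const_mul, integral_const_mul, integral_const_mul, hW.w0 0, hW.w0 1, ← hx 0, ← hx 1]
    ring
  rw [h3, ← h4, h1, h2]
  ring

private theorem cp_out {y : E} (hy : y ∉ D) : 1 ≤ sq y := by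
  by_contra h
  exact hy (M1x.mem_D.2 (not_le.1 h))

private theorem cp_in {y : E} (hy : y ∈ D) : sq y ≤ 1 := (M1x.mem_D.1 hy).le

private theorem cp_phi_out (d : Dat K L φ ψ χ ω) {y : E} (hy : 1 ≤ sq y) :
    0 ≤ 1 - φ (sq y) := by
  rw [d.prof.out _ hy, sub_nonneg, div_le_one (Real.sqrt_pos.2 (by linarith))]
  exact Real.one_le_sqrt.2 hy

private theorem cp_phi_in (d : Dat K L φ ψ χ ω) {y : E} (hy : sq y ≤ 1) :
    0 ≤ φ (sq y) - 1 := by
  have := d.prof.one_le (sq y) ⟨M1x.sq_nonneg y, hy⟩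
  linarith

/-- Cauchy-Schwarz with the constant one -/
private theorem cp_cs {S : Set E} (hS : MeasurableSet S) (hb : Bornology.IsBounded S) {f : E → ℝ}
    (hf : Continuous f) : (∫ y in S, f y) ^ 2 ≤ volume.real S * ∫ y in S, f y ^ 2 := by
  have hfin : volume S ≠ ⊤ := hb.measure_lt_top.ne
  have i0 : IntegrableOn f S := M1x.intOn hf hb
  have i1 : IntegrableOn (fun y => f y ^ 2) S := M1x.intOn (hf.pow 2) hb
  have i2 : IntegrableOn (fun _ : E => (1 : ℝ)) S := M1x.intOn continuous_const hb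
  obtain ⟨v, hv⟩ : ∃ v, v = volume.real S := ⟨_, rfl⟩
  obtain ⟨I, hI⟩ : ∃ I, I = ∫ y in S, f y := ⟨_, rfl⟩
  obtain ⟨J, hJ⟩ : ∃ J, J = ∫ y in S, f y ^ 2 := ⟨_, rfl⟩
  have h1 : ∀ t : ℝ, 0 ≤ J - 2 * t * I + t ^ 2 * v := by
    intro t
    have h2 : 0 ≤ ∫ y in S, (f y - t) ^ 2 := setIntegral_nonneg hS fun y _ => _root_.sq_nonneg _
    have h3 : ∫ y in S, (f y - t) ^ 2 = ∫ y in S, ((f y ^ 2 - 2 * t * f y) + t ^ 2) := by
      refine integral_congr_ae (Filter.Eventually.of_forall fun y => ?_)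
      ring
    have j1 : IntegrableOn (fun y => 2 * t * f y) S := i0.const_mul _
    have j2 : IntegrableOn (fun y => f y ^ 2 - 2 * t * f y) S := i1.sub j1
    have j3 : IntegrableOn (fun _ : E => t ^ 2) S := M1x.intOn continuous_const hb
    rw [h3, integral_add j2 j3, integral_sub i1 j1, integral_const_mul, setIntegral_const,
      smul_eq_mul, ← hv, ← hI, ← hJ] at h2
    linarith
  have hv0 : 0 ≤ v := by rw [hv]; exact measureReal_nonneg
  have hJ0 : 0 ≤ J := by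
    have := h1 0
    linarith
  rw [← hv, ← hI, ← hJ]
  rcases hv0.eq_or_lt with h0 | h0
  · -- the measure is zero
    have h2 : I = 0 := by
      have h3 : volume S = 0 := by
        rw [hv] at h0
        unfold Measure.real at h0
        rcases (ENNReal.toReal_eq_zero_iff _).1 h0.symm with h4 | h4
        · exact h4
        · exact absurd h4 hfin
      rw [hI, Measure.restrict_eq_zero.2 h3, integral_zero_measure]
    rw [h2, ← h0]
    norm_num
  · have h2 := h1 (I / v)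
    have e1 : J - 2 * (I / v) * I + (I / v) ^ 2 * v = (v * J - I ^ 2) / v := by
      field_simp
      ring
    rw [e1] at h2
    have h3 : 0 ≤ v * J - I ^ 2 := by
      by_contra h4
      push Not at h4
      exact absurd h2 (not_le.2 (div_neg_of_neg_of_pos h4 h0))
    linarith

/-- the profile inside the disc -/
private theorem cp_prof (d : Dat K L φ ψ χ ω) {s : ℝ} (hs : s ∈ Icc (0 : ℝ) 1) :
    10 * s * (φ s - 1) ^ 2 ≤ 1 / 2 - s + s * φ s ^ 2 / 2 := by
  have h2 := d.prof.one_le _ hs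
  have h3 := (abs_le.1 (d.enc.phi _ hs)).2
  obtain ⟨δ, hδ⟩ : ∃ δ, δ = φ s - 1 := ⟨_, rfl⟩
  have hφ : φ s = 1 + δ := by rw [hδ]; ring
  rw [hφ] at h2 h3 ⊢
  obtain ⟨u, hu⟩ : ∃ u, s = 1 - u := ⟨1 - s, by ring⟩
  rw [hu] at h3 ⊢
  have hu0 : 0 ≤ u := by linarith [hs.2]
  have hu1 : u ≤ 1 := by linarith [hs.1]
  have hδ0 : 0 ≤ δ := by linarith
  obtain ⟨e, he⟩ : ∃ e, e = 1 / 2 + u * (763 / 10000 + 59 / 10000 * u) := ⟨_, rfl⟩
  have hδ1 : δ ≤ u * e := by
    rw [he]
    have e1 : 1 - (1 - u) = u := by ring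
    rw [e1] at h3
    nlinarith
  -- the claim is `0 ≤ u / 2 + s δ (1 - 19/2 δ)`
  have key : 0 ≤ u / 2 + (1 - u) * (δ * (1 - 19 / 2 * δ)) := by
    rcases le_total δ (2 / 19) with h4 | h4
    · have h5 : 0 ≤ δ * (1 - 19 / 2 * δ) := mul_nonneg hδ0 (by linarith)
      have := mul_nonneg (by linarith : 0 ≤ 1 - u) h5
      linarith
    · have h5 : u * e * (1 - 19 / 2 * (u * e)) ≤ δ * (1 - 19 / 2 * δ) := by
        nlinarith [mul_nonneg (by linarith : 0 ≤ u * e - δ)
          (by linarith : 0 ≤ 19 / 2 * (u * e + δ) - 1)]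
      have h6 : 0 ≤ u / 2 + (1 - u) * (u * e * (1 - 19 / 2 * (u * e))) := by
        have h7 : 0 ≤ 1 / 2 + (1 - u) * (e * (1 - 19 / 2 * (u * e))) := by
          have h1u : 0 ≤ 1 - u := by linarith
          have hE : 0 ≤ 1 / 2 + (1 - u) * (1 / 2 + 763 / 10000 * u) -
              19 / 2 * (u * (1 - u) * (1 / 2 + 822 / 10000 * u) ^ 2) := by
            nlinarith [mul_nonneg hu0 h1u, _root_.sq_nonneg (u - 3 / 5),
              mul_nonneg hu0 (_root_.sq_nonneg (u - 3 / 5)),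
              mul_nonneg h1u (_root_.sq_nonneg (u - 3 / 5)),
              mul_nonneg (mul_nonneg hu0 h1u) (_root_.sq_nonneg (u - 3 / 5)),
              mul_nonneg hu0 (mul_nonneg hu0 h1u)]
          have he1 : 1 / 2 + 763 / 10000 * u ≤ e := by
            rw [he]
            nlinarith [mul_nonneg hu0 hu0]
          have he2 : e ≤ 1 / 2 + 822 / 10000 * u := by
            rw [he]
            nlinarith [mul_nonneg hu0 h1u]
          have he0 : 0 ≤ e := by nlinarith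
          have h8 : e ^ 2 ≤ (1 / 2 + 822 / 10000 * u) ^ 2 := pow_le_pow_left₀ he0 he2 2
          have h9 := mul_le_mul_of_nonneg_left h8 (mul_nonneg hu0 h1u)
          have h10 := mul_le_mul_of_nonneg_left he1 h1u
          nlinarith
        have h8 := mul_nonneg hu0 h7
        linarith
      have := mul_le_mul_of_nonneg_left h5 (by linarith : 0 ≤ 1 - u)
      linarith
  nlinarith

theorem cen_pos {W : Set E} {a b : ℝ} (d : Dat K L φ ψ χ ω) (hW : WS φ χ W a b) {m : ℝ}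
    (hm0 : 0 ≤ m) (hm1 : m < 1) {x : E} (hx : ∀ i, Real.pi * x i = ∫ y in W, y i)
    (hO : (volume (W \ D)).toReal ≤ 10 / 11 * Real.pi) :
    (∫ y in W \ D, 2 * φ (sq y) * (1 - φ (sq y)) * Nd m y) ≤ (∫ y in W, Nd m (y - x)) - Real.pi / 4 := by
  have cφ := d.prof.phi_cont
  have cs := M1x.cont_sq
  have cN := cp_Nd m
  have cG := cont_GI d.prof m
  have bO : Bornology.IsBounded (W \ D : Set E) := hW.bdd.subset sdiff_subset
  have bS : Bornology.IsBounded (D \ W : Set E) := M1x.bdD.subset sdiff_subset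
  have mO : MeasurableSet (W \ D : Set E) := hW.meas.diff M1x.measD
  have mS : MeasurableSet (D \ W : Set E) := M1x.measD.diff hW.meas
  have hpi : 0 < Real.pi := Real.pi_pos
  have hv : volume.real (W \ D) ≤ 10 / 11 * Real.pi := hO
  have hv' : volume.real (D \ W) ≤ 10 / 11 * Real.pi := by
    rw [← vol_OS hW]
    exact hv
  -- the components of the centroid
  have hc : ∀ i : Fin 2, Real.pi * x i ^ 2 ≤ (∫ y in W \ D, ((1 - φ (sq y)) * y i) ^ 2) +
      10 * ∫ y in D \ W, ((φ (sq y) - 1) * y i) ^ 2 := by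
    intro i
    obtain ⟨A, hA⟩ : ∃ A, A = ∫ y in W \ D, (1 - φ (sq y)) * y i := ⟨_, rfl⟩
    obtain ⟨B, hB⟩ : ∃ B, B = ∫ y in D \ W, (φ (sq y) - 1) * y i := ⟨_, rfl⟩
    have h1 : Real.pi * x i = A + B := by
      rw [hA, hB]
      fin_cases i
      · have := cp_cen d hW hx 1 0
        simpa using this
      · have := cp_cen d hW hx 0 1
        simpa using this
    have h2 : A ^ 2 ≤ volume.real (W \ D) * ∫ y in W \ D, ((1 - φ (sq y)) * y i) ^ 2 := by
      rw [hA]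
      exact cp_cs mO bO (by fun_prop)
    have h3 : B ^ 2 ≤ volume.real (D \ W) * ∫ y in D \ W, ((φ (sq y) - 1) * y i) ^ 2 := by
      rw [hB]
      exact cp_cs mS bS (by fun_prop)
    have n2 : 0 ≤ ∫ y in W \ D, ((1 - φ (sq y)) * y i) ^ 2 :=
      setIntegral_nonneg mO fun y _ => _root_.sq_nonneg _
    have n3 : 0 ≤ ∫ y in D \ W, ((φ (sq y) - 1) * y i) ^ 2 :=
      setIntegral_nonneg mS fun y _ => _root_.sq_nonneg _
    have h4 := h2.trans (mul_le_mul_of_nonneg_right hv n2)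
    have h5 := h3.trans (mul_le_mul_of_nonneg_right hv' n3)
    obtain ⟨I2, hI2⟩ : ∃ I, I = ∫ y in W \ D, ((1 - φ (sq y)) * y i) ^ 2 := ⟨_, rfl⟩
    obtain ⟨I3, hI3⟩ : ∃ I, I = ∫ y in D \ W, ((φ (sq y) - 1) * y i) ^ 2 := ⟨_, rfl⟩
    rw [← hI2] at h4 ⊢
    rw [← hI3] at h5 ⊢
    have h6 : Real.pi * (Real.pi * x i ^ 2) ≤ Real.pi * (I2 + 10 * I3) := by
      have e1 : Real.pi * (Real.pi * x i ^ 2) = (A + B) ^ 2 := by
        rw [← h1]
        ring
      rw [e1]
      nlinarith [_root_.sq_nonneg (A - 10 * B)]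
    exact le_of_mul_le_mul_left h6 hpi
  have hN : Real.pi * Nd m x ≤ (∫ y in W \ D, (1 - φ (sq y)) ^ 2 * Nd m y) +
      10 * ∫ y in D \ W, (φ (sq y) - 1) ^ 2 * Nd m y := by
    have comb : ∀ (S : Set E) (f : E → ℝ), Bornology.IsBounded S → Continuous f →
        ∫ y in S, f y ^ 2 * Nd m y = (1 - m) / 2 * (∫ y in S, (f y * y 0) ^ 2) +
          (1 + m) / 2 * ∫ y in S, (f y * y 1) ^ 2 := by
      intro S f hS hf
      have i0 : IntegrableOn (fun y : E => (1 - m) / 2 * (f y * y 0) ^ 2) S :=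
        M1x.intOn (by fun_prop) hS
      have i1 : IntegrableOn (fun y : E => (1 + m) / 2 * (f y * y 1) ^ 2) S :=
        M1x.intOn (by fun_prop) hS
      rw [← integral_const_mul, ← integral_const_mul, ← integral_add i0 i1]
      refine integral_congr_ae (Filter.Eventually.of_forall fun y => ?_)
      simp only [Nd]
      ring
    have c1 := comb (W \ D) (fun y => 1 - φ (sq y)) bO (by fun_prop)
    have c2 := comb (D \ W) (fun y => φ (sq y) - 1) bS (by fun_prop)
    rw [c1, c2]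
    have h0 := mul_le_mul_of_nonneg_left (hc 0) (by linarith : 0 ≤ (1 - m) / 2)
    have h1 := mul_le_mul_of_nonneg_left (hc 1) (by linarith : 0 ≤ (1 + m) / 2)
    have e1 : Real.pi * Nd m x = (1 - m) / 2 * (Real.pi * x 0 ^ 2) +
        (1 + m) / 2 * (Real.pi * x 1 ^ 2) := by
      simp only [Nd]
      ring
    rw [e1]
    linarith
  have hout : ∫ y in W \ D, GI m φ y = (∫ y in W \ D, 2 * φ (sq y) * (1 - φ (sq y)) * Nd m y) +
      ∫ y in W \ D, (1 - φ (sq y)) ^ 2 * Nd m y := by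
    have i1 : IntegrableOn (fun y : E => 2 * φ (sq y) * (1 - φ (sq y)) * Nd m y) (W \ D) :=
      M1x.intOn (by fun_prop) bO
    have i2 : IntegrableOn (fun y : E => (1 - φ (sq y)) ^ 2 * Nd m y) (W \ D) :=
      M1x.intOn (by fun_prop) bO
    rw [← integral_add i1 i2]
    refine setIntegral_congr_fun mO fun y hy => ?_
    have h1 := phi_out d.prof (cp_out hy.2)
    simp only [GI]
    have h2 : sq y * φ (sq y) ^ 2 = 1 := by rw [mul_comm]; exact h1
    rw [h2]
    ring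
  have hin : 10 * ∫ y in D \ W, (φ (sq y) - 1) ^ 2 * Nd m y ≤ ∫ y in D \ W, -GI m φ y := by
    rw [← integral_const_mul]
    refine setIntegral_mono_on (M1x.intOn (by fun_prop) bS) (M1x.intOn cG.neg bS) mS
      fun y hy => ?_
    have hs : sq y ∈ Icc (0 : ℝ) 1 := ⟨M1x.sq_nonneg y, cp_in hy.1⟩
    have h1 := cp_prof d hs
    obtain ⟨n1, n2⟩ := Nd_bd hm0 hm1.le y
    obtain ⟨g1, g2⟩ := g2_bd d.prof hs
    have n3 : 0 ≤ Nd m y := le_trans (mul_nonneg (by linarith) hs.1) n1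
    have n4 : Nd m y ≤ sq y := by nlinarith [hs.1]
    simp only [GI]
    obtain ⟨s, hs'⟩ : ∃ s, s = sq y := ⟨_, rfl⟩
    rw [← hs'] at hs h1 n1 n2 g1 g2 n4 ⊢
    obtain ⟨N, hN'⟩ : ∃ N, N = Nd m y := ⟨_, rfl⟩
    rw [← hN'] at n1 n2 n3 n4 ⊢
    obtain ⟨g, hg⟩ : ∃ g, g = φ s := ⟨_, rfl⟩
    rw [← hg] at h1 g1 g2 ⊢
    rcases hs.1.eq_or_lt with h0 | h0
    · have hN0 : N = 0 := by linarith
      rw [hN0, ← h0]
      norm_num
    · -- affine in `N`
      have h2 : 0 ≤ (s - N) * ((1 - s * g ^ 2) / 2) := mul_nonneg (by linarith) (by linarith)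
      have h3 : 0 ≤ N * (1 / 2 - s + s * g ^ 2 / 2 - 10 * s * (g - 1) ^ 2) :=
        mul_nonneg n3 (by linarith)
      have h4 : s * (10 * ((g - 1) ^ 2 * N)) ≤
          s * (-(N - g ^ 2 * N - (1 - s * g ^ 2) / 2)) := by nlinarith
      exact le_of_mul_le_mul_left h4 h0
  rw [integral_neg] at hin
  rw [var_eq d.prof hW m hx, II_eq d.prof hW m, hout]
  linarith

end Pool.Agent.FND
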