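import Pool.Agent.FND.Defs
import Pool.Agent.FND.Base
import Pool.Agent.FND.Wid

/-!
FND-Vol: volume of `S` and `O`.

`∫_T |y|² ≥ |T|² / (2 π)` for bounded measurable `T`, applied to `D ∪ W` and `D ∩ W`.
-/

set_option autoImplicit false

open MeasureTheory Set
open Pool.Agent.Neu
open Pool.Agent.CS4 (Prof2 bb vv eV)

namespace Pool.Agent.FND

variable {K L : ℝ} {φ ψ χ ω : ℝ → ℝ}

private theorem vb_disc : ∫ y in (D : Set E), sq y = Real.pi / 2 := by
  have h1 := disc_radial (f := fun s => s) continuous_id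
  rw [h1, integral_id]
  ring

open scoped Pointwise in
private theorem vb_ball {R : ℝ} (hR : 0 < R) :
    ∫ y in Metric.ball (0 : E) R, sq y = Real.pi * R ^ 4 / 2 := by
  have h1 := Measure.setIntegral_comp_smul_of_pos (volume : Measure E) (sq : E → ℝ) D hR
  have h2 : ∀ y : E, sq (R • y) = R ^ 2 * sq y := by
    intro y
    unfold Pool.Agent.Neu.sq
    rw [PiLp.smul_apply, PiLp.smul_apply, smul_eq_mul, smul_eq_mul]
    ring
  have h3 : R • (D : Set E) = Metric.ball (0 : E) R := smul_unitBall_of_pos hR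
  rw [h3, finrank_euclideanSpace_fin, smul_eq_mul] at h1
  simp only [h2] at h1
  rw [integral_const_mul, vb_disc] at h1
  have h4 : (R ^ 2) ≠ 0 := by positivity
  field_simp at h1
  linarith

private theorem vb_vol {R : ℝ} (hR : 0 < R) :
    volume.real (Metric.ball (0 : E) R) = Real.pi * R ^ 2 := by
  unfold Measure.real
  rw [EuclideanSpace.volume_ball_fin_two, ENNReal.toReal_mul, ENNReal.toReal_pow,
    ENNReal.toReal_ofReal hR.le, ENNReal.toReal_ofReal Real.pi_pos.le, mul_comm]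

private theorem vb_mem {R : ℝ} (hR : 0 < R) (y : E) : y ∈ Metric.ball (0 : E) R ↔ sq y < R ^ 2 := by
  rw [Metric.mem_ball, dist_zero_right, M1x.sq_eq]
  constructor
  · intro h
    nlinarith [norm_nonneg y]
  · intro h
    nlinarith [norm_nonneg y]

private theorem vb_mom {T : Set E} (hT : MeasurableSet T) (hb : Bornology.IsBounded T) :
    volume.real T ^ 2 ≤ 2 * Real.pi * ∫ y in T, sq y := by
  have hpi := Real.pi_pos
  rcases eq_or_lt_of_le (measureReal_nonneg (μ := (volume : Measure E)) (s := T)) with h0 | h0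
  · rw [← h0]
    have h1 : 0 ≤ ∫ y in T, sq y := integral_nonneg fun y => M1x.sq_nonneg y
    have h2 : 0 ≤ 2 * Real.pi * ∫ y in T, sq y := by positivity
    linarith
  · obtain ⟨R, hR, hR2⟩ : ∃ R : ℝ, 0 < R ∧ Real.pi * R ^ 2 = volume.real T := by
      refine ⟨√(volume.real T / Real.pi), Real.sqrt_pos.2 (div_pos h0 hpi), ?_⟩
      rw [Real.sq_sqrt (div_pos h0 hpi).le, mul_div_cancel₀ _ hpi.ne']
    have hBm : MeasurableSet (Metric.ball (0 : E) R) := measurableSet_ball
    have hBb : Bornology.IsBounded (Metric.ball (0 : E) R) := Metric.isBounded_ball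
    have hc : Continuous fun y : E => sq y - R ^ 2 := M1x.cont_sq.sub continuous_const
    have e1 : (∫ y in T ∩ Metric.ball (0 : E) R, (sq y - R ^ 2)) +
        ∫ y in T \ Metric.ball (0 : E) R, (sq y - R ^ 2) = ∫ y in T, (sq y - R ^ 2) :=
      integral_inter_add_sdiff hBm (M1x.intOn hc hb)
    have e2 : (∫ y in Metric.ball (0 : E) R ∩ T, (sq y - R ^ 2)) +
        ∫ y in Metric.ball (0 : E) R \ T, (sq y - R ^ 2) =
        ∫ y in Metric.ball (0 : E) R, (sq y - R ^ 2) :=
      integral_inter_add_sdiff hT (M1x.intOn hc hBb)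
    have e3 : 0 ≤ ∫ y in T \ Metric.ball (0 : E) R, (sq y - R ^ 2) := by
      refine setIntegral_nonneg (hT.diff hBm) fun y hy => ?_
      have := fun h => hy.2 ((vb_mem hR y).2 h)
      linarith [not_lt.1 this]
    have e4 : ∫ y in Metric.ball (0 : E) R \ T, (sq y - R ^ 2) ≤ 0 := by
      refine setIntegral_nonpos (hBm.diff hT) fun y hy => ?_
      have := (vb_mem hR y).1 hy.1
      linarith
    have e5 : ∫ y in T, (sq y - R ^ 2) = (∫ y in T, sq y) - volume.real T * R ^ 2 := by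
      rw [integral_sub (M1x.intOn M1x.cont_sq hb) (M1x.intOn continuous_const hb), setIntegral_const,
        smul_eq_mul]
    have e6 : ∫ y in Metric.ball (0 : E) R, (sq y - R ^ 2) =
        Real.pi * R ^ 4 / 2 - volume.real T * R ^ 2 := by
      rw [integral_sub (M1x.intOn M1x.cont_sq hBb) (M1x.intOn continuous_const hBb),
        setIntegral_const, smul_eq_mul, vb_ball hR, vb_vol hR, hR2]
    rw [inter_comm] at e2
    have e7 : Real.pi * R ^ 4 / 2 ≤ ∫ y in T, sq y := by linarith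
    rw [← hR2]
    calc (Real.pi * R ^ 2) ^ 2 = 2 * Real.pi * (Real.pi * R ^ 4 / 2) := by ring
      _ ≤ 2 * Real.pi * ∫ y in T, sq y := mul_le_mul_of_nonneg_left e7 (by positivity)

private theorem vb_out {W : Set E} {y : E} (hy : y ∈ W \ D) : 1 ≤ sq y := by
  by_contra h
  exact hy.2 (M1x.mem_D.2 (not_le.1 h))

private theorem vb_in {W : Set E} {y : E} (hy : y ∈ D \ W) : sq y ≤ 1 :=
  (M1x.mem_D.1 hy.1).le

private theorem vb_gi_out (h : Prof K φ ψ) {m : ℝ} (hm0 : 0 ≤ m) (hm1 : m ≤ 1) {y : E}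
    (hy : 1 ≤ sq y) : (1 - m) / 2 * (sq y - 1) ≤ GI m φ y := by
  rw [GI_out h hy]
  have h0 : 0 < sq y := lt_of_lt_of_le one_pos hy
  obtain ⟨n1, _⟩ := Nd_bd hm0 hm1 y
  refine mul_le_mul_of_nonneg_right ?_ (by linarith)
  rw [le_div_iff₀ h0]
  exact n1

theorem II_S {W : Set E} {a b : ℝ} (h : Prof K φ ψ) (hW : WS φ χ W a b) {m : ℝ} (hm0 : 0 ≤ m)
    (hm1 : m ≤ 1) : 0 ≤ (∫ y in W \ D, GI m φ y) ∧ 0 ≤ -(∫ y in D \ W, GI m φ y) := by
  constructor
  · refine setIntegral_nonneg (hW.meas.diff M1x.measD) fun y hy => ?_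
    have h1 := vb_out hy
    exact le_trans (mul_nonneg (by linarith) (by linarith)) (vb_gi_out h hm0 hm1 h1)
  · rw [← integral_neg]
    refine setIntegral_nonneg (M1x.measD.diff hW.meas) fun y hy => ?_
    have h1 := vb_in hy
    exact le_trans (mul_nonneg (by linarith) (by linarith)) (GI_in h hm0 hm1 h1).2.1

theorem vol_le {W : Set E} {a b : ℝ} (h : Prof K φ ψ) (hW : WS φ χ W a b) {m : ℝ} (hm0 : 0 ≤ m)
    (hm1 : m < 1) : (1 - m) / 2 * volume.real (D \ W) ^ 2 ≤ Real.pi * II m φ W := by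
  have hpi := Real.pi_pos
  have bO : Bornology.IsBounded (W \ D : Set E) := hW.bdd.subset sdiff_subset
  have bS : Bornology.IsBounded (D \ W : Set E) := M1x.bdD.subset sdiff_subset
  have cs := M1x.cont_sq
  have cG := cont_GI h m
  have hDf : volume (D : Set E) ≠ ⊤ := by rw [disc_volume]; exact ENNReal.ofReal_ne_top
  have hWf : volume W ≠ ⊤ := by rw [hW.vol]; exact ENNReal.ofReal_ne_top
  have hDv : volume.real (D : Set E) = Real.pi := by
    unfold Measure.real
    rw [disc_volume, ENNReal.toReal_ofReal hpi.le]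
  obtain ⟨v, hv⟩ : ∃ v, v = volume.real (D \ W) := ⟨_, rfl⟩
  have hv2 : volume.real (W \ D) = v := by rw [vol_OS hW, hv]
  obtain ⟨X, hX⟩ : ∃ X, X = ∫ y in W \ D, sq y := ⟨_, rfl⟩
  obtain ⟨Y, hY⟩ : ∃ Y, Y = ∫ y in D \ W, sq y := ⟨_, rfl⟩
  -- the union
  have u0 : D ∪ W = D ∪ (W \ D) := union_sdiff_self.symm
  have u1 : volume.real (D ∪ W) = Real.pi + v := by
    rw [u0, measureReal_union disjoint_sdiff_right (hW.meas.diff M1x.measD) hDf
      (measure_ne_top_of_subset sdiff_subset hWf), hDv, hv2]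
  have u2 : ∫ y in D ∪ W, sq y = Real.pi / 2 + X := by
    rw [u0, setIntegral_union disjoint_sdiff_right (hW.meas.diff M1x.measD) (M1x.intOn cs M1x.bdD)
      (M1x.intOn cs bO), vb_disc, hX]
  have u3 := vb_mom (M1x.measD.union hW.meas) (M1x.bdD.union hW.bdd)
  rw [u1, u2] at u3
  -- the intersection
  have s1 : volume.real (D ∩ W) = Real.pi - v := by
    have := measureReal_inter_add_sdiff (μ := (volume : Measure E)) (s := D) hW.meas hDf
    rw [hDv, ← hv] at this
    linarith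
  have s2 : ∫ y in D ∩ W, sq y = Real.pi / 2 - Y := by
    have := integral_inter_add_sdiff hW.meas (M1x.intOn cs M1x.bdD)
    rw [vb_disc, ← hY] at this
    linarith
  have s3 := vb_mom (M1x.measD.inter hW.meas) (M1x.bdD.subset inter_subset_left)
  rw [s1, s2] at s3
  have hXY : v ^ 2 ≤ Real.pi * (X - Y) := by nlinarith
  -- the densities
  have g1 : (1 - m) / 2 * (X - v) ≤ ∫ y in W \ D, GI m φ y := by
    have e : (1 - m) / 2 * (X - v) = ∫ y in W \ D, (1 - m) / 2 * (sq y - 1) := by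
      rw [integral_const_mul, integral_sub (M1x.intOn cs bO) (M1x.intOn continuous_const bO),
        setIntegral_const, smul_eq_mul, mul_one, hv2, hX]
    rw [e]
    refine setIntegral_mono_on (M1x.intOn (by fun_prop) bO) (M1x.intOn cG bO)
      (hW.meas.diff M1x.measD) fun y hy => ?_
    exact vb_gi_out h hm0 hm1.le (vb_out hy)
  have g2 : (1 - m) / 2 * (v - Y) ≤ -∫ y in D \ W, GI m φ y := by
    have e : (1 - m) / 2 * (v - Y) = ∫ y in D \ W, (1 - m) / 2 * (1 - sq y) := by
      rw [integral_const_mul, integral_sub (M1x.intOn continuous_const bS) (M1x.intOn cs bS),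
        setIntegral_const, smul_eq_mul, mul_one, ← hv, hY]
    rw [e, ← integral_neg]
    refine setIntegral_mono_on (M1x.intOn (by fun_prop) bS) (M1x.intOn cG.neg bS)
      (M1x.measD.diff hW.meas) fun y hy => ?_
    exact (GI_in h hm0 hm1.le (vb_in hy)).2.1
  rw [II_eq h hW m, ← hv]
  have h5 : 0 ≤ (1 - m) / 2 := by linarith
  calc (1 - m) / 2 * v ^ 2 ≤ (1 - m) / 2 * (Real.pi * (X - Y)) := mul_le_mul_of_nonneg_left hXY h5
    _ = Real.pi * ((1 - m) / 2 * (X - v) + (1 - m) / 2 * (v - Y)) := by ring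
    _ ≤ Real.pi * ((∫ y in W \ D, GI m φ y) - ∫ y in D \ W, GI m φ y) :=
      mul_le_mul_of_nonneg_left (by linarith) hpi.le

end Pool.Agent.FND
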