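import Pool.Agent.FND.Defs
import Pool.Agent.FND.CenI
import Pool.Agent.FND.CenP
import Pool.Agent.FND.Vol

/-!
FND-Cen: the centroid.

Plan.  D0 = Var - pi/4 <= .1728 (= pi/4 .22).  z, m = 2z/(1+z²), νmin = (1-m)/2 = (1-z)²/(2(1+z²)).
1. cen_pos gives 2Y <= D0 with Y = ∫_{W\D} φ(1-φ)N >= 0; in particular Var >= pi/4 (first claim), and so
(61/50)(1-z²)/(1+z²) >= 1, i.e. q = z² <= 11/111 = 22/222.
2. cen_sqrt: out (1-φ)√N <= φ(1-φ)N/√νmin, because φ √N = √(s ν) φ = √ν (g = rφ = 1 for s >= 1) >= √νmin.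
So ∫_{W\D}(1-φ)√N <= Y/√νmin <= D0/(2√νmin).
   in: ∫_{D\W}(φ-1)√N <= ∫_D (φ-1) r = 2 pi ∫ (g - r) r dr <= .82 √((1+m)/2) <= .82 (value about .27 2 pi ...; any
   bound that gives x := pi N(xbar) <= .32 is enough).  So pi √N(xbar) <= ..., x <= .32.
3. II = D0 + x (Var = ∫_W N - pi N(xbar), ∫_W N = pi/4 + II).
4. cen_I: pi √N 2√νmin <= II, so x = (pi √N)²/pi <= II²/(4 pi νmin) = II (D0 + x)/(4 pi νmin).
   With q <= 22/222: (D0 + x)/(4 pi νmin): first with x <= .32 one gets x <= .229 D0-type bound after one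
   iteration, then D0 + x <= 1.229 D0 <= 1.229 (pi/4)(.22 - 2.22 q)/(1+q) and
   1.229/8 (.22 - 2.22 q)/(1-z)² <= .0376 <= .04 (max over 0 <= z <= .3149).
-/

set_option autoImplicit false

open MeasureTheory Set
open Pool.Agent.Neu
open Pool.Agent.CS4 (Prof2 bb vv eV)

namespace Pool.Agent.FND

open Pool.Agent.Neu.M1x (intOn bdD)

variable {K L : ℝ} {φ ψ χ ω : ℝ → ℝ}

private theorem cen_m {z : ℝ} (hz0 : 0 ≤ z) (hz1 : z < 1) :
    0 ≤ 2 * z / (1 + z ^ 2) ∧ 2 * z / (1 + z ^ 2) < 1 ∧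
      (1 - 2 * z / (1 + z ^ 2)) / 2 * (2 * (1 + z ^ 2)) = (1 - z) ^ 2 := by
  have h : 0 < 1 + z ^ 2 := by positivity
  refine ⟨by positivity, ?_, ?_⟩
  · rw [div_lt_one h]
    nlinarith [sq_nonneg (1 - z), sq_pos_of_pos (sub_pos.2 hz1)]
  · field_simp
    ring

private theorem cont_sq' : Continuous sq := by
  unfold Neu.sq
  fun_prop

private theorem cont_Nd (m : ℝ) : Continuous (Nd m) := by
  unfold Nd
  fun_prop

private theorem sq_nn (y : E) : 0 ≤ sq y := by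
  unfold Neu.sq
  positivity

private theorem mem_D_iff (y : E) : y ∈ D ↔ sq y < 1 := by
  rw [Radx.sq_eq, D, Metric.mem_ball, dist_zero_right]
  constructor
  · intro h
    have h0 := norm_nonneg y
    nlinarith
  · intro h
    by_contra h1
    rw [not_lt] at h1
    nlinarith

private theorem cen_A1 {W : Set E} {a b : ℝ} (h : Prof K φ ψ) (hW : WS φ χ W a b) {m : ℝ}
    (hm0 : 0 ≤ m) (hm1 : m < 1) :
    (∫ y in W \ D, (1 - φ (sq y)) * √(Nd m y)) * √((1 - m) / 2) ≤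
      (∫ y in W \ D, 2 * φ (sq y) * (1 - φ (sq y)) * Nd m y) / 2 ∧
    0 ≤ ∫ y in W \ D, 2 * φ (sq y) * (1 - φ (sq y)) * Nd m y := by
  have cφ : Continuous φ := continuous_iff_continuousAt.2 fun s => (h.deriv s).continuousAt
  have c1 : Continuous fun y : E => φ (sq y) := cφ.comp cont_sq'
  have c2 : Continuous (Nd m) := cont_Nd m
  have c3 : Continuous sq := cont_sq'
  have c4 : Continuous fun y : E => (1 - φ (sq y)) * √(Nd m y) :=
    (continuous_const.sub c1).mul (Real.continuous_sqrt.comp c2)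
  have c5 : Continuous fun y : E => 2 * φ (sq y) * (1 - φ (sq y)) * Nd m y :=
    ((continuous_const.mul c1).mul (continuous_const.sub c1)).mul c2
  have hbd : Bornology.IsBounded (W \ D) := hW.bdd.subset sdiff_subset
  have hms : MeasurableSet (W \ D) := hW.meas.diff Metric.isOpen_ball.measurableSet
  have key : ∀ y ∈ W \ D, 0 < φ (sq y) ∧ φ (sq y) ≤ 1 ∧ 0 ≤ Nd m y ∧
      √((1 - m) / 2) ≤ φ (sq y) * √(Nd m y) := by
    intro y hy
    have hs : 1 ≤ sq y := by
      by_contra h1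
      exact hy.2 ((mem_D_iff y).2 (not_le.1 h1))
    have hs1 : 1 ≤ √(sq y) := by
      rw [← Real.sqrt_one]
      exact Real.sqrt_le_sqrt hs
    have e1 : φ (sq y) = 1 / √(sq y) := h.out _ hs
    have e2 : 0 < φ (sq y) := by rw [e1]; positivity
    have e3 : φ (sq y) ≤ 1 := by
      rw [e1, div_le_one (by positivity)]
      exact hs1
    have e4 := (Nd_bd hm0 hm1.le y).1
    have e5 : 0 ≤ Nd m y := le_trans (by have := sq_nn y; nlinarith) e4
    refine ⟨e2, e3, e5, ?_⟩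
    have e6 := phi_out h hs
    have e7 : φ (sq y) * √(Nd m y) = √(φ (sq y) ^ 2 * Nd m y) := by
      rw [Real.sqrt_mul (by positivity), Real.sqrt_sq e2.le]
    rw [e7]
    apply Real.sqrt_le_sqrt
    calc (1 - m) / 2 = (1 - m) / 2 * (φ (sq y) ^ 2 * sq y) := by rw [e6, mul_one]
      _ = φ (sq y) ^ 2 * ((1 - m) / 2 * sq y) := by ring
      _ ≤ φ (sq y) ^ 2 * Nd m y := mul_le_mul_of_nonneg_left e4 (sq_nonneg _)
  constructor
  · rw [← integral_mul_const, ← integral_div]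
    refine setIntegral_mono_on (intOn (c4.mul_const _) hbd) (intOn (c5.div_const _) hbd) hms ?_
    intro y hy
    obtain ⟨e2, e3, e5, e6⟩ := key y hy
    have e8 : √(Nd m y) * √((1 - m) / 2) ≤ φ (sq y) * Nd m y := by
      calc √(Nd m y) * √((1 - m) / 2) ≤ √(Nd m y) * (φ (sq y) * √(Nd m y)) :=
            mul_le_mul_of_nonneg_left e6 (Real.sqrt_nonneg _)
        _ = φ (sq y) * (√(Nd m y) * √(Nd m y)) := by ring
        _ = φ (sq y) * Nd m y := by rw [Real.mul_self_sqrt e5]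
    have e9 : 0 ≤ 1 - φ (sq y) := by linarith
    calc (1 - φ (sq y)) * √(Nd m y) * √((1 - m) / 2)
        = (1 - φ (sq y)) * (√(Nd m y) * √((1 - m) / 2)) := by ring
      _ ≤ (1 - φ (sq y)) * (φ (sq y) * Nd m y) := mul_le_mul_of_nonneg_left e8 e9
      _ = 2 * φ (sq y) * (1 - φ (sq y)) * Nd m y / 2 := by ring
  · refine setIntegral_nonneg hms ?_
    intro y hy
    obtain ⟨e2, e3, e5, e6⟩ := key y hy
    have e9 : 0 ≤ 1 - φ (sq y) := by linarith
    positivity

private theorem cen_A2 {W : Set E} {a b : ℝ} (h : Prof K φ ψ) (hW : WS φ χ W a b) {m : ℝ}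
    (hm0 : 0 ≤ m) (hm1 : m < 1) :
    (∫ y in D \ W, (φ (sq y) - 1) * √(Nd m y)) ≤ 9 / 40 * Real.pi := by
  have cφ : Continuous φ := continuous_iff_continuousAt.2 fun s => (h.deriv s).continuousAt
  have c1 : Continuous fun y : E => φ (sq y) := cφ.comp cont_sq'
  have c2 : Continuous (Nd m) := cont_Nd m
  have c3 : Continuous sq := cont_sq'
  have hD : Bornology.IsBounded (D : Set E) := bdD
  have hbd : Bornology.IsBounded (D \ W) := hD.subset sdiff_subset
  have hmD : MeasurableSet (D : Set E) := Metric.isOpen_ball.measurableSet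
  have hms : MeasurableSet (D \ W) := hmD.diff hW.meas
  have s1 : (∫ y in D \ W, (φ (sq y) - 1) * √(Nd m y)) ≤
      ∫ y in D \ W, 27 / 80 * (1 - sq y ^ 2) := by
    refine setIntegral_mono_on (intOn (by fun_prop) hbd) (intOn (by fun_prop) hbd) hms ?_
    intro y hy
    have hs := (mem_D_iff y).1 hy.1
    have hs0 := sq_nn y
    have e1 := h.le (sq y) ⟨hs0, hs.le⟩
    have e2 := h.one_le (sq y) ⟨hs0, hs.le⟩
    have e3 := (Nd_bd hm0 hm1.le y).2
    have e4 : √(Nd m y) ≤ (1 + sq y) / 2 := by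
      rw [Real.sqrt_le_left (by linarith)]
      nlinarith [sq_nonneg (1 - sq y)]
    have e5 : 0 ≤ √(Nd m y) := Real.sqrt_nonneg _
    calc (φ (sq y) - 1) * √(Nd m y) ≤ (27 / 40 * (1 - sq y)) * ((1 + sq y) / 2) :=
          mul_le_mul (by linarith) e4 e5 (by linarith)
      _ = 27 / 80 * (1 - sq y ^ 2) := by ring
  have s2 : ∫ y in D \ W, 27 / 80 * (1 - sq y ^ 2) ≤ ∫ y in D, 27 / 80 * (1 - sq y ^ 2) := by
    refine setIntegral_mono_set (intOn (by fun_prop) hD) ?_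
      (Filter.Eventually.of_forall fun y hy => hy.1)
    refine (ae_restrict_iff' hmD).2 (Filter.Eventually.of_forall fun y hy => ?_)
    have hs := (mem_D_iff y).1 hy
    have hs0 := sq_nn y
    show (0 : ℝ) ≤ 27 / 80 * (1 - sq y ^ 2)
    nlinarith
  have s3 : ∫ y in D, 27 / 80 * (1 - sq y ^ 2) = 9 / 40 * Real.pi := by
    have h0 := disc_radial (f := fun s => 27 / 80 * (1 - s ^ 2)) (by fun_prop)
    rw [h0]
    have h1 : ∫ s in (0 : ℝ)..1, 27 / 80 * (1 - s ^ 2) = 9 / 40 := by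
      rw [intervalIntegral.integral_const_mul, intervalIntegral.integral_sub (by simp)
        ((continuous_pow 2).intervalIntegrable _ _), integral_pow]
      simp
      norm_num
    rw [h1]
    ring
  linarith

private theorem cen_alg {P z v nu D0 x R A1 A2 Y I : ℝ} (hP1 : 3.1415 < P) (hP2 : P < 3.1416)
    (hz0 : 0 ≤ z) (hz1 : z < 1)
    (hnu : nu * (2 * (1 + z ^ 2)) = (1 - z) ^ 2) (hv0 : 0 ≤ v) (hv : v ^ 2 = nu)
    (hD0 : 0 ≤ D0) (hD : D0 * (1 + z ^ 2) ≤ P / 4 * (22 / 100 - 222 / 100 * z ^ 2))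
    (hR : 0 ≤ R) (hx : x = P * R ^ 2) (hI : I = D0 + x)
    (h1 : P * R ≤ A1 + A2) (hA1 : A1 * v ≤ Y / 2) (hY : Y ≤ D0) (hA2 : A2 ≤ 9 / 40 * P)
    (h2 : P * R * (2 * v) ≤ I) : x ≤ 4 / 100 * I := by
  have hq : 0 < 1 + z ^ 2 := by positivity
  have hP : 0 < P := by linarith
  have hx0 : 0 ≤ x := by rw [hx]; positivity
  have hz2 : z ^ 2 ≤ 22 / 222 := by
    by_contra hc
    rw [not_le] at hc
    have : P / 4 * (22 / 100 - 222 / 100 * z ^ 2) < 0 :=
      mul_neg_of_pos_of_neg (by linarith) (by linarith)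
    have : 0 ≤ D0 * (1 + z ^ 2) := by positivity
    linarith
  have hz3 : z ≤ 315 / 1000 := by
    by_contra hc
    rw [not_le] at hc
    have e0 := pow_lt_pow_left₀ hc (by norm_num) two_ne_zero
    norm_num at e0
    linarith
  have hnu1 : 213 / 1000 ≤ nu := by
    by_contra hc
    rw [not_le] at hc
    have : nu * (2 * (1 + z ^ 2)) < 213 / 1000 * (2 * (1 + z ^ 2)) :=
      mul_lt_mul_of_pos_right hc (by positivity)
    rw [hnu] at this
    have e0 := sq_nonneg (z - 315 / 1000)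
    have e1 : (1 - z) ^ 2 = 1 - 2 * z + z ^ 2 := by ring
    have e2 : (z - 315 / 1000) ^ 2 = z ^ 2 - 630 / 1000 * z + 99225 / 1000000 := by ring
    rw [e1] at this
    rw [e2] at e0
    linarith
  have hv1 : 4615 / 10000 ≤ v := by
    by_contra hc
    rw [not_le] at hc
    have e0 := pow_lt_pow_left₀ hc hv0 two_ne_zero
    rw [hv] at e0
    norm_num at e0
    linarith
  have hD1 : D0 ≤ 173 / 1000 := by
    have e1 : D0 ≤ D0 * (1 + z ^ 2) := by
      have e0 : 0 ≤ D0 * z ^ 2 := by positivity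
      linarith
    have e2 : P / 4 * (22 / 100 - 222 / 100 * z ^ 2) ≤ P / 4 * (22 / 100) := by
      apply mul_le_mul_of_nonneg_left _ (by linarith)
      nlinarith [sq_nonneg z]
    linarith
  have hA1' : A1 ≤ 188 / 1000 := by
    by_contra hc
    rw [not_le] at hc
    have : 188 / 1000 * (4615 / 10000) < A1 * v :=
      mul_lt_mul hc hv1 (by norm_num) (by linarith)
    linarith
  have hPR : P * R ≤ 8949 / 10000 := by linarith
  have hPR0 : 0 ≤ P * R := by positivity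
  have hxP : x * P = (P * R) ^ 2 := by rw [hx]; ring
  have hx1 : x ≤ 26 / 100 := by
    have e1 : (P * R) ^ 2 ≤ (8949 / 10000) ^ 2 := by
      apply pow_le_pow_left₀ hPR0 hPR
    rw [← hxP] at e1
    by_contra hc
    rw [not_le] at hc
    have e0 : 26 / 100 * 3.1415 < x * P := mul_lt_mul hc hP1.le (by norm_num) hx0
    norm_num at e0 e1
    linarith
  have hI0 : 0 ≤ I := by rw [hI]; linarith
  have hI1 : I ≤ 433 / 1000 := by rw [hI]; linarith
  have h3 : x * (P * (4 * nu)) ≤ I ^ 2 := by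
    have e1 : (P * R * (2 * v)) ^ 2 ≤ I ^ 2 := pow_le_pow_left₀ (by positivity) h2 2
    have e2 : (P * R * (2 * v)) ^ 2 = x * (P * (4 * nu)) := by
      rw [← hv, hx]; ring
    linarith
  have hk : 2676 / 1000 ≤ P * (4 * nu) := by
    have e0 : 3.1415 * (4 * (213 / 1000)) ≤ P * (4 * nu) :=
      mul_le_mul hP1.le (by linarith) (by norm_num) hP.le
    norm_num at e0
    linarith
  have h4 : x ≤ 1931 / 10000 * D0 := by
    have e1 : x * (2676 / 1000) ≤ x * (P * (4 * nu)) := mul_le_mul_of_nonneg_left hk hx0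
    have e2 : I ^ 2 ≤ 433 / 1000 * (D0 + x) := by
      rw [← hI, pow_two]
      exact mul_le_mul_of_nonneg_right hI1 hI0
    linarith
  have h5 : I ≤ 11931 / 10000 * D0 := by rw [hI]; linarith
  have h6 : 11931 / 10000 * D0 ≤ 4 / 100 * (P * (4 * nu)) := by
    have e1 : 11931 / 10000 * D0 * (1 + z ^ 2) ≤ 4 / 100 * (P * (4 * nu)) * (1 + z ^ 2) := by
      have e2 : 4 / 100 * (P * (4 * nu)) * (1 + z ^ 2) = 8 / 100 * P * (1 - z) ^ 2 := by
        rw [← hnu]; ring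
      rw [e2]
      have e3 : 11931 / 10000 * D0 * (1 + z ^ 2) ≤
          11931 / 10000 * (P / 4 * (22 / 100 - 222 / 100 * z ^ 2)) := by
        rw [mul_assoc]
        exact mul_le_mul_of_nonneg_left hD (by norm_num)
      have e4 : 11931 / 10000 * (1 / 4 * (22 / 100 - 222 / 100 * z ^ 2)) ≤
          8 / 100 * (1 - z) ^ 2 := by nlinarith [sq_nonneg (z - 108 / 1000)]
      have e5 := mul_le_mul_of_nonneg_left e4 hP.le
      calc 11931 / 10000 * D0 * (1 + z ^ 2) ≤ _ := e3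
        _ = P * (11931 / 10000 * (1 / 4 * (22 / 100 - 222 / 100 * z ^ 2))) := by ring
        _ ≤ _ := e5
        _ = 8 / 100 * P * (1 - z) ^ 2 := by ring
    exact le_of_mul_le_mul_right e1 hq
  have h7 : x * (P * (4 * nu)) ≤ 4 / 100 * I * (P * (4 * nu)) := by
    calc x * (P * (4 * nu)) ≤ I ^ 2 := h3
      _ = I * I := by ring
      _ ≤ I * (4 / 100 * (P * (4 * nu))) := mul_le_mul_of_nonneg_left (h5.trans h6) hI0
      _ = 4 / 100 * I * (P * (4 * nu)) := by ring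
  exact le_of_mul_le_mul_right h7 (by linarith)

theorem cen {W : Set E} {a b : ℝ} (d : Dat K L φ ψ χ ω) (hW : WS φ χ W a b) {z : ℝ}
    (hz0 : 0 ≤ z) (hz1 : z < 1) {x : E} (hx : ∀ i, Real.pi * x i = ∫ y in W, y i)
    (hO : (volume (W \ D)).toReal ≤ 10 / 11 * Real.pi)
    (hV : ∫ y in W, Nd (2 * z / (1 + z ^ 2)) (y - x)
      ≤ Real.pi / 4 * (61 / 50) * ((1 - z ^ 2) / (1 + z ^ 2))) :
    Real.pi / 4 ≤ (∫ y in W, Nd (2 * z / (1 + z ^ 2)) (y - x)) ∧
      Real.pi * Nd (2 * z / (1 + z ^ 2)) x ≤ 4 / 100 * II (2 * z / (1 + z ^ 2)) φ W := by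
  obtain ⟨hm0, hm1, hnu⟩ := cen_m hz0 hz1
  have hv := var_eq d.prof hW (2 * z / (1 + z ^ 2)) hx
  have hp := cen_pos d hW hm0 hm1 hx hO
  have hs := cen_sqrt d hW hm0 hm1 hx
  have hi := cen_I d hW hm0 hm1 hx
  obtain ⟨hA1, hY⟩ := cen_A1 d.prof hW hm0 hm1
  have hA2 := cen_A2 d.prof hW hm0 hm1
  have hN : 0 ≤ Nd (2 * z / (1 + z ^ 2)) x := by
    have e4 := (Nd_bd hm0 hm1.le x).1
    refine le_trans ?_ e4
    have := sq_nn x
    nlinarith
  have hq : 0 < 1 + z ^ 2 := by positivity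
  refine ⟨by linarith, ?_⟩
  refine cen_alg (z := z) (v := √((1 - 2 * z / (1 + z ^ 2)) / 2)) (P := Real.pi)
    (nu := (1 - 2 * z / (1 + z ^ 2)) / 2)
    (D0 := (∫ y in W, Nd (2 * z / (1 + z ^ 2)) (y - x)) - Real.pi / 4)
    (R := √(Nd (2 * z / (1 + z ^ 2)) x)) (I := II (2 * z / (1 + z ^ 2)) φ W)
    ?_ ?_ hz0 hz1 hnu (Real.sqrt_nonneg _) ?_ (by linarith) ?_ (Real.sqrt_nonneg _) ?_ ?_ hs hA1 hp hA2 hi
  · have := Real.pi_gt_d4
    linarith
  · have := Real.pi_lt_d4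
    linarith
  · exact Real.sq_sqrt (by linarith)
  · have e1 := mul_le_mul_of_nonneg_right hV hq.le
    have e2 : Real.pi / 4 * (61 / 50) * ((1 - z ^ 2) / (1 + z ^ 2)) * (1 + z ^ 2) =
        Real.pi / 4 * (61 / 50) * (1 - z ^ 2) := by
      field_simp
    rw [e2] at e1
    linarith
  · rw [Real.sq_sqrt hN]
  · linarith

end Pool.Agent.FND
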