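import Pool.Agent.FND.Defs
import Pool.Agent.FND.Base
import Pool.Agent.FND.DIa
import Pool.Agent.FND.Wid
import Pool.Agent.FND.Cst
import Pool.Agent.Neu.Main2

/-!
FND-CenA: the part of `W` outside the disc is not too large.

Plan.  Pattern: Neu/Main2.lean (main_eq) and Neu/Disc.lean (centroid2).
1. Centroid form: with N = Nd m (a nonnegative quadratic form, trace 1) and x the centroid (|W| = pi from hW),
for every y: N(y - x) >= 2 (the polar form) ...; the inequality wanted is Var >= ∫_W (2φ - φ²) N.  Reason: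
`WS` gives ∫_W φ y_i = 0, so with v = (1 - φ) y one has ∫_W v = pi x, hence by Cauchy-Schwarz for the form N:
pi N(x) <= ∫_W (1-φ)² N, and Var = ∫_W N - pi N(x) >= ∫_W (N - (1-φ)² N) = ∫_W (2φ - φ²) N.
2. Outside D: sφ² = 1, so with r = √s, ν = N/s: (2φ-φ²)N = (2r-1)ν >= ν.  ∫_W (2φ-φ²)N = ∫_D (2φ-φ²)N
+ ∫_{W\D} (2r-1)ν - ∫_{D\W} (2φ-φ²) N and ∫_D (2φ-φ²)N = ∫_D sφ - (1/2)∫_D sφ² = 2 pi/K - mw/2 >= .7461
(∫_D N f(s) = (1/2) ∫_D s f(s) by rotation; ∫_D sφ = 2 pi /K from the ODE of φ: (s²ψ)' is a multiple of sφ, `Prof.ode`).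
3. The balance of `WS` (w1: ∫_W (w_0² - w_1²) = 0): ∫_{W\D} ν = ∫_{D\W} (φ²N + X1/2), X1 = 1 - sφ².  Hence
Var >= .7461 + ∫_{D\W} [φ²N + X1/2 - 2φN + φ²N] = .7461 + ∫_{D\W} [X1/2 + 2φ(φ-1)N] >= .7461 + (1/2)∫_{D\W} X1.
4. If |W\D| = |D\W| > 10 pi/11 then ∫_{D\W} X1 = ∫_D X1 - ∫_{D ∩ W} X1 >= (pi - mw) - pi/11 = .641 (0 <= X1 <= 1), so
Var >= .7461 + .3205 = 1.066 >= 1.06.
If the exact form of a balance differs (see the fields of WS in Defs.lean and the lemmas of Base.lean), adapt.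
-/

set_option autoImplicit false

open MeasureTheory Set
open Pool.Agent.Neu
open Pool.Agent.CS4 (Prof2 bb vv eV)

namespace Pool.Agent.FND

variable {K L : ℝ} {φ ψ χ ω : ℝ → ℝ}

private theorem ca_int (h : Prof K φ ψ) : ∫ s in (0 : ℝ)..1, s * φ s = 2 / K := by
  have hK : 0 < K := by linarith [h.K_lo]
  have cφ := h.phi_cont
  have cψ := h.cont
  have key : ∫ s in (0 : ℝ)..1, -(K / 4) * (s * φ s) = 1 ^ 2 * ψ 1 - 0 ^ 2 * ψ 0 :=
    intervalIntegral.integral_eq_sub_of_hasDerivAt_of_le (f := fun t => t ^ 2 * ψ t) zero_le_one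
      (Continuous.continuousOn (by fun_prop)) (fun s hs => h.ode s hs.2)
      (Continuous.intervalIntegrable (by fun_prop) _ _)
  rw [intervalIntegral.integral_const_mul, h.outd 1 le_rfl] at key
  norm_num at key
  rw [eq_div_iff hK.ne']
  linarith

private theorem ca_Nd (m : ℝ) (y : E) : N ((1 + m) / 2) 0 ((1 - m) / 2) y = Nd m y := by
  unfold Nd N
  ring

private theorem ca_Nd_nonneg {m : ℝ} (hm0 : 0 ≤ m) (hm1 : m < 1) (y : E) : 0 ≤ Nd m y := by
  have h1 := (Nd_bd hm0 hm1.le y).1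
  have h2 : 0 ≤ (1 - m) / 2 * sq y := mul_nonneg (by linarith) (M1x.sq_nonneg y)
  linarith

private theorem ca_out (h : Prof K φ ψ) {s : ℝ} (hs : 1 ≤ s) : 0 ≤ φ s ∧ φ s ≤ 1 := by
  rw [h.out s hs]
  have h1 : 1 ≤ √s := Real.one_le_sqrt.mpr hs
  have h2 : 0 < √s := lt_of_lt_of_le one_pos h1
  exact ⟨by positivity, (div_le_one h2).mpr h1⟩

theorem cenA {W : Set E} {a b : ℝ} (d : Dat K L φ ψ χ ω) (hW : WS φ χ W a b) {m : ℝ}
    (hm0 : 0 ≤ m) (hm1 : m < 1) {x : E} (hx : ∀ i, Real.pi * x i = ∫ y in W, y i) :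
    (volume (W \ D)).toReal ≤ 10 / 11 * Real.pi ∨ 106 / 100 ≤ ∫ y in W, Nd m (y - x) := by
  by_cases hc : (volume (W \ D)).toReal ≤ 10 / 11 * Real.pi
  · exact Or.inl hc
  right
  push Not at hc
  have h := d.prof
  have hK1 := d.enc.K_lo
  have hK2 := d.enc.K_hi
  have hK : 0 < K := by linarith
  obtain ⟨w1, w2⟩ := mw_bd d
  have cφ := h.phi_cont
  have cs := M1x.cont_sq
  have cN : Continuous (fun y : E => Nd m y) := by unfold Nd; fun_prop
  have bO : Bornology.IsBounded (W \ D) := hW.bdd.subset sdiff_subset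
  have bS : Bornology.IsBounded (D \ W : Set E) := M1x.bdD.subset sdiff_subset
  have bI : Bornology.IsBounded (D ∩ W : Set E) := M1x.bdD.subset inter_subset_left
  have mO : MeasurableSet (W \ D) := hW.meas.diff M1x.measD
  have mS : MeasurableSet (D \ W : Set E) := M1x.measD.diff hW.meas
  have mI : MeasurableSet (D ∩ W : Set E) := M1x.measD.inter hW.meas
  -- the functions
  have cF : Continuous (fun y : E => φ (sq y) ^ 2 * Nd m y + (1 - sq y * φ (sq y) ^ 2) / 2) := by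
    fun_prop
  have cJ : Continuous (fun y : E => (2 * φ (sq y) - φ (sq y) ^ 2) * Nd m y) := by fun_prop
  have cX : Continuous (fun y : E => 1 - sq y * φ (sq y) ^ 2) := by fun_prop
  have cQ : Continuous (fun y : E => (1 - φ (sq y)) ^ 2 * Nd m y) := by fun_prop
  have cG : Continuous (fun y : E => GI m φ y) := by unfold GI; fun_prop
  -- the variance
  have v1 := var_eq h hW m hx
  have v2 : II m φ W = (∫ y in W, GI m φ y) + Real.pi / 4 := rfl
  have v3 := h.centroid2 hW.meas hW.bdd hW.vol hW.w0 (p := (1 + m) / 2) (q := 0)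
    (r := (1 - m) / 2) (by linarith) (by linarith) (by nlinarith) hx
  simp only [ca_Nd] at v3
  have v4 : (∫ y in W \ D, (1 - φ (sq y)) ^ 2 * Nd m y) +
      ∫ y in W ∩ D, (1 - φ (sq y)) ^ 2 * Nd m y = ∫ y in W, (1 - φ (sq y)) ^ 2 * Nd m y := by
    rw [add_comm]
    exact integral_inter_add_sdiff M1x.measD (M1x.intOn cQ hW.bdd)
  have v5 := W_N h hW m
  have v6 : (∫ y in W, (2 * φ (sq y) - φ (sq y) ^ 2) * Nd m y) =
      (∫ y in W, GI m φ y) - (∫ y in W, (1 - φ (sq y)) ^ 2 * Nd m y) +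
        ∫ y in W, (φ (sq y) ^ 2 * Nd m y + (1 - sq y * φ (sq y) ^ 2) / 2) := by
    have g1 : IntegrableOn (fun y : E => GI m φ y) W := M1x.intOn cG hW.bdd
    have g2 : IntegrableOn (fun y : E => (1 - φ (sq y)) ^ 2 * Nd m y) W := M1x.intOn cQ hW.bdd
    have g3 : IntegrableOn (fun y : E => φ (sq y) ^ 2 * Nd m y + (1 - sq y * φ (sq y) ^ 2) / 2) W :=
      M1x.intOn cF hW.bdd
    have g4 : IntegrableOn (fun y : E => GI m φ y - (1 - φ (sq y)) ^ 2 * Nd m y) W := g1.sub g2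
    rw [← integral_sub g1 g2, ← integral_add g4 g3]
    refine integral_congr_ae (Filter.Eventually.of_forall fun y => ?_)
    simp only [GI]
    ring
  -- splitting
  have s1 := split_int hW.meas hW.bdd cJ
  have s2 := split_int hW.meas hW.bdd cF
  have s3 := int_N_disc h m
  have s4 : ∫ y in W \ D, (φ (sq y) ^ 2 * Nd m y + (1 - sq y * φ (sq y) ^ 2) / 2) ≤
      ∫ y in W \ D, (2 * φ (sq y) - φ (sq y) ^ 2) * Nd m y := by
    refine setIntegral_mono_on (M1x.intOn cF bO) (M1x.intOn cJ bO) mO fun y hy => ?_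
    have hy1 : 1 ≤ sq y := not_lt.mp fun h6 => hy.2 (M1x.mem_D.mpr h6)
    obtain ⟨p1, p2⟩ := ca_out h hy1
    have p3 := phi_out h hy1
    have p4 := ca_Nd_nonneg hm0 hm1 y
    have p5 : 0 ≤ 2 * (φ (sq y) * (1 - φ (sq y))) * Nd m y :=
      mul_nonneg (mul_nonneg (by norm_num) (mul_nonneg p1 (by linarith))) p4
    have p6 : (1 - sq y * φ (sq y) ^ 2) = 0 := by linarith
    rw [p6]
    linarith
  have s5 : ∫ y in D \ W, (1 - sq y * φ (sq y) ^ 2) / 2 ≤
      ∫ y in D \ W, ((φ (sq y) ^ 2 * Nd m y + (1 - sq y * φ (sq y) ^ 2) / 2) -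
        (2 * φ (sq y) - φ (sq y) ^ 2) * Nd m y) := by
    refine setIntegral_mono_on (M1x.intOn (cX.div_const 2) bS) (M1x.intOn (cF.sub cJ) bS) mS
      fun y hy => ?_
    have hy1 : sq y ∈ Icc (0 : ℝ) 1 := ⟨M1x.sq_nonneg y, (M1x.mem_D.mp hy.1).le⟩
    have p1 := h.one_le _ hy1
    have p4 := ca_Nd_nonneg hm0 hm1 y
    have p5 : 0 ≤ 2 * (φ (sq y) * (φ (sq y) - 1)) * Nd m y :=
      mul_nonneg (mul_nonneg (by norm_num) (mul_nonneg (by linarith) (by linarith))) p4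
    linarith
  have s6 : ∫ y in D \ W, ((φ (sq y) ^ 2 * Nd m y + (1 - sq y * φ (sq y) ^ 2) / 2) -
        (2 * φ (sq y) - φ (sq y) ^ 2) * Nd m y) =
      (∫ y in D \ W, (φ (sq y) ^ 2 * Nd m y + (1 - sq y * φ (sq y) ^ 2) / 2)) -
        ∫ y in D \ W, (2 * φ (sq y) - φ (sq y) ^ 2) * Nd m y :=
    integral_sub (M1x.intOn cF bS) (M1x.intOn cJ bS)
  have s7 : ∫ y in D \ W, (1 - sq y * φ (sq y) ^ 2) / 2 =
      (∫ y in D \ W, (1 - sq y * φ (sq y) ^ 2)) / 2 := integral_div _ _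
  -- integrals over the disc
  have t1 : ∫ y in D, (2 * φ (sq y) - φ (sq y) ^ 2) * Nd m y = 2 * Real.pi / K - mw K / 2 := by
    have e1 := disc_radial_N (f := fun s => 2 * φ s - φ s ^ 2) (by fun_prop) ((1 + m) / 2) 0
      ((1 - m) / 2)
    simp only [ca_Nd] at e1
    rw [e1]
    have e2 : ∫ y in D, sq y * φ (sq y) ^ 2 = Real.pi * ∫ s in (0 : ℝ)..1, s * φ s ^ 2 :=
      disc_radial (f := fun s => s * φ s ^ 2) (by fun_prop)
    rw [int_g2_disc h] at e2
    have e3 : ∫ s in (0 : ℝ)..1, s * (2 * φ s - φ s ^ 2) =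
        2 * (∫ s in (0 : ℝ)..1, s * φ s) - ∫ s in (0 : ℝ)..1, s * φ s ^ 2 := by
      rw [← intervalIntegral.integral_const_mul, ← intervalIntegral.integral_sub
        (Continuous.intervalIntegrable (by fun_prop) _ _)
        (Continuous.intervalIntegrable (by fun_prop) _ _)]
      refine intervalIntegral.integral_congr fun s _ => ?_
      ring
    rw [e3, ca_int h, e2]
    ring
  have t2 : ∫ y in D, (1 - sq y * φ (sq y) ^ 2) = Real.pi - mw K := by
    have g1 : IntegrableOn (fun _ : E => (1 : ℝ)) D := M1x.intOn continuous_const M1x.bdD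
    have g2 : IntegrableOn (fun y : E => sq y * φ (sq y) ^ 2) D :=
      M1x.intOn (by fun_prop) M1x.bdD
    rw [integral_sub g1 g2, int_g2_disc h, setIntegral_const]
    have : volume.real (D : Set E) = Real.pi := by
      unfold Measure.real
      rw [disc_volume, ENNReal.toReal_ofReal Real.pi_pos.le]
    rw [this, smul_eq_mul, mul_one]
  have t3 : (∫ y in D ∩ W, (1 - sq y * φ (sq y) ^ 2)) + ∫ y in D \ W, (1 - sq y * φ (sq y) ^ 2) =
      ∫ y in D, (1 - sq y * φ (sq y) ^ 2) :=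
    integral_inter_add_sdiff hW.meas (M1x.intOn cX M1x.bdD)
  have t4 : ∫ y in D ∩ W, (1 - sq y * φ (sq y) ^ 2) ≤ ∫ _y in D ∩ W, (1 : ℝ) := by
    refine setIntegral_mono_on (M1x.intOn cX bI) (M1x.intOn continuous_const bI) mI fun y hy => ?_
    have hy1 : sq y ∈ Icc (0 : ℝ) 1 := ⟨M1x.sq_nonneg y, (M1x.mem_D.mp hy.1).le⟩
    have p1 := (g2_bd h hy1).1
    linarith [hy1.1]
  rw [setIntegral_const, smul_eq_mul, mul_one] at t4
  have t5 : volume.real (D ∩ W : Set E) + volume.real (W \ D) = Real.pi := by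
    have hfin : volume W ≠ ⊤ := by rw [hW.vol]; exact ENNReal.ofReal_ne_top
    have e1 := measureReal_inter_add_sdiff (μ := volume) (s := W) M1x.measD hfin
    rw [inter_comm] at e1
    rw [e1]
    unfold Measure.real
    rw [hW.vol, ENNReal.toReal_ofReal Real.pi_pos.le]
  have t6 : volume.real (W \ D) = (volume (W \ D)).toReal := rfl
  rw [← t6] at hc
  have hp1 := Real.pi_gt_d6
  have hp2 := Real.pi_lt_d6
  norm_num at hp1 hp2
  have t7 : 18534 / 10000 ≤ 2 * Real.pi / K := by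
    rw [le_div_iff₀ hK]
    linarith
  linarith

end Pool.Agent.FND
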