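import Pool.Agent.FND.Defs
import Pool.Agent.FND.Base
import Pool.Agent.FND.DI
import Pool.Agent.FND.Wid
import Pool.Agent.FND.Cst

/-!
FND-Cross: the moments of `A` against `1`, `w`.

All densities vanish outside the disc up to the standing hypotheses, and their integrals over the disc
are zero (or `kap`), so that only integrals over `D \ W` remain; the norms are estimated by
the triangle inequality for complex valued integrals.
-/

set_option autoImplicit false

open MeasureTheory Set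
open Pool.Agent.Neu
open Pool.Agent.CS4 (Prof2 bb vv eV)

namespace Pool.Agent.FND

variable {K L : ℝ} {φ ψ χ ω : ℝ → ℝ}

private theorem cr_chi (h2 : Prof2 L χ ω) : Continuous χ :=
  continuous_iff_continuousAt.2 fun x => (h2.deriv x).continuousAt

private theorem cr_norm {S : Set E} (hS : MeasurableSet S) (hb : Bornology.IsBounded S)
    {f g k : E → ℝ} (cf : Continuous f) (cg : Continuous g) (ck : Continuous k)
    (h : ∀ y ∈ S, f y ^ 2 + g y ^ 2 ≤ k y ^ 2) (hk : ∀ y ∈ S, 0 ≤ k y) :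
    √((∫ y in S, f y) ^ 2 + (∫ y in S, g y) ^ 2) ≤ ∫ y in S, k y := by
  have i1 := M1x.intOn cf hb
  have i2 := M1x.intOn cg hb
  have i3 := M1x.intOn ck hb
  have j1 : IntegrableOn (fun y => (f y : ℂ)) S := i1.ofReal
  have j2 : IntegrableOn (fun y => (g y : ℂ)) S := i2.ofReal
  have j3 : IntegrableOn (fun y => (f y : ℂ) + (g y : ℂ) * Complex.I) S :=
    j1.add (j2.mul_const _)
  have e1 : ∫ y in S, ((f y : ℂ) + (g y : ℂ) * Complex.I)
      = ((∫ y in S, f y : ℝ) : ℂ) + ((∫ y in S, g y : ℝ) : ℂ) * Complex.I := by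
    rw [integral_add j1 (j2.mul_const _), integral_mul_const, integral_complex_ofReal,
      integral_complex_ofReal]
  have e2 : ‖∫ y in S, ((f y : ℂ) + (g y : ℂ) * Complex.I)‖
      = √((∫ y in S, f y) ^ 2 + (∫ y in S, g y) ^ 2) := by
    rw [e1, Complex.norm_add_mul_I]
  rw [← e2]
  refine (norm_integral_le_integral_norm _).trans ?_
  refine setIntegral_mono_on j3.norm i3 hS (fun y hy => ?_)
  rw [Complex.norm_add_mul_I]
  exact Real.sqrt_le_iff.2 ⟨hk y hy, h y hy⟩

private theorem cr_tri {x0 x1 z0 z1 X Z : ℝ} (hX : 0 ≤ X) (hZ : 0 ≤ Z)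
    (h1 : x0 ^ 2 + x1 ^ 2 = X ^ 2) (h2 : z0 ^ 2 + z1 ^ 2 = Z ^ 2) :
    (x0 + z0) ^ 2 + (x1 + z1) ^ 2 ≤ (X + Z) ^ 2 := by
  have h3 : x0 * z0 + x1 * z1 ≤ X * Z := by
    refine le_of_abs_le (abs_le_of_sq_le_sq ?_ (mul_nonneg hX hZ))
    have h4 : (X * Z) ^ 2 = (x0 ^ 2 + x1 ^ 2) * (z0 ^ 2 + z1 ^ 2) := by
      rw [h1, h2]
      ring
    rw [h4]
    nlinarith [_root_.sq_nonneg (x0 * z1 - x1 * z0)]
  nlinarith

private theorem cr_split {W : Set E} (hW : MeasurableSet W) (hb : Bornology.IsBounded W) {F : E → ℝ}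
    (hF : Continuous F) (hD : ∫ y in D, F y = 0) (hO : ∀ y, 1 ≤ sq y → F y = 0) :
    ∫ y in W, F y = ∫ y in D \ W, -F y := by
  have e1 := split_int hW hb hF
  have e2 : ∫ y in W \ D, F y = 0 := by
    refine setIntegral_eq_zero_of_forall_eq_zero (fun y hy => hO y ?_)
    by_contra h4
    exact hy.2 (M1x.mem_D.2 (not_le.1 h4))
  rw [integral_neg, e1, hD, e2]
  ring

private theorem cr_add {S : Set E} (hb : Bornology.IsBounded S) {f g : E → ℝ} (hf : Continuous f)
    (hg : Continuous g) :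
    (∫ y in S, f y) + (∫ y in S, g y) = ∫ y in S, (f y + g y) :=
  (integral_add (M1x.intOn hf hb) (M1x.intOn hg hb)).symm

private theorem cr_sub {S : Set E} (hb : Bornology.IsBounded S) {f g : E → ℝ} (hf : Continuous f)
    (hg : Continuous g) :
    (∫ y in S, f y) - (∫ y in S, g y) = ∫ y in S, (f y - g y) :=
  (integral_sub (M1x.intOn hf hb) (M1x.intOn hg hb)).symm

private theorem cr_lin {S : Set E} (hb : Bornology.IsBounded S) {f g k : E → ℝ} (hf : Continuous f)
    (hg : Continuous g) (hk : Continuous k) (p q : ℝ) :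
    ∫ y in S, (f y - (p * g y + q * k y))
      = (∫ y in S, f y) - (p * (∫ y in S, g y) + q * ∫ y in S, k y) := by
  have i1 := M1x.intOn hf hb
  have i2 := (M1x.intOn hg hb).const_mul p
  have i3 := (M1x.intOn hk hb).const_mul q
  have e1 : ∫ y in S, (p * g y + q * k y) = p * (∫ y in S, g y) + q * ∫ y in S, k y := by
    rw [integral_add i2 i3, integral_const_mul, integral_const_mul]
  rw [← e1]
  exact integral_sub i1 (i2.add i3)

theorem cross {W : Set E} {a b : ℝ} (d : Dat K L φ ψ χ ω) (hW : WS φ χ W a b) :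
    ∃ eS d0 d1 : ℝ,
      (∫ y in W, Af χ (zt K φ) a b 0 y * w φ 0 y) - (∫ y in W, Af χ (zt K φ) a b 1 y * w φ 1 y)
        = a * eS ∧
      (∫ y in W, Af χ (zt K φ) a b 0 y * w φ 1 y) + (∫ y in W, Af χ (zt K φ) a b 1 y * w φ 0 y)
        = b * eS ∧
      (∫ y in W, Af χ (zt K φ) a b 0 y * w φ 0 y) + (∫ y in W, Af χ (zt K φ) a b 1 y * w φ 1 y)
        = d0 ∧
      (∫ y in W, Af χ (zt K φ) a b 1 y * w φ 0 y) - (∫ y in W, Af χ (zt K φ) a b 0 y * w φ 1 y)
        = d1 ∧
      |eS| ≤ (∫ y in D \ W, jE K φ y) ∧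
      √(d0 ^ 2 + d1 ^ 2) ≤ (∫ y in D \ W, jD φ χ √(a ^ 2 + b ^ 2) y) ∧
      √((∫ y in W, Af χ (zt K φ) a b 0 y) ^ 2 + (∫ y in W, Af χ (zt K φ) a b 1 y) ^ 2)
        ≤ ∫ y in D \ W, jM φ χ √(a ^ 2 + b ^ 2) y := by
  have h := d.prof
  have h2 := d.prof2
  have cp := h.phi_cont
  have cx := cr_chi h2
  have ce := cont_et
  have cs := M1x.cont_sq
  have cz := cont_zt h
  have cA0 := cont_Af h2 cz a b 0
  have cA1 := cont_Af h2 cz a b 1
  have cw0 := M1x.cont_w h 0
  have cw1 := M1x.cont_w h 1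
  have bS : Bornology.IsBounded (D \ W : Set E) := M1x.bdD.subset sdiff_subset
  have mS : MeasurableSet (D \ W : Set E) := M1x.measD.diff hW.meas
  have hin : ∀ y ∈ (D \ W : Set E), sq y ∈ Icc (0 : ℝ) 1 := fun y hy =>
    ⟨M1x.sq_nonneg y, (M1x.mem_D.1 hy.1).le⟩
  have eout : ∀ y : E, 1 ≤ sq y → et (sq y) = 0 := by
    intro y hy
    unfold et
    split_ifs with h3
    · have h4 : sq y = 1 := le_antisymm h3 hy
      rw [h4]
      norm_num
    · rfl
  have xout : ∀ y : E, 1 ≤ sq y → sq y * χ (sq y) = 1 := by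
    intro y hy
    rw [h2.out _ hy]
    have : 0 < sq y := lt_of_lt_of_le one_pos hy
    field_simp
  have pout : ∀ y : E, 1 ≤ sq y → χ (sq y) - φ (sq y) ^ 2 = 0 := by
    intro y hy
    have h0 : 0 < sq y := lt_of_lt_of_le one_pos hy
    have h3 := phi_out h hy
    have h4 : φ (sq y) ^ 2 = 1 / sq y := by
      rw [eq_div_iff h0.ne']
      exact h3
    rw [h2.out _ hy, h4, sub_self]
  -- the moments of w
  have w1' : ∫ y in W, φ (sq y) ^ 2 * bb 0 y = 0 := by
    rw [← hW.w1]
    refine integral_congr_ae (Filter.Eventually.of_forall fun y => ?_)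
    simp only [bb, w, if_true]
    ring
  have w2' : ∫ y in W, φ (sq y) ^ 2 * bb 1 y = 0 := by
    have : ∫ y in W, φ (sq y) ^ 2 * bb 1 y = ∫ y in W, 2 * (w φ 0 y * w φ 1 y) := by
      refine integral_congr_ae (Filter.Eventually.of_forall fun y => ?_)
      simp only [bb, w, if_neg one_ne_zero]
      ring
    rw [this, integral_const_mul, hW.w2, mul_zero]
  have cb0 : Continuous (bb 0) := by
    unfold bb
    simp only [if_true]
    fun_prop
  have cb1 : Continuous (bb 1) := by
    unfold bb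
    simp only [if_neg one_ne_zero]
    fun_prop
  have cc3 : Continuous c3 := by
    unfold c3
    fun_prop
  have cs3 : Continuous s3 := by
    unfold s3
    fun_prop
  have iW : ∀ {F : E → ℝ}, Continuous F → IntegrableOn F W := fun hF => M1x.intOn hF hW.bdd
  have iS : ∀ {F : E → ℝ}, Continuous F → IntegrableOn F (D \ W) := fun hF => M1x.intOn hF bS
  have cM : Continuous fun y : E => sq y * et (sq y) * φ (sq y) := by fun_prop
  have cN : Continuous fun y : E => sq y * φ (sq y) ^ 2 := by fun_prop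
  have cN' : Continuous fun y : E => 1 - sq y * φ (sq y) ^ 2 := by fun_prop
  have eD : ∫ y in D, sq y * et (sq y) * φ (sq y) = kap φ :=
    disc_radial (f := fun s => s * et s * φ s) (by fun_prop)
  have eW : ∫ y in W, sq y * et (sq y) * φ (sq y)
      = kap φ - ∫ y in D \ W, sq y * et (sq y) * φ (sq y) := by
    have e1 := split_int hW.meas hW.bdd cM
    have e2 : ∫ y in W \ D, sq y * et (sq y) * φ (sq y) = 0 := by
      refine setIntegral_eq_zero_of_forall_eq_zero (fun y hy => ?_)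
      rw [eout y (not_lt.1 fun h4 => hy.2 (M1x.mem_D.2 h4))]
      ring
    rw [e1, e2, eD]
    ring
  obtain ⟨eS, heS⟩ : ∃ eS, eS = ∫ y in D \ W, (sq y * et (sq y) * φ (sq y)
    - a0 K φ * (1 - sq y * φ (sq y) ^ 2)) := ⟨_, rfl⟩
  have eM : ∫ y in W, sq y * zt K φ (sq y) * φ (sq y) = 1 - eS := by
    have e1 : ∫ y in W, sq y * zt K φ (sq y) * φ (sq y)
        = (∫ y in W, sq y * et (sq y) * φ (sq y)) + a0 K φ * ∫ y in W, sq y * φ (sq y) ^ 2 := by
      rw [← integral_const_mul, ← integral_add (iW cM) ((iW cN).const_mul _)]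
      refine integral_congr_ae (Filter.Eventually.of_forall fun y => ?_)
      simp only [zt]
      ring
    have e2 : eS = (∫ y in D \ W, sq y * et (sq y) * φ (sq y))
        - a0 K φ * ∫ y in D \ W, (1 - sq y * φ (sq y) ^ 2) := by
      rw [heS, ← integral_const_mul, ← integral_sub (iS cM) ((iS cN').const_mul _)]
    have e3 : a0 K φ * mw K = 1 - kap φ := by
      have h3 : mw K ≠ 0 := by
        have := (mw_bd d).1
        intro h0
        rw [h0] at this
        norm_num at this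
      unfold a0
      rw [div_mul_cancel₀ _ h3]
    rw [e1, eW, W_M1 h hW, e2]
    linear_combination e3
  have cztf : Continuous fun y : E => sq y * zt K φ (sq y) * φ (sq y) := by fun_prop
  have ccx : Continuous fun y : E => φ (sq y) * χ (sq y) * c3 y := by fun_prop
  have csx : Continuous fun y : E => φ (sq y) * χ (sq y) * s3 y := by fun_prop
  have f1 : (∫ y in W, Af χ (zt K φ) a b 0 y * w φ 0 y)
      - (∫ y in W, Af χ (zt K φ) a b 1 y * w φ 1 y) = a * eS := by
    have e0 : (∫ y in W, Af χ (zt K φ) a b 0 y * w φ 0 y)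
        - (∫ y in W, Af χ (zt K φ) a b 1 y * w φ 1 y)
        = ∫ y in W, (Af χ (zt K φ) a b 0 y * w φ 0 y - Af χ (zt K φ) a b 1 y * w φ 1 y) :=
      cr_sub hW.bdd (cA0.mul cw0) (cA1.mul cw1)
    have e1 : ∫ y in W, (Af χ (zt K φ) a b 0 y * w φ 0 y - Af χ (zt K φ) a b 1 y * w φ 1 y)
        = (∫ y in W, φ (sq y) * χ (sq y) * c3 y)
          - a * ∫ y in W, sq y * zt K φ (sq y) * φ (sq y) := by
      rw [← integral_const_mul, ← integral_sub (iW ccx) ((iW cztf).const_mul _)]
      refine integral_congr_ae (Filter.Eventually.of_forall fun y => ?_)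
      simp only [Af, vv, bb, pb, w, c3, if_true, if_neg one_ne_zero, Pool.Agent.Neu.sq]
      ring
    rw [e0, e1, hW.Pa, eM]
    ring
  have f2 : (∫ y in W, Af χ (zt K φ) a b 0 y * w φ 1 y)
      + (∫ y in W, Af χ (zt K φ) a b 1 y * w φ 0 y) = b * eS := by
    have e0 : (∫ y in W, Af χ (zt K φ) a b 0 y * w φ 1 y)
        + (∫ y in W, Af χ (zt K φ) a b 1 y * w φ 0 y)
        = ∫ y in W, (Af χ (zt K φ) a b 0 y * w φ 1 y + Af χ (zt K φ) a b 1 y * w φ 0 y) :=
      cr_add hW.bdd (cA0.mul cw1) (cA1.mul cw0)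
    have e1 : ∫ y in W, (Af χ (zt K φ) a b 0 y * w φ 1 y + Af χ (zt K φ) a b 1 y * w φ 0 y)
        = (∫ y in W, φ (sq y) * χ (sq y) * s3 y)
          - b * ∫ y in W, sq y * zt K φ (sq y) * φ (sq y) := by
      rw [← integral_const_mul, ← integral_sub (iW csx) ((iW cztf).const_mul _)]
      refine integral_congr_ae (Filter.Eventually.of_forall fun y => ?_)
      simp only [Af, vv, bb, pb, w, s3, if_true, if_neg one_ne_zero, Pool.Agent.Neu.sq]
      ring
    rw [e0, e1, hW.Pb, eM]
    ring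
  have f5 : |eS| ≤ ∫ y in D \ W, jE K φ y := by
    rw [heS]
    exact abs_integral_le_integral_abs
  -- oddness
  have sqn : ∀ y : E, sq (-y) = sq y := by
    intro y
    simp only [Pool.Agent.Neu.sq, PiLp.neg_apply]
    ring
  have bbn : ∀ (i : Fin 2) (y : E), bb i (-y) = bb i y := by
    intro i y
    simp only [bb, PiLp.neg_apply]
    split_ifs <;> ring
  -- the general step for a linear combination
  have key1 : ∀ (c : E → ℝ) (p q : ℝ), Continuous c → (∀ y, c (-y) = - c y) →
      (∫ y in W, φ (sq y) * c y = 0) →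
      ∫ y in W, (sq y * χ (sq y) * φ (sq y) * c y
          - zt K φ (sq y) * φ (sq y) * (p * bb 0 y + q * bb 1 y))
        = ∫ y in D \ W, ((1 - sq y * χ (sq y)) * φ (sq y) * c y
          + et (sq y) * φ (sq y) * (p * bb 0 y + q * bb 1 y)) := by
    intro c p q cc ho hz
    have cG : Continuous fun y : E => (sq y * χ (sq y) - 1) * φ (sq y) * c y
          - et (sq y) * φ (sq y) * (p * bb 0 y + q * bb 1 y) := by fun_prop
    have g1 : ∫ y in D, ((sq y * χ (sq y) - 1) * φ (sq y) * c y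
          - et (sq y) * φ (sq y) * (p * bb 0 y + q * bb 1 y)) = 0 := by
      have g2 : ∫ y in D, (sq y * χ (sq y) - 1) * φ (sq y) * c y = 0 := by
        refine int_odd_disc (fun y => ?_)
        rw [sqn, ho]
        ring
      have g3 : ∫ y in D, et (sq y) * φ (sq y) * bb 0 y = 0 :=
        Pool.Agent.CS4.int_bb_disc (F := fun s => et s * φ s) (by fun_prop) 0
      have g4 : ∫ y in D, et (sq y) * φ (sq y) * bb 1 y = 0 :=
        Pool.Agent.CS4.int_bb_disc (F := fun s => et s * φ s) (by fun_prop) 1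
      have g5 : ∫ y in D, ((sq y * χ (sq y) - 1) * φ (sq y) * c y
          - et (sq y) * φ (sq y) * (p * bb 0 y + q * bb 1 y))
          = (∫ y in D, (sq y * χ (sq y) - 1) * φ (sq y) * c y)
            - (p * (∫ y in D, et (sq y) * φ (sq y) * bb 0 y)
              + q * ∫ y in D, et (sq y) * φ (sq y) * bb 1 y) := by
        rw [← cr_lin M1x.bdD (by fun_prop) (by fun_prop) (by fun_prop) p q]
        refine integral_congr_ae (Filter.Eventually.of_forall fun y => ?_)
        simp only []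
        ring
      rw [g5, g2, g3, g4]
      ring
    have g6 := cr_split hW.meas hW.bdd cG g1 (fun y hy => by
      rw [xout y hy, eout y hy]
      ring)
    have g7 : ∫ y in W, (sq y * χ (sq y) * φ (sq y) * c y
          - zt K φ (sq y) * φ (sq y) * (p * bb 0 y + q * bb 1 y))
        = (∫ y in W, ((sq y * χ (sq y) - 1) * φ (sq y) * c y
          - et (sq y) * φ (sq y) * (p * bb 0 y + q * bb 1 y)))
          + ((∫ y in W, φ (sq y) * c y) - (a0 K φ * p * (∫ y in W, φ (sq y) ^ 2 * bb 0 y)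
            + a0 K φ * q * ∫ y in W, φ (sq y) ^ 2 * bb 1 y)) := by
      rw [← cr_lin hW.bdd (by fun_prop) (by fun_prop) (by fun_prop) (a0 K φ * p) (a0 K φ * q),
        cr_add hW.bdd cG (by fun_prop)]
      refine integral_congr_ae (Filter.Eventually.of_forall fun y => ?_)
      simp only [zt]
      ring
    rw [g7, hz, w1', w2', g6]
    have g8 : ∫ y in D \ W, -((sq y * χ (sq y) - 1) * φ (sq y) * c y
          - et (sq y) * φ (sq y) * (p * bb 0 y + q * bb 1 y))
        = ∫ y in D \ W, ((1 - sq y * χ (sq y)) * φ (sq y) * c y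
          + et (sq y) * φ (sq y) * (p * bb 0 y + q * bb 1 y)) := by
      refine integral_congr_ae (Filter.Eventually.of_forall fun y => ?_)
      simp only []
      ring
    rw [g8]
    ring
  have key2 : ∀ (i : Fin 2) (p q : ℝ), (∫ y in W, φ (sq y) ^ 2 * bb i y = 0) →
      ∫ y in W, (χ (sq y) * bb i y - zt K φ (sq y) * (p * y 0 + q * y 1))
        = ∫ y in D \ W, (-(χ (sq y) - φ (sq y) ^ 2) * bb i y
          + et (sq y) * (p * y 0 + q * y 1)) := by
    intro i p q hz
    have cbi : Continuous (bb i) := by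
      fin_cases i
      · exact cb0
      · exact cb1
    have cG : Continuous fun y : E => (χ (sq y) - φ (sq y) ^ 2) * bb i y
          - et (sq y) * (p * y 0 + q * y 1) := by fun_prop
    have g1 : ∫ y in D, ((χ (sq y) - φ (sq y) ^ 2) * bb i y
          - et (sq y) * (p * y 0 + q * y 1)) = 0 := by
      have g2 : ∫ y in D, et (sq y) * (p * y 0 + q * y 1) = 0 := by
        refine int_odd_disc (fun y => ?_)
        rw [sqn]
        simp only [PiLp.neg_apply]
        ring
      have g3 : ∫ y in D, (χ (sq y) - φ (sq y) ^ 2) * bb i y = 0 :=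
        Pool.Agent.CS4.int_bb_disc (F := fun s => χ s - φ s ^ 2) (by fun_prop) i
      rw [← cr_sub M1x.bdD (by fun_prop) (by fun_prop), g2, g3, sub_zero]
    have g6 := cr_split hW.meas hW.bdd cG g1 (fun y hy => by
      rw [pout y hy, eout y hy]
      ring)
    have g7 : ∫ y in W, (χ (sq y) * bb i y - zt K φ (sq y) * (p * y 0 + q * y 1))
        = (∫ y in W, ((χ (sq y) - φ (sq y) ^ 2) * bb i y - et (sq y) * (p * y 0 + q * y 1)))
          + ((∫ y in W, φ (sq y) ^ 2 * bb i y) - (a0 K φ * p * (∫ y in W, w φ 0 y)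
            + a0 K φ * q * ∫ y in W, w φ 1 y)) := by
      rw [← cr_lin hW.bdd (by fun_prop) (by fun_prop) (by fun_prop) (a0 K φ * p) (a0 K φ * q),
        cr_add hW.bdd cG (by fun_prop)]
      refine integral_congr_ae (Filter.Eventually.of_forall fun y => ?_)
      simp only [zt, w]
      ring
    rw [g7, hz, hW.w0 0, hW.w0 1, g6]
    have g8 : ∫ y in D \ W, -((χ (sq y) - φ (sq y) ^ 2) * bb i y
          - et (sq y) * (p * y 0 + q * y 1))
        = ∫ y in D \ W, (-(χ (sq y) - φ (sq y) ^ 2) * bb i y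
          + et (sq y) * (p * y 0 + q * y 1)) := by
      refine integral_congr_ae (Filter.Eventually.of_forall fun y => ?_)
      simp only []
      ring
    rw [g8]
    ring
  obtain ⟨P, hPd⟩ : ∃ P, P = √(a ^ 2 + b ^ 2) := ⟨_, rfl⟩
  have hP0 : 0 ≤ P := by
    rw [hPd]
    exact Real.sqrt_nonneg _
  have hP2 : P ^ 2 = a ^ 2 + b ^ 2 := by
    rw [hPd]
    exact Real.sq_sqrt (by positivity)
  have hs2 : ∀ y : E, √(sq y) ^ 2 = sq y := fun y => Real.sq_sqrt (M1x.sq_nonneg y)
  have hbb : ∀ y : E, bb 0 y ^ 2 + bb 1 y ^ 2 = sq y ^ 2 := by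
    intro y
    simp only [bb, if_true, if_neg one_ne_zero, Pool.Agent.Neu.sq]
    ring
  refine ⟨eS, ∫ y in D \ W, ((1 - sq y * χ (sq y)) * φ (sq y) * y 0
      + et (sq y) * φ (sq y) * (a * bb 0 y + b * bb 1 y)),
    ∫ y in D \ W, ((1 - sq y * χ (sq y)) * φ (sq y) * y 1
      + et (sq y) * φ (sq y) * (b * bb 0 y + -a * bb 1 y)), f1, f2, ?_, ?_, f5, ?_, ?_⟩
  · rw [← key1 (fun y => y 0) a b (by fun_prop) (fun y => by simp) (by
      have := hW.w0 0
      simpa only [w] using this)]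
    have e0 : (∫ y in W, Af χ (zt K φ) a b 0 y * w φ 0 y)
        + (∫ y in W, Af χ (zt K φ) a b 1 y * w φ 1 y)
        = ∫ y in W, (Af χ (zt K φ) a b 0 y * w φ 0 y + Af χ (zt K φ) a b 1 y * w φ 1 y) :=
      cr_add hW.bdd (cA0.mul cw0) (cA1.mul cw1)
    rw [e0]
    refine integral_congr_ae (Filter.Eventually.of_forall fun y => ?_)
    simp only [Af, vv, bb, pb, w, if_true, if_neg one_ne_zero, Pool.Agent.Neu.sq]
    ring
  · rw [← key1 (fun y => y 1) b (-a) (by fun_prop) (fun y => by simp) (by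
      have := hW.w0 1
      simpa only [w] using this)]
    have e0 : (∫ y in W, Af χ (zt K φ) a b 1 y * w φ 0 y)
        - (∫ y in W, Af χ (zt K φ) a b 0 y * w φ 1 y)
        = ∫ y in W, (Af χ (zt K φ) a b 1 y * w φ 0 y - Af χ (zt K φ) a b 0 y * w φ 1 y) :=
      cr_sub hW.bdd (cA1.mul cw0) (cA0.mul cw1)
    rw [e0]
    refine integral_congr_ae (Filter.Eventually.of_forall fun y => ?_)
    simp only [Af, vv, bb, pb, w, if_true, if_neg one_ne_zero, Pool.Agent.Neu.sq]
    ring
  · rw [← hPd]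
    have hX : ∀ y ∈ (D \ W : Set E), 0 ≤ √(sq y) * φ (sq y) * (1 - sq y * χ (sq y)) := by
      intro y hy
      have h3 := h.one_le _ (hin y hy)
      have h4 := h2.le _ (hin y hy)
      have h5 := Real.sqrt_nonneg (sq y)
      have h6 : 0 ≤ 1 - sq y * χ (sq y) := by
        nlinarith [_root_.sq_nonneg (1 - sq y)]
      exact mul_nonneg (mul_nonneg h5 (by linarith)) h6
    have hZ : ∀ y ∈ (D \ W : Set E), 0 ≤ P * (sq y * et (sq y) * φ (sq y)) := by
      intro y hy
      have h3 := h.one_le _ (hin y hy)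
      have h4 := et_nonneg (hin y hy).1
      exact mul_nonneg hP0 (mul_nonneg (mul_nonneg (hin y hy).1 h4) (by linarith))
    refine cr_norm mS bS (by fun_prop) (by fun_prop) (cont_jD h h2 P) (fun y hy => ?_)
      (fun y hy => add_nonneg (hX y hy) (hZ y hy))
    refine cr_tri (hX y hy) (hZ y hy) ?_ ?_
    · have h3 := hs2 y
      have h4 : (√(sq y) * φ (sq y) * (1 - sq y * χ (sq y))) ^ 2
          = √(sq y) ^ 2 * (φ (sq y) * (1 - sq y * χ (sq y))) ^ 2 := by ring
      have h5 : sq y = y 0 ^ 2 + y 1 ^ 2 := rfl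
      rw [h4, h3]
      linear_combination (-(φ (sq y) * (1 - sq y * χ (sq y))) ^ 2) * h5
    · have h3 := hbb y
      have h4 : (P * (sq y * et (sq y) * φ (sq y))) ^ 2
          = P ^ 2 * sq y ^ 2 * (et (sq y) * φ (sq y)) ^ 2 := by ring
      rw [h4, hP2, ← h3]
      ring
  · rw [← hPd]
    have e0 : ∫ y in W, Af χ (zt K φ) a b 0 y = ∫ y in D \ W,
        (-(χ (sq y) - φ (sq y) ^ 2) * bb 0 y + et (sq y) * (a * y 0 + b * y 1)) := by
      rw [← key2 0 a b w1']
      refine integral_congr_ae (Filter.Eventually.of_forall fun y => ?_)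
      simp only [Af, vv, pb, if_true]
    have e1 : ∫ y in W, Af χ (zt K φ) a b 1 y = ∫ y in D \ W,
        (-(χ (sq y) - φ (sq y) ^ 2) * bb 1 y + et (sq y) * (b * y 0 + -a * y 1)) := by
      rw [← key2 1 b (-a) w2']
      refine integral_congr_ae (Filter.Eventually.of_forall fun y => ?_)
      simp only [Af, vv, pb, if_neg one_ne_zero]
      ring
    rw [e0, e1]
    have hX : ∀ y ∈ (D \ W : Set E), 0 ≤ sq y * |χ (sq y) - φ (sq y) ^ 2| := fun y hy =>
      mul_nonneg (hin y hy).1 (abs_nonneg _)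
    have hZ : ∀ y ∈ (D \ W : Set E), 0 ≤ P * (√(sq y) * et (sq y)) := fun y hy =>
      mul_nonneg hP0 (mul_nonneg (Real.sqrt_nonneg _) (et_nonneg (hin y hy).1))
    refine cr_norm mS bS (by fun_prop) (by fun_prop) (cont_jM h h2 P) (fun y hy => ?_)
      (fun y hy => add_nonneg (hX y hy) (hZ y hy))
    refine cr_tri (hX y hy) (hZ y hy) ?_ ?_
    · have h3 := hbb y
      have h4 : (sq y * |χ (sq y) - φ (sq y) ^ 2|) ^ 2
          = sq y ^ 2 * (χ (sq y) - φ (sq y) ^ 2) ^ 2 := by
        rw [mul_pow, sq_abs]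
      rw [h4, ← h3]
      ring
    · have h3 := hs2 y
      have h4 : (P * (√(sq y) * et (sq y))) ^ 2
          = P ^ 2 * √(sq y) ^ 2 * et (sq y) ^ 2 := by ring
      have h5 : sq y = y 0 ^ 2 + y 1 ^ 2 := rfl
      rw [h4, hP2, h3]
      linear_combination (-(et (sq y) ^ 2 * (a ^ 2 + b ^ 2))) * h5

end Pool.Agent.FND
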