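import Pool.Agent.FND.Defs
import Pool.Agent.FND.Base

/-!
FND-GradA: gradients of `w`, `V`.
-/

set_option autoImplicit false

open MeasureTheory Set
open Pool.Agent.Neu
open Pool.Agent.CS4 (Prof2 bb vv eV)

namespace Pool.Agent.FND

variable {K L : ℝ} {φ ψ χ ω : ℝ → ℝ}

private noncomputable abbrev gap (i : Fin 2) : E →L[ℝ] ℝ := EuclideanSpace.proj i

private theorem ga_c1 {f f' : ℝ → ℝ} (h : ∀ s, HasDerivAt f (f' s) s) (hc : Continuous f') :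
    ContDiff ℝ 1 f := by
  rw [contDiff_one_iff_deriv]
  refine ⟨fun s => (h s).differentiableAt, ?_⟩
  have h1 : deriv f = f' := funext fun s => (h s).deriv
  rw [h1]
  exact hc

private theorem ga_co (i : Fin 2) : ContDiff ℝ 1 (fun y : E => y i) := (gap i).contDiff

private theorem ga_sqc : ContDiff ℝ 1 (fun y : E => sq y) := ((ga_co 0).pow 2).add ((ga_co 1).pow 2)

private theorem ga_x (i : Fin 2) (y : E) : HasFDerivAt (fun y : E => y i) (gap i) y :=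
  (gap i).hasFDerivAt

private theorem ga_sq (y : E) :
    HasFDerivAt (fun y : E => sq y) ((2 * y 0) • gap 0 + (2 * y 1) • gap 1) y := by
  have h0 := (ga_x 0 y).pow 2
  have h1 := (ga_x 1 y).pow 2
  have h := h0.add h1
  have h' := h.congr_fderiv (g' := (2 * y 0) • gap 0 + (2 * y 1) • gap 1) (by simp)
  exact h'

private theorem ga_mul {f f' : ℝ → ℝ} (h : ∀ s, HasDerivAt f (f' s) s) {G : E → ℝ} {α β : ℝ} {y : E}
    (hG : HasFDerivAt G (α • gap 0 + β • gap 1) y) :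
    HasFDerivAt (fun y => f (sq y) * G y) ((2 * y 0 * f' (sq y) * G y + f (sq y) * α) • gap 0 +
      (2 * y 1 * f' (sq y) * G y + f (sq y) * β) • gap 1) y := by
  have h1 : HasFDerivAt (fun y => f (sq y)) (f' (sq y) • ((2 * y 0) • gap 0 + (2 * y 1) • gap 1)) y :=
    (h (sq y)).comp_hasFDerivAt y (ga_sq y)
  refine (h1.mul hG).congr_fderiv ?_
  module

private theorem ga_pd {f : E → ℝ} {α β : ℝ} {y : E} (h : HasFDerivAt f (α • gap 0 + β • gap 1) y) :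
    pd 0 f y = α ∧ pd 1 f y = β := by
  unfold pd
  rw [h.fderiv]
  constructor <;> simp

private theorem ga_w0 (h : Prof K φ ψ) (y : E) :
    pd 0 (w φ 0) y = φ (sq y) + 2 * y 0 ^ 2 * ψ (sq y) ∧
      pd 1 (w φ 0) y = 2 * (y 0 * y 1) * ψ (sq y) := by
  have h1 : HasFDerivAt (fun y : E => y 0) ((1 : ℝ) • gap 0 + (0 : ℝ) • gap 1) y := by
    refine (ga_x 0 y).congr_fderiv ?_
    module
  obtain ⟨h2, h3⟩ := ga_pd (ga_mul h.deriv h1)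
  constructor
  · refine Eq.trans h2 ?_
    ring
  · refine Eq.trans h3 ?_
    ring

private theorem ga_w1 (h : Prof K φ ψ) (y : E) :
    pd 0 (w φ 1) y = 2 * (y 0 * y 1) * ψ (sq y) ∧
      pd 1 (w φ 1) y = φ (sq y) + 2 * y 1 ^ 2 * ψ (sq y) := by
  have h1 : HasFDerivAt (fun y : E => y 1) ((0 : ℝ) • gap 0 + (1 : ℝ) • gap 1) y := by
    refine (ga_x 1 y).congr_fderiv ?_
    module
  obtain ⟨h2, h3⟩ := ga_pd (ga_mul h.deriv h1)
  constructor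
  · refine Eq.trans h2 ?_
    ring
  · refine Eq.trans h3 ?_
    ring

private theorem ga_v0 (h : Prof2 L χ ω) (y : E) :
    pd 0 (vv χ 0) y = 2 * y 0 * ω (sq y) * (y 0 ^ 2 - y 1 ^ 2) + 2 * y 0 * χ (sq y) ∧
      pd 1 (vv χ 0) y = 2 * y 1 * ω (sq y) * (y 0 ^ 2 - y 1 ^ 2) - 2 * y 1 * χ (sq y) := by
  have h1 : HasFDerivAt (fun y : E => y 0 ^ 2 - y 1 ^ 2)
      ((2 * y 0) • gap 0 + (-(2 * y 1)) • gap 1) y := by
    have h0 := ((ga_x 0 y).pow 2).sub ((ga_x 1 y).pow 2)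
    have h' := h0.congr_fderiv (g' := (2 * y 0) • gap 0 + (-(2 * y 1)) • gap 1) (by
      simp only [sub_eq_add_neg]
      ext x
      simp)
    exact h'
  obtain ⟨h2, h3⟩ := ga_pd (ga_mul h.deriv h1)
  have e : vv χ 0 = fun y => χ (sq y) * (y 0 ^ 2 - y 1 ^ 2) := by
    funext y
    simp [vv, bb]
  rw [e]
  constructor
  · refine Eq.trans h2 ?_
    ring
  · refine Eq.trans h3 ?_
    ring

private theorem ga_v1 (h : Prof2 L χ ω) (y : E) :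
    pd 0 (vv χ 1) y = 2 * y 0 * ω (sq y) * (2 * (y 0 * y 1)) + 2 * y 1 * χ (sq y) ∧
      pd 1 (vv χ 1) y = 2 * y 1 * ω (sq y) * (2 * (y 0 * y 1)) + 2 * y 0 * χ (sq y) := by
  have h1 : HasFDerivAt (fun y : E => 2 * (y 0 * y 1))
      ((2 * y 1) • gap 0 + (2 * y 0) • gap 1) y := by
    have h0 := ((ga_x 0 y).mul (ga_x 1 y)).const_mul 2
    refine h0.congr_fderiv ?_
    module
  obtain ⟨h2, h3⟩ := ga_pd (ga_mul h.deriv h1)
  have e : vv χ 1 = fun y => χ (sq y) * (2 * (y 0 * y 1)) := by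
    funext y
    simp [vv, bb]
  rw [e]
  constructor
  · refine Eq.trans h2 ?_
    ring
  · refine Eq.trans h3 ?_
    ring

private theorem ga_ew (m : ℝ) (ζ ζ' : ℝ → ℝ) (y : E) : ew m ζ ζ' y =
    (1 + m) / 2 * ((ζ (sq y) + 2 * y 0 ^ 2 * ζ' (sq y)) ^ 2 + (2 * (y 0 * y 1) * ζ' (sq y)) ^ 2) +
    (1 - m) / 2 * ((2 * (y 0 * y 1) * ζ' (sq y)) ^ 2 + (ζ (sq y) + 2 * y 1 ^ 2 * ζ' (sq y)) ^ 2) := by
  unfold ew eQ N
  obtain ⟨P, hP⟩ : ∃ P, P = ζ (sq y) := ⟨_, rfl⟩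
  obtain ⟨Q, hQ⟩ : ∃ Q, Q = ζ' (sq y) := ⟨_, rfl⟩
  rw [← hP, ← hQ]
  unfold Pool.Agent.Neu.sq
  ring

private theorem ga_eV (m : ℝ) (χ ω : ℝ → ℝ) (y : E) : eVm m χ ω y =
    (1 + m) / 2 * ((2 * y 0 * ω (sq y) * (y 0 ^ 2 - y 1 ^ 2) + 2 * y 0 * χ (sq y)) ^ 2 +
      (2 * y 0 * ω (sq y) * (2 * (y 0 * y 1)) + 2 * y 1 * χ (sq y)) ^ 2) +
    (1 - m) / 2 * ((2 * y 1 * ω (sq y) * (y 0 ^ 2 - y 1 ^ 2) - 2 * y 1 * χ (sq y)) ^ 2 +
      (2 * y 1 * ω (sq y) * (2 * (y 0 * y 1)) + 2 * y 0 * χ (sq y)) ^ 2) := by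
  unfold eVm eV N
  obtain ⟨P, hP⟩ : ∃ P, P = χ (sq y) := ⟨_, rfl⟩
  obtain ⟨Q, hQ⟩ : ∃ Q, Q = ω (sq y) := ⟨_, rfl⟩
  rw [← hP, ← hQ]
  unfold Pool.Agent.Neu.sq
  ring

theorem contDiff_w (h : Prof K φ ψ) (i : Fin 2) : ContDiff ℝ 1 (w φ i) := by
  exact ((ga_c1 h.deriv h.cont).comp ga_sqc).mul (ga_co i)

theorem contDiff_vv (h2 : Prof2 L χ ω) (i : Fin 2) : ContDiff ℝ 1 (vv χ i) := by
  have h1 : ContDiff ℝ 1 (fun y : E => χ (sq y)) := (ga_c1 h2.deriv h2.cont).comp ga_sqc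
  have e : vv χ i = fun y => χ (sq y) * (if i = 0 then y 0 ^ 2 - y 1 ^ 2 else 2 * (y 0 * y 1)) := rfl
  rw [e]
  by_cases hi : i = 0
  · simp only [if_pos hi]
    exact h1.mul (((ga_co 0).pow 2).sub ((ga_co 1).pow 2))
  · simp only [if_neg hi]
    exact h1.mul (contDiff_const.mul ((ga_co 0).mul (ga_co 1)))

theorem contDiff_Af (h2 : Prof2 L χ ω) {ζ ζ' : ℝ → ℝ} (hζ : ∀ s, HasDerivAt ζ (ζ' s) s)
    (hζ' : Continuous ζ') (a b : ℝ) (i : Fin 2) : ContDiff ℝ 1 (Af χ ζ a b i) := by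
  have h1 : ContDiff ℝ 1 (fun y : E => ζ (sq y)) := (ga_c1 hζ hζ').comp ga_sqc
  have e : Af χ ζ a b i = fun y => vv χ i y - ζ (sq y) *
      (if i = 0 then a * y 0 + b * y 1 else b * y 0 - a * y 1) := rfl
  rw [e]
  refine (contDiff_vv h2 i).sub (h1.mul ?_)
  by_cases hi : i = 0
  · simp only [if_pos hi]
    exact (contDiff_const.mul (ga_co 0)).add (contDiff_const.mul (ga_co 1))
  · simp only [if_neg hi]
    exact (contDiff_const.mul (ga_co 0)).sub (contDiff_const.mul (ga_co 1))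

theorem cont_pd {f : E → ℝ} (hf : ContDiff ℝ 1 f) (j : Fin 2) : Continuous (pd j f) := by
  exact (hf.continuous_fderiv one_ne_zero).clm_apply continuous_const

theorem en_ww (h : Prof K φ ψ) (m : ℝ) (y : E) :
    en m (w φ 0) (w φ 0) y + en m (w φ 1) (w φ 1) y = ew m φ ψ y := by
  unfold en
  rw [(ga_w0 h y).1, (ga_w0 h y).2, (ga_w1 h y).1, (ga_w1 h y).2, ga_ew]
  ring

theorem en_VV (h2 : Prof2 L χ ω) (m : ℝ) (y : E) :
    en m (vv χ 0) (vv χ 0) y + en m (vv χ 1) (vv χ 1) y = eVm m χ ω y := by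
  unfold en
  rw [(ga_v0 h2 y).1, (ga_v0 h2 y).2, (ga_v1 h2 y).1, (ga_v1 h2 y).2, ga_eV]
  ring

theorem ew_nonneg {m : ℝ} (hm0 : 0 ≤ m) (hm1 : m ≤ 1) (ζ ζ' : ℝ → ℝ) (y : E) :
    0 ≤ ew m ζ ζ' y := by
  rw [ga_ew]
  have h1 : 0 ≤ (1 + m) / 2 := by linarith
  have h2 : 0 ≤ (1 - m) / 2 := by linarith
  positivity

theorem eVm_nonneg {m : ℝ} (hm0 : 0 ≤ m) (hm1 : m ≤ 1) (χ ω : ℝ → ℝ) (y : E) :
    0 ≤ eVm m χ ω y := by
  rw [ga_eV]
  have h1 : 0 ≤ (1 + m) / 2 := by linarith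
  have h2 : 0 ≤ (1 - m) / 2 := by linarith
  positivity

end Pool.Agent.FND
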