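import Pool.Agent.FND.Defs
import Pool.Agent.FND.GradA

/-!
FND-CsB: Cauchy-Schwarz.

Plan.  The left side is (E(A_0, a v_0 + b v_1) + E(A_1, b v_0 - a v_1))²; Cauchy-Schwarz for the positive
semidefinite form E(f,g) = Σ_i ∫_W en m f_i g_i on pairs (discriminant argument: E(A + t B) >= 0 for all real t),
and E(a v_0 + b v_1) + E(b v_0 - a v_1) = (a²+b²)(E(v_0) + E(v_1)), the mixed terms cancel.
-/

set_option autoImplicit false

open MeasureTheory Set
open Pool.Agent.Neu
open Pool.Agent.CS4 (Prof2 bb vv eV)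

namespace Pool.Agent.FND

variable {K L : ℝ} {φ ψ χ ω : ℝ → ℝ}

private theorem csb_int {W : Set E} (hb : Bornology.IsBounded W) {f : E → ℝ} (hf : Continuous f) :
    IntegrableOn f W :=
  (hf.continuousOn.integrableOn_compact hb.isCompact_closure).mono_set subset_closure

private theorem csb_cont {f g : E → ℝ} (hf : ContDiff ℝ 1 f) (hg : ContDiff ℝ 1 g) (m : ℝ) :
    Continuous (en m f g) := by
  have h1 := cont_pd hf
  have h2 := cont_pd hg
  unfold en
  exact (continuous_const.mul ((h1 0).mul (h2 0))).add (continuous_const.mul ((h1 1).mul (h2 1)))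

private theorem csb_lin {W : Set E} {X Y T : E → ℝ} (hX : IntegrableOn X W) (hY : IntegrableOn Y W)
    (hT : IntegrableOn T W) (c d : ℝ) :
    ∫ y in W, (c * Y y + d * T y + X y) = c * (∫ y in W, Y y) + d * (∫ y in W, T y) + ∫ y in W, X y := by
  have h1 : IntegrableOn (fun y => c * Y y) W := hY.const_mul c
  have h2 : IntegrableOn (fun y => d * T y) W := hT.const_mul d
  have h3 : IntegrableOn (fun y => c * Y y + d * T y) W := h1.add h2
  rw [integral_add h3 hX, integral_add h1 h2, integral_const_mul, integral_const_mul]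

private theorem csb_lin4 {W : Set E} {X Y Z T : E → ℝ} (hX : IntegrableOn X W) (hY : IntegrableOn Y W)
    (hZ : IntegrableOn Z W) (hT : IntegrableOn T W) (c d : ℝ) :
    ∫ y in W, (c * (X y - Y y) + d * (Z y + T y)) =
      c * ((∫ y in W, X y) - ∫ y in W, Y y) + d * ((∫ y in W, Z y) + ∫ y in W, T y) := by
  have h0 : IntegrableOn (fun y => X y - Y y) W := hX.sub hY
  have h0' : IntegrableOn (fun y => Z y + T y) W := hZ.add hT
  have h1 : IntegrableOn (fun y => c * (X y - Y y)) W := h0.const_mul c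
  have h2 : IntegrableOn (fun y => d * (Z y + T y)) W := h0'.const_mul d
  rw [integral_add h1 h2, integral_const_mul, integral_const_mul, integral_sub hX hY,
    integral_add hZ hT]

/-- Cauchy-Schwarz for the pairing with `w̄` -/
theorem cs_bar {W : Set E} (hW : MeasurableSet W) (hb : Bornology.IsBounded W)
    {A v : Fin 2 → E → ℝ} (hA : ∀ i, ContDiff ℝ 1 (A i)) (hv : ∀ i, ContDiff ℝ 1 (v i))
    {m : ℝ} (hm0 : 0 ≤ m) (hm1 : m ≤ 1) (a b : ℝ) :
    (a * ((∫ y in W, en m (A 0) (v 0) y) - ∫ y in W, en m (A 1) (v 1) y)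
      + b * ((∫ y in W, en m (A 0) (v 1) y) + ∫ y in W, en m (A 1) (v 0) y)) ^ 2
      ≤ (a ^ 2 + b ^ 2) * (∫ y in W, (en m (A 0) (A 0) y + en m (A 1) (A 1) y)) *
        ∫ y in W, (en m (v 0) (v 0) y + en m (v 1) (v 1) y) := by
  have hAA : ∀ i j, IntegrableOn (en m (A i) (A j)) W := fun i j => csb_int hb (csb_cont (hA i) (hA j) m)
  have hAv : ∀ i j, IntegrableOn (en m (A i) (v j)) W := fun i j => csb_int hb (csb_cont (hA i) (hv j) m)
  have hvv : ∀ i j, IntegrableOn (en m (v i) (v j)) W := fun i j => csb_int hb (csb_cont (hv i) (hv j) m)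
  have eL : (a * ((∫ y in W, en m (A 0) (v 0) y) - ∫ y in W, en m (A 1) (v 1) y)
      + b * ((∫ y in W, en m (A 0) (v 1) y) + ∫ y in W, en m (A 1) (v 0) y)) =
      ∫ y in W, (a * (en m (A 0) (v 0) y - en m (A 1) (v 1) y)
        + b * (en m (A 0) (v 1) y + en m (A 1) (v 0) y)) :=
    (csb_lin4 (hAv 0 0) (hAv 1 1) (hAv 0 1) (hAv 1 0) a b).symm
  rw [eL]
  have hL : IntegrableOn (fun y => a * (en m (A 0) (v 0) y - en m (A 1) (v 1) y)
        + b * (en m (A 0) (v 1) y + en m (A 1) (v 0) y)) W :=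
    (((hAv 0 0).sub (hAv 1 1)).const_mul a).add (((hAv 0 1).add (hAv 1 0)).const_mul b)
  have hX : IntegrableOn (fun y => en m (A 0) (A 0) y + en m (A 1) (A 1) y) W :=
    (hAA 0 0).add (hAA 1 1)
  have hY : IntegrableOn (fun y => en m (v 0) (v 0) y + en m (v 1) (v 1) y) W :=
    (hvv 0 0).add (hvv 1 1)
  have key : ∀ t : ℝ, 0 ≤ ((a ^ 2 + b ^ 2) * ∫ y in W, (en m (v 0) (v 0) y + en m (v 1) (v 1) y)) * (t * t)
      + (2 * ∫ y in W, (a * (en m (A 0) (v 0) y - en m (A 1) (v 1) y)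
        + b * (en m (A 0) (v 1) y + en m (A 1) (v 0) y))) * t
      + ∫ y in W, (en m (A 0) (A 0) y + en m (A 1) (A 1) y) := by
    intro t
    have e : ((a ^ 2 + b ^ 2) * ∫ y in W, (en m (v 0) (v 0) y + en m (v 1) (v 1) y)) * (t * t)
      + (2 * ∫ y in W, (a * (en m (A 0) (v 0) y - en m (A 1) (v 1) y)
        + b * (en m (A 0) (v 1) y + en m (A 1) (v 0) y))) * t
      + ∫ y in W, (en m (A 0) (A 0) y + en m (A 1) (A 1) y) =
      ∫ y in W, ((a ^ 2 + b ^ 2) * (t * t) * (en m (v 0) (v 0) y + en m (v 1) (v 1) y) +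
        (2 * t) * (a * (en m (A 0) (v 0) y - en m (A 1) (v 1) y)
          + b * (en m (A 0) (v 1) y + en m (A 1) (v 0) y)) +
        (en m (A 0) (A 0) y + en m (A 1) (A 1) y)) := by
      rw [csb_lin hX hY hL ((a ^ 2 + b ^ 2) * (t * t)) (2 * t)]
      ring
    rw [e]
    refine setIntegral_nonneg hW fun y _ => ?_
    have e2 : (a ^ 2 + b ^ 2) * (t * t) * (en m (v 0) (v 0) y + en m (v 1) (v 1) y) +
        (2 * t) * (a * (en m (A 0) (v 0) y - en m (A 1) (v 1) y)
          + b * (en m (A 0) (v 1) y + en m (A 1) (v 0) y)) +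
        (en m (A 0) (A 0) y + en m (A 1) (A 1) y) =
        (1 + m) / 2 * ((pd 0 (A 0) y + t * (a * pd 0 (v 0) y + b * pd 0 (v 1) y)) ^ 2 +
          (pd 0 (A 1) y + t * (b * pd 0 (v 0) y - a * pd 0 (v 1) y)) ^ 2) +
        (1 - m) / 2 * ((pd 1 (A 0) y + t * (a * pd 1 (v 0) y + b * pd 1 (v 1) y)) ^ 2 +
          (pd 1 (A 1) y + t * (b * pd 1 (v 0) y - a * pd 1 (v 1) y)) ^ 2) := by
      unfold en
      ring
    rw [e2]
    have h1 : 0 ≤ (1 + m) / 2 := by linarith
    have h2 : 0 ≤ (1 - m) / 2 := by linarith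
    positivity
  have h := discrim_le_zero key
  unfold discrim at h
  linarith

end Pool.Agent.FND
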