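import Pool.Agent.FND.Defs
import Pool.Agent.FND.Base
import Pool.Agent.FND.DI
import Pool.Agent.FND.Wid
import Pool.Agent.FND.Cst

/-!
FND-Dens: the main identity.

Plan.  split_int for F = Ft (cont_Ft): ∫_O Ft - ∫_S Ft = ∫_W Ft - ∫_D Ft.
∫_W Ft = (L/2)(nA - pi(1 + a0² p) + 2 a0 p) + M(96/100 T0 ∫_W GI - (2/mw) Ew + 105/100 (M1 - pi)) - EA
+ (M·2/mw + 4 + a0² p) pi/2 - 5 (p - 0)      (W_N, W_P, W_R1),
∫_D Ft: the same with int_nr_disc, int_GI_disc, int_ew_disc, int_g2_disc, int_eA_disc, int_N_disc and the odd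
terms 0.  The difference gives the claim with CC = CZ + (L/2)(2 a0 - (pi 17/630 + 2 a0 kap + a0² mw)) and
2 a0 - 2 a0 kap = 2 a0² mw (a0_mul).
massA: split_int for nr; nr = 0 on O (there |A|² = 1 + a0² p - 2 a0 φχR3, since zt = a0 φ, s φ² = 1, s χ = 1).
-/

set_option autoImplicit false

open MeasureTheory Set
open Pool.Agent.Neu
open Pool.Agent.CS4 (Prof2 bb vv eV)

namespace Pool.Agent.FND

variable {K L : ℝ} {φ ψ χ ω : ℝ → ℝ}

private theorem de_chi (h2 : Prof2 L χ ω) : Continuous χ :=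
  continuous_iff_continuousAt.2 fun s => (h2.deriv s).continuousAt

private theorem de_R3 (a b : ℝ) : Continuous (R3 a b) := by
  unfold R3 c3 s3
  fun_prop

private theorem de_R1 (a b : ℝ) : Continuous (R1 a b) := by
  unfold R1
  fun_prop

private theorem de_Nd (m : ℝ) : Continuous (Nd m) := by
  unfold Nd
  fun_prop

private theorem de_nr (h : Prof K φ ψ) (h2 : Prof2 L χ ω) (a b : ℝ) {S : Set E}
    (bS : Bornology.IsBounded S) :
    ∫ y in S, nr K φ χ a b y =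
      (∫ y in S, (Af χ (zt K φ) a b 0 y ^ 2 + Af χ (zt K φ) a b 1 y ^ 2))
        - volume.real S * (1 + a0 K φ ^ 2 * (a ^ 2 + b ^ 2))
        + 2 * a0 K φ * ∫ y in S, φ (sq y) * χ (sq y) * R3 a b y := by
  have hφ := h.phi_cont
  have hχ := de_chi h2
  have cs := M1x.cont_sq
  have cR := de_R3 a b
  have c0 := cont_Af h2 (cont_zt h) a b 0
  have c1 := cont_Af h2 (cont_zt h) a b 1
  have i1 : IntegrableOn (fun y : E => Af χ (zt K φ) a b 0 y ^ 2 + Af χ (zt K φ) a b 1 y ^ 2) S :=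
    M1x.intOn (by fun_prop) bS
  have i2 : IntegrableOn (fun _ : E => 1 + a0 K φ ^ 2 * (a ^ 2 + b ^ 2)) S :=
    M1x.intOn continuous_const bS
  have i3 : IntegrableOn (fun y : E => 2 * a0 K φ * (φ (sq y) * χ (sq y) * R3 a b y)) S :=
    M1x.intOn (by fun_prop) bS
  have i4 : IntegrableOn (fun y : E => (Af χ (zt K φ) a b 0 y ^ 2 + Af χ (zt K φ) a b 1 y ^ 2) -
    (1 + a0 K φ ^ 2 * (a ^ 2 + b ^ 2))) S := i1.sub i2
  have e1 : ∫ y in S, nr K φ χ a b y = ∫ y in S,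
      (((Af χ (zt K φ) a b 0 y ^ 2 + Af χ (zt K φ) a b 1 y ^ 2) -
        (1 + a0 K φ ^ 2 * (a ^ 2 + b ^ 2))) +
        2 * a0 K φ * (φ (sq y) * χ (sq y) * R3 a b y)) :=
    integral_congr_ae (Filter.Eventually.of_forall fun y => rfl)
  rw [e1, integral_add i4 i3, integral_sub i1 i2, setIntegral_const, integral_const_mul,
    smul_eq_mul]

private theorem de_lin (h : Prof K φ ψ) (h2 : Prof2 L χ ω) (M z m a b : ℝ) {S : Set E}
    (bS : Bornology.IsBounded S) :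
    ∫ y in S, Ft K L φ ψ χ ω M z m a b y =
      L / 2 * (∫ y in S, nr K φ χ a b y)
      + M * (96 / 100 * T0 K L * (∫ y in S, GI m φ y) - 2 / mw K * (∫ y in S, ew m φ ψ y)
        + 105 / 100 * ((∫ y in S, sq y * φ (sq y) ^ 2) - volume.real S))
      - (∫ y in S, eA m a b χ ω (zt K φ) (ztd K φ ψ) y)
      + (M * (2 / mw K) + 4 + a0 K φ ^ 2 * (a ^ 2 + b ^ 2)) *
        (∫ y in S, (φ (sq y) ^ 2 * Nd m y + (1 - sq y * φ (sq y) ^ 2) / 2))
      - 5 * ((∫ y in S, φ (sq y) * χ (sq y) * R3 a b y) -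
        z * (∫ y in S, φ (sq y) * R1 a b y)) := by
  have hφ := h.phi_cont
  have hχ := de_chi h2
  have cs := M1x.cont_sq
  have cR3 := de_R3 a b
  have cR1 := de_R1 a b
  have cN := de_Nd m
  have cnr := cont_nr h h2 a b
  have cGI := cont_GI h m
  have cew := cont_ew h.phi_cont h.cont m
  have ceA := cont_eA h2 (cont_zt h) (cont_ztd h) m a b
  have i1 : IntegrableOn (fun y : E => L / 2 * nr K φ χ a b y) S :=
    M1x.intOn (by fun_prop) bS
  have i2a : IntegrableOn (fun y : E => 96 / 100 * T0 K L * GI m φ y) S :=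
    M1x.intOn (by fun_prop) bS
  have i2b : IntegrableOn (fun y : E => 2 / mw K * ew m φ ψ y) S :=
    M1x.intOn (by fun_prop) bS
  have i2c1 : IntegrableOn (fun y : E => sq y * φ (sq y) ^ 2) S :=
    M1x.intOn (by fun_prop) bS
  have i2c2 : IntegrableOn (fun _ : E => (1 : ℝ)) S :=
    M1x.intOn continuous_const bS
  have i2c : IntegrableOn (fun y : E => 105 / 100 * (sq y * φ (sq y) ^ 2 - 1)) S :=
    M1x.intOn (by fun_prop) bS
  have i2 : IntegrableOn (fun y : E => M * (96 / 100 * T0 K L * GI m φ y - 2 / mw K * ew m φ ψ y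
    + 105 / 100 * (sq y * φ (sq y) ^ 2 - 1))) S := M1x.intOn (by fun_prop) bS
  have i2ab : IntegrableOn (fun y : E => 96 / 100 * T0 K L * GI m φ y - 2 / mw K * ew m φ ψ y) S :=
    i2a.sub i2b
  have i12 : IntegrableOn (fun y : E => L / 2 * nr K φ χ a b y
    + M * (96 / 100 * T0 K L * GI m φ y - 2 / mw K * ew m φ ψ y
      + 105 / 100 * (sq y * φ (sq y) ^ 2 - 1))) S := i1.add i2
  have i3 : IntegrableOn (fun y : E => eA m a b χ ω (zt K φ) (ztd K φ ψ) y) S :=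
    M1x.intOn ceA bS
  have i123 : IntegrableOn (fun y : E => L / 2 * nr K φ χ a b y
    + M * (96 / 100 * T0 K L * GI m φ y - 2 / mw K * ew m φ ψ y
      + 105 / 100 * (sq y * φ (sq y) ^ 2 - 1))
    - eA m a b χ ω (zt K φ) (ztd K φ ψ) y) S := i12.sub i3
  have i4 : IntegrableOn (fun y : E => (M * (2 / mw K) + 4 + a0 K φ ^ 2 * (a ^ 2 + b ^ 2)) *
      (φ (sq y) ^ 2 * Nd m y + (1 - sq y * φ (sq y) ^ 2) / 2)) S :=
    M1x.intOn (by fun_prop) bS
  have i1234 : IntegrableOn (fun y : E => L / 2 * nr K φ χ a b y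
    + M * (96 / 100 * T0 K L * GI m φ y - 2 / mw K * ew m φ ψ y
      + 105 / 100 * (sq y * φ (sq y) ^ 2 - 1))
    - eA m a b χ ω (zt K φ) (ztd K φ ψ) y
    + (M * (2 / mw K) + 4 + a0 K φ ^ 2 * (a ^ 2 + b ^ 2)) *
      (φ (sq y) ^ 2 * Nd m y + (1 - sq y * φ (sq y) ^ 2) / 2)) S := i123.add i4
  have i5a : IntegrableOn (fun y : E => φ (sq y) * χ (sq y) * R3 a b y) S :=
    M1x.intOn (by fun_prop) bS
  have i5b : IntegrableOn (fun y : E => z * (φ (sq y) * R1 a b y)) S :=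
    M1x.intOn (by fun_prop) bS
  have i5 : IntegrableOn (fun y : E => 5 * (φ (sq y) * χ (sq y) * R3 a b y -
      z * (φ (sq y) * R1 a b y))) S := M1x.intOn (by fun_prop) bS
  have e1 : ∫ y in S, Ft K L φ ψ χ ω M z m a b y = ∫ y in S, (L / 2 * nr K φ χ a b y
    + M * (96 / 100 * T0 K L * GI m φ y - 2 / mw K * ew m φ ψ y
      + 105 / 100 * (sq y * φ (sq y) ^ 2 - 1))
    - eA m a b χ ω (zt K φ) (ztd K φ ψ) y
    + (M * (2 / mw K) + 4 + a0 K φ ^ 2 * (a ^ 2 + b ^ 2)) *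
      (φ (sq y) ^ 2 * Nd m y + (1 - sq y * φ (sq y) ^ 2) / 2)
    - 5 * (φ (sq y) * χ (sq y) * R3 a b y - z * (φ (sq y) * R1 a b y))) := rfl
  rw [e1, integral_sub i1234 i5, integral_add i123 i4, integral_sub i12 i3, integral_add i1 i2,
    integral_const_mul, integral_const_mul M, integral_add i2ab i2c, integral_sub i2a i2b,
    integral_const_mul (96 / 100 * T0 K L), integral_const_mul (2 / mw K),
    integral_const_mul (105 / 100 : ℝ), integral_sub i2c1 i2c2, setIntegral_const, smul_eq_mul,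
    mul_one, integral_const_mul (M * (2 / mw K) + 4 + a0 K φ ^ 2 * (a ^ 2 + b ^ 2)),
    integral_const_mul (5 : ℝ), integral_sub i5a i5b, integral_const_mul z]

private theorem de_volW {W : Set E} {a b : ℝ} (hW : WS φ χ W a b) : volume.real W = Real.pi := by
  unfold Measure.real
  rw [hW.vol, ENNReal.toReal_ofReal Real.pi_pos.le]

private theorem de_volD : volume.real (D : Set E) = Real.pi := by
  unfold Measure.real
  rw [disc_volume, ENNReal.toReal_ofReal Real.pi_nonneg]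

private theorem de_odd3 (a b : ℝ) : ∫ y in D, φ (sq y) * χ (sq y) * R3 a b y = 0 := by
  refine int_odd_disc fun y => ?_
  simp only [R3, c3, s3, PiLp.neg_apply, Neu.sq]
  ring_nf

private theorem de_odd1 (a b : ℝ) : ∫ y in D, φ (sq y) * R1 a b y = 0 := by
  refine int_odd_disc fun y => ?_
  simp only [R1, PiLp.neg_apply, Neu.sq]
  ring_nf

theorem dens {W : Set E} {a b : ℝ} (d : Dat K L φ ψ χ ω) (hW : WS φ χ W a b) (M z m : ℝ) :
    L / 2 * (∫ y in W, (Af χ (zt K φ) a b 0 y ^ 2 + Af χ (zt K φ) a b 1 y ^ 2))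
      + M * (96 / 100 * T0 K L * II m φ W + 2 / mw K * (K * mw K / 2 - ∫ y in W, ew m φ ψ y)
        + 105 / 100 * ((∫ y in W, sq y * φ (sq y) ^ 2) - mw K))
      - ∫ y in W, eA m a b χ ω (zt K φ) (ztd K φ ψ) y
      = (5 - CC K L φ) * (a ^ 2 + b ^ 2) + (∫ y in W \ D, Ft K L φ ψ χ ω M z m a b y)
        - ∫ y in D \ W, Ft K L φ ψ χ ω M z m a b y := by
  have h := d.prof
  have h2 := d.prof2
  have e1 := split_int hW.meas hW.bdd (cont_Ft (L := L) h h2 M z m a b)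
  have e2 := de_lin h h2 M z m a b hW.bdd
  have e3 := de_lin h h2 M z m a b M1x.bdD
  have e4 := de_nr h h2 a b hW.bdd
  rw [W_P h h2 hW, de_volW hW] at e4
  rw [W_P h h2 hW, W_R1 h hW, W_N h hW, e4, de_volW hW] at e2
  rw [int_nr_disc h h2, int_GI_disc h, int_ew_disc h, int_g2_disc h, int_eA_disc h h2,
    int_N_disc h, de_odd3, de_odd1, de_volD] at e3
  have e5 := a0_mul d
  unfold II CC cM
  rw [e2, e3] at e1
  linear_combination e1 + L * (a ^ 2 + b ^ 2) * a0 K φ * e5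

private theorem de_A2 (χ ζ : ℝ → ℝ) (a b : ℝ) (y : E) :
    Af χ ζ a b 0 y ^ 2 + Af χ ζ a b 1 y ^ 2 = (χ (sq y) * sq y) ^ 2
      - 2 * (χ (sq y) * ζ (sq y) * R3 a b y) + (a ^ 2 + b ^ 2) * (sq y * ζ (sq y) ^ 2) := by
  unfold Af vv bb pb R3 c3 s3 Neu.sq
  simp only [if_true, one_ne_zero, if_false]
  ring

private theorem de_out (h : Prof K φ ψ) (h2 : Prof2 L χ ω) (a b : ℝ) {y : E} (hy : 1 ≤ sq y) :
    nr K φ χ a b y = 0 := by
  have h0 : 0 < sq y := lt_of_lt_of_le one_pos hy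
  have e1 : zt K φ (sq y) = a0 K φ * φ (sq y) := by
    unfold zt et
    split_ifs with h3
    · have h4 : sq y = 1 := le_antisymm h3 hy
      rw [h4]
      ring
    · ring
  have e2 := phi_out h hy
  have e3 : χ (sq y) * sq y = 1 := by
    rw [h2.out _ hy]
    field_simp
  unfold nr
  rw [de_A2, e1, e3]
  linear_combination (a ^ 2 + b ^ 2) * a0 K φ ^ 2 * e2

/-- the mass of `A` -/
theorem massA {W : Set E} {a b : ℝ} (d : Dat K L φ ψ χ ω) (hW : WS φ χ W a b) :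
    ∫ y in W, (Af χ (zt K φ) a b 0 y ^ 2 + Af χ (zt K φ) a b 1 y ^ 2)
      = mV L - cM K φ * (a ^ 2 + b ^ 2) - ∫ y in D \ W, nr K φ χ a b y := by
  have h := d.prof
  have h2 := d.prof2
  have e1 := split_int hW.meas hW.bdd (cont_nr h h2 a b)
  have e4 := de_nr h h2 a b hW.bdd
  rw [W_P h h2 hW, de_volW hW] at e4
  have e2 : ∫ y in W \ D, nr K φ χ a b y = 0 := by
    rw [setIntegral_congr_fun (hW.meas.diff M1x.measD) (g := fun _ => (0 : ℝ)) (fun y hy => ?_)]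
    · simp
    · have h3 : 1 ≤ sq y := by
        by_contra h4
        exact hy.2 (M1x.mem_D.2 (not_le.1 h4))
      exact de_out h h2 a b h3
  have e5 := a0_mul d
  rw [e4, e2, int_nr_disc h h2] at e1
  unfold cM
  linear_combination e1 + 2 * (a ^ 2 + b ^ 2) * a0 K φ * e5

end Pool.Agent.FND
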