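import Pool.Agent.FND.Defs
import Pool.Agent.FND.Base
import Pool.Agent.FND.Wid
import Pool.Agent.FND.DIa
import Pool.Agent.FND.Vol
import Pool.Agent.FND.Cst
import Pool.Agent.FND.GradA

/-!
FND-EwB: a priori bounds for the energies.
-/

set_option autoImplicit false

open MeasureTheory Set
open Pool.Agent.Neu
open Pool.Agent.CS4 (Prof2 bb vv eV)

namespace Pool.Agent.FND

variable {K L : ℝ} {φ ψ χ ω : ℝ → ℝ}

private noncomputable def ebB (φ : ℝ → ℝ) (m : ℝ) (y : E) : ℝ :=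
  φ (sq y) ^ 2 * Nd m y + (1 - sq y * φ (sq y) ^ 2) / 2

private theorem eb_aff {A B s N : ℝ} (hs : 0 ≤ s) (h0 : 0 ≤ A) (h1 : 0 ≤ A + B * s) (hN0 : 0 ≤ N)
    (hN1 : N ≤ s) : 0 ≤ A + B * N := by
  rcases eq_or_lt_of_le hs with h | h
  · have hN : N = 0 := le_antisymm (by rw [h]; exact hN1) hN0
    rw [hN, mul_zero, add_zero]
    exact h0
  · have h2 : 0 ≤ s * (A + B * N) := by
      have h3 := mul_nonneg (sub_nonneg.2 hN1) h0
      have h4 := mul_nonneg hN0 h1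
      have h5 : s * (A + B * N) = (s - N) * A + N * (A + B * s) := by ring
      linarith
    exact nonneg_of_mul_nonneg_right h2 h

private theorem eb_ew (m : ℝ) (φ ψ : ℝ → ℝ) (y : E) : ew m φ ψ y =
    (φ (sq y) + 2 * sq y * ψ (sq y)) ^ 2 -
      4 * ψ (sq y) * (φ (sq y) + sq y * ψ (sq y)) * Nd m y := by
  unfold ew eQ N Nd
  ring

private theorem eb_eV (m : ℝ) (χ ω : ℝ → ℝ) (y : E) : eVm m χ ω y =
    4 * sq y * (χ (sq y) + sq y * ω (sq y)) ^ 2 -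
      4 * sq y * ω (sq y) * (2 * χ (sq y) + sq y * ω (sq y)) * Nd m y := by
  unfold eVm eV N Nd
  ring

private theorem eb_Nd {m : ℝ} (hm0 : 0 ≤ m) (hm1 : m ≤ 1) (y : E) : 0 ≤ Nd m y ∧ Nd m y ≤ sq y := by
  obtain ⟨h1, h2⟩ := Nd_bd hm0 hm1 y
  have h0 := M1x.sq_nonneg y
  constructor
  · exact le_trans (mul_nonneg (by linarith) h0) h1
  · refine h2.trans ?_
    have h3 : (1 + m) / 2 * sq y ≤ 1 * sq y := mul_le_mul_of_nonneg_right (by linarith) h0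
    linarith

/-- the two numerical facts and the simple one -/
private theorem eb_num (d : Dat K L φ ψ χ ω) {s : ℝ} (hs : s ∈ Icc (0 : ℝ) 1) :
    (1 - s * φ s ^ 2) / 2 ≤ (φ s + 2 * s * ψ s) ^ 2 ∧
      (φ s + 2 * s * ψ s) ^ 2 ≤ 2525 / 1000 * (1 - s * φ s ^ 2) ∧
      (1 - s) * φ s ^ 2 + 1525 / 1000 * (1 - s * φ s ^ 2) ≤ 405 / 100 * (1 - s) := by
  have e1 := abs_le.1 (d.enc.phi s hs)
  have e2 := abs_le.1 (d.enc.gd s hs)
  obtain ⟨f, hf⟩ : ∃ f, f = φ s := ⟨_, rfl⟩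
  obtain ⟨G, hG⟩ : ∃ G, G = φ s + 2 * s * ψ s := ⟨_, rfl⟩
  obtain ⟨u, hu⟩ : ∃ u, u = 1 - s := ⟨_, rfl⟩
  rw [← hG, ← hu] at e2
  rw [← hf, ← hu] at e1
  rw [← hG, ← hf, ← hu]
  have hs' : s = 1 - u := by linarith
  have hu0 : 0 ≤ u := by linarith [hs.2]
  have hu1 : u ≤ 1 := by linarith [hs.1]
  rw [hs']
  obtain ⟨e1a, e1b⟩ := e1
  obtain ⟨e2a, e2b⟩ := e2
  have hu2 : u ^ 2 ≤ 1 := pow_le_one₀ hu0 hu1
  have hu3 : u ^ 3 ≤ 1 := pow_le_one₀ hu0 hu1
  have hu4 : u ^ 4 ≤ 1 := pow_le_one₀ hu0 hu1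
  have hu5 : u ^ 5 ≤ 1 := pow_le_one₀ hu0 hu1
  have hu6 : u ^ 6 ≤ 1 := pow_le_one₀ hu0 hu1
  have q2 : 0 ≤ u ^ 2 := by positivity
  have q3 : 0 ≤ u ^ 3 := by positivity
  have q4 : 0 ≤ u ^ 4 := by positivity
  have q5 : 0 ≤ u ^ 5 := by positivity
  have q6 : 0 ≤ u ^ 6 := by positivity
  have flo : 1 + u / 2 + u ^ 2 * (761 / 10000 + 59 / 10000 * u) ≤ f := by linarith
  have fup : f ≤ 1 + u / 2 + u ^ 2 * (763 / 10000 + 59 / 10000 * u) := by linarith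
  have flo0 : 0 ≤ 1 + u / 2 + u ^ 2 * (761 / 10000 + 59 / 10000 * u) := by positivity
  have f2lo := pow_le_pow_left₀ flo0 flo 2
  have f2up := pow_le_pow_left₀ (flo0.trans flo) fup 2
  have Glo : u * (11948 / 10000 + 3462 / 10000 * u + 408 / 10000 * u ^ 2) ≤ G := by linarith
  have Gup : G ≤ u * (11952 / 10000 + 3462 / 10000 * u + 408 / 10000 * u ^ 2) := by linarith
  have Glo0 : 0 ≤ u * (11948 / 10000 + 3462 / 10000 * u + 408 / 10000 * u ^ 2) := by positivity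
  have G2lo := pow_le_pow_left₀ Glo0 Glo 2
  have G2up := pow_le_pow_left₀ (Glo0.trans Glo) Gup 2
  have hv : 0 ≤ 1 - u := by linarith
  have g1 := mul_le_mul_of_nonneg_left f2lo hv
  have g2 := mul_le_mul_of_nonneg_left f2up hv
  have g3 := mul_le_mul_of_nonneg_left f2up hu0
  refine ⟨?_, ?_, ?_⟩
  · have k1 : 1 - u ^ 2 ≤ (1 - u) * (1 + u / 2 + u ^ 2 * (761 / 10000 + 59 / 10000 * u)) ^ 2 := by
      have k2 : 1 + u ≤ (1 + u / 2 + u ^ 2 * (761 / 10000 + 59 / 10000 * u)) ^ 2 := by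
        have k3 : 0 ≤ u ^ 2 * (761 / 10000 + 59 / 10000 * u) := by positivity
        nlinarith
      have k4 := mul_le_mul_of_nonneg_left k2 hv
      nlinarith
    have k5 : u ^ 2 ≤ (u * (11948 / 10000 + 3462 / 10000 * u + 408 / 10000 * u ^ 2)) ^ 2 := by
      refine pow_le_pow_left₀ hu0 ?_ 2
      have k6 : u * 1 ≤ u * (11948 / 10000 + 3462 / 10000 * u + 408 / 10000 * u ^ 2) :=
        mul_le_mul_of_nonneg_left (by nlinarith) hu0
      linarith
    linarith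
  · have k1 : (u * (11952 / 10000 + 3462 / 10000 * u + 408 / 10000 * u ^ 2)) ^ 2 ≤
        2525 / 1000 * (1 - (1 - u) * (1 + u / 2 + u ^ 2 * (763 / 10000 + 59 / 10000 * u)) ^ 2) := by
      have k2 : 2525 / 1000 * (1 - (1 - u) * (1 + u / 2 + u ^ 2 * (763 / 10000 + 59 / 10000 * u)) ^ 2)
          - (u * (11952 / 10000 + 3462 / 10000 * u + 408 / 10000 * u ^ 2)) ^ 2 = u ^ 2 *
          (2525 / 1000 * ((3 / 4 - 2 * (763 / 10000)) + (1 / 4 + 763 / 10000 - 2 * (59 / 10000)) * u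
            + (763 / 10000 + 59 / 10000 - (763 / 10000) ^ 2) * u ^ 2
            + ((763 / 10000) ^ 2 + 59 / 10000 - 2 * (763 / 10000) * (59 / 10000)) * u ^ 3
            + (2 * (763 / 10000) * (59 / 10000) - (59 / 10000) ^ 2) * u ^ 4
            + (59 / 10000) ^ 2 * u ^ 5) -
            (11952 / 10000 + 3462 / 10000 * u + 408 / 10000 * u ^ 2) ^ 2) := by ring
      have k3 : 0 ≤ 2525 / 1000 * ((3 / 4 - 2 * (763 / 10000)) +
            (1 / 4 + 763 / 10000 - 2 * (59 / 10000)) * u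
            + (763 / 10000 + 59 / 10000 - (763 / 10000) ^ 2) * u ^ 2
            + ((763 / 10000) ^ 2 + 59 / 10000 - 2 * (763 / 10000) * (59 / 10000)) * u ^ 3
            + (2 * (763 / 10000) * (59 / 10000) - (59 / 10000) ^ 2) * u ^ 4
            + (59 / 10000) ^ 2 * u ^ 5) -
            (11952 / 10000 + 3462 / 10000 * u + 408 / 10000 * u ^ 2) ^ 2 := by
        ring_nf
        linarith
      have k4 := mul_nonneg q2 k3
      linarith
    linarith
  · have k1 : u * (1 + u / 2 + u ^ 2 * (763 / 10000 + 59 / 10000 * u)) ^ 2 +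
        1525 / 1000 * (1 - (1 - u) * (1 + u / 2 + u ^ 2 * (761 / 10000 + 59 / 10000 * u)) ^ 2) ≤
        405 / 100 * u := by
      have k2 : 405 / 100 * u - (u * (1 + u / 2 + u ^ 2 * (763 / 10000 + 59 / 10000 * u)) ^ 2 +
        1525 / 1000 * (1 - (1 - u) * (1 + u / 2 + u ^ 2 * (761 / 10000 + 59 / 10000 * u)) ^ 2)) =
        u * (405 / 100 - (1 + u / 2 + u ^ 2 * (763 / 10000 + 59 / 10000 * u)) ^ 2 -
          1525 / 1000 * ((3 / 4 - 2 * (761 / 10000)) * u + (1 / 4 + 761 / 10000 - 2 * (59 / 10000)) *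
            u ^ 2 + (761 / 10000 + 59 / 10000 - (761 / 10000) ^ 2) * u ^ 3
            + ((761 / 10000) ^ 2 + 59 / 10000 - 2 * (761 / 10000) * (59 / 10000)) * u ^ 4
            + (2 * (761 / 10000) * (59 / 10000) - (59 / 10000) ^ 2) * u ^ 5
            + (59 / 10000) ^ 2 * u ^ 6)) := by ring
      have k3 : 0 ≤ 405 / 100 - (1 + u / 2 + u ^ 2 * (763 / 10000 + 59 / 10000 * u)) ^ 2 -
          1525 / 1000 * ((3 / 4 - 2 * (761 / 10000)) * u + (1 / 4 + 761 / 10000 - 2 * (59 / 10000)) *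
            u ^ 2 + (761 / 10000 + 59 / 10000 - (761 / 10000) ^ 2) * u ^ 3
            + ((761 / 10000) ^ 2 + 59 / 10000 - 2 * (761 / 10000) * (59 / 10000)) * u ^ 4
            + (2 * (761 / 10000) * (59 / 10000) - (59 / 10000) ^ 2) * u ^ 5
            + (59 / 10000) ^ 2 * u ^ 6) := by
        ring_nf
        linarith
      have k4 := mul_nonneg hu0 k3
      linarith
    linarith

private theorem eb_in1 {s f p N' : ℝ} (hs : s ∈ Icc (0 : ℝ) 1)
    (n1 : (1 - s * f ^ 2) / 2 ≤ (f + 2 * s * p) ^ 2)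
    (n2 : (f + 2 * s * p) ^ 2 ≤ 2525 / 1000 * (1 - s * f ^ 2))
    (n3 : (1 - s) * f ^ 2 + 1525 / 1000 * (1 - s * f ^ 2) ≤ 405 / 100 * (1 - s))
    (N0 : 0 ≤ N') (N1 : N' ≤ s) (h1 : 1 ≤ f) (g1 : s ≤ s * f ^ 2) :
    f ^ 2 * N' + (1 - s * f ^ 2) / 2 ≤ (f + 2 * s * p) ^ 2 - 4 * p * (f + s * p) * N' ∧
      (f + 2 * s * p) ^ 2 - 4 * p * (f + s * p) * N' - (f ^ 2 * N' + (1 - s * f ^ 2) / 2) ≤
        405 / 100 * -(N' - f ^ 2 * N' - (1 - s * f ^ 2) / 2) := by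
  have hf2 : 1 ≤ f ^ 2 := by nlinarith
  have hs2 := hs.2
  constructor
  · have a1 : 0 ≤ (f + 2 * s * p) ^ 2 - (1 - s * f ^ 2) / 2 := by linarith
    have a2 : 0 ≤ ((f + 2 * s * p) ^ 2 - (1 - s * f ^ 2) / 2) +
        (-(4 * p * (f + s * p)) - f ^ 2) * s := by
      have a3 : ((f + 2 * s * p) ^ 2 - (1 - s * f ^ 2) / 2) +
        (-(4 * p * (f + s * p)) - f ^ 2) * s = f ^ 2 * (1 - s) - (1 - s * f ^ 2) / 2 := by ring
      rw [a3]
      have a4 : 1 * (1 - s) ≤ f ^ 2 * (1 - s) := mul_le_mul_of_nonneg_right hf2 (by linarith)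
      linarith
    have a5 := eb_aff hs.1 a1 a2 N0 N1
    linarith
  · have a1 : 0 ≤ 405 / 100 * ((1 - s * f ^ 2) / 2) -
        ((f + 2 * s * p) ^ 2 - (1 - s * f ^ 2) / 2) := by linarith
    have a2 : 0 ≤ (405 / 100 * ((1 - s * f ^ 2) / 2) -
        ((f + 2 * s * p) ^ 2 - (1 - s * f ^ 2) / 2)) +
        (405 / 100 * (f ^ 2 - 1) - (-(4 * p * (f + s * p)) - f ^ 2)) * s := by
      have a3 : (405 / 100 * ((1 - s * f ^ 2) / 2) -
        ((f + 2 * s * p) ^ 2 - (1 - s * f ^ 2) / 2)) +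
        (405 / 100 * (f ^ 2 - 1) - (-(4 * p * (f + s * p)) - f ^ 2)) * s =
        405 / 100 * (1 - s) - ((1 - s) * f ^ 2 + 1525 / 1000 * (1 - s * f ^ 2)) := by ring
      rw [a3]
      linarith
    have a5 := eb_aff hs.1 a1 a2 N0 N1
    linarith

private theorem eb_in (d : Dat K L φ ψ χ ω) {m : ℝ} (hm0 : 0 ≤ m) (hm1 : m ≤ 1) {y : E}
    (hy : sq y ≤ 1) : ebB φ m y ≤ ew m φ ψ y ∧
      ew m φ ψ y - ebB φ m y ≤ 405 / 100 * -GI m φ y := by
  have hs : sq y ∈ Icc (0 : ℝ) 1 := ⟨M1x.sq_nonneg y, hy⟩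
  obtain ⟨n1, n2, n3⟩ := eb_num d hs
  obtain ⟨N0, N1⟩ := eb_Nd hm0 hm1 y
  rw [eb_ew]
  exact eb_in1 hs n1 n2 n3 N0 N1 (d.prof.one_le _ hs) (g2_bd d.prof hs).1

private theorem eb_out (d : Dat K L φ ψ χ ω) {m : ℝ} (hm0 : 0 ≤ m) (hm1 : m ≤ 1) {y : E}
    (hy : 1 ≤ sq y) : ew m φ ψ y ≤ ebB φ m y ∧ ebB φ m y - ew m φ ψ y ≤ 405 / 100 * GI m φ y ∧
      eVm m χ ω y ≤ 4 * ebB φ m y := by
  obtain ⟨N0, N1⟩ := eb_Nd hm0 hm1 y
  have h0 : 0 < sq y := lt_of_lt_of_le one_pos hy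
  have e1 : ebB φ m y = Nd m y / sq y := by
    have h1 := phi_out d.prof hy
    have h2 : φ (sq y) ^ 2 = 1 / sq y := by
      rw [eq_div_iff h0.ne']
      exact h1
    unfold ebB
    rw [h2]
    field_simp
    ring
  have e2 : ew m φ ψ y = Nd m y / sq y ^ 2 := by
    rw [eb_ew, d.prof.out _ hy, d.prof.outd _ hy]
    have h3 : 0 < √(sq y) := Real.sqrt_pos.2 h0
    obtain ⟨r, hr⟩ : ∃ r, r = √(sq y) := ⟨_, rfl⟩
    have h4 : sq y = r ^ 2 := by
      rw [hr, Real.sq_sqrt h0.le]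
    rw [← hr] at h3 ⊢
    rw [h4]
    field_simp
    ring
  have e3 : eVm m χ ω y = 4 * (Nd m y / sq y ^ 2) := by
    rw [eb_eV, d.prof2.out _ hy, d.prof2.outd _ hy]
    field_simp
    ring
  have e4 : Nd m y / sq y ^ 2 ≤ Nd m y / sq y := by
    refine div_le_div_of_nonneg_left N0 h0 ?_
    nlinarith
  have e5 := GI_out d.prof (m := m) hy
  refine ⟨?_, ?_, ?_⟩
  · rw [e1, e2]
    exact e4
  · rw [e1, e2, e5]
    have h3 : Nd m y / sq y - Nd m y / sq y ^ 2 = Nd m y / sq y * ((sq y - 1) / sq y) := by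
      field_simp
    have h4 : (sq y - 1) / sq y ≤ 405 / 100 * (sq y - 1) := by
      rw [div_le_iff₀ h0]
      nlinarith
    have h5 := mul_le_mul_of_nonneg_left h4 (div_nonneg N0 h0.le)
    linarith
  · rw [e1, e3]
    linarith

private theorem eb_chi1 {s f p N' : ℝ} (N0 : 0 ≤ N') (N1 : N' ≤ s) (h1 : 1 ≤ f) :
    4 * N' ≤ 4 * s * (f + s * p) ^ 2 - 4 * s * p * (2 * f + s * p) * N' := by
  have hf2 : 1 ≤ f ^ 2 := by nlinarith
  have e : 4 * s * (f + s * p) ^ 2 - 4 * s * p * (2 * f + s * p) * N' =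
      4 * ((f + s * p) ^ 2 * (s - N')) + 4 * (f ^ 2 * N') := by ring
  rw [e]
  have a1 : 0 ≤ (f + s * p) ^ 2 * (s - N') := mul_nonneg (sq_nonneg _) (by linarith)
  have a2 : 1 * N' ≤ f ^ 2 * N' := mul_le_mul_of_nonneg_right hf2 N0
  linarith

private theorem eb_chi (d : Dat K L φ ψ χ ω) {m : ℝ} (hm0 : 0 ≤ m) (hm1 : m ≤ 1) {y : E}
    (hy : sq y ≤ 1) : 4 * Nd m y ≤ eVm m χ ω y := by
  have hs : sq y ∈ Icc (0 : ℝ) 1 := ⟨M1x.sq_nonneg y, hy⟩
  obtain ⟨N0, N1⟩ := eb_Nd hm0 hm1 y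
  rw [eb_eV]
  exact eb_chi1 N0 N1 (d.prof2.one_le _ hs)

private theorem eb_cB (h : Prof K φ ψ) (m : ℝ) : Continuous (ebB φ m) := by
  have h1 := h.phi_cont
  have h2 := M1x.cont_sq
  have h3 : Continuous (Nd m) := by
    unfold Nd
    fun_prop
  unfold ebB
  fun_prop

/-- balance -/
private theorem eb_bal {W : Set E} {a b : ℝ} (h : Prof K φ ψ) (hW : WS φ χ W a b) (m : ℝ) :
    ∫ y in W \ D, ebB φ m y = ∫ y in D \ W, ebB φ m y := by
  have e1 := split_int hW.meas hW.bdd (eb_cB h m)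
  have e2 : ∫ y in W, ebB φ m y = Real.pi / 2 := W_N h hW m
  have e3 : ∫ y in D, ebB φ m y = Real.pi / 2 := int_N_disc h m
  linarith

private theorem eb_O {W : Set E} {y : E} (hy : y ∈ W \ D) : 1 ≤ sq y := by
  by_contra h4
  exact hy.2 (M1x.mem_D.2 (not_le.1 h4))

private theorem eb_S {W : Set E} {y : E} (hy : y ∈ D \ W) : sq y ≤ 1 :=
  (M1x.mem_D.1 hy.1).le

theorem Ew_le {W : Set E} {a b : ℝ} (d : Dat K L φ ψ χ ω) (hW : WS φ χ W a b) {m : ℝ}
    (hm0 : 0 ≤ m) (hm1 : m ≤ 1) : ∫ y in W, ew m φ ψ y ≤ K * mw K / 2 := by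
  have bO : Bornology.IsBounded (W \ D : Set E) := hW.bdd.subset sdiff_subset
  have bS : Bornology.IsBounded (D \ W : Set E) := M1x.bdD.subset sdiff_subset
  have mO : MeasurableSet (W \ D : Set E) := hW.meas.diff M1x.measD
  have mS : MeasurableSet (D \ W : Set E) := M1x.measD.diff hW.meas
  have cB := eb_cB d.prof m
  have bal := eb_bal d.prof hW m
  have cE : Continuous (ew m φ ψ) := cont_ew d.prof.phi_cont d.prof.cont m
  have e1 := split_int hW.meas hW.bdd cE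
  rw [e1, int_ew_disc d.prof]
  have l1 : ∫ y in W \ D, ew m φ ψ y ≤ ∫ y in W \ D, ebB φ m y :=
    setIntegral_mono_on (M1x.intOn cE bO) (M1x.intOn cB bO) mO fun y hy =>
      (eb_out d hm0 hm1 (eb_O hy)).1
  have l2 : ∫ y in D \ W, ebB φ m y ≤ ∫ y in D \ W, ew m φ ψ y :=
    setIntegral_mono_on (M1x.intOn cB bS) (M1x.intOn cE bS) mS fun y hy =>
      (eb_in d hm0 hm1 (eb_S hy)).1
  linarith

theorem Ew_ge {W : Set E} {a b : ℝ} (d : Dat K L φ ψ χ ω) (hW : WS φ χ W a b) {m : ℝ}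
    (hm0 : 0 ≤ m) (hm1 : m ≤ 1) :
    K * mw K / 2 - 405 / 100 * II m φ W ≤ ∫ y in W, ew m φ ψ y := by
  have bO : Bornology.IsBounded (W \ D : Set E) := hW.bdd.subset sdiff_subset
  have bS : Bornology.IsBounded (D \ W : Set E) := M1x.bdD.subset sdiff_subset
  have mO : MeasurableSet (W \ D : Set E) := hW.meas.diff M1x.measD
  have mS : MeasurableSet (D \ W : Set E) := M1x.measD.diff hW.meas
  have cB := eb_cB d.prof m
  have bal := eb_bal d.prof hW m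
  have cE : Continuous (ew m φ ψ) := cont_ew d.prof.phi_cont d.prof.cont m
  have cG := cont_GI d.prof m
  have e1 := split_int hW.meas hW.bdd cE
  rw [e1, int_ew_disc d.prof, II_eq d.prof hW m]
  have l1 : ∫ y in W \ D, (ebB φ m y - ew m φ ψ y) ≤ ∫ y in W \ D, 405 / 100 * GI m φ y :=
    setIntegral_mono_on (M1x.intOn (cB.sub cE) bO) (M1x.intOn (continuous_const.mul cG) bO) mO
      fun y hy => (eb_out d hm0 hm1 (eb_O hy)).2.1
  have l2 : ∫ y in D \ W, (ew m φ ψ y - ebB φ m y) ≤ ∫ y in D \ W, 405 / 100 * -GI m φ y :=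
    setIntegral_mono_on (M1x.intOn (cE.sub cB) bS) (M1x.intOn (continuous_const.mul cG.neg) bS) mS
      fun y hy => (eb_in d hm0 hm1 (eb_S hy)).2
  rw [integral_sub (M1x.intOn cB bO) (M1x.intOn cE bO), integral_const_mul] at l1
  rw [integral_sub (M1x.intOn cE bS) (M1x.intOn cB bS), integral_const_mul, integral_neg] at l2
  linarith

theorem EV_le {W : Set E} {a b : ℝ} (d : Dat K L φ ψ χ ω) (hW : WS φ χ W a b) {m : ℝ}
    (hm0 : 0 ≤ m) (hm1 : m ≤ 1) :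
    ∫ y in W, eVm m χ ω y ≤ L / 2 * mV L + 4 * II m φ W := by
  have bO : Bornology.IsBounded (W \ D : Set E) := hW.bdd.subset sdiff_subset
  have bS : Bornology.IsBounded (D \ W : Set E) := M1x.bdD.subset sdiff_subset
  have mO : MeasurableSet (W \ D : Set E) := hW.meas.diff M1x.measD
  have mS : MeasurableSet (D \ W : Set E) := M1x.measD.diff hW.meas
  have cB := eb_cB d.prof m
  have bal := eb_bal d.prof hW m
  have cE : Continuous (eVm m χ ω) := cont_eVm d.prof2 m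
  have cG := cont_GI d.prof m
  have e1 := split_int hW.meas hW.bdd cE
  rw [e1, int_eVm_disc d.prof2, II_eq d.prof hW m]
  have l1 : ∫ y in W \ D, eVm m χ ω y ≤ ∫ y in W \ D, 4 * ebB φ m y :=
    setIntegral_mono_on (M1x.intOn cE bO) (M1x.intOn (continuous_const.mul cB) bO) mO
      fun y hy => (eb_out d hm0 hm1 (eb_O hy)).2.2
  have l2 : ∫ y in D \ W, (4 * (ebB φ m y + GI m φ y)) ≤ ∫ y in D \ W, eVm m χ ω y := by
    refine setIntegral_mono_on (M1x.intOn (continuous_const.mul (cB.add cG)) bS)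
      (M1x.intOn cE bS) mS fun y hy => ?_
    have h1 := eb_chi d hm0 hm1 (eb_S hy)
    have h2 : ebB φ m y + GI m φ y = Nd m y := by
      unfold ebB GI
      ring
    rw [h2]
    exact h1
  rw [integral_const_mul] at l1
  rw [integral_const_mul, integral_add (M1x.intOn cB bS) (M1x.intOn cG bS)] at l2
  have h3 := (II_S d.prof hW hm0 hm1).1
  linarith

theorem M1_le {W : Set E} {a b : ℝ} (d : Dat K L φ ψ χ ω) (hW : WS φ χ W a b) {m : ℝ}
    (hm0 : 0 ≤ m) (hm1 : m ≤ 1) :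
    mw K ≤ (∫ y in W, sq y * φ (sq y) ^ 2) ∧
      ∫ y in W, sq y * φ (sq y) ^ 2 ≤ mw K + 2 * II m φ W := by
  have bS : Bornology.IsBounded (D \ W : Set E) := M1x.bdD.subset sdiff_subset
  have mS : MeasurableSet (D \ W : Set E) := M1x.measD.diff hW.meas
  have cG := cont_GI d.prof m
  have cp := d.prof.phi_cont
  have cs := M1x.cont_sq
  have cX : Continuous fun y : E => 1 - sq y * φ (sq y) ^ 2 := by fun_prop
  rw [W_M1 d.prof hW, II_eq d.prof hW m]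
  have l1 : 0 ≤ ∫ y in D \ W, (1 - sq y * φ (sq y) ^ 2) := by
    refine setIntegral_nonneg mS fun y hy => ?_
    have h1 := (g2_bd d.prof ⟨M1x.sq_nonneg y, eb_S hy⟩).2
    linarith
  have l2 : ∫ y in D \ W, (1 - sq y * φ (sq y) ^ 2) ≤ ∫ y in D \ W, 2 * -GI m φ y := by
    refine setIntegral_mono_on (M1x.intOn cX bS) (M1x.intOn (continuous_const.mul cG.neg) bS) mS
      fun y hy => ?_
    have h1 := (GI_in d.prof hm0 hm1 (eb_S hy)).1
    linarith
  rw [integral_const_mul, integral_neg] at l2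
  have h3 := (II_S d.prof hW hm0 hm1).1
  constructor
  · linarith
  · linarith

end Pool.Agent.FND
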