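import Pool.Agent.FND.Defs
import Pool.Agent.FND.GradA

/-!
FND-Grad: gradients of `A`.
-/

set_option autoImplicit false

open MeasureTheory Set
open Pool.Agent.Neu
open Pool.Agent.CS4 (Prof2 bb vv eV)

namespace Pool.Agent.FND

variable {K L : ℝ} {φ ψ χ ω : ℝ → ℝ}

/-- coordinate functional -/
private noncomputable abbrev gp (i : Fin 2) : E →L[ℝ] ℝ := EuclideanSpace.proj i

private theorem gr_pd {f : E → ℝ} {A B : ℝ} {y : E} (h : HasFDerivAt f (A • gp 0 + B • gp 1) y) :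
    pd 0 f y = A ∧ pd 1 f y = B := by
  unfold pd
  rw [h.fderiv]
  constructor <;> simp

private theorem gr_c0 (y : E) : HasFDerivAt (fun y : E => y 0) ((1 : ℝ) • gp 0 + (0 : ℝ) • gp 1) y :=
  (gp 0).hasFDerivAt.congr_fderiv (by module)

private theorem gr_c1 (y : E) : HasFDerivAt (fun y : E => y 1) ((0 : ℝ) • gp 0 + (1 : ℝ) • gp 1) y :=
  (gp 1).hasFDerivAt.congr_fderiv (by module)

private theorem gr_mul {f g : E → ℝ} {A B C D : ℝ} {y : E}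
    (hf : HasFDerivAt f (A • gp 0 + B • gp 1) y) (hg : HasFDerivAt g (C • gp 0 + D • gp 1) y) :
    HasFDerivAt (fun y => f y * g y) ((f y * C + g y * A) • gp 0 + (f y * D + g y * B) • gp 1) y :=
  (hf.mul hg).congr_fderiv (by module)

private theorem gr_add {f g : E → ℝ} {A B C D : ℝ} {y : E}
    (hf : HasFDerivAt f (A • gp 0 + B • gp 1) y) (hg : HasFDerivAt g (C • gp 0 + D • gp 1) y) :
    HasFDerivAt (fun y => f y + g y) ((A + C) • gp 0 + (B + D) • gp 1) y :=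
  (hf.add hg).congr_fderiv (by module)

private theorem gr_sub {f g : E → ℝ} {A B C D : ℝ} {y : E}
    (hf : HasFDerivAt f (A • gp 0 + B • gp 1) y) (hg : HasFDerivAt g (C • gp 0 + D • gp 1) y) :
    HasFDerivAt (fun y => f y - g y) ((A - C) • gp 0 + (B - D) • gp 1) y :=
  (hf.sub hg).congr_fderiv (by module)

private theorem gr_smul {f : E → ℝ} {A B : ℝ} {y : E} (c : ℝ)
    (hf : HasFDerivAt f (A • gp 0 + B • gp 1) y) :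
    HasFDerivAt (fun y => c * f y) ((c * A) • gp 0 + (c * B) • gp 1) y :=
  (hf.const_mul c).congr_fderiv (by module)

private theorem gr_F {F F' : ℝ → ℝ} (hF : ∀ s, HasDerivAt F (F' s) s) (y : E) :
    HasFDerivAt (fun y : E => F (sq y))
      ((F' (sq y) * (2 * y 0)) • gp 0 + (F' (sq y) * (2 * y 1)) • gp 1) y := by
  have h1 := gr_add (gr_mul (gr_c0 y) (gr_c0 y)) (gr_mul (gr_c1 y) (gr_c1 y))
  have h2 : HasFDerivAt (fun y : E => sq y) ((2 * y 0) • gp 0 + (2 * y 1) • gp 1) y := by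
    have e : (fun y : E => sq y) = fun y : E => y 0 * y 0 + y 1 * y 1 := by
      funext y
      simp only [Pool.Agent.Neu.sq]
      ring
    rw [e]
    exact h1.congr_fderiv (by module)
  exact ((hF (sq y)).comp_hasFDerivAt y h2).congr_fderiv (by module)

private theorem gr_w0 {F F' : ℝ → ℝ} (hF : ∀ s, HasDerivAt F (F' s) s) (y : E) :
    pd 0 (w F 0) y = F (sq y) + 2 * F' (sq y) * y 0 ^ 2 ∧
      pd 1 (w F 0) y = 2 * F' (sq y) * y 0 * y 1 := by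
  have h1 := gr_pd (gr_mul (gr_F hF y) (gr_c0 y))
  have e : (w F 0) = fun y : E => F (sq y) * y 0 := rfl
  rw [e, h1.1, h1.2]
  constructor <;> ring

private theorem gr_w1 {F F' : ℝ → ℝ} (hF : ∀ s, HasDerivAt F (F' s) s) (y : E) :
    pd 0 (w F 1) y = 2 * F' (sq y) * y 0 * y 1 ∧
      pd 1 (w F 1) y = F (sq y) + 2 * F' (sq y) * y 1 ^ 2 := by
  have h1 := gr_pd (gr_mul (gr_F hF y) (gr_c1 y))
  have e : (w F 1) = fun y : E => F (sq y) * y 1 := rfl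
  rw [e, h1.1, h1.2]
  constructor <;> ring

private theorem gr_A0 (h2 : Prof2 L χ ω) {ζ ζ' : ℝ → ℝ} (hζ : ∀ s, HasDerivAt ζ (ζ' s) s)
    (a b : ℝ) (y : E) :
    pd 0 (Af χ ζ a b 0) y = 2 * χ (sq y) * y 0 + 2 * ω (sq y) * y 0 * (y 0 ^ 2 - y 1 ^ 2)
        - (ζ (sq y) * a + 2 * ζ' (sq y) * y 0 * (a * y 0 + b * y 1)) ∧
      pd 1 (Af χ ζ a b 0) y = -(2 * χ (sq y) * y 1) + 2 * ω (sq y) * y 1 * (y 0 ^ 2 - y 1 ^ 2)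
        - (ζ (sq y) * b + 2 * ζ' (sq y) * y 1 * (a * y 0 + b * y 1)) := by
  have h1 := gr_sub
    (gr_mul (gr_F h2.deriv y) (gr_sub (gr_mul (gr_c0 y) (gr_c0 y)) (gr_mul (gr_c1 y) (gr_c1 y))))
    (gr_mul (gr_F hζ y) (gr_add (gr_smul a (gr_c0 y)) (gr_smul b (gr_c1 y))))
  have e : (Af χ ζ a b 0) = fun y : E => χ (sq y) * (y 0 * y 0 - y 1 * y 1)
      - ζ (sq y) * (a * y 0 + b * y 1) := by
    funext y
    simp only [Af, vv, bb, pb, if_pos]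
    ring
  rw [e, (gr_pd h1).1, (gr_pd h1).2]
  constructor <;> ring

private theorem gr_A1 (h2 : Prof2 L χ ω) {ζ ζ' : ℝ → ℝ} (hζ : ∀ s, HasDerivAt ζ (ζ' s) s)
    (a b : ℝ) (y : E) :
    pd 0 (Af χ ζ a b 1) y = 2 * χ (sq y) * y 1 + 2 * ω (sq y) * y 0 * (2 * (y 0 * y 1))
        - (ζ (sq y) * b + 2 * ζ' (sq y) * y 0 * (b * y 0 - a * y 1)) ∧
      pd 1 (Af χ ζ a b 1) y = 2 * χ (sq y) * y 0 + 2 * ω (sq y) * y 1 * (2 * (y 0 * y 1))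
        - (-(ζ (sq y) * a) + 2 * ζ' (sq y) * y 1 * (b * y 0 - a * y 1)) := by
  have h1 := gr_sub
    (gr_mul (gr_F h2.deriv y) (gr_smul 2 (gr_mul (gr_c0 y) (gr_c1 y))))
    (gr_mul (gr_F hζ y) (gr_sub (gr_smul b (gr_c0 y)) (gr_smul a (gr_c1 y))))
  have e : (Af χ ζ a b 1) = fun y : E => χ (sq y) * (2 * (y 0 * y 1))
      - ζ (sq y) * (b * y 0 - a * y 1) := by
    funext y
    simp only [Af, vv, bb, pb]
    rw [if_neg (by decide), if_neg (by decide)]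
  rw [e, (gr_pd h1).1, (gr_pd h1).2]
  constructor <;> ring

private theorem gr_young {t : ℝ} (ht : 0 < t) (v b : ℝ) :
    (v - b) ^ 2 ≤ (1 + t) * v ^ 2 + (1 + 1 / t) * b ^ 2 := by
  have h1 : (1 + t) * v ^ 2 + (1 + 1 / t) * b ^ 2 - (v - b) ^ 2 = (t * v + b) ^ 2 / t := by
    field_simp
    ring
  have h2 : 0 ≤ (t * v + b) ^ 2 / t := by positivity
  linarith

private theorem gr_young4 {t p r : ℝ} (ht : 0 < t) (hp : 0 ≤ p) (hr : 0 ≤ r)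
    (v1 v2 v3 v4 b1 b2 b3 b4 : ℝ) :
    p * ((v1 - b1) ^ 2 + (v2 - b2) ^ 2) + r * ((v3 - b3) ^ 2 + (v4 - b4) ^ 2) ≤
      (1 + t) * (p * (v1 ^ 2 + v2 ^ 2) + r * (v3 ^ 2 + v4 ^ 2)) +
        (1 + 1 / t) * (p * (b1 ^ 2 + b2 ^ 2) + r * (b3 ^ 2 + b4 ^ 2)) := by
  have e1 := mul_le_mul_of_nonneg_left (add_le_add (gr_young ht v1 b1) (gr_young ht v2 b2)) hp
  have e2 := mul_le_mul_of_nonneg_left (add_le_add (gr_young ht v3 b3) (gr_young ht v4 b4)) hr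
  linarith

theorem en_AA (h2 : Prof2 L χ ω) {ζ ζ' : ℝ → ℝ} (hζ : ∀ s, HasDerivAt ζ (ζ' s) s)
    (m a b : ℝ) (y : E) :
    en m (Af χ ζ a b 0) (Af χ ζ a b 0) y + en m (Af χ ζ a b 1) (Af χ ζ a b 1) y
      = eA m a b χ ω ζ ζ' y := by
  unfold en
  rw [(gr_A0 h2 hζ a b y).1, (gr_A0 h2 hζ a b y).2, (gr_A1 h2 hζ a b y).1, (gr_A1 h2 hζ a b y).2]
  unfold eA X3 eVm ew eV eQ R3 R1 c3 s3 Nd N
  obtain ⟨c, hc⟩ : ∃ c, c = χ (sq y) := ⟨_, rfl⟩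
  obtain ⟨o, ho⟩ : ∃ o, o = ω (sq y) := ⟨_, rfl⟩
  obtain ⟨z, hz⟩ : ∃ z, z = ζ (sq y) := ⟨_, rfl⟩
  obtain ⟨z', hz'⟩ : ∃ z', z' = ζ' (sq y) := ⟨_, rfl⟩
  rw [← hc, ← ho, ← hz, ← hz']
  unfold Pool.Agent.Neu.sq
  ring

theorem en_AwR (h : Prof K φ ψ) (h2 : Prof2 L χ ω) {ζ ζ' : ℝ → ℝ}
    (hζ : ∀ s, HasDerivAt ζ (ζ' s) s) (m a b : ℝ) (y : E) :
    en m (Af χ ζ a b 0) (w φ 0) y + en m (Af χ ζ a b 1) (w φ 1) y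
      = bR m a b φ ψ χ ω ζ ζ' y := by
  unfold en
  rw [(gr_A0 h2 hζ a b y).1, (gr_A0 h2 hζ a b y).2, (gr_A1 h2 hζ a b y).1, (gr_A1 h2 hζ a b y).2,
    (gr_w0 h.deriv y).1, (gr_w0 h.deriv y).2, (gr_w1 h.deriv y).1, (gr_w1 h.deriv y).2]
  unfold bR b1 b2 b3 c3 Nd
  obtain ⟨c, hc⟩ : ∃ c, c = χ (sq y) := ⟨_, rfl⟩
  obtain ⟨o, ho⟩ : ∃ o, o = ω (sq y) := ⟨_, rfl⟩
  obtain ⟨z, hz⟩ : ∃ z, z = ζ (sq y) := ⟨_, rfl⟩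
  obtain ⟨z', hz'⟩ : ∃ z', z' = ζ' (sq y) := ⟨_, rfl⟩
  obtain ⟨f, hf⟩ : ∃ f, f = φ (sq y) := ⟨_, rfl⟩
  obtain ⟨g, hg⟩ : ∃ g, g = ψ (sq y) := ⟨_, rfl⟩
  rw [← hc, ← ho, ← hz, ← hz', ← hf, ← hg]
  unfold Pool.Agent.Neu.sq
  ring

theorem en_AwI (h : Prof K φ ψ) (h2 : Prof2 L χ ω) {ζ ζ' : ℝ → ℝ}
    (hζ : ∀ s, HasDerivAt ζ (ζ' s) s) (m a b : ℝ) (y : E) :
    en m (Af χ ζ a b 1) (w φ 0) y - en m (Af χ ζ a b 0) (w φ 1) y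
      = bI m a b φ ψ χ ω ζ ζ' y := by
  unfold en
  rw [(gr_A0 h2 hζ a b y).1, (gr_A0 h2 hζ a b y).2, (gr_A1 h2 hζ a b y).1, (gr_A1 h2 hζ a b y).2,
    (gr_w0 h.deriv y).1, (gr_w0 h.deriv y).2, (gr_w1 h.deriv y).1, (gr_w1 h.deriv y).2]
  unfold bI b1 b2 b3 s3 Nd
  obtain ⟨c, hc⟩ : ∃ c, c = χ (sq y) := ⟨_, rfl⟩
  obtain ⟨o, ho⟩ : ∃ o, o = ω (sq y) := ⟨_, rfl⟩
  obtain ⟨z, hz⟩ : ∃ z, z = ζ (sq y) := ⟨_, rfl⟩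
  obtain ⟨z', hz'⟩ : ∃ z', z' = ζ' (sq y) := ⟨_, rfl⟩
  obtain ⟨f, hf⟩ : ∃ f, f = φ (sq y) := ⟨_, rfl⟩
  obtain ⟨g, hg⟩ : ∃ g, g = ψ (sq y) := ⟨_, rfl⟩
  rw [← hc, ← ho, ← hz, ← hz', ← hf, ← hg]
  unfold Pool.Agent.Neu.sq
  ring

/-- `-2 X₃ ≤ t E(V) + E(Pζȳ)/t` -/
theorem eA_le (h2 : Prof2 L χ ω) {ζ ζ' : ℝ → ℝ} (hζ : ∀ s, HasDerivAt ζ (ζ' s) s)
    {m a b t : ℝ} (hm0 : 0 ≤ m) (hm1 : m ≤ 1) (ht : 0 < t) (y : E) :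
    eA m a b χ ω ζ ζ' y ≤ (1 + t) * eVm m χ ω y + (1 + 1 / t) * ((a ^ 2 + b ^ 2) * ew m ζ ζ' y) := by
  have h0 := gr_young4 (t := t) (p := (1 + m) / 2) (r := (1 - m) / 2) ht (by linarith)
    (by linarith)
    (2 * χ (sq y) * y 0 + 2 * ω (sq y) * y 0 * (y 0 ^ 2 - y 1 ^ 2))
    (2 * χ (sq y) * y 1 + 2 * ω (sq y) * y 0 * (2 * (y 0 * y 1)))
    (-(2 * χ (sq y) * y 1) + 2 * ω (sq y) * y 1 * (y 0 ^ 2 - y 1 ^ 2))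
    (2 * χ (sq y) * y 0 + 2 * ω (sq y) * y 1 * (2 * (y 0 * y 1)))
    (ζ (sq y) * a + 2 * ζ' (sq y) * y 0 * (a * y 0 + b * y 1))
    (ζ (sq y) * b + 2 * ζ' (sq y) * y 0 * (b * y 0 - a * y 1))
    (ζ (sq y) * b + 2 * ζ' (sq y) * y 1 * (a * y 0 + b * y 1))
    (-(ζ (sq y) * a) + 2 * ζ' (sq y) * y 1 * (b * y 0 - a * y 1))
  have e1 : eVm m χ ω y = (1 + m) / 2 * ((2 * χ (sq y) * y 0 + 2 * ω (sq y) * y 0 *
      (y 0 ^ 2 - y 1 ^ 2)) ^ 2 + (2 * χ (sq y) * y 1 + 2 * ω (sq y) * y 0 * (2 * (y 0 * y 1))) ^ 2) +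
      (1 - m) / 2 * ((-(2 * χ (sq y) * y 1) + 2 * ω (sq y) * y 1 * (y 0 ^ 2 - y 1 ^ 2)) ^ 2 +
      (2 * χ (sq y) * y 0 + 2 * ω (sq y) * y 1 * (2 * (y 0 * y 1))) ^ 2) := by
    unfold eVm eV N
    obtain ⟨c, hc⟩ : ∃ c, c = χ (sq y) := ⟨_, rfl⟩
    obtain ⟨o, ho⟩ : ∃ o, o = ω (sq y) := ⟨_, rfl⟩
    rw [← hc, ← ho]
    unfold Pool.Agent.Neu.sq
    ring
  have e2 : (a ^ 2 + b ^ 2) * ew m ζ ζ' y = (1 + m) / 2 * ((ζ (sq y) * a + 2 * ζ' (sq y) * y 0 *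
      (a * y 0 + b * y 1)) ^ 2 + (ζ (sq y) * b + 2 * ζ' (sq y) * y 0 * (b * y 0 - a * y 1)) ^ 2) +
      (1 - m) / 2 * ((ζ (sq y) * b + 2 * ζ' (sq y) * y 1 * (a * y 0 + b * y 1)) ^ 2 +
      (-(ζ (sq y) * a) + 2 * ζ' (sq y) * y 1 * (b * y 0 - a * y 1)) ^ 2) := by
    unfold ew eQ N
    obtain ⟨z, hz⟩ : ∃ z, z = ζ (sq y) := ⟨_, rfl⟩
    obtain ⟨z', hz'⟩ : ∃ z', z' = ζ' (sq y) := ⟨_, rfl⟩
    rw [← hz, ← hz']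
    unfold Pool.Agent.Neu.sq
    ring
  have e3 := en_AA h2 hζ m a b y
  unfold en at e3
  rw [(gr_A0 h2 hζ a b y).1, (gr_A0 h2 hζ a b y).2, (gr_A1 h2 hζ a b y).1,
    (gr_A1 h2 hζ a b y).2] at e3
  rw [← e3, e1, e2]
  refine le_trans (le_of_eq ?_) h0
  ring

/-- the same for `ζt = η + a₀ φ` -/
theorem ew_zt_le (h : Prof K φ ψ) {m t : ℝ} (hm0 : 0 ≤ m) (hm1 : m ≤ 1) (ht : 0 < t) (y : E) :
    ew m (zt K φ) (ztd K φ ψ) y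
      ≤ (1 + t) * ew m et etd y + (1 + 1 / t) * (a0 K φ ^ 2 * ew m φ ψ y) := by
  have h0 := gr_young4 (t := t) (p := (1 + m) / 2) (r := (1 - m) / 2) ht (by linarith)
    (by linarith)
    (et (sq y) + 2 * etd (sq y) * y 0 ^ 2) (2 * etd (sq y) * y 0 * y 1)
    (2 * etd (sq y) * y 0 * y 1) (et (sq y) + 2 * etd (sq y) * y 1 ^ 2)
    (-(a0 K φ * (φ (sq y) + 2 * ψ (sq y) * y 0 ^ 2))) (-(a0 K φ * (2 * ψ (sq y) * y 0 * y 1)))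
    (-(a0 K φ * (2 * ψ (sq y) * y 0 * y 1))) (-(a0 K φ * (φ (sq y) + 2 * ψ (sq y) * y 1 ^ 2)))
  have e1 : ∀ (ζ ζ' : ℝ → ℝ), ew m ζ ζ' y = (1 + m) / 2 * ((ζ (sq y) + 2 * ζ' (sq y) *
      y 0 ^ 2) ^ 2 + (2 * ζ' (sq y) * y 0 * y 1) ^ 2) + (1 - m) / 2 * ((2 * ζ' (sq y) *
      y 0 * y 1) ^ 2 + (ζ (sq y) + 2 * ζ' (sq y) * y 1 ^ 2) ^ 2) := by
    intro ζ ζ'
    unfold ew eQ N
    obtain ⟨z, hz⟩ : ∃ z, z = ζ (sq y) := ⟨_, rfl⟩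
    obtain ⟨z', hz'⟩ : ∃ z', z' = ζ' (sq y) := ⟨_, rfl⟩
    rw [← hz, ← hz']
    unfold Pool.Agent.Neu.sq
    ring
  have hh := h
  rw [e1, e1, e1]
  have e4 : zt K φ (sq y) = et (sq y) + a0 K φ * φ (sq y) := rfl
  have e5 : ztd K φ ψ (sq y) = etd (sq y) + a0 K φ * ψ (sq y) := rfl
  rw [e4, e5]
  refine le_trans (le_of_eq ?_) (h0.trans (le_of_eq ?_))
  · ring
  · ring

end Pool.Agent.FND
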