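import Pool.Agent.FND.Defs
import Pool.Agent.FND.EwB
import Pool.Agent.FND.Grad

/-!
FND-EAB: a priori bound for the energy of `A`.
-/

set_option autoImplicit false

open MeasureTheory Set
open Pool.Agent.Neu
open Pool.Agent.CS4 (Prof2 bb vv eV)

namespace Pool.Agent.FND

variable {K L : ℝ} {φ ψ χ ω : ℝ → ℝ}

private theorem eab_et_zero {s : ℝ} (hs : 1 ≤ s) : et s = 0 ∧ etd s = 0 := by
  unfold et etd
  rcases eq_or_lt_of_le hs with h | h
  · rw [← h]
    norm_num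
  · rw [if_neg (not_le.2 h), if_neg (not_le.2 h)]
    exact ⟨rfl, rfl⟩

private theorem eab_et {W : Set E} {a b : ℝ} (hW : WS φ χ W a b) {m : ℝ} (hm0 : 0 ≤ m)
    (hm1 : m ≤ 1) : ∫ y in W, ew m et etd y ≤ Real.pi * (3 / 20 + 23 / 252) := by
  have hc := cont_ew cont_et cont_etd m
  have e1 : (∫ y in W ∩ D, ew m et etd y) + ∫ y in W \ D, ew m et etd y
      = ∫ y in W, ew m et etd y :=
    integral_inter_add_sdiff M1x.measD (M1x.intOn hc hW.bdd)
  have e2 : ∫ y in W \ D, ew m et etd y = 0 := by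
    have e3 : ∫ y in W \ D, ew m et etd y = ∫ _y in W \ D, (0 : ℝ) := by
      refine setIntegral_congr_fun (hW.meas.diff M1x.measD) (fun y hy => ?_)
      have h3 : 1 ≤ sq y := by
        by_contra h4
        exact hy.2 (M1x.mem_D.2 (not_le.1 h4))
      obtain ⟨h4, h5⟩ := eab_et_zero h3
      show ew m et etd y = 0
      unfold ew eQ
      rw [h4, h5]
      ring
    rw [e3, integral_zero]
  have e4 : ∫ y in W ∩ D, ew m et etd y ≤ ∫ y in D, ew m et etd y :=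
    setIntegral_mono_set (M1x.intOn hc M1x.bdD)
      (Filter.Eventually.of_forall fun y => ew_nonneg hm0 hm1 et etd y)
      (Filter.Eventually.of_forall fun y hy => hy.2)
  rw [int_ew_et_disc m] at e4
  linarith

theorem EA_le {W : Set E} {a b : ℝ} (d : Dat K L φ ψ χ ω) (hW : WS φ χ W a b) {m : ℝ}
    (hm0 : 0 ≤ m) (hm1 : m ≤ 1) (hI : II m φ W ≤ 18 / 100) (hp : a ^ 2 + b ^ 2 ≤ (1075 / 1000) ^ 2) :
    ∫ y in W, eA m a b χ ω (zt K φ) (ztd K φ ψ) y ≤ 2139 / 100 := by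
  have cV := cont_eVm d.prof2 m
  have cZ := cont_ew (cont_zt d.prof) (cont_ztd d.prof) m
  have cE := cont_ew cont_et cont_etd m
  have cP := cont_ew (continuous_iff_continuousAt.2 fun s => (d.prof.deriv s).continuousAt)
    d.prof.cont m
  have cA := cont_eA d.prof2 (cont_zt d.prof) (cont_ztd d.prof) m a b
  have iV := M1x.intOn cV hW.bdd
  have iZ := M1x.intOn cZ hW.bdd
  have iE := M1x.intOn cE hW.bdd
  have iP := M1x.intOn cP hW.bdd
  have iA := M1x.intOn cA hW.bdd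
  have hV := EV_le d hW hm0 hm1
  have hP := Ew_le d hW hm0 hm1
  have hE := eab_et hW hm0 hm1
  have s1 : ∫ y in W, eA m a b χ ω (zt K φ) (ztd K φ ψ) y ≤
      (1 + 533 / 1000) * (∫ y in W, eVm m χ ω y) +
        (1 + 1 / (533 / 1000)) * ((a ^ 2 + b ^ 2) * ∫ y in W, ew m (zt K φ) (ztd K φ ψ) y) := by
    rw [← integral_const_mul, ← integral_const_mul, ← integral_const_mul, ← integral_add]
    · refine integral_mono iA ?_ (fun y => ?_)
      · exact (iV.const_mul _).add ((iZ.const_mul _).const_mul _)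
      · exact eA_le d.prof2 (deriv_zt d.prof) hm0 hm1 (by norm_num) y
    · exact iV.const_mul _
    · exact (iZ.const_mul _).const_mul _
  have s2 : ∫ y in W, ew m (zt K φ) (ztd K φ ψ) y ≤
      (1 + 719 / 1000) * (∫ y in W, ew m et etd y) +
        (1 + 1 / (719 / 1000)) * (a0 K φ ^ 2 * ∫ y in W, ew m φ ψ y) := by
    rw [← integral_const_mul, ← integral_const_mul, ← integral_const_mul, ← integral_add]
    · refine integral_mono iZ ?_ (fun y => ?_)
      · exact (iE.const_mul _).add ((iP.const_mul _).const_mul _)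
      · exact ew_zt_le d.prof hm0 hm1 (by norm_num) y
    · exact iE.const_mul _
    · exact (iP.const_mul _).const_mul _
  have z0 : 0 ≤ ∫ y in W, ew m (zt K φ) (ztd K φ ψ) y :=
    setIntegral_nonneg hW.meas (fun y _ => ew_nonneg hm0 hm1 _ _ y)
  obtain ⟨x1, x2⟩ := a0_bd d
  obtain ⟨m1, m2⟩ := mw_bd d
  obtain ⟨v1, v2⟩ := mV_bd d
  have k1 := d.enc.K_lo
  have k2 := d.enc.K_hi
  have l1 := d.enc.L_lo
  have l2 := d.enc.L_hi
  have hp1 := Real.pi_gt_d6
  have hp2 := Real.pi_lt_d6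
  norm_num at hp1 hp2
  obtain ⟨IA, hIA⟩ : ∃ z, z = ∫ y in W, eA m a b χ ω (zt K φ) (ztd K φ ψ) y := ⟨_, rfl⟩
  obtain ⟨IV, hIV⟩ : ∃ z, z = ∫ y in W, eVm m χ ω y := ⟨_, rfl⟩
  obtain ⟨IZ, hIZ⟩ : ∃ z, z = ∫ y in W, ew m (zt K φ) (ztd K φ ψ) y := ⟨_, rfl⟩
  obtain ⟨IE, hIE⟩ : ∃ z, z = ∫ y in W, ew m et etd y := ⟨_, rfl⟩
  obtain ⟨IP, hIP⟩ : ∃ z, z = ∫ y in W, ew m φ ψ y := ⟨_, rfl⟩
  rw [← hIA, ← hIV, ← hIZ] at s1
  rw [← hIZ, ← hIE, ← hIP] at s2
  rw [← hIV] at hV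
  rw [← hIP] at hP
  rw [← hIE] at hE
  rw [← hIZ] at z0
  rw [← hIA]
  have q1 : L * mV L ≤ 93284 / 10000 * (17945 / 10000) :=
    mul_le_mul l2.le v2.le (by linarith) (by norm_num)
  have q2 : K * mw K ≤ 339 / 100 * (22149 / 10000) :=
    mul_le_mul k2.le m2.le (by linarith) (by norm_num)
  have q3 : IV ≤ 909 / 100 := by linarith
  have q4 : IP ≤ 339 / 100 * (22149 / 10000) / 2 := by linarith
  have q5 : a0 K φ ^ 2 ≤ (3232 / 10000) ^ 2 := pow_le_pow_left₀ (by linarith) x2.le 2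
  have q6 : a0 K φ ^ 2 * IP ≤ (3232 / 10000) ^ 2 * (339 / 100 * (22149 / 10000) / 2) :=
    (mul_le_mul_of_nonneg_left q4 (_root_.sq_nonneg _)).trans
      (mul_le_mul_of_nonneg_right q5 (by norm_num))
  have q7 : IE ≤ 3141593 / 1000000 * (3 / 20 + 23 / 252) := by linarith
  have q8 : IZ ≤ 22406 / 10000 := by
    norm_num at s2 q6 q7 ⊢
    linarith
  have q9 : (a ^ 2 + b ^ 2) * IZ ≤ (1075 / 1000) ^ 2 * (22406 / 10000) :=
    mul_le_mul hp q8 z0 (by norm_num)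
  norm_num at s1 q9 ⊢
  linarith

end Pool.Agent.FND
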