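import Pool.Agent.FND.Defs
import Pool.Agent.FND.Base
import Pool.Agent.FND.Cst

/-!
FND-MassP: pointwise inequality for the mass.

Plan.  nr = |A|² - (1 + a0²p) + 2 a0 φχ R3; with A = V - P ζ ȳ, |V|² = (sχ)², |A|² = s²χ² - 2 χζ R3 + s ζ² p
(ring, R3 = Re(P̄ y³)), ζ = et + a0 φ.  So nr = (s²χ² - 1) - 2 χ et R3 + p (sζ² - a0²), |R3| <= P r³.
nr <= -(1 - s²χ²) + 2 P χ et r³ + p (s ζ² - a0²), and the junk terms with jE, jD, jM explicit.
The claim is univariate after m = m1 in -GI >= ((1-m1)u + m1 X)/2, P <= P1 (all terms increasing in P except a0² p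
sign: s ζ² - a0² may be negative near s = 0; use p (sζ² - a0²) <= P1² max(0, .)).  Slack/u >= .0043 in all cells.
With Enc everything is polynomial in u (times √s <= 1 - u/2 - u²/8 - u³/16).
-/

set_option autoImplicit false

open MeasureTheory Set
open Pool.Agent.Neu
open Pool.Agent.CS4 (Prof2 bb vv eV)

namespace Pool.Agent.FND

variable {K L : ℝ} {φ ψ χ ω : ℝ → ℝ}

private noncomputable def pU (u : ℝ) : ℝ := 1 + u / 2 + u ^ 2 * (763 / 10000 + 59 / 10000 * u)
private noncomputable def pL (u : ℝ) : ℝ := 1 + u / 2 + u ^ 2 * (761 / 10000 + 59 / 10000 * u)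
private noncomputable def cU (u : ℝ) : ℝ :=
  1 + u + u ^ 2 * (3341 / 10000 + 563 / 10000 * u + 65 / 10000 * u ^ 2)
private noncomputable def cL (u : ℝ) : ℝ :=
  1 + u + u ^ 2 * (3339 / 10000 + 563 / 10000 * u + 65 / 10000 * u ^ 2)
private noncomputable def eT (u : ℝ) : ℝ := u ^ 3 * (2 - u)
private noncomputable def qU (u : ℝ) : ℝ := 1 - u / 2 - u ^ 2 / 8 - u ^ 3 / 16 - 5 / 128 * u ^ 4
private noncomputable def xL (u : ℝ) : ℝ := 1 - (1 - u) * pU u ^ 2
private noncomputable def xU (u : ℝ) : ℝ := 1 - (1 - u) * pL u ^ 2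
private noncomputable def base (m1 P1 u : ℝ) : ℝ :=
  1 / 100 * ((1 - m1) * u + m1 * xL u) + 1 - (1 - u) ^ 2 * cU u ^ 2
    - 2 * P1 * (cU u * eT u * ((1 - u) * qU u))
    - (31 / 100 * (qU u * pU u * (1 - (1 - u) * cL u) + P1 * ((1 - u) * eT u * pU u)))
      / (22148 / 10000)
    - 16 / 100 * ((1 - u) * (pU u ^ 2 - cL u) + P1 * (qU u * eT u)) / (3141592 / 1000000)
private noncomputable def gP (u : ℝ) : ℝ :=
  (1 - u) * eT u ^ 2 + 2 * (3232 / 10000) * ((1 - u) * eT u * pU u) - (3231 / 10000) ^ 2 * xL u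
    + 117 / 1000 * ((1 - u) * eT u * pU u - 3231 / 10000 * xL u) / (22148 / 10000)
private noncomputable def gM (u : ℝ) : ℝ :=
  (1 - u) * eT u ^ 2 + 2 * (3232 / 10000) * ((1 - u) * eT u * pU u) - (3231 / 10000) ^ 2 * xL u
    + 117 / 1000 * (3232 / 10000 * xU u - (1 - u) * eT u * pL u) / (22148 / 10000)

private theorem kAz0 {x y : ℝ} (hx : 0 ≤ x) (hy : 0 ≤ y) :
    0 ≤ 3 / 400 * y ^ 12 +
      5768886072804081 / 4348748726000000 * x ^ 1 * y ^ 11 +
      86158862648612617 / 8697497452000000 * x ^ 2 * y ^ 10 +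
      2795355944182391955453 / 86974974520000000000 * x ^ 3 * y ^ 9 +
      2638986104519633649141 / 43487487260000000000 * x ^ 4 * y ^ 8 +
      7263640789308486101087 / 86974974520000000000 * x ^ 5 * y ^ 7 +
      4792926990465928921759 / 43487487260000000000 * x ^ 6 * y ^ 6 +
      20242543718453515666787 / 139159959232000000000 * x ^ 7 * y ^ 5 +
      53081733669211145962977 / 347899898080000000000 * x ^ 8 * y ^ 4 +
      18626418118666362106289 / 173949949040000000000 * x ^ 9 * y ^ 3 +
      31714255108257186340471 / 695799796160000000000 * x ^ 10 * y ^ 2 +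
      3611350208943367763457 / 347899898080000000000 * x ^ 11 * y ^ 1 +
      7430942669809 / 7951997670400 * x ^ 12 := by
  positivity

private theorem kAz {u : ℝ} (h0 : 0 ≤ u) (h1 : u ≤ 1) :
    0 ≤ base (1 / 4) (43 / 40) u := by
  have hx : 0 ≤ u := by linarith
  have hy : 0 ≤ 1 - u := by linarith
  have e := mul_nonneg h0 (kAz0 hx hy)
  refine e.trans_eq ?_
  simp only [base, xL, pU, cU, cL, eT, qU]
  ring

private theorem kAp0 {x y : ℝ} (hx : 0 ≤ x) (hy : 0 ≤ y) :
    0 ≤ 125829120000000000 / 2213314919066161 * y ^ 12 +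
      3270416300378305687937336672256 / 601571902157860047403805375 * x ^ 1 * y ^ 11 +
      3969738399499087402911101325312 / 85938843165408578200543625 * x ^ 2 * y ^ 10 +
      1694886538926320344293652729745673696 / 9399560971216563240684458984375 * x ^ 3 * y ^ 9 +
      778169462276692868309841719642571828 / 1879912194243312648136891796875 * x ^ 4 * y ^ 8 +
      41159243548341979089786550108566906847 / 67139721222975451719174707031250 * x ^ 5 * y ^ 7 +
      11408889499431043166120220262839223592947 / 18799121942433126481368917968750000 * x ^ 6 * y ^ 6 +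
      3778761683411692441278269173869808917661 / 9399560971216563240684458984375000 * x ^ 7 * y ^ 5 +
      649068633949428331880070414056828928751 / 3759824388486625296273783593750000 * x ^ 8 * y ^ 4 +
      333993981633439406522965253567331327231 / 7519648776973250592547567187500000 * x ^ 9 * y ^ 3 +
      696963206440238613018482340265099059821 / 120314380431572009480761075000000000 * x ^ 10 * y ^ 2 +
      1495857233277051261573212899687048061117 / 4812575217262880379230443000000000000 * x ^ 11 * y ^ 1 +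
      325881821886535826601466745388507881219 / 9625150434525760758460886000000000000 * x ^ 12 := by
  positivity

private theorem kAp1 {x y : ℝ} (hx : 0 ≤ x) (hy : 0 ≤ y) :
    0 ≤ 325881821886535826601466745388507881219 / 31988645518818405542169366000000000000 * y ^ 12 +
      821028690420184594584465754382699687879 / 5331440919803067590361561000000000000 * x ^ 1 * y ^ 11 +
      60323446913415462916539648529090641193 / 22214337165846114959839837500000000 * x ^ 2 * y ^ 10 +
      1124453525808647598642096089681556241427 / 49982258623153758659639634375000000 * x ^ 3 * y ^ 9 +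
      139131842190284687122542168976852061659 / 1388396072865382184989989843750000 * x ^ 4 * y ^ 8 +
      35304946384622558051370583547139773527 / 128555191931979831943517578125000 * x ^ 5 * y ^ 7 +
      1480372893692317691878544983062076241927 / 2975134441854390396407121093750000 * x ^ 6 * y ^ 6 +
      107020631240876460978074227194702087503 / 173549509108172773123748730468750 * x ^ 7 * y ^ 5 +
      609736508911346308071253867848537884 / 1156996727387818487491658203125 * x ^ 8 * y ^ 4 +
      9552330253076369571029462895926145056 / 31238911639471099162274771484375 * x ^ 9 * y ^ 3 +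
      239507651039937496667253861680218112 / 2082594109298073277484984765625 * x ^ 10 * y ^ 2 +
      3506100389328096777971782643359744 / 138839607286538218498998984375 * x ^ 11 * y ^ 1 +
      39210081647623138443998003200 / 15994322759409202771084683 * x ^ 12 := by
  positivity

private theorem kAp {u : ℝ} (h0 : 0 ≤ u) (h1 : u ≤ 1) :
    0 ≤ base (1 / 4) (43 / 40) u - (43 / 40) ^ 2 * gP u := by
  rcases le_total u (19 / 40) with h2 | h2
  · have hx : 0 ≤ u := by linarith
    have hy : 0 ≤ 19 / 40 - u := by linarith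
    have e := mul_nonneg h0 (kAp0 hx hy)
    refine e.trans_eq ?_
    simp only [base, gP, gM, xL, xU, pU, pL, cU, cL, eT, qU]
    ring
  · have hx : 0 ≤ u - 19 / 40 := by linarith
    have hy : 0 ≤ 1 - u := by linarith
    have e := mul_nonneg h0 (kAp1 hx hy)
    refine e.trans_eq ?_
    simp only [base, gP, gM, xL, xU, pU, pL, cU, cL, eT, qU]
    ring

private theorem kAm0 {x y : ℝ} (hx : 0 ≤ x) (hy : 0 ≤ y) :
    0 ≤ 9765625 / 2834352 * y ^ 12 +
      31071275170425623290289 / 77911764695138304000 * x ^ 1 * y ^ 11 +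
      13651022207675691240023569 / 4207235293537468416000 * x ^ 2 * y ^ 10 +
      762641429443916562156909193997 / 64396458574553088000000000 * x ^ 3 * y ^ 9 +
      36241669810660893022476539993 / 1460845588033843200000000 * x ^ 4 * y ^ 8 +
      40532266402904844007887941835577 / 1252153361171865600000000000 * x ^ 5 * y ^ 7 +
      249994991268610432831016240023273 / 9391150208788992000000000000 * x ^ 6 * y ^ 6 +
      191230654575352174112130111499933 / 14608455880338432000000000000 * x ^ 7 * y ^ 5 +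
      7073286914124542377149185344723 / 2191268382050764800000000000 * x ^ 8 * y ^ 4 +
      20384151922422718857285209147009 / 78885661753827532800000000000 * x ^ 9 * y ^ 3 +
      36977439200530696397404495013 / 208692226861977600000000000 * x ^ 10 * y ^ 2 +
      39707762666495267348621779861 / 256789263521574000000000000 * x ^ 11 * y ^ 1 +
      50855359341718826572555990531 / 1540735581129444000000000000 * x ^ 12 := by
  positivity

private theorem kAm1 {x y : ℝ} (hx : 0 ≤ x) (hy : 0 ≤ y) :
    0 ≤ 152566078025156479717667971593 / 35624949563392000000000000 * y ^ 12 +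
      321853551063148298271237259191 / 4453118695424000000000000 * x ^ 1 * y ^ 11 +
      125431913718058366981574103810651 / 227999677205708800000000000 * x ^ 2 * y ^ 10 +
      565161795009245067428175738762249 / 227999677205708800000000000 * x ^ 3 * y ^ 9 +
      26186824805668725206897569234317 / 3562494956339200000000000 * x ^ 4 * y ^ 8 +
      2155121287906761809471995335854557 / 142499798253568000000000000 * x ^ 5 * y ^ 7 +
      1805113806176824933070846562109069 / 81428456144896000000000000 * x ^ 6 * y ^ 6 +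
      2662984005371429199706961896677529 / 113999838602854400000000000 * x ^ 7 * y ^ 5 +
      409110910931791689614095130347 / 23265273184256000000000 * x ^ 8 * y ^ 4 +
      2630828556457401690275935152129 / 284999596507136000000000 * x ^ 9 * y ^ 3 +
      836270537955883505628160613869 / 260571059663667200000000 * x ^ 10 * y ^ 2 +
      242100035016366634211549835053 / 364799483529134080000000 * x ^ 11 * y ^ 1 +
      9005251887799360687675 / 145919793411653632 * x ^ 12 := by
  positivity

private theorem kAm {u : ℝ} (h0 : 0 ≤ u) (h1 : u ≤ 1) :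
    0 ≤ base (1 / 4) (43 / 40) u - (43 / 40) ^ 2 * gM u := by
  rcases le_total u (3 / 5) with h2 | h2
  · have hx : 0 ≤ u := by linarith
    have hy : 0 ≤ 3 / 5 - u := by linarith
    have e := mul_nonneg h0 (kAm0 hx hy)
    refine e.trans_eq ?_
    simp only [base, gP, gM, xL, xU, pU, pL, cU, cL, eT, qU]
    ring
  · have hx : 0 ≤ u - 3 / 5 := by linarith
    have hy : 0 ≤ 1 - u := by linarith
    have e := mul_nonneg h0 (kAm1 hx hy)
    refine e.trans_eq ?_
    simp only [base, gP, gM, xL, xU, pU, pL, cU, cL, eT, qU]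
    ring

private theorem kBz0 {x y : ℝ} (hx : 0 ≤ x) (hy : 0 ≤ y) :
    0 ≤ 3 / 500 * y ^ 12 +
      1779532971709203 / 1358983976875000 * x ^ 1 * y ^ 11 +
      55534821322343567 / 5435935907500000 * x ^ 2 * y ^ 10 +
      1927179529869790444653 / 54359359075000000000 * x ^ 3 * y ^ 9 +
      4037054300629337577007 / 54359359075000000000 * x ^ 4 * y ^ 8 +
      6236149231303993610787 / 54359359075000000000 * x ^ 5 * y ^ 7 +
      33714339178855318041447 / 217437436300000000000 * x ^ 6 * y ^ 6 +
      130261821392257457700471 / 695799796160000000000 * x ^ 7 * y ^ 5 +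
      308955927572244161204841 / 1739499490400000000000 * x ^ 8 * y ^ 4 +
      3160995665720955283341 / 27179679537500000000 * x ^ 9 * y ^ 3 +
      165052458850987480675943 / 3478998980800000000000 * x ^ 10 * y ^ 2 +
      18328443141672047279531 / 1739499490400000000000 * x ^ 11 * y ^ 1 +
      7441020009809 / 7951997670400 * x ^ 12 := by
  positivity

private theorem kBz {u : ℝ} (h0 : 0 ≤ u) (h1 : u ≤ 1) :
    0 ≤ base (2 / 5) (123 / 125) u := by
  have hx : 0 ≤ u := by linarith
  have hy : 0 ≤ 1 - u := by linarith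
  have e := mul_nonneg h0 (kBz0 hx hy)
  refine e.trans_eq ?_
  simp only [base, xL, pU, cU, cL, eT, qU]
  ring

private theorem kBp0 {x y : ℝ} (hx : 0 ≤ x) (hy : 0 ≤ y) :
    0 ≤ 3 / 500 * y ^ 12 +
      23437654372906460036804889 / 16987299710937500000000000 * x ^ 1 * y ^ 11 +
      46943203696453073546601839 / 4853514203125000000000000 * x ^ 2 * y ^ 10 +
      9346098256175768306263261516557 / 339745994218750000000000000000 * x ^ 3 * y ^ 9 +
      6641041769413907353002419940929 / 169872997109375000000000000000 * x ^ 4 * y ^ 8 +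
      1298509061167602485021981950329 / 48535142031250000000000000000 * x ^ 5 * y ^ 7 +
      479843592942097022593719675249 / 42468249277343750000000000000 * x ^ 6 * y ^ 6 +
      1956508262397686095735015216041 / 67949198843750000000000000000 * x ^ 7 * y ^ 5 +
      10632329946832349036787391813311 / 169872997109375000000000000000 * x ^ 8 * y ^ 4 +
      22040602922552911855688347244433 / 339745994218750000000000000000 * x ^ 9 * y ^ 3 +
      6001293567962649970559216339689 / 169872997109375000000000000000 * x ^ 10 * y ^ 2 +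
      206642760287247469266671002897 / 21234124638671875000000000000 * x ^ 11 * y ^ 1 +
      14314835643971455068563 / 13589839768750000000000 * x ^ 12 := by
  positivity

private theorem kBp {u : ℝ} (h0 : 0 ≤ u) (h1 : u ≤ 1) :
    0 ≤ base (2 / 5) (123 / 125) u - (123 / 125) ^ 2 * gP u := by
  have hx : 0 ≤ u := by linarith
  have hy : 0 ≤ 1 - u := by linarith
  have e := mul_nonneg h0 (kBp0 hx hy)
  refine e.trans_eq ?_
  simp only [base, gP, gM, xL, xU, pU, pL, cU, cL, eT, qU]
  ring

private theorem kBm0 {x y : ℝ} (hx : 0 ≤ x) (hy : 0 ≤ y) :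
    0 ≤ 3 / 500 * y ^ 12 +
      23102063098623575658929889 / 16987299710937500000000000 * x ^ 1 * y ^ 11 +
      327817443282817104545537873 / 33974599421875000000000000 * x ^ 2 * y ^ 10 +
      1366626021131004121278932991651 / 48535142031250000000000000000 * x ^ 3 * y ^ 9 +
      7249113534518106368423234265929 / 169872997109375000000000000000 * x ^ 4 * y ^ 8 +
      1738749709934078294119950475329 / 48535142031250000000000000000 * x ^ 5 * y ^ 7 +
      150214312140274445133032528607 / 6066892753906250000000000000 * x ^ 6 * y ^ 6 +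
      2795572398739357835804268991041 / 67949198843750000000000000000 * x ^ 7 * y ^ 5 +
      11780357741851182259591947838311 / 169872997109375000000000000000 * x ^ 8 * y ^ 4 +
      22643377123917902591071174769433 / 339745994218750000000000000000 * x ^ 9 * y ^ 3 +
      5983330181234729848932344489689 / 169872997109375000000000000000 * x ^ 10 * y ^ 2 +
      202711039415940864269400109147 / 21234124638671875000000000000 * x ^ 11 * y ^ 1 +
      13865583626695630968563 / 13589839768750000000000 * x ^ 12 := by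
  positivity

private theorem kBm {u : ℝ} (h0 : 0 ≤ u) (h1 : u ≤ 1) :
    0 ≤ base (2 / 5) (123 / 125) u - (123 / 125) ^ 2 * gM u := by
  have hx : 0 ≤ u := by linarith
  have hy : 0 ≤ 1 - u := by linarith
  have e := mul_nonneg h0 (kBm0 hx hy)
  refine e.trans_eq ?_
  simp only [base, gP, gM, xL, xU, pU, pL, cU, cL, eT, qU]
  ring

private theorem kCz0 {x y : ℝ} (hx : 0 ≤ x) (hy : 0 ≤ y) :
    0 ≤ 427 / 100000 * y ^ 12 +
      1402179981605877013 / 1087187181500000000 * x ^ 1 * y ^ 11 +
      23697012232885381141 / 2174374363000000000 * x ^ 2 * y ^ 10 +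
      917443908938364889172169 / 21743743630000000000000 * x ^ 3 * y ^ 9 +
      1102934886028621002908693 / 10871871815000000000000 * x ^ 4 * y ^ 8 +
      3843899155552001017284451 / 21743743630000000000000 * x ^ 5 * y ^ 7 +
      1326124781556886859232641 / 5435935907500000000000 * x ^ 6 * y ^ 6 +
      4694114302620314020461563 / 17394994904000000000000 * x ^ 7 * y ^ 5 +
      9877122215027786770702673 / 43487487260000000000000 * x ^ 8 * y ^ 4 +
      208943517150183330201199 / 1553124545000000000000 * x ^ 9 * y ^ 3 +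
      635245562736773737729397 / 12424996360000000000000 * x ^ 10 * y ^ 2 +
      67378793921588120500999 / 6212498180000000000000 * x ^ 11 * y ^ 1 +
      7460842469809 / 7951997670400 * x ^ 12 := by
  positivity

private theorem kCz {u : ℝ} (h0 : 0 ≤ u) (h1 : u ≤ 1) :
    0 ≤ base (573 / 1000) (161 / 200) u := by
  have hx : 0 ≤ u := by linarith
  have hy : 0 ≤ 1 - u := by linarith
  have e := mul_nonneg h0 (kCz0 hx hy)
  refine e.trans_eq ?_
  simp only [base, xL, pU, cU, cL, eT, qU]
  ring

private theorem kCp0 {x y : ℝ} (hx : 0 ≤ x) (hy : 0 ≤ y) :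
    0 ≤ 427 / 100000 * y ^ 12 +
      58132047701288435902148161 / 43487487260000000000000000 * x ^ 1 * y ^ 11 +
      916200625098176719267900977 / 86974974520000000000000000 * x ^ 2 * y ^ 10 +
      32073860805109739465530749723093 / 869749745200000000000000000000 * x ^ 3 * y ^ 9 +
      33880660003198649494342338310121 / 434874872600000000000000000000 * x ^ 4 * y ^ 8 +
      102550693052520608686104865315047 / 869749745200000000000000000000 * x ^ 5 * y ^ 7 +
      16062623785531694429581195972301 / 108718718150000000000000000000 * x ^ 6 * y ^ 6 +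
      28498198640550644589629613015659 / 173949949040000000000000000000 * x ^ 7 * y ^ 5 +
      65294175511854727338459378667389 / 434874872600000000000000000000 * x ^ 8 * y ^ 4 +
      12439043123958265789747014741631 / 124249963600000000000000000000 * x ^ 9 * y ^ 3 +
      1336265296036699772513889407249 / 31062490900000000000000000000 * x ^ 10 * y ^ 2 +
      320159006131282762876802442091 / 31062490900000000000000000000 * x ^ 11 * y ^ 1 +
      1263554160277705290229 / 1242499636000000000000 * x ^ 12 := by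
  positivity

private theorem kCp {u : ℝ} (h0 : 0 ≤ u) (h1 : u ≤ 1) :
    0 ≤ base (573 / 1000) (161 / 200) u - (161 / 200) ^ 2 * gP u := by
  have hx : 0 ≤ u := by linarith
  have hy : 0 ≤ 1 - u := by linarith
  have e := mul_nonneg h0 (kCp0 hx hy)
  refine e.trans_eq ?_
  simp only [base, gP, gM, xL, xU, pU, pL, cU, cL, eT, qU]
  ring

private theorem kCm0 {x y : ℝ} (hx : 0 ≤ x) (hy : 0 ≤ y) :
    0 ≤ 427 / 100000 * y ^ 12 +
      57557068428323491361273161 / 43487487260000000000000000 * x ^ 1 * y ^ 11 +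
      914855689294328568769825977 / 86974974520000000000000000 * x ^ 2 * y ^ 10 +
      32451280248418961127705946548093 / 869749745200000000000000000000 * x ^ 3 * y ^ 9 +
      34922488823561260551168495235121 / 434874872600000000000000000000 * x ^ 4 * y ^ 8 +
      107830641826182498839677414390047 / 869749745200000000000000000000 * x ^ 5 * y ^ 7 +
      17042061324183573623407724197301 / 108718718150000000000000000000 * x ^ 6 * y ^ 6 +
      29935794084936425088957732990659 / 173949949040000000000000000000 * x ^ 7 * y ^ 5 +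
      67261128283001741415286458892389 / 434874872600000000000000000000 * x ^ 8 * y ^ 4 +
      12586579171790545563236512416631 / 124249963600000000000000000000 * x ^ 9 * y ^ 3 +
      1334066921357160866757252932249 / 31062490900000000000000000000 * x ^ 10 * y ^ 2 +
      316309667143524587635902417091 / 31062490900000000000000000000 * x ^ 11 * y ^ 1 +
      1236064236621608115229 / 1242499636000000000000 * x ^ 12 := by
  positivity

private theorem kCm {u : ℝ} (h0 : 0 ≤ u) (h1 : u ≤ 1) :
    0 ≤ base (573 / 1000) (161 / 200) u - (161 / 200) ^ 2 * gM u := by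
  have hx : 0 ≤ u := by linarith
  have hy : 0 ≤ 1 - u := by linarith
  have e := mul_nonneg h0 (kCm0 hx hy)
  refine e.trans_eq ?_
  simp only [base, gP, gM, xL, xU, pU, pL, cU, cL, eT, qU]
  ring

private theorem m_core {u f x a q P m1 P1 R m G : ℝ} (h0 : 0 ≤ u) (h1 : u ≤ 1)
    (fL : pL u ≤ f) (fU : f ≤ pU u) (hxL : cL u ≤ x) (hxU : x ≤ cU u)
    (aL : 3231 / 10000 ≤ a) (aU : a ≤ 3232 / 10000) (q0 : 0 ≤ q) (hq : q ≤ qU u)
    (P0 : 0 ≤ P) (hP : P ≤ P1) (hR : |R| ≤ P * ((1 - u) * q)) (hX0 : (1 - u) * f ^ 2 ≤ 1)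
    (hsx : (1 - u) * x ≤ 1) (M1 : 0 ≤ m1) (hm : m ≤ m1)
    (hG : ((1 - m) * u + m * (1 - (1 - u) * f ^ 2)) / 2 ≤ G)
    (kz : 0 ≤ base m1 P1 u) (kp : 0 ≤ base m1 P1 u - P1 ^ 2 * gP u)
    (km : 0 ≤ base m1 P1 u - P1 ^ 2 * gM u) :
    (1 - u) ^ 2 * x ^ 2 - 1 - 2 * (x * eT u * R)
        + P ^ 2 * ((1 - u) * (eT u + a * f) ^ 2 - a ^ 2)
      + (P ^ 2 * (117 / 1000) * |(1 - u) * eT u * f - a * (1 - (1 - u) * f ^ 2)|
        + 31 / 100 * (q * f * (1 - (1 - u) * x) + P * ((1 - u) * eT u * f))) / (22148 / 10000)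
      + 16 / 100 * ((1 - u) * |x - f ^ 2| + P * (q * eT u)) / Real.pi ≤ 2 / 100 * G := by
  have hs : 0 ≤ 1 - u := by linarith
  have he : 0 ≤ eT u := by
    unfold eT
    have : 0 ≤ 2 - u := by linarith
    positivity
  have hpL : 1 ≤ pL u := by
    unfold pL
    have : 0 ≤ u ^ 2 * (761 / 10000 + 59 / 10000 * u) := by positivity
    linarith
  have hcL : 1 ≤ cL u := by
    unfold cL
    have : 0 ≤ u ^ 2 * (3339 / 10000 + 563 / 10000 * u + 65 / 10000 * u ^ 2) := by positivity
    linarith
  have f1 : 1 ≤ f := hpL.trans fL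
  have x1 : 1 ≤ x := hcL.trans hxL
  have P10 : 0 ≤ P1 := P0.trans hP
  have hpU0 : 0 ≤ pU u := by linarith
  have hcU0 : 0 ≤ cU u := by linarith
  have hqU0 : 0 ≤ qU u := q0.trans hq
  set s : ℝ := 1 - u with hsdef
  set e : ℝ := eT u with hedef
  have ff : f ^ 2 ≤ pU u ^ 2 := pow_le_pow_left₀ (by linarith) fU 2
  have ff' : pL u ^ 2 ≤ f ^ 2 := pow_le_pow_left₀ (by linarith) fL 2
  set X : ℝ := 1 - s * f ^ 2 with hX
  have X0 : 0 ≤ X := by rw [hX]; linarith
  have XL : xL u ≤ X := by
    rw [hX]
    unfold xL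
    have := mul_le_mul_of_nonneg_left ff hs
    linarith
  have XU : X ≤ xU u := by
    rw [hX]
    unfold xU
    have := mul_le_mul_of_nonneg_left ff' hs
    linarith
  have Xu : X ≤ u := by
    rw [hX]
    have : s * 1 ≤ s * f ^ 2 := mul_le_mul_of_nonneg_left (by nlinarith) hs
    linarith
  -- first term
  have t1 : s ^ 2 * x ^ 2 ≤ s ^ 2 * cU u ^ 2 :=
    mul_le_mul_of_nonneg_left (pow_le_pow_left₀ (by linarith) hxU 2) (by positivity)
  -- second term
  have t2 : -(2 * (x * e * R)) ≤ 2 * P1 * (cU u * e * (s * qU u)) := by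
    have a1 : -(x * e * R) ≤ x * e * |R| := by
      rw [← mul_neg]
      exact mul_le_mul_of_nonneg_left (neg_le_abs R) (by positivity)
    have a2 : x * e * |R| ≤ cU u * e * (P1 * (s * qU u)) := by
      apply mul_le_mul (mul_le_mul_of_nonneg_right hxU he) _ (abs_nonneg R) (by positivity)
      exact hR.trans (mul_le_mul hP (mul_le_mul_of_nonneg_left hq hs) (by positivity) P10)
    linarith
  -- third term
  have t3 : s * (e + a * f) ^ 2 - a ^ 2 + 117 / 1000 * |s * e * f - a * X| / (22148 / 10000)
      ≤ max (gP u) (gM u) := by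
    have b0 : s * (e + a * f) ^ 2 - a ^ 2 = s * e ^ 2 + 2 * a * (s * e * f) - a ^ 2 * X := by
      rw [hX]
      ring
    have b1 : 2 * a * (s * e * f) ≤ 2 * (3232 / 10000) * (s * e * pU u) := by
      apply mul_le_mul (by linarith) _ (by positivity) (by positivity)
      exact mul_le_mul_of_nonneg_left fU (by positivity)
    have b2 : (3231 / 10000) ^ 2 * xL u ≤ a ^ 2 * X := by
      have c1 : (3231 / 10000 : ℝ) ^ 2 * xL u ≤ (3231 / 10000) ^ 2 * X :=
        mul_le_mul_of_nonneg_left XL (by norm_num)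
      have c2 : (3231 / 10000 : ℝ) ^ 2 * X ≤ a ^ 2 * X :=
        mul_le_mul_of_nonneg_right (pow_le_pow_left₀ (by norm_num) aL 2) X0
      linarith
    rcases le_total 0 (s * e * f - a * X) with hJ | hJ
    · refine le_max_of_le_left ?_
      rw [abs_of_nonneg hJ, b0]
      have b3 : s * e * f ≤ s * e * pU u := mul_le_mul_of_nonneg_left fU (by positivity)
      have b4 : 3231 / 10000 * xL u ≤ a * X := by
        have c1 : (3231 / 10000 : ℝ) * xL u ≤ (3231 / 10000) * X :=
          mul_le_mul_of_nonneg_left XL (by norm_num)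
        have c2 : (3231 / 10000 : ℝ) * X ≤ a * X := mul_le_mul_of_nonneg_right aL X0
        linarith
      unfold gP
      rw [← hsdef, ← hedef]
      have b5 : 117 / 1000 * (s * e * f - a * X) / (22148 / 10000) ≤
          117 / 1000 * (s * e * pU u - 3231 / 10000 * xL u) / (22148 / 10000) := by
        apply div_le_div_of_nonneg_right _ (by norm_num)
        apply mul_le_mul_of_nonneg_left _ (by norm_num)
        linarith
      linarith
    · refine le_max_of_le_right ?_
      rw [abs_of_nonpos hJ, b0]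
      have b3 : s * e * pL u ≤ s * e * f := mul_le_mul_of_nonneg_left fL (by positivity)
      have b4 : a * X ≤ 3232 / 10000 * xU u := mul_le_mul aU XU X0 (by norm_num)
      unfold gM
      rw [← hsdef, ← hedef]
      have b5 : 117 / 1000 * -(s * e * f - a * X) / (22148 / 10000) ≤
          117 / 1000 * (3232 / 10000 * xU u - s * e * pL u) / (22148 / 10000) := by
        apply div_le_div_of_nonneg_right _ (by norm_num)
        apply mul_le_mul_of_nonneg_left _ (by norm_num)
        linarith
      linarith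
  have t3' : P ^ 2 * (s * (e + a * f) ^ 2 - a ^ 2 + 117 / 1000 * |s * e * f - a * X|
      / (22148 / 10000)) ≤ base m1 P1 u := by
    have P2 : P ^ 2 ≤ P1 ^ 2 := pow_le_pow_left₀ P0 hP 2
    refine (mul_le_mul_of_nonneg_left t3 (sq_nonneg P)).trans ?_
    rcases le_total (max (gP u) (gM u)) 0 with h | h
    · have := mul_nonpos_of_nonneg_of_nonpos (sq_nonneg P) h
      linarith
    · refine (mul_le_mul_of_nonneg_right P2 h).trans ?_
      rcases max_choice (gP u) (gM u) with h' | h' <;> rw [h'] <;> linarith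
  -- fourth term
  have t5 : 31 / 100 * (q * f * (1 - s * x) + P * (s * e * f)) / (22148 / 10000)
      ≤ (31 / 100 * (qU u * pU u * (1 - s * cL u) + P1 * (s * e * pU u))) / (22148 / 10000) := by
    apply div_le_div_of_nonneg_right _ (by norm_num)
    apply mul_le_mul_of_nonneg_left _ (by norm_num)
    apply add_le_add
    · apply mul_le_mul (mul_le_mul hq fU (by linarith) hqU0) _ (by linarith) (by positivity)
      have := mul_le_mul_of_nonneg_left hxL hs
      linarith
    · exact mul_le_mul hP (mul_le_mul_of_nonneg_left fU (by positivity)) (by positivity) P10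
  have t6 : 16 / 100 * (s * |x - f ^ 2| + P * (q * e)) / Real.pi
      ≤ 16 / 100 * (s * (pU u ^ 2 - cL u) + P1 * (qU u * e)) / (3141592 / 1000000) := by
    have hpi : (3141592 / 1000000 : ℝ) ≤ Real.pi := by
      have := Real.pi_gt_d6
      norm_num at this ⊢
      linarith
    have c1 : |x - f ^ 2| ≤ pU u ^ 2 - cL u := by
      rw [abs_le]
      constructor
      · linarith
      · have c2 : cU u + cL u ≤ pU u ^ 2 + pL u ^ 2 := by
          unfold cU cL pU pL
          have c3 : (0 : ℝ) ≤ u ^ 2 * (1345 / 10000 + 635 / 10000 * u) := by positivity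
          have c4 : (0 : ℝ) ≤ u ^ 4 := by positivity
          have c5 : (0 : ℝ) ≤ u ^ 5 := by positivity
          have c6 : (0 : ℝ) ≤ u ^ 6 := by positivity
          nlinarith
        linarith
    have c0 : 0 ≤ 16 / 100 * (s * |x - f ^ 2| + P * (q * e)) := by positivity
    have c3 : 16 / 100 * (s * |x - f ^ 2| + P * (q * e))
        ≤ 16 / 100 * (s * (pU u ^ 2 - cL u) + P1 * (qU u * e)) := by
      apply mul_le_mul_of_nonneg_left _ (by norm_num)
      apply add_le_add
      · exact mul_le_mul_of_nonneg_left c1 hs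
      · exact mul_le_mul hP (mul_le_mul_of_nonneg_right hq he) (by positivity) P10
    exact div_le_div₀ (c0.trans c3) c3 (by norm_num) hpi
  have t7 : 1 / 100 * ((1 - m1) * u + m1 * xL u) ≤ 2 / 100 * G := by
    have d1 : (1 - m1) * u + m1 * X ≤ (1 - m) * u + m * X := by nlinarith
    have d2 : m1 * xL u ≤ m1 * X := by
      exact mul_le_mul_of_nonneg_left XL M1
    linarith
  have t8 : base m1 P1 u = 1 / 100 * ((1 - m1) * u + m1 * xL u) + 1 - s ^ 2 * cU u ^ 2
    - 2 * P1 * (cU u * e * (s * qU u))
    - (31 / 100 * (qU u * pU u * (1 - s * cL u) + P1 * (s * e * pU u))) / (22148 / 10000)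
    - 16 / 100 * (s * (pU u ^ 2 - cL u) + P1 * (qU u * e)) / (3141592 / 1000000) := rfl
  have t9 : (P ^ 2 * (117 / 1000) * |s * e * f - a * X|
        + 31 / 100 * (q * f * (1 - s * x) + P * (s * e * f))) / (22148 / 10000)
      = P ^ 2 * (117 / 1000 * |s * e * f - a * X| / (22148 / 10000))
        + 31 / 100 * (q * f * (1 - s * x) + P * (s * e * f)) / (22148 / 10000) := by
    ring
  rw [t8] at t3'
  rw [t9]
  rw [mul_add] at t3'
  linarith

theorem mass_pt (d : Dat K L φ ψ χ ω) {c : Cell} (hc : IsCell c) {m a b : ℝ} (hm0 : 0 ≤ m)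
    (hm1 : m ≤ c.m1) (hp : a ^ 2 + b ^ 2 ≤ c.P1 ^ 2) {y : E} (hy : sq y ≤ 1) :
    nr K φ χ a b y + ((a ^ 2 + b ^ 2) * (117 / 1000) * jE K φ y
        + 31 / 100 * jD φ χ √(a ^ 2 + b ^ 2) y) / (22148 / 10000)
      + 16 / 100 * jM φ χ √(a ^ 2 + b ^ 2) y / Real.pi ≤ 2 / 100 * (-GI m φ y) := by
  have s0 : 0 ≤ sq y := by
    unfold Neu.sq
    positivity
  have hmem : sq y ∈ Icc (0 : ℝ) 1 := ⟨s0, hy⟩
  have hu0 : 0 ≤ 1 - sq y := by linarith
  have hu1 : 1 - sq y ≤ 1 := by linarith
  have ephi := abs_le.1 (d.enc.phi _ hmem)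
  have echi := abs_le.1 (d.enc.chi _ hmem)
  have fL : pL (1 - sq y) ≤ φ (sq y) := by
    unfold pL
    linarith [ephi.1]
  have fU : φ (sq y) ≤ pU (1 - sq y) := by
    unfold pU
    linarith [ephi.2]
  have xL' : cL (1 - sq y) ≤ χ (sq y) := by
    unfold cL
    linarith [echi.1]
  have xU' : χ (sq y) ≤ cU (1 - sq y) := by
    unfold cU
    linarith [echi.2]
  obtain ⟨a1, a2⟩ := a0_bd d
  have hq : √(sq y) ≤ qU (1 - sq y) := by
    have e0 : 0 ≤ qU (1 - sq y) := by
      have h1 : (1 - sq y) ^ 2 ≤ 1 := pow_le_one₀ hu0 hu1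
      have h2 : (1 - sq y) ^ 3 ≤ 1 := pow_le_one₀ hu0 hu1
      have h3 : (1 - sq y) ^ 4 ≤ 1 := pow_le_one₀ hu0 hu1
      unfold qU
      linarith
    refine Real.sqrt_le_iff.2 ⟨e0, ?_⟩
    have e1 : qU (1 - sq y) ^ 2 = sq y + (1 - sq y) ^ 5 * (7 / 128 + 7 / 512 * (1 - sq y)
        + 5 / 1024 * (1 - sq y) ^ 2 + 25 / 16384 * (1 - sq y) ^ 3) := by
      unfold qU
      ring
    rw [e1]
    have h8 : 0 ≤ (1 - sq y) ^ 5 * (7 / 128 + 7 / 512 * (1 - sq y)
        + 5 / 1024 * (1 - sq y) ^ 2 + 25 / 16384 * (1 - sq y) ^ 3) := by positivity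
    linarith
  have hp0 : 0 ≤ a ^ 2 + b ^ 2 := by positivity
  have hPs : √(a ^ 2 + b ^ 2) ^ 2 = a ^ 2 + b ^ 2 := Real.sq_sqrt hp0
  have hqs : √(sq y) ^ 2 = sq y := Real.sq_sqrt s0
  have hR : |R3 a b y| ≤ √(a ^ 2 + b ^ 2) * ((1 - (1 - sq y)) * √(sq y)) := by
    rw [sub_sub_cancel]
    refine abs_le_of_sq_le_sq ?_ (by positivity)
    have e1 : (√(a ^ 2 + b ^ 2) * (sq y * √(sq y))) ^ 2 = (a ^ 2 + b ^ 2) * sq y ^ 3 := by
      rw [mul_pow, mul_pow, hPs, hqs]
      ring
    rw [e1]
    have e2 : (a ^ 2 + b ^ 2) * sq y ^ 3 - R3 a b y ^ 2 = (a * s3 y - b * c3 y) ^ 2 := by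
      unfold R3 c3 s3 Neu.sq
      ring
    nlinarith [sq_nonneg (a * s3 y - b * c3 y)]
  have het : et (sq y) = eT (1 - sq y) := by
    unfold et eT
    rw [if_pos hy]
    ring
  have hg : (1 - (1 - sq y)) * φ (sq y) ^ 2 ≤ 1 := by
    rw [sub_sub_cancel]
    exact d.prof.g_le hmem
  have hsx : (1 - (1 - sq y)) * χ (sq y) ≤ 1 := by
    rw [sub_sub_cancel]
    have := d.prof2.le _ hmem
    nlinarith [sq_nonneg (1 - sq y)]
  have main : ∀ m1 P1 : ℝ, m ≤ m1 → m1 ≤ 1 → a ^ 2 + b ^ 2 ≤ P1 ^ 2 → 0 ≤ P1 →
      0 ≤ base m1 P1 (1 - sq y) → 0 ≤ base m1 P1 (1 - sq y) - P1 ^ 2 * gP (1 - sq y) →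
      0 ≤ base m1 P1 (1 - sq y) - P1 ^ 2 * gM (1 - sq y) →
      nr K φ χ a b y + ((a ^ 2 + b ^ 2) * (117 / 1000) * jE K φ y
        + 31 / 100 * jD φ χ √(a ^ 2 + b ^ 2) y) / (22148 / 10000)
      + 16 / 100 * jM φ χ √(a ^ 2 + b ^ 2) y / Real.pi ≤ 2 / 100 * (-GI m φ y) := by
    intro m1 P1 hm hm1' hp1 hP1 kz kp km
    have hP : √(a ^ 2 + b ^ 2) ≤ P1 := Real.sqrt_le_iff.2 ⟨hP1, hp1⟩
    have hG := (GI_in d.prof hm0 (hm.trans hm1') hy).2.2
    have hG' : ((1 - m) * (1 - sq y) + m * (1 - (1 - (1 - sq y)) * φ (sq y) ^ 2)) / 2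
        ≤ -GI m φ y := by
      rw [sub_sub_cancel]
      exact hG
    have key := m_core hu0 hu1 fL fU xL' xU' a1.le a2.le (Real.sqrt_nonneg (sq y)) hq
      (Real.sqrt_nonneg (a ^ 2 + b ^ 2)) hP hR hg hsx (hm0.trans hm) hm hG' kz kp km
    rw [sub_sub_cancel, ← het, hPs] at key
    refine le_trans (le_of_eq ?_) key
    unfold jE jD jM
    congr 2
    unfold nr Af vv bb pb R3 c3 s3 zt
    simp only [if_true, Fin.isValue, one_ne_zero, if_false]
    generalize χ (sq y) = x
    generalize φ (sq y) = f
    generalize et (sq y) = e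
    generalize a0 K φ = a'
    unfold Neu.sq
    ring
  rcases hc with rfl | rfl | rfl
  · have hm' : m ≤ 1 / 4 := hm1
    have hp' : a ^ 2 + b ^ 2 ≤ (43 / 40) ^ 2 := by
      have : (43 / 40 : ℝ) = 1075 / 1000 := by norm_num
      rw [this]
      exact hp
    exact main (1 / 4) (43 / 40) hm' (by norm_num) hp' (by norm_num) (kAz hu0 hu1) (kAp hu0 hu1)
      (kAm hu0 hu1)
  · have hm' : m ≤ 2 / 5 := by
      have : (2 / 5 : ℝ) = 4 / 10 := by norm_num
      rw [this]
      exact hm1
    have hp' : a ^ 2 + b ^ 2 ≤ (123 / 125) ^ 2 := by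
      have : (123 / 125 : ℝ) = 984 / 1000 := by norm_num
      rw [this]
      exact hp
    exact main (2 / 5) (123 / 125) hm' (by norm_num) hp' (by norm_num) (kBz hu0 hu1) (kBp hu0 hu1)
      (kBm hu0 hu1)
  · have hm' : m ≤ 573 / 1000 := hm1
    have hp' : a ^ 2 + b ^ 2 ≤ (161 / 200) ^ 2 := by
      have : (161 / 200 : ℝ) = 805 / 1000 := by norm_num
      rw [this]
      exact hp
    exact main (573 / 1000) (161 / 200) hm' (by norm_num) hp' (by norm_num) (kCz hu0 hu1)
      (kCp hu0 hu1) (kCm hu0 hu1)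

end Pool.Agent.FND
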