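import Pool.Agent.FND.Defs
import Pool.Agent.FND.Base
import Pool.Agent.FND.Cst

/-!
FND-SupP: pointwise bounds for the junk densities.
-/

set_option autoImplicit false

open MeasureTheory Set
open Pool.Agent.Neu
open Pool.Agent.CS4 (Prof2 bb vv eV)

namespace Pool.Agent.FND

variable {K L : ℝ} {φ ψ χ ω : ℝ → ℝ}

/-- auxiliary polynomials -/
private noncomputable def pA (u : ℝ) : ℝ := 763 / 10000 + 59 / 10000 * u
private noncomputable def pB (u : ℝ) : ℝ := 3339 / 10000 + 563 / 10000 * u + 65 / 10000 * u ^ 2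
private noncomputable def pf (u : ℝ) : ℝ := 1 + u / 2 + u ^ 2 * pA u
private noncomputable def pY (u : ℝ) : ℝ :=
  3 / 4 - 2 * pA u + u * (1 / 4 + pA u) + u ^ 2 * (pA u - pA u ^ 2) + u ^ 3 * pA u ^ 2
private noncomputable def pZ (u : ℝ) : ℝ :=
  1 / 4 + 2 * pA u + u * pA u + u ^ 2 * pA u ^ 2 - pB u

private theorem sp_E_0 {u x y : ℝ} (hx : 0 ≤ x) (hy : 0 ≤ y) (ex : x = u - 0)
    (ey : y = 1 / 4 - u) :
    u * (1 - u) * (2 - u) * pf u ≤
      6481 / 10000 * pY u := by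
  have e : (6481 / 10000 * pY u) - u * (1 - u) * (2 - u) * pf u =
      619479904 / 390625 * y ^ 6 + 2998410404 / 390625 * x * y ^ 5 +
      59048035382711 / 3906250000 * x ^ 2 * y ^ 4 +
      241342741040311 / 15625000000 * x ^ 3 * y ^ 3 +
      537924033493469 / 62500000000 * x ^ 4 * y ^ 2 + 619068717107201 / 250000000000 * x ^ 5 * y +
      72296220284797 / 250000000000 * x ^ 6 := by
    unfold pY pf pA
    rw [ex, ey]
    ring
  have p : 0 ≤ 619479904 / 390625 * y ^ 6 + 2998410404 / 390625 * x * y ^ 5 +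
      59048035382711 / 3906250000 * x ^ 2 * y ^ 4 +
      241342741040311 / 15625000000 * x ^ 3 * y ^ 3 +
      537924033493469 / 62500000000 * x ^ 4 * y ^ 2 + 619068717107201 / 250000000000 * x ^ 5 * y +
      72296220284797 / 250000000000 * x ^ 6 := by
    positivity
  linarith

private theorem sp_E_1 {u x y : ℝ} (hx : 0 ≤ x) (hy : 0 ≤ y) (ex : x = u - 1 / 4)
    (ey : y = 1 / 2 - u) :
    u * (1 - u) * (2 - u) * pf u ≤
      6481 / 10000 * pY u := by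
  have e : (6481 / 10000 * pY u) - u * (1 - u) * (2 - u) * pf u =
      72296220284797 / 250000000000 * y ^ 6 + 248485926310363 / 250000000000 * x * y ^ 5 +
      149391089994843 / 125000000000 * x ^ 2 * y ^ 4 +
      19591472053189 / 31250000000 * x ^ 3 * y ^ 3 + 2389807492871 / 7812500000 * x ^ 4 * y ^ 2 +
      864516661791 / 3125000000 * x ^ 5 * y + 33531650791 / 312500000 * x ^ 6 := by
    unfold pY pf pA
    rw [ex, ey]
    ring
  have p : 0 ≤ 72296220284797 / 250000000000 * y ^ 6 + 248485926310363 / 250000000000 * x * y ^ 5 +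
      149391089994843 / 125000000000 * x ^ 2 * y ^ 4 +
      19591472053189 / 31250000000 * x ^ 3 * y ^ 3 + 2389807492871 / 7812500000 * x ^ 4 * y ^ 2 +
      864516661791 / 3125000000 * x ^ 5 * y + 33531650791 / 312500000 * x ^ 6 := by
    positivity
  linarith

private theorem sp_E_2 {u x y : ℝ} (hx : 0 ≤ x) (hy : 0 ≤ y) (ex : x = u - 1 / 2)
    (ey : y = 1 - u) :
    u * (1 - u) * (2 - u) * pf u ≤
      6481 / 10000 * pY u := by
  have e : (6481 / 10000 * pY u) - u * (1 - u) * (2 - u) * pf u =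
      33531650791 / 20000000000 * y ^ 6 + 2153331909399 / 100000000000 * x * y ^ 5 +
      3618112609799 / 31250000000 * x ^ 2 * y ^ 4 + 6958630171199 / 25000000000 * x ^ 3 * y ^ 3 +
      5136544089261 / 15625000000 * x ^ 4 * y ^ 2 + 1467193607999 / 7812500000 * x ^ 5 * y +
      25924 / 625 * x ^ 6 := by
    unfold pY pf pA
    rw [ex, ey]
    ring
  have p : 0 ≤ 33531650791 / 20000000000 * y ^ 6 + 2153331909399 / 100000000000 * x * y ^ 5 +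
      3618112609799 / 31250000000 * x ^ 2 * y ^ 4 + 6958630171199 / 25000000000 * x ^ 3 * y ^ 3 +
      5136544089261 / 15625000000 * x ^ 4 * y ^ 2 + 1467193607999 / 7812500000 * x ^ 5 * y +
      25924 / 625 * x ^ 6 := by
    positivity
  linarith

private theorem sp_E {u : ℝ} (h0 : 0 ≤ u) (h1 : u ≤ 1) :
    u * (1 - u) * (2 - u) * pf u ≤
      6481 / 10000 * pY u := by
  by_cases g0 : u ≤ 1 / 4
  · exact sp_E_0 (x := u - 0) (y := 1 / 4 - u) (by linarith) (by linarith) rfl rfl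
  rw [not_le] at g0
  by_cases g1 : u ≤ 1 / 2
  · exact sp_E_1 (x := u - 1 / 4) (y := 1 / 2 - u) (by linarith) (by linarith) rfl rfl
  rw [not_le] at g1
  exact sp_E_2 (x := u - 1 / 2) (y := 1 - u) (by linarith) (by linarith) rfl rfl

private theorem sp_DA_0 {u x y : ℝ} (hx : 0 ≤ x) (hy : 0 ≤ y) (ex : x = u - 0)
    (ey : y = 1 / 2 - u) :
    18 / 100 * (u * pf u * ((5 / 4 - u) * (1 - (1 - u) * pB u) + 1075 / 1000 * ((1 - u) * u * (2 - u)))) ≤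
      155 / 1000 * ((1 - 1 / 4) + 1 / 4 * (u * pY u)) := by
  have e : (155 / 1000 * ((1 - 1 / 4) + 1 / 4 * (u * pY u))) - 18 / 100 * (u * pf u * ((5 / 4 - u) * (1 - (1 - u) * pB u) + 1075 / 1000 * ((1 - u) * u * (2 - u)))) =
      744 / 25 * y ^ 8 + 6933107 / 31250 * x * y ^ 7 + 17365701 / 25000 * x ^ 2 * y ^ 6 +
      2973881351021 / 2500000000 * x ^ 3 * y ^ 5 + 6058951510127 / 5000000000 * x ^ 4 * y ^ 4 +
      7453048411407 / 10000000000 * x ^ 5 * y ^ 3 + 5340112252277 / 20000000000 * x ^ 6 * y ^ 2 +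
      503254636249 / 10000000000 * x ^ 7 * y + 15433285751 / 4000000000 * x ^ 8 := by
    unfold pY pf pB pA
    rw [ex, ey]
    ring
  have p : 0 ≤ 744 / 25 * y ^ 8 + 6933107 / 31250 * x * y ^ 7 + 17365701 / 25000 * x ^ 2 * y ^ 6 +
      2973881351021 / 2500000000 * x ^ 3 * y ^ 5 + 6058951510127 / 5000000000 * x ^ 4 * y ^ 4 +
      7453048411407 / 10000000000 * x ^ 5 * y ^ 3 + 5340112252277 / 20000000000 * x ^ 6 * y ^ 2 +
      503254636249 / 10000000000 * x ^ 7 * y + 15433285751 / 4000000000 * x ^ 8 := by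
    positivity
  linarith

private theorem sp_DA_1 {u x y : ℝ} (hx : 0 ≤ x) (hy : 0 ≤ y) (ex : x = u - 1 / 2)
    (ey : y = 3 / 4 - u) :
    18 / 100 * (u * pf u * ((5 / 4 - u) * (1 - (1 - u) * pB u) + 1075 / 1000 * ((1 - u) * u * (2 - u)))) ≤
      155 / 1000 * ((1 - 1 / 4) + 1 / 4 * (u * pY u)) := by
  have e : (155 / 1000 * ((1 - 1 / 4) + 1 / 4 * (u * pY u))) - 18 / 100 * (u * pf u * ((5 / 4 - u) * (1 - (1 - u) * pB u) + 1075 / 1000 * ((1 - u) * u * (2 - u)))) =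
      15433285751 / 15625000 * y ^ 8 + 422742508811 / 78125000 * x * y ^ 7 +
      3649357576079 / 312500000 * x ^ 2 * y ^ 6 + 766131149361 / 62500000 * x ^ 3 * y ^ 5 +
      7941896285933 / 1250000000 * x ^ 4 * y ^ 4 + 2888749410229 / 1250000000 * x ^ 5 * y ^ 3 +
      11001200260461 / 5000000000 * x ^ 6 * y ^ 2 + 1682832739471 / 1000000000 * x ^ 7 * y +
      2218015823793 / 5000000000 * x ^ 8 := by
    unfold pY pf pB pA
    rw [ex, ey]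
    ring
  have p : 0 ≤ 15433285751 / 15625000 * y ^ 8 + 422742508811 / 78125000 * x * y ^ 7 +
      3649357576079 / 312500000 * x ^ 2 * y ^ 6 + 766131149361 / 62500000 * x ^ 3 * y ^ 5 +
      7941896285933 / 1250000000 * x ^ 4 * y ^ 4 + 2888749410229 / 1250000000 * x ^ 5 * y ^ 3 +
      11001200260461 / 5000000000 * x ^ 6 * y ^ 2 + 1682832739471 / 1000000000 * x ^ 7 * y +
      2218015823793 / 5000000000 * x ^ 8 := by
    positivity
  linarith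

private theorem sp_DA_2 {u x y : ℝ} (hx : 0 ≤ x) (hy : 0 ≤ y) (ex : x = u - 3 / 4)
    (ey : y = 1 - u) :
    18 / 100 * (u * pf u * ((5 / 4 - u) * (1 - (1 - u) * pB u) + 1075 / 1000 * ((1 - u) * u * (2 - u)))) ≤
      155 / 1000 * ((1 - 1 / 4) + 1 / 4 * (u * pY u)) := by
  have e : (155 / 1000 * ((1 - 1 / 4) + 1 / 4 * (u * pY u))) - 18 / 100 * (u * pf u * ((5 / 4 - u) * (1 - (1 - u) * pB u) + 1075 / 1000 * ((1 - u) * u * (2 - u)))) =
      2218015823793 / 5000000000 * y ^ 8 + 27074089483333 / 5000000000 * x * y ^ 7 +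
      141620680762307 / 5000000000 * x ^ 2 * y ^ 6 + 20367037198303 / 250000000 * x ^ 3 * y ^ 5 +
      44031344484437 / 312500000 * x ^ 4 * y ^ 4 + 11774922046193 / 78125000 * x ^ 5 * y ^ 3 +
      955709796534 / 9765625 * x ^ 6 * y ^ 2 + 69185035704 / 1953125 * x ^ 7 * y +
      85812224 / 15625 * x ^ 8 := by
    unfold pY pf pB pA
    rw [ex, ey]
    ring
  have p : 0 ≤ 2218015823793 / 5000000000 * y ^ 8 + 27074089483333 / 5000000000 * x * y ^ 7 +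
      141620680762307 / 5000000000 * x ^ 2 * y ^ 6 + 20367037198303 / 250000000 * x ^ 3 * y ^ 5 +
      44031344484437 / 312500000 * x ^ 4 * y ^ 4 + 11774922046193 / 78125000 * x ^ 5 * y ^ 3 +
      955709796534 / 9765625 * x ^ 6 * y ^ 2 + 69185035704 / 1953125 * x ^ 7 * y +
      85812224 / 15625 * x ^ 8 := by
    positivity
  linarith

private theorem sp_DA {u : ℝ} (h0 : 0 ≤ u) (h1 : u ≤ 1) :
    18 / 100 * (u * pf u * ((5 / 4 - u) * (1 - (1 - u) * pB u) + 1075 / 1000 * ((1 - u) * u * (2 - u)))) ≤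
      155 / 1000 * ((1 - 1 / 4) + 1 / 4 * (u * pY u)) := by
  by_cases g0 : u ≤ 1 / 2
  · exact sp_DA_0 (x := u - 0) (y := 1 / 2 - u) (by linarith) (by linarith) rfl rfl
  rw [not_le] at g0
  by_cases g1 : u ≤ 3 / 4
  · exact sp_DA_1 (x := u - 1 / 2) (y := 3 / 4 - u) (by linarith) (by linarith) rfl rfl
  rw [not_le] at g1
  exact sp_DA_2 (x := u - 3 / 4) (y := 1 - u) (by linarith) (by linarith) rfl rfl

private theorem sp_MA_0 {u x y : ℝ} (hx : 0 ≤ x) (hy : 0 ≤ y) (ex : x = u - 0)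
    (ey : y = 1 / 2 - u) :
    18 / 100 * ((1 - u) * u * pZ u + 1075 / 1000 * ((5 / 4 - u) * (u ^ 2 * (2 - u)))) ≤
      8 / 100 * ((1 - 1 / 4) + 1 / 4 * (u * pY u)) := by
  have e : (8 / 100 * ((1 - 1 / 4) + 1 / 4 * (u * pY u))) - 18 / 100 * ((1 - u) * u * pZ u + 1075 / 1000 * ((5 / 4 - u) * (u ^ 2 * (2 - u)))) =
      96 / 25 * y ^ 6 + 359791 / 15625 * x * y ^ 5 + 1562501 / 31250 * x ^ 2 * y ^ 4 +
      3225961331 / 62500000 * x ^ 3 * y ^ 3 + 3342771121 / 125000000 * x ^ 4 * y ^ 2 +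
      327277413 / 50000000 * x ^ 5 * y + 12107191 / 20000000 * x ^ 6 := by
    unfold pZ pY pB pA
    rw [ex, ey]
    ring
  have p : 0 ≤ 96 / 25 * y ^ 6 + 359791 / 15625 * x * y ^ 5 + 1562501 / 31250 * x ^ 2 * y ^ 4 +
      3225961331 / 62500000 * x ^ 3 * y ^ 3 + 3342771121 / 125000000 * x ^ 4 * y ^ 2 +
      327277413 / 50000000 * x ^ 5 * y + 12107191 / 20000000 * x ^ 6 := by
    positivity
  linarith

private theorem sp_MA_1 {u x y : ℝ} (hx : 0 ≤ x) (hy : 0 ≤ y) (ex : x = u - 1 / 2)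
    (ey : y = 5 / 8 - u) :
    18 / 100 * ((1 - u) * u * pZ u + 1075 / 1000 * ((5 / 4 - u) * (u ^ 2 * (2 - u)))) ≤
      8 / 100 * ((1 - 1 / 4) + 1 / 4 * (u * pY u)) := by
  have e : (8 / 100 * ((1 - 1 / 4) + 1 / 4 * (u * pY u))) - 18 / 100 * ((1 - u) * u * pZ u + 1075 / 1000 * ((5 / 4 - u) * (u ^ 2 * (2 - u)))) =
      193715056 / 78125 * y ^ 6 + 4646095296 / 390625 * x * y ^ 5 +
      45056646859 / 1953125 * x ^ 2 * y ^ 4 + 45029976008 / 1953125 * x ^ 3 * y ^ 3 +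
      78040511401 / 6250000 * x ^ 4 * y ^ 2 + 1090697291 / 312500 * x ^ 5 * y +
      1618181117 / 4000000 * x ^ 6 := by
    unfold pZ pY pB pA
    rw [ex, ey]
    ring
  have p : 0 ≤ 193715056 / 78125 * y ^ 6 + 4646095296 / 390625 * x * y ^ 5 +
      45056646859 / 1953125 * x ^ 2 * y ^ 4 + 45029976008 / 1953125 * x ^ 3 * y ^ 3 +
      78040511401 / 6250000 * x ^ 4 * y ^ 2 + 1090697291 / 312500 * x ^ 5 * y +
      1618181117 / 4000000 * x ^ 6 := by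
    positivity
  linarith

private theorem sp_MA_2 {u x y : ℝ} (hx : 0 ≤ x) (hy : 0 ≤ y) (ex : x = u - 5 / 8)
    (ey : y = 3 / 4 - u) :
    18 / 100 * ((1 - u) * u * pZ u + 1075 / 1000 * ((5 / 4 - u) * (u ^ 2 * (2 - u)))) ≤
      8 / 100 * ((1 - 1 / 4) + 1 / 4 * (u * pY u)) := by
  have e : (8 / 100 * ((1 - 1 / 4) + 1 / 4 * (u * pY u))) - 18 / 100 * ((1 - u) * u * pZ u + 1075 / 1000 * ((5 / 4 - u) * (u ^ 2 * (2 - u)))) =
      1618181117 / 4000000 * y ^ 6 + 6821560099 / 5000000 * x * y ^ 5 +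
      46422131679 / 25000000 * x ^ 2 * y ^ 4 + 30539036081 / 15625000 * x ^ 3 * y ^ 3 +
      71401287471 / 31250000 * x ^ 4 * y ^ 2 + 2717877671 / 1562500 * x ^ 5 * y +
      3999846093 / 7812500 * x ^ 6 := by
    unfold pZ pY pB pA
    rw [ex, ey]
    ring
  have p : 0 ≤ 1618181117 / 4000000 * y ^ 6 + 6821560099 / 5000000 * x * y ^ 5 +
      46422131679 / 25000000 * x ^ 2 * y ^ 4 + 30539036081 / 15625000 * x ^ 3 * y ^ 3 +
      71401287471 / 31250000 * x ^ 4 * y ^ 2 + 2717877671 / 1562500 * x ^ 5 * y +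
      3999846093 / 7812500 * x ^ 6 := by
    positivity
  linarith

private theorem sp_MA_3 {u x y : ℝ} (hx : 0 ≤ x) (hy : 0 ≤ y) (ex : x = u - 3 / 4)
    (ey : y = 1 - u) :
    18 / 100 * ((1 - u) * u * pZ u + 1075 / 1000 * ((5 / 4 - u) * (u ^ 2 * (2 - u)))) ≤
      8 / 100 * ((1 - 1 / 4) + 1 / 4 * (u * pY u)) := by
  have e : (8 / 100 * ((1 - 1 / 4) + 1 / 4 * (u * pY u))) - 18 / 100 * ((1 - u) * u * pZ u + 1075 / 1000 * ((5 / 4 - u) * (u ^ 2 * (2 - u)))) =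
      3999846093 / 500000000 * y ^ 6 + 11204613241 / 125000000 * x * y ^ 5 +
      12731178711 / 31250000 * x ^ 2 * y ^ 4 + 7007598307 / 7812500 * x ^ 3 * y ^ 3 +
      1991867868 / 1953125 * x ^ 4 * y ^ 2 + 1129219264 / 1953125 * x ^ 5 * y +
      16192 / 125 * x ^ 6 := by
    unfold pZ pY pB pA
    rw [ex, ey]
    ring
  have p : 0 ≤ 3999846093 / 500000000 * y ^ 6 + 11204613241 / 125000000 * x * y ^ 5 +
      12731178711 / 31250000 * x ^ 2 * y ^ 4 + 7007598307 / 7812500 * x ^ 3 * y ^ 3 +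
      1991867868 / 1953125 * x ^ 4 * y ^ 2 + 1129219264 / 1953125 * x ^ 5 * y +
      16192 / 125 * x ^ 6 := by
    positivity
  linarith

private theorem sp_MA {u : ℝ} (h0 : 0 ≤ u) (h1 : u ≤ 1) :
    18 / 100 * ((1 - u) * u * pZ u + 1075 / 1000 * ((5 / 4 - u) * (u ^ 2 * (2 - u)))) ≤
      8 / 100 * ((1 - 1 / 4) + 1 / 4 * (u * pY u)) := by
  by_cases g0 : u ≤ 1 / 2
  · exact sp_MA_0 (x := u - 0) (y := 1 / 2 - u) (by linarith) (by linarith) rfl rfl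
  rw [not_le] at g0
  by_cases g1 : u ≤ 5 / 8
  · exact sp_MA_1 (x := u - 1 / 2) (y := 5 / 8 - u) (by linarith) (by linarith) rfl rfl
  rw [not_le] at g1
  by_cases g2 : u ≤ 3 / 4
  · exact sp_MA_2 (x := u - 5 / 8) (y := 3 / 4 - u) (by linarith) (by linarith) rfl rfl
  rw [not_le] at g2
  exact sp_MA_3 (x := u - 3 / 4) (y := 1 - u) (by linarith) (by linarith) rfl rfl

private theorem sp_DB_0 {u x y : ℝ} (hx : 0 ≤ x) (hy : 0 ≤ y) (ex : x = u - 0)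
    (ey : y = 1 - u) :
    1484 / 10000 * (u * pf u * ((5 / 4 - u) * (1 - (1 - u) * pB u) + 984 / 1000 * ((1 - u) * u * (2 - u)))) ≤
      155 / 1000 * ((1 - 4 / 10) + 4 / 10 * (u * pY u)) := by
  have e : (155 / 1000 * ((1 - 4 / 10) + 4 / 10 * (u * pY u))) - 1484 / 10000 * (u * pf u * ((5 / 4 - u) * (1 - (1 - u) * pB u) + 984 / 1000 * ((1 - u) * u * (2 - u)))) =
      93 / 1000 * y ^ 8 + 2629909 / 4000000 * x * y ^ 7 + 342272443 / 200000000 * x ^ 2 * y ^ 6 +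
      402429021791 / 200000000000 * x ^ 3 * y ^ 5 + 484221978771 / 500000000000 * x ^ 4 * y ^ 4 +
      8836436141 / 62500000000 * x ^ 5 * y ^ 3 + 260113096663 / 1000000000000 * x ^ 6 * y ^ 2 +
      159104310427 / 500000000000 * x ^ 7 * y + 4815019 / 50000000 * x ^ 8 := by
    unfold pY pf pB pA
    rw [ex, ey]
    ring
  have p : 0 ≤ 93 / 1000 * y ^ 8 + 2629909 / 4000000 * x * y ^ 7 + 342272443 / 200000000 * x ^ 2 * y ^ 6 +
      402429021791 / 200000000000 * x ^ 3 * y ^ 5 + 484221978771 / 500000000000 * x ^ 4 * y ^ 4 +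
      8836436141 / 62500000000 * x ^ 5 * y ^ 3 + 260113096663 / 1000000000000 * x ^ 6 * y ^ 2 +
      159104310427 / 500000000000 * x ^ 7 * y + 4815019 / 50000000 * x ^ 8 := by
    positivity
  linarith

private theorem sp_DB {u : ℝ} (h0 : 0 ≤ u) (h1 : u ≤ 1) :
    1484 / 10000 * (u * pf u * ((5 / 4 - u) * (1 - (1 - u) * pB u) + 984 / 1000 * ((1 - u) * u * (2 - u)))) ≤
      155 / 1000 * ((1 - 4 / 10) + 4 / 10 * (u * pY u)) := by
  exact sp_DB_0 (x := u - 0) (y := 1 - u) (by linarith) (by linarith) rfl rfl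

private theorem sp_MB_0 {u x y : ℝ} (hx : 0 ≤ x) (hy : 0 ≤ y) (ex : x = u - 0)
    (ey : y = 1 - u) :
    1484 / 10000 * ((1 - u) * u * pZ u + 984 / 1000 * ((5 / 4 - u) * (u ^ 2 * (2 - u)))) ≤
      8 / 100 * ((1 - 4 / 10) + 4 / 10 * (u * pY u)) := by
  have e : (8 / 100 * ((1 - 4 / 10) + 4 / 10 * (u * pY u))) - 1484 / 10000 * ((1 - u) * u * pZ u + 984 / 1000 * ((5 / 4 - u) * (u ^ 2 * (2 - u)))) =
      6 / 125 * y ^ 6 + 7423043 / 25000000 * x * y ^ 5 + 5188557 / 12500000 * x ^ 2 * y ^ 4 +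
      33023141781 / 250000000000 * x ^ 3 * y ^ 3 + 621844557 / 62500000000 * x ^ 4 * y ^ 2 +
      5469194129 / 62500000000 * x ^ 5 * y + 54367 / 1250000 * x ^ 6 := by
    unfold pZ pY pB pA
    rw [ex, ey]
    ring
  have p : 0 ≤ 6 / 125 * y ^ 6 + 7423043 / 25000000 * x * y ^ 5 + 5188557 / 12500000 * x ^ 2 * y ^ 4 +
      33023141781 / 250000000000 * x ^ 3 * y ^ 3 + 621844557 / 62500000000 * x ^ 4 * y ^ 2 +
      5469194129 / 62500000000 * x ^ 5 * y + 54367 / 1250000 * x ^ 6 := by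
    positivity
  linarith

private theorem sp_MB {u : ℝ} (h0 : 0 ≤ u) (h1 : u ≤ 1) :
    1484 / 10000 * ((1 - u) * u * pZ u + 984 / 1000 * ((5 / 4 - u) * (u ^ 2 * (2 - u)))) ≤
      8 / 100 * ((1 - 4 / 10) + 4 / 10 * (u * pY u)) := by
  exact sp_MB_0 (x := u - 0) (y := 1 - u) (by linarith) (by linarith) rfl rfl

private theorem sp_DC_0 {u x y : ℝ} (hx : 0 ≤ x) (hy : 0 ≤ y) (ex : x = u - 0)
    (ey : y = 1 - u) :
    967 / 10000 * (u * pf u * ((5 / 4 - u) * (1 - (1 - u) * pB u) + 805 / 1000 * ((1 - u) * u * (2 - u)))) ≤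
      155 / 1000 * ((1 - 573 / 1000) + 573 / 1000 * (u * pY u)) := by
  have e : (155 / 1000 * ((1 - 573 / 1000) + 573 / 1000 * (u * pY u))) - 967 / 10000 * (u * pf u * ((5 / 4 - u) * (1 - (1 - u) * pB u) + 805 / 1000 * ((1 - u) * u * (2 - u)))) =
      13237 / 200000 * y ^ 8 + 1004046487 / 2000000000 * x * y ^ 7 +
      6095310293 / 4000000000 * x ^ 2 * y ^ 6 + 12497087067507 / 5000000000000 * x ^ 3 * y ^ 5 +
      2621862415627 / 1000000000000 * x ^ 4 * y ^ 4 +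
      41756858115749 / 20000000000000 * x ^ 5 * y ^ 3 +
      5418435845807 / 4000000000000 * x ^ 6 * y ^ 2 + 5939469940949 / 10000000000000 * x ^ 7 * y +
      23350063 / 200000000 * x ^ 8 := by
    unfold pY pf pB pA
    rw [ex, ey]
    ring
  have p : 0 ≤ 13237 / 200000 * y ^ 8 + 1004046487 / 2000000000 * x * y ^ 7 +
      6095310293 / 4000000000 * x ^ 2 * y ^ 6 + 12497087067507 / 5000000000000 * x ^ 3 * y ^ 5 +
      2621862415627 / 1000000000000 * x ^ 4 * y ^ 4 +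
      41756858115749 / 20000000000000 * x ^ 5 * y ^ 3 +
      5418435845807 / 4000000000000 * x ^ 6 * y ^ 2 + 5939469940949 / 10000000000000 * x ^ 7 * y +
      23350063 / 200000000 * x ^ 8 := by
    positivity
  linarith

private theorem sp_DC {u : ℝ} (h0 : 0 ≤ u) (h1 : u ≤ 1) :
    967 / 10000 * (u * pf u * ((5 / 4 - u) * (1 - (1 - u) * pB u) + 805 / 1000 * ((1 - u) * u * (2 - u)))) ≤
      155 / 1000 * ((1 - 573 / 1000) + 573 / 1000 * (u * pY u)) := by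
  exact sp_DC_0 (x := u - 0) (y := 1 - u) (by linarith) (by linarith) rfl rfl

private theorem sp_MC_0 {u x y : ℝ} (hx : 0 ≤ x) (hy : 0 ≤ y) (ex : x = u - 0)
    (ey : y = 1 - u) :
    967 / 10000 * ((1 - u) * u * pZ u + 805 / 1000 * ((5 / 4 - u) * (u ^ 2 * (2 - u)))) ≤
      8 / 100 * ((1 - 573 / 1000) + 573 / 1000 * (u * pY u)) := by
  have e : (8 / 100 * ((1 - 573 / 1000) + 573 / 1000 * (u * pY u))) - 967 / 10000 * ((1 - u) * u * pZ u + 805 / 1000 * ((5 / 4 - u) * (u ^ 2 * (2 - u)))) =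
      427 / 12500 * y ^ 6 + 112850763 / 500000000 * x * y ^ 5 +
      43948379 / 100000000 * x ^ 2 * y ^ 4 + 2215912896537 / 5000000000000 * x ^ 3 * y ^ 3 +
      450413353939 / 1250000000000 * x ^ 4 * y ^ 2 + 282030663783 / 1250000000000 * x ^ 5 * y +
      484313 / 8000000 * x ^ 6 := by
    unfold pZ pY pB pA
    rw [ex, ey]
    ring
  have p : 0 ≤ 427 / 12500 * y ^ 6 + 112850763 / 500000000 * x * y ^ 5 +
      43948379 / 100000000 * x ^ 2 * y ^ 4 + 2215912896537 / 5000000000000 * x ^ 3 * y ^ 3 +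
      450413353939 / 1250000000000 * x ^ 4 * y ^ 2 + 282030663783 / 1250000000000 * x ^ 5 * y +
      484313 / 8000000 * x ^ 6 := by
    positivity
  linarith

private theorem sp_MC {u : ℝ} (h0 : 0 ≤ u) (h1 : u ≤ 1) :
    967 / 10000 * ((1 - u) * u * pZ u + 805 / 1000 * ((5 / 4 - u) * (u ^ 2 * (2 - u)))) ≤
      8 / 100 * ((1 - 573 / 1000) + 573 / 1000 * (u * pY u)) := by
  exact sp_MC_0 (x := u - 0) (y := 1 - u) (by linarith) (by linarith) rfl rfl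

private theorem sp_YX {u f : ℝ} (h1 : u ≤ 1) (hf0 : 0 ≤ f) (hf : f ≤ pf u) :
    u ^ 2 * pY u ≤ 1 - (1 - u) * f ^ 2 := by
  have e : u ^ 2 * pY u = 1 - (1 - u) * pf u ^ 2 := by
    unfold pY pf
    ring
  have h2 : f ^ 2 ≤ pf u ^ 2 := pow_le_pow_left₀ hf0 hf 2
  have h3 : (1 - u) * f ^ 2 ≤ (1 - u) * pf u ^ 2 := mul_le_mul_of_nonneg_left h2 (by linarith)
  linarith

/-- the facts about the profiles at one point -/
private theorem sp_pt (d : Dat K L φ ψ χ ω) {s : ℝ} (hs0 : 0 ≤ s) (hs1 : s ≤ 1) :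
    0 ≤ φ s ∧ φ s ≤ pf (1 - s) ∧ 0 ≤ 1 - s * χ s ∧
      1 - s * χ s ≤ (1 - s) ^ 2 * (1 - s * pB (1 - s)) ∧
      |χ s - φ s ^ 2| ≤ (1 - s) ^ 2 * pZ (1 - s) ∧ (1 - s) ^ 2 * pY (1 - s) ≤ 1 - s * φ s ^ 2 := by
  have hs : s ∈ Icc (0 : ℝ) 1 := ⟨hs0, hs1⟩
  have f1 := d.prof.one_le s hs
  have f2 := abs_le.1 (d.enc.phi s hs)
  have g2 := abs_le.1 (d.enc.chi s hs)
  have g1 := d.prof2.le s hs
  obtain ⟨u, hu⟩ : ∃ u, u = 1 - s := ⟨_, rfl⟩
  have hsu : s = 1 - u := by linarith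
  rw [← hu] at f2 g2 g1 ⊢
  have h0 : 0 ≤ u := by linarith
  have h1 : u ≤ 1 := by linarith
  have k1 : φ s ≤ pf u := by
    unfold pf pA
    linarith [f2.2]
  have k2 : 1 + u / 2 + u ^ 2 * (761 / 10000 + 59 / 10000 * u) ≤ φ s := by
    linarith [f2.1]
  have k3 : 1 + u + u ^ 2 * pB u ≤ χ s := by
    unfold pB
    linarith [g2.1]
  have k4 : χ s ≤ 1 + u + u ^ 2 * (3341 / 10000 + 563 / 10000 * u + 65 / 10000 * u ^ 2) := by
    linarith [g2.2]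
  have k5 : 0 ≤ φ s := by linarith
  refine ⟨k5, k1, ?_, ?_, ?_, ?_⟩
  · have := sq_nonneg u
    linarith
  · have h2 : s * (1 + u + u ^ 2 * pB u) ≤ s * χ s := mul_le_mul_of_nonneg_left k3 hs0
    have h3 : 1 - s * (1 + u + u ^ 2 * pB u) = u ^ 2 * (1 - s * pB u) := by
      rw [hsu]
      ring
    linarith
  · have k6 : φ s ^ 2 ≤ pf u ^ 2 := pow_le_pow_left₀ k5 k1 2
    have k7 : (1 + u / 2 + u ^ 2 * (761 / 10000 + 59 / 10000 * u)) ^ 2 ≤ φ s ^ 2 :=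
      pow_le_pow_left₀ (by positivity) k2 2
    have k8 : pf u ^ 2 - (1 + u + u ^ 2 * pB u) = u ^ 2 * pZ u := by
      unfold pZ pf
      ring
    have k9 : (1 + u + u ^ 2 * (3341 / 10000 + 563 / 10000 * u + 65 / 10000 * u ^ 2)) -
        (1 + u / 2 + u ^ 2 * (761 / 10000 + 59 / 10000 * u)) ^ 2 ≤ u ^ 2 * pZ u := by
      have h4 : (3341 / 10000 + 563 / 10000 * u + 65 / 10000 * u ^ 2) - (1 / 4 + 2 * (761 / 10000 +
          59 / 10000 * u) + u * (761 / 10000 + 59 / 10000 * u) +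
          u ^ 2 * (761 / 10000 + 59 / 10000 * u) ^ 2) ≤ pZ u := by
        unfold pZ pA pB
        have h5 : u ^ 2 ≤ u := by nlinarith
        have h6 : 0 ≤ u ^ 2 * (761 / 10000 + 59 / 10000 * u) ^ 2 := by positivity
        have h7 : 0 ≤ u ^ 2 * (763 / 10000 + 59 / 10000 * u) ^ 2 := by positivity
        nlinarith
      have h5 := mul_le_mul_of_nonneg_left h4 (sq_nonneg u)
      linarith
    rw [abs_le]
    constructor
    · linarith
    · linarith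
  · rw [hsu] at k5 k1 ⊢
    exact sp_YX h1 k5 k1

private theorem sp_rt {s : ℝ} (hs0 : 0 ≤ s) : √s ≤ 5 / 4 - (1 - s) := by
  have h := Real.sq_sqrt hs0
  nlinarith [sq_nonneg (√s - 1 / 2)]

private theorem sp_et {s : ℝ} (hs1 : s ≤ 1) : et s = (1 - s) ^ 3 * (2 - (1 - s)) := by
  unfold et
  rw [if_pos hs1]
  ring

private theorem sp_G {u X G m m1 : ℝ} (h : ((1 - m) * u + m * X) / 2 ≤ G) (hm : m ≤ m1)
    (hX : X ≤ u) (hm1 : 0 ≤ m1) {Y : ℝ} (hY : u ^ 2 * Y ≤ X) :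
    u * ((1 - m1) + m1 * (u * Y)) / 2 ≤ G := by
  have h1 : 0 ≤ (m1 - m) * (u - X) := mul_nonneg (by linarith) (by linarith)
  have h2 : m1 * (u ^ 2 * Y) ≤ m1 * X := mul_le_mul_of_nonneg_left hY hm1
  nlinarith

private theorem sp_Dalg {I1 P1 m1 P u s rt f T G : ℝ} (hI : 0 ≤ I1) (hs : s = 1 - u)
    (h0 : 0 ≤ u) (h1 : u ≤ 1) (hr : rt ≤ 5 / 4 - u) (hf0 : 0 ≤ f)
    (hf : f ≤ pf u) (hT0 : 0 ≤ T) (hT : T ≤ u ^ 2 * (1 - s * pB u)) (hP0 : 0 ≤ P) (hP : P ≤ P1)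
    (hG : u * ((1 - m1) + m1 * (u * pY u)) / 2 ≤ G)
    (hp : I1 * (u * pf u * ((5 / 4 - u) * (1 - (1 - u) * pB u) + P1 * ((1 - u) * u * (2 - u)))) ≤
      155 / 1000 * ((1 - m1) + m1 * (u * pY u))) :
    I1 * (rt * f * T + P * (s * (u ^ 3 * (2 - u)) * f)) ≤ 31 / 100 * G := by
  have a1 : rt * f ≤ (5 / 4 - u) * pf u := mul_le_mul hr hf hf0 (by linarith)
  have a2 : rt * f * T ≤ (5 / 4 - u) * pf u * (u ^ 2 * (1 - s * pB u)) :=
    mul_le_mul a1 hT hT0 (mul_nonneg (by linarith) (hf0.trans hf))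
  have b0 : 0 ≤ s * (u ^ 3 * (2 - u)) :=
    mul_nonneg (by linarith) (mul_nonneg (pow_nonneg h0 3) (by linarith))
  have a3 : s * (u ^ 3 * (2 - u)) * f ≤ s * (u ^ 3 * (2 - u)) * pf u :=
    mul_le_mul_of_nonneg_left hf b0
  have a4 : P * (s * (u ^ 3 * (2 - u)) * f) ≤ P1 * (s * (u ^ 3 * (2 - u)) * pf u) :=
    mul_le_mul hP a3 (mul_nonneg b0 hf0) (hP0.trans hP)
  have a5 := mul_le_mul_of_nonneg_left (add_le_add a2 a4) hI
  have a6 := mul_le_mul_of_nonneg_left hp h0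
  have e : I1 * ((5 / 4 - u) * pf u * (u ^ 2 * (1 - s * pB u)) +
      P1 * (s * (u ^ 3 * (2 - u)) * pf u)) = u * (I1 * (u * pf u * ((5 / 4 - u) *
      (1 - (1 - u) * pB u) + P1 * ((1 - u) * u * (2 - u))))) := by
    rw [hs]
    ring
  linarith

private theorem sp_Malg {I1 P1 m1 P u s rt T G : ℝ} (hI : 0 ≤ I1) (hs : s = 1 - u)
    (h0 : 0 ≤ u) (h1 : u ≤ 1) (hr0 : 0 ≤ rt) (hr : rt ≤ 5 / 4 - u)
    (hT : T ≤ u ^ 2 * pZ u) (hP0 : 0 ≤ P) (hP : P ≤ P1)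
    (hG : u * ((1 - m1) + m1 * (u * pY u)) / 2 ≤ G)
    (hp : I1 * ((1 - u) * u * pZ u + P1 * ((5 / 4 - u) * (u ^ 2 * (2 - u)))) ≤
      8 / 100 * ((1 - m1) + m1 * (u * pY u))) :
    I1 * (s * T + P * (rt * (u ^ 3 * (2 - u)))) ≤ 16 / 100 * G := by
  have a1 : s * T ≤ s * (u ^ 2 * pZ u) := mul_le_mul_of_nonneg_left hT (by linarith)
  have b0 : 0 ≤ u ^ 3 * (2 - u) := mul_nonneg (pow_nonneg h0 3) (by linarith)
  have a3 : rt * (u ^ 3 * (2 - u)) ≤ (5 / 4 - u) * (u ^ 3 * (2 - u)) :=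
    mul_le_mul_of_nonneg_right hr b0
  have a4 : P * (rt * (u ^ 3 * (2 - u))) ≤ P1 * ((5 / 4 - u) * (u ^ 3 * (2 - u))) :=
    mul_le_mul hP a3 (mul_nonneg hr0 b0) (hP0.trans hP)
  have a5 := mul_le_mul_of_nonneg_left (add_le_add a1 a4) hI
  have a6 := mul_le_mul_of_nonneg_left hp h0
  have e : I1 * (s * (u ^ 2 * pZ u) + P1 * ((5 / 4 - u) * (u ^ 3 * (2 - u)))) =
      u * (I1 * ((1 - u) * u * pZ u + P1 * ((5 / 4 - u) * (u ^ 2 * (2 - u))))) := by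
    rw [hs]
    ring
  linarith

theorem jE_pt (d : Dat K L φ ψ χ ω) {m : ℝ} (hm0 : 0 ≤ m) (hm1 : m ≤ 1) {y : E}
    (hy : sq y ≤ 1) : jE K φ y ≤ 65 / 100 * (-GI m φ y) := by
  have hs0 : 0 ≤ sq y := Neu.M1x.sq_nonneg y
  obtain ⟨k1, k2, k3, k4, k5, k6⟩ := sp_pt d hs0 hy
  obtain ⟨g1, g2, g3⟩ := GI_in d.prof hm0 hm1 hy
  obtain ⟨x1, x2⟩ := a0_bd d
  have hg2 := g2_bd d.prof ⟨hs0, hy⟩
  unfold jE
  rw [sp_et hy]
  obtain ⟨s, hs⟩ : ∃ s, s = sq y := ⟨_, rfl⟩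
  rw [← hs] at hs0 hy k1 k2 k3 k4 k5 k6 g1 g2 g3 hg2 ⊢
  obtain ⟨u, hu⟩ : ∃ u, u = 1 - s := ⟨_, rfl⟩
  rw [← hu] at k2 k4 k5 k6 g2 g3 ⊢
  have h0 : 0 ≤ u := by linarith
  have h1 : u ≤ 1 := by linarith
  have hsu : s = 1 - u := by linarith
  obtain ⟨X, hX⟩ : ∃ X, X = 1 - s * φ s ^ 2 := ⟨_, rfl⟩
  rw [← hX] at k6 g1 g3 ⊢
  have hX0 : 0 ≤ X := by linarith [hg2.2]
  have b0 : 0 ≤ s * (u ^ 3 * (2 - u)) :=
    mul_nonneg hs0 (mul_nonneg (pow_nonneg h0 3) (by linarith))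
  have b1 : 0 ≤ s * (u ^ 3 * (2 - u)) * φ s := mul_nonneg b0 k1
  have b2 : s * (u ^ 3 * (2 - u)) * φ s ≤ s * (u ^ 3 * (2 - u)) * pf u :=
    mul_le_mul_of_nonneg_left k2 b0
  have b3 := mul_le_mul_of_nonneg_left (sp_E h0 h1) (_root_.sq_nonneg u)
  have b4 : s * (u ^ 3 * (2 - u)) * pf u = u ^ 2 * (u * (1 - u) * (2 - u) * pf u) := by
    rw [hsu]
    ring
  have b5 : s * (u ^ 3 * (2 - u)) * φ s ≤ 6481 / 10000 * X := by
    linarith
  have b6 : a0 K φ * X ≤ 3232 / 10000 * X := mul_le_mul_of_nonneg_right x2.le hX0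
  have b7 : 3231 / 10000 * X ≤ a0 K φ * X := mul_le_mul_of_nonneg_right x1.le hX0
  rw [abs_le]
  constructor <;> linarith

/-- `31 / 100 / I1` -/
theorem jD_pt (d : Dat K L φ ψ χ ω) {c : Cell} (hc : IsCell c) {m P : ℝ} (hm0 : 0 ≤ m)
    (hm1 : m ≤ c.m1) (hP0 : 0 ≤ P) (hP : P ≤ c.P1) {y : E} (hy : sq y ≤ 1) :
    c.I1 * jD φ χ P y ≤ 31 / 100 * (-GI m φ y) := by
  have hm1' : m ≤ 1 := by
    rcases hc with rfl | rfl | rfl
    · simp only [cA] at hm1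
      linarith
    · simp only [cB] at hm1
      linarith
    · simp only [cC] at hm1
      linarith
  have hs0 : 0 ≤ sq y := Neu.M1x.sq_nonneg y
  obtain ⟨k1, k2, k3, k4, k5, k6⟩ := sp_pt d hs0 hy
  obtain ⟨g1, g2, g3⟩ := GI_in d.prof hm0 hm1' hy
  have hg2 := g2_bd d.prof ⟨hs0, hy⟩
  have hrt := sp_rt hs0
  have hr0 := Real.sqrt_nonneg (sq y)
  unfold jD
  rw [sp_et hy]
  obtain ⟨G, hG⟩ : ∃ G, G = -GI m φ y := ⟨_, rfl⟩
  rw [← hG] at g1 g2 g3 ⊢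
  obtain ⟨s, hs⟩ : ∃ s, s = sq y := ⟨_, rfl⟩
  rw [← hs] at hs0 hy k1 k2 k3 k4 k5 k6 g1 g2 g3 hg2 hrt hr0 ⊢
  obtain ⟨u, hu⟩ : ∃ u, u = 1 - s := ⟨_, rfl⟩
  rw [← hu] at k2 k4 k5 k6 g2 g3 hrt ⊢
  have h0 : 0 ≤ u := by linarith
  have h1 : u ≤ 1 := by linarith
  have hsu : s = 1 - u := by linarith
  have hXu : 1 - s * φ s ^ 2 ≤ u := by linarith [hg2.1]
  rcases hc with rfl | rfl | rfl
  · simp only [cA] at hm1 hP ⊢
    exact sp_Dalg (by norm_num) hsu h0 h1 hrt k1 k2 k3 k4 hP0 hP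
      (sp_G g3 hm1 hXu (by norm_num) k6) (sp_DA h0 h1)
  · simp only [cB] at hm1 hP ⊢
    exact sp_Dalg (by norm_num) hsu h0 h1 hrt k1 k2 k3 k4 hP0 hP
      (sp_G g3 hm1 hXu (by norm_num) k6) (sp_DB h0 h1)
  · simp only [cC] at hm1 hP ⊢
    exact sp_Dalg (by norm_num) hsu h0 h1 hrt k1 k2 k3 k4 hP0 hP
      (sp_G g3 hm1 hXu (by norm_num) k6) (sp_DC h0 h1)

theorem jM_pt (d : Dat K L φ ψ χ ω) {c : Cell} (hc : IsCell c) {m P : ℝ} (hm0 : 0 ≤ m)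
    (hm1 : m ≤ c.m1) (hP0 : 0 ≤ P) (hP : P ≤ c.P1) {y : E} (hy : sq y ≤ 1) :
    c.I1 * jM φ χ P y ≤ 16 / 100 * (-GI m φ y) := by
  have hm1' : m ≤ 1 := by
    rcases hc with rfl | rfl | rfl
    · simp only [cA] at hm1
      linarith
    · simp only [cB] at hm1
      linarith
    · simp only [cC] at hm1
      linarith
  have hs0 : 0 ≤ sq y := Neu.M1x.sq_nonneg y
  obtain ⟨k1, k2, k3, k4, k5, k6⟩ := sp_pt d hs0 hy
  obtain ⟨g1, g2, g3⟩ := GI_in d.prof hm0 hm1' hy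
  have hg2 := g2_bd d.prof ⟨hs0, hy⟩
  have hrt := sp_rt hs0
  have hr0 := Real.sqrt_nonneg (sq y)
  unfold jM
  rw [sp_et hy]
  obtain ⟨G, hG⟩ : ∃ G, G = -GI m φ y := ⟨_, rfl⟩
  rw [← hG] at g1 g2 g3 ⊢
  obtain ⟨s, hs⟩ : ∃ s, s = sq y := ⟨_, rfl⟩
  rw [← hs] at hs0 hy k1 k2 k3 k4 k5 k6 g1 g2 g3 hg2 hrt hr0 ⊢
  obtain ⟨u, hu⟩ : ∃ u, u = 1 - s := ⟨_, rfl⟩
  rw [← hu] at k2 k4 k5 k6 g2 g3 hrt ⊢
  have h0 : 0 ≤ u := by linarith
  have h1 : u ≤ 1 := by linarith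
  have hsu : s = 1 - u := by linarith
  have hXu : 1 - s * φ s ^ 2 ≤ u := by linarith [hg2.1]
  rcases hc with rfl | rfl | rfl
  · simp only [cA] at hm1 hP ⊢
    exact sp_Malg (by norm_num) hsu h0 h1 hr0 hrt k5 hP0 hP
      (sp_G g3 hm1 hXu (by norm_num) k6) (sp_MA h0 h1)
  · simp only [cB] at hm1 hP ⊢
    exact sp_Malg (by norm_num) hsu h0 h1 hr0 hrt k5 hP0 hP
      (sp_G g3 hm1 hXu (by norm_num) k6) (sp_MB h0 h1)
  · simp only [cC] at hm1 hP ⊢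
    exact sp_Malg (by norm_num) hsu h0 h1 hr0 hrt k5 hP0 hP
      (sp_G g3 hm1 hXu (by norm_num) k6) (sp_MC h0 h1)

end Pool.Agent.FND
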