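import Pool.Agent.FND.Defs
import Pool.Agent.FND.SupP
import Pool.Agent.FND.Wid
import Pool.Agent.FND.Vol

/-!
FND-Sup: bounds for the junk integrals.
-/

set_option autoImplicit false

open MeasureTheory Set
open Pool.Agent.Neu
open Pool.Agent.CS4 (Prof2 bb vv eV)

namespace Pool.Agent.FND

variable {K L : ℝ} {φ ψ χ ω : ℝ → ℝ}

private theorem sup_et {s : ℝ} (h0 : 0 ≤ s) : 0 ≤ et s := by
  unfold et
  split_ifs with h
  · exact mul_nonneg (pow_nonneg (by linarith) 3) (by linarith)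
  · exact le_rfl

private theorem sup_aux {W : Set E} {a b : ℝ} (h : Prof K φ ψ) (hW : WS φ χ W a b) {m I : ℝ}
    (hm0 : 0 ≤ m) (hm1 : m ≤ 1) (hI : II m φ W ≤ I) {j : E → ℝ} {c k : ℝ} (hc : 0 ≤ c)
    (hk : 0 ≤ k) (hj : ∀ y, sq y ≤ 1 → 0 ≤ j y)
    (hjk : ∀ y, sq y ≤ 1 → c * j y ≤ k * (-GI m φ y)) :
    c * (∫ y in D \ W, j y) ≤ k * I := by
  have bS : Bornology.IsBounded (D \ W : Set E) := M1x.bdD.subset sdiff_subset
  have mS : MeasurableSet (D \ W : Set E) := M1x.measD.diff hW.meas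
  have i1 : IntegrableOn (fun y : E => k * (-GI m φ y)) (D \ W) :=
    M1x.intOn (((cont_GI h m).neg).const_mul k) bS
  have hS : ∀ᵐ y ∂(volume.restrict (D \ W : Set E)), sq y ≤ 1 := by
    filter_upwards [ae_restrict_mem mS] with y hy
    exact (M1x.mem_D.1 hy.1).le
  have e1 : ∫ y in D \ W, c * j y ≤ ∫ y in D \ W, k * (-GI m φ y) := by
    refine integral_mono_of_nonneg ?_ i1 ?_
    · filter_upwards [hS] with y hy
      exact mul_nonneg hc (hj y hy)
    · filter_upwards [hS] with y hy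
      exact hjk y hy
  rw [integral_const_mul, integral_const_mul, integral_neg] at e1
  have e2 := II_eq h hW m
  have e3 := (II_S h hW hm0 hm1).1
  have e4 : -(∫ y in D \ W, GI m φ y) ≤ I := by linarith
  exact e1.trans (mul_le_mul_of_nonneg_left e4 hk)

theorem sup_j {W : Set E} {a b : ℝ} (d : Dat K L φ ψ χ ω) (hW : WS φ χ W a b) {c : Cell}
    (hc : IsCell c) {m P : ℝ} (hm0 : 0 ≤ m) (hm1 : m ≤ c.m1) (hP0 : 0 ≤ P) (hP : P ≤ c.P1)
    (hI : II m φ W ≤ c.I1) :
    (∫ y in D \ W, jE K φ y) ≤ 117 / 1000 ∧ (∫ y in D \ W, jD φ χ P y) ≤ 31 / 100 ∧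
      (∫ y in D \ W, jM φ χ P y) ≤ 16 / 100 := by
  have hm1' : m ≤ 1 ∧ 0 < c.I1 ∧ c.I1 ≤ 18 / 100 := by
    rcases hc with rfl | rfl | rfl
    · simp only [cA] at hm1 ⊢
      exact ⟨by linarith, by norm_num, by norm_num⟩
    · simp only [cB] at hm1 ⊢
      exact ⟨by linarith, by norm_num, by norm_num⟩
    · simp only [cC] at hm1 ⊢
      exact ⟨by linarith, by norm_num, by norm_num⟩
  obtain ⟨hm2, hI0, hI1⟩ := hm1'
  have f1 := sup_aux (j := jE K φ) (c := 1) (k := 65 / 100) d.prof hW hm0 hm2 hI zero_le_one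
    (by norm_num) (fun y _ => abs_nonneg _) (fun y hy => by
      rw [one_mul]
      exact jE_pt d hm0 hm2 hy)
  have f2 := sup_aux (j := jD φ χ P) (c := c.I1) (k := 31 / 100) d.prof hW hm0 hm2 hI hI0.le
    (by norm_num) (fun y hy => by
      have hs0 : 0 ≤ sq y := Neu.M1x.sq_nonneg y
      have h1 := d.prof.one_le _ ⟨hs0, hy⟩
      have h2 := d.prof2.le _ ⟨hs0, hy⟩
      have h3 := _root_.sq_nonneg (1 - sq y)
      unfold jD
      refine add_nonneg (mul_nonneg (mul_nonneg (Real.sqrt_nonneg _) (by linarith))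
        (by linarith)) (mul_nonneg hP0 (mul_nonneg (mul_nonneg hs0 (sup_et hs0))
          (by linarith)))) (fun y hy => jD_pt d hc hm0 hm1 hP0 hP hy)
  have f3 := sup_aux (j := jM φ χ P) (c := c.I1) (k := 16 / 100) d.prof hW hm0 hm2 hI hI0.le
    (by norm_num) (fun y hy => by
      have hs0 : 0 ≤ sq y := Neu.M1x.sq_nonneg y
      unfold jM
      exact add_nonneg (mul_nonneg hs0 (abs_nonneg _)) (mul_nonneg hP0
        (mul_nonneg (Real.sqrt_nonneg _) (sup_et hs0))))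
    (fun y hy => jM_pt d hc hm0 hm1 hP0 hP hy)
  refine ⟨by linarith, ?_, ?_⟩
  · exact le_of_mul_le_mul_left (by linarith) hI0
  · exact le_of_mul_le_mul_left (by linarith) hI0

end Pool.Agent.FND
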