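import Pool.Agent.FND.Defs
import Pool.Agent.FND.MassP
import Pool.Agent.FND.Sup

/-!
FND-Mass: lower bound for the mass of the third trial function.

Plan.  0 >= ... integrate mass_pt over S: ∫_S nr + ((p .117 ∫jE + .31 ∫jD)/2.2148) + .16 ∫ jM/pi <= .02 (-II_S) <= .02 I1.
p eS² <= p |eS| ∫jE <= p (.117) ∫ jE (sup_j), dd² <= .31 ∫jD, mm² <= .16 ∫ jM, M1 >= mw >= 2.2148 (Cst).
So the right side >= mV - cM p - .02 I1 >= 1.7944 - .1466 P1² - .02 I1 = 1.62139 / 1.64949 / 1.6975 >= M.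
-/

set_option autoImplicit false

open MeasureTheory Set
open Pool.Agent.Neu
open Pool.Agent.CS4 (Prof2 bb vv eV)

namespace Pool.Agent.FND

variable {K L : ℝ} {φ ψ χ ω : ℝ → ℝ}

theorem mass_ge {W : Set E} {a b : ℝ} (d : Dat K L φ ψ χ ω) (hW : WS φ χ W a b) {c : Cell}
    (hc : IsCell c) {m : ℝ} (hm0 : 0 ≤ m) (hm1 : m ≤ c.m1) (hp : a ^ 2 + b ^ 2 ≤ c.P1 ^ 2)
    (hI : II m φ W ≤ c.I1) {eS dd mm M1 : ℝ} (he : |eS| ≤ ∫ y in D \ W, jE K φ y)
    (hd0 : 0 ≤ dd) (hd : dd ≤ ∫ y in D \ W, jD φ χ √(a ^ 2 + b ^ 2) y) (hm0' : 0 ≤ mm)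
    (hm' : mm ≤ ∫ y in D \ W, jM φ χ √(a ^ 2 + b ^ 2) y) (hM : mw K ≤ M1) :
    c.M ≤ mV L - cM K φ * (a ^ 2 + b ^ 2) - (∫ y in D \ W, nr K φ χ a b y)
      - ((a ^ 2 + b ^ 2) * eS ^ 2 + dd ^ 2) / M1 - mm ^ 2 / Real.pi := by
  have bS : Bornology.IsBounded (D \ W : Set E) := M1x.bdD.subset sdiff_subset
  have mS : MeasurableSet (D \ W : Set E) := M1x.measD.diff hW.meas
  have hpi : 0 < Real.pi := Real.pi_pos
  obtain ⟨P, hP⟩ : ∃ P, P = √(a ^ 2 + b ^ 2) := ⟨_, rfl⟩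
  obtain ⟨p, hp'⟩ : ∃ p, p = a ^ 2 + b ^ 2 := ⟨_, rfl⟩
  have hp0 : 0 ≤ p := by rw [hp']; positivity
  have hP0 : 0 ≤ P := by rw [hP]; exact Real.sqrt_nonneg _
  have hc0 : 0 ≤ c.P1 := by
    rcases hc with rfl | rfl | rfl
    · simp only [cA]; norm_num
    · simp only [cB]; norm_num
    · simp only [cC]; norm_num
  have hP1 : P ≤ c.P1 := by
    rw [hP]
    exact Real.sqrt_le_iff.2 ⟨hc0, hp⟩
  obtain ⟨s1, s2, s3⟩ := sup_j d hW hc hm0 hm1 hP0 hP1 hI
  have cJE := cont_jE (K := K) d.prof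
  have cJD := cont_jD d.prof d.prof2 P
  have cJM := cont_jM d.prof d.prof2 P
  have cnr := cont_nr d.prof d.prof2 a b
  have cG := cont_GI d.prof m
  -- the pointwise inequality integrated
  have i1 : IntegrableOn (nr K φ χ a b) (D \ W) := M1x.intOn cnr bS
  have iE : IntegrableOn (jE K φ) (D \ W) := M1x.intOn cJE bS
  have iD : IntegrableOn (jD φ χ P) (D \ W) := M1x.intOn cJD bS
  have iM : IntegrableOn (jM φ χ P) (D \ W) := M1x.intOn cJM bS
  have h1 : ∫ y in D \ W, (nr K φ χ a b y + (p * (117 / 1000) / (22148 / 10000) * jE K φ y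
        + 31 / 100 / (22148 / 10000) * jD φ χ P y)
      + 16 / 100 / Real.pi * jM φ χ P y) ≤ ∫ y in D \ W, 2 / 100 * (-GI m φ y) := by
    refine setIntegral_mono_on (M1x.intOn (by fun_prop) bS) (M1x.intOn (by fun_prop) bS) mS
      fun y hy => ?_
    have h2 := mass_pt d hc hm0 hm1 hp (M1x.mem_D.1 hy.1).le
    rw [← hP, ← hp'] at h2
    refine le_trans (le_of_eq ?_) h2
    ring
  have j1 : IntegrableOn (fun y => p * (117 / 1000) / (22148 / 10000) * jE K φ y) (D \ W) :=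
    iE.const_mul _
  have j2 : IntegrableOn (fun y => 31 / 100 / (22148 / 10000) * jD φ χ P y) (D \ W) :=
    iD.const_mul _
  have j3 : IntegrableOn (fun y => 16 / 100 / Real.pi * jM φ χ P y) (D \ W) :=
    iM.const_mul _
  have j4 : IntegrableOn (fun y => p * (117 / 1000) / (22148 / 10000) * jE K φ y +
      31 / 100 / (22148 / 10000) * jD φ χ P y) (D \ W) := j1.add j2
  have j5 : IntegrableOn (fun y => nr K φ χ a b y + (p * (117 / 1000) / (22148 / 10000) * jE K φ y +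
      31 / 100 / (22148 / 10000) * jD φ χ P y)) (D \ W) := i1.add j4
  rw [integral_add j5 j3, integral_add i1 j4, integral_add j1 j2, integral_const_mul,
    integral_const_mul, integral_const_mul, integral_const_mul] at h1
  rw [← hP] at hd hm'
  rw [← hp'] at hp ⊢
  have hm1' : m ≤ 1 := by
    refine hm1.trans ?_
    rcases hc with rfl | rfl | rfl
    · simp only [cA]; norm_num
    · simp only [cB]; norm_num
    · simp only [cC]; norm_num
  have h3 : ∫ y in D \ W, -GI m φ y ≤ c.I1 := by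
    obtain ⟨v1, -⟩ := II_S d.prof hW hm0 hm1'
    have v2 := II_eq d.prof hW m
    rw [integral_neg]
    linarith
  obtain ⟨jE', hjE⟩ : ∃ t, t = ∫ y in D \ W, jE K φ y := ⟨_, rfl⟩
  obtain ⟨jD', hjD⟩ : ∃ t, t = ∫ y in D \ W, jD φ χ P y := ⟨_, rfl⟩
  obtain ⟨jM', hjM⟩ : ∃ t, t = ∫ y in D \ W, jM φ χ P y := ⟨_, rfl⟩
  rw [← hjE] at h1 s1 he
  rw [← hjD] at h1 s2 hd
  rw [← hjM] at h1 s3 hm'
  have e1 : eS ^ 2 ≤ 117 / 1000 * jE' := by
    rw [← sq_abs]
    nlinarith [abs_nonneg eS]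
  have e2 : dd ^ 2 ≤ 31 / 100 * jD' := by nlinarith
  have e3 : mm ^ 2 ≤ 16 / 100 * jM' := by nlinarith
  have hmw := (mw_bd d).1
  have hM1 : 22148 / 10000 ≤ M1 := by linarith
  have e4 : (p * eS ^ 2 + dd ^ 2) / M1 ≤ (p * (117 / 1000 * jE') + 31 / 100 * jD') / (22148 / 10000) := by
    have h5 : p * eS ^ 2 + dd ^ 2 ≤ p * (117 / 1000 * jE') + 31 / 100 * jD' :=
      add_le_add (mul_le_mul_of_nonneg_left e1 hp0) e2
    have h6 : 0 ≤ p * eS ^ 2 + dd ^ 2 := by positivity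
    exact div_le_div₀ (h6.trans h5) h5 (by norm_num) hM1
  have e5 : mm ^ 2 / Real.pi ≤ 16 / 100 / Real.pi * jM' := by
    rw [div_mul_eq_mul_div]
    exact div_le_div_of_nonneg_right e3 hpi.le
  have e6 : (p * (117 / 1000 * jE') + 31 / 100 * jD') / (22148 / 10000) =
      p * (117 / 1000) / (22148 / 10000) * jE' + 31 / 100 / (22148 / 10000) * jD' := by ring
  rw [e6] at e4
  have hmV := (mV_bd d).1
  obtain ⟨c1, c2⟩ := cM_bd d
  have e7 : cM K φ * p ≤ 1466 / 10000 * c.P1 ^ 2 :=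
    mul_le_mul c2.le hp hp0 (by norm_num)
  have e8 : c.M ≤ 17944 / 10000 - 1466 / 10000 * c.P1 ^ 2 - 2 / 100 * c.I1 := by
    rcases hc with rfl | rfl | rfl
    · simp only [cA]; norm_num
    · simp only [cB]; norm_num
    · simp only [cC]; norm_num
  linarith

end Pool.Agent.FND
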