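import Pool.Agent.FND.Defs
import Pool.Agent.FND.Base
import Pool.Agent.FND.Cst

/-! FND-OPa: the density outside the disc. -/

set_option autoImplicit false

open MeasureTheory Set
open Pool.Agent.Neu
open Pool.Agent.CS4 (Prof2 bb vv eV)

namespace Pool.Agent.FND

variable {K L : ℝ} {φ ψ χ ω : ℝ → ℝ}

private theorem opa_N (m : ℝ) (y : E) : N ((1 + m) / 2) 0 ((1 - m) / 2) y = Nd m y := by
  unfold N Nd
  ring

private theorem Ft_nr (d : Dat K L φ ψ χ ω) (a b : ℝ) {y : E} (hy : 1 ≤ sq y) :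
    nr K φ χ a b y = 0 := by
  have hs : 0 < sq y := lt_of_lt_of_le one_pos hy
  obtain ⟨r, hr⟩ : ∃ r, r = √(sq y) := ⟨_, rfl⟩
  have hr0 : 0 < r := by rw [hr]; exact Real.sqrt_pos.2 hs
  have hrs : sq y = r ^ 2 := by rw [hr]; exact (Real.sq_sqrt hs.le).symm
  have hφ : φ (sq y) = 1 / r := by rw [hr]; exact d.prof.out _ hy
  have hχ : χ (sq y) = 1 / sq y := d.prof2.out _ hy
  have het : et (sq y) = 0 := by
    unfold et
    split_ifs with h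
    · have : sq y = 1 := le_antisymm h hy
      rw [this]
      norm_num
    · rfl
  have hzt : zt K φ (sq y) = a0 K φ * (1 / r) := by
    unfold zt
    rw [het, hφ, zero_add]
  obtain ⟨u, hu⟩ : ∃ u, u = y 0 := ⟨_, rfl⟩
  obtain ⟨v, hv⟩ : ∃ v, v = y 1 := ⟨_, rfl⟩
  have huv : u ^ 2 + v ^ 2 = r ^ 2 := by
    rw [← hrs, hu, hv]
    rfl
  unfold nr Af vv bb pb R3 c3 s3
  rw [hφ, hχ, hzt, hrs]
  simp only [if_true, one_ne_zero, if_false, ← hu, ← hv]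
  have h1 : (1 / r ^ 2 * (u ^ 2 - v ^ 2) - a0 K φ * (1 / r) * (a * u + b * v)) ^ 2 +
      (1 / r ^ 2 * (2 * (u * v)) - a0 K φ * (1 / r) * (b * u - a * v)) ^ 2 -
      (1 + a0 K φ ^ 2 * (a ^ 2 + b ^ 2)) +
      2 * a0 K φ * (1 / r * (1 / r ^ 2) * (a * (u ^ 3 - 3 * u * v ^ 2) + b * (3 * u ^ 2 * v - v ^ 3)))
      = ((u ^ 2 + v ^ 2) ^ 2 / (r ^ 2) ^ 2 - 1) +
        a0 K φ ^ 2 * (a ^ 2 + b ^ 2) * ((u ^ 2 + v ^ 2) / r ^ 2 - 1) := by
    field_simp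
    ring
  rw [h1, huv]
  have h2 : r ^ 2 ≠ 0 := by positivity
  field_simp
  ring

/-- `(C₃ - z C₁)² ≤ 2 (1 + z²) ν p` -/
theorem Pu_sq {z : ℝ} (a b : ℝ) {y : E} (hy : 0 < sq y) :
    (R3 a b y / √(sq y) ^ 3 - z * (R1 a b y / √(sq y))) ^ 2
      ≤ 2 * (1 + z ^ 2) * (Nd (2 * z / (1 + z ^ 2)) y / sq y) * (a ^ 2 + b ^ 2) := by
  obtain ⟨r, hr⟩ : ∃ r, r = √(sq y) := ⟨_, rfl⟩
  have hr0 : 0 < r := by rw [hr]; exact Real.sqrt_pos.2 hy
  have hrs : sq y = r ^ 2 := by rw [hr]; exact (Real.sq_sqrt hy.le).symm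
  obtain ⟨c, hc⟩ : ∃ c, c = y 0 / r := ⟨_, rfl⟩
  obtain ⟨d, hd⟩ : ∃ d, d = y 1 / r := ⟨_, rfl⟩
  have hy0 : y 0 = r * c := by rw [hc]; field_simp
  have hy1 : y 1 = r * d := by rw [hd]; field_simp
  have hcd : c ^ 2 + d ^ 2 = 1 := by
    have h1 : sq y = r ^ 2 * (c ^ 2 + d ^ 2) := by
      unfold Pool.Agent.Neu.sq
      rw [hy0, hy1]
      ring
    rw [hrs] at h1
    have h2 : r ^ 2 ≠ 0 := by positivity
    have h3 : r ^ 2 * (c ^ 2 + d ^ 2) = r ^ 2 * 1 := by rw [← h1, mul_one]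
    exact mul_left_cancel₀ h2 h3
  have hz : 0 < 1 + z ^ 2 := by positivity
  have e1 : R3 a b y / r ^ 3 = a * (c ^ 3 - 3 * c * d ^ 2) + b * (3 * c ^ 2 * d - d ^ 3) := by
    unfold R3 c3 s3
    rw [hy0, hy1]
    field_simp
  have e2 : R1 a b y / r = a * c + b * d := by
    unfold R1
    rw [hy0, hy1]
    field_simp
  have e3 : 2 * (1 + z ^ 2) * (Nd (2 * z / (1 + z ^ 2)) y / sq y) =
      (1 - z) ^ 2 * c ^ 2 + (1 + z) ^ 2 * d ^ 2 := by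
    unfold Nd
    rw [hrs, hy0, hy1]
    field_simp
    ring
  rw [← hr, e1, e2, e3]
  have e4 : (c ^ 3 - 3 * c * d ^ 2 - z * c) ^ 2 + (3 * c ^ 2 * d - d ^ 3 - z * d) ^ 2 =
      (1 - z) ^ 2 * c ^ 2 + (1 + z) ^ 2 * d ^ 2 := by
    have h1 : c ^ 2 = 1 - d ^ 2 := by linarith
    have h2 : (c ^ 3 - 3 * c * d ^ 2 - z * c) ^ 2 + (3 * c ^ 2 * d - d ^ 3 - z * d) ^ 2 =
        c ^ 2 * (c ^ 2 - 3 * d ^ 2 - z) ^ 2 + d ^ 2 * (3 * c ^ 2 - d ^ 2 - z) ^ 2 := by ring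
    rw [h2, h1]
    ring
  rw [← e4]
  nlinarith [sq_nonneg (a * (3 * c ^ 2 * d - d ^ 3 - z * d) - b * (c ^ 3 - 3 * c * d ^ 2 - z * c))]

theorem Ft_out_eq (d : Dat K L φ ψ χ ω) (M z m a b : ℝ) {y : E} (hy : 1 ≤ sq y) :
    Ft K L φ ψ χ ω M z m a b y
      = Nd m y / sq y * (sq y - 1) * (M * (96 / 100 * T0 K L) + (M * (2 / mw K) + 4
          + a0 K φ ^ 2 * (a ^ 2 + b ^ 2) + 4 * a0 K φ * (R3 a b y / √(sq y) ^ 3)) / sq y)
        - Bf m z a b 5 (4 * a0 K φ) y := by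
  have hs : 0 < sq y := lt_of_lt_of_le one_pos hy
  obtain ⟨r, hr⟩ : ∃ r, r = √(sq y) := ⟨_, rfl⟩
  have hr0 : 0 < r := by rw [hr]; exact Real.sqrt_pos.2 hs
  have hrs : sq y = r ^ 2 := by rw [hr]; exact (Real.sq_sqrt hs.le).symm
  have hφ : φ (sq y) = 1 / r := by rw [hr]; exact d.prof.out _ hy
  have hψ : ψ (sq y) = -1 / (2 * sq y * r) := by rw [hr]; exact d.prof.outd _ hy
  have hχ : χ (sq y) = 1 / sq y := d.prof2.out _ hy
  have hω : ω (sq y) = -1 / sq y ^ 2 := d.prof2.outd _ hy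
  have het : et (sq y) = 0 := by
    unfold et
    split_ifs with h
    · have : sq y = 1 := le_antisymm h hy
      rw [this]
      norm_num
    · rfl
  have hetd : etd (sq y) = 0 := by
    unfold etd
    split_ifs with h
    · have : sq y = 1 := le_antisymm h hy
      rw [this]
      norm_num
    · rfl
  have hzt : zt K φ (sq y) = a0 K φ * (1 / r) := by
    unfold zt
    rw [het, hφ, zero_add]
  have hztd : ztd K φ ψ (sq y) = a0 K φ * (-1 / (2 * sq y * r)) := by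
    unfold ztd
    rw [hetd, hψ, zero_add]
  have h1 := Ft_nr d a b hy
  have h2 := GI_out (m := m) d.prof hy
  have h3 : ew m φ ψ y = Nd m y / sq y ^ 2 := by
    unfold ew eQ
    rw [hφ, hψ, opa_N, hrs]
    field_simp
    ring
  have h4 : ew m (zt K φ) (ztd K φ ψ) y = a0 K φ ^ 2 * (Nd m y / sq y ^ 2) := by
    unfold ew eQ
    rw [hzt, hztd, opa_N, hrs]
    field_simp
    ring
  have h5 : eVm m χ ω y = 4 * (Nd m y / sq y ^ 2) := by
    unfold eVm eV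
    rw [hχ, hω, opa_N, hrs]
    field_simp
    ring
  have h6 : X3 m a b χ ω (zt K φ) (ztd K φ ψ) y =
      -(2 * a0 K φ * (Nd m y / sq y ^ 2) * (R3 a b y / r ^ 3)) := by
    unfold X3
    rw [hzt, hztd, hχ, hω, hrs]
    field_simp
    ring
  unfold Ft eA Bf
  rw [h1, h2, h3, h4, h5, h6, hφ, hχ, ← hr, hrs]
  field_simp
  ring

end Pool.Agent.FND
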