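import Pool.Agent.FND.Defs
import Pool.Agent.FND.OPa

/-!
FND-OPt: pointwise inequality outside the disc.

The sign of the boundary multiplier decides between two cases.
-/

set_option autoImplicit false

open MeasureTheory Set
open Pool.Agent.Neu
open Pool.Agent.CS4 (Prof2 bb vv eV)

namespace Pool.Agent.FND

variable {K L : ℝ} {φ ψ χ ω : ℝ → ℝ}

private theorem op_core {MT c' ν u B sO : ℝ} (hν : 0 < ν) (hu : 0 ≤ u) (hs : 0 < sO)
    (hMT : 0 ≤ MT) (hc : 0 ≤ c') (h : 0 < B → sO ≤ MT + c' / (1 + B / (sO * ν))) :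
    -max 0 (B - sO * ν * u) ≤ ν * u * (MT + c' / (1 + u)) - B := by
  have h1u : 0 < 1 + u := by linarith
  have hq : 0 ≤ c' / (1 + u) := div_nonneg hc h1u.le
  by_cases hB : B ≤ 0
  · have h1 := le_max_left 0 (B - sO * ν * u)
    have h2 : 0 ≤ ν * u * (MT + c' / (1 + u)) := by positivity
    linarith
  · push Not at hB
    have hk := h hB
    obtain ⟨t, ht⟩ : ∃ t : ℝ, t = B / (sO * ν) := ⟨_, rfl⟩
    have ht0 : 0 < t := by rw [ht]; positivity
    have hBt : B = sO * ν * t := by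
      rw [ht]
      field_simp
    rw [← ht] at hk
    have h1t : 0 < 1 + t := by linarith
    by_cases hut : u ≤ t
    · have h1 := le_max_right 0 (B - sO * ν * u)
      have h2 : c' / (1 + t) ≤ c' / (1 + u) :=
        div_le_div_of_nonneg_left hc h1u (by linarith)
      have h3 : ν * u * sO ≤ ν * u * (MT + c' / (1 + u)) :=
        mul_le_mul_of_nonneg_left (by linarith) (by positivity)
      linarith
    · push Not at hut
      have h1 := le_max_left 0 (B - sO * ν * u)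
      have h2 : t * (c' / (1 + t)) ≤ u * (c' / (1 + u)) := by
        rw [← mul_div_assoc, ← mul_div_assoc, div_le_div_iff₀ h1t h1u]
        nlinarith
      have h3 : t * sO ≤ t * (MT + c' / (1 + t)) := mul_le_mul_of_nonneg_left hk ht0.le
      have h4 : t * MT ≤ u * MT := mul_le_mul_of_nonneg_right hut.le hMT
      have h5 : t * sO ≤ u * (MT + c' / (1 + u)) := by
        rw [mul_add] at h3 ⊢
        linarith
      have h6 : ν * (t * sO) ≤ ν * (u * (MT + c' / (1 + u))) := mul_le_mul_of_nonneg_left h5 hν.le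
      have h7 : ν * u * (MT + c' / (1 + u)) = ν * (u * (MT + c' / (1 + u))) := by ring
      have h8 : B = ν * (t * sO) := by
        rw [hBt]
        ring
      linarith

private theorem op_R3 (a b P : ℝ) (hP : 0 ≤ P) (hp : a ^ 2 + b ^ 2 ≤ P ^ 2) {y : E}
    (hy : 0 < sq y) : |R3 a b y / √(sq y) ^ 3| ≤ P := by
  have hr : 0 < √(sq y) := Real.sqrt_pos.mpr hy
  have hr2 : √(sq y) ^ 2 = sq y := Real.sq_sqrt hy.le
  rw [abs_div, abs_of_pos (by positivity : 0 < √(sq y) ^ 3), div_le_iff₀ (by positivity)]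
  apply abs_le_of_sq_le_sq _ (by positivity)
  have h1 : (P * √(sq y) ^ 3) ^ 2 = P ^ 2 * sq y ^ 3 := by
    have h0 : (P * √(sq y) ^ 3) ^ 2 = P ^ 2 * (√(sq y) ^ 2) ^ 3 := by ring
    rw [h0, hr2]
  rw [h1]
  have h2 : R3 a b y ^ 2 + I3 a b y ^ 2 = (a ^ 2 + b ^ 2) * sq y ^ 3 := by
    unfold R3 I3 c3 s3 Pool.Agent.Neu.sq
    ring
  have h3 : (a ^ 2 + b ^ 2) * sq y ^ 3 ≤ P ^ 2 * sq y ^ 3 :=
    mul_le_mul_of_nonneg_right hp (by positivity)
  nlinarith [_root_.sq_nonneg (I3 a b y)]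

private theorem op_R1 (a b P : ℝ) (hP : 0 ≤ P) (hp : a ^ 2 + b ^ 2 ≤ P ^ 2) {y : E}
    (hy : 0 < sq y) : |R1 a b y / √(sq y)| ≤ P := by
  have hr : 0 < √(sq y) := Real.sqrt_pos.mpr hy
  have hr2 : √(sq y) ^ 2 = sq y := Real.sq_sqrt hy.le
  rw [abs_div, abs_of_pos hr, div_le_iff₀ hr]
  apply abs_le_of_sq_le_sq _ (by positivity)
  have h1 : (P * √(sq y)) ^ 2 = P ^ 2 * sq y := by
    rw [mul_pow, hr2]
  rw [h1]
  have h2 : R1 a b y ^ 2 + (a * y 1 - b * y 0) ^ 2 = (a ^ 2 + b ^ 2) * sq y := by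
    unfold R1 Pool.Agent.Neu.sq
    ring
  have h3 : (a ^ 2 + b ^ 2) * sq y ≤ P ^ 2 * sq y :=
    mul_le_mul_of_nonneg_right hp (by positivity)
  nlinarith [_root_.sq_nonneg (a * y 1 - b * y 0)]

/-- numerical part, cell by cell -/
private theorem op_num (d : Dat K L φ ψ χ ω) {c : Cell} (hc : IsCell c) {z : ℝ} (hz0 : 0 ≤ z)
    (hz1 : z ≤ c.z1) : 0 < c.P1 ∧ 0 < c.sO ∧ 0 < c.M ∧ z < 1 ∧ c.P1 ≤ 1075 / 1000 ∧
      ∀ Q t : ℝ, 4 - 4 * a0 K φ * (z * c.P1) + c.M * (2 / mw K) ≤ Q →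
        t ≤ (10 * (1 + z ^ 2) / (1 - z) * c.P1 + 4 * a0 K φ * c.P1) / c.sO → 0 ≤ t →
        c.sO ≤ c.M * (96 / 100 * T0 K L) + Q / (1 + t) := by
  obtain ⟨a1, a2⟩ := a0_bd d
  obtain ⟨m1, m2⟩ := mw_bd d
  obtain ⟨t1, t2⟩ := T0_bd d
  have hmw : 9029 / 10000 ≤ 2 / mw K := by
    rw [le_div_iff₀ (by linarith)]
    linarith
  have main : ∀ (M z1 P1 sO : ℝ), 0 < M → 0 ≤ z1 → z1 < 1 → 0 < P1 → 0 < sO → z ≤ z1 →
      (sO - M * (96 / 100 * (102547 / 10000))) *
        (1 + (10 * (1 + z1 ^ 2) / (1 - z1) * P1 + 4 * (3232 / 10000) * P1) / sO) ≤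
        4 - 4 * (3232 / 10000) * (z1 * P1) + M * (9029 / 10000) →
      0 ≤ sO - M * (96 / 100 * (102547 / 10000)) →
      ∀ Q t : ℝ, 4 - 4 * a0 K φ * (z * P1) + M * (2 / mw K) ≤ Q →
        t ≤ (10 * (1 + z ^ 2) / (1 - z) * P1 + 4 * a0 K φ * P1) / sO → 0 ≤ t →
        sO ≤ M * (96 / 100 * T0 K L) + Q / (1 + t) := by
    intro M z1 P1 sO hM h0 h1 hP hs hz hn hn0 Q t hQ ht ht0
    have e1 : M * (96 / 100 * (102547 / 10000)) ≤ M * (96 / 100 * T0 K L) :=
      mul_le_mul_of_nonneg_left (by linarith) hM.le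
    have e2 : z * P1 ≤ z1 * P1 := mul_le_mul_of_nonneg_right hz hP.le
    have e3 : 4 * a0 K φ * (z * P1) ≤ 4 * (3232 / 10000) * (z1 * P1) := by
      apply mul_le_mul (by linarith) e2 (by positivity) (by norm_num)
    have e4 : M * (9029 / 10000) ≤ M * (2 / mw K) := mul_le_mul_of_nonneg_left hmw hM.le
    have e5 : 10 * (1 + z ^ 2) / (1 - z) ≤ 10 * (1 + z1 ^ 2) / (1 - z1) := by
      apply div_le_div₀ (by positivity) (by nlinarith) (by linarith) (by linarith)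
    have e6 : (10 * (1 + z ^ 2) / (1 - z) * P1 + 4 * a0 K φ * P1) / sO ≤
        (10 * (1 + z1 ^ 2) / (1 - z1) * P1 + 4 * (3232 / 10000) * P1) / sO := by
      apply div_le_div_of_nonneg_right _ hs.le
      have e7 := mul_le_mul_of_nonneg_right e5 hP.le
      have e8 : 4 * a0 K φ * P1 ≤ 4 * (3232 / 10000) * P1 :=
        mul_le_mul_of_nonneg_right (by linarith) hP.le
      linarith
    have e9 : (sO - M * (96 / 100 * (102547 / 10000))) * (1 + t) ≤ Q := by
      have e10 := mul_le_mul_of_nonneg_left (add_le_add_right (ht.trans e6) 1) hn0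
      linarith
    have e11 : sO - M * (96 / 100 * (102547 / 10000)) ≤ Q / (1 + t) := by
      rw [le_div_iff₀ (by linarith)]
      exact e9
    linarith
  rcases hc with rfl | rfl | rfl
  · simp only [cA] at hz1 ⊢
    refine ⟨by norm_num, by norm_num, by norm_num, by linarith, by norm_num, ?_⟩
    exact main _ (127 / 1000) _ _ (by norm_num) (by norm_num) (by norm_num) (by norm_num)
      (by norm_num) hz1 (by norm_num) (by norm_num)
  · simp only [cB] at hz1 ⊢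
    refine ⟨by norm_num, by norm_num, by norm_num, by linarith, by norm_num, ?_⟩
    exact main _ (2087 / 10000) _ _ (by norm_num) (by norm_num) (by norm_num) (by norm_num)
      (by norm_num) hz1 (by norm_num) (by norm_num)
  · simp only [cC] at hz1 ⊢
    refine ⟨by norm_num, by norm_num, by norm_num, by linarith, by norm_num, ?_⟩
    exact main _ (3149 / 10000) _ _ (by norm_num) (by norm_num) (by norm_num) (by norm_num)
      (by norm_num) hz1 (by norm_num) (by norm_num)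

theorem Ft_out (d : Dat K L φ ψ χ ω) {c : Cell} (hc : IsCell c) {z a b : ℝ} (hz0 : 0 ≤ z)
    (hz1 : z ≤ c.z1) (hp : a ^ 2 + b ^ 2 ≤ c.P1 ^ 2) {y : E} (hy : 1 ≤ sq y) :
    -max 0 (Bf (2 * z / (1 + z ^ 2)) z a b 5 (4 * a0 K φ) y
        - c.sO * (Nd (2 * z / (1 + z ^ 2)) y / sq y) * (sq y - 1))
      ≤ Ft K L φ ψ χ ω c.M z (2 * z / (1 + z ^ 2)) a b y := by
  obtain ⟨hP, hs, hM, hz, hPl, hnum⟩ := op_num d hc hz0 hz1
  obtain ⟨a1, a2⟩ := a0_bd d
  obtain ⟨m1, m2⟩ := mw_bd d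
  obtain ⟨t1, t2⟩ := T0_bd d
  have hy0 : 0 < sq y := by linarith
  rw [Ft_out_eq d _ _ _ _ _ hy]
  have hB : Bf (2 * z / (1 + z ^ 2)) z a b 5 (4 * a0 K φ) y =
      5 * (R3 a b y / √(sq y) ^ 3 - z * (R1 a b y / √(sq y)))
        + 4 * a0 K φ * (Nd (2 * z / (1 + z ^ 2)) y / sq y) * (R3 a b y / √(sq y) ^ 3) := rfl
  have hX := Pu_sq (z := z) a b hy0
  have h3 := op_R3 a b c.P1 hP.le hp hy0
  have h1 := op_R1 a b c.P1 hP.le hp hy0
  have hm0 : 0 ≤ 2 * z / (1 + z ^ 2) := by positivity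
  have hm1 : 2 * z / (1 + z ^ 2) ≤ 1 := by
    rw [div_le_one (by positivity)]
    nlinarith [_root_.sq_nonneg (z - 1)]
  have hN := (Nd_bd hm0 hm1 y).1
  have hν1 : (1 - 2 * z / (1 + z ^ 2)) / 2 ≤ Nd (2 * z / (1 + z ^ 2)) y / sq y := by
    rw [le_div_iff₀ hy0]
    exact hN
  obtain ⟨B, hBe⟩ : ∃ B, B = Bf (2 * z / (1 + z ^ 2)) z a b 5 (4 * a0 K φ) y := ⟨_, rfl⟩
  obtain ⟨C3, hC3⟩ : ∃ C3, C3 = R3 a b y / √(sq y) ^ 3 := ⟨_, rfl⟩
  obtain ⟨C1, hC1⟩ : ∃ C1, C1 = R1 a b y / √(sq y) := ⟨_, rfl⟩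
  obtain ⟨ν, hν⟩ : ∃ ν, ν = Nd (2 * z / (1 + z ^ 2)) y / sq y := ⟨_, rfl⟩
  rw [← hBe] at hB ⊢
  rw [← hC3, ← hC1, ← hν] at hX
  rw [← hC3] at h3 ⊢
  rw [← hC1] at h1
  rw [← hν] at hν1 ⊢
  rw [← hC3, ← hC1, ← hν] at hB
  have hz2 : 0 < 1 + z ^ 2 := by positivity
  have hzz : 0 < 1 - z := by linarith
  have hg : (1 - z) ^ 2 ≤ 2 * (1 + z ^ 2) * ν := by
    have e1 : (1 - 2 * z / (1 + z ^ 2)) / 2 = (1 - z) ^ 2 / (2 * (1 + z ^ 2)) := by
      field_simp
      ring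
    rw [e1, div_le_iff₀ (by positivity)] at hν1
    linarith
  have hνp : 0 < ν := by
    have e1 : 0 < (1 - z) ^ 2 := by positivity
    by_contra hcon
    push Not at hcon
    nlinarith
  obtain ⟨g, hgd⟩ : ∃ g, g = 2 * (1 + z ^ 2) * ν := ⟨_, rfl⟩
  rw [← hgd] at hg hX
  have hg0 : 0 < g := by rw [hgd]; positivity
  have hXb : C3 - z * C1 ≤ g * c.P1 / (1 - z) := by
    apply le_of_abs_le
    apply abs_le_of_sq_le_sq _ (by positivity)
    have e1 : g * (a ^ 2 + b ^ 2) ≤ g * c.P1 ^ 2 := mul_le_mul_of_nonneg_left hp hg0.le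
    have e2 : g * c.P1 ^ 2 ≤ (g * c.P1 / (1 - z)) ^ 2 := by
      rw [div_pow, le_div_iff₀ (by positivity)]
      have e3 : g * c.P1 ^ 2 * (1 - z) ^ 2 ≤ g * c.P1 ^ 2 * g :=
        mul_le_mul_of_nonneg_left hg (by positivity)
      linarith
    linarith
  have h3' := abs_le.mp h3
  have h1' := abs_le.mp h1
  have ha0 : 0 < a0 K φ := by linarith
  have hBb : B ≤ ν * (10 * (1 + z ^ 2) / (1 - z) * c.P1 + 4 * a0 K φ * c.P1) := by
    have e1 : 5 * (g * c.P1 / (1 - z)) = ν * (10 * (1 + z ^ 2) / (1 - z) * c.P1) := by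
      rw [hgd]
      field_simp
      ring
    have e2 : 4 * a0 K φ * ν * C3 ≤ 4 * a0 K φ * ν * c.P1 :=
      mul_le_mul_of_nonneg_left h3'.2 (by positivity)
    rw [hB]
    linarith
  have hsy : sq y = 1 + (sq y - 1) := by ring
  have hmwp : 0 < 2 / mw K := by
    have : 0 < mw K := by linarith
    positivity
  have hkey := op_core (MT := c.M * (96 / 100 * T0 K L))
    (c' := c.M * (2 / mw K) + 4 + a0 K φ ^ 2 * (a ^ 2 + b ^ 2) + 4 * a0 K φ * C3) (ν := ν)
    (u := sq y - 1) (B := B) (sO := c.sO) hνp (by linarith) hs (by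
      have : 0 < T0 K L := by linarith
      positivity) (by
      have e1 : 0 < c.M * (2 / mw K) := by positivity
      have e2 : 0 ≤ a0 K φ ^ 2 * (a ^ 2 + b ^ 2) := by positivity
      have e3 : a0 K φ * (-c.P1) ≤ a0 K φ * C3 := mul_le_mul_of_nonneg_left h3'.1 ha0.le
      have e4 : a0 K φ * c.P1 ≤ 3232 / 10000 * (1075 / 1000) :=
        mul_le_mul a2.le hPl hP.le (by norm_num)
      linarith) (by
      intro hB0
      refine hnum _ _ ?_ ?_ ?_
      · have e2 : 0 ≤ a0 K φ ^ 2 * (a ^ 2 + b ^ 2) := by positivity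
        have e3 : -(z * c.P1) ≤ C3 := by
          by_contra hcon
          push Not at hcon
          have e4 : C3 < 0 := by
            have e0 := mul_nonneg hz0 hP.le
            linarith
          have e5 : 4 * a0 K φ * ν * C3 ≤ 0 := by
            have e6 : 0 ≤ 4 * a0 K φ * ν := by positivity
            exact mul_nonpos_of_nonneg_of_nonpos e6 e4.le
          have e7 : -(z * c.P1) ≤ z * C1 := by
            have e0 := mul_le_mul_of_nonneg_left h1'.1 hz0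
            linarith
          rw [hB] at hB0
          linarith
        have e8 : 4 * a0 K φ * (-(z * c.P1)) ≤ 4 * a0 K φ * C3 :=
          mul_le_mul_of_nonneg_left e3 (by positivity)
        linarith
      · rw [div_le_div_iff₀ (by positivity) hs]
        have e1 := mul_le_mul_of_nonneg_right hBb hs.le
        linarith
      · positivity)
  rw [← hsy] at hkey
  refine hkey.trans (le_of_eq ?_)
  ring

end Pool.Agent.FND
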