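import Pool.Agent.FND.Defs
import Pool.Agent.FND.GradA

/-!
FND-Proj: projection.
-/

set_option autoImplicit false

open MeasureTheory Set
open Pool.Agent.Neu
open Pool.Agent.CS4 (Prof2 bb vv eV)

namespace Pool.Agent.FND

variable {K L : ℝ} {φ ψ χ ω : ℝ → ℝ}

private theorem key {W : Set E} (hb : Bornology.IsBounded W) (c0 c1 μ : ℝ) {A v0 v1 g : E → ℝ}
    (hA : Continuous A) (h0 : Continuous v0) (h1 : Continuous v1) (hg : Continuous g) :
    ∫ y in W, (A y - (c0 * v0 y + c1 * v1 y) - μ) * g y =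
      (∫ y in W, A y * g y) - c0 * (∫ y in W, v0 y * g y) - c1 * (∫ y in W, v1 y * g y)
        - μ * ∫ y in W, g y := by
  have e : ∀ y, (A y - (c0 * v0 y + c1 * v1 y) - μ) * g y =
      A y * g y - c0 * (v0 y * g y) - c1 * (v1 y * g y) - μ * g y := fun y => by ring
  rw [integral_congr_ae (Filter.Eventually.of_forall e)]
  rw [integral_sub, integral_sub, integral_sub, integral_const_mul, integral_const_mul,
    integral_const_mul]
  all_goals exact M1x.intOn (by fun_prop) hb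

private theorem cont_en {m : ℝ} {f g : E → ℝ} (hf : ContDiff ℝ 1 f) (hg : ContDiff ℝ 1 g) :
    Continuous (en m f g) := by
  have h1 := cont_pd hf
  have h2 := cont_pd hg
  unfold en
  exact ((continuous_const.mul ((h1 0).mul (h2 0))).add (continuous_const.mul ((h1 1).mul (h2 1))))

private theorem pd_comb {A v0 v1 : E → ℝ} (hA : ContDiff ℝ 1 A) (h0 : ContDiff ℝ 1 v0)
    (h1 : ContDiff ℝ 1 v1) (c0 c1 μ : ℝ) (j : Fin 2) (y : E) :
    pd j (fun y => A y - (c0 * v0 y + c1 * v1 y) - μ) y =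
      pd j A y - (c0 * pd j v0 y + c1 * pd j v1 y) := by
  have dA : HasFDerivAt A (fderiv ℝ A y) y := (hA.differentiable one_ne_zero y).hasFDerivAt
  have d0 : HasFDerivAt v0 (fderiv ℝ v0 y) y := (h0.differentiable one_ne_zero y).hasFDerivAt
  have d1 : HasFDerivAt v1 (fderiv ℝ v1 y) y := (h1.differentiable one_ne_zero y).hasFDerivAt
  have h := ((dA.sub ((d0.const_mul c0).add (d1.const_mul c1))).sub_const μ).fderiv
  unfold pd
  have h' : fderiv ℝ (fun y => A y - (c0 * v0 y + c1 * v1 y) - μ) y =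
      fderiv ℝ A y - (c0 • fderiv ℝ v0 y + c1 • fderiv ℝ v1 y) := h
  rw [h']
  simp

private theorem en_le {m : ℝ} (hm0 : 0 ≤ m) (hm1 : m ≤ 1) {A v0 v1 : E → ℝ}
    (hA : ContDiff ℝ 1 A) (h0 : ContDiff ℝ 1 v0) (h1 : ContDiff ℝ 1 v1) (c0 c1 μ : ℝ) (y : E) :
    en m (fun y => A y - (c0 * v0 y + c1 * v1 y) - μ)
      (fun y => A y - (c0 * v0 y + c1 * v1 y) - μ) y ≤
      en m A A y - 2 * c0 * en m A v0 y - 2 * c1 * en m A v1 y
        + (c0 ^ 2 + c1 ^ 2) * (en m v0 v0 y + en m v1 v1 y) := by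
  unfold en
  rw [pd_comb hA h0 h1, pd_comb hA h0 h1]
  have p1 : 0 ≤ (1 + m) / 2 * (c1 * pd 0 v0 y - c0 * pd 0 v1 y) ^ 2 := by positivity
  have p2 : 0 ≤ (1 - m) / 2 * (c1 * pd 1 v0 y - c0 * pd 1 v1 y) ^ 2 :=
    mul_nonneg (by linarith) (sq_nonneg _)
  nlinarith

private theorem int_en_le {W : Set E} (hW : MeasurableSet W) (hb : Bornology.IsBounded W) {m : ℝ}
    (hm0 : 0 ≤ m) (hm1 : m ≤ 1) {A v0 v1 : E → ℝ}
    (hA : ContDiff ℝ 1 A) (h0 : ContDiff ℝ 1 v0) (h1 : ContDiff ℝ 1 v1) (c0 c1 μ : ℝ) :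
    ∫ y in W, en m (fun y => A y - (c0 * v0 y + c1 * v1 y) - μ)
      (fun y => A y - (c0 * v0 y + c1 * v1 y) - μ) y ≤
      (∫ y in W, en m A A y) - 2 * c0 * (∫ y in W, en m A v0 y) - 2 * c1 * (∫ y in W, en m A v1 y)
        + (c0 ^ 2 + c1 ^ 2) * ∫ y in W, (en m v0 v0 y + en m v1 v1 y) := by
  have hu : ContDiff ℝ 1 (fun y => A y - (c0 * v0 y + c1 * v1 y) - μ) :=
    (hA.sub ((contDiff_const.mul h0).add (contDiff_const.mul h1))).sub contDiff_const
  have q1 : Continuous (en m A A) := cont_en hA hA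
  have q2 : Continuous (en m A v0) := cont_en hA h0
  have q3 : Continuous (en m A v1) := cont_en hA h1
  have q4 : Continuous (en m v0 v0) := cont_en h0 h0
  have q5 : Continuous (en m v1 v1) := cont_en h1 h1
  have e : ∫ y in W, (en m A A y - 2 * c0 * en m A v0 y - 2 * c1 * en m A v1 y
        + (c0 ^ 2 + c1 ^ 2) * (en m v0 v0 y + en m v1 v1 y)) =
      (∫ y in W, en m A A y) - 2 * c0 * (∫ y in W, en m A v0 y) - 2 * c1 * (∫ y in W, en m A v1 y)
        + (c0 ^ 2 + c1 ^ 2) * ∫ y in W, (en m v0 v0 y + en m v1 v1 y) := by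
    rw [integral_add, integral_sub, integral_sub, integral_const_mul, integral_const_mul,
      integral_const_mul]
    all_goals exact M1x.intOn (by fun_prop) hb
  rw [← e]
  refine setIntegral_mono_on (M1x.intOn (cont_en hu hu) hb) (M1x.intOn (by fun_prop) hb) hW ?_
  intro y _
  exact en_le hm0 hm1 hA h0 h1 c0 c1 μ y

theorem proj {W : Set E} (hW : MeasurableSet W) (hb : Bornology.IsBounded W)
    (hv : volume W = ENNReal.ofReal Real.pi) {A v : Fin 2 → E → ℝ}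
    (hA : ∀ i, ContDiff ℝ 1 (A i)) (hv' : ∀ i, ContDiff ℝ 1 (v i)) {M1 : ℝ} (hM : 0 < M1)
    (h0 : ∀ i, ∫ y in W, v i y = 0) (h1 : ∫ y in W, v 0 y * v 1 y = 0)
    (h2 : ∀ i, ∫ y in W, v i y ^ 2 = M1 / 2) {m : ℝ} (hm0 : 0 ≤ m) (hm1 : m ≤ 1)
    {eS d0 d1 a b : ℝ}
    (k1 : (∫ y in W, A 0 y * v 0 y) - (∫ y in W, A 1 y * v 1 y) = a * eS)
    (k2 : (∫ y in W, A 0 y * v 1 y) + (∫ y in W, A 1 y * v 0 y) = b * eS)
    (k3 : (∫ y in W, A 0 y * v 0 y) + (∫ y in W, A 1 y * v 1 y) = d0)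
    (k4 : (∫ y in W, A 1 y * v 0 y) - (∫ y in W, A 0 y * v 1 y) = d1) :
    ∃ u : Fin 2 → E → ℝ, (∀ i, ContDiff ℝ 1 (u i)) ∧ (∀ i, ∫ y in W, u i y = 0) ∧
      (∀ i j, ∫ y in W, u i y * v j y = 0) ∧
      (∫ y in W, u 0 y ^ 2) + (∫ y in W, u 1 y ^ 2)
        = (∫ y in W, (A 0 y ^ 2 + A 1 y ^ 2)) - ((a ^ 2 + b ^ 2) * eS ^ 2 + d0 ^ 2 + d1 ^ 2) / M1
          - ((∫ y in W, A 0 y) ^ 2 + (∫ y in W, A 1 y) ^ 2) / Real.pi ∧
      (∫ y in W, en m (u 0) (u 0) y) + (∫ y in W, en m (u 1) (u 1) y)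
        ≤ (∫ y in W, (en m (A 0) (A 0) y + en m (A 1) (A 1) y))
          - 2 / M1 * (eS * (a * ((∫ y in W, en m (A 0) (v 0) y) - ∫ y in W, en m (A 1) (v 1) y)
              + b * ((∫ y in W, en m (A 0) (v 1) y) + ∫ y in W, en m (A 1) (v 0) y))
            + (d0 * ∫ y in W, (en m (A 0) (v 0) y + en m (A 1) (v 1) y))
            + (d1 * ∫ y in W, (en m (A 1) (v 0) y - en m (A 0) (v 1) y)))
          + 2 / M1 ^ 2 * ((a ^ 2 + b ^ 2) * eS ^ 2 + d0 ^ 2 + d1 ^ 2) *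
            ∫ y in W, (en m (v 0) (v 0) y + en m (v 1) (v 1) y) := by
  have hpi := Real.pi_pos
  have cA : ∀ i, Continuous (A i) := fun i => (hA i).continuous
  have cv : ∀ i, Continuous (v i) := fun i => (hv' i).continuous
  set μ : Fin 2 → ℝ := fun i => (∫ y in W, A i y) / Real.pi with hμ
  set c : Fin 2 → Fin 2 → ℝ := fun i j => 2 / M1 * ∫ y in W, A i y * v j y with hc
  set u : Fin 2 → E → ℝ := fun i y => A i y - (c i 0 * v 0 y + c i 1 * v 1 y) - μ i with hu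
  have cu : ∀ i, Continuous (u i) := by
    intro i
    have := cA i
    have := cv 0
    have := cv 1
    simp only [hu]
    fun_prop
  have hvol : ∫ y in W, (1 : ℝ) = Real.pi := by
    rw [setIntegral_const, smul_eq_mul, mul_one, Measure.real, hv,
      ENNReal.toReal_ofReal hpi.le]
  have K0 : ∀ i (g : E → ℝ), Continuous g → ∫ y in W, u i y * g y =
      (∫ y in W, A i y * g y) - c i 0 * (∫ y in W, v 0 y * g y) - c i 1 * (∫ y in W, v 1 y * g y)
        - μ i * ∫ y in W, g y := fun i g hg => key hb (c i 0) (c i 1) (μ i) (cA i) (cv 0) (cv 1) hg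
  have u0 : ∀ i, ∫ y in W, u i y = 0 := by
    intro i
    have e := K0 i (fun _ => 1) continuous_const
    simp only [mul_one] at e
    rw [e, h0 0, h0 1, hvol]
    simp only [hμ]
    field_simp
    ring
  have v01 : ∫ y in W, v 1 y * v 0 y = 0 := by
    rw [← h1]
    exact integral_congr_ae (Filter.Eventually.of_forall fun y => mul_comm _ _)
  have vv0 : ∀ i, ∫ y in W, v i y * v i y = M1 / 2 := by
    intro i
    rw [← h2 i]
    exact integral_congr_ae (Filter.Eventually.of_forall fun y => (pow_two _).symm)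
  have uv : ∀ i j, ∫ y in W, u i y * v j y = 0 := by
    intro i j
    rw [K0 i (v j) (cv j), h0 j]
    fin_cases j
    · change (∫ y in W, A i y * v 0 y) - c i 0 * (∫ y in W, v 0 y * v 0 y)
        - c i 1 * (∫ y in W, v 1 y * v 0 y) - μ i * 0 = 0
      rw [v01, vv0 0]
      simp only [hc]
      field_simp
      ring
    · change (∫ y in W, A i y * v 1 y) - c i 0 * (∫ y in W, v 0 y * v 1 y)
        - c i 1 * (∫ y in W, v 1 y * v 1 y) - μ i * 0 = 0
      rw [h1, vv0 1]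
      simp only [hc]
      field_simp
      ring
  have uA : ∀ i, ∫ y in W, u i y * A i y = (∫ y in W, A i y ^ 2)
      - 2 / M1 * ((∫ y in W, A i y * v 0 y) ^ 2 + (∫ y in W, A i y * v 1 y) ^ 2)
      - (∫ y in W, A i y) ^ 2 / Real.pi := by
    intro i
    rw [K0 i (A i) (cA i)]
    have e1 : ∫ y in W, A i y * A i y = ∫ y in W, A i y ^ 2 :=
      integral_congr_ae (Filter.Eventually.of_forall fun y => (pow_two _).symm)
    have e2 : ∀ j, ∫ y in W, v j y * A i y = ∫ y in W, A i y * v j y := fun j =>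
      integral_congr_ae (Filter.Eventually.of_forall fun y => mul_comm _ _)
    rw [e1, e2 0, e2 1]
    simp only [hc, hμ]
    ring
  have uu : ∀ i, ∫ y in W, u i y ^ 2 = ∫ y in W, u i y * A i y := by
    intro i
    have e1 : ∫ y in W, u i y ^ 2 = ∫ y in W, u i y * u i y :=
      integral_congr_ae (Filter.Eventually.of_forall fun y => pow_two _)
    rw [e1, K0 i (u i) (cu i), u0 i]
    have e2 : ∀ j, ∫ y in W, v j y * u i y = 0 := fun j => by
      rw [← uv i j]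
      exact integral_congr_ae (Filter.Eventually.of_forall fun y => mul_comm _ _)
    rw [e2 0, e2 1]
    have e3 : ∫ y in W, A i y * u i y = ∫ y in W, u i y * A i y :=
      integral_congr_ae (Filter.Eventually.of_forall fun y => mul_comm _ _)
    rw [e3]
    ring
  refine ⟨u, fun i => ?_, u0, uv, ?_, ?_⟩
  · exact ((hA i).sub ((contDiff_const.mul (hv' 0)).add (contDiff_const.mul (hv' 1)))).sub
      contDiff_const
  · rw [uu 0, uu 1, uA 0, uA 1]
    have e : ∫ y in W, (A 0 y ^ 2 + A 1 y ^ 2) =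
        (∫ y in W, A 0 y ^ 2) + ∫ y in W, A 1 y ^ 2 :=
      integral_add (M1x.intOn ((cA 0).pow 2) hb) (M1x.intOn ((cA 1).pow 2) hb)
    rw [e, ← k3, ← k4]
    have e2 : (a ^ 2 + b ^ 2) * eS ^ 2 = (a * eS) ^ 2 + (b * eS) ^ 2 := by ring
    rw [e2, ← k1, ← k2]
    field_simp
    ring
  · have e0 := int_en_le hW hb hm0 hm1 (hA 0) (hv' 0) (hv' 1) (c 0 0) (c 0 1) (μ 0)
    have e1 := int_en_le hW hb hm0 hm1 (hA 1) (hv' 0) (hv' 1) (c 1 0) (c 1 1) (μ 1)
    have e : ∀ f g : E → ℝ, ContDiff ℝ 1 f → ContDiff ℝ 1 g → Continuous (en m f g) :=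
      fun f g hf hg => cont_en hf hg
    have s1 : ∫ y in W, (en m (A 0) (A 0) y + en m (A 1) (A 1) y) =
        (∫ y in W, en m (A 0) (A 0) y) + ∫ y in W, en m (A 1) (A 1) y :=
      integral_add (M1x.intOn (e _ _ (hA 0) (hA 0)) hb) (M1x.intOn (e _ _ (hA 1) (hA 1)) hb)
    have s2 : ∫ y in W, (en m (A 0) (v 0) y + en m (A 1) (v 1) y) =
        (∫ y in W, en m (A 0) (v 0) y) + ∫ y in W, en m (A 1) (v 1) y :=
      integral_add (M1x.intOn (e _ _ (hA 0) (hv' 0)) hb) (M1x.intOn (e _ _ (hA 1) (hv' 1)) hb)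
    have s3 : ∫ y in W, (en m (A 1) (v 0) y - en m (A 0) (v 1) y) =
        (∫ y in W, en m (A 1) (v 0) y) - ∫ y in W, en m (A 0) (v 1) y :=
      integral_sub (M1x.intOn (e _ _ (hA 1) (hv' 0)) hb) (M1x.intOn (e _ _ (hA 0) (hv' 1)) hb)
    have t1 : (∫ y in W, en m (u 0) (u 0) y) + (∫ y in W, en m (u 1) (u 1) y) ≤
        ((∫ y in W, en m (A 0) (A 0) y) - 2 * c 0 0 * (∫ y in W, en m (A 0) (v 0) y)
          - 2 * c 0 1 * (∫ y in W, en m (A 0) (v 1) y)
          + (c 0 0 ^ 2 + c 0 1 ^ 2) * ∫ y in W, (en m (v 0) (v 0) y + en m (v 1) (v 1) y)) +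
        ((∫ y in W, en m (A 1) (A 1) y) - 2 * c 1 0 * (∫ y in W, en m (A 1) (v 0) y)
          - 2 * c 1 1 * (∫ y in W, en m (A 1) (v 1) y)
          + (c 1 0 ^ 2 + c 1 1 ^ 2) * ∫ y in W, (en m (v 0) (v 0) y + en m (v 1) (v 1) y)) :=
      add_le_add e0 e1
    refine le_trans t1 (le_of_eq ?_)
    rw [s1, s2, s3]
    have e3 : (a ^ 2 + b ^ 2) * eS ^ 2 = (a * eS) ^ 2 + (b * eS) ^ 2 := by ring
    have e4 : ∀ X Y : ℝ, eS * (a * X + b * Y) = (a * eS) * X + (b * eS) * Y := fun X Y => by ring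
    rw [e3, e4, ← k1, ← k2, ← k3, ← k4]
    simp only [hc]
    field_simp
    ring

end Pool.Agent.FND
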