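import Pool.Agent.FND.Defs
import Pool.Agent.FND.Base

/-!
FND-SDef: the functions of `s` inside the disc.

Definitions only, nothing to prove.
-/

set_option autoImplicit false

open MeasureTheory Set
open Pool.Agent.Neu
open Pool.Agent.CS4 (Prof2 bb vv eV)

namespace Pool.Agent.FND

variable {K L : ℝ} {φ ψ χ ω : ℝ → ℝ}

noncomputable def hdf (χ ω : ℝ → ℝ) (s : ℝ) : ℝ := 2 * (χ s + s * ω s)
noncomputable def gdf (φ ψ : ℝ → ℝ) (s : ℝ) : ℝ := φ s + 2 * s * ψ s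
noncomputable def zpf (K : ℝ) (φ ψ : ℝ → ℝ) (s : ℝ) : ℝ := zt K φ s + 2 * s * ztd K φ ψ s

noncomputable def al (K L : ℝ) (φ χ : ℝ → ℝ) (M s : ℝ) : ℝ :=
  M * (96 / 100 * T0 K L * ((1 - s) - (1 - s * φ s ^ 2) / 2)
      + 2 / mw K * (φ s ^ 2 - 1 + (1 - s * φ s ^ 2) / 2) + 105 / 100 * (1 - s * φ s ^ 2))
    + 4 * (s * χ s ^ 2 - 1) + 2 * (1 - s * φ s ^ 2) + L / 2 * (1 - (s * χ s) ^ 2)

noncomputable def be (K L : ℝ) (φ ψ χ ω : ℝ → ℝ) (M s : ℝ) : ℝ :=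
  M * (96 / 100 * T0 K L * ((1 - s * φ s ^ 2) / 2)
      + 2 / mw K * (gdf φ ψ s ^ 2 - (1 - s * φ s ^ 2) / 2) + 105 / 100 * (1 - s * φ s ^ 2))
    + s * hdf χ ω s ^ 2 - 2 * (1 - s * φ s ^ 2) + L / 2 * (1 - (s * χ s) ^ 2)

noncomputable def ep (K L : ℝ) (φ ψ : ℝ → ℝ) (x s : ℝ) : ℝ :=
  (1 / 2 - x / 2) * zpf K φ ψ s ^ 2 + (1 / 2 + x / 2) * zt K φ s ^ 2
    - a0 K φ ^ 2 / 2 * ((1 / 2 - x / 2) * (1 - s * φ s ^ 2)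
      + (1 / 2 + x / 2) * (2 - (1 - s * φ s ^ 2)))
    - L / 2 * (s * et s ^ 2 + 2 * a0 K φ * (s * et s * φ s) - a0 K φ ^ 2 * (1 - s * φ s ^ 2))

noncomputable def Gam (K L : ℝ) (φ ψ χ ω : ℝ → ℝ) (x s : ℝ) : ℝ :=
  -(1 - x) * (hdf χ ω s * zpf K φ ψ s) + L * (s * χ s * et s)
    + 2 * (1 + x) * (χ s * (et s + a0 K φ * φ s * (1 - s)))

noncomputable def Del (K : ℝ) (φ ψ χ ω : ℝ → ℝ) (s : ℝ) : ℝ :=
  hdf χ ω s * zt K φ s + 2 * (χ s * zpf K φ ψ s)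

end Pool.Agent.FND
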