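import Pool.Agent.FND.Defs
import Pool.Agent.FND.SDef

/-!
FND-SCd: the univariate function of the decisive inequality.

Definitions only, nothing to prove.
-/

set_option autoImplicit false

open MeasureTheory Set
open Pool.Agent.Neu
open Pool.Agent.CS4 (Prof2 bb vv eV)

namespace Pool.Agent.FND

variable {K L : ℝ} {φ ψ χ ω : ℝ → ℝ}

/-- the univariate function at `P = P1`, `|C₃| = P`; `e` majorant of `|e|/u²`, `k` majorant of the
`δ`-term divided by `u` -/
noncomputable def Uf (K L : ℝ) (φ ψ χ ω : ℝ → ℝ) (c : Cell) (G e k x s : ℝ) : ℝ :=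
  (1 / 2 + x / 2) * (al K L φ χ c.M s - c.si * (√s * (s * φ s * χ s)) * (1 - s))
    + (1 / 2 - x / 2) * be K L φ ψ χ ω c.M s - c.P1 ^ 2 * (7 / 2 * (1 - s) ^ 5)
    - c.je * (e * (1 - s) ^ 2) - c.jd * (74 / 100 * (1 - s) ^ 2 + c.P1 * (s * et s * φ s))
    - 24 / 100 * (7 / 100 * (1 - s) ^ 2 + c.P1 * (√s * et s))
    - c.P1 * (G + c.m1 * k * (1 - s) + 5 * c.z1 * (74 / 100 * (1 - s) ^ 2))

end Pool.Agent.FND
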