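import Pool.Agent.FND.Defs
import Pool.Agent.FND.SCd
import Pool.Agent.FND.Cst

/-!
FND-SC1: the decisive inequality, `u ≤ 15/100`.

Plan.  One cell c (three cases of IsCell) and x = ±m1.  u = 1-s.  Replace φ, χ, gd, hd by their enclosures, et, etd by
polynomials, r = √s: occurrences with + sign bounded below/above by polynomials in u.  The result is a polynomial of degree about
11 in u, >= 0 with min ratio to u (region s >= .85): .87 (cA), .44 (cB), .096 (cC).  helper14 has the script which generates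
the polynomials (gen.py, to be posted in /team-store as fnd_gen.py); all lower bounds were checked numerically.
(helper32: every component is first bounded by a short polynomial of degree at most 4.)
-/

set_option autoImplicit false

open MeasureTheory Set
open Pool.Agent.Neu
open Pool.Agent.CS4 (Prof2 bb vv eV)

namespace Pool.Agent.FND

variable {K L : ℝ} {φ ψ χ ω : ℝ → ℝ}

private theorem p1l {u : ℝ} (hu : 0 ≤ u) (hb : 0 ≤ 15 / 100 - u) :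
    5956 / 10000 * u ^ 2 + 327 / 1000 * u ^ 3 ≤ 1 - (1 - u) * (1 + u / 2 + 772 / 10000 * u ^ 2) ^ 2 := by
  linarith only [mul_nonneg (pow_nonneg hu 3) (pow_nonneg hb 2), mul_nonneg (pow_nonneg hu 4) (pow_nonneg hb 1), mul_nonneg (pow_nonneg hu 5) (pow_nonneg hb 0)]

private theorem p1u {u : ℝ} (hu : 0 ≤ u) (hb : 0 ≤ 15 / 100 - u) :
    1 - (1 - u) * (1 + u / 2 + 761 / 10000 * u ^ 2) ^ 2 ≤ 5978 / 10000 * u ^ 2 + 337 / 1000 * u ^ 3 := by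
  linarith only [mul_nonneg (pow_nonneg hu 3) (pow_nonneg hb 2), mul_nonneg (pow_nonneg hu 4) (pow_nonneg hb 1), mul_nonneg (pow_nonneg hu 5) (pow_nonneg hb 0)]

private theorem p2 {u : ℝ} (hu : 0 ≤ u) (hb : 0 ≤ 15 / 100 - u) :
    u + 4022 / 10000 * u ^ 2 + 76 / 1000 * u ^ 3 ≤ (1 + u / 2 + 761 / 10000 * u ^ 2) ^ 2 - 1 := by
  linarith only [mul_nonneg (pow_nonneg hu 3) (pow_nonneg hb 1), mul_nonneg (pow_nonneg hu 4) (pow_nonneg hb 0)]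

private theorem p3 {u : ℝ} (hu : 0 ≤ u) (hb : 0 ≤ 15 / 100 - u) :
    14275 / 10000 * u ^ 2 + 827 / 1000 * u ^ 3 ≤ (u * (11948 / 10000 + 3462 / 10000 * u)) ^ 2 := by
  linarith only [mul_nonneg (pow_nonneg hu 2) (pow_nonneg hb 2), mul_nonneg (pow_nonneg hu 3) (pow_nonneg hb 1), mul_nonneg (pow_nonneg hu 4) (pow_nonneg hb 0)]

private theorem p4 {u : ℝ} (hu : 0 ≤ u) (hb : 0 ≤ 15 / 100 - u) :
    u - 3323 / 10000 * u ^ 2 - 975 / 1000 * u ^ 3 ≤ (1 - u) * (1 + u + 3339 / 10000 * u ^ 2 + 563 / 10000 * u ^ 3) ^ 2 - 1 := by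
  linarith only [mul_nonneg (pow_nonneg hu 2) (pow_nonneg hb 5), mul_nonneg (pow_nonneg hu 3) (pow_nonneg hb 4), mul_nonneg (pow_nonneg hu 4) (pow_nonneg hb 3), mul_nonneg (pow_nonneg hu 5) (pow_nonneg hb 2), mul_nonneg (pow_nonneg hu 6) (pow_nonneg hb 1), mul_nonneg (pow_nonneg hu 7) (pow_nonneg hb 0)]

private theorem p5 {u : ℝ} (hu : 0 ≤ u) (hb : 0 ≤ 15 / 100 - u) :
    1331 / 1000 * u ^ 2 + 495 / 1000 * u ^ 3 ≤ 1 - ((1 - u) * (1 + u + 3341 / 10000 * u ^ 2 + 573 / 10000 * u ^ 3)) ^ 2 := by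
  linarith only [mul_nonneg (pow_nonneg hu 2) (pow_nonneg hb 6), mul_nonneg (pow_nonneg hu 3) (pow_nonneg hb 5), mul_nonneg (pow_nonneg hu 4) (pow_nonneg hb 4), mul_nonneg (pow_nonneg hu 5) (pow_nonneg hb 3), mul_nonneg (pow_nonneg hu 6) (pow_nonneg hb 2), mul_nonneg (pow_nonneg hu 7) (pow_nonneg hb 1), mul_nonneg (pow_nonneg hu 8) (pow_nonneg hb 0)]

private theorem p6 {u : ℝ} (hu : 0 ≤ u) (hb : 0 ≤ 15 / 100 - u) :
    7096 / 1000 * u ^ 2 + 109 / 100 * u ^ 3 ≤ (1 - u) * (u * (26639 / 10000 + 16655 / 10000 * u + 3996 / 10000 * u ^ 2)) ^ 2 := by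
  linarith only [mul_nonneg (pow_nonneg hu 2) (pow_nonneg hb 5), mul_nonneg (pow_nonneg hu 3) (pow_nonneg hb 4), mul_nonneg (pow_nonneg hu 4) (pow_nonneg hb 3), mul_nonneg (pow_nonneg hu 5) (pow_nonneg hb 2), mul_nonneg (pow_nonneg hu 6) (pow_nonneg hb 1), mul_nonneg (pow_nonneg hu 7) (pow_nonneg hb 0)]

private theorem p7 {u : ℝ} (hu : 0 ≤ u) (hb : 0 ≤ 15 / 100 - u) :
    (1 - u / 2 - u ^ 2 / 8) * ((1 - u) * (1 + u / 2 + 772 / 10000 * u ^ 2) * (1 + u + 3341 / 10000 * u ^ 2 + 573 / 10000 * u ^ 3)) * u ≤ u - 9636 / 10000 * u ^ 3 - 34 / 100 * u ^ 4 := by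
  linarith only [mul_nonneg (pow_nonneg hu 3) (pow_nonneg hb 6), mul_nonneg (pow_nonneg hu 4) (pow_nonneg hb 5), mul_nonneg (pow_nonneg hu 5) (pow_nonneg hb 4), mul_nonneg (pow_nonneg hu 6) (pow_nonneg hb 3), mul_nonneg (pow_nonneg hu 7) (pow_nonneg hb 2), mul_nonneg (pow_nonneg hu 8) (pow_nonneg hb 1), mul_nonneg (pow_nonneg hu 9) (pow_nonneg hb 0)]

private theorem p10 {u : ℝ} (hu : 0 ≤ u) (hb : 0 ≤ 15 / 100 - u) :
    (1 - u) * (u ^ 3 * (2 - u)) * (1 + u / 2 + 772 / 10000 * u ^ 2) ≤ 2 * u ^ 3 - 2 * u ^ 4 := by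
  linarith only [mul_nonneg (pow_nonneg hu 5) (pow_nonneg hb 2), mul_nonneg (pow_nonneg hu 6) (pow_nonneg hb 1), mul_nonneg (pow_nonneg hu 7) (pow_nonneg hb 0)]

private theorem p12 {u : ℝ} (hu : 0 ≤ u) (hb : 0 ≤ 15 / 100 - u) :
    (1 - u / 2) * (u ^ 3 * (2 - u)) ≤ 2 * u ^ 3 - 19 / 10 * u ^ 4 := by
  linarith only [mul_nonneg (pow_nonneg hu 4) (pow_nonneg hb 1), mul_nonneg (pow_nonneg hu 5) (pow_nonneg hb 0)]

private theorem q1 {u : ℝ} (hu : 0 ≤ u) (hb : 0 ≤ 15 / 100 - u) :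
    (u * (26643 / 10000 + 16655 / 10000 * u + 4093 / 10000 * u ^ 2)) * (u ^ 2 * (12 - 22 * u + 9 * u ^ 2)) ≤ 31972 / 1000 * u ^ 3 - 386 / 10 * u ^ 4 := by
  linarith only [mul_nonneg (pow_nonneg hu 3) (pow_nonneg hb 4), mul_nonneg (pow_nonneg hu 4) (pow_nonneg hb 3), mul_nonneg (pow_nonneg hu 5) (pow_nonneg hb 2), mul_nonneg (pow_nonneg hu 6) (pow_nonneg hb 1), mul_nonneg (pow_nonneg hu 7) (pow_nonneg hb 0)]

private theorem q2 {u : ℝ} (hu : 0 ≤ u) (hb : 0 ≤ 15 / 100 - u) :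
    1028 / 1000 * u ^ 2 + 94 / 100 * u ^ 3 ≤ 3231 / 10000 * ((u * (26639 / 10000 + 16655 / 10000 * u + 3996 / 10000 * u ^ 2)) * (u * (11948 / 10000 + 3462 / 10000 * u))) := by
  linarith only [mul_nonneg (pow_nonneg hu 2) (pow_nonneg hb 3), mul_nonneg (pow_nonneg hu 3) (pow_nonneg hb 2), mul_nonneg (pow_nonneg hu 4) (pow_nonneg hb 1), mul_nonneg (pow_nonneg hu 5) (pow_nonneg hb 0)]

private theorem q3 {u : ℝ} (hu : 0 ≤ u) (hb : 0 ≤ 15 / 100 - u) :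
    (1 - u) * (1 + u + 3341 / 10000 * u ^ 2 + 573 / 10000 * u ^ 3) * (u ^ 3 * (2 - u)) ≤ 2 * u ^ 3 - u ^ 4 := by
  linarith only [mul_nonneg (pow_nonneg hu 5) (pow_nonneg hb 3), mul_nonneg (pow_nonneg hu 6) (pow_nonneg hb 2), mul_nonneg (pow_nonneg hu 7) (pow_nonneg hb 1), mul_nonneg (pow_nonneg hu 8) (pow_nonneg hb 0)]

private theorem q4 {u : ℝ} (hu : 0 ≤ u) (hb : 0 ≤ 15 / 100 - u) :
    (1 + u + 3341 / 10000 * u ^ 2 + 573 / 10000 * u ^ 3) * ((u ^ 3 * (2 - u)) + 3232 / 10000 * (1 + u / 2 + 772 / 10000 * u ^ 2) * u) ≤ 3232 / 10000 * u + 4848 / 10000 * u ^ 2 + 22946 / 10000 * u ^ 3 + 11 / 10 * u ^ 4 := by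
  linarith only [mul_nonneg (pow_nonneg hu 3) (pow_nonneg hb 4), mul_nonneg (pow_nonneg hu 4) (pow_nonneg hb 3), mul_nonneg (pow_nonneg hu 5) (pow_nonneg hb 2), mul_nonneg (pow_nonneg hu 6) (pow_nonneg hb 1), mul_nonneg (pow_nonneg hu 7) (pow_nonneg hb 0)]

/-- all component bounds -/
private theorem comps (d : Dat K L φ ψ χ ω) {u : ℝ} (hu : 0 ≤ u) (hb : 0 ≤ 15 / 100 - u)
    {x : ℝ} (hx1 : -1 ≤ x) (hx2 : x ≤ 1) :
    ∃ a1 a2 b1 L5 X1 X4 X6 X7 X10 X12 G : ℝ,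
      (∀ (c : Cell) (e k : ℝ), Uf K L φ ψ χ ω c (√(1 - u) * Gam K L φ ψ χ ω x (1 - u)) e k x (1 - u) =
        (1 / 2 + x / 2) * ((c.M * (a1 + a2 + 105 / 100 * X1) + 4 * X4 + 2 * X1 + L5) - c.si * X7)
        + (1 / 2 - x / 2) * (c.M * b1 + X6 - 2 * X1 + L5) - c.P1 ^ 2 * (7 / 2 * u ^ 5)
        - c.je * (e * u ^ 2) - c.jd * (74 / 100 * u ^ 2 + c.P1 * X10)
        - 24 / 100 * (7 / 100 * u ^ 2 + c.P1 * X12)
        - c.P1 * (G + c.m1 * k * u + 5 * c.z1 * (74 / 100 * u ^ 2))) ∧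
      5956 / 10000 * u ^ 2 + 327 / 1000 * u ^ 3 ≤ X1 ∧ X1 ≤ 5978 / 10000 * u ^ 2 + 337 / 1000 * u ^ 3 ∧
      98445 / 10000 * (u - (5978 / 10000 * u ^ 2 + 337 / 1000 * u ^ 3) / 2) ≤ a1 ∧
      9029 / 10000 * (u + 4022 / 10000 * u ^ 2 + 76 / 1000 * u ^ 3 + (5956 / 10000 * u ^ 2 + 327 / 1000 * u ^ 3) / 2) ≤ a2 ∧
      (98445 / 20000 - 9031 / 20000 + 105 / 100) * (5956 / 10000 * u ^ 2 + 327 / 1000 * u ^ 3) + 9029 / 10000 * (14275 / 10000 * u ^ 2 + 827 / 1000 * u ^ 3) ≤ b1 ∧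
      466415 / 100000 * (1331 / 1000 * u ^ 2 + 495 / 1000 * u ^ 3) ≤ L5 ∧ u - 3323 / 10000 * u ^ 2 - 975 / 1000 * u ^ 3 ≤ X4 ∧ 7096 / 1000 * u ^ 2 + 109 / 100 * u ^ 3 ≤ X6 ∧ X7 ≤ u - 9636 / 10000 * u ^ 3 - 34 / 100 * u ^ 4 ∧ X10 ≤ 2 * u ^ 3 - 2 * u ^ 4 ∧ X12 ≤ 2 * u ^ 3 - 19 / 10 * u ^ 4 ∧
      (0 ≤ (1 - x) * ((31972 / 1000 * u ^ 3 - 386 / 10 * u ^ 4) - (1028 / 1000 * u ^ 2 + 94 / 100 * u ^ 3)) + 93284 / 10000 * (2 * u ^ 3 - u ^ 4) + 2 * (1 + x) * (3232 / 10000 * u + 4848 / 10000 * u ^ 2 + 22946 / 10000 * u ^ 3 + 11 / 10 * u ^ 4) →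
        G ≤ (1 - u / 2) * ((1 - x) * ((31972 / 1000 * u ^ 3 - 386 / 10 * u ^ 4) - (1028 / 1000 * u ^ 2 + 94 / 100 * u ^ 3)) + 93284 / 10000 * (2 * u ^ 3 - u ^ 4) + 2 * (1 + x) * (3232 / 10000 * u + 4848 / 10000 * u ^ 2 + 22946 / 10000 * u ^ 3 + 11 / 10 * u ^ 4))) := by
  have hs1 : 1 - u ≤ 1 := by linarith only [hu]
  have hs0 : 0 ≤ 1 - u := by linarith only [hb]
  have hmem : (1 - u) ∈ Icc (0 : ℝ) 1 := ⟨hs0, hs1⟩
  have e1 : 1 - (1 - u) = u := by ring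
  obtain ⟨w1, w2⟩ := mw_bd d
  obtain ⟨T1, -⟩ := T0_bd d
  obtain ⟨a01, a02⟩ := a0_bd d
  have hL1 := d.enc.L_lo
  have hL2 := d.enc.L_hi
  have hphi := abs_le.1 (d.enc.phi _ hmem)
  have hgd := abs_le.1 (d.enc.gd _ hmem)
  have hchi := abs_le.1 (d.enc.chi _ hmem)
  have hhd := abs_le.1 (d.enc.hd _ hmem)
  rw [e1] at hphi hgd hchi hhd
  have het : et (1 - u) = u ^ 3 * (2 - u) := by
    rw [et, if_pos hs1, e1]
    ring
  have hetd : etd (1 - u) = -2 * u ^ 2 * (3 - 2 * u) := by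
    rw [etd, if_pos hs1, e1]
    ring
  obtain ⟨f, hf⟩ : ∃ f, f = φ (1 - u) := ⟨_, rfl⟩
  obtain ⟨h, hh⟩ : ∃ h, h = χ (1 - u) := ⟨_, rfl⟩
  obtain ⟨g, hg⟩ : ∃ g, g = gdf φ ψ (1 - u) := ⟨_, rfl⟩
  obtain ⟨k, hk⟩ : ∃ k, k = hdf χ ω (1 - u) := ⟨_, rfl⟩
  obtain ⟨r, hr⟩ : ∃ r, r = √(1 - u) := ⟨_, rfl⟩
  obtain ⟨a, ha⟩ : ∃ a, a = a0 K φ := ⟨_, rfl⟩
  obtain ⟨T, hT⟩ : ∃ T, T = T0 K L := ⟨_, rfl⟩
  obtain ⟨w, hw⟩ : ∃ w, w = 2 / mw K := ⟨_, rfl⟩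
  have hzp : zpf K φ ψ (1 - u) = -(u ^ 2 * (12 - 22 * u + 9 * u ^ 2)) + a * g := by
    rw [zpf, zt, ztd, het, hetd, hg, gdf, ha]
    ring
  have hG0 : Gam K L φ ψ χ ω x (1 - u) =
      (1 - x) * (k * (u ^ 2 * (12 - 22 * u + 9 * u ^ 2)) - a * (k * g))
        + L * ((1 - u) * h * (u ^ 3 * (2 - u)))
        + 2 * (1 + x) * (h * (u ^ 3 * (2 - u) + a * f * u)) := by
    rw [Gam, hzp, het, e1, ← hf, ← hh, ← hk, ← ha]
    ring
  change -(1 / 10000 * u ^ 2) ≤ _ ∧ _ at hphi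
  rw [← hf] at hphi
  rw [← hh] at hchi
  rw [show φ (1 - u) + 2 * (1 - u) * ψ (1 - u) = g from by rw [hg, gdf]] at hgd
  rw [show 2 * (χ (1 - u) + (1 - u) * ω (1 - u)) = k from by rw [hk, hdf]] at hhd
  rw [← ha] at a01 a02
  rw [← hT] at T1
  have hmw : 0 < mw K := by linarith only [w1]
  have hw1 : 9029 / 10000 ≤ w := by
    rw [hw, le_div_iff₀ hmw]
    linarith only [w2]
  have hw2 : w ≤ 9031 / 10000 := by
    rw [hw, div_le_iff₀ hmw]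
    linarith only [w1]
  have u2 : 0 ≤ u ^ 2 := pow_nonneg hu 2
  have u3 : 0 ≤ u ^ 3 := pow_nonneg hu 3
  have u4 : 0 ≤ u ^ 4 := pow_nonneg hu 4
  have u2b : u ^ 2 ≤ 15 / 100 * u := by linarith only [mul_nonneg hu hb]
  have u3b : u ^ 3 ≤ 15 / 100 * u ^ 2 := by linarith only [mul_nonneg u2 hb]
  have u4b : u ^ 4 ≤ 15 / 100 * u ^ 3 := by linarith only [mul_nonneg u3 hb]
  have f1 : (1 + u / 2 + 761 / 10000 * u ^ 2) ≤ f := by
    linarith only [hphi.1, u3]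
  have f2 : f ≤ (1 + u / 2 + 772 / 10000 * u ^ 2) := by
    linarith only [hphi.2, u3b, u2]
  have h1 : (1 + u + 3339 / 10000 * u ^ 2 + 563 / 10000 * u ^ 3) ≤ h := by
    linarith only [hchi.1, u4]
  have h2 : h ≤ (1 + u + 3341 / 10000 * u ^ 2 + 573 / 10000 * u ^ 3) := by
    linarith only [hchi.2, u4b, u3]
  have g1 : (u * (11948 / 10000 + 3462 / 10000 * u)) ≤ g := by
    linarith only [hgd.1, u3]
  have k1 : (u * (26639 / 10000 + 16655 / 10000 * u + 3996 / 10000 * u ^ 2)) ≤ k := by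
    linarith only [hhd.1, u4]
  have k2 : k ≤ (u * (26643 / 10000 + 16655 / 10000 * u + 4093 / 10000 * u ^ 2)) := by
    linarith only [hhd.2, u4b, u3]
  have F0 : (0 : ℝ) ≤ (1 + u / 2 + 761 / 10000 * u ^ 2) := by positivity
  have F0' : (0 : ℝ) ≤ (1 + u / 2 + 772 / 10000 * u ^ 2) := by positivity
  have H0 : (0 : ℝ) ≤ (1 + u + 3339 / 10000 * u ^ 2 + 563 / 10000 * u ^ 3) := by positivity
  have H0' : (0 : ℝ) ≤ (1 + u + 3341 / 10000 * u ^ 2 + 573 / 10000 * u ^ 3) := by positivity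
  have G0 : (0 : ℝ) ≤ (u * (11948 / 10000 + 3462 / 10000 * u)) := by positivity
  have K0 : (0 : ℝ) ≤ (u * (26639 / 10000 + 16655 / 10000 * u + 3996 / 10000 * u ^ 2)) := by positivity
  have f0 : 0 ≤ f := F0.trans f1
  have h0 : 0 ≤ h := H0.trans h1
  have g0 : 0 ≤ g := G0.trans g1
  have k0 : 0 ≤ k := K0.trans k1
  have hr0 : 0 ≤ r := by
    rw [hr]
    exact Real.sqrt_nonneg _
  have hrh : r ≤ (1 - u / 2 - u ^ 2 / 8) := by
    rw [hr]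
    refine Real.sqrt_le_iff.2 ⟨by linarith only [hb, u2b, hu], ?_⟩
    linarith only [u3, u4]
  have hr1 : r ≤ 1 - u / 2 := by linarith only [hrh, u2]
  have fsq1 : (1 + u / 2 + 761 / 10000 * u ^ 2) ^ 2 ≤ f ^ 2 := pow_le_pow_left₀ F0 f1 2
  have fsq2 : f ^ 2 ≤ (1 + u / 2 + 772 / 10000 * u ^ 2) ^ 2 := pow_le_pow_left₀ f0 f2 2
  have hsq1 : (1 + u + 3339 / 10000 * u ^ 2 + 563 / 10000 * u ^ 3) ^ 2 ≤ h ^ 2 := pow_le_pow_left₀ H0 h1 2
  have X1a : 5956 / 10000 * u ^ 2 + 327 / 1000 * u ^ 3 ≤ 1 - (1 - u) * f ^ 2 := by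
    linarith only [p1l hu hb, mul_le_mul_of_nonneg_left fsq2 hs0]
  have X1b : 1 - (1 - u) * f ^ 2 ≤ 5978 / 10000 * u ^ 2 + 337 / 1000 * u ^ 3 := by
    linarith only [p1u hu hb, mul_le_mul_of_nonneg_left fsq1 hs0]
  have X2a : u + 4022 / 10000 * u ^ 2 + 76 / 1000 * u ^ 3 ≤ f ^ 2 - 1 := by linarith only [p2 hu hb, fsq1]
  have X3a : 14275 / 10000 * u ^ 2 + 827 / 1000 * u ^ 3 ≤ g ^ 2 := (p3 hu hb).trans (pow_le_pow_left₀ G0 g1 2)
  have X4a : u - 3323 / 10000 * u ^ 2 - 975 / 1000 * u ^ 3 ≤ (1 - u) * h ^ 2 - 1 := by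
    linarith only [p4 hu hb, mul_le_mul_of_nonneg_left hsq1 hs0]
  have X5a : 1331 / 1000 * u ^ 2 + 495 / 1000 * u ^ 3 ≤ 1 - ((1 - u) * h) ^ 2 := by
    exact (p5 hu hb).trans (sub_le_sub_left
      (pow_le_pow_left₀ (mul_nonneg hs0 h0) (mul_le_mul_of_nonneg_left h2 hs0) 2) 1)
  have X6a : 7096 / 1000 * u ^ 2 + 109 / 100 * u ^ 3 ≤ (1 - u) * k ^ 2 := by
    exact (p6 hu hb).trans (mul_le_mul_of_nonneg_left (pow_le_pow_left₀ K0 k1 2) hs0)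
  have sfh : (1 - u) * f * h ≤ (1 - u) * (1 + u / 2 + 772 / 10000 * u ^ 2) * (1 + u + 3341 / 10000 * u ^ 2 + 573 / 10000 * u ^ 3) :=
    mul_le_mul (mul_le_mul_of_nonneg_left f2 hs0) h2 h0 (mul_nonneg hs0 F0')
  have X7a : r * ((1 - u) * f * h) * u ≤ u - 9636 / 10000 * u ^ 3 - 34 / 100 * u ^ 4 := by
    have h3 : r * ((1 - u) * f * h) ≤ (1 - u / 2 - u ^ 2 / 8) * ((1 - u) * (1 + u / 2 + 772 / 10000 * u ^ 2) * (1 + u + 3341 / 10000 * u ^ 2 + 573 / 10000 * u ^ 3)) :=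
      mul_le_mul hrh sfh (mul_nonneg (mul_nonneg hs0 f0) h0) (hr0.trans hrh)
    exact (mul_le_mul_of_nonneg_right h3 hu).trans (p7 hu hb)
  have et0 : 0 ≤ u ^ 3 * (2 - u) := mul_nonneg u3 (by linarith only [hb])
  have X10a : (1 - u) * (u ^ 3 * (2 - u)) * f ≤ 2 * u ^ 3 - 2 * u ^ 4 :=
    (mul_le_mul_of_nonneg_left f2 (mul_nonneg hs0 et0)).trans (p10 hu hb)
  have X12a : r * (u ^ 3 * (2 - u)) ≤ 2 * u ^ 3 - 19 / 10 * u ^ 4 :=
    (mul_le_mul_of_nonneg_right hr1 et0).trans (p12 hu hb)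
  refine ⟨96 / 100 * T * (u - (1 - (1 - u) * f ^ 2) / 2),
    w * (f ^ 2 - 1 + (1 - (1 - u) * f ^ 2) / 2),
    96 / 100 * T * ((1 - (1 - u) * f ^ 2) / 2) + w * (g ^ 2 - (1 - (1 - u) * f ^ 2) / 2)
      + 105 / 100 * (1 - (1 - u) * f ^ 2),
    L / 2 * (1 - ((1 - u) * h) ^ 2), 1 - (1 - u) * f ^ 2, (1 - u) * h ^ 2 - 1, (1 - u) * k ^ 2,
    r * ((1 - u) * f * h) * u, (1 - u) * (u ^ 3 * (2 - u)) * f, r * (u ^ 3 * (2 - u)),
    r * Gam K L φ ψ χ ω x (1 - u), ?_, X1a, X1b, ?_, ?_, ?_, ?_, X4a, X6a, X7a, X10a, X12a, ?_⟩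
  · intro c e k'
    rw [Uf, al, be, het, e1, ← hf, ← hh, ← hg, ← hk, ← hT, ← hw, ← hr]
    ring
  · have z1 : 98445 / 10000 ≤ 96 / 100 * T := by linarith only [T1]
    have z2 : (0 : ℝ) ≤ u - (5978 / 10000 * u ^ 2 + 337 / 1000 * u ^ 3) / 2 := by linarith only [u2b, u3b, hu, u2]
    exact mul_le_mul z1 (by linarith only [X1b]) z2 (by linarith only [z1])
  · have z2 : (0 : ℝ) ≤ u + 4022 / 10000 * u ^ 2 + 76 / 1000 * u ^ 3 + (5956 / 10000 * u ^ 2 + 327 / 1000 * u ^ 3) / 2 := by positivity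
    exact mul_le_mul hw1 (by linarith only [X2a, X1a]) z2 (by linarith only [hw1])
  · have z1 : 98445 / 20000 - 9031 / 20000 + 105 / 100 ≤ 96 / 100 * T / 2 - w / 2 + 105 / 100 := by
      linarith only [T1, hw2]
    have z2 : (0 : ℝ) ≤ 5956 / 10000 * u ^ 2 + 327 / 1000 * u ^ 3 := by positivity
    have z3 := mul_le_mul z1 X1a z2 (by linarith only [z1])
    have z4 := mul_le_mul hw1 X3a (by positivity) (by linarith only [hw1])
    linarith only [z3, z4]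
  · exact mul_le_mul (by linarith only [hL1]) X5a (by positivity) (by linarith only [hL1])
  · intro hG
    have c1 : k * (u ^ 2 * (12 - 22 * u + 9 * u ^ 2)) ≤ 31972 / 1000 * u ^ 3 - 386 / 10 * u ^ 4 := by
      have h5 : 0 ≤ u ^ 2 * (12 - 22 * u + 9 * u ^ 2) := mul_nonneg u2 (by linarith only [u2, hb])
      exact (mul_le_mul_of_nonneg_right k2 h5).trans (q1 hu hb)
    have c2 : 1028 / 1000 * u ^ 2 + 94 / 100 * u ^ 3 ≤ a * (k * g) := by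
      refine (q2 hu hb).trans ?_
      exact mul_le_mul a01.le (mul_le_mul k1 g1 G0 k0) (mul_nonneg K0 G0) (by linarith only [a01])
    have c3 : (1 - u) * h * (u ^ 3 * (2 - u)) ≤ 2 * u ^ 3 - u ^ 4 :=
      (mul_le_mul_of_nonneg_right (mul_le_mul_of_nonneg_left h2 hs0) et0).trans (q3 hu hb)
    have c3' : L * ((1 - u) * h * (u ^ 3 * (2 - u))) ≤ 93284 / 10000 * (2 * u ^ 3 - u ^ 4) :=
      mul_le_mul hL2.le c3 (mul_nonneg (mul_nonneg hs0 h0) et0) (by norm_num)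
    have c4 : h * (u ^ 3 * (2 - u) + a * f * u) ≤ 3232 / 10000 * u + 4848 / 10000 * u ^ 2 + 22946 / 10000 * u ^ 3 + 11 / 10 * u ^ 4 := by
      refine le_trans ?_ (q4 hu hb)
      refine mul_le_mul h2 ?_ (add_nonneg et0 (mul_nonneg (mul_nonneg (by linarith only [a01]) f0) hu)) H0'
      have h6 : a * f ≤ 3232 / 10000 * (1 + u / 2 + 772 / 10000 * u ^ 2) := mul_le_mul a02.le f2 f0 (by norm_num)
      exact add_le_add_right (mul_le_mul_of_nonneg_right h6 hu) _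
    have c5 : Gam K L φ ψ χ ω x (1 - u) ≤ (1 - x) * ((31972 / 1000 * u ^ 3 - 386 / 10 * u ^ 4) - (1028 / 1000 * u ^ 2 + 94 / 100 * u ^ 3)) + 93284 / 10000 * (2 * u ^ 3 - u ^ 4)
        + 2 * (1 + x) * (3232 / 10000 * u + 4848 / 10000 * u ^ 2 + 22946 / 10000 * u ^ 3 + 11 / 10 * u ^ 4) := by
      rw [hG0]
      have d1 := mul_le_mul_of_nonneg_left (sub_le_sub c1 c2) (show 0 ≤ 1 - x by linarith only [hx2])
      have d2 := mul_le_mul_of_nonneg_left c4 (show 0 ≤ 2 * (1 + x) by linarith only [hx1])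
      linarith only [d1, d2, c3']
    exact (mul_le_mul_of_nonneg_left c5 hr0).trans (mul_le_mul_of_nonneg_right hr1 hG)

theorem Uf_nonneg1 (d : Dat K L φ ψ χ ω) {c : Cell} (hc : IsCell c) {x s : ℝ}
    (hx : x = c.m1 ∨ x = -c.m1) (hs : 85 / 100 ≤ s) (hs1 : s ≤ 1) :
    0 ≤ Uf K L φ ψ χ ω c (√s * Gam K L φ ψ χ ω x s) (24 / 100) (99 / 100) x s := by
  obtain ⟨u, hu'⟩ : ∃ u, s = 1 - u := ⟨1 - s, by ring⟩
  subst hu'
  have hu : 0 ≤ u := by linarith only [hs1]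
  have hb : 0 ≤ 15 / 100 - u := by linarith only [hs]
  rcases hc with rfl | rfl | rfl
  · simp only [cA] at hx
    rcases hx with rfl | rfl
    · obtain ⟨a1, a2, b1, L5, X1, X4, X6, X7, X10, X12, G, hU, i1, i2, i3, i4, i5, i6, i7, i8, i9, i10,
        i11, i12⟩ := comps d hu hb (x := 1 / 4) (by norm_num) (by norm_num)
      have i13 := i12 (by linarith only [mul_nonneg (pow_nonneg hu 1) (pow_nonneg hb 3), mul_nonneg (pow_nonneg hu 2) (pow_nonneg hb 2), mul_nonneg (pow_nonneg hu 3) (pow_nonneg hb 1), mul_nonneg (pow_nonneg hu 4) (pow_nonneg hb 0)])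
      rw [hU]
      simp only [cA]
      linarith only [i1, i2, i3, i4, i5, i6, i7, i8, i9, i10, i11, i13, mul_nonneg (pow_nonneg hu 1) (pow_nonneg hb 4), mul_nonneg (pow_nonneg hu 2) (pow_nonneg hb 3), mul_nonneg (pow_nonneg hu 3) (pow_nonneg hb 2), mul_nonneg (pow_nonneg hu 4) (pow_nonneg hb 1), mul_nonneg (pow_nonneg hu 5) (pow_nonneg hb 0)]
    · obtain ⟨a1, a2, b1, L5, X1, X4, X6, X7, X10, X12, G, hU, i1, i2, i3, i4, i5, i6, i7, i8, i9, i10,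
        i11, i12⟩ := comps d hu hb (x := -(1 / 4)) (by norm_num) (by norm_num)
      have i13 := i12 (by linarith only [mul_nonneg (pow_nonneg hu 1) (pow_nonneg hb 3), mul_nonneg (pow_nonneg hu 2) (pow_nonneg hb 2), mul_nonneg (pow_nonneg hu 3) (pow_nonneg hb 1), mul_nonneg (pow_nonneg hu 4) (pow_nonneg hb 0)])
      rw [hU]
      simp only [cA]
      linarith only [i1, i2, i3, i4, i5, i6, i7, i8, i9, i10, i11, i13, mul_nonneg (pow_nonneg hu 1) (pow_nonneg hb 4), mul_nonneg (pow_nonneg hu 2) (pow_nonneg hb 3), mul_nonneg (pow_nonneg hu 3) (pow_nonneg hb 2), mul_nonneg (pow_nonneg hu 4) (pow_nonneg hb 1), mul_nonneg (pow_nonneg hu 5) (pow_nonneg hb 0)]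
  · simp only [cB] at hx
    rcases hx with rfl | rfl
    · obtain ⟨a1, a2, b1, L5, X1, X4, X6, X7, X10, X12, G, hU, i1, i2, i3, i4, i5, i6, i7, i8, i9, i10,
        i11, i12⟩ := comps d hu hb (x := 4 / 10) (by norm_num) (by norm_num)
      have i13 := i12 (by linarith only [mul_nonneg (pow_nonneg hu 1) (pow_nonneg hb 3), mul_nonneg (pow_nonneg hu 2) (pow_nonneg hb 2), mul_nonneg (pow_nonneg hu 3) (pow_nonneg hb 1), mul_nonneg (pow_nonneg hu 4) (pow_nonneg hb 0)])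
      rw [hU]
      simp only [cB]
      linarith only [i1, i2, i3, i4, i5, i6, i7, i8, i9, i10, i11, i13, mul_nonneg (pow_nonneg hu 1) (pow_nonneg hb 4), mul_nonneg (pow_nonneg hu 2) (pow_nonneg hb 3), mul_nonneg (pow_nonneg hu 3) (pow_nonneg hb 2), mul_nonneg (pow_nonneg hu 4) (pow_nonneg hb 1), mul_nonneg (pow_nonneg hu 5) (pow_nonneg hb 0)]
    · obtain ⟨a1, a2, b1, L5, X1, X4, X6, X7, X10, X12, G, hU, i1, i2, i3, i4, i5, i6, i7, i8, i9, i10,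
        i11, i12⟩ := comps d hu hb (x := -(4 / 10)) (by norm_num) (by norm_num)
      have i13 := i12 (by linarith only [mul_nonneg (pow_nonneg hu 1) (pow_nonneg hb 3), mul_nonneg (pow_nonneg hu 2) (pow_nonneg hb 2), mul_nonneg (pow_nonneg hu 3) (pow_nonneg hb 1), mul_nonneg (pow_nonneg hu 4) (pow_nonneg hb 0)])
      rw [hU]
      simp only [cB]
      linarith only [i1, i2, i3, i4, i5, i6, i7, i8, i9, i10, i11, i13, mul_nonneg (pow_nonneg hu 1) (pow_nonneg hb 4), mul_nonneg (pow_nonneg hu 2) (pow_nonneg hb 3), mul_nonneg (pow_nonneg hu 3) (pow_nonneg hb 2), mul_nonneg (pow_nonneg hu 4) (pow_nonneg hb 1), mul_nonneg (pow_nonneg hu 5) (pow_nonneg hb 0)]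
  · simp only [cC] at hx
    rcases hx with rfl | rfl
    · obtain ⟨a1, a2, b1, L5, X1, X4, X6, X7, X10, X12, G, hU, i1, i2, i3, i4, i5, i6, i7, i8, i9, i10,
        i11, i12⟩ := comps d hu hb (x := 573 / 1000) (by norm_num) (by norm_num)
      have i13 := i12 (by linarith only [mul_nonneg (pow_nonneg hu 1) (pow_nonneg hb 3), mul_nonneg (pow_nonneg hu 2) (pow_nonneg hb 2), mul_nonneg (pow_nonneg hu 3) (pow_nonneg hb 1), mul_nonneg (pow_nonneg hu 4) (pow_nonneg hb 0)])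
      rw [hU]
      simp only [cC]
      linarith only [i1, i2, i3, i4, i5, i6, i7, i8, i9, i10, i11, i13, mul_nonneg (pow_nonneg hu 1) (pow_nonneg hb 4), mul_nonneg (pow_nonneg hu 2) (pow_nonneg hb 3), mul_nonneg (pow_nonneg hu 3) (pow_nonneg hb 2), mul_nonneg (pow_nonneg hu 4) (pow_nonneg hb 1), mul_nonneg (pow_nonneg hu 5) (pow_nonneg hb 0)]
    · obtain ⟨a1, a2, b1, L5, X1, X4, X6, X7, X10, X12, G, hU, i1, i2, i3, i4, i5, i6, i7, i8, i9, i10,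
        i11, i12⟩ := comps d hu hb (x := -(573 / 1000)) (by norm_num) (by norm_num)
      have i13 := i12 (by linarith only [mul_nonneg (pow_nonneg hu 1) (pow_nonneg hb 3), mul_nonneg (pow_nonneg hu 2) (pow_nonneg hb 2), mul_nonneg (pow_nonneg hu 3) (pow_nonneg hb 1), mul_nonneg (pow_nonneg hu 4) (pow_nonneg hb 0)])
      rw [hU]
      simp only [cC]
      linarith only [i1, i2, i3, i4, i5, i6, i7, i8, i9, i10, i11, i13, mul_nonneg (pow_nonneg hu 1) (pow_nonneg hb 4), mul_nonneg (pow_nonneg hu 2) (pow_nonneg hb 3), mul_nonneg (pow_nonneg hu 3) (pow_nonneg hb 2), mul_nonneg (pow_nonneg hu 4) (pow_nonneg hb 1), mul_nonneg (pow_nonneg hu 5) (pow_nonneg hb 0)]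

end Pool.Agent.FND
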