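import Pool.Agent.FND.Defs
import Pool.Agent.FND.SCd
import Pool.Agent.FND.Cst

/-!
FND-SC2: the decisive inequality, `15/100 ≤ u ≤ 7/10`.
-/

set_option autoImplicit false

open MeasureTheory Set
open Pool.Agent.Neu
open Pool.Agent.CS4 (Prof2 bb vv eV)

namespace Pool.Agent.FND

variable {K L : ℝ} {φ ψ χ ω : ℝ → ℝ}

private noncomputable def rb (u : ℝ) : ℝ := 1 - u / 2 - u ^ 2 / 8 - u ^ 3 / 16
private noncomputable def fL (u : ℝ) : ℝ := 1 + u / 2 + u ^ 2 * (761 / 10000 + 59 / 10000 * u)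
private noncomputable def fH (u : ℝ) : ℝ := 1 + u / 2 + u ^ 2 * (763 / 10000 + 59 / 10000 * u)
private noncomputable def gL (u : ℝ) : ℝ :=
  u * (11948 / 10000 + 3462 / 10000 * u + 408 / 10000 * u ^ 2)
private noncomputable def cL (u : ℝ) : ℝ :=
  1 + u + u ^ 2 * (3339 / 10000 + 563 / 10000 * u + 65 / 10000 * u ^ 2)
private noncomputable def cH (u : ℝ) : ℝ :=
  1 + u + u ^ 2 * (3341 / 10000 + 563 / 10000 * u + 65 / 10000 * u ^ 2)
private noncomputable def hL (u : ℝ) : ℝ :=
  u * (26639 / 10000 + 16655 / 10000 * u + 3996 / 10000 * u ^ 2 + 644 / 10000 * u ^ 3)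
private noncomputable def hH (u : ℝ) : ℝ :=
  u * (26643 / 10000 + 16655 / 10000 * u + 3996 / 10000 * u ^ 2 + 644 / 10000 * u ^ 3)
private noncomputable def eP (u : ℝ) : ℝ := u ^ 3 * (2 - u)
private noncomputable def zP (u : ℝ) : ℝ := -(u ^ 2 * (12 - 22 * u + 9 * u ^ 2))

private noncomputable def alP (M u : ℝ) : ℝ :=
  M * (98445 / 10000 * (u - (1 - (1 - u) * fL u ^ 2) / 2)
      + 9029 / 10000 * (fL u ^ 2 - 1 + (1 - (1 - u) * fH u ^ 2) / 2)
      + 105 / 100 * (1 - (1 - u) * fH u ^ 2))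
    + 4 * ((1 - u) * cL u ^ 2 - 1) + 2 * (1 - (1 - u) * fH u ^ 2)
    + 93283 / 20000 * (1 - ((1 - u) * cH u) ^ 2)

private noncomputable def beP (M u : ℝ) : ℝ :=
  M * ((98445 / 20000 - 9031 / 20000 + 105 / 100) * (1 - (1 - u) * fH u ^ 2)
      + 9029 / 10000 * gL u ^ 2)
    + (1 - u) * hL u ^ 2 - 2 * (1 - (1 - u) * fL u ^ 2)
    + 93283 / 20000 * (1 - ((1 - u) * cH u) ^ 2)

private noncomputable def gaP (x u : ℝ) : ℝ :=
  (1 - x) * (-(hH u * zP u) - 3231 / 10000 * (hL u * gL u))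
    + 93284 / 10000 * ((1 - u) * cH u * eP u)
    + 2 * (1 + x) * (cH u * (eP u + 3232 / 10000 * fH u * u))

private noncomputable def LbP (M si P1 je jd m1 z1 x u : ℝ) : ℝ :=
  (1 / 2 + x / 2) * (alP M u - si * (rb u * ((1 - u) * fH u * cH u) * u))
    + (1 / 2 - x / 2) * beP M u - P1 ^ 2 * (7 / 2 * u ^ 5)
    - je * (24 / 100 * u ^ 2) - jd * (74 / 100 * u ^ 2 + P1 * ((1 - u) * eP u * fH u))
    - 24 / 100 * (7 / 100 * u ^ 2 + P1 * (rb u * eP u))
    - P1 * (rb u * gaP x u + m1 * (54 / 100) * u + 5 * z1 * (74 / 100 * u ^ 2))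

private theorem rb_ge {u : ℝ} (h0 : 15 / 100 ≤ u) (h1 : u ≤ 7 / 10) : √(1 - u) ≤ rb u := by
  have h2 : 0 ≤ rb u := by
    unfold rb
    nlinarith [pow_le_pow_left₀ (by linarith : (0 : ℝ) ≤ u) h1 2,
      pow_le_pow_left₀ (by linarith : (0 : ℝ) ≤ u) h1 3]
  rw [Real.sqrt_le_left h2]
  unfold rb
  have h3 : (1 - u / 2 - u ^ 2 / 8 - u ^ 3 / 16) ^ 2 - (1 - u) =
      u ^ 4 * (5 / 64 + u / 64 + u ^ 2 / 256) := by ring
  have h4 : 0 ≤ u ^ 4 * (5 / 64 + u / 64 + u ^ 2 / 256) := by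
    have : (0 : ℝ) ≤ u := by linarith
    positivity
  linarith

private theorem al_ge (d : Dat K L φ ψ χ ω) {M u : ℝ} (hM : 0 ≤ M) (h0 : 15 / 100 ≤ u)
    (h1 : u ≤ 7 / 10) : alP M u ≤ al K L φ χ M (1 - u) := by
  have hmem : (1 - u) ∈ Icc (0 : ℝ) 1 := ⟨by linarith, by linarith⟩
  have e1 : 1 - (1 - u) = u := by ring
  have hu : 0 ≤ u := by linarith
  have hs : 0 ≤ 1 - u := by linarith
  have hf := abs_le.mp (d.enc.phi _ hmem)
  have hc := abs_le.mp (d.enc.chi _ hmem)
  rw [e1] at hf hc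
  have hg2 := g2_bd d.prof hmem
  have hf1 := d.prof.one_le _ hmem
  have hc1 := d.prof2.one_le _ hmem
  have hc2 := d.prof2.le _ hmem
  rw [e1] at hc2
  set f := φ (1 - u) with hfd
  set c := χ (1 - u) with hcd
  have f1 : fL u ≤ f := by unfold fL; linarith [hf.1]
  have f2 : f ≤ fH u := by unfold fH; linarith [hf.2]
  have c1 : cL u ≤ c := by unfold cL; linarith [hc.1]
  have c2 : c ≤ cH u := by unfold cH; linarith [hc.2]
  have f0 : 0 ≤ fL u := by unfold fL; positivity
  have c0 : 0 ≤ cL u := by unfold cL; positivity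
  have q1 : fL u ^ 2 ≤ f ^ 2 := pow_le_pow_left₀ f0 f1 2
  have q2 : f ^ 2 ≤ fH u ^ 2 := pow_le_pow_left₀ (by linarith) f2 2
  have q3 : cL u ^ 2 ≤ c ^ 2 := pow_le_pow_left₀ c0 c1 2
  have q4 : (1 - u) * fL u ^ 2 ≤ (1 - u) * f ^ 2 := mul_le_mul_of_nonneg_left q1 hs
  have q5 : (1 - u) * f ^ 2 ≤ (1 - u) * fH u ^ 2 := mul_le_mul_of_nonneg_left q2 hs
  have q6 : (1 - u) * cL u ^ 2 ≤ (1 - u) * c ^ 2 := mul_le_mul_of_nonneg_left q3 hs
  have q7 : ((1 - u) * c) ^ 2 ≤ ((1 - u) * cH u) ^ 2 :=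
    pow_le_pow_left₀ (mul_nonneg hs (by linarith)) (mul_le_mul_of_nonneg_left c2 hs) 2
  have q8 : ((1 - u) * c) ^ 2 ≤ 1 := by
    have : (1 - u) * c ≤ 1 := by nlinarith [sq_nonneg u]
    exact pow_le_one₀ (mul_nonneg hs (by linarith)) this
  have hT := (T0_bd d).1
  have hm := mw_bd d
  have hq : 9029 / 10000 ≤ 2 / mw K := by
    rw [le_div_iff₀ (by linarith)]; linarith
  have hLl := d.enc.L_lo
  have t1 : 98445 / 10000 * (u - (1 - (1 - u) * fL u ^ 2) / 2) ≤
      96 / 100 * T0 K L * (u - (1 - (1 - u) * f ^ 2) / 2) := by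
    have a1 : 98445 / 10000 * (u - (1 - (1 - u) * fL u ^ 2) / 2) ≤
      98445 / 10000 * (u - (1 - (1 - u) * f ^ 2) / 2) := by linarith
    have a2 : 0 ≤ u - (1 - (1 - u) * f ^ 2) / 2 := by linarith [hg2.1]
    have a3 := mul_le_mul_of_nonneg_right (show 98445 / 10000 ≤ 96 / 100 * T0 K L by linarith) a2
    linarith
  have t2 : 9029 / 10000 * (fL u ^ 2 - 1 + (1 - (1 - u) * fH u ^ 2) / 2) ≤
      2 / mw K * (f ^ 2 - 1 + (1 - (1 - u) * f ^ 2) / 2) := by
    have a1 : 9029 / 10000 * (fL u ^ 2 - 1 + (1 - (1 - u) * fH u ^ 2) / 2) ≤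
      9029 / 10000 * (f ^ 2 - 1 + (1 - (1 - u) * f ^ 2) / 2) := by linarith
    have a2 : 0 ≤ f ^ 2 - 1 + (1 - (1 - u) * f ^ 2) / 2 := by
      have : 1 ≤ f ^ 2 := one_le_pow₀ hf1
      linarith [hg2.2]
    have a3 := mul_le_mul_of_nonneg_right hq a2
    linarith
  have t3 : 93283 / 20000 * (1 - ((1 - u) * cH u) ^ 2) ≤ L / 2 * (1 - ((1 - u) * c) ^ 2) := by
    have a2 : 0 ≤ 1 - ((1 - u) * c) ^ 2 := by linarith
    have a3 := mul_le_mul_of_nonneg_right (show 93283 / 20000 ≤ L / 2 by linarith) a2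
    linarith
  unfold alP al
  rw [e1, ← hfd, ← hcd]
  have t4 := mul_le_mul_of_nonneg_left (show
    98445 / 10000 * (u - (1 - (1 - u) * fL u ^ 2) / 2)
      + 9029 / 10000 * (fL u ^ 2 - 1 + (1 - (1 - u) * fH u ^ 2) / 2)
      + 105 / 100 * (1 - (1 - u) * fH u ^ 2) ≤
    96 / 100 * T0 K L * (u - (1 - (1 - u) * f ^ 2) / 2)
      + 2 / mw K * (f ^ 2 - 1 + (1 - (1 - u) * f ^ 2) / 2) + 105 / 100 * (1 - (1 - u) * f ^ 2)
    by linarith) hM
  linarith

private theorem be_ge (d : Dat K L φ ψ χ ω) {M u : ℝ} (hM : 0 ≤ M) (h0 : 15 / 100 ≤ u)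
    (h1 : u ≤ 7 / 10) : beP M u ≤ be K L φ ψ χ ω M (1 - u) := by
  have hmem : (1 - u) ∈ Icc (0 : ℝ) 1 := ⟨by linarith, by linarith⟩
  have e1 : 1 - (1 - u) = u := by ring
  have hu : 0 ≤ u := by linarith
  have hs : 0 ≤ 1 - u := by linarith
  have hf := abs_le.mp (d.enc.phi _ hmem)
  have hc := abs_le.mp (d.enc.chi _ hmem)
  have hg := abs_le.mp (d.enc.gd _ hmem)
  have hh := abs_le.mp (d.enc.hd _ hmem)
  rw [e1] at hf hc hg hh
  have hg2 := g2_bd d.prof hmem
  have hf1 := d.prof.one_le _ hmem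
  have hc1 := d.prof2.one_le _ hmem
  have hc2 := d.prof2.le _ hmem
  rw [e1] at hc2
  have g1 : gL u ≤ gdf φ ψ (1 - u) := by unfold gL gdf; linarith [hg.1]
  have k1 : hL u ≤ hdf χ ω (1 - u) := by unfold hL hdf; linarith [hh.1]
  have g0 : 0 ≤ gL u := by unfold gL; positivity
  have k0 : 0 ≤ hL u := by unfold hL; positivity
  set f := φ (1 - u) with hfd
  set c := χ (1 - u) with hcd
  set g := gdf φ ψ (1 - u) with hgd
  set k := hdf χ ω (1 - u) with hkd
  have f1 : fL u ≤ f := by unfold fL; linarith [hf.1]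
  have f2 : f ≤ fH u := by unfold fH; linarith [hf.2]
  have c2 : c ≤ cH u := by unfold cH; linarith [hc.2]
  have f0 : 0 ≤ fL u := by unfold fL; positivity
  have q1 : fL u ^ 2 ≤ f ^ 2 := pow_le_pow_left₀ f0 f1 2
  have q2 : f ^ 2 ≤ fH u ^ 2 := pow_le_pow_left₀ (by linarith) f2 2
  have q3 : gL u ^ 2 ≤ g ^ 2 := pow_le_pow_left₀ g0 g1 2
  have q9 : hL u ^ 2 ≤ k ^ 2 := pow_le_pow_left₀ k0 k1 2
  have q4 : (1 - u) * fL u ^ 2 ≤ (1 - u) * f ^ 2 := mul_le_mul_of_nonneg_left q1 hs
  have q5 : (1 - u) * f ^ 2 ≤ (1 - u) * fH u ^ 2 := mul_le_mul_of_nonneg_left q2 hs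
  have q6 : (1 - u) * hL u ^ 2 ≤ (1 - u) * k ^ 2 := mul_le_mul_of_nonneg_left q9 hs
  have q7 : ((1 - u) * c) ^ 2 ≤ ((1 - u) * cH u) ^ 2 :=
    pow_le_pow_left₀ (mul_nonneg hs (by linarith)) (mul_le_mul_of_nonneg_left c2 hs) 2
  have q8 : ((1 - u) * c) ^ 2 ≤ 1 := by
    have : (1 - u) * c ≤ 1 := by nlinarith [sq_nonneg u]
    exact pow_le_one₀ (mul_nonneg hs (by linarith)) this
  have hT := (T0_bd d).1
  have hm := mw_bd d
  have hq : 9029 / 10000 ≤ 2 / mw K := by
    rw [le_div_iff₀ (by linarith)]; linarith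
  have hq' : 2 / mw K ≤ 9031 / 10000 := by
    rw [div_le_iff₀ (by linarith)]; linarith
  have hLl := d.enc.L_lo
  have x0 : 0 ≤ 1 - (1 - u) * f ^ 2 := by linarith [hg2.2]
  have t1 : 98445 / 20000 * (1 - (1 - u) * f ^ 2) ≤
      96 / 100 * T0 K L * ((1 - (1 - u) * f ^ 2) / 2) := by
    have a3 := mul_le_mul_of_nonneg_right (show 98445 / 10000 ≤ 96 / 100 * T0 K L by linarith) x0
    linarith
  have t2 : 9029 / 10000 * gL u ^ 2 - 9031 / 20000 * (1 - (1 - u) * f ^ 2) ≤
      2 / mw K * (g ^ 2 - (1 - (1 - u) * f ^ 2) / 2) := by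
    have a1 : 9029 / 10000 * gL u ^ 2 ≤ 9029 / 10000 * g ^ 2 := by linarith
    have a3 := mul_le_mul_of_nonneg_right hq (sq_nonneg g)
    have a4 := mul_le_mul_of_nonneg_right hq' x0
    linarith
  have t3 : 93283 / 20000 * (1 - ((1 - u) * cH u) ^ 2) ≤ L / 2 * (1 - ((1 - u) * c) ^ 2) := by
    have a2 : 0 ≤ 1 - ((1 - u) * c) ^ 2 := by linarith
    have a3 := mul_le_mul_of_nonneg_right (show 93283 / 20000 ≤ L / 2 by linarith) a2
    linarith
  unfold beP be
  rw [← hfd, ← hcd, ← hgd, ← hkd]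
  have t4 := mul_le_mul_of_nonneg_left (show
    (98445 / 20000 - 9031 / 20000 + 105 / 100) * (1 - (1 - u) * fH u ^ 2)
      + 9029 / 10000 * gL u ^ 2 ≤
    96 / 100 * T0 K L * ((1 - (1 - u) * f ^ 2) / 2)
      + 2 / mw K * (g ^ 2 - (1 - (1 - u) * f ^ 2) / 2) + 105 / 100 * (1 - (1 - u) * f ^ 2)
    by linarith) hM
  linarith

private theorem ga_nonneg {x u : ℝ} (hx0 : -1 ≤ x) (hx1 : x ≤ 1) (h0 : 15 / 100 ≤ u)
    (h1 : u ≤ 7 / 10) : 0 ≤ gaP x u := by
  have hu : 0 ≤ u := by linarith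
  have hs : 0 ≤ 1 - u := by linarith
  have hc : 0 ≤ cH u := by unfold cH; positivity
  have hf : 0 ≤ fH u := by unfold fH; positivity
  have he : 0 ≤ eP u := by
    unfold eP
    have : 0 ≤ 2 - u := by linarith
    positivity
  have hL0 : 0 ≤ hL u := by unfold hL; positivity
  have hLH : hL u ≤ hH u := by
    unfold hL hH
    have := hu
    nlinarith
  have z0 : 0 ≤ -zP u - 3231 / 10000 * gL u := by
    have e : -zP u - 3231 / 10000 * gL u = u * (u * (12 - 22 * u + 9 * u ^ 2)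
      - 3231 / 10000 * (11948 / 10000 + 3462 / 10000 * u + 408 / 10000 * u ^ 2)) := by
      unfold zP gL; ring
    rw [e]
    refine mul_nonneg hu ?_
    nlinarith [mul_nonneg (sub_nonneg.mpr h0) (sub_nonneg.mpr h1), mul_nonneg (mul_nonneg
      (sub_nonneg.mpr h0) (sub_nonneg.mpr h1)) hu]
  have z1 : 0 ≤ gL u := by unfold gL; positivity
  have z2 : 0 ≤ -zP u := by linarith
  have z3 : 0 ≤ -(hH u * zP u) - 3231 / 10000 * (hL u * gL u) := by
    have a1 := mul_nonneg hL0 z0
    have a2 := mul_le_mul_of_nonneg_right hLH z2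
    linarith
  unfold gaP
  have b1 : 0 ≤ (1 - x) * (-(hH u * zP u) - 3231 / 10000 * (hL u * gL u)) :=
    mul_nonneg (by linarith) z3
  have b2 : 0 ≤ (1 - u) * cH u * eP u := mul_nonneg (mul_nonneg hs hc) he
  have b3 : 0 ≤ 2 * (1 + x) * (cH u * (eP u + 3232 / 10000 * fH u * u)) := by
    have : 0 ≤ 1 + x := by linarith
    positivity
  linarith

private theorem ga_ge (d : Dat K L φ ψ χ ω) {x u : ℝ} (hx0 : -1 ≤ x) (hx1 : x ≤ 1)
    (h0 : 15 / 100 ≤ u) (h1 : u ≤ 7 / 10) : Gam K L φ ψ χ ω x (1 - u) ≤ gaP x u := by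
  have hmem : (1 - u) ∈ Icc (0 : ℝ) 1 := ⟨by linarith, by linarith⟩
  have e1 : 1 - (1 - u) = u := by ring
  have hu : 0 ≤ u := by linarith
  have hs : 0 ≤ 1 - u := by linarith
  have hf := abs_le.mp (d.enc.phi _ hmem)
  have hc := abs_le.mp (d.enc.chi _ hmem)
  have hg := abs_le.mp (d.enc.gd _ hmem)
  have hh := abs_le.mp (d.enc.hd _ hmem)
  rw [e1] at hf hc hg hh
  have hf1 := d.prof.one_le _ hmem
  have hc1 := d.prof2.one_le _ hmem
  have g1 : gL u ≤ gdf φ ψ (1 - u) := by unfold gL gdf; linarith [hg.1]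
  have k1 : hL u ≤ hdf χ ω (1 - u) := by unfold hL hdf; linarith [hh.1]
  have k2 : hdf χ ω (1 - u) ≤ hH u := by unfold hH hdf; linarith [hh.2]
  have g0 : 0 ≤ gL u := by unfold gL; positivity
  have k0 : 0 ≤ hL u := by unfold hL; positivity
  have he : et (1 - u) = eP u := by
    unfold et eP
    rw [if_pos (by linarith)]
    ring
  have hz : zpf K φ ψ (1 - u) = zP u + a0 K φ * gdf φ ψ (1 - u) := by
    unfold zpf zt ztd gdf zP
    rw [he]
    unfold etd eP
    rw [if_pos (by linarith)]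
    ring
  have he0 : 0 ≤ eP u := by
    unfold eP
    have : 0 ≤ 2 - u := by linarith
    positivity
  have z2 : 0 ≤ -zP u := by
    have e : -zP u = u ^ 2 * (12 - 22 * u + 9 * u ^ 2) := by
      unfold zP; ring
    rw [e]
    refine mul_nonneg (sq_nonneg u) ?_
    nlinarith [mul_nonneg (sub_nonneg.mpr h0) (sub_nonneg.mpr h1)]
  unfold Gam gaP
  rw [he, hz]
  have ha := a0_bd d
  have hLh := d.enc.L_hi
  have hL0 := d.enc.L_lo
  rw [e1]
  set f := φ (1 - u) with hfd
  set c := χ (1 - u) with hcd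
  set g := gdf φ ψ (1 - u) with hgd
  set k := hdf χ ω (1 - u) with hkd
  have f2 : f ≤ fH u := by unfold fH; linarith [hf.2]
  have c2 : c ≤ cH u := by unfold cH; linarith [hc.2]
  have s1 : -(k * (zP u + a0 K φ * g)) ≤ -(hH u * zP u) - 3231 / 10000 * (hL u * gL u) := by
    have a1 := mul_le_mul_of_nonneg_right k2 z2
    have a2 : hL u * gL u ≤ k * g := mul_le_mul k1 g1 g0 (by linarith)
    have a3 : 0 ≤ hL u * gL u := mul_nonneg k0 g0
    have a4 : 3231 / 10000 * (hL u * gL u) ≤ a0 K φ * (k * g) :=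
      mul_le_mul (by linarith) a2 a3 (by linarith)
    linarith
  have s2 : (1 - x) * -(k * (zP u + a0 K φ * g)) ≤
      (1 - x) * (-(hH u * zP u) - 3231 / 10000 * (hL u * gL u)) :=
    mul_le_mul_of_nonneg_left s1 (by linarith)
  have s3 : L * ((1 - u) * c * eP u) ≤ 93284 / 10000 * ((1 - u) * cH u * eP u) := by
    refine mul_le_mul (by linarith) ?_ (mul_nonneg (mul_nonneg hs (by linarith)) he0) (by norm_num)
    exact mul_le_mul_of_nonneg_right (mul_le_mul_of_nonneg_left c2 hs) he0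
  have s4 : c * (eP u + a0 K φ * f * u) ≤ cH u * (eP u + 3232 / 10000 * fH u * u) := by
    have b1 : a0 K φ * f ≤ 3232 / 10000 * fH u :=
      mul_le_mul (by linarith) f2 (by linarith) (by norm_num)
    have b2 : a0 K φ * f * u ≤ 3232 / 10000 * fH u * u := mul_le_mul_of_nonneg_right b1 hu
    have b3 : 0 ≤ a0 K φ * f * u := mul_nonneg (mul_nonneg (by linarith) (by linarith)) hu
    exact mul_le_mul c2 (by linarith) (by linarith) (by linarith)
  have s5 : 2 * (1 + x) * (c * (eP u + a0 K φ * f * u)) ≤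
      2 * (1 + x) * (cH u * (eP u + 3232 / 10000 * fH u * u)) :=
    mul_le_mul_of_nonneg_left s4 (by linarith)
  linarith

private theorem Uf_ge (d : Dat K L φ ψ χ ω) (c : Cell) (hM : 0 ≤ c.M) (hsi : 0 ≤ c.si)
    (hP : 0 ≤ c.P1) (hjd : 0 ≤ c.jd) {x u : ℝ} (hx0 : -1 ≤ x)
    (hx1 : x ≤ 1) (h0 : 15 / 100 ≤ u) (h1 : u ≤ 7 / 10) :
    LbP c.M c.si c.P1 c.je c.jd c.m1 c.z1 x u ≤
      Uf K L φ ψ χ ω c (√(1 - u) * Gam K L φ ψ χ ω x (1 - u)) (24 / 100) (54 / 100) x (1 - u) := by
  have hmem : (1 - u) ∈ Icc (0 : ℝ) 1 := ⟨by linarith, by linarith⟩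
  have e1 : 1 - (1 - u) = u := by ring
  have hu : 0 ≤ u := by linarith
  have hs : 0 ≤ 1 - u := by linarith
  have hf := abs_le.mp (d.enc.phi _ hmem)
  have hc := abs_le.mp (d.enc.chi _ hmem)
  rw [e1] at hf hc
  have hf1 := d.prof.one_le _ hmem
  have hc1 := d.prof2.one_le _ hmem
  have he : et (1 - u) = eP u := by
    unfold et eP
    rw [if_pos (by linarith)]
    ring
  have he0 : 0 ≤ eP u := by
    unfold eP
    have : 0 ≤ 2 - u := by linarith
    positivity
  have hal := al_ge d hM h0 h1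
  have hbe := be_ge d hM h0 h1
  have hga := ga_ge d hx0 hx1 h0 h1
  have hga0 := ga_nonneg hx0 hx1 h0 h1
  have hr := rb_ge h0 h1
  have hr0 : 0 ≤ √(1 - u) := Real.sqrt_nonneg _
  have f2 : φ (1 - u) ≤ fH u := by unfold fH; linarith [hf.2]
  have c2 : χ (1 - u) ≤ cH u := by unfold cH; linarith [hc.2]
  have w1 : √(1 - u) * ((1 - u) * φ (1 - u) * χ (1 - u)) * u ≤
      rb u * ((1 - u) * fH u * cH u) * u := by
    refine mul_le_mul_of_nonneg_right ?_ hu
    have b1 : (1 - u) * φ (1 - u) ≤ (1 - u) * fH u := mul_le_mul_of_nonneg_left f2 hs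
    have b0 : 0 ≤ (1 - u) * φ (1 - u) := mul_nonneg hs (by linarith)
    have b2 : (1 - u) * φ (1 - u) * χ (1 - u) ≤ (1 - u) * fH u * cH u :=
      mul_le_mul b1 c2 (by linarith) (by linarith)
    exact mul_le_mul hr b2 (mul_nonneg b0 (by linarith)) (by linarith)
  have w2 : (1 - u) * eP u * φ (1 - u) ≤ (1 - u) * eP u * fH u :=
    mul_le_mul_of_nonneg_left f2 (mul_nonneg hs he0)
  have w3 : √(1 - u) * eP u ≤ rb u * eP u := mul_le_mul_of_nonneg_right hr he0
  have w4 : √(1 - u) * Gam K L φ ψ χ ω x (1 - u) ≤ rb u * gaP x u := by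
    have b1 := mul_le_mul_of_nonneg_left hga hr0
    have b2 := mul_le_mul_of_nonneg_right hr hga0
    linarith
  unfold LbP Uf
  rw [e1, he]
  have v1 := mul_le_mul_of_nonneg_left w1 hsi
  have v2 := mul_le_mul_of_nonneg_left (show alP c.M u -
    c.si * (rb u * ((1 - u) * fH u * cH u) * u) ≤ al K L φ χ c.M (1 - u) -
    c.si * (√(1 - u) * ((1 - u) * φ (1 - u) * χ (1 - u)) * u) by linarith)
    (show 0 ≤ 1 / 2 + x / 2 by linarith)
  have v3 := mul_le_mul_of_nonneg_left hbe (show 0 ≤ 1 / 2 - x / 2 by linarith)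
  have v4 := mul_le_mul_of_nonneg_left w2 hP
  have v5 := mul_le_mul_of_nonneg_left w3 hP
  have v6 := mul_le_mul_of_nonneg_left v4 hjd
  have v7 := mul_le_mul_of_nonneg_left w4 hP
  linarith

private theorem pos_cAp0 {u : ℝ} (h0 : 3 / 20 ≤ u) (h1 : u ≤ 43 / 100) :
    0 ≤ LbP (162 / 100) (17) (1075 / 1000) (923 / 100) (371 / 100) (1 / 4) (127 / 1000) (1 / 4) u := by
  have e : LbP (162 / 100) (17) (1075 / 1000) (923 / 100) (371 / 100) (1 / 4) (127 / 1000) (1 / 4) u = u * (
      (493506972375304628368005299 / 271761718230118301696) * ((u - 3 / 20) ^ 0 * (43 / 100 - u) ^ 11) +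
      (24643260746521055852953262441 / 1358808591150591508480) * ((u - 3 / 20) ^ 1 * (43 / 100 - u) ^ 10) +
      (543779917559376095102117505509 / 6794042955752957542400) * ((u - 3 / 20) ^ 2 * (43 / 100 - u) ^ 9) +
      (6986130159257544611785070332151 / 33970214778764787712000) * ((u - 3 / 20) ^ 3 * (43 / 100 - u) ^ 8) +
      (28941625816542718980851370957567 / 84925536946911969280000) * ((u - 3 / 20) ^ 4 * (43 / 100 - u) ^ 7) +
      (23095345546891525825101707015771 / 60661097819222835200000) * ((u - 3 / 20) ^ 5 * (43 / 100 - u) ^ 6) +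
      (88259299640843166844766735678019 / 303305489096114176000000) * ((u - 3 / 20) ^ 6 * (43 / 100 - u) ^ 5) +
      (1606048862068999402906519669289367 / 10615692118363996160000000) * ((u - 3 / 20) ^ 7 * (43 / 100 - u) ^ 4) +
      (5559517242871568209193499557934751 / 106156921183639961600000000) * ((u - 3 / 20) ^ 8 * (43 / 100 - u) ^ 3) +
      (6220332023472384672504429628540109 / 530784605918199808000000000) * ((u - 3 / 20) ^ 9 * (43 / 100 - u) ^ 2) +
      (879381627123021843806908037144429 / 530784605918199808000000000) * ((u - 3 / 20) ^ 10 * (43 / 100 - u) ^ 1) +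
      (14196860702376842605721161453127 / 106156921183639961600000000) * ((u - 3 / 20) ^ 11 * (43 / 100 - u) ^ 0)) := by
    unfold LbP alP beP gaP rb fL fH gL cL cH hL hH eP zP
    ring
  rw [e]
  have a : 0 ≤ u - 3 / 20 := by linarith
  have b : 0 ≤ 43 / 100 - u := by linarith
  have c : 0 ≤ u := by linarith
  positivity

private theorem pos_cAp1 {u : ℝ} (h0 : 43 / 100 ≤ u) (h1 : u ≤ 7 / 10) :
    0 ≤ LbP (162 / 100) (17) (1075 / 1000) (923 / 100) (371 / 100) (1 / 4) (127 / 1000) (1 / 4) u := by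
  have e : LbP (162 / 100) (17) (1075 / 1000) (923 / 100) (371 / 100) (1 / 4) (127 / 1000) (1 / 4) u = u * (
      (14196860702376842605721161453127 / 71155975251910694400000000) * ((u - 43 / 100) ^ 0 * (7 / 10 - u) ^ 11) +
      (342896423078006412491428507014457 / 177889938129776736000000000) * ((u - 43 / 100) ^ 1 * (7 / 10 - u) ^ 10) +
      (1047773717832981501389488530430801 / 88944969064888368000000000) * ((u - 43 / 100) ^ 2 * (7 / 10 - u) ^ 9) +
      (39299095949491315051177105438693 / 741208075540736400000000) * ((u - 43 / 100) ^ 3 * (7 / 10 - u) ^ 8) +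
      (12226175418557756633150709108653 / 74120807554073640000000) * ((u - 43 / 100) ^ 4 * (7 / 10 - u) ^ 7) +
      (10284946474178165409422654698297 / 29648323021629456000000) * ((u - 43 / 100) ^ 5 * (7 / 10 - u) ^ 6) +
      (183775910874125451130880111069 / 370604037770368200000) * ((u - 43 / 100) ^ 6 * (7 / 10 - u) ^ 5) +
      (143223814533672008909778632483 / 296483230216294560000) * ((u - 43 / 100) ^ 7 * (7 / 10 - u) ^ 4) +
      (9375480317997384624777688003 / 29648323021629456000) * ((u - 43 / 100) ^ 8 * (7 / 10 - u) ^ 3) +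
      (296285722259074991989575541 / 2223624226622209200) * ((u - 43 / 100) ^ 9 * (7 / 10 - u) ^ 2) +
      (29066262869375264155325159 / 889449690648883680) * ((u - 43 / 100) ^ 10 * (7 / 10 - u) ^ 1) +
      (315463748583076108938559 / 88944969064888368) * ((u - 43 / 100) ^ 11 * (7 / 10 - u) ^ 0)) := by
    unfold LbP alP beP gaP rb fL fH gL cL cH hL hH eP zP
    ring
  rw [e]
  have a : 0 ≤ u - 43 / 100 := by linarith
  have b : 0 ≤ 7 / 10 - u := by linarith
  have c : 0 ≤ u := by linarith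
  positivity

private theorem pos_cAm0 {u : ℝ} (h0 : 3 / 20 ≤ u) (h1 : u ≤ 7 / 10) :
    0 ≤ LbP (162 / 100) (17) (1075 / 1000) (923 / 100) (371 / 100) (1 / 4) (127 / 1000) (-(1 / 4)) u := by
  have e : LbP (162 / 100) (17) (1075 / 1000) (923 / 100) (371 / 100) (1 / 4) (127 / 1000) (-(1 / 4)) u = u * (
      (396657733674093995673360237 / 456498672977600000000000) * ((u - 3 / 20) ^ 0 * (7 / 10 - u) ^ 11) +
      (167959723345168310856940377 / 20749939680800000000000) * ((u - 3 / 20) ^ 1 * (7 / 10 - u) ^ 10) +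
      (297653018053682028130802749 / 10374969840400000000000) * ((u - 3 / 20) ^ 2 * (7 / 10 - u) ^ 9) +
      (62348560697772492435731581 / 1296871230050000000000) * ((u - 3 / 20) ^ 3 * (7 / 10 - u) ^ 8) +
      (22328948675558127866721961 / 648435615025000000000) * ((u - 3 / 20) ^ 4 * (7 / 10 - u) ^ 7) +
      (1332666798853515241632731 / 259374246010000000000) * ((u - 3 / 20) ^ 5 * (7 / 10 - u) ^ 6) +
      (189080634130599455822189 / 8105445187812500000) * ((u - 3 / 20) ^ 6 * (7 / 10 - u) ^ 5) +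
      (26353927829233835971224701 / 324217807512500000000) * ((u - 3 / 20) ^ 7 * (7 / 10 - u) ^ 4) +
      (133595036790412124524781 / 1339743006250000000) * ((u - 3 / 20) ^ 8 * (7 / 10 - u) ^ 3) +
      (1236453165594617705025339 / 20263612969531250000) * ((u - 3 / 20) ^ 9 * (7 / 10 - u) ^ 2) +
      (768356056975358575431203 / 40527225939062500000) * ((u - 3 / 20) ^ 10 * (7 / 10 - u) ^ 1) +
      (531712158658620663369633 / 222899742664843750000) * ((u - 3 / 20) ^ 11 * (7 / 10 - u) ^ 0)) := by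
    unfold LbP alP beP gaP rb fL fH gL cL cH hL hH eP zP
    ring
  rw [e]
  have a : 0 ≤ u - 3 / 20 := by linarith
  have b : 0 ≤ 7 / 10 - u := by linarith
  have c : 0 ≤ u := by linarith
  positivity

private theorem pos_cBp0 {u : ℝ} (h0 : 3 / 20 ≤ u) (h1 : u ≤ 43 / 100) :
    0 ≤ LbP (1649 / 1000) (177 / 10) (984 / 1000) (841 / 100) (407 / 100) (4 / 10) (2087 / 10000) (4 / 10) u := by
  have e : LbP (1649 / 1000) (177 / 10) (984 / 1000) (841 / 100) (407 / 100) (4 / 10) (2087 / 10000) (4 / 10) u = u * (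
      (4032216415693961524154471371 / 2426443912768913408000) * ((u - 3 / 20) ^ 0 * (43 / 100 - u) ^ 11) +
      (8012169018145332620799073993 / 485288782553782681600) * ((u - 3 / 20) ^ 1 * (43 / 100 - u) ^ 10) +
      (881249955761466743561699881161 / 12132219563844567040000) * ((u - 3 / 20) ^ 2 * (43 / 100 - u) ^ 9) +
      (11312307889056415184579874757523 / 60661097819222835200000) * ((u - 3 / 20) ^ 3 * (43 / 100 - u) ^ 8) +
      (46959673876637840238602418468491 / 151652744548057088000000) * ((u - 3 / 20) ^ 4 * (43 / 100 - u) ^ 7) +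
      (188545036972661464388577004185923 / 541616944814489600000000) * ((u - 3 / 20) ^ 5 * (43 / 100 - u) ^ 6) +
      (20859431294790653921648747019657 / 77373849259212800000000) * ((u - 3 / 20) ^ 6 * (43 / 100 - u) ^ 5) +
      (2725319343499315829875455475457523 / 18956593068507136000000000) * ((u - 3 / 20) ^ 7 * (43 / 100 - u) ^ 4) +
      (9892191298393747620797744642857963 / 189565930685071360000000000) * ((u - 3 / 20) ^ 8 * (43 / 100 - u) ^ 3) +
      (12033286183827988666658258664263137 / 947829653425356800000000000) * ((u - 3 / 20) ^ 9 * (43 / 100 - u) ^ 2) +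
      (47897957279550574727740009443688201 / 23695741335633920000000000000) * ((u - 3 / 20) ^ 10 * (43 / 100 - u) ^ 1) +
      (4224019176280464236683314810208151 / 23695741335633920000000000000) * ((u - 3 / 20) ^ 11 * (43 / 100 - u) ^ 0)) := by
    unfold LbP alP beP gaP rb fL fH gL cL cH hL hH eP zP
    ring
  rw [e]
  have a : 0 ≤ u - 3 / 20 := by linarith
  have b : 0 ≤ 43 / 100 - u := by linarith
  have c : 0 ≤ u := by linarith
  positivity

private theorem pos_cBp1 {u : ℝ} (h0 : 43 / 100 ≤ u) (h1 : u ≤ 7 / 10) :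
    0 ≤ LbP (1649 / 1000) (177 / 10) (984 / 1000) (841 / 100) (407 / 100) (4 / 10) (2087 / 10000) (4 / 10) u := by
  have e : LbP (1649 / 1000) (177 / 10) (984 / 1000) (841 / 100) (407 / 100) (4 / 10) (2087 / 10000) (4 / 10) u = u * (
      (29568134233963249656783203671457057 / 111181211331110460000000000000) * ((u - 43 / 100) ^ 0 * (7 / 10 - u) ^ 11) +
      (157785844387726918193053150649543741 / 55590605665555230000000000000) * ((u - 43 / 100) ^ 1 * (7 / 10 - u) ^ 10) +
      (18820818352910830010811975488018483 / 1111812113311104600000000000) * ((u - 43 / 100) ^ 2 * (7 / 10 - u) ^ 9) +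
      (513022505726440902053300017602733 / 7412080755407364000000000) * ((u - 43 / 100) ^ 3 * (7 / 10 - u) ^ 8) +
      (364365033416630738289345089364623 / 1853020188851841000000000) * ((u - 43 / 100) ^ 4 * (7 / 10 - u) ^ 7) +
      (71734014979289107736875527970291 / 185302018885184100000000) * ((u - 43 / 100) ^ 5 * (7 / 10 - u) ^ 6) +
      (49002230729322132122845364257973 / 92651009442592050000000) * ((u - 43 / 100) ^ 6 * (7 / 10 - u) ^ 5) +
      (925500588950030265355063895117 / 1853020188851841000000) * ((u - 43 / 100) ^ 7 * (7 / 10 - u) ^ 4) +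
      (23712591136092719273256100219 / 74120807554073640000) * ((u - 43 / 100) ^ 8 * (7 / 10 - u) ^ 3) +
      (14758039986403058413031056517 / 111181211331110460000) * ((u - 43 / 100) ^ 9 * (7 / 10 - u) ^ 2) +
      (357974833069384938944492407 / 11118121133111046000) * ((u - 43 / 100) ^ 10 * (7 / 10 - u) ^ 1) +
      (19273514965163355525163771 / 5559060566555523000) * ((u - 43 / 100) ^ 11 * (7 / 10 - u) ^ 0)) := by
    unfold LbP alP beP gaP rb fL fH gL cL cH hL hH eP zP
    ring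
  rw [e]
  have a : 0 ≤ u - 43 / 100 := by linarith
  have b : 0 ≤ 7 / 10 - u := by linarith
  have c : 0 ≤ u := by linarith
  positivity

private theorem pos_cBm0 {u : ℝ} (h0 : 3 / 20 ≤ u) (h1 : u ≤ 7 / 10) :
    0 ≤ LbP (1649 / 1000) (177 / 10) (984 / 1000) (841 / 100) (407 / 100) (4 / 10) (2087 / 10000) (-(4 / 10)) u := by
  have e : LbP (1649 / 1000) (177 / 10) (984 / 1000) (841 / 100) (407 / 100) (4 / 10) (2087 / 10000) (-(4 / 10)) u = u * (
      (21153844156634269541037095073 / 28531167061100000000000000) * ((u - 3 / 20) ^ 0 * (7 / 10 - u) ^ 11) +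
      (9434140475243598196837006499 / 1296871230050000000000000) * ((u - 3 / 20) ^ 1 * (7 / 10 - u) ^ 10) +
      (3592532083035174458876593557 / 129687123005000000000000) * ((u - 3 / 20) ^ 2 * (7 / 10 - u) ^ 9) +
      (712292860268051816966722121 / 12968712300500000000000) * ((u - 3 / 20) ^ 3 * (7 / 10 - u) ^ 8) +
      (1108942172814866417199865147 / 16210890375625000000000) * ((u - 3 / 20) ^ 4 * (7 / 10 - u) ^ 7) +
      (3303653172222993671106179107 / 40527225939062500000000) * ((u - 3 / 20) ^ 5 * (7 / 10 - u) ^ 6) +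
      (2602556987756202425720604361 / 20263612969531250000000) * ((u - 3 / 20) ^ 6 * (7 / 10 - u) ^ 5) +
      (357541586849736044702911209 / 2026361296953125000000) * ((u - 3 / 20) ^ 7 * (7 / 10 - u) ^ 4) +
      (2544307787288888974425647 / 16210890375625000000) * ((u - 3 / 20) ^ 8 * (7 / 10 - u) ^ 3) +
      (84236148886590643399001051 / 1013180648476562500000) * ((u - 3 / 20) ^ 9 * (7 / 10 - u) ^ 2) +
      (501416771823572437821533 / 20933484472656250000) * ((u - 3 / 20) ^ 10 * (7 / 10 - u) ^ 1) +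
      (40230198180505749338127719 / 13931233916552734375000) * ((u - 3 / 20) ^ 11 * (7 / 10 - u) ^ 0)) := by
    unfold LbP alP beP gaP rb fL fH gL cL cH hL hH eP zP
    ring
  rw [e]
  have a : 0 ≤ u - 3 / 20 := by linarith
  have b : 0 ≤ 7 / 10 - u := by linarith
  have c : 0 ≤ u := by linarith
  positivity

private theorem pos_cCp0 {u : ℝ} (h0 : 3 / 20 ≤ u) (h1 : u ≤ 7 / 10) :
    0 ≤ LbP (1695 / 1000) (186 / 10) (805 / 1000) (682 / 100) (42 / 10) (573 / 1000) (3149 / 10000) (573 / 1000) u := by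
  have e : LbP (1695 / 1000) (186 / 10) (805 / 1000) (682 / 100) (42 / 10) (573 / 1000) (3149 / 10000) (573 / 1000) u = u * (
      (605865868058354615914433452851 / 570623341222000000000000000) * ((u - 3 / 20) ^ 0 * (7 / 10 - u) ^ 11) +
      (24170423449461198471473026593 / 2357947691000000000000000) * ((u - 3 / 20) ^ 1 * (7 / 10 - u) ^ 10) +
      (111869218501078929210392271047 / 2593742460100000000000000) * ((u - 3 / 20) ^ 2 * (7 / 10 - u) ^ 9) +
      (69408849255565446262262003039 / 648435615025000000000000) * ((u - 3 / 20) ^ 3 * (7 / 10 - u) ^ 8) +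
      (14807247305822689814101114997 / 81054451878125000000000) * ((u - 3 / 20) ^ 4 * (7 / 10 - u) ^ 7) +
      (392003687822008075751157287483 / 1621089037562500000000000) * ((u - 3 / 20) ^ 5 * (7 / 10 - u) ^ 6) +
      (54084178830564167236935304221 / 202636129695312500000000) * ((u - 3 / 20) ^ 6 * (7 / 10 - u) ^ 5) +
      (19496916838084267962411266053 / 81054451878125000000000) * ((u - 3 / 20) ^ 7 * (7 / 10 - u) ^ 4) +
      (6554822168222724041288115507 / 40527225939062500000000) * ((u - 3 / 20) ^ 8 * (7 / 10 - u) ^ 3) +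
      (737530458436394025818589007 / 10131806484765625000000) * ((u - 3 / 20) ^ 9 * (7 / 10 - u) ^ 2) +
      (967996350935223883002839401 / 50659032423828125000000) * ((u - 3 / 20) ^ 10 * (7 / 10 - u) ^ 1) +
      (608512408291787491518930823 / 278624678331054687500000) * ((u - 3 / 20) ^ 11 * (7 / 10 - u) ^ 0)) := by
    unfold LbP alP beP gaP rb fL fH gL cL cH hL hH eP zP
    ring
  rw [e]
  have a : 0 ≤ u - 3 / 20 := by linarith
  have b : 0 ≤ 7 / 10 - u := by linarith
  have c : 0 ≤ u := by linarith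
  positivity

private theorem pos_cCm0 {u : ℝ} (h0 : 3 / 20 ≤ u) (h1 : u ≤ 7 / 10) :
    0 ≤ LbP (1695 / 1000) (186 / 10) (805 / 1000) (682 / 100) (42 / 10) (573 / 1000) (3149 / 10000) (-(573 / 1000)) u := by
  have e : LbP (1695 / 1000) (186 / 10) (805 / 1000) (682 / 100) (42 / 10) (573 / 1000) (3149 / 10000) (-(573 / 1000)) u = u * (
      (466394912556397457567408215149 / 570623341222000000000000000) * ((u - 3 / 20) ^ 0 * (7 / 10 - u) ^ 11) +
      (247111859181205220733603447477 / 25937424601000000000000000) * ((u - 3 / 20) ^ 1 * (7 / 10 - u) ^ 10) +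
      (11048351170673516787446340523 / 235794769100000000000000) * ((u - 3 / 20) ^ 2 * (7 / 10 - u) ^ 9) +
      (88928971734665226879042268361 / 648435615025000000000000) * ((u - 3 / 20) ^ 3 * (7 / 10 - u) ^ 8) +
      (22858102743916555797253558103 / 81054451878125000000000) * ((u - 3 / 20) ^ 4 * (7 / 10 - u) ^ 7) +
      (722479810520523916705270990517 / 1621089037562500000000000) * ((u - 3 / 20) ^ 5 * (7 / 10 - u) ^ 6) +
      (111702741371871980859402526779 / 202636129695312500000000) * ((u - 3 / 20) ^ 6 * (7 / 10 - u) ^ 5) +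
      (41680142736887002629888907147 / 81054451878125000000000) * ((u - 3 / 20) ^ 7 * (7 / 10 - u) ^ 4) +
      (13787171223250138051352391693 / 40527225939062500000000) * ((u - 3 / 20) ^ 8 * (7 / 10 - u) ^ 3) +
      (1497390261142880589776783593 / 10131806484765625000000) * ((u - 3 / 20) ^ 9 * (7 / 10 - u) ^ 2) +
      (1893236694690289462002344599 / 50659032423828125000000) * ((u - 3 / 20) ^ 10 * (7 / 10 - u) ^ 1) +
      (1152385130221085950767265177 / 278624678331054687500000) * ((u - 3 / 20) ^ 11 * (7 / 10 - u) ^ 0)) := by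
    unfold LbP alP beP gaP rb fL fH gL cL cH hL hH eP zP
    ring
  rw [e]
  have a : 0 ≤ u - 3 / 20 := by linarith
  have b : 0 ≤ 7 / 10 - u := by linarith
  have c : 0 ≤ u := by linarith
  positivity

theorem Uf_nonneg2 (d : Dat K L φ ψ χ ω) {c : Cell} (hc : IsCell c) {x s : ℝ}
    (hx : x = c.m1 ∨ x = -c.m1) (hs : 3 / 10 ≤ s) (hs1 : s ≤ 85 / 100) :
    0 ≤ Uf K L φ ψ χ ω c (√s * Gam K L φ ψ χ ω x s) (24 / 100) (54 / 100) x s := by
  obtain ⟨u, rfl⟩ : ∃ u, s = 1 - u := ⟨1 - s, by ring⟩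
  have h0 : 15 / 100 ≤ u := by linarith
  have h1 : u ≤ 7 / 10 := by linarith
  have h0b : 3 / 20 ≤ u := by linarith
  have h1b : u ≤ 7 / 10 := h1
  rcases hc with rfl | rfl | rfl
  · rcases hx with rfl | rfl
    · refine le_trans ?_ (Uf_ge d cA (by norm_num [cA]) (by norm_num [cA]) (by norm_num [cA])
        (by norm_num [cA]) (x := cA.m1) (by norm_num [cA]) (by norm_num [cA]) h0 h1)
      rcases le_total u (43 / 100) with h2 | h2
      · exact pos_cAp0 h0b h2
      · exact pos_cAp1 h2 h1b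
    · refine le_trans ?_ (Uf_ge d cA (by norm_num [cA]) (by norm_num [cA]) (by norm_num [cA])
        (by norm_num [cA]) (x := -cA.m1) (by norm_num [cA]) (by norm_num [cA]) h0 h1)
      exact pos_cAm0 h0b h1b
  · rcases hx with rfl | rfl
    · refine le_trans ?_ (Uf_ge d cB (by norm_num [cB]) (by norm_num [cB]) (by norm_num [cB])
        (by norm_num [cB]) (x := cB.m1) (by norm_num [cB]) (by norm_num [cB]) h0 h1)
      rcases le_total u (43 / 100) with h2 | h2
      · exact pos_cBp0 h0b h2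
      · exact pos_cBp1 h2 h1b
    · refine le_trans ?_ (Uf_ge d cB (by norm_num [cB]) (by norm_num [cB]) (by norm_num [cB])
        (by norm_num [cB]) (x := -cB.m1) (by norm_num [cB]) (by norm_num [cB]) h0 h1)
      exact pos_cBm0 h0b h1b
  · rcases hx with rfl | rfl
    · refine le_trans ?_ (Uf_ge d cC (by norm_num [cC]) (by norm_num [cC]) (by norm_num [cC])
        (by norm_num [cC]) (x := cC.m1) (by norm_num [cC]) (by norm_num [cC]) h0 h1)
      exact pos_cCp0 h0b h1b
    · refine le_trans ?_ (Uf_ge d cC (by norm_num [cC]) (by norm_num [cC]) (by norm_num [cC])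
        (by norm_num [cC]) (x := -cC.m1) (by norm_num [cC]) (by norm_num [cC]) h0 h1)
      exact pos_cCm0 h0b h1b
end Pool.Agent.FND
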