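import Pool.Agent.FND.Defs
import Pool.Agent.FND.SCd
import Pool.Agent.FND.Cst

/-!
FND-SC3: the decisive inequality, `7/10 ≤ u`.
-/

set_option autoImplicit false

open MeasureTheory Set
open Pool.Agent.Neu
open Pool.Agent.CS4 (Prof2 bb vv eV)

namespace Pool.Agent.FND

variable {K L : ℝ} {φ ψ χ ω : ℝ → ℝ}

private noncomputable def rb (u : ℝ) : ℝ := 1 - u / 2 - u ^ 2 / 8 - u ^ 3 / 16
private noncomputable def fL (u : ℝ) : ℝ := 1 + u / 2 + u ^ 2 * (761 / 10000 + 59 / 10000 * u)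
private noncomputable def fH (u : ℝ) : ℝ := 1 + u / 2 + u ^ 2 * (763 / 10000 + 59 / 10000 * u)
private noncomputable def gL (u : ℝ) : ℝ :=
  u * (11948 / 10000 + 3462 / 10000 * u + 408 / 10000 * u ^ 2)
private noncomputable def cL (u : ℝ) : ℝ :=
  1 + u + u ^ 2 * (3339 / 10000 + 563 / 10000 * u + 65 / 10000 * u ^ 2)
private noncomputable def cH (u : ℝ) : ℝ :=
  1 + u + u ^ 2 * (3341 / 10000 + 563 / 10000 * u + 65 / 10000 * u ^ 2)
private noncomputable def hL (u : ℝ) : ℝ :=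
  u * (26639 / 10000 + 16655 / 10000 * u + 3996 / 10000 * u ^ 2 + 644 / 10000 * u ^ 3)
private noncomputable def hH (u : ℝ) : ℝ :=
  u * (26643 / 10000 + 16655 / 10000 * u + 3996 / 10000 * u ^ 2 + 644 / 10000 * u ^ 3)
private noncomputable def eP (u : ℝ) : ℝ := u ^ 3 * (2 - u)
private noncomputable def zP (u : ℝ) : ℝ := -(u ^ 2 * (12 - 22 * u + 9 * u ^ 2))

private noncomputable def alP (M u : ℝ) : ℝ :=
  M * (98445 / 10000 * (u - (1 - (1 - u) * fL u ^ 2) / 2)
      + 9029 / 10000 * (fL u ^ 2 - 1 + (1 - (1 - u) * fH u ^ 2) / 2)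
      + 105 / 100 * (1 - (1 - u) * fH u ^ 2))
    + 4 * ((1 - u) * cL u ^ 2 - 1) + 2 * (1 - (1 - u) * fH u ^ 2)
    + 93283 / 20000 * (1 - ((1 - u) * cH u) ^ 2)

private noncomputable def beP (M u : ℝ) : ℝ :=
  M * ((98445 / 20000 - 9031 / 20000 + 105 / 100) * (1 - (1 - u) * fH u ^ 2)
      + 9029 / 10000 * gL u ^ 2)
    + (1 - u) * hL u ^ 2 - 2 * (1 - (1 - u) * fL u ^ 2)
    + 93283 / 20000 * (1 - ((1 - u) * cH u) ^ 2)

private noncomputable def gaP (x u : ℝ) : ℝ :=
  (1 - x) * (-(hH u * zP u) + 4 / 10000 * u - 3231 / 10000 * (hL u * gL u))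
    + 93284 / 10000 * ((1 - u) * cH u * eP u)
    + 2 * (1 + x) * (cH u * (eP u + 3232 / 10000 * fH u * u))

private noncomputable def LbQ (M si P1 je jd m1 z1 x u G : ℝ) : ℝ :=
  (1 / 2 + x / 2) * (alP M u - si * (rb u * ((1 - u) * fH u * cH u) * u))
    + (1 / 2 - x / 2) * beP M u - P1 ^ 2 * (7 / 2 * u ^ 5)
    - je * (33 / 100 * u ^ 2) - jd * (74 / 100 * u ^ 2 + P1 * ((1 - u) * eP u * fH u))
    - 24 / 100 * (7 / 100 * u ^ 2 + P1 * (rb u * eP u))
    - P1 * (G + m1 * (33 / 10) * u + 5 * z1 * (74 / 100 * u ^ 2))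

private theorem rb0 {u : ℝ} (h0 : 0 ≤ u) (h1 : u ≤ 1) : 0 ≤ rb u := by
  unfold rb
  have a1 : u ^ 2 ≤ 1 := pow_le_one₀ h0 h1
  have a2 : u ^ 3 ≤ 1 := pow_le_one₀ h0 h1
  linarith

private theorem rb_ge {u : ℝ} (h0 : 0 ≤ u) (h1 : u ≤ 1) : √(1 - u) ≤ rb u := by
  rw [Real.sqrt_le_left (rb0 h0 h1)]
  unfold rb
  have h3 : (1 - u / 2 - u ^ 2 / 8 - u ^ 3 / 16) ^ 2 - (1 - u) =
      u ^ 4 * (5 / 64 + u / 64 + u ^ 2 / 256) := by ring
  have h4 : 0 ≤ u ^ 4 * (5 / 64 + u / 64 + u ^ 2 / 256) := by positivity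
  linarith

private theorem al_ge (d : Dat K L φ ψ χ ω) {M u : ℝ} (hM : 0 ≤ M) (h0 : 7 / 10 ≤ u)
    (h1 : u ≤ 1) : alP M u ≤ al K L φ χ M (1 - u) := by
  have hmem : (1 - u) ∈ Icc (0 : ℝ) 1 := ⟨by linarith, by linarith⟩
  have e1 : 1 - (1 - u) = u := by ring
  have hu : 0 ≤ u := by linarith
  have hs : 0 ≤ 1 - u := by linarith
  have hf := abs_le.mp (d.enc.phi _ hmem)
  have hc := abs_le.mp (d.enc.chi _ hmem)
  rw [e1] at hf hc
  have hg2 := g2_bd d.prof hmem
  have hf1 := d.prof.one_le _ hmem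
  have hc1 := d.prof2.one_le _ hmem
  have hc2 := d.prof2.le _ hmem
  rw [e1] at hc2
  set f := φ (1 - u) with hfd
  set c := χ (1 - u) with hcd
  have f1 : fL u ≤ f := by unfold fL; linarith [hf.1]
  have f2 : f ≤ fH u := by unfold fH; linarith [hf.2]
  have c1 : cL u ≤ c := by unfold cL; linarith [hc.1]
  have c2 : c ≤ cH u := by unfold cH; linarith [hc.2]
  have f0 : 0 ≤ fL u := by unfold fL; positivity
  have c0 : 0 ≤ cL u := by unfold cL; positivity
  have q1 : fL u ^ 2 ≤ f ^ 2 := pow_le_pow_left₀ f0 f1 2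
  have q2 : f ^ 2 ≤ fH u ^ 2 := pow_le_pow_left₀ (by linarith) f2 2
  have q3 : cL u ^ 2 ≤ c ^ 2 := pow_le_pow_left₀ c0 c1 2
  have q4 : (1 - u) * fL u ^ 2 ≤ (1 - u) * f ^ 2 := mul_le_mul_of_nonneg_left q1 hs
  have q5 : (1 - u) * f ^ 2 ≤ (1 - u) * fH u ^ 2 := mul_le_mul_of_nonneg_left q2 hs
  have q6 : (1 - u) * cL u ^ 2 ≤ (1 - u) * c ^ 2 := mul_le_mul_of_nonneg_left q3 hs
  have q7 : ((1 - u) * c) ^ 2 ≤ ((1 - u) * cH u) ^ 2 :=
    pow_le_pow_left₀ (mul_nonneg hs (by linarith)) (mul_le_mul_of_nonneg_left c2 hs) 2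
  have q8 : ((1 - u) * c) ^ 2 ≤ 1 := by
    have : (1 - u) * c ≤ 1 := by nlinarith [sq_nonneg u]
    exact pow_le_one₀ (mul_nonneg hs (by linarith)) this
  have hT := (T0_bd d).1
  have hm := mw_bd d
  have hq : 9029 / 10000 ≤ 2 / mw K := by
    rw [le_div_iff₀ (by linarith)]; linarith
  have hLl := d.enc.L_lo
  have t1 : 98445 / 10000 * (u - (1 - (1 - u) * fL u ^ 2) / 2) ≤
      96 / 100 * T0 K L * (u - (1 - (1 - u) * f ^ 2) / 2) := by
    have a1 : 98445 / 10000 * (u - (1 - (1 - u) * fL u ^ 2) / 2) ≤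
      98445 / 10000 * (u - (1 - (1 - u) * f ^ 2) / 2) := by linarith
    have a2 : 0 ≤ u - (1 - (1 - u) * f ^ 2) / 2 := by linarith [hg2.1]
    have a3 := mul_le_mul_of_nonneg_right (show 98445 / 10000 ≤ 96 / 100 * T0 K L by linarith) a2
    linarith
  have t2 : 9029 / 10000 * (fL u ^ 2 - 1 + (1 - (1 - u) * fH u ^ 2) / 2) ≤
      2 / mw K * (f ^ 2 - 1 + (1 - (1 - u) * f ^ 2) / 2) := by
    have a1 : 9029 / 10000 * (fL u ^ 2 - 1 + (1 - (1 - u) * fH u ^ 2) / 2) ≤
      9029 / 10000 * (f ^ 2 - 1 + (1 - (1 - u) * f ^ 2) / 2) := by linarith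
    have a2 : 0 ≤ f ^ 2 - 1 + (1 - (1 - u) * f ^ 2) / 2 := by
      have : 1 ≤ f ^ 2 := one_le_pow₀ hf1
      linarith [hg2.2]
    have a3 := mul_le_mul_of_nonneg_right hq a2
    linarith
  have t3 : 93283 / 20000 * (1 - ((1 - u) * cH u) ^ 2) ≤ L / 2 * (1 - ((1 - u) * c) ^ 2) := by
    have a2 : 0 ≤ 1 - ((1 - u) * c) ^ 2 := by linarith
    have a3 := mul_le_mul_of_nonneg_right (show 93283 / 20000 ≤ L / 2 by linarith) a2
    linarith
  unfold alP al
  rw [e1, ← hfd, ← hcd]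
  have t4 := mul_le_mul_of_nonneg_left (show
    98445 / 10000 * (u - (1 - (1 - u) * fL u ^ 2) / 2)
      + 9029 / 10000 * (fL u ^ 2 - 1 + (1 - (1 - u) * fH u ^ 2) / 2)
      + 105 / 100 * (1 - (1 - u) * fH u ^ 2) ≤
    96 / 100 * T0 K L * (u - (1 - (1 - u) * f ^ 2) / 2)
      + 2 / mw K * (f ^ 2 - 1 + (1 - (1 - u) * f ^ 2) / 2) + 105 / 100 * (1 - (1 - u) * f ^ 2)
    by linarith) hM
  linarith

private theorem be_ge (d : Dat K L φ ψ χ ω) {M u : ℝ} (hM : 0 ≤ M) (h0 : 7 / 10 ≤ u)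
    (h1 : u ≤ 1) : beP M u ≤ be K L φ ψ χ ω M (1 - u) := by
  have hmem : (1 - u) ∈ Icc (0 : ℝ) 1 := ⟨by linarith, by linarith⟩
  have e1 : 1 - (1 - u) = u := by ring
  have hu : 0 ≤ u := by linarith
  have hs : 0 ≤ 1 - u := by linarith
  have hf := abs_le.mp (d.enc.phi _ hmem)
  have hc := abs_le.mp (d.enc.chi _ hmem)
  have hg := abs_le.mp (d.enc.gd _ hmem)
  have hh := abs_le.mp (d.enc.hd _ hmem)
  rw [e1] at hf hc hg hh
  have hg2 := g2_bd d.prof hmem
  have hf1 := d.prof.one_le _ hmem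
  have hc1 := d.prof2.one_le _ hmem
  have hc2 := d.prof2.le _ hmem
  rw [e1] at hc2
  have g1 : gL u ≤ gdf φ ψ (1 - u) := by unfold gL gdf; linarith [hg.1]
  have k1 : hL u ≤ hdf χ ω (1 - u) := by unfold hL hdf; linarith [hh.1]
  have g0 : 0 ≤ gL u := by unfold gL; positivity
  have k0 : 0 ≤ hL u := by unfold hL; positivity
  set f := φ (1 - u) with hfd
  set c := χ (1 - u) with hcd
  set g := gdf φ ψ (1 - u) with hgd
  set k := hdf χ ω (1 - u) with hkd
  have f1 : fL u ≤ f := by unfold fL; linarith [hf.1]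
  have f2 : f ≤ fH u := by unfold fH; linarith [hf.2]
  have c2 : c ≤ cH u := by unfold cH; linarith [hc.2]
  have f0 : 0 ≤ fL u := by unfold fL; positivity
  have q1 : fL u ^ 2 ≤ f ^ 2 := pow_le_pow_left₀ f0 f1 2
  have q2 : f ^ 2 ≤ fH u ^ 2 := pow_le_pow_left₀ (by linarith) f2 2
  have q3 : gL u ^ 2 ≤ g ^ 2 := pow_le_pow_left₀ g0 g1 2
  have q9 : hL u ^ 2 ≤ k ^ 2 := pow_le_pow_left₀ k0 k1 2
  have q4 : (1 - u) * fL u ^ 2 ≤ (1 - u) * f ^ 2 := mul_le_mul_of_nonneg_left q1 hs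
  have q5 : (1 - u) * f ^ 2 ≤ (1 - u) * fH u ^ 2 := mul_le_mul_of_nonneg_left q2 hs
  have q6 : (1 - u) * hL u ^ 2 ≤ (1 - u) * k ^ 2 := mul_le_mul_of_nonneg_left q9 hs
  have q7 : ((1 - u) * c) ^ 2 ≤ ((1 - u) * cH u) ^ 2 :=
    pow_le_pow_left₀ (mul_nonneg hs (by linarith)) (mul_le_mul_of_nonneg_left c2 hs) 2
  have q8 : ((1 - u) * c) ^ 2 ≤ 1 := by
    have : (1 - u) * c ≤ 1 := by nlinarith [sq_nonneg u]
    exact pow_le_one₀ (mul_nonneg hs (by linarith)) this
  have hT := (T0_bd d).1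
  have hm := mw_bd d
  have hq : 9029 / 10000 ≤ 2 / mw K := by
    rw [le_div_iff₀ (by linarith)]; linarith
  have hq' : 2 / mw K ≤ 9031 / 10000 := by
    rw [div_le_iff₀ (by linarith)]; linarith
  have hLl := d.enc.L_lo
  have x0 : 0 ≤ 1 - (1 - u) * f ^ 2 := by linarith [hg2.2]
  have t1 : 98445 / 20000 * (1 - (1 - u) * f ^ 2) ≤
      96 / 100 * T0 K L * ((1 - (1 - u) * f ^ 2) / 2) := by
    have a3 := mul_le_mul_of_nonneg_right (show 98445 / 10000 ≤ 96 / 100 * T0 K L by linarith) x0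
    linarith
  have t2 : 9029 / 10000 * gL u ^ 2 - 9031 / 20000 * (1 - (1 - u) * f ^ 2) ≤
      2 / mw K * (g ^ 2 - (1 - (1 - u) * f ^ 2) / 2) := by
    have a1 : 9029 / 10000 * gL u ^ 2 ≤ 9029 / 10000 * g ^ 2 := by linarith
    have a3 := mul_le_mul_of_nonneg_right hq (sq_nonneg g)
    have a4 := mul_le_mul_of_nonneg_right hq' x0
    linarith
  have t3 : 93283 / 20000 * (1 - ((1 - u) * cH u) ^ 2) ≤ L / 2 * (1 - ((1 - u) * c) ^ 2) := by
    have a2 : 0 ≤ 1 - ((1 - u) * c) ^ 2 := by linarith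
    have a3 := mul_le_mul_of_nonneg_right (show 93283 / 20000 ≤ L / 2 by linarith) a2
    linarith
  unfold beP be
  rw [← hfd, ← hcd, ← hgd, ← hkd]
  have t4 := mul_le_mul_of_nonneg_left (show
    (98445 / 20000 - 9031 / 20000 + 105 / 100) * (1 - (1 - u) * fH u ^ 2)
      + 9029 / 10000 * gL u ^ 2 ≤
    96 / 100 * T0 K L * ((1 - (1 - u) * f ^ 2) / 2)
      + 2 / mw K * (g ^ 2 - (1 - (1 - u) * f ^ 2) / 2) + 105 / 100 * (1 - (1 - u) * f ^ 2)
    by linarith) hM
  linarith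

private theorem ga_ge (d : Dat K L φ ψ χ ω) {x u : ℝ} (hx0 : -1 ≤ x) (hx1 : x ≤ 1)
    (h0 : 7 / 10 ≤ u) (h1 : u ≤ 1) : Gam K L φ ψ χ ω x (1 - u) ≤ gaP x u := by
  have hmem : (1 - u) ∈ Icc (0 : ℝ) 1 := ⟨by linarith, by linarith⟩
  have e1 : 1 - (1 - u) = u := by ring
  have hu : 0 ≤ u := by linarith
  have hs : 0 ≤ 1 - u := by linarith
  have hf := abs_le.mp (d.enc.phi _ hmem)
  have hc := abs_le.mp (d.enc.chi _ hmem)
  have hg := abs_le.mp (d.enc.gd _ hmem)
  have hh := abs_le.mp (d.enc.hd _ hmem)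
  rw [e1] at hf hc hg hh
  have hf1 := d.prof.one_le _ hmem
  have hc1 := d.prof2.one_le _ hmem
  have g1 : gL u ≤ gdf φ ψ (1 - u) := by unfold gL gdf; linarith [hg.1]
  have k1 : hL u ≤ hdf χ ω (1 - u) := by unfold hL hdf; linarith [hh.1]
  have k2 : hdf χ ω (1 - u) ≤ hH u := by unfold hH hdf; linarith [hh.2]
  have g0 : 0 ≤ gL u := by unfold gL; positivity
  have k0 : 0 ≤ hL u := by unfold hL; positivity
  have he : et (1 - u) = eP u := by
    unfold et eP
    rw [if_pos (by linarith)]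
    ring
  have hz : zpf K φ ψ (1 - u) = zP u + a0 K φ * gdf φ ψ (1 - u) := by
    unfold zpf zt ztd gdf zP
    rw [he]
    unfold etd eP
    rw [if_pos (by linarith)]
    ring
  have he0 : 0 ≤ eP u := by
    unfold eP
    have : 0 ≤ 2 - u := by linarith
    positivity
  have z2 : zP u ≤ 1 := by
    have e : 1 - zP u = (1 - u) * (1 + u + u ^ 2 * (13 - 9 * u)) := by
      unfold zP; ring
    have e2 : 0 ≤ (1 - u) * (1 + u + u ^ 2 * (13 - 9 * u)) := by
      have : 0 ≤ 13 - 9 * u := by linarith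
      positivity
    linarith
  have hHL : hH u - hL u = 4 / 10000 * u := by unfold hH hL; ring
  unfold Gam gaP
  rw [he, hz]
  have ha := a0_bd d
  have hLh := d.enc.L_hi
  have hL0 := d.enc.L_lo
  rw [e1]
  set f := φ (1 - u) with hfd
  set c := χ (1 - u) with hcd
  set g := gdf φ ψ (1 - u) with hgd
  set k := hdf χ ω (1 - u) with hkd
  have f2 : f ≤ fH u := by unfold fH; linarith [hf.2]
  have c2 : c ≤ cH u := by unfold cH; linarith [hc.2]
  have s1 : -(k * (zP u + a0 K φ * g)) ≤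
      -(hH u * zP u) + 4 / 10000 * u - 3231 / 10000 * (hL u * gL u) := by
    have a1 := mul_le_mul_of_nonneg_left z2 (sub_nonneg.mpr k2)
    have a2 : hL u * gL u ≤ k * g := mul_le_mul k1 g1 g0 (by linarith)
    have a3 : 0 ≤ hL u * gL u := mul_nonneg k0 g0
    have a4 : 3231 / 10000 * (hL u * gL u) ≤ a0 K φ * (k * g) :=
      mul_le_mul (by linarith) a2 a3 (by linarith)
    linarith
  have s2 : (1 - x) * -(k * (zP u + a0 K φ * g)) ≤
      (1 - x) * (-(hH u * zP u) + 4 / 10000 * u - 3231 / 10000 * (hL u * gL u)) :=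
    mul_le_mul_of_nonneg_left s1 (by linarith)
  have s3 : L * ((1 - u) * c * eP u) ≤ 93284 / 10000 * ((1 - u) * cH u * eP u) := by
    refine mul_le_mul (by linarith) ?_ (mul_nonneg (mul_nonneg hs (by linarith)) he0) (by norm_num)
    exact mul_le_mul_of_nonneg_right (mul_le_mul_of_nonneg_left c2 hs) he0
  have s4 : c * (eP u + a0 K φ * f * u) ≤ cH u * (eP u + 3232 / 10000 * fH u * u) := by
    have b1 : a0 K φ * f ≤ 3232 / 10000 * fH u :=
      mul_le_mul (by linarith) f2 (by linarith) (by norm_num)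
    have b2 : a0 K φ * f * u ≤ 3232 / 10000 * fH u * u := mul_le_mul_of_nonneg_right b1 hu
    have b3 : 0 ≤ a0 K φ * f * u := mul_nonneg (mul_nonneg (by linarith) (by linarith)) hu
    exact mul_le_mul c2 (by linarith) (by linarith) (by linarith)
  have s5 : 2 * (1 + x) * (c * (eP u + a0 K φ * f * u)) ≤
      2 * (1 + x) * (cH u * (eP u + 3232 / 10000 * fH u * u)) :=
    mul_le_mul_of_nonneg_left s4 (by linarith)
  linarith

private theorem Uf_ge (d : Dat K L φ ψ χ ω) (c : Cell) (hM : 0 ≤ c.M) (hsi : 0 ≤ c.si)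
    (hP : 0 ≤ c.P1) (hjd : 0 ≤ c.jd) {x u G G' : ℝ} (hx0 : -1 ≤ x)
    (hx1 : x ≤ 1) (h0 : 7 / 10 ≤ u) (h1 : u ≤ 1) (w4 : G' ≤ G) :
    LbQ c.M c.si c.P1 c.je c.jd c.m1 c.z1 x u G ≤
      Uf K L φ ψ χ ω c G' (33 / 100) (33 / 10) x (1 - u) := by
  have hmem : (1 - u) ∈ Icc (0 : ℝ) 1 := ⟨by linarith, by linarith⟩
  have e1 : 1 - (1 - u) = u := by ring
  have hu : 0 ≤ u := by linarith
  have hs : 0 ≤ 1 - u := by linarith
  have hf := abs_le.mp (d.enc.phi _ hmem)
  have hc := abs_le.mp (d.enc.chi _ hmem)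
  rw [e1] at hf hc
  have hf1 := d.prof.one_le _ hmem
  have hc1 := d.prof2.one_le _ hmem
  have he : et (1 - u) = eP u := by
    unfold et eP
    rw [if_pos (by linarith)]
    ring
  have he0 : 0 ≤ eP u := by
    unfold eP
    have : 0 ≤ 2 - u := by linarith
    positivity
  have hal := al_ge d hM h0 h1
  have hbe := be_ge d hM h0 h1
  have hr := rb_ge hu h1
  have hr0 : 0 ≤ √(1 - u) := Real.sqrt_nonneg _
  have f2 : φ (1 - u) ≤ fH u := by unfold fH; linarith [hf.2]
  have c2 : χ (1 - u) ≤ cH u := by unfold cH; linarith [hc.2]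
  have w1 : √(1 - u) * ((1 - u) * φ (1 - u) * χ (1 - u)) * u ≤
      rb u * ((1 - u) * fH u * cH u) * u := by
    refine mul_le_mul_of_nonneg_right ?_ hu
    have b1 : (1 - u) * φ (1 - u) ≤ (1 - u) * fH u := mul_le_mul_of_nonneg_left f2 hs
    have b0 : 0 ≤ (1 - u) * φ (1 - u) := mul_nonneg hs (by linarith)
    have b2 : (1 - u) * φ (1 - u) * χ (1 - u) ≤ (1 - u) * fH u * cH u :=
      mul_le_mul b1 c2 (by linarith) (by linarith)
    exact mul_le_mul hr b2 (mul_nonneg b0 (by linarith)) (by linarith)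
  have w2 : (1 - u) * eP u * φ (1 - u) ≤ (1 - u) * eP u * fH u :=
    mul_le_mul_of_nonneg_left f2 (mul_nonneg hs he0)
  have w3 : √(1 - u) * eP u ≤ rb u * eP u := mul_le_mul_of_nonneg_right hr he0
  unfold LbQ Uf
  rw [e1, he]
  have v1 := mul_le_mul_of_nonneg_left w1 hsi
  have v2 := mul_le_mul_of_nonneg_left (show alP c.M u -
    c.si * (rb u * ((1 - u) * fH u * cH u) * u) ≤ al K L φ χ c.M (1 - u) -
    c.si * (√(1 - u) * ((1 - u) * φ (1 - u) * χ (1 - u)) * u) by linarith)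
    (show 0 ≤ 1 / 2 + x / 2 by linarith)
  have v3 := mul_le_mul_of_nonneg_left hbe (show 0 ≤ 1 / 2 - x / 2 by linarith)
  have v4 := mul_le_mul_of_nonneg_left w2 hP
  have v5 := mul_le_mul_of_nonneg_left w3 hP
  have v6 := mul_le_mul_of_nonneg_left v4 hjd
  have v7 := mul_le_mul_of_nonneg_left w4 hP
  linarith

private theorem Gam_le (d : Dat K L φ ψ χ ω) {x u : ℝ} (hx0 : -1 ≤ x) (hx1 : x ≤ 1)
    (h0 : 7 / 10 ≤ u) (h1 : u ≤ 1) :
    √(1 - u) * Gam K L φ ψ χ ω x (1 - u) ≤ rb u * gaP x u ∨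
      √(1 - u) * Gam K L φ ψ χ ω x (1 - u) ≤ 2 * u := by
  have hga := ga_ge d hx0 hx1 h0 h1
  have hr := rb_ge (by linarith : (0 : ℝ) ≤ u) h1
  have hr0 : 0 ≤ √(1 - u) := Real.sqrt_nonneg _
  have b1 := mul_le_mul_of_nonneg_left hga hr0
  rcases le_total 0 (gaP x u) with h | h
  · left
    have b2 := mul_le_mul_of_nonneg_right hr h
    linarith
  · right
    have b2 := mul_nonneg hr0 (neg_nonneg.mpr h)
    linarith

private theorem pos_cAp0 {u : ℝ} (h0 : 7 / 10 ≤ u) (h1 : u ≤ 1) :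
    0 ≤ LbQ (162 / 100) (17) (1075 / 1000) (923 / 100) (371 / 100) (1 / 4) (127 / 1000) (1 / 4) u
      (rb u * gaP (1 / 4) u) := by
  have e : LbQ (162 / 100) (17) (1075 / 1000) (923 / 100) (371 / 100) (1 / 4) (127 / 1000) (1 / 4) u
      (rb u * gaP (1 / 4) u) = u * (
      (103716075258076108938559 / 283435200000000000) * ((u - 7 / 10) ^ 0 * (1 - u) ^ 11) +
      (215887296754689480733801 / 35429400000000000) * ((u - 7 / 10) ^ 1 * (1 - u) ^ 10) +
      (11734097325844147178044579 / 283435200000000000) * ((u - 7 / 10) ^ 2 * (1 - u) ^ 9) +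
      (2980813281550234530668447 / 18895680000000000) * ((u - 7 / 10) ^ 3 * (1 - u) ^ 8) +
      (1442212590540442363736861 / 3779136000000000) * ((u - 7 / 10) ^ 4 * (1 - u) ^ 7) +
      (2348052614681707298727883 / 3779136000000000) * ((u - 7 / 10) ^ 5 * (1 - u) ^ 6) +
      (263786950521040337875333 / 377913600000000) * ((u - 7 / 10) ^ 6 * (1 - u) ^ 5) +
      (5120947000996323148427 / 9447840000000) * ((u - 7 / 10) ^ 7 * (1 - u) ^ 4) +
      (134566778025684360647 / 472392000000) * ((u - 7 / 10) ^ 8 * (1 - u) ^ 3) +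
      (108993573046344664477 / 1133740800000) * ((u - 7 / 10) ^ 9 * (1 - u) ^ 2) +
      (2108821266624873611 / 113374080000) * ((u - 7 / 10) ^ 10 * (1 - u) ^ 1) +
      (8720871512819549 / 5668704000) * ((u - 7 / 10) ^ 11 * (1 - u) ^ 0)) := by
    unfold LbQ alP beP gaP rb fL fH gL cL cH hL hH eP zP
    ring
  rw [e]
  have a : 0 ≤ u - 7 / 10 := by linarith
  have b : 0 ≤ 1 - u := by linarith
  have c : 0 ≤ u := by linarith
  positivity

private theorem pos_cAp1 {u : ℝ} (h0 : 7 / 10 ≤ u) (h1 : u ≤ 1) :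
    0 ≤ LbQ (162 / 100) (17) (1075 / 1000) (923 / 100) (371 / 100) (1 / 4) (127 / 1000) (1 / 4) u
      (2 * u) := by
  have e : LbQ (162 / 100) (17) (1075 / 1000) (923 / 100) (371 / 100) (1 / 4) (127 / 1000) (1 / 4) u
      (2 * u) = u * (
      (942002509621600791167 / 419904000000000) * ((u - 7 / 10) ^ 0 * (1 - u) ^ 11) +
      (4683455655956430823 / 184528125000) * ((u - 7 / 10) ^ 1 * (1 - u) ^ 10) +
      (24447650471341771357963 / 188956800000000) * ((u - 7 / 10) ^ 2 * (1 - u) ^ 9) +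
      (4112612518755259825139 / 10497600000000) * ((u - 7 / 10) ^ 3 * (1 - u) ^ 8) +
      (1230695049557758630789 / 1574640000000) * ((u - 7 / 10) ^ 4 * (1 - u) ^ 7) +
      (84724084815823075897031 / 78732000000000) * ((u - 7 / 10) ^ 5 * (1 - u) ^ 6) +
      (170571591219252546097 / 164025000000) * ((u - 7 / 10) ^ 6 * (1 - u) ^ 5) +
      (138139328415458030159 / 196830000000) * ((u - 7 / 10) ^ 7 * (1 - u) ^ 4) +
      (12661932592437077701 / 39366000000) * ((u - 7 / 10) ^ 8 * (1 - u) ^ 3) +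
      (246918513847585861 / 2624400000) * ((u - 7 / 10) ^ 9 * (1 - u) ^ 2) +
      (18206837670750841 / 1180980000) * ((u - 7 / 10) ^ 10 * (1 - u) ^ 1) +
      (59757918768569 / 59049000) * ((u - 7 / 10) ^ 11 * (1 - u) ^ 0)) := by
    unfold LbQ alP beP rb fL fH gL cL cH hL eP
    ring
  rw [e]
  have a : 0 ≤ u - 7 / 10 := by linarith
  have b : 0 ≤ 1 - u := by linarith
  have c : 0 ≤ u := by linarith
  positivity

private theorem pos_cAm0 {u : ℝ} (h0 : 7 / 10 ≤ u) (h1 : u ≤ 1) :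
    0 ≤ LbQ (162 / 100) (17) (1075 / 1000) (923 / 100) (371 / 100) (1 / 4) (127 / 1000) (-(1 / 4)) u
      (rb u * gaP (-(1 / 4)) u) := by
  have e : LbQ (162 / 100) (17) (1075 / 1000) (923 / 100) (371 / 100) (1 / 4) (127 / 1000) (-(1 / 4)) u
      (rb u * gaP (-(1 / 4)) u) = u * (
      (319944969783620663369633 / 283435200000000000) * ((u - 7 / 10) ^ 0 * (1 - u) ^ 11) +
      (545593204252559443873769 / 35429400000000000) * ((u - 7 / 10) ^ 1 * (1 - u) ^ 10) +
      (26224704282243656589101669 / 283435200000000000) * ((u - 7 / 10) ^ 2 * (1 - u) ^ 9) +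
      (1227119697111549628102901 / 3779136000000000) * ((u - 7 / 10) ^ 3 * (1 - u) ^ 8) +
      (2802915029402009317485787 / 3779136000000000) * ((u - 7 / 10) ^ 4 * (1 - u) ^ 7) +
      (4382269055027963140480253 / 3779136000000000) * ((u - 7 / 10) ^ 5 * (1 - u) ^ 6) +
      (478833921177300073438259 / 377913600000000) * ((u - 7 / 10) ^ 6 * (1 - u) ^ 5) +
      (9138227259972372186493 / 9447840000000) * ((u - 7 / 10) ^ 7 * (1 - u) ^ 4) +
      (238484476191571420609 / 472392000000) * ((u - 7 / 10) ^ 8 * (1 - u) ^ 3) +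
      (7760873143902957203 / 45349632000) * ((u - 7 / 10) ^ 9 * (1 - u) ^ 2) +
      (3826859906271328573 / 113374080000) * ((u - 7 / 10) ^ 10 * (1 - u) ^ 1) +
      (3301503315503903 / 1133740800) * ((u - 7 / 10) ^ 11 * (1 - u) ^ 0)) := by
    unfold LbQ alP beP gaP rb fL fH gL cL cH hL hH eP zP
    ring
  rw [e]
  have a : 0 ≤ u - 7 / 10 := by linarith
  have b : 0 ≤ 1 - u := by linarith
  have c : 0 ≤ u := by linarith
  positivity

private theorem pos_cAm1 {u : ℝ} (h0 : 7 / 10 ≤ u) (h1 : u ≤ 1) :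
    0 ≤ LbQ (162 / 100) (17) (1075 / 1000) (923 / 100) (371 / 100) (1 / 4) (127 / 1000) (-(1 / 4)) u
      (2 * u) := by
  have e : LbQ (162 / 100) (17) (1075 / 1000) (923 / 100) (371 / 100) (1 / 4) (127 / 1000) (-(1 / 4)) u
      (2 * u) = u * (
      (9133902249966801252353 / 3779136000000000) * ((u - 7 / 10) ^ 0 * (1 - u) ^ 11) +
      (16064631670451835211 / 590490000000) * ((u - 7 / 10) ^ 1 * (1 - u) ^ 10) +
      (26061274791789593337973 / 188956800000000) * ((u - 7 / 10) ^ 2 * (1 - u) ^ 9) +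
      (13075358021475218149847 / 31492800000000) * ((u - 7 / 10) ^ 3 * (1 - u) ^ 8) +
      (1296293922897438815723 / 1574640000000) * ((u - 7 / 10) ^ 4 * (1 - u) ^ 7) +
      (88675236818666195037281 / 78732000000000) * ((u - 7 / 10) ^ 5 * (1 - u) ^ 6) +
      (266042857659071537239 / 246037500000) * ((u - 7 / 10) ^ 6 * (1 - u) ^ 5) +
      (142673859305274669181 / 196830000000) * ((u - 7 / 10) ^ 7 * (1 - u) ^ 4) +
      (12986612252147556787 / 39366000000) * ((u - 7 / 10) ^ 8 * (1 - u) ^ 3) +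
      (90501869490337283 / 944784000) * ((u - 7 / 10) ^ 9 * (1 - u) ^ 2) +
      (18387372837196463 / 1180980000) * ((u - 7 / 10) ^ 10 * (1 - u) ^ 1) +
      (11949771192403 / 11809800) * ((u - 7 / 10) ^ 11 * (1 - u) ^ 0)) := by
    unfold LbQ alP beP rb fL fH gL cL cH hL eP
    ring
  rw [e]
  have a : 0 ≤ u - 7 / 10 := by linarith
  have b : 0 ≤ 1 - u := by linarith
  have c : 0 ≤ u := by linarith
  positivity

private theorem pos_cBp0 {u : ℝ} (h0 : 7 / 10 ≤ u) (h1 : u ≤ 1) :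
    0 ≤ LbQ (1649 / 1000) (177 / 10) (984 / 1000) (841 / 100) (407 / 100) (4 / 10) (2087 / 10000) (4 / 10) u
      (rb u * gaP (4 / 10) u) := by
  have e : LbQ (1649 / 1000) (177 / 10) (984 / 1000) (841 / 100) (407 / 100) (4 / 10) (2087 / 10000) (4 / 10) u
      (rb u * gaP (4 / 10) u) = u * (
      (3110515199963355525163771 / 17714700000000000000) * ((u - 7 / 10) ^ 0 * (1 - u) ^ 11) +
      (8579473270247452917177307 / 2214337500000000000) * ((u - 7 / 10) ^ 1 * (1 - u) ^ 10) +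
      (26262198575743471617292697 / 885735000000000000) * ((u - 7 / 10) ^ 2 * (1 - u) ^ 9) +
      (17798890485406203671149639 / 147622500000000000) * ((u - 7 / 10) ^ 3 * (1 - u) ^ 8) +
      (8967739190315218328616763 / 29524500000000000) * ((u - 7 / 10) ^ 4 * (1 - u) ^ 7) +
      (3001260188496536880260377 / 5904900000000000) * ((u - 7 / 10) ^ 5 * (1 - u) ^ 6) +
      (171937392769467747297731 / 295245000000000) * ((u - 7 / 10) ^ 6 * (1 - u) ^ 5) +
      (423441312711235286687 / 922640625000) * ((u - 7 / 10) ^ 7 * (1 - u) ^ 4) +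
      (36017148275297928883 / 147622500000) * ((u - 7 / 10) ^ 8 * (1 - u) ^ 3) +
      (147195417535185723313 / 1771470000000) * ((u - 7 / 10) ^ 9 * (1 - u) ^ 2) +
      (717175179738567533 / 44286750000) * ((u - 7 / 10) ^ 10 * (1 - u) ^ 1) +
      (1491177672551887 / 1107168750) * ((u - 7 / 10) ^ 11 * (1 - u) ^ 0)) := by
    unfold LbQ alP beP gaP rb fL fH gL cL cH hL hH eP zP
    ring
  rw [e]
  have a : 0 ≤ u - 7 / 10 := by linarith
  have b : 0 ≤ 1 - u := by linarith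
  have c : 0 ≤ u := by linarith
  positivity

private theorem pos_cBp1 {u : ℝ} (h0 : 7 / 10 ≤ u) (h1 : u ≤ 1) :
    0 ≤ LbQ (1649 / 1000) (177 / 10) (984 / 1000) (841 / 100) (407 / 100) (4 / 10) (2087 / 10000) (4 / 10) u
      (2 * u) := by
  have e : LbQ (1649 / 1000) (177 / 10) (984 / 1000) (841 / 100) (407 / 100) (4 / 10) (2087 / 10000) (4 / 10) u
      (2 * u) = u * (
      (58272735273764280532027 / 28343520000000000) * ((u - 7 / 10) ^ 0 * (1 - u) ^ 11) +
      (83554693135541170258711 / 3542940000000000) * ((u - 7 / 10) ^ 1 * (1 - u) ^ 10) +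
      (172724144007257709501869 / 1417176000000000) * ((u - 7 / 10) ^ 2 * (1 - u) ^ 9) +
      (3535315963902744785521 / 9447840000000) * ((u - 7 / 10) ^ 3 * (1 - u) ^ 8) +
      (178862617598803458482357 / 236196000000000) * ((u - 7 / 10) ^ 4 * (1 - u) ^ 7) +
      (1250170250183285399986943 / 1180980000000000) * ((u - 7 / 10) ^ 5 * (1 - u) ^ 6) +
      (153558133861572377352169 / 147622500000000) * ((u - 7 / 10) ^ 6 * (1 - u) ^ 5) +
      (5282322328936913928793 / 7381125000000) * ((u - 7 / 10) ^ 7 * (1 - u) ^ 4) +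
      (247854272984389443257 / 738112500000) * ((u - 7 / 10) ^ 8 * (1 - u) ^ 3) +
      (179523919412566540543 / 1771470000000) * ((u - 7 / 10) ^ 9 * (1 - u) ^ 2) +
      (1541079553957970491 / 88573500000) * ((u - 7 / 10) ^ 10 * (1 - u) ^ 1) +
      (5501417758322803 / 4428675000) * ((u - 7 / 10) ^ 11 * (1 - u) ^ 0)) := by
    unfold LbQ alP beP rb fL fH gL cL cH hL eP
    ring
  rw [e]
  have a : 0 ≤ u - 7 / 10 := by linarith
  have b : 0 ≤ 1 - u := by linarith
  have c : 0 ≤ u := by linarith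
  positivity

private theorem pos_cBm0 {u : ℝ} (h0 : 7 / 10 ≤ u) (h1 : u ≤ 1) :
    0 ≤ LbQ (1649 / 1000) (177 / 10) (984 / 1000) (841 / 100) (407 / 100) (4 / 10) (2087 / 10000) (-(4 / 10)) u
      (rb u * gaP (-(4 / 10)) u) := by
  have e : LbQ (1649 / 1000) (177 / 10) (984 / 1000) (841 / 100) (407 / 100) (4 / 10) (2087 / 10000) (-(4 / 10)) u
      (rb u * gaP (-(4 / 10)) u) = u * (
      (24065412061705749338127719 / 17714700000000000000) * ((u - 7 / 10) ^ 0 * (1 - u) ^ 11) +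
      (40227125165780117977369343 / 2214337500000000000) * ((u - 7 / 10) ^ 1 * (1 - u) ^ 10) +
      (95234101493383325493558181 / 885735000000000000) * ((u - 7 / 10) ^ 2 * (1 - u) ^ 9) +
      (55069728263898130700933291 / 147622500000000000) * ((u - 7 / 10) ^ 3 * (1 - u) ^ 8) +
      (24942679303599737192675807 / 29524500000000000) * ((u - 7 / 10) ^ 4 * (1 - u) ^ 7) +
      (7751613479160979263452933 / 5904900000000000) * ((u - 7 / 10) ^ 5 * (1 - u) ^ 6) +
      (421830909642330711995299 / 295245000000000) * ((u - 7 / 10) ^ 6 * (1 - u) ^ 5) +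
      (8036338871385178678829 / 7381125000000) * ((u - 7 / 10) ^ 7 * (1 - u) ^ 4) +
      (41972439981583395799 / 73811250000) * ((u - 7 / 10) ^ 8 * (1 - u) ^ 3) +
      (342667441566566613797 / 1771470000000) * ((u - 7 / 10) ^ 9 * (1 - u) ^ 2) +
      (1702033045909071997 / 44286750000) * ((u - 7 / 10) ^ 10 * (1 - u) ^ 1) +
      (3718492448217803 / 1107168750) * ((u - 7 / 10) ^ 11 * (1 - u) ^ 0)) := by
    unfold LbQ alP beP gaP rb fL fH gL cL cH hL hH eP zP
    ring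
  rw [e]
  have a : 0 ≤ u - 7 / 10 := by linarith
  have b : 0 ≤ 1 - u := by linarith
  have c : 0 ≤ u := by linarith
  positivity

private theorem pos_cBm1 {u : ℝ} (h0 : 7 / 10 ≤ u) (h1 : u ≤ 1) :
    0 ≤ LbQ (1649 / 1000) (177 / 10) (984 / 1000) (841 / 100) (407 / 100) (4 / 10) (2087 / 10000) (-(4 / 10)) u
      (2 * u) := by
  have e : LbQ (1649 / 1000) (177 / 10) (984 / 1000) (841 / 100) (407 / 100) (4 / 10) (2087 / 10000) (-(4 / 10)) u
      (2 * u) = u * (
      (67336895751156292269287 / 28343520000000000) * ((u - 7 / 10) ^ 0 * (1 - u) ^ 11) +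
      (95372603990091777737339 / 3542940000000000) * ((u - 7 / 10) ^ 1 * (1 - u) ^ 10) +
      (194691856596477702546793 / 1417176000000000) * ((u - 7 / 10) ^ 2 * (1 - u) ^ 9) +
      (98362722183458199653957 / 236196000000000) * ((u - 7 / 10) ^ 3 * (1 - u) ^ 8) +
      (196521403569191873790289 / 236196000000000) * ((u - 7 / 10) ^ 4 * (1 - u) ^ 7) +
      (1356032459059229902182643 / 1180980000000000) * ((u - 7 / 10) ^ 5 * (1 - u) ^ 6) +
      (164428349238872242815971 / 147622500000000) * ((u - 7 / 10) ^ 6 * (1 - u) ^ 5) +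
      (2791827668011097738941 / 3690562500000) * ((u - 7 / 10) ^ 7 * (1 - u) ^ 4) +
      (32325803179893600431 / 92264062500) * ((u - 7 / 10) ^ 8 * (1 - u) ^ 3) +
      (184844098833105775067 / 1771470000000) * ((u - 7 / 10) ^ 9 * (1 - u) ^ 2) +
      (1564869766009453319 / 88573500000) * ((u - 7 / 10) ^ 10 * (1 - u) ^ 1) +
      (5500310753285207 / 4428675000) * ((u - 7 / 10) ^ 11 * (1 - u) ^ 0)) := by
    unfold LbQ alP beP rb fL fH gL cL cH hL eP
    ring
  rw [e]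
  have a : 0 ≤ u - 7 / 10 := by linarith
  have b : 0 ≤ 1 - u := by linarith
  have c : 0 ≤ u := by linarith
  positivity

private theorem pos_cCp0 {u : ℝ} (h0 : 7 / 10 ≤ u) (h1 : u ≤ 1) :
    0 ≤ LbQ (1695 / 1000) (186 / 10) (805 / 1000) (682 / 100) (42 / 10) (573 / 1000) (3149 / 10000) (573 / 1000) u
      (rb u * gaP (573 / 1000) u) := by
  have e : LbQ (1695 / 1000) (186 / 10) (805 / 1000) (682 / 100) (42 / 10) (573 / 1000) (3149 / 10000) (573 / 1000) u
      (rb u * gaP (573 / 1000) u) = u * (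
      (29771836430979165724325647 / 39366000000000000000) * ((u - 7 / 10) ^ 0 * (1 - u) ^ 11) +
      (304806294171222142234442149 / 29524500000000000000) * ((u - 7 / 10) ^ 1 * (1 - u) ^ 10) +
      (1466104833326608528709575487 / 23619600000000000000) * ((u - 7 / 10) ^ 2 * (1 - u) ^ 9) +
      (572326085005748930644622149 / 2624400000000000000) * ((u - 7 / 10) ^ 3 * (1 - u) ^ 8) +
      (785731755625816243016403409 / 1574640000000000000) * ((u - 7 / 10) ^ 4 * (1 - u) ^ 7) +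
      (246306870845423313651610691 / 314928000000000000) * ((u - 7 / 10) ^ 5 * (1 - u) ^ 6) +
      (120011820880762043113889 / 139968000000000) * ((u - 7 / 10) ^ 6 * (1 - u) ^ 5) +
      (103500530584476734046493 / 157464000000000) * ((u - 7 / 10) ^ 7 * (1 - u) ^ 4) +
      (424220874599452174619 / 1230187500000) * ((u - 7 / 10) ^ 8 * (1 - u) ^ 3) +
      (3703880844942868793687 / 31492800000000) * ((u - 7 / 10) ^ 9 * (1 - u) ^ 2) +
      (220716708265589867519 / 9447840000000) * ((u - 7 / 10) ^ 10 * (1 - u) ^ 1) +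
      (959725421431803337 / 472392000000) * ((u - 7 / 10) ^ 11 * (1 - u) ^ 0)) := by
    unfold LbQ alP beP gaP rb fL fH gL cL cH hL hH eP zP
    ring
  rw [e]
  have a : 0 ≤ u - 7 / 10 := by linarith
  have b : 0 ≤ 1 - u := by linarith
  have c : 0 ≤ u := by linarith
  positivity

private theorem pos_cCp1 {u : ℝ} (h0 : 7 / 10 ≤ u) (h1 : u ≤ 1) :
    0 ≤ LbQ (1695 / 1000) (186 / 10) (805 / 1000) (682 / 100) (42 / 10) (573 / 1000) (3149 / 10000) (573 / 1000) u
      (2 * u) := by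
  have e : LbQ (1695 / 1000) (186 / 10) (805 / 1000) (682 / 100) (42 / 10) (573 / 1000) (3149 / 10000) (573 / 1000) u
      (2 * u) = u * (
      (462429715645282344510359 / 188956800000000000) * ((u - 7 / 10) ^ 0 * (1 - u) ^ 11) +
      (446974875367135539824107 / 15746400000000000) * ((u - 7 / 10) ^ 1 * (1 - u) ^ 10) +
      (1403540858891367939206297 / 9447840000000000) * ((u - 7 / 10) ^ 2 * (1 - u) ^ 9) +
      (182168372773241048039489 / 393660000000000) * ((u - 7 / 10) ^ 3 * (1 - u) ^ 8) +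
      (999907907521839486833489 / 1049760000000000) * ((u - 7 / 10) ^ 4 * (1 - u) ^ 7) +
      (855835976464186837340371 / 629856000000000) * ((u - 7 / 10) ^ 5 * (1 - u) ^ 6) +
      (5388017675828815965640949 / 3936600000000000) * ((u - 7 / 10) ^ 6 * (1 - u) ^ 5) +
      (127481180480762501707687 / 131220000000000) * ((u - 7 / 10) ^ 7 * (1 - u) ^ 4) +
      (18691518773864765928409 / 39366000000000) * ((u - 7 / 10) ^ 8 * (1 - u) ^ 3) +
      (3579080211091333666969 / 23619600000000) * ((u - 7 / 10) ^ 9 * (1 - u) ^ 2) +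
      (11114624129566576831 / 393660000000) * ((u - 7 / 10) ^ 10 * (1 - u) ^ 1) +
      (135930133774084499 / 59049000000) * ((u - 7 / 10) ^ 11 * (1 - u) ^ 0)) := by
    unfold LbQ alP beP rb fL fH gL cL cH hL eP
    ring
  rw [e]
  have a : 0 ≤ u - 7 / 10 := by linarith
  have b : 0 ≤ 1 - u := by linarith
  have c : 0 ≤ u := by linarith
  positivity

private theorem pos_cCm0 {u : ℝ} (h0 : 7 / 10 ≤ u) (h1 : u ≤ 1) :
    0 ≤ LbQ (1695 / 1000) (186 / 10) (805 / 1000) (682 / 100) (42 / 10) (573 / 1000) (3149 / 10000) (-(573 / 1000)) u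
      (rb u * gaP (-(573 / 1000)) u) := by
  have e : LbQ (1695 / 1000) (186 / 10) (805 / 1000) (682 / 100) (42 / 10) (573 / 1000) (3149 / 10000) (-(573 / 1000)) u
      (rb u * gaP (-(573 / 1000)) u) = u * (
      (270592460261353650255755059 / 118098000000000000000) * ((u - 7 / 10) ^ 0 * (1 - u) ^ 11) +
      (281315199763545632695457617 / 9841500000000000000) * ((u - 7 / 10) ^ 1 * (1 - u) ^ 10) +
      (3783604504766876523135836113 / 23619600000000000000) * ((u - 7 / 10) ^ 2 * (1 - u) ^ 9) +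
      (4190551991825908441885375553 / 7873200000000000000) * ((u - 7 / 10) ^ 3 * (1 - u) ^ 8) +
      (203794322262160082515639399 / 174960000000000000) * ((u - 7 / 10) ^ 4 * (1 - u) ^ 7) +
      (554958689801922665256439309 / 314928000000000000) * ((u - 7 / 10) ^ 5 * (1 - u) ^ 6) +
      (2367471470592930953540039 / 1259712000000000) * ((u - 7 / 10) ^ 6 * (1 - u) ^ 5) +
      (74099210752672014913169 / 52488000000000) * ((u - 7 / 10) ^ 7 * (1 - u) ^ 4) +
      (1798617523967021275637 / 2460375000000) * ((u - 7 / 10) ^ 8 * (1 - u) ^ 3) +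
      (23437858320395037824939 / 94478400000000) * ((u - 7 / 10) ^ 9 * (1 - u) ^ 2) +
      (155962397296007844827 / 3149280000000) * ((u - 7 / 10) ^ 10 * (1 - u) ^ 1) +
      (2073383536958138663 / 472392000000) * ((u - 7 / 10) ^ 11 * (1 - u) ^ 0)) := by
    unfold LbQ alP beP gaP rb fL fH gL cL cH hL hH eP zP
    ring
  rw [e]
  have a : 0 ≤ u - 7 / 10 := by linarith
  have b : 0 ≤ 1 - u := by linarith
  have c : 0 ≤ u := by linarith
  positivity

private theorem pos_cCm1 {u : ℝ} (h0 : 7 / 10 ≤ u) (h1 : u ≤ 1) :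
    0 ≤ LbQ (1695 / 1000) (186 / 10) (805 / 1000) (682 / 100) (42 / 10) (573 / 1000) (3149 / 10000) (-(573 / 1000)) u
      (2 * u) := by
  have e : LbQ (1695 / 1000) (186 / 10) (805 / 1000) (682 / 100) (42 / 10) (573 / 1000) (3149 / 10000) (-(573 / 1000)) u
      (2 * u) = u * (
      (561344164788136703036441 / 188956800000000000) * ((u - 7 / 10) ^ 0 * (1 - u) ^ 11) +
      (532330449748073707265893 / 15746400000000000) * ((u - 7 / 10) ^ 1 * (1 - u) ^ 10) +
      (1639992239469140526114503 / 9447840000000000) * ((u - 7 / 10) ^ 2 * (1 - u) ^ 9) +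
      (208864379714788337734811 / 393660000000000) * ((u - 7 / 10) ^ 3 * (1 - u) ^ 8) +
      (1125184354279641362332511 / 1049760000000000) * ((u - 7 / 10) ^ 4 * (1 - u) ^ 7) +
      (189098434976655465190937 / 125971200000000) * ((u - 7 / 10) ^ 5 * (1 - u) ^ 6) +
      (5846025657116231400731051 / 3936600000000000) * ((u - 7 / 10) ^ 6 * (1 - u) ^ 5) +
      (135903416376990676452313 / 131220000000000) * ((u - 7 / 10) ^ 7 * (1 - u) ^ 4) +
      (19588459329642498739591 / 39366000000000) * ((u - 7 / 10) ^ 8 * (1 - u) ^ 3) +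
      (3689414963566279047031 / 23619600000000) * ((u - 7 / 10) ^ 9 * (1 - u) ^ 2) +
      (11278035934562421169 / 393660000000) * ((u - 7 / 10) ^ 10 * (1 - u) ^ 1) +
      (135908400156989501 / 59049000000) * ((u - 7 / 10) ^ 11 * (1 - u) ^ 0)) := by
    unfold LbQ alP beP rb fL fH gL cL cH hL eP
    ring
  rw [e]
  have a : 0 ≤ u - 7 / 10 := by linarith
  have b : 0 ≤ 1 - u := by linarith
  have c : 0 ≤ u := by linarith
  positivity

theorem Uf_nonneg3 (d : Dat K L φ ψ χ ω) {c : Cell} (hc : IsCell c) {x s : ℝ}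
    (hx : x = c.m1 ∨ x = -c.m1) (hs : 0 ≤ s) (hs1 : s ≤ 3 / 10) :
    0 ≤ Uf K L φ ψ χ ω c (√s * Gam K L φ ψ χ ω x s) (33 / 100) (33 / 10) x s ∧
      0 ≤ Uf K L φ ψ χ ω c (2 * (1 - s)) (33 / 100) (33 / 10) x s := by
  obtain ⟨u, rfl⟩ : ∃ u, s = 1 - u := ⟨1 - s, by ring⟩
  have h0 : 7 / 10 ≤ u := by linarith
  have h1 : u ≤ 1 := by linarith
  have hG : 2 * (1 - (1 - u)) = 2 * u := by ring
  rcases hc with rfl | rfl | rfl
  · rcases hx with rfl | rfl
    · refine ⟨?_, le_trans (pos_cAp1 h0 h1) (Uf_ge d cA (by norm_num [cA]) (by norm_num [cA]) (by norm_num [cA])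
        (by norm_num [cA]) (x := cA.m1) (by norm_num [cA]) (by norm_num [cA]) h0 h1
          (le_of_eq hG))⟩
      rcases Gam_le d (x := cA.m1) (by norm_num [cA]) (by norm_num [cA]) h0 h1 with h | h
      · exact le_trans (pos_cAp0 h0 h1) (Uf_ge d cA (by norm_num [cA]) (by norm_num [cA]) (by norm_num [cA])
        (by norm_num [cA]) (x := cA.m1) (by norm_num [cA]) (by norm_num [cA]) h0 h1 h)
      · exact le_trans (pos_cAp1 h0 h1) (Uf_ge d cA (by norm_num [cA]) (by norm_num [cA]) (by norm_num [cA])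
        (by norm_num [cA]) (x := cA.m1) (by norm_num [cA]) (by norm_num [cA]) h0 h1 h)
    · refine ⟨?_, le_trans (pos_cAm1 h0 h1) (Uf_ge d cA (by norm_num [cA]) (by norm_num [cA]) (by norm_num [cA])
        (by norm_num [cA]) (x := -cA.m1) (by norm_num [cA]) (by norm_num [cA]) h0 h1
          (le_of_eq hG))⟩
      rcases Gam_le d (x := -cA.m1) (by norm_num [cA]) (by norm_num [cA]) h0 h1 with h | h
      · exact le_trans (pos_cAm0 h0 h1) (Uf_ge d cA (by norm_num [cA]) (by norm_num [cA]) (by norm_num [cA])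
        (by norm_num [cA]) (x := -cA.m1) (by norm_num [cA]) (by norm_num [cA]) h0 h1 h)
      · exact le_trans (pos_cAm1 h0 h1) (Uf_ge d cA (by norm_num [cA]) (by norm_num [cA]) (by norm_num [cA])
        (by norm_num [cA]) (x := -cA.m1) (by norm_num [cA]) (by norm_num [cA]) h0 h1 h)
  · rcases hx with rfl | rfl
    · refine ⟨?_, le_trans (pos_cBp1 h0 h1) (Uf_ge d cB (by norm_num [cB]) (by norm_num [cB]) (by norm_num [cB])
        (by norm_num [cB]) (x := cB.m1) (by norm_num [cB]) (by norm_num [cB]) h0 h1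
          (le_of_eq hG))⟩
      rcases Gam_le d (x := cB.m1) (by norm_num [cB]) (by norm_num [cB]) h0 h1 with h | h
      · exact le_trans (pos_cBp0 h0 h1) (Uf_ge d cB (by norm_num [cB]) (by norm_num [cB]) (by norm_num [cB])
        (by norm_num [cB]) (x := cB.m1) (by norm_num [cB]) (by norm_num [cB]) h0 h1 h)
      · exact le_trans (pos_cBp1 h0 h1) (Uf_ge d cB (by norm_num [cB]) (by norm_num [cB]) (by norm_num [cB])
        (by norm_num [cB]) (x := cB.m1) (by norm_num [cB]) (by norm_num [cB]) h0 h1 h)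
    · refine ⟨?_, le_trans (pos_cBm1 h0 h1) (Uf_ge d cB (by norm_num [cB]) (by norm_num [cB]) (by norm_num [cB])
        (by norm_num [cB]) (x := -cB.m1) (by norm_num [cB]) (by norm_num [cB]) h0 h1
          (le_of_eq hG))⟩
      rcases Gam_le d (x := -cB.m1) (by norm_num [cB]) (by norm_num [cB]) h0 h1 with h | h
      · exact le_trans (pos_cBm0 h0 h1) (Uf_ge d cB (by norm_num [cB]) (by norm_num [cB]) (by norm_num [cB])
        (by norm_num [cB]) (x := -cB.m1) (by norm_num [cB]) (by norm_num [cB]) h0 h1 h)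
      · exact le_trans (pos_cBm1 h0 h1) (Uf_ge d cB (by norm_num [cB]) (by norm_num [cB]) (by norm_num [cB])
        (by norm_num [cB]) (x := -cB.m1) (by norm_num [cB]) (by norm_num [cB]) h0 h1 h)
  · rcases hx with rfl | rfl
    · refine ⟨?_, le_trans (pos_cCp1 h0 h1) (Uf_ge d cC (by norm_num [cC]) (by norm_num [cC]) (by norm_num [cC])
        (by norm_num [cC]) (x := cC.m1) (by norm_num [cC]) (by norm_num [cC]) h0 h1
          (le_of_eq hG))⟩
      rcases Gam_le d (x := cC.m1) (by norm_num [cC]) (by norm_num [cC]) h0 h1 with h | h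
      · exact le_trans (pos_cCp0 h0 h1) (Uf_ge d cC (by norm_num [cC]) (by norm_num [cC]) (by norm_num [cC])
        (by norm_num [cC]) (x := cC.m1) (by norm_num [cC]) (by norm_num [cC]) h0 h1 h)
      · exact le_trans (pos_cCp1 h0 h1) (Uf_ge d cC (by norm_num [cC]) (by norm_num [cC]) (by norm_num [cC])
        (by norm_num [cC]) (x := cC.m1) (by norm_num [cC]) (by norm_num [cC]) h0 h1 h)
    · refine ⟨?_, le_trans (pos_cCm1 h0 h1) (Uf_ge d cC (by norm_num [cC]) (by norm_num [cC]) (by norm_num [cC])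
        (by norm_num [cC]) (x := -cC.m1) (by norm_num [cC]) (by norm_num [cC]) h0 h1
          (le_of_eq hG))⟩
      rcases Gam_le d (x := -cC.m1) (by norm_num [cC]) (by norm_num [cC]) h0 h1 with h | h
      · exact le_trans (pos_cCm0 h0 h1) (Uf_ge d cC (by norm_num [cC]) (by norm_num [cC]) (by norm_num [cC])
        (by norm_num [cC]) (x := -cC.m1) (by norm_num [cC]) (by norm_num [cC]) h0 h1 h)
      · exact le_trans (pos_cCm1 h0 h1) (Uf_ge d cC (by norm_num [cC]) (by norm_num [cC]) (by norm_num [cC])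
        (by norm_num [cC]) (x := -cC.m1) (by norm_num [cC]) (by norm_num [cC]) h0 h1 h)

end Pool.Agent.FND
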