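import Pool.Agent.FND.Defs
import Pool.Agent.FND.SDef

/-!
FND-SId: `-Ft` inside the disc in polar form.

Plan.  y0 = r c, y1 = r d with c²+d² = 1, r = √s > 0.  Unfold everything (Ft, nr, Af, eA, ew, eVm, X3, eQ, eV, R3, I3, R1, c3, s3,
w, vv ...).  t S3 and C3 x combine by the identities (c + i d)³ etc.; it is a polynomial identity in
c, d, r, a, b, φ, ψ, χ, ω, et, etd, a0, K, L, M, 1/mw, T0 modulo c²+d² = 1 and r² = s.  Suggestion: prove separately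
(1) ew, (2) eVm, (3) X3, (4) nr, (5) the sφχR3 terms in polar form, then linear combination; use
`linear_combination (coefficient) * h` with h : c^2 + d^2 = 1 (compute the coefficient by polynomial division by hand
or avoid it by writing cos 2t, sin 2t = c²-d², 2cd and homogenising: multiply constants by (c²+d²)).  All was verified
numerically, the statement is exact.
-/

set_option autoImplicit false

open MeasureTheory Set
open Pool.Agent.Neu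
open Pool.Agent.CS4 (Prof2 bb vv eV)

namespace Pool.Agent.FND

variable {K L : ℝ} {φ ψ χ ω : ℝ → ℝ}

private theorem sid_pos {y : E} (hy0 : y ≠ 0) : 0 < sq y := by
  rw [M1x.sq_eq]
  have := norm_pos_iff.2 hy0
  positivity

private theorem sid_R3I3 (a b : ℝ) (y : E) :
    R3 a b y ^ 2 + I3 a b y ^ 2 = (a ^ 2 + b ^ 2) * Neu.sq y ^ 3 := by
  unfold R3 I3 c3 s3 Neu.sq
  ring

private theorem sid_R1 (a b : ℝ) (y : E) : R1 a b y ^ 2 ≤ (a ^ 2 + b ^ 2) * Neu.sq y := by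
  have h : R1 a b y ^ 2 = (a ^ 2 + b ^ 2) * Neu.sq y - (a * y 1 - b * y 0) ^ 2 := by
    unfold R1 Neu.sq
    ring
  rw [h]
  linarith [_root_.sq_nonneg (a * y 1 - b * y 0)]

private theorem sid_R1R3 (a b : ℝ) (y : E) : R1 a b y * Neu.sq y ^ 2 =
    R3 a b y * (y 0 ^ 2 - y 1 ^ 2) + I3 a b y * (2 * (y 0 * y 1)) := by
  unfold R1 R3 I3 c3 s3 Neu.sq
  ring

private theorem sid_N (m : ℝ) (y : E) : N ((1 + m) / 2) 0 ((1 - m) / 2) y = Nd m y := by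
  unfold N Nd
  ring

private theorem sid_Nd {m x : ℝ} {y : E} (hs : 0 < Neu.sq y)
    (hx : x = -m * ((y 0 ^ 2 - y 1 ^ 2) / Neu.sq y)) : Nd m y = Neu.sq y * (1 / 2 + x / 2) := by
  rw [hx]
  have h : Nd m y = (Neu.sq y - m * (y 0 ^ 2 - y 1 ^ 2)) / 2 := by
    unfold Nd Neu.sq
    ring
  rw [h]
  field_simp
  ring

private theorem sid_Af (χ ζ : ℝ → ℝ) (a b : ℝ) (y : E) :
    Af χ ζ a b 0 y ^ 2 + Af χ ζ a b 1 y ^ 2 = χ (Neu.sq y) ^ 2 * Neu.sq y ^ 2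
      - 2 * (χ (Neu.sq y) * ζ (Neu.sq y)) * R3 a b y
      + ζ (Neu.sq y) ^ 2 * ((a ^ 2 + b ^ 2) * Neu.sq y) := by
  unfold Af vv bb pb
  simp only [if_true, one_ne_zero, if_false]
  obtain ⟨u, hu⟩ : ∃ u, u = χ (Neu.sq y) := ⟨_, rfl⟩
  obtain ⟨v, hv⟩ : ∃ v, v = ζ (Neu.sq y) := ⟨_, rfl⟩
  rw [← hu, ← hv]
  unfold R3 c3 s3 Neu.sq
  ring

private theorem sid_alg (s x t c i A f g k w e e' a0 L M T mi z m R : ℝ)
    (h : m * R = -(x * c + t * i)) :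
    -(L / 2 * ((k ^ 2 * s ^ 2 - 2 * (k * (e + a0 * f)) * (s * c) + (e + a0 * f) ^ 2 * (A * s))
          - (1 + a0 ^ 2 * A) + 2 * a0 * (f * k * (s * c)))
      + M * (96 / 100 * T * (s * (1 / 2 + x / 2) - f ^ 2 * (s * (1 / 2 + x / 2)) - (1 - s * f ^ 2) / 2)
          - mi * ((f + 2 * s * g) ^ 2 - 4 * g * (f + s * g) * (s * (1 / 2 + x / 2)))
          + 105 / 100 * (s * f ^ 2 - 1))
      - ((4 * s * (k + s * w) ^ 2 - 4 * s * w * (2 * k + s * w) * (s * (1 / 2 + x / 2)))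
          - 2 * ((s * c) * ((2 * k * (e' + a0 * g) + w * (e + a0 * f))
              + 4 * w * (e' + a0 * g) * (s - s * (1 / 2 + x / 2)))
            + m * R * (2 * k * (e + a0 * f) + s * (2 * k * (e' + a0 * g) + w * (e + a0 * f))))
          + A * (((e + a0 * f) + 2 * s * (e' + a0 * g)) ^ 2
            - 4 * (e' + a0 * g) * ((e + a0 * f) + s * (e' + a0 * g)) * (s * (1 / 2 + x / 2))))
      + (M * mi + 4 + a0 ^ 2 * A) * (f ^ 2 * (s * (1 / 2 + x / 2)) + (1 - s * f ^ 2) / 2)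
      - 5 * (f * k * (s * c) - z * (f * R)))
    = (1 / 2 + x / 2) * (M * (96 / 100 * T * ((1 - s) - (1 - s * f ^ 2) / 2)
          + mi * (f ^ 2 - 1 + (1 - s * f ^ 2) / 2) + 105 / 100 * (1 - s * f ^ 2))
        + 4 * (s * k ^ 2 - 1) + 2 * (1 - s * f ^ 2) + L / 2 * (1 - (s * k) ^ 2))
      + (1 / 2 - x / 2) * (M * (96 / 100 * T * ((1 - s * f ^ 2) / 2)
          + mi * ((f + 2 * s * g) ^ 2 - (1 - s * f ^ 2) / 2) + 105 / 100 * (1 - s * f ^ 2))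
        + s * (2 * (k + s * w)) ^ 2 - 2 * (1 - s * f ^ 2) + L / 2 * (1 - (s * k) ^ 2))
      + A * ((1 / 2 - x / 2) * ((e + a0 * f) + 2 * s * (e' + a0 * g)) ^ 2
        + (1 / 2 + x / 2) * (e + a0 * f) ^ 2
        - a0 ^ 2 / 2 * ((1 / 2 - x / 2) * (1 - s * f ^ 2) + (1 / 2 + x / 2) * (2 - (1 - s * f ^ 2)))
        - L / 2 * (s * e ^ 2 + 2 * a0 * (s * e * f) - a0 ^ 2 * (1 - s * f ^ 2)))
      + c * (-(1 - x) * ((2 * (k + s * w)) * ((e + a0 * f) + 2 * s * (e' + a0 * g)))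
        + L * (s * k * e) + 2 * (1 + x) * (k * (e + a0 * f * (1 - s))))
      + (1 / 2 + x / 2) * (4 * a0) * (s * f * k) * c
      + t * i * ((2 * (k + s * w)) * (e + a0 * f)
        + 2 * (k * ((e + a0 * f) + 2 * s * (e' + a0 * g))))
      + 5 * (s * f * k * c - z * (f * R)) := by
  linear_combination (-2 * (2 * k * (e + a0 * f) + s * (2 * k * (e' + a0 * g) + w * (e + a0 * f)))) * h

theorem Ft_in_eq (d : Dat K L φ ψ χ ω) (M z m a b : ℝ) {y : E} (hy0 : y ≠ 0) (hy : sq y ≤ 1)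
    {r x t C3 S3 C1 : ℝ} (hr : r = √(sq y)) (hx : x = -m * ((y 0 ^ 2 - y 1 ^ 2) / sq y))
    (ht : t = -m * (2 * (y 0 * y 1) / sq y)) (hC3 : C3 = R3 a b y / r ^ 3)
    (hS3 : S3 = I3 a b y / r ^ 3) (hC1 : C1 = R1 a b y / r) :
    -Ft K L φ ψ χ ω M z m a b y
      = (1 / 2 + x / 2) * al K L φ χ M (sq y) + (1 / 2 - x / 2) * be K L φ ψ χ ω M (sq y)
        + (a ^ 2 + b ^ 2) * ep K L φ ψ x (sq y) + C3 * (r * Gam K L φ ψ χ ω x (sq y))
        + (1 / 2 + x / 2) * (4 * a0 K φ) * (r * (sq y * φ (sq y) * χ (sq y))) * C3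
        + t * S3 * (r * Del K φ ψ χ ω (sq y))
        + 5 * (r * (sq y * φ (sq y) * χ (sq y)) * C3 - z * (r * φ (sq y)) * C1) := by
  have hs := sid_pos hy0
  have hr0 : 0 < r := hr ▸ Real.sqrt_pos.2 hs
  have hr2 : r ^ 2 = Neu.sq y := by
    rw [hr]
    exact Real.sq_sqrt hs.le
  have hN := sid_Nd hs hx
  have e3 : R3 a b y = Neu.sq y * (r * C3) := by
    rw [hC3, ← hr2]
    field_simp
  have eI : I3 a b y = Neu.sq y * (r * S3) := by
    rw [hS3, ← hr2]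
    field_simp
  have e1 : R1 a b y = r * C1 := by
    rw [hC1]
    field_simp
  have hm : m * (r * C1) = -(x * (r * C3) + t * (r * S3)) := by
    have h1 := sid_R1R3 a b y
    rw [e3, eI, e1] at h1
    rw [hx, ht]
    have h2 : r * C1 = (r * C3) * ((y 0 ^ 2 - y 1 ^ 2) / Neu.sq y)
        + (r * S3) * (2 * (y 0 * y 1) / Neu.sq y) := by
      field_simp
      have h3 : (r * C1 * Neu.sq y - (r * C3 * (y 0 ^ 2 - y 1 ^ 2) + r * S3 * (2 * (y 0 * y 1)))) *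
          Neu.sq y = 0 := by linear_combination h1
      have h4 := (mul_eq_zero.1 h3).resolve_right hs.ne'
      have h5 : r * (C1 * Neu.sq y - (C3 * (y 0 ^ 2 - y 1 ^ 2) + S3 * (2 * (y 0 * y 1)))) = 0 := by
        linear_combination h4
      have h6 := (mul_eq_zero.1 h5).resolve_left hr0.ne'
      linear_combination h6
    rw [h2]
    ring
  unfold Ft nr eA X3 ew eVm GI
  rw [sid_Af]
  unfold eQ eV
  rw [sid_N, hN, e3, e1]
  unfold al be ep Gam Del hdf gdf zpf zt ztd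
  linear_combination sid_alg (Neu.sq y) x t (r * C3) (r * S3) (a ^ 2 + b ^ 2) (φ (Neu.sq y))
    (ψ (Neu.sq y)) (χ (Neu.sq y)) (ω (Neu.sq y)) (et (Neu.sq y)) (etd (Neu.sq y)) (a0 K φ) L M
    (T0 K L) (2 / mw K) z m (r * C1) hm

/-- the trigonometric relations -/
theorem polar_rel {m a b : ℝ} {y : E} (hy0 : y ≠ 0) {r x t C3 S3 C1 : ℝ} (hr : r = √(sq y))
    (hx : x = -m * ((y 0 ^ 2 - y 1 ^ 2) / sq y)) (ht : t = -m * (2 * (y 0 * y 1) / sq y))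
    (hC3 : C3 = R3 a b y / r ^ 3) (hS3 : S3 = I3 a b y / r ^ 3) (hC1 : C1 = R1 a b y / r) :
    0 < r ∧ r ^ 2 = sq y ∧ x ^ 2 + t ^ 2 = m ^ 2 ∧ C3 ^ 2 + S3 ^ 2 = a ^ 2 + b ^ 2 ∧
      C1 ^ 2 ≤ a ^ 2 + b ^ 2 ∧ Nd m y / sq y = 1 / 2 + x / 2 := by
  have hs := sid_pos hy0
  have hr0 : 0 < r := hr ▸ Real.sqrt_pos.2 hs
  have hr2 : r ^ 2 = Neu.sq y := by
    rw [hr]
    exact Real.sq_sqrt hs.le
  refine ⟨hr0, hr2, ?_, ?_, ?_, ?_⟩
  · rw [hx, ht]
    have h : (y 0 ^ 2 - y 1 ^ 2) ^ 2 + (2 * (y 0 * y 1)) ^ 2 = Neu.sq y ^ 2 := by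
      unfold Neu.sq
      ring
    field_simp
    linear_combination m ^ 2 * h
  · rw [hC3, hS3, div_pow, div_pow, ← add_div, sid_R3I3, div_eq_iff (by positivity), ← hr2]
    ring
  · rw [hC1, div_pow, div_le_iff₀ (by positivity), hr2]
    exact sid_R1 a b y
  · rw [sid_Nd hs hx]
    field_simp

end Pool.Agent.FND
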