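import Pool.Agent.FND.Defs
import Pool.Agent.FND.SDef
import Pool.Agent.FND.Cst

/-!
FND-SUa: univariate estimates.

Plan.  u = 1-s, et(s) = u³ (1 + s) = u³(2 - u) on [0,1] (see Defs), r = √s <= 1 - u/2 - u²/8 - u³/16 (prove by squaring).
φ, χ by Enc.  u_E: with X = 1 - sφ² = u·(polynomial + error): |sηφ - a0 X| - note the statement has (1-s)² on the right: X ~ u²·?
(g(1) = 1, g'(1) = 0 so X = O(u²)): divide by u².  a0 in (.3230, .3232) (Cst).  Slacks: u_E .007/.008, u_D .0019, u_M .0014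
(all relative to u²).  u_D: 1 - sχ = u·..: sχ = (1-u)(1+u+u²(.334+...)) = 1 - u²(...) so it is O(u²).
Univariate polynomial inequalities in u on [0,1] by nlinarith/Bernstein after splitting.
-/

set_option autoImplicit false

open MeasureTheory Set
open Pool.Agent.Neu
open Pool.Agent.CS4 (Prof2 bb vv eV)

namespace Pool.Agent.FND

variable {K L : ℝ} {φ ψ χ ω : ℝ → ℝ}

private theorem suaq_M1 {u : ℝ} (h0 : 0 ≤ u) (h1 : u ≤ 1) :
    0 ≤ 13 / 10000 + 369 / 10000 * u + 2657831 / 100000000 * u ^ 2 + 86427 / 20000000 * u ^ 3 + 86553 / 100000000 * u ^ 4 + 3481 / 100000000 * u ^ 5 := by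
  have x1 : 0 ≤ 1 - u := by linarith only [h1]
  have e : 13 / 10000 + 369 / 10000 * u + 2657831 / 100000000 * u ^ 2 + 86427 / 20000000 * u ^ 3 + 86553 / 100000000 * u ^ 4 + 3481 / 100000000 * u ^ 5 =
      13 / 10000 * (1 - u) ^ 5 +
      217 / 5000 * u ^ 1 * (1 - u) ^ 4 +
      18717831 / 100000000 * u ^ 2 * (1 - u) ^ 3 +
      7961407 / 25000000 * u ^ 3 * (1 - u) ^ 2 +
      6083579 / 25000000 * u ^ 4 * (1 - u) ^ 1 +
      7 / 100 * u ^ 5 := by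
    ring
  rw [e]
  positivity

private theorem sua_M1 {u : ℝ} (h0 : 0 ≤ u) (h1 : u ≤ 1) :
    0 ≤ (1 - u) * ((1 + u + u ^ 2 * (3339 / 10000 + 563 / 10000 * u + 65 / 10000 * u ^ 2)) - (1 + u / 2 + u ^ 2 * (763 / 10000 + 59 / 10000 * u)) ^ 2) + 7 / 100 * u ^ 2 := by
  have h := mul_nonneg (sq_nonneg u) (suaq_M1 h0 h1)
  refine h.trans (le_of_eq ?_)
  ring

private theorem suaq_M2 {u : ℝ} (h0 : 0 ≤ u) (h1 : u ≤ 1) :
    0 ≤ 1381 / 10000 + (-73 / 2000) * u + (-2640879 / 100000000) * u ^ 2 + (-429323 / 100000000) * u ^ 3 + (-86317 / 100000000) * u ^ 4 + (-3481 / 100000000) * u ^ 5 := by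
  have x1 : 0 ≤ 1 - u := by linarith only [h1]
  have e : 1381 / 10000 + (-73 / 2000) * u + (-2640879 / 100000000) * u ^ 2 + (-429323 / 100000000) * u ^ 3 + (-86317 / 100000000) * u ^ 4 + (-3481 / 100000000) * u ^ 5 =
      1381 / 10000 * (1 - u) ^ 5 +
      327 / 500 * u ^ 1 * (1 - u) ^ 4 +
      120859121 / 100000000 * u ^ 2 * (1 - u) ^ 3 +
      2696201 / 2500000 * u ^ 3 * (1 - u) ^ 2 +
      28489 / 62500 * u ^ 4 * (1 - u) ^ 1 +
      7 / 100 * u ^ 5 := by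
    ring
  rw [e]
  positivity

private theorem sua_M2 {u : ℝ} (h0 : 0 ≤ u) (h1 : u ≤ 1) :
    0 ≤ 7 / 100 * u ^ 2 - (1 - u) * ((1 + u + u ^ 2 * (3341 / 10000 + 563 / 10000 * u + 65 / 10000 * u ^ 2)) - (1 + u / 2 + u ^ 2 * (761 / 10000 + 59 / 10000 * u)) ^ 2) := by
  have h := mul_nonneg (sq_nonneg u) (suaq_M2 h0 h1)
  refine h.trans (le_of_eq ?_)
  ring

private theorem suaq_D_0 {u : ℝ} (h0 : 0 ≤ u) (h1 : u ≤ 1 / 2) :
    0 ≤ 739 / 10000 + (-347 / 1250) * u + 14916407 / 100000000 * u ^ 2 + 36232669 / 200000000 * u ^ 3 + 5684047 / 50000000 * u ^ 4 + 39548287 / 800000000 * u ^ 5 + 183384187 / 12800000000 * u ^ 6 + 36714571 / 12800000000 * u ^ 7 + 2518483 / 6400000000 * u ^ 8 + 85113 / 2560000000 * u ^ 9 + 767 / 512000000 * u ^ 10 := by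
  have x1 : 0 ≤ 1 / 2 - u := by linarith only [h1]
  have e : 739 / 10000 + (-347 / 1250) * u + 14916407 / 100000000 * u ^ 2 + 36232669 / 200000000 * u ^ 3 + 5684047 / 50000000 * u ^ 4 + 39548287 / 800000000 * u ^ 5 + 183384187 / 12800000000 * u ^ 6 + 36714571 / 12800000000 * u ^ 7 + 2518483 / 6400000000 * u ^ 8 + 85113 / 2560000000 * u ^ 9 + 767 / 512000000 * u ^ 10 =
      1513472 / 625 * (1 / 2 - u) ^ 15 +
      19859456 / 625 * u ^ 1 * (1 / 2 - u) ^ 14 +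
      74925965024 / 390625 * u ^ 2 * (1 / 2 - u) ^ 13 +
      275214446664 / 390625 * u ^ 3 * (1 / 2 - u) ^ 12 +
      685284472848 / 390625 * u ^ 4 * (1 / 2 - u) ^ 11 +
      2437694185023 / 781250 * u ^ 5 * (1 / 2 - u) ^ 10 +
      101616369777467 / 25000000 * u ^ 6 * (1 / 2 - u) ^ 9 +
      195259616115121 / 50000000 * u ^ 7 * (1 / 2 - u) ^ 8 +
      137051748517059 / 50000000 * u ^ 8 * (1 / 2 - u) ^ 7 +
      272598639416097 / 200000000 * u ^ 9 * (1 / 2 - u) ^ 6 +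
      179229752008091 / 400000000 * u ^ 10 * (1 / 2 - u) ^ 5 +
      32848974646497 / 400000000 * u ^ 11 * (1 / 2 - u) ^ 4 +
      828075741611 / 200000000 * u ^ 12 * (1 / 2 - u) ^ 3 +
      3320238769 / 100000000 * u ^ 13 * (1 / 2 - u) ^ 2 +
      231179382007 / 400000000 * u ^ 14 * (1 / 2 - u) ^ 1 +
      10313319949 / 80000000 * u ^ 15 := by
    ring
  rw [e]
  positivity

private theorem suaq_D_1 {u : ℝ} (h0 : 1 / 2 ≤ u) (h1 : u ≤ 1) :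
    0 ≤ 739 / 10000 + (-347 / 1250) * u + 14916407 / 100000000 * u ^ 2 + 36232669 / 200000000 * u ^ 3 + 5684047 / 50000000 * u ^ 4 + 39548287 / 800000000 * u ^ 5 + 183384187 / 12800000000 * u ^ 6 + 36714571 / 12800000000 * u ^ 7 + 2518483 / 6400000000 * u ^ 8 + 85113 / 2560000000 * u ^ 9 + 767 / 512000000 * u ^ 10 := by
  have x0 : 0 ≤ u - 1 / 2 := by linarith only [h0]
  have x1 : 0 ≤ 1 - u := by linarith only [h1]
  have e : 739 / 10000 + (-347 / 1250) * u + 14916407 / 100000000 * u ^ 2 + 36232669 / 200000000 * u ^ 3 + 5684047 / 50000000 * u ^ 4 + 39548287 / 800000000 * u ^ 5 + 183384187 / 12800000000 * u ^ 6 + 36714571 / 12800000000 * u ^ 7 + 2518483 / 6400000000 * u ^ 8 + 85113 / 2560000000 * u ^ 9 + 767 / 512000000 * u ^ 10 =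
      10313319949 / 80000000 * (1 - u) ^ 15 +
      1315818610343 / 400000000 * (u - 1 / 2) ^ 1 * (1 - u) ^ 14 +
      759911507589 / 20000000 * (u - 1 / 2) ^ 2 * (1 - u) ^ 13 +
      51121140685003 / 200000000 * (u - 1 / 2) ^ 3 * (1 - u) ^ 12 +
      450265175059297 / 400000000 * (u - 1 / 2) ^ 4 * (1 - u) ^ 11 +
      1389385510729531 / 400000000 * (u - 1 / 2) ^ 5 * (1 - u) ^ 10 +
      1566010738960193 / 200000000 * (u - 1 / 2) ^ 6 * (1 - u) ^ 9 +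
      132255510019167 / 10000000 * (u - 1 / 2) ^ 7 * (1 - u) ^ 8 +
      848440731696817 / 50000000 * (u - 1 / 2) ^ 8 * (1 - u) ^ 7 +
      207589063235511 / 12500000 * (u - 1 / 2) ^ 9 * (1 - u) ^ 6 +
      154203445817513 / 12500000 * (u - 1 / 2) ^ 10 * (1 - u) ^ 5 +
      21399170262511 / 3125000 * (u - 1 / 2) ^ 11 * (1 - u) ^ 4 +
      1721901653241 / 625000 * (u - 1 / 2) ^ 12 * (1 - u) ^ 3 +
      237397387647 / 312500 * (u - 1 / 2) ^ 13 * (1 - u) ^ 2 +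
      10042105559 / 78125 * (u - 1 / 2) ^ 14 * (1 - u) ^ 1 +
      1258976 / 125 * (u - 1 / 2) ^ 15 := by
    ring
  rw [e]
  positivity

private theorem suaq_D {u : ℝ} (h0 : 0 ≤ u) (h1 : u ≤ 1) :
    0 ≤ 739 / 10000 + (-347 / 1250) * u + 14916407 / 100000000 * u ^ 2 + 36232669 / 200000000 * u ^ 3 + 5684047 / 50000000 * u ^ 4 + 39548287 / 800000000 * u ^ 5 + 183384187 / 12800000000 * u ^ 6 + 36714571 / 12800000000 * u ^ 7 + 2518483 / 6400000000 * u ^ 8 + 85113 / 2560000000 * u ^ 9 + 767 / 512000000 * u ^ 10 := by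
  rcases le_total u (1 / 2 : ℝ) with k0 | g0
  · exact suaq_D_0 h0 k0
  exact suaq_D_1 g0 h1

private theorem sua_D {u : ℝ} (h0 : 0 ≤ u) (h1 : u ≤ 1) :
    0 ≤ 74 / 100 * u ^ 2 - (1 - u / 2 - u ^ 2 / 8 - u ^ 3 / 16 - 5 * u ^ 4 / 128) * (1 + u / 2 + u ^ 2 * (763 / 10000 + 59 / 10000 * u)) * (1 - (1 - u) * (1 + u + u ^ 2 * (3339 / 10000 + 563 / 10000 * u + 65 / 10000 * u ^ 2))) := by
  have h := mul_nonneg (sq_nonneg u) (suaq_D h0 h1)
  refine h.trans (le_of_eq ?_)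
  ring

private theorem suaq_E1_0 {u : ℝ} (h0 : 0 ≤ u) (h1 : u ≤ 1 / 2) :
    0 ≤ 21650997 / 50000000 + (-37967701 / 20000000) * u + 2024677831961 / 1000000000000 * u ^ 2 + 70179275637 / 200000000000 * u ^ 3 + (-282620347257 / 1000000000000) * u ^ 4 + (-58588752889 / 1000000000000) * u ^ 5 + (-59 / 10000) * u ^ 6 := by
  have x1 : 0 ≤ 1 / 2 - u := by linarith only [h1]
  have e : 21650997 / 50000000 + (-37967701 / 20000000) * u + 2024677831961 / 1000000000000 * u ^ 2 + 70179275637 / 200000000000 * u ^ 3 + (-282620347257 / 1000000000000) * u ^ 4 + (-58588752889 / 1000000000000) * u ^ 5 + (-59 / 10000) * u ^ 6 =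
      86603988 / 390625 * (1 / 2 - u) ^ 9 +
      589597387 / 390625 * u ^ 1 * (1 / 2 - u) ^ 8 +
      34005388391961 / 7812500000 * u ^ 2 * (1 / 2 - u) ^ 7 +
      107066660105639 / 15625000000 * u ^ 3 * (1 / 2 - u) ^ 6 +
      196492770715687 / 31250000000 * u ^ 4 * (1 / 2 - u) ^ 5 +
      204823925494721 / 62500000000 * u ^ 5 * (1 / 2 - u) ^ 4 +
      3256024072949 / 3906250000 * u ^ 6 * (1 / 2 - u) ^ 3 +
      1774668739037 / 31250000000 * u ^ 7 * (1 / 2 - u) ^ 2 +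
      45051950213 / 6250000000 * u ^ 8 * (1 / 2 - u) ^ 1 +
      18268240041 / 2500000000 * u ^ 9 := by
    ring
  rw [e]
  positivity

private theorem suaq_E1_1 {u : ℝ} (h0 : 1 / 2 ≤ u) (h1 : u ≤ 1) :
    0 ≤ 21650997 / 50000000 + (-37967701 / 20000000) * u + 2024677831961 / 1000000000000 * u ^ 2 + 70179275637 / 200000000000 * u ^ 3 + (-282620347257 / 1000000000000) * u ^ 4 + (-58588752889 / 1000000000000) * u ^ 5 + (-59 / 10000) * u ^ 6 := by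
  have x0 : 0 ≤ u - 1 / 2 := by linarith only [h0]
  have x1 : 0 ≤ 1 - u := by linarith only [h1]
  have e : 21650997 / 50000000 + (-37967701 / 20000000) * u + 2024677831961 / 1000000000000 * u ^ 2 + 70179275637 / 200000000000 * u ^ 3 + (-282620347257 / 1000000000000) * u ^ 4 + (-58588752889 / 1000000000000) * u ^ 5 + (-59 / 10000) * u ^ 6 =
      18268240041 / 2500000000 * (1 - u) ^ 9 +
      48563678227 / 390625000 * (u - 1 / 2) ^ 1 * (1 - u) ^ 8 +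
      31053344795797 / 31250000000 * (u - 1 / 2) ^ 2 * (1 - u) ^ 7 +
      63510646994023 / 15625000000 * (u - 1 / 2) ^ 3 * (1 - u) ^ 6 +
      596698212758889 / 62500000000 * (u - 1 / 2) ^ 4 * (1 - u) ^ 5 +
      215035462773179 / 15625000000 * (u - 1 / 2) ^ 5 * (1 - u) ^ 4 +
      194366800856461 / 15625000000 * (u - 1 / 2) ^ 6 * (1 - u) ^ 3 +
      2693815191701 / 390625000 * (u - 1 / 2) ^ 7 * (1 - u) ^ 2 +
      2097741351249 / 976562500 * (u - 1 / 2) ^ 8 * (1 - u) ^ 1 +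
      180192 / 625 * (u - 1 / 2) ^ 9 := by
    ring
  rw [e]
  positivity

private theorem suaq_E1 {u : ℝ} (h0 : 0 ≤ u) (h1 : u ≤ 1) :
    0 ≤ 21650997 / 50000000 + (-37967701 / 20000000) * u + 2024677831961 / 1000000000000 * u ^ 2 + 70179275637 / 200000000000 * u ^ 3 + (-282620347257 / 1000000000000) * u ^ 4 + (-58588752889 / 1000000000000) * u ^ 5 + (-59 / 10000) * u ^ 6 := by
  rcases le_total u (1 / 2 : ℝ) with k0 | g0
  · exact suaq_E1_0 h0 k0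
  exact suaq_E1_1 g0 h1

private theorem sua_E1 {u : ℝ} (h0 : 0 ≤ u) (h1 : u ≤ 1) :
    0 ≤ 24 / 100 * u ^ 2 - ((1 - u) * (u ^ 3 * (2 - u)) * (1 + u / 2 + u ^ 2 * (763 / 10000 + 59 / 10000 * u)) - 3231 / 10000 * (1 - (1 - u) * (1 + u / 2 + u ^ 2 * (763 / 10000 + 59 / 10000 * u)) ^ 2)) := by
  have h := mul_nonneg (sq_nonneg u) (suaq_E1 h0 h1)
  refine h.trans (le_of_eq ?_)
  ring

private theorem suaq_E2 {u : ℝ} (h0 : 0 ≤ u) (h1 : u ≤ 1) :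
    0 ≤ 53434 / 390625 + 5932557 / 3125000 * u + (-63269708779 / 31250000000) * u ^ 2 + (-10977761623 / 31250000000) * u ^ 3 + 8850656983 / 31250000000 * u ^ 4 + 1824648419 / 31250000000 * u ^ 5 + 59 / 10000 * u ^ 6 := by
  have x1 : 0 ≤ 1 - u := by linarith only [h1]
  have e : 53434 / 390625 + 5932557 / 3125000 * u + (-63269708779 / 31250000000) * u ^ 2 + (-10977761623 / 31250000000) * u ^ 3 + 8850656983 / 31250000000 * u ^ 4 + 1824648419 / 31250000000 * u ^ 5 + 59 / 10000 * u ^ 6 =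
      53434 / 390625 * (1 - u) ^ 6 +
      8497389 / 3125000 * u ^ 1 * (1 - u) ^ 5 +
      297478941221 / 31250000000 * u ^ 2 * (1 - u) ^ 4 +
      414693503261 / 31250000000 * u ^ 3 * (1 - u) ^ 3 +
      3170945243 / 390625000 * u ^ 4 * (1 - u) ^ 2 +
      139475031 / 78125000 * u ^ 5 * (1 - u) ^ 1 +
      17 / 2500 * u ^ 6 := by
    ring
  rw [e]
  positivity

private theorem sua_E2 {u : ℝ} (h0 : 0 ≤ u) (h1 : u ≤ 1) :
    0 ≤ 33 / 100 * u ^ 2 + ((1 - u) * (u ^ 3 * (2 - u)) * (1 + u / 2 + u ^ 2 * (761 / 10000 + 59 / 10000 * u)) - 3232 / 10000 * (1 - (1 - u) * (1 + u / 2 + u ^ 2 * (761 / 10000 + 59 / 10000 * u)) ^ 2)) := by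
  have h := mul_nonneg (sq_nonneg u) (suaq_E2 h0 h1)
  refine h.trans (le_of_eq ?_)
  ring

private theorem suaq_E3 {u : ℝ} (h0 : 0 ≤ u) (h1 : u ≤ 9 / 10) :
    0 ≤ 73111 / 1562500 + 5932557 / 3125000 * u + (-63269708779 / 31250000000) * u ^ 2 + (-10977761623 / 31250000000) * u ^ 3 + 8850656983 / 31250000000 * u ^ 4 + 1824648419 / 31250000000 * u ^ 5 + 59 / 10000 * u ^ 6 := by
  have x1 : 0 ≤ 9 / 10 - u := by linarith only [h1]
  have e : 73111 / 1562500 + 5932557 / 3125000 * u + (-63269708779 / 31250000000) * u ^ 2 + (-10977761623 / 31250000000) * u ^ 3 + 8850656983 / 31250000000 * u ^ 4 + 1824648419 / 31250000000 * u ^ 5 + 59 / 10000 * u ^ 6 =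
      1169776 / 13286025 * (9 / 10 - u) ^ 6 +
      82888444 / 22143375 * u ^ 1 * (9 / 10 - u) ^ 5 +
      7921663362967 / 553584375000 * u ^ 2 * (9 / 10 - u) ^ 4 +
      350177885332873 / 16607531250000 * u ^ 3 * (9 / 10 - u) ^ 3 +
      767237322370351 / 55358437500000 * u ^ 4 * (9 / 10 - u) ^ 2 +
      1980914420818897 / 553584375000000 * u ^ 5 * (9 / 10 - u) ^ 1 +
      258631779169961 / 1660753125000000 * u ^ 6 := by
    ring
  rw [e]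
  positivity

private theorem sua_E3 {u : ℝ} (h0 : 0 ≤ u) (h1 : u ≤ 9 / 10) :
    0 ≤ 24 / 100 * u ^ 2 + ((1 - u) * (u ^ 3 * (2 - u)) * (1 + u / 2 + u ^ 2 * (761 / 10000 + 59 / 10000 * u)) - 3232 / 10000 * (1 - (1 - u) * (1 + u / 2 + u ^ 2 * (761 / 10000 + 59 / 10000 * u)) ^ 2)) := by
  have h := mul_nonneg (sq_nonneg u) (suaq_E3 h0 h1)
  refine h.trans (le_of_eq ?_)
  ring

private theorem suaq_X {u : ℝ} (h0 : 0 ≤ u) (h1 : u ≤ 1) :
    0 ≤ 2987 / 5000 + 629 / 2000 * u + 7637831 / 100000000 * u ^ 2 + 216427 / 20000000 * u ^ 3 + 86553 / 100000000 * u ^ 4 + 3481 / 100000000 * u ^ 5 := by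
  have x1 : 0 ≤ 1 - u := by linarith only [h1]
  have e : 2987 / 5000 + 629 / 2000 * u + 7637831 / 100000000 * u ^ 2 + 216427 / 20000000 * u ^ 3 + 86553 / 100000000 * u ^ 4 + 3481 / 100000000 * u ^ 5 =
      2987 / 5000 * (1 - u) ^ 5 +
      6603 / 2000 * u ^ 1 * (1 - u) ^ 4 +
      730837831 / 100000000 * u ^ 2 * (1 - u) ^ 3 +
      202523907 / 25000000 * u ^ 3 * (1 - u) ^ 2 +
      112416079 / 25000000 * u ^ 4 * (1 - u) ^ 1 +
      1 * u ^ 5 := by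
    ring
  rw [e]
  positivity

private theorem sua_X {u : ℝ} (h0 : 0 ≤ u) (h1 : u ≤ 1) :
    0 ≤ 1 - (1 - u) * (1 + u / 2 + u ^ 2 * (763 / 10000 + 59 / 10000 * u)) ^ 2 := by
  have h := mul_nonneg (sq_nonneg u) (suaq_X h0 h1)
  refine h.trans (le_of_eq ?_)
  ring


private theorem sua_R {u : ℝ} (h0 : 0 ≤ u) (h1 : u ≤ 1) {s : ℝ} (hs : s = 1 - u) :
    √s ≤ (1 - u / 2 - u ^ 2 / 8 - u ^ 3 / 16 - 5 * u ^ 4 / 128) := by
  rw [hs]
  have hp : 0 ≤ (1 - u / 2 - u ^ 2 / 8 - u ^ 3 / 16 - 5 * u ^ 4 / 128) := by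
    have h2 : u ^ 2 ≤ 1 := pow_le_one₀ h0 h1
    have h3 : u ^ 3 ≤ 1 := pow_le_one₀ h0 h1
    have h4 : u ^ 4 ≤ 1 := pow_le_one₀ h0 h1
    linarith
  refine Real.sqrt_le_iff.2 ⟨hp, ?_⟩
  have e : (1 - u / 2 - u ^ 2 / 8 - u ^ 3 / 16 - 5 * u ^ 4 / 128) ^ 2 = 1 - u + u ^ 5 * (7 / 128 + 7 / 512 * u + 5 / 1024 * u ^ 2 + 25 / 16384 * u ^ 3) := by
    ring
  rw [e]
  have h5 : 0 ≤ u ^ 5 * (7 / 128 + 7 / 512 * u + 5 / 1024 * u ^ 2 + 25 / 16384 * u ^ 3) := by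
    positivity
  linarith

private theorem sua_phi (d : Dat K L φ ψ χ ω) {s u : ℝ} (hs : s ∈ Icc (0 : ℝ) 1) (hu : u = 1 - s) :
    (1 + u / 2 + u ^ 2 * (761 / 10000 + 59 / 10000 * u)) ≤ φ s ∧ φ s ≤ (1 + u / 2 + u ^ 2 * (763 / 10000 + 59 / 10000 * u)) := by
  have h := abs_le.1 (d.enc.phi s hs)
  rw [← hu] at h
  constructor
  · have h1 := h.1
    have e : (1 + u / 2 + u ^ 2 * (761 / 10000 + 59 / 10000 * u)) = 1 + u / 2 + u ^ 2 * (762 / 10000 + 59 / 10000 * u) - 1 / 10000 * u ^ 2 := by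
      ring
    rw [e]
    linarith
  · have h1 := h.2
    have e : (1 + u / 2 + u ^ 2 * (763 / 10000 + 59 / 10000 * u)) = 1 + u / 2 + u ^ 2 * (762 / 10000 + 59 / 10000 * u) + 1 / 10000 * u ^ 2 := by
      ring
    rw [e]
    linarith

private theorem sua_chi (d : Dat K L φ ψ χ ω) {s u : ℝ} (hs : s ∈ Icc (0 : ℝ) 1) (hu : u = 1 - s) :
    (1 + u + u ^ 2 * (3339 / 10000 + 563 / 10000 * u + 65 / 10000 * u ^ 2)) ≤ χ s ∧ χ s ≤ (1 + u + u ^ 2 * (3341 / 10000 + 563 / 10000 * u + 65 / 10000 * u ^ 2)) := by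
  have h := abs_le.1 (d.enc.chi s hs)
  rw [← hu] at h
  constructor
  · have h1 := h.1
    have e : (1 + u + u ^ 2 * (3339 / 10000 + 563 / 10000 * u + 65 / 10000 * u ^ 2)) = 1 + u + u ^ 2 * (334 / 1000 + 563 / 10000 * u + 65 / 10000 * u ^ 2)
        - 1 / 10000 * u ^ 2 := by
      ring
    rw [e]
    linarith
  · have h1 := h.2
    have e : (1 + u + u ^ 2 * (3341 / 10000 + 563 / 10000 * u + 65 / 10000 * u ^ 2)) = 1 + u + u ^ 2 * (334 / 1000 + 563 / 10000 * u + 65 / 10000 * u ^ 2)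
        + 1 / 10000 * u ^ 2 := by
      ring
    rw [e]
    linarith

theorem u_E (d : Dat K L φ ψ χ ω) {s : ℝ} (hs : s ∈ Icc (0 : ℝ) 1) :
    |s * et s * φ s - a0 K φ * (1 - s * φ s ^ 2)| ≤ 33 / 100 * (1 - s) ^ 2 ∧
      (1 / 10 ≤ s → |s * et s * φ s - a0 K φ * (1 - s * φ s ^ 2)| ≤ 24 / 100 * (1 - s) ^ 2) := by
  obtain ⟨u, hu⟩ : ∃ u : ℝ, u = 1 - s := ⟨_, rfl⟩
  obtain ⟨hf1, hf2⟩ := sua_phi d hs hu
  obtain ⟨a1, a2⟩ := a0_bd d
  have hsu : s = 1 - u := by linarith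
  have hu0 : 0 ≤ u := by linarith [hs.2]
  have hu1 : u ≤ 1 := by linarith [hs.1]
  have het : et s = u ^ 3 * (2 - u) := by
    rw [et, if_pos hs.2, hu]
    ring
  have hw : 0 ≤ (1 - u) * (u ^ 3 * (2 - u)) := by
    have x1 : 0 ≤ 1 - u := by linarith
    have x2 : 0 ≤ 2 - u := by linarith
    positivity
  rw [← hu, het, hsu]
  rw [hsu] at hf1 hf2
  obtain ⟨f, hf⟩ : ∃ f : ℝ, f = φ (1 - u) := ⟨_, rfl⟩
  obtain ⟨A, hA⟩ : ∃ A : ℝ, A = a0 K φ := ⟨_, rfl⟩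
  rw [← hf] at hf1 hf2 ⊢
  rw [← hA] at a1 a2 ⊢
  obtain ⟨fl, hfl⟩ : ∃ fl : ℝ, fl = (1 + u / 2 + u ^ 2 * (761 / 10000 + 59 / 10000 * u)) := ⟨_, rfl⟩
  obtain ⟨fh, hfh⟩ : ∃ fh : ℝ, fh = (1 + u / 2 + u ^ 2 * (763 / 10000 + 59 / 10000 * u)) := ⟨_, rfl⟩
  have hE1 := sua_E1 hu0 hu1
  have hE2 := sua_E2 hu0 hu1
  have hX := sua_X hu0 hu1
  rw [← hfh] at hf2 hE1 hX
  have hE3 : u ≤ 9 / 10 → 0 ≤ 24 / 100 * u ^ 2 + ((1 - u) * (u ^ 3 * (2 - u)) * fl -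
      3232 / 10000 * (1 - (1 - u) * fl ^ 2)) := by
    intro h
    have h3 := sua_E3 hu0 h
    rw [← hfl] at h3
    exact h3
  rw [← hfl] at hf1 hE2
  have hfl0 : 0 ≤ fl := by
    rw [hfl]
    positivity
  have hv0 : 0 ≤ 1 - u := by linarith
  have q1 : fl ^ 2 ≤ f ^ 2 := pow_le_pow_left₀ hfl0 hf1 2
  have q2 : f ^ 2 ≤ fh ^ 2 := pow_le_pow_left₀ (hfl0.trans hf1) hf2 2
  have q3 := mul_le_mul_of_nonneg_left q1 hv0
  have q4 := mul_le_mul_of_nonneg_left q2 hv0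
  have q5 := mul_le_mul_of_nonneg_left hf1 hw
  have q6 := mul_le_mul_of_nonneg_left hf2 hw
  have hX0 : 0 ≤ 1 - (1 - u) * f ^ 2 := by linarith
  have q7 : 3231 / 10000 * (1 - (1 - u) * f ^ 2) ≤ A * (1 - (1 - u) * f ^ 2) :=
    mul_le_mul_of_nonneg_right a1.le hX0
  have q8 : A * (1 - (1 - u) * f ^ 2) ≤ 3232 / 10000 * (1 - (1 - u) * f ^ 2) :=
    mul_le_mul_of_nonneg_right a2.le hX0
  have hu2 : 0 ≤ u ^ 2 := sq_nonneg u
  constructor
  · rw [abs_le]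
    constructor <;> linarith
  · intro h10
    have h4 := hE3 (by linarith)
    rw [abs_le]
    constructor <;> linarith

theorem u_D (d : Dat K L φ ψ χ ω) {s : ℝ} (hs : s ∈ Icc (0 : ℝ) 1) :
    0 ≤ √s * φ s * (1 - s * χ s) ∧ √s * φ s * (1 - s * χ s) ≤ 74 / 100 * (1 - s) ^ 2 := by
  obtain ⟨u, hu⟩ : ∃ u : ℝ, u = 1 - s := ⟨_, rfl⟩
  obtain ⟨hf1, hf2⟩ := sua_phi d hs hu
  obtain ⟨hg1, hg2⟩ := sua_chi d hs hu
  have hsu : s = 1 - u := by linarith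
  have hu0 : 0 ≤ u := by linarith [hs.2]
  have hu1 : u ≤ 1 := by linarith [hs.1]
  have hφ1 := d.prof.one_le s hs
  have hχ := d.prof2.le s hs
  have hr0 := Real.sqrt_nonneg s
  have hX : 0 ≤ 1 - s * χ s := by
    have := sq_nonneg (1 - s)
    linarith
  have h1 : 0 ≤ √s * φ s := mul_nonneg hr0 (by linarith)
  refine ⟨mul_nonneg h1 hX, ?_⟩
  rw [← hu]
  have hR := sua_R hu0 hu1 hsu
  have h2 : √s * φ s ≤ (1 - u / 2 - u ^ 2 / 8 - u ^ 3 / 16 - 5 * u ^ 4 / 128) * (1 + u / 2 + u ^ 2 * (763 / 10000 + 59 / 10000 * u)) :=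
    mul_le_mul hR hf2 (by linarith) (hr0.trans hR)
  have h3 : 1 - s * χ s ≤ 1 - (1 - u) * (1 + u + u ^ 2 * (3339 / 10000 + 563 / 10000 * u + 65 / 10000 * u ^ 2)) := by
    have h4 := mul_le_mul_of_nonneg_left hg1 hs.1
    rw [hsu] at h4 ⊢
    linarith
  have h5 := mul_le_mul h2 h3 hX (h1.trans h2)
  have h6 := sua_D hu0 hu1
  linarith

theorem u_M (d : Dat K L φ ψ χ ω) {s : ℝ} (hs : s ∈ Icc (0 : ℝ) 1) :
    s * |χ s - φ s ^ 2| ≤ 7 / 100 * (1 - s) ^ 2 := by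
  obtain ⟨u, hu⟩ : ∃ u : ℝ, u = 1 - s := ⟨_, rfl⟩
  obtain ⟨hf1, hf2⟩ := sua_phi d hs hu
  obtain ⟨hg1, hg2⟩ := sua_chi d hs hu
  have hsu : s = 1 - u := by linarith
  have hu0 : 0 ≤ u := by linarith [hs.2]
  have hu1 : u ≤ 1 := by linarith [hs.1]
  have hφ1 := d.prof.one_le s hs
  rw [← hu]
  have hfl0 : 0 ≤ (1 + u / 2 + u ^ 2 * (761 / 10000 + 59 / 10000 * u)) := by positivity
  have q1 := pow_le_pow_left₀ hfl0 hf1 2
  have q2 := pow_le_pow_left₀ (hfl0.trans hf1) hf2 2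
  have e : s * |χ s - φ s ^ 2| = |s * (χ s - φ s ^ 2)| := by
    rw [abs_mul, abs_of_nonneg hs.1]
  rw [e, abs_le]
  have m1 := sua_M1 hu0 hu1
  have m2 := sua_M2 hu0 hu1
  constructor
  · have h4 : s * ((1 + u + u ^ 2 * (3339 / 10000 + 563 / 10000 * u + 65 / 10000 * u ^ 2)) - (1 + u / 2 + u ^ 2 * (763 / 10000 + 59 / 10000 * u)) ^ 2) ≤ s * (χ s - φ s ^ 2) :=
      mul_le_mul_of_nonneg_left (by linarith) hs.1
    have h5 : s * ((1 + u + u ^ 2 * (3339 / 10000 + 563 / 10000 * u + 65 / 10000 * u ^ 2)) - (1 + u / 2 + u ^ 2 * (763 / 10000 + 59 / 10000 * u)) ^ 2) = (1 - u) * ((1 + u + u ^ 2 * (3339 / 10000 + 563 / 10000 * u + 65 / 10000 * u ^ 2)) - (1 + u / 2 + u ^ 2 * (763 / 10000 + 59 / 10000 * u)) ^ 2) := by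
      rw [hsu]
    linarith
  · have h4 : s * (χ s - φ s ^ 2) ≤ s * ((1 + u + u ^ 2 * (3341 / 10000 + 563 / 10000 * u + 65 / 10000 * u ^ 2)) - (1 + u / 2 + u ^ 2 * (761 / 10000 + 59 / 10000 * u)) ^ 2) :=
      mul_le_mul_of_nonneg_left (by linarith) hs.1
    have h5 : s * ((1 + u + u ^ 2 * (3341 / 10000 + 563 / 10000 * u + 65 / 10000 * u ^ 2)) - (1 + u / 2 + u ^ 2 * (761 / 10000 + 59 / 10000 * u)) ^ 2) = (1 - u) * ((1 + u + u ^ 2 * (3341 / 10000 + 563 / 10000 * u + 65 / 10000 * u ^ 2)) - (1 + u / 2 + u ^ 2 * (761 / 10000 + 59 / 10000 * u)) ^ 2) := by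
      rw [hsu]
    linarith

end Pool.Agent.FND
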