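import Pool.Agent.FND.Defs
import Pool.Agent.FND.SDef
import Pool.Agent.FND.Cst

/-!
FND-SUb: univariate estimate for `ep`.

Plan.  ep is affine in x: check x = ±.573.  With ζ = et + a0 φ, zp = et + 2 s etd + a0 gd, the value is a polynomial in u up to
Enc errors; lower bound -(7/2) u⁵; all lower orders cancel or are positive: at order u²: expand; slack .008 u.
Write G = gd = u(...), X = 1 - sφ² = u²(...).  (1/2 - x/2)(zp² - a0² X) + (1/2+x/2)(ζ² - a0²(2 - X)/... ) as in SDef.
-/

set_option autoImplicit false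

open MeasureTheory Set
open Pool.Agent.Neu
open Pool.Agent.CS4 (Prof2 bb vv eV)

namespace Pool.Agent.FND

variable {K L : ℝ} {φ ψ χ ω : ℝ → ℝ}

private noncomputable def nomF (x A G a L u : ℝ) : ℝ :=
  (1 / 2 - x / 2) * (u ^ 2 * (-12 + 22 * u - 9 * u ^ 2) + a * G) ^ 2
    + (1 / 2 + x / 2) * (u ^ 3 * (2 - u) + a * A) ^ 2
    - a ^ 2 / 2 * ((1 / 2 - x / 2) * (1 - (1 - u) * A ^ 2)
      + (1 / 2 + x / 2) * (2 - (1 - (1 - u) * A ^ 2)))
    - L / 2 * ((1 - u) * (u ^ 3 * (2 - u)) ^ 2 + 2 * a * ((1 - u) * (u ^ 3 * (2 - u)) * A)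
      - a ^ 2 * (1 - (1 - u) * A ^ 2))

private theorem sub_bern {b0 b1 b2 b3 b4 b5 b6 b7 b8 v w : ℝ} (hv : 0 ≤ v) (hw : 0 ≤ w)
    (h0 : 0 ≤ b0) (h1 : 0 ≤ b1) (h2 : 0 ≤ b2) (h3 : 0 ≤ b3) (h4 : 0 ≤ b4) (h5 : 0 ≤ b5)
    (h6 : 0 ≤ b6) (h7 : 0 ≤ b7) (h8 : 0 ≤ b8) :
    0 ≤ b0 * w ^ 8 + b1 * (v * w ^ 7) + b2 * (v ^ 2 * w ^ 6) + b3 * (v ^ 3 * w ^ 5)
      + b4 * (v ^ 4 * w ^ 4) + b5 * (v ^ 5 * w ^ 3) + b6 * (v ^ 6 * w ^ 2) + b7 * (v ^ 7 * w)
      + b8 * v ^ 8 := by
  positivity

private theorem sub_qm0 {u : ℝ} (h1 : 0 ≤ u) (h2 : u ≤ 17 / 50) :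
    0 ≤ 15435947563 / 800000000000 + 63911214943420033 / 160000000000000000 * u
       - 5131413838085090787 / 400000000000000000 * u ^ 2 + 52235903829945939670737 / 400000000000000000000 * u ^ 3
       - 82521825236792732196517 / 200000000000000000000 * u ^ 4 + 33968493321073460116781 / 64000000000000000000 * u ^ 5
       - 440573435427187380394677 / 1600000000000000000000 * u ^ 6 + 162325358831261 / 4000000000000 * u ^ 7
       + 186567 / 40000 * u ^ 8 := by
  have h := sub_bern (b0 := 48237336134375 / 446448476224)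
    (b1 := 2321366459078140561 / 1428635123916800)
    (b2 := 994860972722719179 / 22322423811200000)
    (b3 := 8369130567552979000680881 / 8928969524480000000000)
    (b4 := 626409108476750613177320471 / 27903029764000000000000)
    (b5 := 157149660822839200090396877469 / 3571587809792000000000000)
    (b6 := 155018401929750343600584280028537 / 4464484762240000000000000000)
    (b7 := 13877593631117779448535348122081 / 1116121190560000000000000000)
    (b8 := 7481904317712981867847374436037 / 4464484762240000000000000000)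
    (sub_nonneg.2 h1) (sub_nonneg.2 h2) (by norm_num) (by norm_num) (by norm_num) (by norm_num)
    (by norm_num) (by norm_num) (by norm_num) (by norm_num) (by norm_num)
  refine h.trans (le_of_eq ?_)
  ring

private theorem sub_qm1 {u : ℝ} (h1 : 17 / 50 ≤ u) (h2 : u ≤ 31 / 50) :
    0 ≤ 15435947563 / 800000000000 + 63911214943420033 / 160000000000000000 * u
       - 5131413838085090787 / 400000000000000000 * u ^ 2 + 52235903829945939670737 / 400000000000000000000 * u ^ 3
       - 82521825236792732196517 / 200000000000000000000 * u ^ 4 + 33968493321073460116781 / 64000000000000000000 * u ^ 5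
       - 440573435427187380394677 / 1600000000000000000000 * u ^ 6 + 162325358831261 / 4000000000000 * u ^ 7
       + 186567 / 40000 * u ^ 8 := by
  have h := sub_bern (b0 := 1068843473958997409692482062291 / 134929285120000000000000000)
    (b1 := 56636923710621000740975281791 / 843308032000000000000000)
    (b2 := 79526983508414366907036074721 / 344207360000000000000000)
    (b3 := 992156593011779490349010756473 / 2409451520000000000000000)
    (b4 := 773173523382867606780679800389 / 1927561216000000000000000)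
    (b5 := 245885332464712542639203259129 / 1204725760000000000000000)
    (b6 := 760761710728046282766226367 / 17210368000000000000000)
    (b7 := 23317518750019098358023912487 / 16866160640000000000000000)
    (b8 := 19064264039349147770179673959 / 134929285120000000000000000)
    (sub_nonneg.2 h1) (sub_nonneg.2 h2) (by norm_num) (by norm_num) (by norm_num) (by norm_num)
    (by norm_num) (by norm_num) (by norm_num) (by norm_num) (by norm_num)
  refine h.trans (le_of_eq ?_)
  ring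

private theorem sub_qm2 {u : ℝ} (h1 : 31 / 50 ≤ u) (h2 : u ≤ 1) :
    0 ≤ 15435947563 / 800000000000 + 63911214943420033 / 160000000000000000 * u
       - 5131413838085090787 / 400000000000000000 * u ^ 2 + 52235903829945939670737 / 400000000000000000000 * u ^ 3
       - 82521825236792732196517 / 200000000000000000000 * u ^ 4 + 33968493321073460116781 / 64000000000000000000 * u ^ 5
       - 440573435427187380394677 / 1600000000000000000000 * u ^ 6 + 162325358831261 / 4000000000000 * u ^ 7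
       + 186567 / 40000 * u ^ 8 := by
  have h := sub_bern (b0 := 133449848275444034391257717713 / 10869480346240000000000000000)
    (b1 := 93043928524079503806737451697 / 1358685043280000000000000000)
    (b2 := 68418608746718190842773839859013 / 10869480346240000000000000000)
    (b3 := 9935859151371225940153555059963 / 217389606924800000000000000)
    (b4 := 298192082102608288789126244107 / 2173896069248000000000000)
    (b5 := 9300624403198734626065616237 / 43477921384960000000000)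
    (b6 := 316729618658210459435778453 / 1739116855398400000000)
    (b7 := 2789504294544903638610603 / 34782337107968000000)
    (b8 := 497253162490763040883 / 34782337107968000)
    (sub_nonneg.2 h1) (sub_nonneg.2 h2) (by norm_num) (by norm_num) (by norm_num) (by norm_num)
    (by norm_num) (by norm_num) (by norm_num) (by norm_num) (by norm_num)
  refine h.trans (le_of_eq ?_)
  ring

private theorem sub_qm {u : ℝ} (h1 : 0 ≤ u) (h2 : u ≤ 1) :
    0 ≤ 15435947563 / 800000000000 + 63911214943420033 / 160000000000000000 * u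
       - 5131413838085090787 / 400000000000000000 * u ^ 2 + 52235903829945939670737 / 400000000000000000000 * u ^ 3
       - 82521825236792732196517 / 200000000000000000000 * u ^ 4 + 33968493321073460116781 / 64000000000000000000 * u ^ 5
       - 440573435427187380394677 / 1600000000000000000000 * u ^ 6 + 162325358831261 / 4000000000000 * u ^ 7
       + 186567 / 40000 * u ^ 8 := by
  rcases le_total u (34 / 100) with h | h
  · exact sub_qm0 h1 (by norm_num at h ⊢; exact h)
  · rcases le_total u (62 / 100) with h' | h'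
    · exact sub_qm1 (by norm_num at h ⊢; exact h) (by norm_num at h' ⊢; exact h')
    · exact sub_qm2 (by norm_num at h' ⊢; exact h') h2

private theorem sub_nm {u : ℝ} (h1 : 0 ≤ u) (h2 : u ≤ 1) :
    3 / 1000 * u - 7 / 2 * u ^ 5 ≤ nomF (-(573 / 1000)) (1 + u / 2 + u ^ 2 * (762 / 10000 + 59 / 10000 * u))
      (u * (1195 / 1000 + 3462 / 10000 * u + 408 / 10000 * u ^ 2)) (32315 / 100000)
      (932835 / 100000) u := by
  have h := mul_nonneg h1 (sub_qm h1 h2)
  have e : nomF (-(573 / 1000)) (1 + u / 2 + u ^ 2 * (762 / 10000 + 59 / 10000 * u))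
      (u * (1195 / 1000 + 3462 / 10000 * u + 408 / 10000 * u ^ 2)) (32315 / 100000)
      (932835 / 100000) u - (3 / 1000 * u - 7 / 2 * u ^ 5) = u * (15435947563 / 800000000000 + 63911214943420033 / 160000000000000000 * u
       - 5131413838085090787 / 400000000000000000 * u ^ 2 + 52235903829945939670737 / 400000000000000000000 * u ^ 3
       - 82521825236792732196517 / 200000000000000000000 * u ^ 4 + 33968493321073460116781 / 64000000000000000000 * u ^ 5
       - 440573435427187380394677 / 1600000000000000000000 * u ^ 6 + 162325358831261 / 4000000000000 * u ^ 7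
       + 186567 / 40000 * u ^ 8) := by
    unfold nomF
    ring
  rw [← e] at h
  linarith

private theorem sub_qp0 {u : ℝ} (h1 : 0 ≤ u) (h2 : u ≤ 61 / 100) :
    0 ≤ 63304790437 / 800000000000 + 59813402649191263 / 160000000000000000 * u
       - 2721110171615401653 / 400000000000000000 * u ^ 2 + 15949017705275175296457 / 400000000000000000000 * u ^ 3
       - 21770242362115909486897 / 200000000000000000000 * u ^ 4 + 42479129240668963308097 / 320000000000000000000 * u ^ 5
       - 80973751785966539506797 / 1600000000000000000000 * u ^ 6 - 21034641168739 / 4000000000000 * u ^ 7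
       + 186567 / 40000 * u ^ 8 := by
  have h := sub_bern (b0 := 791309880462500 / 191707312997281)
    (b1 := 13777384031520667043 / 306731700795649600)
    (b2 := 5122500445400257774437 / 76682925198912400000)
    (b3 := 1233031770688869031052306317 / 7668292519891240000000000)
    (b4 := 114620263104155801485584133873 / 383414625994562000000000000)
    (b5 := 10290734121567590732104789867917 / 61346340159129920000000000000)
    (b6 := 220283243803528309237175478803783 / 30673170079564960000000000000000)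
    (b7 := 210298553665495277866686289546033 / 15336585039782480000000000000000)
    (b8 := 453380635908088109744286592406783 / 30673170079564960000000000000000)
    (sub_nonneg.2 h1) (sub_nonneg.2 h2) (by norm_num) (by norm_num) (by norm_num) (by norm_num)
    (by norm_num) (by norm_num) (by norm_num) (by norm_num) (by norm_num)
  refine h.trans (le_of_eq ?_)
  ring

private theorem sub_qp1 {u : ℝ} (h1 : 61 / 100 ≤ u) (h2 : u ≤ 1) :
    0 ≤ 63304790437 / 800000000000 + 59813402649191263 / 160000000000000000 * u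
       - 2721110171615401653 / 400000000000000000 * u ^ 2 + 15949017705275175296457 / 400000000000000000000 * u ^ 3
       - 21770242362115909486897 / 200000000000000000000 * u ^ 4 + 42479129240668963308097 / 320000000000000000000 * u ^ 5
       - 80973751785966539506797 / 1600000000000000000000 * u ^ 6 - 21034641168739 / 4000000000000 * u ^ 7
       + 186567 / 40000 * u ^ 8 := by
  have h := sub_bern (b0 := 453380635908088109744286592406783 / 856321481676960000000000000000)
    (b1 := 2838534602791490623949407732301933 / 428160740838480000000000000000)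
    (b2 := 31120485847340444803877699104527383 / 856321481676960000000000000000)
    (b3 := 962214359855167942335028574148703 / 8563214816769600000000000000)
    (b4 := 9094468818730288643537622791827 / 42816074083848000000000000)
    (b5 := 106974904964775217585022888477 / 428160740838480000000000)
    (b6 := 1523062847832947993310360383 / 8563214816769600000000)
    (b7 := 5986237128221250217139503 / 85632148167696000000)
    (b8 := 497257639748020417117 / 42816074083848000)
    (sub_nonneg.2 h1) (sub_nonneg.2 h2) (by norm_num) (by norm_num) (by norm_num) (by norm_num)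
    (by norm_num) (by norm_num) (by norm_num) (by norm_num) (by norm_num)
  refine h.trans (le_of_eq ?_)
  ring

private theorem sub_qp {u : ℝ} (h1 : 0 ≤ u) (h2 : u ≤ 1) :
    0 ≤ 63304790437 / 800000000000 + 59813402649191263 / 160000000000000000 * u
       - 2721110171615401653 / 400000000000000000 * u ^ 2 + 15949017705275175296457 / 400000000000000000000 * u ^ 3
       - 21770242362115909486897 / 200000000000000000000 * u ^ 4 + 42479129240668963308097 / 320000000000000000000 * u ^ 5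
       - 80973751785966539506797 / 1600000000000000000000 * u ^ 6 - 21034641168739 / 4000000000000 * u ^ 7
       + 186567 / 40000 * u ^ 8 := by
  rcases le_total u (61 / 100) with h | h
  · exact sub_qp0 h1 (by norm_num at h ⊢; exact h)
  · exact sub_qp1 (by norm_num at h ⊢; exact h) h2

private theorem sub_np {u : ℝ} (h1 : 0 ≤ u) (h2 : u ≤ 1) :
    3 / 1000 * u - 7 / 2 * u ^ 5 ≤ nomF (573 / 1000) (1 + u / 2 + u ^ 2 * (762 / 10000 + 59 / 10000 * u))
      (u * (1195 / 1000 + 3462 / 10000 * u + 408 / 10000 * u ^ 2)) (32315 / 100000)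
      (932835 / 100000) u := by
  have h := mul_nonneg h1 (sub_qp h1 h2)
  have e : nomF (573 / 1000) (1 + u / 2 + u ^ 2 * (762 / 10000 + 59 / 10000 * u))
      (u * (1195 / 1000 + 3462 / 10000 * u + 408 / 10000 * u ^ 2)) (32315 / 100000)
      (932835 / 100000) u - (3 / 1000 * u - 7 / 2 * u ^ 5) = u * (63304790437 / 800000000000 + 59813402649191263 / 160000000000000000 * u
       - 2721110171615401653 / 400000000000000000 * u ^ 2 + 15949017705275175296457 / 400000000000000000000 * u ^ 3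
       - 21770242362115909486897 / 200000000000000000000 * u ^ 4 + 42479129240668963308097 / 320000000000000000000 * u ^ 5
       - 80973751785966539506797 / 1600000000000000000000 * u ^ 6 - 21034641168739 / 4000000000000 * u ^ 7
       + 186567 / 40000 * u ^ 8) := by
    unfold nomF
    ring
  rw [← e] at h
  linarith

private theorem sub_mulbd {x y b c : ℝ} (hx : |x| ≤ b) (hy : |y| ≤ c) : |x * y| ≤ b * c := by
  rw [abs_mul]
  exact mul_le_mul hx hy (abs_nonneg _) ((abs_nonneg _).trans hx)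

private theorem sub_A0 {u : ℝ} (hu0 : 0 ≤ u) (hu1 : u ≤ 1) :
    0 ≤ (1 + u / 2 + u ^ 2 * (762 / 10000 + 59 / 10000 * u)) - 1 ∧
      (1 + u / 2 + u ^ 2 * (762 / 10000 + 59 / 10000 * u)) - 1 ≤ 5821 / 10000 * u := by
  have h2 : u ^ 2 ≤ u := by nlinarith
  have h3 : u ^ 3 ≤ u := by nlinarith [sq_nonneg u]
  have h4 : 0 ≤ u ^ 2 := by positivity
  have h5 : 0 ≤ u ^ 3 := by positivity
  have e : u ^ 2 * (762 / 10000 + 59 / 10000 * u) = 762 / 10000 * u ^ 2 + 59 / 10000 * u ^ 3 := by ring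
  rw [e]
  constructor <;> linarith

private theorem sub_G0 {u : ℝ} (hu0 : 0 ≤ u) (hu1 : u ≤ 1) :
    0 ≤ u * (1195 / 1000 + 3462 / 10000 * u + 408 / 10000 * u ^ 2) ∧
      u * (1195 / 1000 + 3462 / 10000 * u + 408 / 10000 * u ^ 2) ≤ 1582 / 1000 * u := by
  have h2 : u ^ 2 ≤ u := by nlinarith
  have h3 : u ^ 3 ≤ u := by nlinarith [sq_nonneg u]
  have h4 : 0 ≤ u ^ 2 := by positivity
  have h5 : 0 ≤ u ^ 3 := by positivity
  have e : u * (1195 / 1000 + 3462 / 10000 * u + 408 / 10000 * u ^ 2) =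
      1195 / 1000 * u + 3462 / 10000 * u ^ 2 + 408 / 10000 * u ^ 3 := by ring
  rw [e]
  constructor <;> linarith

private theorem sub_E {u : ℝ} (hu0 : 0 ≤ u) (hu1 : u ≤ 1) :
    0 ≤ u ^ 3 * (2 - u) ∧ u ^ 3 * (2 - u) ≤ u := by
  constructor
  · exact mul_nonneg (pow_nonneg hu0 3) (by linarith)
  · have h : 0 ≤ (1 - u) * (1 + u - u ^ 2) := mul_nonneg (by linarith) (by nlinarith)
    have h2 := mul_nonneg hu0 h
    have e : u * ((1 - u) * (1 + u - u ^ 2)) = u - u ^ 3 * (2 - u) := by ring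
    rw [e] at h2
    linarith

private theorem sub_P {u : ℝ} (hu0 : 0 ≤ u) (hu1 : u ≤ 1) :
    |u ^ 2 * (-12 + 22 * u - 9 * u ^ 2)| ≤ 1 := by
  have h1 : u ^ 2 ≤ 1 := by nlinarith
  rw [abs_le]
  constructor
  · nlinarith [sq_nonneg (u * (u - 1 / 2)), sq_nonneg (u - 1 / 2), mul_nonneg hu0 (sub_nonneg.2 hu1),
      mul_nonneg (mul_nonneg hu0 hu0) (sub_nonneg.2 hu1), sq_nonneg (u ^ 2 - 1 / 4),
      mul_nonneg (mul_nonneg hu0 (sub_nonneg.2 hu1)) (sq_nonneg (u - 1 / 2))]
  · have h : -12 + 22 * u - 9 * u ^ 2 ≤ 1 := by nlinarith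
    nlinarith [mul_nonneg (sq_nonneg u) (sub_nonneg.2 h)]

private theorem sub_pert {x A G a L u A0 G0 : ℝ} (hu0 : 0 ≤ u) (hu1 : u ≤ 1) (hx : |x| ≤ 1)
    (hA0 : A0 = 1 + u / 2 + u ^ 2 * (762 / 10000 + 59 / 10000 * u))
    (hG0 : G0 = u * (1195 / 1000 + 3462 / 10000 * u + 408 / 10000 * u ^ 2))
    (hA : |A - A0| ≤ 1 / 10000 * u ^ 2) (hG : |G - G0| ≤ 2 / 10000 * u)
    (ha : |a - 32315 / 100000| ≤ 5 / 100000) (hL : |L - 932835 / 100000| ≤ 5 / 100000) :
    nomF x A0 G0 (32315 / 100000) (932835 / 100000) u - 3 / 1000 * u ≤ nomF x A G a L u := by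
  obtain ⟨a1, ha1⟩ : ∃ a1 : ℝ, a1 = 32315 / 100000 := ⟨_, rfl⟩
  obtain ⟨L1, hL1⟩ : ∃ L1 : ℝ, L1 = 932835 / 100000 := ⟨_, rfl⟩
  obtain ⟨hA1, hA2⟩ := sub_A0 hu0 hu1
  obtain ⟨hG1, hG2⟩ := sub_G0 hu0 hu1
  obtain ⟨hE1, hE2⟩ := sub_E hu0 hu1
  have hP := sub_P hu0 hu1
  rw [← hA0] at hA1 hA2
  rw [← hG0] at hG1 hG2
  rw [← ha1] at ha ⊢
  rw [← hL1] at hL ⊢
  obtain ⟨E, hE⟩ : ∃ E : ℝ, E = u ^ 3 * (2 - u) := ⟨_, rfl⟩
  obtain ⟨P, hPe⟩ : ∃ P : ℝ, P = u ^ 2 * (-12 + 22 * u - 9 * u ^ 2) := ⟨_, rfl⟩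
  unfold nomF
  rw [← hE] at hE1 hE2 ⊢
  rw [← hPe] at hP ⊢
  clear hA0 hG0 hE hPe
  have hu2 : u ^ 2 ≤ u := by nlinarith
  have hA' : |A - A0| ≤ 1 / 10000 * u := hA.trans (by linarith)
  have ha_abs : |a| ≤ 3232 / 10000 := by
    rw [abs_le] at ha ⊢
    rw [ha1] at ha
    constructor <;> linarith [ha.1, ha.2]
  have ha1_abs : |a1| ≤ 32315 / 100000 := by rw [ha1, abs_of_pos (by norm_num)]
  have hA0abs : |A0| ≤ 15821 / 10000 := by
    rw [abs_le]
    constructor <;> linarith
  -- a A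
  have p1 : |a * A - a1 * A0| ≤ 12 / 100000 := by
    have e : a * A - a1 * A0 = a * (A - A0) + (a - a1) * A0 := by ring
    rw [e]
    have t1 := sub_mulbd ha_abs hA'
    have t2 := sub_mulbd ha hA0abs
    refine (abs_add_le _ _).trans ?_
    linarith
  -- a G
  have p2 : |a * G - a1 * G0| ≤ 15 / 100000 * u := by
    have e : a * G - a1 * G0 = a * (G - G0) + (a - a1) * G0 := by ring
    rw [e]
    have t1 := sub_mulbd ha_abs hG
    have t2 := sub_mulbd ha (show |G0| ≤ 1582 / 1000 * u by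
      rw [abs_of_nonneg hG1]
      exact hG2)
    refine (abs_add_le _ _).trans ?_
    linarith
  -- A^2
  have hAs : |A + A0| ≤ 317 / 100 := by
    rw [abs_le] at hA' ⊢
    constructor <;> linarith [hA'.1, hA'.2]
  have p3 : |A ^ 2 - A0 ^ 2| ≤ 317 / 1000000 * u := by
    have e : A ^ 2 - A0 ^ 2 = (A - A0) * (A + A0) := by ring
    rw [e]
    have t1 := sub_mulbd hA' hAs
    linarith
  have p4 : |a ^ 2 - a1 ^ 2| ≤ 3233 / 100000000 := by
    have e : a ^ 2 - a1 ^ 2 = (a - a1) * (a + a1) := by ring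
    rw [e]
    have t : |a + a1| ≤ 6465 / 10000 := by
      rw [abs_le] at ha ⊢
      rw [ha1] at ha ⊢
      constructor <;> linarith [ha.1, ha.2]
    have t1 := sub_mulbd ha t
    linarith
  have ha2 : |a ^ 2| ≤ 10446 / 100000 := by
    have t1 := sub_mulbd ha_abs ha_abs
    rw [← pow_two] at t1
    linarith
  have p5 : |A0 ^ 2 - 1| ≤ 1504 / 1000 * u := by
    have e : A0 ^ 2 - 1 = (A0 - 1) * (A0 + 1) := by ring
    rw [e]
    have t1 : |A0 - 1| ≤ 5821 / 10000 * u := by
      rw [abs_of_nonneg hA1]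
      exact hA2
    have t2 : |A0 + 1| ≤ 25821 / 10000 := by
      rw [abs_le]
      constructor <;> linarith
    have t3 := sub_mulbd t1 t2
    linarith
  have p6 : |a ^ 2 * (A ^ 2 - 1) - a1 ^ 2 * (A0 ^ 2 - 1)| ≤ 1 / 10000 * u := by
    have e : a ^ 2 * (A ^ 2 - 1) - a1 ^ 2 * (A0 ^ 2 - 1) =
        a ^ 2 * (A ^ 2 - A0 ^ 2) + (a ^ 2 - a1 ^ 2) * (A0 ^ 2 - 1) := by ring
    rw [e]
    have t1 := sub_mulbd ha2 p3
    have t2 := sub_mulbd p4 p5
    refine (abs_add_le _ _).trans ?_
    linarith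
  have hA0sq : 1 ≤ A0 ^ 2 := by nlinarith
  have hA0sq2 : A0 ^ 2 ≤ 1 + 1504 / 1000 * u := by linarith [(abs_le.1 p5).2]
  have p7 : |1 - (1 - u) * A0 ^ 2| ≤ u := by
    rw [abs_le]
    constructor
    · nlinarith
    · nlinarith
  have hs : |1 - u| ≤ 1 := by
    rw [abs_le]
    constructor <;> linarith
  -- Y
  have p8 : |a ^ 2 * (1 - (1 - u) * A ^ 2) - a1 ^ 2 * (1 - (1 - u) * A0 ^ 2)| ≤ 1 / 10000 * u := by
    have e : a ^ 2 * (1 - (1 - u) * A ^ 2) - a1 ^ 2 * (1 - (1 - u) * A0 ^ 2) =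
        -(a ^ 2 * ((1 - u) * (A ^ 2 - A0 ^ 2))) + (a ^ 2 - a1 ^ 2) * (1 - (1 - u) * A0 ^ 2) := by ring
    rw [e]
    have t1 := sub_mulbd ha2 (sub_mulbd hs p3)
    have t2 := sub_mulbd p4 p7
    refine (abs_add_le _ _).trans ?_
    rw [abs_neg]
    linarith
  obtain ⟨Y, hY⟩ : ∃ Y, Y = a ^ 2 * (1 - (1 - u) * A ^ 2) := ⟨_, rfl⟩
  obtain ⟨Yn, hYn⟩ : ∃ Yn, Yn = a1 ^ 2 * (1 - (1 - u) * A0 ^ 2) := ⟨_, rfl⟩
  have hYn_abs : |Yn| ≤ 10446 / 100000 * u := by
    rw [hYn]
    have t1 := sub_mulbd ha1_abs ha1_abs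
    rw [← pow_two] at t1
    have t2 := sub_mulbd t1 p7
    linarith
  rw [← hY, ← hYn] at p8
  -- T
  obtain ⟨T, hT⟩ : ∃ T, T = P + a * G := ⟨_, rfl⟩
  obtain ⟨Tn, hTn⟩ : ∃ Tn, Tn = P + a1 * G0 := ⟨_, rfl⟩
  have hTn_abs : |Tn| ≤ 1512 / 1000 := by
    rw [hTn]
    have t1 := sub_mulbd ha1_abs (show |G0| ≤ 1582 / 1000 * u by
      rw [abs_of_nonneg hG1]
      exact hG2)
    refine (abs_add_le _ _).trans ?_
    linarith
  have hTT : |T - Tn| ≤ 15 / 100000 * u := by
    have e : T - Tn = a * G - a1 * G0 := by rw [hT, hTn]; ring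
    rw [e]
    exact p2
  have hTs : |T + Tn| ≤ 32 / 10 := by
    have e : T + Tn = (T - Tn) + 2 * Tn := by ring
    rw [e]
    refine (abs_add_le _ _).trans ?_
    rw [abs_mul, abs_two]
    linarith
  have p9 : |T ^ 2 - Tn ^ 2| ≤ 48 / 100000 * u := by
    have e : T ^ 2 - Tn ^ 2 = (T - Tn) * (T + Tn) := by ring
    rw [e]
    have t1 := sub_mulbd hTT hTs
    linarith
  have hE_abs : |E| ≤ u := by
    rw [abs_of_nonneg hE1]
    exact hE2
  -- Z
  obtain ⟨q, hq⟩ : ∃ q, q = a * A - a1 * A0 := ⟨_, rfl⟩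
  rw [← hq] at p1
  have p10 := sub_mulbd hE_abs p1
  have p11 := sub_mulbd hs p10
  -- W
  obtain ⟨W, hW⟩ : ∃ W, W = (1 - u) * E ^ 2 + 2 * a * ((1 - u) * E * A) - Y := ⟨_, rfl⟩
  obtain ⟨Wn, hWn⟩ : ∃ Wn, Wn = (1 - u) * E ^ 2 + 2 * a1 * ((1 - u) * E * A0) - Yn := ⟨_, rfl⟩
  have p12 : |W - Wn| ≤ 34 / 100000 * u := by
    have e : W - Wn = 2 * ((1 - u) * (E * q)) - (Y - Yn) := by rw [hW, hWn, hq]; ring
    rw [e]
    rw [abs_le] at p11 p8 ⊢
    constructor <;> linarith [p11.1, p11.2, p8.1, p8.2]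
  have p13 : |Wn| ≤ 3 * u := by
    rw [hWn]
    have t1 := sub_mulbd hs (sub_mulbd hE_abs hE_abs)
    have t2 := sub_mulbd ha1_abs hA0abs
    have t3 := sub_mulbd hs (sub_mulbd hE_abs t2)
    have t4 : (1 - u) * E ^ 2 = (1 - u) * (E * E) := by ring
    have t5 : 2 * a1 * ((1 - u) * E * A0) = 2 * ((1 - u) * (E * (a1 * A0))) := by ring
    have t6 : u * u ≤ u := by nlinarith
    rw [t4, t5]
    rw [abs_le] at t1 t3 hYn_abs ⊢
    constructor <;> linarith [t1.1, t1.2, t3.1, t3.2, hYn_abs.1, hYn_abs.2]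
  have hLabs : |L / 2| ≤ 46643 / 10000 := by
    rw [abs_le] at hL ⊢
    rw [hL1] at hL
    constructor <;> linarith [hL.1, hL.2]
  have hLd : |(L - L1) / 2| ≤ 25 / 1000000 := by
    rw [abs_le] at hL ⊢
    constructor <;> linarith [hL.1, hL.2]
  have p14 : |L / 2 * W - L1 / 2 * Wn| ≤ 17 / 10000 * u := by
    have e : L / 2 * W - L1 / 2 * Wn = L / 2 * (W - Wn) + (L - L1) / 2 * Wn := by ring
    rw [e]
    have t1 := sub_mulbd hLabs p12
    have t2 := sub_mulbd hLd p13
    refine (abs_add_le _ _).trans ?_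
    linarith
  -- difference
  have hx1 : 0 ≤ 1 / 2 - x / 2 := by linarith [(abs_le.1 hx).2]
  have hx2 : 0 ≤ 1 / 2 + x / 2 := by linarith [(abs_le.1 hx).1]
  have q1 : -(6 / 10000 * u) ≤ T ^ 2 - Tn ^ 2 - (Y - Yn) / 2 := by
    linarith [(abs_le.1 p9).1, (abs_le.1 p8).2]
  have q2 : -(6 / 10000 * u) ≤ 2 * (E * q) + (a ^ 2 * (A ^ 2 - 1) - a1 ^ 2 * (A0 ^ 2 - 1))
      + (Y - Yn) / 2 := by
    linarith [(abs_le.1 p10).1, (abs_le.1 p8).1, (abs_le.1 p6).1]
  have r1 := mul_le_mul_of_nonneg_left q1 hx1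
  have r2 := mul_le_mul_of_nonneg_left q2 hx2
  have r3 := (abs_le.1 p14).2
  have e1 : (1 / 2 - x / 2) * (P + a * G) ^ 2 + (1 / 2 + x / 2) * (E + a * A) ^ 2
      - a ^ 2 / 2 * ((1 / 2 - x / 2) * (1 - (1 - u) * A ^ 2)
        + (1 / 2 + x / 2) * (2 - (1 - (1 - u) * A ^ 2)))
      - L / 2 * ((1 - u) * E ^ 2 + 2 * a * ((1 - u) * E * A) - a ^ 2 * (1 - (1 - u) * A ^ 2))
      - ((1 / 2 - x / 2) * (P + a1 * G0) ^ 2 + (1 / 2 + x / 2) * (E + a1 * A0) ^ 2
      - a1 ^ 2 / 2 * ((1 / 2 - x / 2) * (1 - (1 - u) * A0 ^ 2)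
        + (1 / 2 + x / 2) * (2 - (1 - (1 - u) * A0 ^ 2)))
      - L1 / 2 * ((1 - u) * E ^ 2 + 2 * a1 * ((1 - u) * E * A0) - a1 ^ 2 * (1 - (1 - u) * A0 ^ 2)))
      = (1 / 2 - x / 2) * (T ^ 2 - Tn ^ 2 - (Y - Yn) / 2)
        + (1 / 2 + x / 2) * (2 * (E * q) + (a ^ 2 * (A ^ 2 - 1) - a1 ^ 2 * (A0 ^ 2 - 1))
          + (Y - Yn) / 2) - (L / 2 * W - L1 / 2 * Wn) := by
    rw [hW, hWn, hT, hTn, hY, hYn, hq]
    ring
  linarith

private theorem sub_ep {x s : ℝ} (hs : s ∈ Icc (0 : ℝ) 1) :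
    ep K L φ ψ x s = nomF x (φ s) (gdf φ ψ s) (a0 K φ) L (1 - s) := by
  unfold ep nomF zpf zt ztd gdf et etd
  rw [if_pos hs.2, if_pos hs.2]
  ring

theorem u_ep (d : Dat K L φ ψ χ ω) {x s : ℝ} (hs : s ∈ Icc (0 : ℝ) 1) (hx : |x| ≤ 573 / 1000) :
    -(7 / 2 * (1 - s) ^ 5) ≤ ep K L φ ψ x s := by
  rw [sub_ep hs]
  have hu0 : 0 ≤ 1 - s := by linarith [hs.2]
  have hu1 : 1 - s ≤ 1 := by linarith [hs.1]
  have hA := d.enc.phi s hs
  have hG : |gdf φ ψ s - (1 - s) * (1195 / 1000 + 3462 / 10000 * (1 - s)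
      + 408 / 10000 * (1 - s) ^ 2)| ≤ 2 / 10000 * (1 - s) := d.enc.gd s hs
  obtain ⟨a1, a2⟩ := a0_bd d
  have ha : |a0 K φ - 32315 / 100000| ≤ 5 / 100000 := by
    rw [abs_le]
    constructor <;> linarith
  have hL : |L - 932835 / 100000| ≤ 5 / 100000 := by
    have l1 := d.enc.L_lo
    have l2 := d.enc.L_hi
    rw [abs_le]
    constructor <;> linarith
  have key := sub_pert (x := x) hu0 hu1 (by linarith) rfl rfl hA hG ha hL
  have k1 := sub_nm hu0 hu1
  have k2 := sub_np hu0 hu1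
  obtain ⟨x1, x2⟩ := abs_le.1 hx
  obtain ⟨u, hu⟩ : ∃ u, u = 1 - s := ⟨_, rfl⟩
  rw [← hu] at key k1 k2 hu0 hu1 ⊢
  obtain ⟨A, hA'⟩ : ∃ A, A = 1 + u / 2 + u ^ 2 * (762 / 10000 + 59 / 10000 * u) := ⟨_, rfl⟩
  obtain ⟨G, hG'⟩ : ∃ G, G = u * (1195 / 1000 + 3462 / 10000 * u + 408 / 10000 * u ^ 2) := ⟨_, rfl⟩
  rw [← hA', ← hG'] at key k1 k2
  have e : nomF x A G (32315 / 100000) (932835 / 100000) u =
      (573 / 1000 - x) / (1146 / 1000) *
        nomF (-(573 / 1000)) A G (32315 / 100000) (932835 / 100000) u +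
      (573 / 1000 + x) / (1146 / 1000) *
        nomF (573 / 1000) A G (32315 / 100000) (932835 / 100000) u := by
    unfold nomF
    ring
  have t1 := mul_le_mul_of_nonneg_left k1 (show 0 ≤ (573 / 1000 - x) / (1146 / 1000) from
    div_nonneg (by linarith) (by norm_num))
  have t2 := mul_le_mul_of_nonneg_left k2 (show 0 ≤ (573 / 1000 + x) / (1146 / 1000) from
    div_nonneg (by linarith) (by norm_num))
  rw [e] at key
  linarith

end Pool.Agent.FND
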