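import Pool.Agent.FND.Defs
import Pool.Agent.FND.SDef
import Pool.Agent.FND.Cst

/-!
FND-SUc: univariate estimates for `Del`, `Gam`.
-/

set_option autoImplicit false

open MeasureTheory Set
open Pool.Agent.Neu
open Pool.Agent.CS4 (Prof2 bb vv eV)

namespace Pool.Agent.FND

variable {K L : ℝ} {φ ψ χ ω : ℝ → ℝ}

private noncomputable def rb (u : ℝ) : ℝ := 1 - u / 2 - u ^ 2 / 8 - u ^ 3 / 16
private noncomputable def rl (u : ℝ) : ℝ := 5 / 3 - 3 / 2 * u
private noncomputable def fL (u : ℝ) : ℝ := 1 + u / 2 + u ^ 2 * (761 / 10000 + 59 / 10000 * u)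
private noncomputable def fH (u : ℝ) : ℝ := 1 + u / 2 + u ^ 2 * (763 / 10000 + 59 / 10000 * u)
private noncomputable def gL (u : ℝ) : ℝ := 11948 / 10000 + 3462 / 10000 * u + 408 / 10000 * u ^ 2
private noncomputable def gH (u : ℝ) : ℝ := 11952 / 10000 + 3462 / 10000 * u + 408 / 10000 * u ^ 2
private noncomputable def cL (u : ℝ) : ℝ :=
  1 + u + u ^ 2 * (3339 / 10000 + 563 / 10000 * u + 65 / 10000 * u ^ 2)
private noncomputable def cH (u : ℝ) : ℝ :=
  1 + u + u ^ 2 * (3341 / 10000 + 563 / 10000 * u + 65 / 10000 * u ^ 2)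
private noncomputable def hL (u : ℝ) : ℝ :=
  26639 / 10000 + 16655 / 10000 * u + 3996 / 10000 * u ^ 2 + 644 / 10000 * u ^ 3
private noncomputable def hH (u : ℝ) : ℝ :=
  26643 / 10000 + 16655 / 10000 * u + 3996 / 10000 * u ^ 2 + 644 / 10000 * u ^ 3
private noncomputable def eP (u : ℝ) : ℝ := u ^ 3 * (2 - u)
private noncomputable def zP (u : ℝ) : ℝ := -(u * (12 - 22 * u + 9 * u ^ 2))

private noncomputable def DH (u : ℝ) : ℝ :=
  hH u * (eP u + 3232 / 10000 * fH u) + 2 * (cL u * zP u) + 4 / 10000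
    + 6464 / 10000 * (cH u * gH u)

private noncomputable def DL (u : ℝ) : ℝ :=
  hL u * (eP u + 3231 / 10000 * fL u) + 2 * (cL u * zP u) - 4 / 10000
    + 6462 / 10000 * (cL u * gL u)

private noncomputable def Gl (x u : ℝ) : ℝ :=
  (1 - x) * (-(hL u * (u * zP u)) - 4 / 10000 - 3232 / 10000 * (hH u * (u * gH u)))
    + 93283 / 10000 * ((1 - u) * cL u * (u ^ 2 * (2 - u)))
    + 2 * (1 + x) * (cL u * (u ^ 2 * (2 - u) + 3231 / 10000 * fL u))

private theorem rb_ge {u : ℝ} (h0 : 0 ≤ u) (h1 : u ≤ 1) : √(1 - u) ≤ rb u := by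
  have h2 : 0 ≤ rb u := by
    unfold rb
    have a1 : u ^ 2 ≤ 1 := pow_le_one₀ h0 h1
    have a2 : u ^ 3 ≤ 1 := pow_le_one₀ h0 h1
    linarith
  rw [Real.sqrt_le_left h2]
  unfold rb
  have h3 : (1 - u / 2 - u ^ 2 / 8 - u ^ 3 / 16) ^ 2 - (1 - u) =
      u ^ 4 * (5 / 64 + u / 64 + u ^ 2 / 256) := by ring
  have h4 : 0 ≤ u ^ 4 * (5 / 64 + u / 64 + u ^ 2 / 256) := by positivity
  linarith

private theorem rl_ge {u : ℝ} (h1 : u ≤ 1) : √(1 - u) ≤ rl u := by
  have h2 : 0 ≤ rl u := by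
    unfold rl
    linarith
  rw [Real.sqrt_le_left h2]
  unfold rl
  nlinarith [sq_nonneg (3 / 2 * (1 - u) - 1 / 6)]

private theorem aux {r R D B : ℝ} (hr0 : 0 ≤ r) (hr : r ≤ R) (hB : 0 ≤ B) (h : 0 ≤ B - R * D) :
    r * D ≤ B := by
  rcases le_total 0 D with h1 | h1
  · have := mul_le_mul_of_nonneg_right hr h1
    linarith
  · have := mul_nonneg hr0 (neg_nonneg.mpr h1)
    linarith

private theorem zlow_0 {u : ℝ} (h0 : 0 ≤ u) (h1 : u ≤ 1 / 2) :
    0 ≤ 1 + -(u ^ 2 * (12 - 22 * u + 9 * u ^ 2)) := by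
  have e : 1 + -(u ^ 2 * (12 - 22 * u + 9 * u ^ 2)) =
      (16) * (u ^ 0 * (1 / 2 - u) ^ 4) +
      (64) * (u ^ 1 * (1 / 2 - u) ^ 3) +
      (48) * (u ^ 2 * (1 / 2 - u) ^ 2) +
      (12) * (u ^ 3 * (1 / 2 - u) ^ 1) +
      (3) * (u ^ 4 * (1 / 2 - u) ^ 0) := by
    ring
  rw [e]
  have a : 0 ≤ u - 0 := by linarith
  have b : 0 ≤ 1 / 2 - u := by linarith
  have c : 0 ≤ u := by linarith
  positivity

private theorem zlow_1 {u : ℝ} (h0 : 1 / 2 ≤ u) (h1 : u ≤ 1) :
    0 ≤ 1 + -(u ^ 2 * (12 - 22 * u + 9 * u ^ 2)) := by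
  have e : 1 + -(u ^ 2 * (12 - 22 * u + 9 * u ^ 2)) =
      (3) * ((u - 1 / 2) ^ 0 * (1 - u) ^ 4) +
      (12) * ((u - 1 / 2) ^ 1 * (1 - u) ^ 3) +
      (48) * ((u - 1 / 2) ^ 2 * (1 - u) ^ 2) +
      (80) * ((u - 1 / 2) ^ 3 * (1 - u) ^ 1) +
      (32) * ((u - 1 / 2) ^ 4 * (1 - u) ^ 0) := by
    ring
  rw [e]
  have a : 0 ≤ u - 1 / 2 := by linarith
  have b : 0 ≤ 1 - u := by linarith
  have c : 0 ≤ u := by linarith
  positivity

private theorem zlow {u : ℝ} (h0 : 0 ≤ u) (h1 : u ≤ 1) :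
    0 ≤ 1 + -(u ^ 2 * (12 - 22 * u + 9 * u ^ 2)) := by
  rcases le_total u (1 / 2) with k0 | k0
  · exact zlow_0 h0 k0
  exact zlow_1 k0 h1

private theorem pA1 {u : ℝ} (h0 : 0 ≤ u) (h1 : u ≤ 4 / 5) :
    0 ≤ 33 / 10 - rb u * DH u := by
  have e : 33 / 10 - rb u * DH u =
      (130150075 / 8388608) * (u ^ 0 * (4 / 5 - u) ^ 10) +
      (1364870315 / 4194304) * (u ^ 1 * (4 / 5 - u) ^ 9) +
      (668814128997 / 327680000) * (u ^ 2 * (4 / 5 - u) ^ 8) +
      (83890921126637 / 13107200000) * (u ^ 3 * (4 / 5 - u) ^ 7) +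
      (772933683279177 / 65536000000) * (u ^ 4 * (4 / 5 - u) ^ 6) +
      (4451428927435991 / 327680000000) * (u ^ 5 * (4 / 5 - u) ^ 5) +
      (8105634381830769 / 819200000000) * (u ^ 6 * (4 / 5 - u) ^ 4) +
      (36238034524182679 / 8192000000000) * (u ^ 7 * (4 / 5 - u) ^ 3) +
      (91226265504861251 / 81920000000000) * (u ^ 8 * (4 / 5 - u) ^ 2) +
      (13081027131507731 / 102400000000000) * (u ^ 9 * (4 / 5 - u) ^ 1) +
      (307516946280561 / 102400000000000) * (u ^ 10 * (4 / 5 - u) ^ 0) := by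
    unfold DH rb hH fH cL cH gH eP zP
    ring
  rw [e]
  have a : 0 ≤ u - 0 := by linarith
  have b : 0 ≤ 4 / 5 - u := by linarith
  have c : 0 ≤ u := by linarith
  positivity

private theorem pA2 {u : ℝ} (h0 : 0 ≤ u) (h1 : u ≤ 4 / 5) :
    0 ≤ 33 / 10 + rb u * DL u := by
  have e : 33 / 10 + rb u * DL u =
      (12330964625 / 268435456) * (u ^ 0 * (4 / 5 - u) ^ 10) +
      (38802900495 / 134217728) * (u ^ 1 * (4 / 5 - u) ^ 9) +
      (30377403990547 / 41943040000) * (u ^ 2 * (4 / 5 - u) ^ 8) +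
      (408435463392527 / 419430400000) * (u ^ 3 * (4 / 5 - u) ^ 7) +
      (2329338082974643 / 2097152000000) * (u ^ 4 * (4 / 5 - u) ^ 6) +
      (19933240106169009 / 10485760000000) * (u ^ 5 * (4 / 5 - u) ^ 5) +
      (78908696733373521 / 26214400000000) * (u ^ 6 * (4 / 5 - u) ^ 4) +
      (773462693612886941 / 262144000000000) * (u ^ 7 * (4 / 5 - u) ^ 3) +
      (4329827275821511737 / 2621440000000000) * (u ^ 8 * (4 / 5 - u) ^ 2) +
      (199381325334209973 / 409600000000000) * (u ^ 9 * (4 / 5 - u) ^ 1) +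
      (95763176987473297 / 1638400000000000) * (u ^ 10 * (4 / 5 - u) ^ 0) := by
    unfold DL rb hL fL cL gL eP zP
    ring
  rw [e]
  have a : 0 ≤ u - 0 := by linarith
  have b : 0 ≤ 4 / 5 - u := by linarith
  have c : 0 ≤ u := by linarith
  positivity

private theorem pB1 {u : ℝ} (h0 : 4 / 5 ≤ u) (h1 : u ≤ 1) :
    0 ≤ 33 / 10 - rl u * DH u := by
  have e : 33 / 10 - rl u * DH u =
      (17266113126169 / 97656250) * ((u - 4 / 5) ^ 0 * (1 - u) ^ 8) +
      (909214025805013 / 1171875000) * ((u - 4 / 5) ^ 1 * (1 - u) ^ 7) +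
      (1398726941837339 / 1250000000) * ((u - 4 / 5) ^ 2 * (1 - u) ^ 6) +
      (257977364329127 / 500000000) * ((u - 4 / 5) ^ 3 * (1 - u) ^ 5) +
      (166518900272107 / 300000000) * ((u - 4 / 5) ^ 4 * (1 - u) ^ 4) +
      (26164235377111 / 12000000) * ((u - 4 / 5) ^ 5 * (1 - u) ^ 3) +
      (35131944359147 / 12000000) * ((u - 4 / 5) ^ 6 * (1 - u) ^ 2) +
      (165201975673 / 100000) * ((u - 4 / 5) ^ 7 * (1 - u) ^ 1) +
      (20740692841 / 60000) * ((u - 4 / 5) ^ 8 * (1 - u) ^ 0) := by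
    unfold DH rl hH fH cL cH gH eP zP
    ring
  rw [e]
  have a : 0 ≤ u - 4 / 5 := by linarith
  have b : 0 ≤ 1 - u := by linarith
  have c : 0 ≤ u := by linarith
  positivity

private theorem pB2 {u : ℝ} (h0 : 4 / 5 ≤ u) (h1 : u ≤ 1) :
    0 ≤ 33 / 10 + rl u * DL u := by
  have e : 33 / 10 + rl u * DL u =
      (11253369182988739 / 4687500000) * ((u - 4 / 5) ^ 0 * (1 - u) ^ 8) +
      (186043030197252683 / 9375000000) * ((u - 4 / 5) ^ 1 * (1 - u) ^ 7) +
      (2842143462766070913 / 40000000000) * ((u - 4 / 5) ^ 2 * (1 - u) ^ 6) +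
      (2301300648631959657 / 16000000000) * ((u - 4 / 5) ^ 3 * (1 - u) ^ 5) +
      (345373088350799519 / 1920000000) * ((u - 4 / 5) ^ 4 * (1 - u) ^ 4) +
      (272969411082534427 / 1920000000) * ((u - 4 / 5) ^ 5 * (1 - u) ^ 3) +
      (5318368600110151 / 76800000) * ((u - 4 / 5) ^ 6 * (1 - u) ^ 2) +
      (242821723279063 / 12800000) * ((u - 4 / 5) ^ 7 * (1 - u) ^ 1) +
      (8571581866763 / 3840000) * ((u - 4 / 5) ^ 8 * (1 - u) ^ 0) := by
    unfold DL rl hL fL cL gL eP zP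
    ring
  rw [e]
  have a : 0 ≤ u - 4 / 5 := by linarith
  have b : 0 ≤ 1 - u := by linarith
  have c : 0 ≤ u := by linarith
  positivity

private theorem pC1 {u : ℝ} (h0 : 0 ≤ u) (h1 : u ≤ 7 / 10) :
    0 ≤ 215 / 100 - rb u * DH u := by
  have e : 215 / 100 - rb u * DH u =
      (5159209600 / 282475249) * (u ^ 0 * (7 / 10 - u) ^ 10) +
      (211554962560 / 282475249) * (u ^ 1 * (7 / 10 - u) ^ 9) +
      (947551070598546 / 176547030625) * (u ^ 2 * (7 / 10 - u) ^ 8) +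
      (31735830001234451 / 1765470306250) * (u ^ 3 * (7 / 10 - u) ^ 7) +
      (350778593165888191 / 10088401750000) * (u ^ 4 * (7 / 10 - u) ^ 6) +
      (8467628002986178273 / 201768035000000) * (u ^ 5 * (7 / 10 - u) ^ 5) +
      (32548066320841658551 / 1008840175000000) * (u ^ 6 * (7 / 10 - u) ^ 4) +
      (2185268881514016441791 / 141237624500000000) * (u ^ 7 * (7 / 10 - u) ^ 3) +
      (3040679277356024590703 / 706188122500000000) * (u ^ 8 * (7 / 10 - u) ^ 2) +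
      (1026620374887066462359 / 1765470306250000000) * (u ^ 9 * (7 / 10 - u) ^ 1) +
      (18715548138664199057 / 882735153125000000) * (u ^ 10 * (7 / 10 - u) ^ 0) := by
    unfold DH rb hH fH cL cH gH eP zP
    ring
  rw [e]
  have a : 0 ≤ u - 0 := by linarith
  have b : 0 ≤ 7 / 10 - u := by linarith
  have c : 0 ≤ u := by linarith
  positivity

private theorem pC2_0 {u : ℝ} (h0 : 0 ≤ u) (h1 : u ≤ 7 / 20) :
    0 ≤ 215 / 100 + rb u * DL u := by
  have e : 215 / 100 + rb u * DL u =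
      (38731631104000 / 282475249) * (u ^ 0 * (7 / 20 - u) ^ 10) +
      (305415020334080 / 282475249) * (u ^ 1 * (7 / 20 - u) ^ 9) +
      (653552091108905392 / 176547030625) * (u ^ 2 * (7 / 20 - u) ^ 8) +
      (6328873838469269842 / 882735153125) * (u ^ 3 * (7 / 20 - u) ^ 7) +
      (43145596038263837269 / 5044200875000) * (u ^ 4 * (7 / 20 - u) ^ 6) +
      (1287761529243739194207 / 201768035000000) * (u ^ 5 * (7 / 20 - u) ^ 5) +
      (5758845806760190062909 / 2017680350000000) * (u ^ 6 * (7 / 20 - u) ^ 4) +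
      (374363329826221248970579 / 564950498000000000) * (u ^ 7 * (7 / 20 - u) ^ 3) +
      (16740315055984359729291 / 353094061250000000) * (u ^ 8 * (7 / 20 - u) ^ 2) +
      (30657995853220695532717 / 56495049800000000000) * (u ^ 9 * (7 / 20 - u) ^ 1) +
      (131345533636694795112057 / 56495049800000000000) * (u ^ 10 * (7 / 20 - u) ^ 0) := by
    unfold DL rb hL fL cL gL eP zP
    ring
  rw [e]
  have a : 0 ≤ u - 0 := by linarith
  have b : 0 ≤ 7 / 20 - u := by linarith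
  have c : 0 ≤ u := by linarith
  positivity

private theorem pC2_1 {u : ℝ} (h0 : 7 / 20 ≤ u) (h1 : u ≤ 7 / 10) :
    0 ≤ 215 / 100 + rb u * DL u := by
  have e : 215 / 100 + rb u * DL u =
      (131345533636694795112057 / 56495049800000000000) * ((u - 7 / 20) ^ 0 * (7 / 10 - u) ^ 10) +
      (2596252676880675206708423 / 56495049800000000000) * ((u - 7 / 20) ^ 1 * (7 / 10 - u) ^ 9) +
      (12884401269102294078633957 / 28247524900000000000) * ((u - 7 / 20) ^ 2 * (7 / 10 - u) ^ 8) +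
      (31773958612265264790197633 / 14123762450000000000) * ((u - 7 / 20) ^ 3 * (7 / 10 - u) ^ 7) +
      (6390076543602598280893961 / 1008840175000000000) * ((u - 7 / 20) ^ 4 * (7 / 10 - u) ^ 6) +
      (5598719992518671485641513 / 504420087500000000) * ((u - 7 / 20) ^ 5 * (7 / 10 - u) ^ 5) +
      (3177328146421424256924939 / 252210043750000000) * ((u - 7 / 20) ^ 6 * (7 / 10 - u) ^ 4) +
      (8212253744661598892117507 / 882735153125000000) * ((u - 7 / 20) ^ 7 * (7 / 10 - u) ^ 3) +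
      (1909115373199528140362683 / 441367576562500000) * ((u - 7 / 20) ^ 8 * (7 / 10 - u) ^ 2) +
      (127101834251541368959051 / 110341894140625000) * ((u - 7 / 20) ^ 9 * (7 / 10 - u) ^ 1) +
      (7398826798976226239601 / 55170947070312500) * ((u - 7 / 20) ^ 10 * (7 / 10 - u) ^ 0) := by
    unfold DL rb hL fL cL gL eP zP
    ring
  rw [e]
  have a : 0 ≤ u - 7 / 20 := by linarith
  have b : 0 ≤ 7 / 10 - u := by linarith
  have c : 0 ≤ u := by linarith
  positivity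

private theorem pC2 {u : ℝ} (h0 : 0 ≤ u) (h1 : u ≤ 7 / 10) :
    0 ≤ 215 / 100 + rb u * DL u := by
  rcases le_total u (7 / 20) with k0 | k0
  · exact pC2_0 h0 k0
  exact pC2_1 k0 h1

private theorem pD1 {u : ℝ} (h0 : 0 ≤ u) (h1 : u ≤ 3 / 20) :
    0 ≤ 165 / 100 - rb u * DH u := by
  have e : 165 / 100 - rb u * DH u =
      (163030630400 / 59049) * (u ^ 0 * (3 / 20 - u) ^ 10) +
      (36730729594880 / 59049) * (u ^ 1 * (3 / 20 - u) ^ 9) +
      (21938668687143424 / 4100625) * (u ^ 2 * (3 / 20 - u) ^ 8) +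
      (1275049450073426752 / 61509375) * (u ^ 3 * (3 / 20 - u) ^ 7) +
      (14447364495744407276 / 307546875) * (u ^ 4 * (3 / 20 - u) ^ 6) +
      (70186224343546095251 / 1025156250) * (u ^ 5 * (3 / 20 - u) ^ 5) +
      (511268464990134956831 / 7688671875) * (u ^ 6 * (3 / 20 - u) ^ 4) +
      (52930103395371557304233 / 1230187500000) * (u ^ 7 * (3 / 20 - u) ^ 3) +
      (9165235077142070957279 / 512578125000) * (u ^ 8 * (3 / 20 - u) ^ 2) +
      (1598061710470954543691657 / 369056250000000) * (u ^ 9 * (3 / 20 - u) ^ 1) +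
      (85902579959213226879151 / 184528125000000) * (u ^ 10 * (3 / 20 - u) ^ 0) := by
    unfold DH rb hH fH cL cH gH eP zP
    ring
  rw [e]
  have a : 0 ≤ u - 0 := by linarith
  have b : 0 ≤ 3 / 20 - u := by linarith
  have c : 0 ≤ u := by linarith
  positivity

private theorem pD2 {u : ℝ} (h0 : 0 ≤ u) (h1 : u ≤ 3 / 20) :
    0 ≤ 165 / 100 + rb u * DL u := by
  have e : 165 / 100 + rb u * DL u =
      (33611631104000 / 59049) * (u ^ 0 * (3 / 20 - u) ^ 10) +
      (301015757880320 / 59049) * (u ^ 1 * (3 / 20 - u) ^ 9) +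
      (83607067322745008 / 4100625) * (u ^ 2 * (3 / 20 - u) ^ 8) +
      (2946778290705078766 / 61509375) * (u ^ 3 * (3 / 20 - u) ^ 7) +
      (179948902694934458401 / 2460375000) * (u ^ 4 * (3 / 20 - u) ^ 6) +
      (2482483869138371998949 / 32805000000) * (u ^ 5 * (3 / 20 - u) ^ 5) +
      (52768659233106843725641 / 984150000000) * (u ^ 6 * (3 / 20 - u) ^ 4) +
      (1008201651163763795479357 / 39366000000000) * (u ^ 7 * (3 / 20 - u) ^ 3) +
      (128894295010999309162733 / 16402500000000) * (u ^ 8 * (3 / 20 - u) ^ 2) +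
      (16411081561161708124084513 / 11809800000000000) * (u ^ 9 * (3 / 20 - u) ^ 1) +
      (1257136940485132399371853 / 11809800000000000) * (u ^ 10 * (3 / 20 - u) ^ 0) := by
    unfold DL rb hL fL cL gL eP zP
    ring
  rw [e]
  have a : 0 ≤ u - 0 := by linarith
  have b : 0 ≤ 3 / 20 - u := by linarith
  have c : 0 ≤ u := by linarith
  positivity

private theorem pE1 {u : ℝ} (h0 : 0 ≤ u) (h1 : u ≤ 4 / 5) :
    0 ≤ 2 + rb u * Gl (573 / 1000) u := by
  have e : 2 + rb u * Gl (573 / 1000) u =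
      (9425943125 / 268435456) * (u ^ 0 * (4 / 5 - u) ^ 11) +
      (328525344705807 / 838860800000) * (u ^ 1 * (4 / 5 - u) ^ 10) +
      (9527464317175859 / 4194304000000) * (u ^ 2 * (4 / 5 - u) ^ 9) +
      (175365799554090627 / 20971520000000) * (u ^ 3 * (4 / 5 - u) ^ 8) +
      (2147480527085922859 / 104857600000000) * (u ^ 4 * (4 / 5 - u) ^ 7) +
      (714192310502719499 / 20971520000000) * (u ^ 5 * (4 / 5 - u) ^ 6) +
      (20342135050181026889 / 524288000000000) * (u ^ 6 * (4 / 5 - u) ^ 5) +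
      (395535004453580010213 / 13107200000000000) * (u ^ 7 * (4 / 5 - u) ^ 4) +
      (128531937638148269157 / 8192000000000000) * (u ^ 8 * (4 / 5 - u) ^ 3) +
      (851411972656745755911 / 163840000000000000) * (u ^ 9 * (4 / 5 - u) ^ 2) +
      (40497290626808844541 / 40960000000000000) * (u ^ 10 * (4 / 5 - u) ^ 1) +
      (3366291400690520917 / 40960000000000000) * (u ^ 11 * (4 / 5 - u) ^ 0) := by
    unfold Gl rb hL hH fL cL gH zP
    ring
  rw [e]
  have a : 0 ≤ u - 0 := by linarith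
  have b : 0 ≤ 4 / 5 - u := by linarith
  have c : 0 ≤ u := by linarith
  positivity

private theorem pE2 {u : ℝ} (h0 : 0 ≤ u) (h1 : u ≤ 4 / 5) :
    0 ≤ 2 + rb u * Gl (-(573 / 1000)) u := by
  have e : 2 + rb u * Gl (-(573 / 1000)) u =
      (7110306875 / 268435456) * (u ^ 0 * (4 / 5 - u) ^ 11) +
      (233927173676193 / 838860800000) * (u ^ 1 * (4 / 5 - u) ^ 10) +
      (7773020773958141 / 4194304000000) * (u ^ 2 * (4 / 5 - u) ^ 9) +
      (165235905018611373 / 20971520000000) * (u ^ 3 * (4 / 5 - u) ^ 8) +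
      (2206585029789307141 / 104857600000000) * (u ^ 4 * (4 / 5 - u) ^ 7) +
      (758104828737862181 / 20971520000000) * (u ^ 5 * (4 / 5 - u) ^ 6) +
      (21367737516624848711 / 524288000000000) * (u ^ 6 * (4 / 5 - u) ^ 5) +
      (396059273488915079787 / 13107200000000000) * (u ^ 7 * (4 / 5 - u) ^ 4) +
      (118075675370961393843 / 8192000000000000) * (u ^ 8 * (4 / 5 - u) ^ 3) +
      (685451835658549654089 / 163840000000000000) * (u ^ 9 * (4 / 5 - u) ^ 2) +
      (26888073804223837459 / 40960000000000000) * (u ^ 10 * (4 / 5 - u) ^ 1) +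
      (1691134444553561083 / 40960000000000000) * (u ^ 11 * (4 / 5 - u) ^ 0) := by
    unfold Gl rb hL hH fL cL gH zP
    ring
  rw [e]
  have a : 0 ≤ u - 0 := by linarith
  have b : 0 ≤ 4 / 5 - u := by linarith
  have c : 0 ≤ u := by linarith
  positivity

private theorem pF1 {u : ℝ} (h0 : 4 / 5 ≤ u) (h1 : u ≤ 1) :
    0 ≤ 2 + rl u * Gl (573 / 1000) u := by
  have e : 2 + rl u * Gl (573 / 1000) u =
      (130432872055101893 / 9765625000) * ((u - 4 / 5) ^ 0 * (1 - u) ^ 9) +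
      (6674511379504263599 / 58593750000) * ((u - 4 / 5) ^ 1 * (1 - u) ^ 8) +
      (268149285249483681139 / 625000000000) * ((u - 4 / 5) ^ 2 * (1 - u) ^ 7) +
      (1404802008500325642869 / 1500000000000) * ((u - 4 / 5) ^ 3 * (1 - u) ^ 6) +
      (1044553051554701212601 / 800000000000) * ((u - 4 / 5) ^ 4 * (1 - u) ^ 5) +
      (1157620256481178451473 / 960000000000) * ((u - 4 / 5) ^ 5 * (1 - u) ^ 4) +
      (1771093146918417197 / 2400000000) * ((u - 4 / 5) ^ 6 * (1 - u) ^ 3) +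
      (5543997466142506601 / 19200000000) * ((u - 4 / 5) ^ 7 * (1 - u) ^ 2) +
      (503937406612078789 / 7680000000) * ((u - 4 / 5) ^ 8 * (1 - u) ^ 1) +
      (2537544759842767 / 384000000) * ((u - 4 / 5) ^ 9 * (1 - u) ^ 0) := by
    unfold Gl rl hL hH fL cL gH zP
    ring
  rw [e]
  have a : 0 ≤ u - 4 / 5 := by linarith
  have b : 0 ≤ 1 - u := by linarith
  have c : 0 ≤ u := by linarith
  positivity

private theorem pF2 {u : ℝ} (h0 : 4 / 5 ≤ u) (h1 : u ≤ 1) :
    0 ≤ 2 + rl u * Gl (-(573 / 1000)) u := by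
  have e : 2 + rl u * Gl (-(573 / 1000)) u =
      (66355830017076107 / 9765625000) * ((u - 4 / 5) ^ 0 * (1 - u) ^ 9) +
      (3055886396374314401 / 58593750000) * ((u - 4 / 5) ^ 1 * (1 - u) ^ 8) +
      (108606078681523048861 / 625000000000) * ((u - 4 / 5) ^ 2 * (1 - u) ^ 7) +
      (493541794592017983131 / 1500000000000) * ((u - 4 / 5) ^ 3 * (1 - u) ^ 6) +
      (311698853149839373399 / 800000000000) * ((u - 4 / 5) ^ 4 * (1 - u) ^ 5) +
      (287953334324650406527 / 960000000000) * ((u - 4 / 5) ^ 5 * (1 - u) ^ 4) +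
      (364856326119777803 / 2400000000) * ((u - 4 / 5) ^ 6 * (1 - u) ^ 3) +
      (972507699191543399 / 19200000000) * ((u - 4 / 5) ^ 7 * (1 - u) ^ 2) +
      (82760549519523211 / 7680000000) * ((u - 4 / 5) ^ 8 * (1 - u) ^ 1) +
      (462037063139233 / 384000000) * ((u - 4 / 5) ^ 9 * (1 - u) ^ 0) := by
    unfold Gl rl hL hH fL cL gH zP
    ring
  rw [e]
  have a : 0 ≤ u - 4 / 5 := by linarith
  have b : 0 ≤ 1 - u := by linarith
  have c : 0 ≤ u := by linarith
  positivity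

private theorem pG1 {u : ℝ} (h0 : 0 ≤ u) (h1 : u ≤ 7 / 10) :
    0 ≤ 0 + 1 * Gl (573 / 1000) u := by
  have e : 0 + 1 * Gl (573 / 1000) u =
      (101630180 / 5764801) * (u ^ 0 * (7 / 10 - u) ^ 8) +
      (347268987915637 / 2251875390625) * (u ^ 1 * (7 / 10 - u) ^ 7) +
      (11817776710891973 / 12867859375000) * (u ^ 2 * (7 / 10 - u) ^ 6) +
      (1608548978308886679 / 514714375000000) * (u ^ 3 * (7 / 10 - u) ^ 5) +
      (244721297263323706431 / 41177150000000000) * (u ^ 4 * (7 / 10 - u) ^ 4) +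
      (133591058349103270387 / 20588575000000000) * (u ^ 5 * (7 / 10 - u) ^ 3) +
      (8301803023874681636857 / 2058857500000000000) * (u ^ 6 * (7 / 10 - u) ^ 2) +
      (15199307486038932426879 / 11529602000000000000) * (u ^ 7 * (7 / 10 - u) ^ 1) +
      (10082325593535060090599 / 57648010000000000000) * (u ^ 8 * (7 / 10 - u) ^ 0) := by
    unfold Gl hL hH fL cL gH zP
    ring
  rw [e]
  have a : 0 ≤ u - 0 := by linarith
  have b : 0 ≤ 7 / 10 - u := by linarith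
  have c : 0 ≤ u := by linarith
  positivity

private theorem pG2 {u : ℝ} (h0 : 0 ≤ u) (h1 : u ≤ 7 / 10) :
    0 ≤ 0 + 1 * Gl (-(573 / 1000)) u := by
  have e : 0 + 1 * Gl (-(573 / 1000)) u =
      (27529820 / 5764801) * (u ^ 0 * (7 / 10 - u) ^ 8) +
      (53080842046363 / 2251875390625) * (u ^ 1 * (7 / 10 - u) ^ 7) +
      (7995271296506027 / 12867859375000) * (u ^ 2 * (7 / 10 - u) ^ 6) +
      (1588177339287567321 / 514714375000000) * (u ^ 3 * (7 / 10 - u) ^ 5) +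
      (267379978690951627569 / 41177150000000000) * (u ^ 4 * (7 / 10 - u) ^ 4) +
      (144565736010145280413 / 20588575000000000) * (u ^ 5 * (7 / 10 - u) ^ 3) +
      (8259246083722919573143 / 2058857500000000000) * (u ^ 6 * (7 / 10 - u) ^ 2) +
      (12764051551419535105521 / 11529602000000000000) * (u ^ 7 * (7 / 10 - u) ^ 1) +
      (6157571448733805331401 / 57648010000000000000) * (u ^ 8 * (7 / 10 - u) ^ 0) := by
    unfold Gl hL hH fL cL gH zP
    ring
  rw [e]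
  have a : 0 ≤ u - 0 := by linarith
  have b : 0 ≤ 7 / 10 - u := by linarith
  have c : 0 ≤ u := by linarith
  positivity


private theorem zP_bd {u : ℝ} (h0 : 0 ≤ u) (h1 : u ≤ 1) : |u * zP u| ≤ 1 := by
  rw [abs_le]
  constructor
  · have := zlow h0 h1
    unfold zP
    linarith
  · have e : 1 - u * zP u = (1 - u) * (1 + u + u ^ 2 * (13 - 9 * u)) := by
      unfold zP; ring
    have e2 : 0 ≤ (1 - u) * (1 + u + u ^ 2 * (13 - 9 * u)) := by
      have : 0 ≤ 13 - 9 * u := by linarith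
      have : 0 ≤ 1 - u := by linarith
      positivity
    linarith

/-- the polynomial enclosures of all functions -/
private theorem encl (d : Dat K L φ ψ χ ω) {u : ℝ} (h0 : 0 ≤ u) (h1 : u ≤ 1) :
    (1 ≤ φ (1 - u) ∧ fL u ≤ φ (1 - u) ∧ φ (1 - u) ≤ fH u) ∧
    (1 ≤ χ (1 - u) ∧ cL u ≤ χ (1 - u) ∧ χ (1 - u) ≤ cH u) ∧
    (u * gL u ≤ gdf φ ψ (1 - u) ∧ gdf φ ψ (1 - u) ≤ u * gH u) ∧
    (u * hL u ≤ hdf χ ω (1 - u) ∧ hdf χ ω (1 - u) ≤ u * hH u) ∧
    et (1 - u) = eP u ∧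
    zt K φ (1 - u) = eP u + a0 K φ * φ (1 - u) ∧
    zpf K φ ψ (1 - u) = u * zP u + a0 K φ * gdf φ ψ (1 - u) := by
  have hmem : (1 - u) ∈ Icc (0 : ℝ) 1 := ⟨by linarith, by linarith⟩
  have e1 : 1 - (1 - u) = u := by ring
  have hf := abs_le.mp (d.enc.phi _ hmem)
  have hc := abs_le.mp (d.enc.chi _ hmem)
  have hg := abs_le.mp (d.enc.gd _ hmem)
  have hh := abs_le.mp (d.enc.hd _ hmem)
  rw [e1] at hf hc hg hh
  have he : et (1 - u) = eP u := by
    unfold et eP
    rw [if_pos (by linarith)]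
    ring
  refine ⟨⟨d.prof.one_le _ hmem, ?_, ?_⟩, ⟨d.prof2.one_le _ hmem, ?_, ?_⟩, ⟨?_, ?_⟩, ⟨?_, ?_⟩,
    he, ?_, ?_⟩
  · unfold fL; linarith [hf.1]
  · unfold fH; linarith [hf.2]
  · unfold cL; linarith [hc.1]
  · unfold cH; linarith [hc.2]
  · unfold gL gdf; linarith [hg.1]
  · unfold gH gdf; linarith [hg.2]
  · unfold hL hdf; linarith [hh.1]
  · unfold hH hdf; linarith [hh.2]
  · unfold zt; rw [he]
  · unfold zpf zt ztd gdf zP
    rw [he]
    unfold etd eP
    rw [if_pos (by linarith)]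
    ring

private theorem Del_bd (d : Dat K L φ ψ χ ω) {u : ℝ} (h0 : 0 ≤ u) (h1 : u ≤ 1) :
    u * DL u ≤ Del K φ ψ χ ω (1 - u) ∧ Del K φ ψ χ ω (1 - u) ≤ u * DH u := by
  obtain ⟨⟨f1, f2, f3⟩, ⟨c1, c2, c3⟩, ⟨g2, g3⟩, ⟨k2, k3⟩, he, hz, hzp⟩ := encl d h0 h1
  have ha := a0_bd d
  have hz1 := abs_le.mp (zP_bd h0 h1)
  have hu2 : u ^ 2 ≤ u := by nlinarith
  have hcc : cH u - cL u = 2 / 10000 * u ^ 2 := by unfold cH cL; ring
  have eP0 : 0 ≤ eP u := by
    unfold eP
    have : 0 ≤ 2 - u := by linarith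
    positivity
  have fL0 : 0 ≤ fL u := by unfold fL; positivity
  have gL0 : 0 ≤ gL u := by unfold gL; positivity
  have hL0 : 0 ≤ hL u := by unfold hL; positivity
  have cL0 : 0 ≤ cL u := by unfold cL; positivity
  unfold Del
  rw [hz, hzp]
  set f := φ (1 - u) with hfd
  set c := χ (1 - u) with hcd
  set g := gdf φ ψ (1 - u) with hgd
  set k := hdf χ ω (1 - u) with hkd
  have b1 : a0 K φ * f ≤ 3232 / 10000 * fH u :=
    mul_le_mul (by linarith) f3 (by linarith) (by norm_num)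
  have b2 : 3231 / 10000 * fL u ≤ a0 K φ * f :=
    mul_le_mul (by linarith) f2 fL0 (by linarith)
  have b3 : k * (eP u + a0 K φ * f) ≤ u * hH u * (eP u + 3232 / 10000 * fH u) :=
    mul_le_mul k3 (by linarith) (by nlinarith [mul_nonneg (by norm_num : (0:ℝ) ≤ 3231 / 10000) fL0])
      (le_trans (mul_nonneg h0 hL0) (le_trans k2 k3))
  have b4 : u * hL u * (eP u + 3231 / 10000 * fL u) ≤ k * (eP u + a0 K φ * f) :=
    mul_le_mul k2 (by linarith) (by positivity) (le_trans (mul_nonneg h0 hL0) k2)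
  have d1 : (c - cL u) * (u * zP u) ≤ (c - cL u) * 1 :=
    mul_le_mul_of_nonneg_left hz1.2 (by linarith)
  have d2 : (c - cL u) * (-1) ≤ (c - cL u) * (u * zP u) :=
    mul_le_mul_of_nonneg_left hz1.1 (by linarith)
  have g4 : a0 K φ * g ≤ 3232 / 10000 * (u * gH u) :=
    mul_le_mul (by linarith) g3 (le_trans (mul_nonneg h0 gL0) g2) (by norm_num)
  have g5 : 3231 / 10000 * (u * gL u) ≤ a0 K φ * g :=
    mul_le_mul (by linarith) g2 (mul_nonneg h0 gL0) (by linarith)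
  have g6 : 0 ≤ a0 K φ * g := le_trans (by positivity) g5
  have g7 : c * (a0 K φ * g) ≤ cH u * (3232 / 10000 * (u * gH u)) :=
    mul_le_mul c3 g4 g6 (by linarith)
  have g8 : cL u * (3231 / 10000 * (u * gL u)) ≤ c * (a0 K φ * g) :=
    mul_le_mul c2 g5 (by positivity) (by linarith)
  unfold DL DH
  constructor
  · nlinarith
  · nlinarith

private theorem Gam_bd (d : Dat K L φ ψ χ ω) {x u : ℝ} (hx0 : -1 ≤ x) (hx1 : x ≤ 1) (h0 : 0 ≤ u)
    (h1 : u ≤ 1) : u * Gl x u ≤ Gam K L φ ψ χ ω x (1 - u) := by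
  obtain ⟨⟨f1, f2, f3⟩, ⟨c1, c2, c3⟩, ⟨g2, g3⟩, ⟨k2, k3⟩, he, hz, hzp⟩ := encl d h0 h1
  have ha := a0_bd d
  have hz1 := abs_le.mp (zP_bd h0 h1)
  have e1 : 1 - (1 - u) = u := by ring
  have hs : 0 ≤ 1 - u := by linarith
  have h2u : 0 ≤ 2 - u := by linarith
  have hLl := d.enc.L_lo
  have hhh : hH u - hL u = 4 / 10000 := by unfold hH hL; ring
  have eP0 : 0 ≤ eP u := by
    unfold eP
    positivity
  have fL0 : 0 ≤ fL u := by unfold fL; positivity
  have gL0 : 0 ≤ gL u := by unfold gL; positivity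
  have gH0 : 0 ≤ gH u := by unfold gH; positivity
  have hL0 : 0 ≤ hL u := by unfold hL; positivity
  have hH0 : 0 ≤ hH u := by unfold hH; positivity
  have cL0 : 0 ≤ cL u := by unfold cL; positivity
  unfold Gam
  rw [he, hzp, e1]
  set f := φ (1 - u) with hfd
  set c := χ (1 - u) with hcd
  set g := gdf φ ψ (1 - u) with hgd
  set k := hdf χ ω (1 - u) with hkd
  have a1 : k * (u * zP u) ≤ u * (hL u * (u * zP u)) + u * (4 / 10000) := by
    have t1 := mul_le_mul_of_nonneg_left hz1.2 (by linarith : 0 ≤ k - u * hL u)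
    have t2 : u * hH u - u * hL u = u * (4 / 10000) := by rw [← hhh]; ring
    linarith
  have a2 : k * (a0 K φ * g) ≤ u * hH u * (3232 / 10000 * (u * gH u)) := by
    refine mul_le_mul k3 ?_ ?_ (mul_nonneg h0 hH0)
    · exact mul_le_mul (by linarith) g3 (le_trans (mul_nonneg h0 gL0) g2) (by norm_num)
    · exact mul_nonneg (by linarith) (le_trans (mul_nonneg h0 gL0) g2)
  have a3 : (1 - x) * (k * (u * zP u + a0 K φ * g)) ≤
      (1 - x) * (u * (hL u * (u * zP u)) + u * (4 / 10000)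
        + u * hH u * (3232 / 10000 * (u * gH u))) :=
    mul_le_mul_of_nonneg_left (by linarith) (by linarith)
  have a4 : 93283 / 10000 * ((1 - u) * cL u * eP u) ≤ L * ((1 - u) * c * eP u) := by
    refine mul_le_mul (by linarith) ?_ (by positivity) (by linarith)
    exact mul_le_mul_of_nonneg_right (mul_le_mul_of_nonneg_left c2 hs) eP0
  have a5 : 3231 / 10000 * fL u * u ≤ a0 K φ * f * u :=
    mul_le_mul_of_nonneg_right (mul_le_mul (by linarith) f2 fL0 (by linarith)) h0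
  have a6 : cL u * (eP u + 3231 / 10000 * fL u * u) ≤ c * (eP u + a0 K φ * f * u) :=
    mul_le_mul c2 (by linarith) (by positivity) (by linarith)
  have a7 : 2 * (1 + x) * (cL u * (eP u + 3231 / 10000 * fL u * u)) ≤
      2 * (1 + x) * (c * (eP u + a0 K φ * f * u)) :=
    mul_le_mul_of_nonneg_left a6 (by linarith)
  have e2 : u * Gl x u = -((1 - x) * (u * (hL u * (u * zP u)) + u * (4 / 10000)
        + u * hH u * (3232 / 10000 * (u * gH u))))
      + 93283 / 10000 * ((1 - u) * cL u * eP u)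
      + 2 * (1 + x) * (cL u * (eP u + 3231 / 10000 * fL u * u)) := by
    unfold Gl eP
    ring
  rw [e2]
  linarith

/-- the bound for `√s |Del|` -/
private theorem Del_abs (d : Dat K L φ ψ χ ω) {u R B : ℝ} (h0 : 0 ≤ u) (h1 : u ≤ 1)
    (hr : √(1 - u) ≤ R) (hB : 0 ≤ B) (p1 : 0 ≤ B - R * DH u) (p2 : 0 ≤ B + R * DL u) :
    √(1 - u) * |Del K φ ψ χ ω (1 - u)| ≤ B * u := by
  have hr0 : 0 ≤ √(1 - u) := Real.sqrt_nonneg _
  obtain ⟨k1, k2⟩ := Del_bd d h0 h1
  have q1 := aux hr0 hr hB p1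
  have q2 := aux (D := -DL u) hr0 hr hB (by linarith)
  have e : √(1 - u) * |Del K φ ψ χ ω (1 - u)| = |√(1 - u) * Del K φ ψ χ ω (1 - u)| := by
    rw [abs_mul, abs_of_nonneg hr0]
  rw [e, abs_le]
  have w1 := mul_le_mul_of_nonneg_left k1 hr0
  have w2 := mul_le_mul_of_nonneg_left k2 hr0
  have w3 := mul_le_mul_of_nonneg_left q1 h0
  have w4 := mul_le_mul_of_nonneg_left q2 h0
  constructor
  · linarith
  · linarith

private theorem Gl_aff (x u R B : ℝ) : 1146 / 1000 * (B + R * Gl x u) =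
    (573 / 1000 + x) * (B + R * Gl (573 / 1000) u)
      + (573 / 1000 - x) * (B + R * Gl (-(573 / 1000)) u) := by
  unfold Gl
  ring

theorem u_Del (d : Dat K L φ ψ χ ω) {s : ℝ} (hs : s ∈ Icc (0 : ℝ) 1) :
    √s * |Del K φ ψ χ ω s| ≤ 33 / 10 * (1 - s) ∧
      (3 / 10 ≤ s → √s * |Del K φ ψ χ ω s| ≤ 215 / 100 * (1 - s)) ∧
      (85 / 100 ≤ s → √s * |Del K φ ψ χ ω s| ≤ 165 / 100 * (1 - s)) := by
  obtain ⟨u, rfl⟩ : ∃ u, s = 1 - u := ⟨1 - s, by ring⟩
  obtain ⟨h2, h3⟩ := hs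
  have h0 : 0 ≤ u := by linarith
  have h1 : u ≤ 1 := by linarith
  have e1 : 1 - (1 - u) = u := by ring
  rw [e1]
  refine ⟨?_, fun h => ?_, fun h => ?_⟩
  · rcases le_total u (4 / 5) with h4 | h4
    · exact Del_abs d h0 h1 (rb_ge h0 h1) (by norm_num) (pA1 h0 h4) (pA2 h0 h4)
    · exact Del_abs d h0 h1 (rl_ge h1) (by norm_num) (pB1 h4 h1) (pB2 h4 h1)
  · exact Del_abs d h0 h1 (rb_ge h0 h1) (by norm_num) (pC1 h0 (by linarith))
      (pC2 h0 (by linarith))
  · exact Del_abs d h0 h1 (rb_ge h0 h1) (by norm_num) (pD1 h0 (by linarith))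
      (pD2 h0 (by linarith))

theorem u_Gam (d : Dat K L φ ψ χ ω) {x s : ℝ} (hs : s ∈ Icc (0 : ℝ) 1) (hx : |x| ≤ 573 / 1000) :
    -(2 * (1 - s)) ≤ √s * Gam K L φ ψ χ ω x s ∧ (3 / 10 ≤ s → 0 ≤ Gam K L φ ψ χ ω x s) := by
  obtain ⟨u, rfl⟩ : ∃ u, s = 1 - u := ⟨1 - s, by ring⟩
  obtain ⟨h2, h3⟩ := hs
  obtain ⟨hx0, hx1⟩ := abs_le.mp hx
  have h0 : 0 ≤ u := by linarith
  have h1 : u ≤ 1 := by linarith
  have e1 : 1 - (1 - u) = u := by ring
  rw [e1]
  have hG := Gam_bd d (x := x) (by linarith) (by linarith) h0 h1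
  have hxa : 0 ≤ 573 / 1000 + x := by linarith
  have hxb : 0 ≤ 573 / 1000 - x := by linarith
  constructor
  · have hr0 : 0 ≤ √(1 - u) := Real.sqrt_nonneg _
    have key : √(1 - u) * (-Gl x u) ≤ 2 := by
      rcases le_total u (4 / 5) with h4 | h4
      · refine aux hr0 (rb_ge h0 h1) (by norm_num) ?_
        have a := Gl_aff x u (rb u) 2
        have b := mul_nonneg hxa (pE1 h0 h4)
        have c := mul_nonneg hxb (pE2 h0 h4)
        linarith
      · refine aux hr0 (rl_ge h1) (by norm_num) ?_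
        have a := Gl_aff x u (rl u) 2
        have b := mul_nonneg hxa (pF1 h4 h1)
        have c := mul_nonneg hxb (pF2 h4 h1)
        linarith
    have w1 := mul_le_mul_of_nonneg_left hG hr0
    have w2 := mul_le_mul_of_nonneg_left key h0
    linarith
  · intro h
    have h5 : u ≤ 7 / 10 := by linarith
    have a := Gl_aff x u 1 0
    have b := mul_nonneg hxa (pG1 h0 h5)
    have c := mul_nonneg hxb (pG2 h0 h5)
    have e : 0 ≤ Gl x u := by linarith
    exact le_trans (mul_nonneg h0 e) hG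

end Pool.Agent.FND
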