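import Pool.Agent.FND.Defs
import Pool.Agent.FND.SDef
import Pool.Agent.FND.Cst

/-!
FND-SUd: the ratio `Del / Gam`.

Plan.  m² - x² <= .573² - x²; (√(m²-x²))² etc.  Enough: (m²-x²) Del² <= ρ² Gam², ρ = 8/15 or 15/8, Gam >= 0 (SUc u_Gam).
Del = u D1(u), Gam = u G1(u, x) with G1 affine in x.  With x = .573 sin: it is enough to bound √(.3284 - x²) <= k0 - k1 x... by
tangent lines (for each λ: √(m²-x²) <= (m² - λ x)/√(m² - λ²)); choose 3-4 tangents.  Slacks .236/.048 u.  Note the first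
alternative is only needed for .3 <= s <= .85 (the other disjunct covers s >= .85).
-/

set_option autoImplicit false

open MeasureTheory Set
open Pool.Agent.Neu
open Pool.Agent.CS4 (Prof2 bb vv eV)

namespace Pool.Agent.FND

variable {K L : ℝ} {φ ψ χ ω : ℝ → ℝ}

private theorem rpp0 {u : ℝ} (h0 : 3 / 20 ≤ u) (h1 : u ≤ 3 / 10) :
    0 ≤ (-2465618531 / 3125000000) + (234037704269363 / 19531250000000) * u + (3907453157027059 /
      156250000000000) * u ^ 2 + (-158467435643367 / 3125000000000) * u ^ 3 + (-1748614723708813 /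
      156250000000000) * u ^ 4 + (1042789534116493 / 117187500000000) * u ^ 5 + (127562224272883 /
      39062500000000) * u ^ 6 + (18054293030261 / 23437500000000) * u ^ 7 + (1212679 / 37500000) *
      u ^ 8 := by
  have h2 : 0 ≤ u - (3 / 20) := by linarith
  have h3 : 0 ≤ (3 / 10) - u := by linarith
  have h4 : (-2465618531 / 3125000000) + (234037704269363 / 19531250000000) * u + (3907453157027059 /
      156250000000000) * u ^ 2 + (-158467435643367 / 3125000000000) * u ^ 3 + (-1748614723708813 /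
      156250000000000) * u ^ 4 + (1042789534116493 / 117187500000000) * u ^ 5 + (127562224272883 /
      39062500000000) * u ^ 6 + (18054293030261 / 23437500000000) * u ^ 7 + (1212679 / 37500000) *
      u ^ 8 =
      (13949888004895218286787 / 2562890625000000) * ((3 / 10) - u) ^ 8 +
      (135501810439919831055547 / 2562890625000000) * (u - (3 / 20)) ^ 1 * ((3 / 10) - u) ^ 7 +
      (279070848459321441280531 / 1281445312500000) * (u - (3 / 20)) ^ 2 * ((3 / 10) - u) ^ 6 +
      (320660824815443688659383 / 640722656250000) * (u - (3 / 20)) ^ 3 * ((3 / 10) - u) ^ 5 +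
      (45178635621903126048053 / 64072265625000) * (u - (3 / 20)) ^ 4 * ((3 / 10) - u) ^ 4 +
      (100226392392237691618849 / 160180664062500) * (u - (3 / 20)) ^ 5 * ((3 / 10) - u) ^ 3 +
      (27413857685410304962237 / 80090332031250) * (u - (3 / 20)) ^ 6 * ((3 / 10) - u) ^ 2 +
      (4233154477041700015021 / 40045166015625) * (u - (3 / 20)) ^ 7 * ((3 / 10) - u) ^ 1 +
      (565762794660196584386 / 40045166015625) * (u - (3 / 20)) ^ 8 := by ring
  rw [h4]
  positivity

private theorem rpp1 {u : ℝ} (h0 : 3 / 10 ≤ u) (h1 : u ≤ 1 / 2) :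
    0 ≤ (-2465618531 / 3125000000) + (234037704269363 / 19531250000000) * u + (3907453157027059 /
      156250000000000) * u ^ 2 + (-158467435643367 / 3125000000000) * u ^ 3 + (-1748614723708813 /
      156250000000000) * u ^ 4 + (1042789534116493 / 117187500000000) * u ^ 5 + (127562224272883 /
      39062500000000) * u ^ 6 + (18054293030261 / 23437500000000) * u ^ 7 + (1212679 / 37500000) *
      u ^ 8 := by
  have h2 : 0 ≤ u - (3 / 10) := by linarith
  have h3 : 0 ≤ (1 / 2) - u := by linarith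
  have h4 : (-2465618531 / 3125000000) + (234037704269363 / 19531250000000) * u + (3907453157027059 /
      156250000000000) * u ^ 2 + (-158467435643367 / 3125000000000) * u ^ 3 + (-1748614723708813 /
      156250000000000) * u ^ 4 + (1042789534116493 / 117187500000000) * u ^ 5 + (127562224272883 /
      39062500000000) * u ^ 6 + (18054293030261 / 23437500000000) * u ^ 7 + (1212679 / 37500000) *
      u ^ 8 =
      (282881397330098292193 / 200000000000000) * ((1 / 2) - u) ^ 8 + (1229174882733684055461 /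
      100000000000000) * (u - (3 / 10)) ^ 1 * ((1 / 2) - u) ^ 7 + (4606642729358304181427 /
      100000000000000) * (u - (3 / 10)) ^ 2 * ((1 / 2) - u) ^ 6 + (389237717167214123137 /
      4000000000000) * (u - (3 / 10)) ^ 3 * ((1 / 2) - u) ^ 5 + (126758026575950347393 /
      1000000000000) * (u - (3 / 10)) ^ 4 * ((1 / 2) - u) ^ 4 + (250233544126773907633 /
      2400000000000) * (u - (3 / 10)) ^ 5 * ((1 / 2) - u) ^ 3 + (8458417293384882237 /
      160000000000) * (u - (3 / 10)) ^ 6 * ((1 / 2) - u) ^ 2 + (289820696766940241 / 19200000000)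
      * (u - (3 / 10)) ^ 7 * ((1 / 2) - u) ^ 1 + (4751395552613587 / 2560000000) * (u - (3 / 10))
      ^ 8 := by ring
  rw [h4]
  positivity

private theorem rpp2 {u : ℝ} (h0 : 1 / 2 ≤ u) (h1 : u ≤ 7 / 10) :
    0 ≤ (-2465618531 / 3125000000) + (234037704269363 / 19531250000000) * u + (3907453157027059 /
      156250000000000) * u ^ 2 + (-158467435643367 / 3125000000000) * u ^ 3 + (-1748614723708813 /
      156250000000000) * u ^ 4 + (1042789534116493 / 117187500000000) * u ^ 5 + (127562224272883 /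
      39062500000000) * u ^ 6 + (18054293030261 / 23437500000000) * u ^ 7 + (1212679 / 37500000) *
      u ^ 8 := by
  have h2 : 0 ≤ u - (1 / 2) := by linarith
  have h3 : 0 ≤ (7 / 10) - u := by linarith
  have h4 : (-2465618531 / 3125000000) + (234037704269363 / 19531250000000) * u + (3907453157027059 /
      156250000000000) * u ^ 2 + (-158467435643367 / 3125000000000) * u ^ 3 + (-1748614723708813 /
      156250000000000) * u ^ 4 + (1042789534116493 / 117187500000000) * u ^ 5 + (127562224272883 /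
      39062500000000) * u ^ 6 + (18054293030261 / 23437500000000) * u ^ 7 + (1212679 / 37500000) *
      u ^ 8 =
      (4751395552613587 / 2560000000) * ((7 / 10) - u) ^ 8 + (280346769546690199 / 19200000000) *
      (u - (1 / 2)) ^ 1 * ((7 / 10) - u) ^ 7 + (23717314616610889361 / 480000000000) * (u - (1 /
      2)) ^ 2 * ((7 / 10) - u) ^ 6 + (224750384727338904527 / 2400000000000) * (u - (1 / 2)) ^ 3 *
      ((7 / 10) - u) ^ 5 + (649250824905734214283 / 6000000000000) * (u - (1 / 2)) ^ 4 * ((7 / 10)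
      - u) ^ 4 + (309944956192814249239 / 4000000000000) * (u - (1 / 2)) ^ 5 * ((7 / 10) - u) ^ 3
      + (9948837561109728182231 / 300000000000000) * (u - (1 / 2)) ^ 6 * ((7 / 10) - u) ^ 2 +
      (757557026198834716747 / 100000000000000) * (u - (1 / 2)) ^ 7 * ((7 / 10) - u) ^ 1 +
      (80501823897301117939 / 120000000000000) * (u - (1 / 2)) ^ 8 := by ring
  rw [h4]
  positivity

private theorem rpp {u : ℝ} (h0 : 3 / 20 ≤ u) (h1 : u ≤ 7 / 10) :
    0 ≤ (-2465618531 / 3125000000) + (234037704269363 / 19531250000000) * u + (3907453157027059 /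
      156250000000000) * u ^ 2 + (-158467435643367 / 3125000000000) * u ^ 3 + (-1748614723708813 /
      156250000000000) * u ^ 4 + (1042789534116493 / 117187500000000) * u ^ 5 + (127562224272883 /
      39062500000000) * u ^ 6 + (18054293030261 / 23437500000000) * u ^ 7 + (1212679 / 37500000) *
      u ^ 8 := by
  rcases le_total u (3 / 10) with h | h
  · exact rpp0 h0 h
  rcases le_total u (1 / 2) with h' | h'
  · exact rpp1 h h'
  · exact rpp2 h' h1

private theorem rpm0 {u : ℝ} (h0 : 3 / 20 ≤ u) (h1 : u ≤ 3 / 10) :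
    0 ≤ (-1231185531 / 3125000000) + (2063132618738707 / 156250000000000) * u + (2764916698021091 /
      312500000000000) * u ^ 2 + (-7978051016432787 / 312500000000000) * u ^ 3 +
      (-2095463412853999 / 312500000000000) * u ^ 4 + (32068912730887 / 7324218750000) * u ^ 5 +
      (293958957346369 / 156250000000000) * u ^ 6 + (76525224672421 / 187500000000000) * u ^ 7 +
      (1212679 / 37500000) * u ^ 8 := by
  have h2 : 0 ≤ u - (3 / 20) := by linarith
  have h3 : 0 ≤ (3 / 10) - u := by linarith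
  have h4 : (-1231185531 / 3125000000) + (2063132618738707 / 156250000000000) * u + (2764916698021091 /
      312500000000000) * u ^ 2 + (-7978051016432787 / 312500000000000) * u ^ 3 +
      (-2095463412853999 / 312500000000000) * u ^ 4 + (32068912730887 / 7324218750000) * u ^ 5 +
      (293958957346369 / 156250000000000) * u ^ 6 + (76525224672421 / 187500000000000) * u ^ 7 +
      (1212679 / 37500000) * u ^ 8 =
      (15079990847462906211533 / 2278125000000000) * ((3 / 10) - u) ^ 8 +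
      (418146016083013354746529 / 6834375000000000) * (u - (3 / 20)) ^ 1 * ((3 / 10) - u) ^ 7 +
      (829136486964618594265067 / 3417187500000000) * (u - (3 / 20)) ^ 2 * ((3 / 10) - u) ^ 6 +
      (308287579159437900625247 / 569531250000000) * (u - (3 / 20)) ^ 3 * ((3 / 10) - u) ^ 5 +
      (127285891794312040206551 / 170859375000000) * (u - (3 / 20)) ^ 4 * ((3 / 10) - u) ^ 4 +
      (277189579002844791067523 / 427148437500000) * (u - (3 / 20)) ^ 5 * ((3 / 10) - u) ^ 3 +
      (2767648687576351947667 / 7910156250000) * (u - (3 / 20)) ^ 6 * ((3 / 10) - u) ^ 2 +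
      (11412822019003024442047 / 106787109375000) * (u - (3 / 20)) ^ 7 * ((3 / 10) - u) ^ 1 +
      (756669962257136977811 / 53393554687500) * (u - (3 / 20)) ^ 8 := by ring
  rw [h4]
  positivity

private theorem rpm1 {u : ℝ} (h0 : 3 / 10 ≤ u) (h1 : u ≤ 1 / 2) :
    0 ≤ (-1231185531 / 3125000000) + (2063132618738707 / 156250000000000) * u + (2764916698021091 /
      312500000000000) * u ^ 2 + (-7978051016432787 / 312500000000000) * u ^ 3 +
      (-2095463412853999 / 312500000000000) * u ^ 4 + (32068912730887 / 7324218750000) * u ^ 5 +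
      (293958957346369 / 156250000000000) * u ^ 6 + (76525224672421 / 187500000000000) * u ^ 7 +
      (1212679 / 37500000) * u ^ 8 := by
  have h2 : 0 ≤ u - (3 / 10) := by linarith
  have h3 : 0 ≤ (1 / 2) - u := by linarith
  have h4 : (-1231185531 / 3125000000) + (2063132618738707 / 156250000000000) * u + (2764916698021091 /
      312500000000000) * u ^ 2 + (-7978051016432787 / 312500000000000) * u ^ 3 +
      (-2095463412853999 / 312500000000000) * u ^ 4 + (32068912730887 / 7324218750000) * u ^ 5 +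
      (293958957346369 / 156250000000000) * u ^ 6 + (76525224672421 / 187500000000000) * u ^ 7 +
      (1212679 / 37500000) * u ^ 8 =
      (2270009886771410933433 / 1600000000000000) * ((1 / 2) - u) ^ 8 + (9773936924196810936661 /
      800000000000000) * (u - (3 / 10)) ^ 1 * ((1 / 2) - u) ^ 7 + (36433448102123591430687 /
      800000000000000) * (u - (3 / 10)) ^ 2 * ((1 / 2) - u) ^ 6 + (15367408163893743045981 /
      160000000000000) * (u - (3 / 10)) ^ 3 * ((1 / 2) - u) ^ 5 + (250805829761742330119 /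
      2000000000000) * (u - (3 / 10)) ^ 4 * ((1 / 2) - u) ^ 4 + (398693877429627557053 /
      3840000000000) * (u - (3 / 10)) ^ 5 * ((1 / 2) - u) ^ 3 + (68145539231583410033 /
      1280000000000) * (u - (3 / 10)) ^ 6 * ((1 / 2) - u) ^ 2 + (11870923968806071229 /
      768000000000) * (u - (3 / 10)) ^ 7 * ((1 / 2) - u) ^ 1 + (199168136311750383 / 102400000000)
      * (u - (3 / 10)) ^ 8 := by ring
  rw [h4]
  positivity

private theorem rpm2 {u : ℝ} (h0 : 1 / 2 ≤ u) (h1 : u ≤ 7 / 10) :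
    0 ≤ (-1231185531 / 3125000000) + (2063132618738707 / 156250000000000) * u + (2764916698021091 /
      312500000000000) * u ^ 2 + (-7978051016432787 / 312500000000000) * u ^ 3 +
      (-2095463412853999 / 312500000000000) * u ^ 4 + (32068912730887 / 7324218750000) * u ^ 5 +
      (293958957346369 / 156250000000000) * u ^ 6 + (76525224672421 / 187500000000000) * u ^ 7 +
      (1212679 / 37500000) * u ^ 8 := by
  have h2 : 0 ≤ u - (1 / 2) := by linarith
  have h3 : 0 ≤ (7 / 10) - u := by linarith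
  have h4 : (-1231185531 / 3125000000) + (2063132618738707 / 156250000000000) * u + (2764916698021091 /
      312500000000000) * u ^ 2 + (-7978051016432787 / 312500000000000) * u ^ 3 +
      (-2095463412853999 / 312500000000000) * u ^ 4 + (32068912730887 / 7324218750000) * u ^ 5 +
      (293958957346369 / 156250000000000) * u ^ 6 + (76525224672421 / 187500000000000) * u ^ 7 +
      (1212679 / 37500000) * u ^ 8 =
      (199168136311750383 / 102400000000) * ((7 / 10) - u) ^ 8 + (12029252388603974731 /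
      768000000000) * (u - (1 / 2)) ^ 1 * ((7 / 10) - u) ^ 7 + (209978112387676852669 /
      3840000000000) * (u - (1 / 2)) ^ 2 * ((7 / 10) - u) ^ 6 + (82956431609246344471 /
      768000000000) * (u - (1 / 2)) ^ 3 * ((7 / 10) - u) ^ 5 + (6332170616203748432981 /
      48000000000000) * (u - (1 / 2)) ^ 4 * ((7 / 10) - u) ^ 4 + (16298963778103049485179 /
      160000000000000) * (u - (1 / 2)) ^ 5 * ((7 / 10) - u) ^ 3 + (116361680026036174880971 /
      2400000000000000) * (u - (1 / 2)) ^ 6 * ((7 / 10) - u) ^ 2 + (10377308948361207760427 /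
      800000000000000) * (u - (1 / 2)) ^ 7 * ((7 / 10) - u) ^ 1 + (1428844725677916006203 /
      960000000000000) * (u - (1 / 2)) ^ 8 := by ring
  rw [h4]
  positivity

private theorem rpm {u : ℝ} (h0 : 3 / 20 ≤ u) (h1 : u ≤ 7 / 10) :
    0 ≤ (-1231185531 / 3125000000) + (2063132618738707 / 156250000000000) * u + (2764916698021091 /
      312500000000000) * u ^ 2 + (-7978051016432787 / 312500000000000) * u ^ 3 +
      (-2095463412853999 / 312500000000000) * u ^ 4 + (32068912730887 / 7324218750000) * u ^ 5 +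
      (293958957346369 / 156250000000000) * u ^ 6 + (76525224672421 / 187500000000000) * u ^ 7 +
      (1212679 / 37500000) * u ^ 8 := by
  rcases le_total u (3 / 10) with h | h
  · exact rpm0 h0 h
  rcases le_total u (1 / 2) with h' | h'
  · exact rpm1 h h'
  · exact rpm2 h' h1

private theorem rmp0 {u : ℝ} (h0 : 3 / 20 ≤ u) (h1 : u ≤ 3 / 10) :
    0 ≤ (21653729041 / 20000000000) + (-8293551398283509 / 625000000000000) * u +
      (245207548917853793 / 5000000000000000) * u ^ 2 + (-5919361164824301 / 250000000000000) * u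
      ^ 3 + (-78523017858753821 / 5000000000000000) * u ^ 4 + (13807847026981721 /
      3750000000000000) * u ^ 5 + (2652491093641961 / 1250000000000000) * u ^ 6 + (13182002405261
      / 23437500000000) * u ^ 7 + (1212679 / 37500000) * u ^ 8 := by
  have h2 : 0 ≤ u - (3 / 20) := by linarith
  have h3 : 0 ≤ (3 / 10) - u := by linarith
  have h4 : (21653729041 / 20000000000) + (-8293551398283509 / 625000000000000) * u +
      (245207548917853793 / 5000000000000000) * u ^ 2 + (-5919361164824301 / 250000000000000) * u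
      ^ 3 + (-78523017858753821 / 5000000000000000) * u ^ 4 + (13807847026981721 /
      3750000000000000) * u ^ 5 + (2652491093641961 / 1250000000000000) * u ^ 6 + (13182002405261
      / 23437500000000) * u ^ 7 + (1212679 / 37500000) * u ^ 8 =
      (8648880343379087759641 / 20503125000000000) * ((3 / 10) - u) ^ 8 + (32452702085737990724653
      / 10251562500000000) * (u - (3 / 20)) ^ 1 * ((3 / 10) - u) ^ 7 + (277703273457226074263521 /
      20503125000000000) * (u - (3 / 20)) ^ 2 * ((3 / 10) - u) ^ 6 + (24339733900533589636003 /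
      640722656250000) * (u - (3 / 20)) ^ 3 * ((3 / 10) - u) ^ 5 + (2179036552220415696199 /
      32036132812500) * (u - (3 / 20)) ^ 4 * ((3 / 10) - u) ^ 4 + (3039781191698902436101 /
      40045166015625) * (u - (3 / 20)) ^ 5 * ((3 / 10) - u) ^ 3 + (65351039037177053721577 /
      1281445312500000) * (u - (3 / 20)) ^ 6 * ((3 / 10) - u) ^ 2 + (3024831443834333349559 /
      160180664062500) * (u - (3 / 20)) ^ 7 * ((3 / 10) - u) ^ 1 + (474774318716497983929 /
      160180664062500) * (u - (3 / 20)) ^ 8 := by ring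
  rw [h4]
  positivity

private theorem rmp1 {u : ℝ} (h0 : 3 / 10 ≤ u) (h1 : u ≤ 1 / 2) :
    0 ≤ (21653729041 / 20000000000) + (-8293551398283509 / 625000000000000) * u +
      (245207548917853793 / 5000000000000000) * u ^ 2 + (-5919361164824301 / 250000000000000) * u
      ^ 3 + (-78523017858753821 / 5000000000000000) * u ^ 4 + (13807847026981721 /
      3750000000000000) * u ^ 5 + (2652491093641961 / 1250000000000000) * u ^ 6 + (13182002405261
      / 23437500000000) * u ^ 7 + (1212679 / 37500000) * u ^ 8 := by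
  have h2 : 0 ≤ u - (3 / 10) := by linarith
  have h3 : 0 ≤ (1 / 2) - u := by linarith
  have h4 : (21653729041 / 20000000000) + (-8293551398283509 / 625000000000000) * u +
      (245207548917853793 / 5000000000000000) * u ^ 2 + (-5919361164824301 / 250000000000000) * u
      ^ 3 + (-78523017858753821 / 5000000000000000) * u ^ 4 + (13807847026981721 /
      3750000000000000) * u ^ 5 + (2652491093641961 / 1250000000000000) * u ^ 6 + (13182002405261
      / 23437500000000) * u ^ 7 + (1212679 / 37500000) * u ^ 8 =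
      (474774318716497983929 / 1600000000000000) * ((1 / 2) - u) ^ 8 + (1207336339398879475149 /
      400000000000000) * (u - (3 / 10)) ^ 1 * ((1 / 2) - u) ^ 7 + (10512526686770000271121 /
      800000000000000) * (u - (3 / 10)) ^ 2 * ((1 / 2) - u) ^ 6 + (25565966391339457361 /
      800000000000) * (u - (3 / 10)) ^ 3 * ((1 / 2) - u) ^ 5 + (380349907878232342439 /
      8000000000000) * (u - (3 / 10)) ^ 4 * ((1 / 2) - u) ^ 4 + (426141977959192924687 /
      9600000000000) * (u - (3 / 10)) ^ 5 * ((1 / 2) - u) ^ 3 + (32573866974834793491 /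
      1280000000000) * (u - (3 / 10)) ^ 6 * ((1 / 2) - u) ^ 2 + (315049038116007661 / 38400000000)
      * (u - (3 / 10)) ^ 7 * ((1 / 2) - u) ^ 1 + (23357970606098147 / 20480000000) * (u - (3 /
      10)) ^ 8 := by ring
  rw [h4]
  positivity

private theorem rmp2 {u : ℝ} (h0 : 1 / 2 ≤ u) (h1 : u ≤ 7 / 10) :
    0 ≤ (21653729041 / 20000000000) + (-8293551398283509 / 625000000000000) * u +
      (245207548917853793 / 5000000000000000) * u ^ 2 + (-5919361164824301 / 250000000000000) * u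
      ^ 3 + (-78523017858753821 / 5000000000000000) * u ^ 4 + (13807847026981721 /
      3750000000000000) * u ^ 5 + (2652491093641961 / 1250000000000000) * u ^ 6 + (13182002405261
      / 23437500000000) * u ^ 7 + (1212679 / 37500000) * u ^ 8 := by
  have h2 : 0 ≤ u - (1 / 2) := by linarith
  have h3 : 0 ≤ (7 / 10) - u := by linarith
  have h4 : (21653729041 / 20000000000) + (-8293551398283509 / 625000000000000) * u +
      (245207548917853793 / 5000000000000000) * u ^ 2 + (-5919361164824301 / 250000000000000) * u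
      ^ 3 + (-78523017858753821 / 5000000000000000) * u ^ 4 + (13807847026981721 /
      3750000000000000) * u ^ 5 + (2652491093641961 / 1250000000000000) * u ^ 6 + (13182002405261
      / 23437500000000) * u ^ 7 + (1212679 / 37500000) * u ^ 8 =
      (23357970606098147 / 20480000000) * ((7 / 10) - u) ^ 8 + (385690080066936749 / 38400000000)
      * (u - (1 / 2)) ^ 1 * ((7 / 10) - u) ^ 7 + (147170330290154742073 / 3840000000000) * (u - (1
      / 2)) ^ 2 * ((7 / 10) - u) ^ 6 + (794650076620388478503 / 9600000000000) * (u - (1 / 2)) ^ 3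
      * ((7 / 10) - u) ^ 5 + (2656855371546493850017 / 24000000000000) * (u - (1 / 2)) ^ 4 * ((7 /
      10) - u) ^ 4 + (375566143020984642001 / 4000000000000) * (u - (1 / 2)) ^ 5 * ((7 / 10) - u)
      ^ 3 + (118384327639560319086163 / 2400000000000000) * (u - (1 / 2)) ^ 6 * ((7 / 10) - u) ^ 2
      + (5871097497981173973493 / 400000000000000) * (u - (1 / 2)) ^ 7 * ((7 / 10) - u) ^ 1 +
      (1818334652564562797903 / 960000000000000) * (u - (1 / 2)) ^ 8 := by ring
  rw [h4]
  positivity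

private theorem rmp {u : ℝ} (h0 : 3 / 20 ≤ u) (h1 : u ≤ 7 / 10) :
    0 ≤ (21653729041 / 20000000000) + (-8293551398283509 / 625000000000000) * u +
      (245207548917853793 / 5000000000000000) * u ^ 2 + (-5919361164824301 / 250000000000000) * u
      ^ 3 + (-78523017858753821 / 5000000000000000) * u ^ 4 + (13807847026981721 /
      3750000000000000) * u ^ 5 + (2652491093641961 / 1250000000000000) * u ^ 6 + (13182002405261
      / 23437500000000) * u ^ 7 + (1212679 / 37500000) * u ^ 8 := by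
  rcases le_total u (3 / 10) with h | h
  · exact rmp0 h0 h
  rcases le_total u (1 / 2) with h' | h'
  · exact rmp1 h h'
  · exact rmp2 h' h1

private theorem rmm0 {u : ℝ} (h0 : 3 / 20 ≤ u) (h1 : u ≤ 3 / 10) :
    0 ≤ (29554100241 / 20000000000) + (-7530227459948297 / 625000000000000) * u +
      (164407715061325361 / 5000000000000000) * u ^ 2 + (1877964367494147 / 1250000000000000) * u
      ^ 3 + (-56094761305735789 / 5000000000000000) * u ^ 4 + (-3142134746531911 /
      3750000000000000) * u ^ 5 + (922171575680657 / 1250000000000000) * u ^ 6 + (37546899672421 /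
      187500000000000) * u ^ 7 + (1212679 / 37500000) * u ^ 8 := by
  have h2 : 0 ≤ u - (3 / 20) := by linarith
  have h3 : 0 ≤ (3 / 10) - u := by linarith
  have h4 : (29554100241 / 20000000000) + (-7530227459948297 / 625000000000000) * u +
      (164407715061325361 / 5000000000000000) * u ^ 2 + (1877964367494147 / 1250000000000000) * u
      ^ 3 + (-56094761305735789 / 5000000000000000) * u ^ 4 + (-3142134746531911 /
      3750000000000000) * u ^ 5 + (922171575680657 / 1250000000000000) * u ^ 6 + (37546899672421 /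
      187500000000000) * u ^ 7 + (1212679 / 37500000) * u ^ 8 =
      (1820538551743527631619 / 1139062500000000) * ((3 / 10) - u) ^ 8 + (78442989633719132414839
      / 6834375000000000) * (u - (3 / 20)) ^ 1 * ((3 / 10) - u) ^ 7 + (262462873298598193121809 /
      6834375000000000) * (u - (3 / 20)) ^ 2 * ((3 / 10) - u) ^ 6 + (4987894877971114980743 /
      63281250000000) * (u - (3 / 20)) ^ 3 * ((3 / 10) - u) ^ 5 + (18431058414412587791471 /
      170859375000000) * (u - (3 / 20)) ^ 4 * ((3 / 10) - u) ^ 4 + (42343532001665906069003 /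
      427148437500000) * (u - (3 / 20)) ^ 5 * ((3 / 10) - u) ^ 3 + (8343155939775687760871 /
      142382812500000) * (u - (3 / 20)) ^ 6 * ((3 / 10) - u) ^ 2 + (2140964376114713301697 /
      106787109375000) * (u - (3 / 20)) ^ 7 * ((3 / 10) - u) ^ 1 + (80288837807853763303 /
      26696777343750) * (u - (3 / 20)) ^ 8 := by ring
  rw [h4]
  positivity

private theorem rmm1 {u : ℝ} (h0 : 3 / 10 ≤ u) (h1 : u ≤ 1 / 2) :
    0 ≤ (29554100241 / 20000000000) + (-7530227459948297 / 625000000000000) * u +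
      (164407715061325361 / 5000000000000000) * u ^ 2 + (1877964367494147 / 1250000000000000) * u
      ^ 3 + (-56094761305735789 / 5000000000000000) * u ^ 4 + (-3142134746531911 /
      3750000000000000) * u ^ 5 + (922171575680657 / 1250000000000000) * u ^ 6 + (37546899672421 /
      187500000000000) * u ^ 7 + (1212679 / 37500000) * u ^ 8 := by
  have h2 : 0 ≤ u - (3 / 10) := by linarith
  have h3 : 0 ≤ (1 / 2) - u := by linarith
  have h4 : (29554100241 / 20000000000) + (-7530227459948297 / 625000000000000) * u +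
      (164407715061325361 / 5000000000000000) * u ^ 2 + (1877964367494147 / 1250000000000000) * u
      ^ 3 + (-56094761305735789 / 5000000000000000) * u ^ 4 + (-3142134746531911 /
      3750000000000000) * u ^ 5 + (922171575680657 / 1250000000000000) * u ^ 6 + (37546899672421 /
      187500000000000) * u ^ 7 + (1212679 / 37500000) * u ^ 8 =
      (240866513423561289909 / 800000000000000) * ((1 / 2) - u) ^ 8 + (2355210541125097443271 /
      800000000000000) * (u - (3 / 10)) ^ 1 * ((1 / 2) - u) ^ 7 + (1261604119253394781299 /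
      100000000000000) * (u - (3 / 10)) ^ 2 * ((1 / 2) - u) ^ 6 + (4911092755473069592701 /
      160000000000000) * (u - (3 / 10)) ^ 3 * ((1 / 2) - u) ^ 5 + (369509014317598883771 /
      8000000000000) * (u - (3 / 10)) ^ 4 * ((1 / 2) - u) ^ 4 + (33755399602093294943 /
      768000000000) * (u - (3 / 10)) ^ 5 * ((1 / 2) - u) ^ 3 + (8263016964834786407 /
      320000000000) * (u - (3 / 10)) ^ 6 * ((1 / 2) - u) ^ 2 + (6579076860448614809 /
      768000000000) * (u - (3 / 10)) ^ 7 * ((1 / 2) - u) ^ 1 + (62951083618848819 / 51200000000) *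
      (u - (3 / 10)) ^ 8 := by ring
  rw [h4]
  positivity

private theorem rmm2 {u : ℝ} (h0 : 1 / 2 ≤ u) (h1 : u ≤ 7 / 10) :
    0 ≤ (29554100241 / 20000000000) + (-7530227459948297 / 625000000000000) * u +
      (164407715061325361 / 5000000000000000) * u ^ 2 + (1877964367494147 / 1250000000000000) * u
      ^ 3 + (-56094761305735789 / 5000000000000000) * u ^ 4 + (-3142134746531911 /
      3750000000000000) * u ^ 5 + (922171575680657 / 1250000000000000) * u ^ 6 + (37546899672421 /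
      187500000000000) * u ^ 7 + (1212679 / 37500000) * u ^ 8 := by
  have h2 : 0 ≤ u - (1 / 2) := by linarith
  have h3 : 0 ≤ (7 / 10) - u := by linarith
  have h4 : (29554100241 / 20000000000) + (-7530227459948297 / 625000000000000) * u +
      (164407715061325361 / 5000000000000000) * u ^ 2 + (1877964367494147 / 1250000000000000) * u
      ^ 3 + (-56094761305735789 / 5000000000000000) * u ^ 4 + (-3142134746531911 /
      3750000000000000) * u ^ 5 + (922171575680657 / 1250000000000000) * u ^ 6 + (37546899672421 /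
      187500000000000) * u ^ 7 + (1212679 / 37500000) * u ^ 8 =
      (62951083618848819 / 51200000000) * ((7 / 10) - u) ^ 8 + (8529183208075101751 /
      768000000000) * (u - (1 / 2)) ^ 1 * ((7 / 10) - u) ^ 7 + (83704962872472239927 /
      1920000000000) * (u - (1 / 2)) ^ 2 * ((7 / 10) - u) ^ 6 + (373041573130644866513 /
      3840000000000) * (u - (1 / 2)) ^ 3 * ((7 / 10) - u) ^ 5 + (6451874760050862418751 /
      48000000000000) * (u - (1 / 2)) ^ 4 * ((7 / 10) - u) ^ 4 + (18923811251229865195659 /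
      160000000000000) * (u - (1 / 2)) ^ 5 * ((7 / 10) - u) ^ 3 + (77577653588359334254643 /
      1200000000000000) * (u - (1 / 2)) ^ 6 * ((7 / 10) - u) ^ 2 + (16059047734732877973437 /
      800000000000000) * (u - (1 / 2)) ^ 7 * ((7 / 10) - u) ^ 1 + (1301582393532034930297 /
      480000000000000) * (u - (1 / 2)) ^ 8 := by ring
  rw [h4]
  positivity

private theorem rmm {u : ℝ} (h0 : 3 / 20 ≤ u) (h1 : u ≤ 7 / 10) :
    0 ≤ (29554100241 / 20000000000) + (-7530227459948297 / 625000000000000) * u +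
      (164407715061325361 / 5000000000000000) * u ^ 2 + (1877964367494147 / 1250000000000000) * u
      ^ 3 + (-56094761305735789 / 5000000000000000) * u ^ 4 + (-3142134746531911 /
      3750000000000000) * u ^ 5 + (922171575680657 / 1250000000000000) * u ^ 6 + (37546899672421 /
      187500000000000) * u ^ 7 + (1212679 / 37500000) * u ^ 8 := by
  rcases le_total u (3 / 10) with h | h
  · exact rmm0 h0 h
  rcases le_total u (1 / 2) with h' | h'
  · exact rmm1 h h'
  · exact rmm2 h' h1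

private theorem qr {u : ℝ} (h0 : 0 ≤ u) (h1 : u ≤ 3 / 20) :
    0 ≤ (5131 / 6250000) + (25217491 / 6250000) * u + (-655399849869 / 31250000000) * u ^ 2 +
      (-368574287607 / 15625000000) * u ^ 3 + (24616459099 / 6250000000) * u ^ 4 + (35561019499 /
      7812500000) * u ^ 5 + (7796138841 / 7812500000) * u ^ 6 + (907 / 5000) * u ^ 7 := by
  have h2 : 0 ≤ u - (0) := by linarith
  have h3 : 0 ≤ (3 / 20) - u := by linarith
  have h4 : (5131 / 6250000) + (25217491 / 6250000) * u + (-655399849869 / 31250000000) * u ^ 2 +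
      (-368574287607 / 15625000000) * u ^ 3 + (24616459099 / 6250000000) * u ^ 4 + (35561019499 /
      7812500000) * u ^ 5 + (7796138841 / 7812500000) * u ^ 6 + (907 / 5000) * u ^ 7 =
      (5254144 / 10935) * ((3 / 20) - u) ^ 7 + (19550928128 / 54675) * (u - (0)) ^ 1 * ((3 / 20) -
      u) ^ 6 + (105889032403144 / 56953125) * (u - (0)) ^ 2 * ((3 / 20) - u) ^ 5 +
      (3333989427174244 / 854296875) * (u - (0)) ^ 3 * ((3 / 20) - u) ^ 4 + (7097796109637771 /
      1708593750) * (u - (0)) ^ 4 * ((3 / 20) - u) ^ 3 + (16272138236979647 / 7119140625) * (u -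
      (0)) ^ 5 * ((3 / 20) - u) ^ 2 + (482931126264849869 / 854296875000) * (u - (0)) ^ 6 * ((3 /
      20) - u) ^ 1 + (14223017244273427 / 427148437500) * (u - (0)) ^ 7 := by ring
  rw [h4]
  positivity

private theorem ql {u : ℝ} (h0 : 0 ≤ u) (h1 : u ≤ 3 / 20) :
    0 ≤ (25717 / 20000000) + (32854059 / 200000000) * u + (20971026058289 / 1000000000000) * u ^ 2 +
      (5896936505871 / 250000000000) * u ^ 3 + (-3938276387117 / 1000000000000) * u ^ 4 +
      (-1137954073501 / 250000000000) * u ^ 5 + (-249476465671 / 250000000000) * u ^ 6 + (-907 /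
      5000) * u ^ 7 := by
  have h2 : 0 ≤ u - (0) := by linarith
  have h3 : 0 ≤ (3 / 20) - u := by linarith
  have h4 : (25717 / 20000000) + (32854059 / 200000000) * u + (20971026058289 / 1000000000000) * u ^ 2 +
      (5896936505871 / 250000000000) * u ^ 3 + (-3938276387117 / 1000000000000) * u ^ 4 +
      (-1137954073501 / 250000000000) * u ^ 5 + (-249476465671 / 250000000000) * u ^ 6 + (-907 /
      5000) * u ^ 7 =
      (1645888 / 2187) * ((3 / 20) - u) ^ 7 + (1076527816 / 54675) * (u - (0)) ^ 1 * ((3 / 20) -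
      u) ^ 6 + (86225893574867 / 227812500) * (u - (0)) ^ 2 * ((3 / 20) - u) ^ 5 +
      (2853461988136771 / 1708593750) * (u - (0)) ^ 3 * ((3 / 20) - u) ^ 4 + (891637970721772963 /
      273375000000) * (u - (0)) ^ 4 * ((3 / 20) - u) ^ 3 + (744855576403708817 / 227812500000) *
      (u - (0)) ^ 5 * ((3 / 20) - u) ^ 2 + (45245364595847897021 / 27337500000000) * (u - (0)) ^ 6
      * ((3 / 20) - u) ^ 1 + (9200512651353339281 / 27337500000000) * (u - (0)) ^ 7 := by ring
  rw [h4]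
  positivity

private theorem qb {u : ℝ} (h0 : 0 ≤ u) (h1 : u ≤ 3 / 20) :
    0 ≤ (1 / 5000) + (672299 / 976562500) * u + (413113479049 / 15625000000) * u ^ 2 +
      (-128742358233 / 3125000000) * u ^ 3 + (-114680322223 / 15625000000) * u ^ 4 + (1805535426 /
      244140625) * u ^ 5 + (8846935503 / 3906250000) * u ^ 6 + (1851797533 / 3125000000) * u ^ 7 := by
  have h2 : 0 ≤ u - (0) := by linarith
  have h3 : 0 ≤ (3 / 20) - u := by linarith
  have h4 : (1 / 5000) + (672299 / 976562500) * u + (413113479049 / 15625000000) * u ^ 2 +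
      (-128742358233 / 3125000000) * u ^ 3 + (-114680322223 / 15625000000) * u ^ 4 + (1805535426 /
      244140625) * u ^ 5 + (8846935503 / 3906250000) * u ^ 6 + (1851797533 / 3125000000) * u ^ 7 =
      (256000 / 2187) * ((3 / 20) - u) ^ 7 + (30065302528 / 34171875) * (u - (0)) ^ 1 * ((3 / 20)
      - u) ^ 6 + (19990100019632 / 56953125) * (u - (0)) ^ 2 * ((3 / 20) - u) ^ 5 +
      (284392427915716 / 170859375) * (u - (0)) ^ 3 * ((3 / 20) - u) ^ 4 + (13495041927067537 /
      4271484375) * (u - (0)) ^ 4 * ((3 / 20) - u) ^ 3 + (21290613584460781 / 7119140625) * (u -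
      (0)) ^ 5 * ((3 / 20) - u) ^ 2 + (602567927541574307 / 427148437500) * (u - (0)) ^ 6 * ((3 /
      20) - u) ^ 1 + (1812070757993703023 / 6834375000000) * (u - (0)) ^ 7 := by ring
  rw [h4]
  positivity

private theorem qB {u : ℝ} (h0 : 0 ≤ u) (h1 : u ≤ 3 / 20) :
    0 ≤ (3231 / 5000) + (499287211077 / 250000000000) * u + (-13220104880029 / 500000000000) * u ^ 2
      + (20598565865463 / 500000000000) * u ^ 3 + (3669318875061 / 500000000000) * u ^ 4 +
      (-462192931681 / 62500000000) * u ^ 5 + (-566204189301 / 250000000000) * u ^ 6 +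
      (-59257521823 / 100000000000) * u ^ 7 := by
  have h2 : 0 ≤ u - (0) := by linarith
  have h3 : 0 ≤ (3 / 20) - u := by linarith
  have h4 : (3231 / 5000) + (499287211077 / 250000000000) * u + (-13220104880029 / 500000000000) * u ^ 2
      + (20598565865463 / 500000000000) * u ^ 3 + (3669318875061 / 500000000000) * u ^ 4 +
      (-462192931681 / 62500000000) * u ^ 5 + (-566204189301 / 250000000000) * u ^ 6 +
      (-59257521823 / 100000000000) * u ^ 7 =
      (91904000 / 243) * ((3 / 20) - u) ^ 7 + (132317484956 / 46875) * (u - (0)) ^ 1 * ((3 / 20) -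
      u) ^ 6 + (328282872006131 / 37968750) * (u - (0)) ^ 2 * ((3 / 20) - u) ^ 5 +
      (10788934053901489 / 759375000) * (u - (0)) ^ 3 * ((3 / 20) - u) ^ 4 + (206393562672350669 /
      15187500000) * (u - (0)) ^ 4 * ((3 / 20) - u) ^ 3 + (575980605017875861 / 75937500000) * (u
      - (0)) ^ 5 * ((3 / 20) - u) ^ 2 + (2318499715448186033 / 1012500000000) * (u - (0)) ^ 6 *
      ((3 / 20) - u) ^ 1 + (7012049599105248683 / 24300000000000) * (u - (0)) ^ 7 := by ring
  rw [h4]
  positivity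

private theorem qa {u : ℝ} (h0 : 0 ≤ u) (h1 : u ≤ 3 / 20) :
    0 ≤ (1 / 5000) + (37454821 / 3906250000) * u + (223006050299 / 15625000000) * u ^ 2 +
      (-576638682057 / 12500000000) * u ^ 3 + (-10504694613531 / 500000000000) * u ^ 4 +
      (944584381907 / 125000000000) * u ^ 5 + (187656123831 / 50000000000) * u ^ 6 + (90990622177
      / 100000000000) * u ^ 7 + (1212679 / 20000000) * u ^ 8 := by
  have h2 : 0 ≤ u - (0) := by linarith
  have h3 : 0 ≤ (3 / 20) - u := by linarith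
  have h4 : (1 / 5000) + (37454821 / 3906250000) * u + (223006050299 / 15625000000) * u ^ 2 +
      (-576638682057 / 12500000000) * u ^ 3 + (-10504694613531 / 500000000000) * u ^ 4 +
      (944584381907 / 125000000000) * u ^ 5 + (187656123831 / 50000000000) * u ^ 6 + (90990622177
      / 100000000000) * u ^ 7 + (1212679 / 20000000) * u ^ 8 =
      (5120000 / 6561) * ((3 / 20) - u) ^ 8 + (243061210112 / 20503125) * (u - (0)) ^ 1 * ((3 /
      20) - u) ^ 7 + (134718627326144 / 102515625) * (u - (0)) ^ 2 * ((3 / 20) - u) ^ 6 +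
      (724993359232948 / 102515625) * (u - (0)) ^ 3 * ((3 / 20) - u) ^ 5 + (327373739344739989 /
      20503125000) * (u - (0)) ^ 4 * ((3 / 20) - u) ^ 4 + (1954087563323403181 / 102515625000) *
      (u - (0)) ^ 5 * ((3 / 20) - u) ^ 3 + (10348025754330991783 / 820125000000) * (u - (0)) ^ 6 *
      ((3 / 20) - u) ^ 2 + (143263034499064199579 / 32805000000000) * (u - (0)) ^ 7 * ((3 / 20) -
      u) ^ 1 + (20103255773182773529 / 32805000000000) * (u - (0)) ^ 8 := by ring
  rw [h4]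
  positivity

private theorem qfr {u : ℝ} (h0 : 0 ≤ u) (h1 : u ≤ 3 / 20) :
    0 ≤ (6871718111967 / 64000000000000) + (256258365723 / 16000000000) * u + (17677251 / 250000) *
      u ^ 2 + (-315 / 16) * u ^ 3 + (5625) * u ^ 4 := by
  have h2 : 0 ≤ u - (0) := by linarith
  have h3 : 0 ≤ (3 / 20) - u := by linarith
  have h4 : (6871718111967 / 64000000000000) + (256258365723 / 16000000000) * u + (17677251 / 250000) *
      u ^ 2 + (-315 / 16) * u ^ 3 + (5625) * u ^ 4 =
      (254508078221 / 1200000000) * ((3 / 20) - u) ^ 4 + (1678165665571 / 300000000) * (u - (0)) ^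
      1 * ((3 / 20) - u) ^ 3 + (3730347732921 / 200000000) * (u - (0)) ^ 2 * ((3 / 20) - u) ^ 2 +
      (6371679280271 / 300000000) * (u - (0)) ^ 3 * ((3 / 20) - u) ^ 1 + (16312785307621 /
      1200000000) * (u - (0)) ^ 4 := by ring
  rw [h4]
  positivity

private theorem qfl {u : ℝ} (h0 : 0 ≤ u) (h1 : u ≤ 3 / 20) :
    0 ≤ (1415520806931 / 12800000000000) + (1638424475127 / 80000000000) * u + (381848391 /
      25000000) * u ^ 2 + (-315 / 16) * u ^ 3 + (5625) * u ^ 4 := by
  have h2 : 0 ≤ u - (0) := by linarith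
  have h3 : 0 ≤ (3 / 20) - u := by linarith
  have h4 : (1415520806931 / 12800000000000) + (1638424475127 / 80000000000) * u + (381848391 /
      25000000) * u ^ 2 + (-315 / 16) * u ^ 3 + (5625) * u ^ 4 =
      (52426696553 / 240000000) * ((3 / 20) - u) ^ 4 + (138840341453 / 20000000) * (u - (0)) ^ 1 *
      ((3 / 20) - u) ^ 3 + (32310760621 / 1600000) * (u - (0)) ^ 2 * ((3 / 20) - u) ^ 2 +
      (1218295670051 / 60000000) * (u - (0)) ^ 3 * ((3 / 20) - u) ^ 1 + (996741995979 / 80000000)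
      * (u - (0)) ^ 4 := by ring
  rw [h4]
  positivity

private theorem qz1 {u : ℝ} (h0 : 0 ≤ u) (h1 : u ≤ 7 / 10) :
    0 ≤ (1020981 / 390625) + (18575169 / 1562500) * u + (-8598901 / 390625) * u ^ 2 + (9) * u ^ 3 := by
  have h2 : 0 ≤ u - (0) := by linarith
  have h3 : 0 ≤ (7 / 10) - u := by linarith
  have h4 : (1020981 / 390625) + (18575169 / 1562500) * u + (-8598901 / 390625) * u ^ 2 + (9) * u ^ 3 =
      (8167848 / 1071875) * ((7 / 10) - u) ^ 3 + (252543903 / 5359375) * (u - (0)) ^ 1 * ((7 / 10)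
      - u) ^ 2 + (1070158132 / 26796875) * (u - (0)) ^ 2 * ((7 / 10) - u) ^ 1 + (252806692 /
      26796875) * (u - (0)) ^ 3 := by ring
  rw [h4]
  positivity

private theorem qz2 {u : ℝ} (h0 : 0 ≤ u) (h1 : u ≤ 7 / 10) :
    0 ≤ (84650997 / 25000000) + (-594407139 / 50000000) * u + (275164781 / 12500000) * u ^ 2 + (-9)
      * u ^ 3 := by
  have h2 : 0 ≤ u - (0) := by linarith
  have h3 : 0 ≤ (7 / 10) - u := by linarith
  have h4 : (84650997 / 25000000) + (-594407139 / 50000000) * u + (275164781 / 12500000) * u ^ 2 + (-9)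
      * u ^ 3 =
      (84650997 / 8575000) * ((7 / 10) - u) ^ 3 + (918209847 / 171500000) * (u - (0)) ^ 1 * ((7 /
      10) - u) ^ 2 + (2688236977 / 214375000) * (u - (0)) ^ 2 * ((7 / 10) - u) ^ 1 + (6909498373 /
      857500000) * (u - (0)) ^ 3 := by ring
  rw [h4]
  positivity

private theorem su_ml {k k' e z zu Z : ℝ} (hk : |k - k'| ≤ e) (hk' : 0 ≤ k') (hz : z ≤ zu)
    (hZ : |z| ≤ Z) : k * z ≤ k' * zu + e * Z := by
  have h1 : |(k - k') * z| ≤ e * Z := by
    rw [abs_mul]
    exact mul_le_mul hk hZ (abs_nonneg _) ((abs_nonneg _).trans hk)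
  have h2 := (abs_le.1 h1).2
  have h3 := mul_le_mul_of_nonneg_left hz hk'
  nlinarith

private theorem su_mg {k k' e z zl Z : ℝ} (hk : |k - k'| ≤ e) (hk' : 0 ≤ k') (hz : zl ≤ z)
    (hZ : |z| ≤ Z) : k' * zl - e * Z ≤ k * z := by
  have h1 : |(k - k') * z| ≤ e * Z := by
    rw [abs_mul]
    exact mul_le_mul hk hZ (abs_nonneg _) ((abs_nonneg _).trans hk)
  have h2 := (abs_le.1 h1).1
  have h3 := mul_le_mul_of_nonneg_left hz hk'
  nlinarith

private theorem su_bd {u a f g k h L : ℝ} (hu0 : 0 ≤ u) (hu1 : u ≤ 7 / 10) (ha1 : 3231 / 10000 ≤ a)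
    (ha2 : a ≤ 3232 / 10000)
    (hf : |f - (1 + u / 2 + u ^ 2 * (762 / 10000 + 59 / 10000 * u))| ≤ 1 / 10000 * u ^ 2)
    (hg : |g - (1195 / 1000 + 3462 / 10000 * u + 408 / 10000 * u ^ 2)| ≤ 2 / 10000)
    (hk : |k - (1 + u + u ^ 2 * (334 / 1000 + 563 / 10000 * u + 65 / 10000 * u ^ 2))| ≤
      1 / 10000 * u ^ 2)
    (hh : |h - (26641 / 10000 + 16655 / 10000 * u + 3996 / 10000 * u ^ 2 + 644 / 10000 * u ^ 3)| ≤
      2 / 10000)
    (hL : 93283 / 10000 ≤ L) :
    (h * ((u ^ 3 * (2 - u)) + a * f) + 2 * (k * (a * g + (u * (-12 + 22 * u - 9 * u ^ 2)))) ≤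
      (26643 / 10000 + 16655 / 10000 * u + 3996 / 10000 * u ^ 2 + 644 / 10000 * u ^ 3) * ((u ^ 3
      * (2 - u)) + 3232 / 10000 * (1 + u / 2 + u ^ 2 * (763 / 10000 + 59 / 10000 * u))) + 2 *
      ((1 + u + u ^ 2 * (3340 / 10000 + 563 / 10000 * u + 65 / 10000 * u ^ 2)) * (3232 / 10000 *
      (11952 / 10000 + 3462 / 10000 * u + 408 / 10000 * u ^ 2) + (u * (-12 + 22 * u - 9 * u ^
      2))) + 3 / 10000 * u ^ 2)) ∧
    ((26639 / 10000 + 16655 / 10000 * u + 3996 / 10000 * u ^ 2 + 644 / 10000 * u ^ 3) * ((u ^ 3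
      * (2 - u)) + 3231 / 10000 * (1 + u / 2 + u ^ 2 * (761 / 10000 + 59 / 10000 * u))) + 2 *
      ((1 + u + u ^ 2 * (3340 / 10000 + 563 / 10000 * u + 65 / 10000 * u ^ 2)) * (3231 / 10000 *
      (11948 / 10000 + 3462 / 10000 * u + 408 / 10000 * u ^ 2) + (u * (-12 + 22 * u - 9 * u ^
      2))) - 3 / 10000 * u ^ 2) ≤
      h * ((u ^ 3 * (2 - u)) + a * f) + 2 * (k * (a * g + (u * (-12 + 22 * u - 9 * u ^ 2))))) ∧
    (-(u * ((26641 / 10000 + 16655 / 10000 * u + 3996 / 10000 * u ^ 2 + 644 / 10000 * u ^ 3) *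
      (3232 / 10000 * (11952 / 10000 + 3462 / 10000 * u + 408 / 10000 * u ^ 2) + (u * (-12 + 22
      * u - 9 * u ^ 2))) + 6 / 10000)) + 93283 / 10000 * (1 - u) * (1 + u + u ^ 2 * (3339 /
      10000 + 563 / 10000 * u + 65 / 10000 * u ^ 2)) * (u ^ 2 * (2 - u)) + 2 * ((1 + u + u ^ 2 *
      (3339 / 10000 + 563 / 10000 * u + 65 / 10000 * u ^ 2)) * ((u ^ 2 * (2 - u)) + 3231 / 10000
      * (1 + u / 2 + u ^ 2 * (761 / 10000 + 59 / 10000 * u)))) ≤
      -(u * (h * (a * g + (u * (-12 + 22 * u - 9 * u ^ 2))))) + L * (1 - u) * k * (u ^ 2 * (2 -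
      u)) + 2 * (k * ((u ^ 2 * (2 - u)) + a * f))) ∧
    (u * (h * (a * g + (u * (-12 + 22 * u - 9 * u ^ 2)))) + 2 * (k * ((u ^ 2 * (2 - u)) + a *
      f)) ≤
      (u * ((26641 / 10000 + 16655 / 10000 * u + 3996 / 10000 * u ^ 2 + 644 / 10000 * u ^ 3) *
      (3232 / 10000 * (11952 / 10000 + 3462 / 10000 * u + 408 / 10000 * u ^ 2) + (u * (-12 + 22
      * u - 9 * u ^ 2))) + 6 / 10000)) + 2 * ((1 + u + u ^ 2 * (3341 / 10000 + 563 / 10000 * u +
      65 / 10000 * u ^ 2)) * ((u ^ 2 * (2 - u)) + 3232 / 10000 * (1 + u / 2 + u ^ 2 * (763 /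
      10000 + 59 / 10000 * u))))) ∧
    ((u * ((26641 / 10000 + 16655 / 10000 * u + 3996 / 10000 * u ^ 2 + 644 / 10000 * u ^ 3) *
      (3231 / 10000 * (11948 / 10000 + 3462 / 10000 * u + 408 / 10000 * u ^ 2) + (u * (-12 + 22
      * u - 9 * u ^ 2))) - 6 / 10000)) + 2 * ((1 + u + u ^ 2 * (3339 / 10000 + 563 / 10000 * u +
      65 / 10000 * u ^ 2)) * ((u ^ 2 * (2 - u)) + 3231 / 10000 * (1 + u / 2 + u ^ 2 * (761 /
      10000 + 59 / 10000 * u)))) ≤
      u * (h * (a * g + (u * (-12 + 22 * u - 9 * u ^ 2)))) + 2 * (k * ((u ^ 2 * (2 - u)) + a *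
      f))) := by
  have hu2 : 0 ≤ u ^ 2 := by positivity
  have hu3 : 0 ≤ u ^ 3 := by positivity
  have hu4 : 0 ≤ u ^ 4 := by positivity
  have hw2 : 0 ≤ u ^ 2 * (2 - u) := mul_nonneg hu2 (by linarith)
  have hw3 : 0 ≤ u ^ 3 * (2 - u) := mul_nonneg hu3 (by linarith)
  obtain ⟨f1, f2⟩ := abs_le.1 hf
  obtain ⟨g1, g2⟩ := abs_le.1 hg
  obtain ⟨k1, k2⟩ := abs_le.1 hk
  obtain ⟨h1, h2⟩ := abs_le.1 hh
  have fl : (1 + u / 2 + u ^ 2 * (761 / 10000 + 59 / 10000 * u)) ≤ f := by linarith only [f1]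
  have fu : f ≤ (1 + u / 2 + u ^ 2 * (763 / 10000 + 59 / 10000 * u)) := by linarith only [f2]
  have gl : (11948 / 10000 + 3462 / 10000 * u + 408 / 10000 * u ^ 2) ≤ g := by linarith only [g1]
  have gu : g ≤ (11952 / 10000 + 3462 / 10000 * u + 408 / 10000 * u ^ 2) := by linarith only [g2]
  have kl : (1 + u + u ^ 2 * (3339 / 10000 + 563 / 10000 * u + 65 / 10000 * u ^ 2)) ≤ k := by linarith only [k1]
  have ku : k ≤ (1 + u + u ^ 2 * (3341 / 10000 + 563 / 10000 * u + 65 / 10000 * u ^ 2)) := by linarith only [k2]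
  have hl : (26639 / 10000 + 16655 / 10000 * u + 3996 / 10000 * u ^ 2 + 644 / 10000 * u ^ 3) ≤ h := by linarith only [h1]
  have hu : h ≤ (26643 / 10000 + 16655 / 10000 * u + 3996 / 10000 * u ^ 2 + 644 / 10000 * u ^ 3) := by linarith only [h2]
  have fl0 : 0 ≤ (1 + u / 2 + u ^ 2 * (761 / 10000 + 59 / 10000 * u)) := by positivity
  have gl0 : 0 ≤ (11948 / 10000 + 3462 / 10000 * u + 408 / 10000 * u ^ 2) := by positivity
  have kl0 : 0 ≤ (1 + u + u ^ 2 * (3339 / 10000 + 563 / 10000 * u + 65 / 10000 * u ^ 2)) := by positivity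
  have kh0 : 0 ≤ 1 + u + u ^ 2 * (334 / 1000 + 563 / 10000 * u + 65 / 10000 * u ^ 2) := by positivity
  have hl0 : 0 ≤ (26639 / 10000 + 16655 / 10000 * u + 3996 / 10000 * u ^ 2 + 644 / 10000 * u ^ 3) := by positivity
  have hh0 : 0 ≤ 26641 / 10000 + 16655 / 10000 * u + 3996 / 10000 * u ^ 2 + 644 / 10000 * u ^ 3 := by
    positivity
  have f0 : 0 ≤ f := fl0.trans fl
  have g0 : 0 ≤ g := gl0.trans gl
  have k0 : 0 ≤ k := kl0.trans kl
  have h0 : 0 ≤ h := hl0.trans hl
  have a0 : 0 ≤ a := by linarith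
  have afu : a * f ≤ 3232 / 10000 * (1 + u / 2 + u ^ 2 * (763 / 10000 + 59 / 10000 * u)) := mul_le_mul ha2 fu f0 (by norm_num)
  have afl : 3231 / 10000 * (1 + u / 2 + u ^ 2 * (761 / 10000 + 59 / 10000 * u)) ≤ a * f := mul_le_mul ha1 fl fl0 a0
  have agu : a * g ≤ 3232 / 10000 * (11952 / 10000 + 3462 / 10000 * u + 408 / 10000 * u ^ 2) := mul_le_mul ha2 gu g0 (by norm_num)
  have agl : 3231 / 10000 * (11948 / 10000 + 3462 / 10000 * u + 408 / 10000 * u ^ 2) ≤ a * g := mul_le_mul ha1 gl gl0 a0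
  have zu : (a * g + (u * (-12 + 22 * u - 9 * u ^ 2))) ≤ (3232 / 10000 * (11952 / 10000 + 3462 / 10000 * u + 408 / 10000 * u ^ 2) + (u * (-12 + 22
      * u - 9 * u ^ 2))) := by linarith only [agu]
  have zl : (3231 / 10000 * (11948 / 10000 + 3462 / 10000 * u + 408 / 10000 * u ^ 2) + (u * (-12 + 22
      * u - 9 * u ^ 2))) ≤ (a * g + (u * (-12 + 22 * u - 9 * u ^ 2))) := by linarith only [agl]
  have Z : |(a * g + (u * (-12 + 22 * u - 9 * u ^ 2)))| ≤ 3 := by
    rw [abs_le]
    have q1 := qz1 hu0 hu1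
    have q2 := qz2 hu0 hu1
    constructor
    · linarith only [zl, q2]
    · linarith only [zu, q1]
  have kzu := su_ml hk kh0 zu Z
  have kzl := su_mg hk kh0 zl Z
  have hzu := su_ml hh hh0 zu Z
  have hzl := su_mg hh hh0 zl Z
  have Tu : h * ((u ^ 3 * (2 - u)) + a * f) ≤ (26643 / 10000 + 16655 / 10000 * u + 3996 / 10000 * u ^ 2 + 644 / 10000 * u ^ 3) * ((u ^ 3 * (2 - u)) + 3232 / 10000 * (1 + u / 2 + u ^ 2 * (763 / 10000 + 59 / 10000 * u))) :=
    mul_le_mul hu (by linarith only [afu]) (by positivity) (h0.trans hu)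
  have Tl : (26639 / 10000 + 16655 / 10000 * u + 3996 / 10000 * u ^ 2 + 644 / 10000 * u ^ 3) * ((u ^ 3 * (2 - u)) + 3231 / 10000 * (1 + u / 2 + u ^ 2 * (761 / 10000 + 59 / 10000 * u))) ≤ h * ((u ^ 3 * (2 - u)) + a * f) :=
    mul_le_mul hl (by linarith only [afl]) (by positivity) h0
  have Eu : k * ((u ^ 2 * (2 - u)) + a * f) ≤ (1 + u + u ^ 2 * (3341 / 10000 + 563 / 10000 * u + 65 / 10000 * u ^ 2)) * ((u ^ 2 * (2 - u)) + 3232 / 10000 * (1 + u / 2 + u ^ 2 * (763 / 10000 + 59 / 10000 * u))) :=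
    mul_le_mul ku (by linarith only [afu]) (by positivity) (k0.trans ku)
  have El : (1 + u + u ^ 2 * (3339 / 10000 + 563 / 10000 * u + 65 / 10000 * u ^ 2)) * ((u ^ 2 * (2 - u)) + 3231 / 10000 * (1 + u / 2 + u ^ 2 * (761 / 10000 + 59 / 10000 * u))) ≤ k * ((u ^ 2 * (2 - u)) + a * f) :=
    mul_le_mul kl (by linarith only [afl]) (by positivity) k0
  have Lk : 93283 / 10000 * (1 - u) * (1 + u + u ^ 2 * (3339 / 10000 + 563 / 10000 * u + 65 / 10000 * u ^ 2)) * (u ^ 2 * (2 - u)) ≤ L * (1 - u) * k * (u ^ 2 * (2 - u)) := by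
    refine mul_le_mul_of_nonneg_right ?_ hw2
    exact mul_le_mul (mul_le_mul_of_nonneg_right hL (by linarith)) kl kl0
      (mul_nonneg (by linarith) (by linarith))
  have uhu := mul_le_mul_of_nonneg_left hzu hu0
  have uhl := mul_le_mul_of_nonneg_left hzl hu0
  refine ⟨?_, ?_, ?_, ?_, ?_⟩
  · linarith only [Tu, kzu]
  · linarith only [Tl, kzl]
  · linarith only [uhu, Lk, El]
  · linarith only [uhu, Eu]
  · linarith only [uhl, El]

private theorem su_div {u h H e : ℝ} (hu : 0 ≤ u) (he : 0 ≤ e) (hh : |h - u * H| ≤ e * u) :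
    ∃ h1, h = u * h1 ∧ |h1 - H| ≤ e := by
  rcases hu.eq_or_lt with h0 | h0
  · refine ⟨H, ?_, by simpa using he⟩
    rw [← h0] at hh ⊢
    simpa using hh
  · refine ⟨h / u, by field_simp, ?_⟩
    have h1 : |(h / u - H)| * u = |h - u * H| := by
      rw [← abs_of_pos h0, ← abs_mul, abs_of_pos h0]
      congr 1
      field_simp
    rw [← h1] at hh
    exact le_of_mul_le_mul_right hh h0

private theorem su_c1 {t x D A B ρ c : ℝ} (hρ : 0 ≤ ρ) (ht : t ≤ c) (ht0 : 0 ≤ t) (hx : |x| ≤ c)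
    (h1 : 0 ≤ ρ * A - c * (D + ρ * B)) (h2 : 0 ≤ ρ * A - c * (D - ρ * B))
    (h3 : 0 ≤ ρ * A - c * (-D + ρ * B)) (h4 : 0 ≤ ρ * A - c * (-D - ρ * B)) :
    t * |D| ≤ ρ * (A + x * B) := by
  have h5 : t * |D| ≤ c * |D| := mul_le_mul_of_nonneg_right ht (abs_nonneg _)
  have h6 : -(x * B) ≤ c * |B| := by
    refine (neg_le_abs _).trans ?_
    rw [abs_mul]
    exact mul_le_mul_of_nonneg_right hx (abs_nonneg _)
  have h7 : c * |D| + ρ * (c * |B|) ≤ ρ * A := by
    rcases abs_cases D with ⟨e1, _⟩ | ⟨e1, _⟩ <;> rcases abs_cases B with ⟨e2, _⟩ | ⟨e2, _⟩ <;>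
      rw [e1, e2] <;> linarith
  have h8 := mul_le_mul_of_nonneg_left h6 hρ
  linarith

private theorem su_c2 {t x m D A B ρ c b a' e : ℝ} (hρ : 0 ≤ ρ) (ht : t ^ 2 + x ^ 2 = m ^ 2)
    (hm0 : 0 ≤ m) (hm : m ≤ c) (hD : D ^ 2 ≤ e) (hB : B ^ 2 ≤ b ^ 2) (ha : 0 ≤ a') (hA : a' ≤ A)
    (h : c ^ 2 * (e + ρ ^ 2 * b ^ 2) ≤ ρ ^ 2 * a' ^ 2) : t * |D| ≤ ρ * (A + x * B) := by
  have h1 : (t * |D| - ρ * (x * B)) ^ 2 ≤ (ρ * A) ^ 2 := by
    have h2 : (t * |D| - ρ * (x * B)) ^ 2 ≤ (t ^ 2 + x ^ 2) * (D ^ 2 + ρ ^ 2 * B ^ 2) := by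
      have h3 : (t ^ 2 + x ^ 2) * (D ^ 2 + ρ ^ 2 * B ^ 2) - (t * |D| - ρ * (x * B)) ^ 2 =
          (x * |D| + ρ * (t * B)) ^ 2 := by
        rw [← sq_abs D]
        ring
      linarith [_root_.sq_nonneg (x * |D| + ρ * (t * B))]
    have h4 : m ^ 2 ≤ c ^ 2 := pow_le_pow_left₀ hm0 hm 2
    have h5 : D ^ 2 + ρ ^ 2 * B ^ 2 ≤ e + ρ ^ 2 * b ^ 2 :=
      add_le_add hD (mul_le_mul_of_nonneg_left hB (by positivity))
    have h6 : a' ^ 2 ≤ A ^ 2 := pow_le_pow_left₀ ha hA 2
    calc (t * |D| - ρ * (x * B)) ^ 2 ≤ (t ^ 2 + x ^ 2) * (D ^ 2 + ρ ^ 2 * B ^ 2) := h2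
      _ = m ^ 2 * (D ^ 2 + ρ ^ 2 * B ^ 2) := by rw [ht]
      _ ≤ c ^ 2 * (e + ρ ^ 2 * b ^ 2) := mul_le_mul h4 h5 (by positivity) (by positivity)
      _ ≤ ρ ^ 2 * a' ^ 2 := h
      _ ≤ ρ ^ 2 * A ^ 2 := mul_le_mul_of_nonneg_left h6 (by positivity)
      _ = (ρ * A) ^ 2 := by ring
  have h7 := (abs_le.1 (abs_le_of_sq_le_sq h1 (mul_nonneg hρ (ha.trans hA)))).2
  linarith

private theorem su_core1 {u a f g k h L t x : ℝ} (hu0 : 0 ≤ u) (hu1 : u ≤ 7 / 10) (ha1 : 3231 / 10000 ≤ a)
    (ha2 : a ≤ 3232 / 10000)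
    (hf : |f - (1 + u / 2 + u ^ 2 * (762 / 10000 + 59 / 10000 * u))| ≤ 1 / 10000 * u ^ 2)
    (hg : |g - (1195 / 1000 + 3462 / 10000 * u + 408 / 10000 * u ^ 2)| ≤ 2 / 10000)
    (hk : |k - (1 + u + u ^ 2 * (334 / 1000 + 563 / 10000 * u + 65 / 10000 * u ^ 2))| ≤
      1 / 10000 * u ^ 2)
    (hh : |h - (26641 / 10000 + 16655 / 10000 * u + 3996 / 10000 * u ^ 2 + 644 / 10000 * u ^ 3)| ≤
      2 / 10000)
    (hL : 93283 / 10000 ≤ L) (hu : 3 / 20 ≤ u) (ht0 : 0 ≤ t) (ht : t ≤ 573 / 1000)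
    (hx : |x| ≤ 573 / 1000) :
    t * |h * ((u ^ 3 * (2 - u)) + a * f) + 2 * (k * (a * g + (u * (-12 + 22 * u - 9 * u ^ 2))))| ≤
      8 / 15 * ((-(u * (h * (a * g + (u * (-12 + 22 * u - 9 * u ^ 2))))) + L * (1 - u) * k * (u ^ 2 * (2 -
      u)) + 2 * (k * ((u ^ 2 * (2 - u)) + a * f))) +
      x * (u * (h * (a * g + (u * (-12 + 22 * u - 9 * u ^ 2)))) + 2 * (k * ((u ^ 2 * (2 - u)) + a *
      f)))) := by
  obtain ⟨b1, b2, b3, b4, b5⟩ := su_bd hu0 hu1 ha1 ha2 hf hg hk hh hL
  have p1 := rpp hu hu1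
  have p2 := rpm hu hu1
  have p3 := rmp hu hu1
  have p4 := rmm hu hu1
  obtain ⟨D, hD⟩ : ∃ D, D = h * ((u ^ 3 * (2 - u)) + a * f) + 2 * (k * (a * g + (u * (-12 + 22 * u - 9 * u ^ 2)))) := ⟨_, rfl⟩
  obtain ⟨A, hA⟩ : ∃ A, A = -(u * (h * (a * g + (u * (-12 + 22 * u - 9 * u ^ 2))))) + L * (1 - u) * k * (u ^ 2 * (2 -
      u)) + 2 * (k * ((u ^ 2 * (2 - u)) + a * f)) := ⟨_, rfl⟩
  obtain ⟨B, hB⟩ : ∃ B, B = u * (h * (a * g + (u * (-12 + 22 * u - 9 * u ^ 2)))) + 2 * (k * ((u ^ 2 * (2 - u)) + a *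
      f)) := ⟨_, rfl⟩
  rw [← hD] at b1 b2 ⊢
  rw [← hA] at b3 ⊢
  rw [← hB] at b4 b5 ⊢
  exact su_c1 (by norm_num) ht ht0 hx (by linarith only [b1, b3, b4, p1])
    (by linarith only [b1, b3, b5, p2]) (by linarith only [b2, b3, b4, p3])
    (by linarith only [b2, b3, b5, p4])

private theorem su_core2 {u a f g k h L t x m : ℝ} (hu0 : 0 ≤ u) (hu1 : u ≤ 7 / 10) (ha1 : 3231 / 10000 ≤ a)
    (ha2 : a ≤ 3232 / 10000)
    (hf : |f - (1 + u / 2 + u ^ 2 * (762 / 10000 + 59 / 10000 * u))| ≤ 1 / 10000 * u ^ 2)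
    (hg : |g - (1195 / 1000 + 3462 / 10000 * u + 408 / 10000 * u ^ 2)| ≤ 2 / 10000)
    (hk : |k - (1 + u + u ^ 2 * (334 / 1000 + 563 / 10000 * u + 65 / 10000 * u ^ 2))| ≤
      1 / 10000 * u ^ 2)
    (hh : |h - (26641 / 10000 + 16655 / 10000 * u + 3996 / 10000 * u ^ 2 + 644 / 10000 * u ^ 3)| ≤
      2 / 10000)
    (hL : 93283 / 10000 ≤ L) (hu : u ≤ 3 / 20) (ht : t ^ 2 + x ^ 2 = m ^ 2)
    (hm0 : 0 ≤ m) (hm : m ≤ 573 / 1000) :
    t * |h * ((u ^ 3 * (2 - u)) + a * f) + 2 * (k * (a * g + (u * (-12 + 22 * u - 9 * u ^ 2))))| ≤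
      15 / 8 * ((-(u * (h * (a * g + (u * (-12 + 22 * u - 9 * u ^ 2))))) + L * (1 - u) * k * (u ^ 2 * (2 -
      u)) + 2 * (k * ((u ^ 2 * (2 - u)) + a * f))) +
      x * (u * (h * (a * g + (u * (-12 + 22 * u - 9 * u ^ 2)))) + 2 * (k * ((u ^ 2 * (2 - u)) + a *
      f)))) := by
  obtain ⟨b1, b2, b3, b4, b5⟩ := su_bd hu0 hu1 ha1 ha2 hf hg hk hh hL
  have p1 := qr hu0 hu
  have p2 := ql hu0 hu
  have p3 := qb hu0 hu
  have p4 := qB hu0 hu
  have p5 := qa hu0 hu
  have p6 := qfr hu0 hu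
  have p7 := qfl hu0 hu
  obtain ⟨D, hD⟩ : ∃ D, D = h * ((u ^ 3 * (2 - u)) + a * f) + 2 * (k * (a * g + (u * (-12 + 22 * u - 9 * u ^ 2)))) := ⟨_, rfl⟩
  obtain ⟨A, hA⟩ : ∃ A, A = -(u * (h * (a * g + (u * (-12 + 22 * u - 9 * u ^ 2))))) + L * (1 - u) * k * (u ^ 2 * (2 -
      u)) + 2 * (k * ((u ^ 2 * (2 - u)) + a * f)) := ⟨_, rfl⟩
  obtain ⟨B, hB⟩ : ∃ B, B = u * (h * (a * g + (u * (-12 + 22 * u - 9 * u ^ 2)))) + 2 * (k * ((u ^ 2 * (2 - u)) + a *
      f)) := ⟨_, rfl⟩
  rw [← hD] at b1 b2 ⊢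
  rw [← hA] at b3 ⊢
  rw [← hB] at b4 b5 ⊢
  have c1 : D ≤ 16345 / 10000 - 18 * u := by linarith only [b1, p1]
  have c2 : 16315 / 10000 - 222 / 10 * u ≤ D := by linarith only [b2, p2]
  have c3 : B ≤ 6466 / 10000 + 2 * u := by linarith only [b4, p3]
  have c4 : 0 ≤ B := by linarith only [b5, p4]
  have c5 : 646 / 1000 - 7 / 100 * u + 40 * u ^ 2 ≤ A := by linarith only [b3, p5]
  have c6 : 0 ≤ 646 / 1000 - 7 / 100 * u + 40 * u ^ 2 := by nlinarith
  have hB2 : B ^ 2 ≤ (6466 / 10000 + 2 * u) ^ 2 := pow_le_pow_left₀ c4 c3 2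
  rcases le_total 0 D with h0 | h0
  · exact su_c2 (e := (16345 / 10000 - 18 * u) ^ 2) (by norm_num) ht hm0 hm
      (pow_le_pow_left₀ h0 c1 2) hB2 c6 c5 (by linarith only [p6])
  · refine su_c2 (e := (16315 / 10000 - 222 / 10 * u) ^ 2) (by norm_num) ht hm0 hm ?_ hB2 c6 c5
      (by linarith only [p7])
    nlinarith only [c2, h0]

/-- `√(A² + B²) ≤ A + κ B` is used with `κ = 1/4` for `.15 ≤ u ≤ .7` and `κ = 3/5` for `u ≤ .15` -/
theorem u_rat (d : Dat K L φ ψ χ ω) {x m s : ℝ} (hs : s ∈ Icc (0 : ℝ) 1) (hm0 : 0 ≤ m)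
    (hm1 : m ≤ 573 / 1000) (hx : |x| ≤ m) :
    (3 / 10 ≤ s → √(m ^ 2 - x ^ 2) * |Del K φ ψ χ ω s| ≤ 8 / 15 * Gam K L φ ψ χ ω x s ∨
      85 / 100 ≤ s) ∧
      (85 / 100 ≤ s → √(m ^ 2 - x ^ 2) * |Del K φ ψ χ ω s| ≤ 15 / 8 * Gam K L φ ψ χ ω x s) := by
  obtain ⟨u, hu⟩ : ∃ u, u = 1 - s := ⟨_, rfl⟩
  have hs' : s = 1 - u := by linarith
  have hu0 : 0 ≤ u := by linarith [hs.2]
  have eφ := d.enc.phi s hs
  have eg := d.enc.gd s hs
  have eχ := d.enc.chi s hs
  have eh := d.enc.hd s hs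
  rw [← hu] at eφ eg eχ eh
  obtain ⟨g, g1, g2⟩ := su_div hu0 (by norm_num) eg
  obtain ⟨h, h1, h2⟩ := su_div hu0 (by norm_num) eh
  obtain ⟨a1, a2⟩ := a0_bd d
  have eD : Del K φ ψ χ ω s = u * (h * ((u ^ 3 * (2 - u)) + a0 K φ * φ s) + 2 * (χ s * (a0 K φ * g + (u * (-12 + 22 * u - 9 *
      u ^ 2))))) := by
    unfold Del hdf zpf zt ztd
    rw [h1, et, etd, if_pos hs.2, if_pos hs.2]
    have e1 : (1 - s) ^ 3 * (1 + s) + a0 K φ * φ s + 2 * s * (-2 * (1 - s) ^ 2 * (1 + 2 * s) +
        a0 K φ * ψ s) = (1 - s) ^ 3 * (1 + s) - 4 * s * (1 - s) ^ 2 * (1 + 2 * s) +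
        a0 K φ * (φ s + 2 * s * ψ s) := by ring
    rw [e1, g1]
    obtain ⟨F, hF⟩ : ∃ F, F = φ s := ⟨_, rfl⟩
    obtain ⟨X, hX⟩ : ∃ X, X = χ s := ⟨_, rfl⟩
    rw [← hF, ← hX, hs']
    ring
  have eG : Gam K L φ ψ χ ω x s = u * ((-(u * (h * (a0 K φ * g + (u * (-12 + 22 * u - 9 * u ^ 2))))) + L * (1 - u) * χ s * (u ^ 2
      * (2 - u)) + 2 * (χ s * ((u ^ 2 * (2 - u)) + a0 K φ * φ s))) +
      x * (u * (h * (a0 K φ * g + (u * (-12 + 22 * u - 9 * u ^ 2)))) + 2 * (χ s * ((u ^ 2 * (2 - u))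
      + a0 K φ * φ s)))) := by
    unfold Gam hdf zpf zt ztd
    rw [h1, et, etd, if_pos hs.2, if_pos hs.2]
    have e1 : (1 - s) ^ 3 * (1 + s) + a0 K φ * φ s + 2 * s * (-2 * (1 - s) ^ 2 * (1 + 2 * s) +
        a0 K φ * ψ s) = (1 - s) ^ 3 * (1 + s) - 4 * s * (1 - s) ^ 2 * (1 + 2 * s) +
        a0 K φ * (φ s + 2 * s * ψ s) := by ring
    rw [e1, g1]
    obtain ⟨F, hF⟩ : ∃ F, F = φ s := ⟨_, rfl⟩
    obtain ⟨X, hX⟩ : ∃ X, X = χ s := ⟨_, rfl⟩
    rw [← hF, ← hX, hs']
    ring
  have hx2 : x ^ 2 ≤ m ^ 2 := by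
    rw [← sq_abs x]
    exact pow_le_pow_left₀ (abs_nonneg _) hx 2
  have ht0 : 0 ≤ √(m ^ 2 - x ^ 2) := Real.sqrt_nonneg _
  have ht2 : √(m ^ 2 - x ^ 2) ^ 2 + x ^ 2 = m ^ 2 := by
    rw [Real.sq_sqrt (by linarith)]
    ring
  have ht1 : √(m ^ 2 - x ^ 2) ≤ 573 / 1000 := by
    refine le_trans ?_ hm1
    rw [Real.sqrt_le_left hm0]
    linarith [_root_.sq_nonneg x]
  have hL := d.enc.L_lo
  rw [eD, eG, abs_mul, abs_of_nonneg hu0]
  constructor
  · intro h3
    rcases le_total (85 / 100) s with h4 | h4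
    · exact Or.inr h4
    · left
      have h5 := su_core1 hu0 (by linarith) a1.le a2.le eφ g2 eχ h2 hL.le (by linarith) ht0 ht1
        (hx.trans hm1)
      have h6 := mul_le_mul_of_nonneg_left h5 hu0
      linarith
  · intro h3
    have h5 := su_core2 hu0 (by linarith) a1.le a2.le eφ g2 eχ h2 hL.le (by linarith) ht2 hm0 hm1
    have h6 := mul_le_mul_of_nonneg_left h5 hu0
    linarith

end Pool.Agent.FND
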