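import Pool.Agent.FND.Defs
import Pool.Agent.FND.SId
import Pool.Agent.FND.SUa
import Pool.Agent.FND.SUb
import Pool.Agent.FND.SUc
import Pool.Agent.FND.SUd
import Pool.Agent.FND.SC1
import Pool.Agent.FND.SC2
import Pool.Agent.FND.SC3

/-!
FND-SPt: pointwise inequality inside the disc.

Plan.  By Ft_in_eq; let gh = s... : B = Bf, β := the factor such that the λ-term and c-term of -Ft are gh-multiples:
-B enters; the inequality max(0,-T) >= -κ T for κ in [0,1] is used with κ = gh := r sφχ (in [0,1]) and T = B + si ν u: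
-max(0, -B - si ν u) <= ... so it is enough that H := -Ft - junk - gh (B + si ν u) >= 0 wait for the sign see below.
H = ν (al - gh si u) + (1-ν) be + p ep + C3 r Gam + t S3 r Del - 5 z r φ (1 - sχ) C1 - junk  (the C3-terms of B cancel:
5 gh C3 + 4 a0 ν gh C3 are exactly gh times the C3-part of B, and 5 z gh C1 - 5 z r φ C1 = -5 z rφ(1 - sχ) C1).
Bounds: C1 >= -P.., |C3 rGam + t S3 rDel| <= P √((rGam)² + (m²-x²)(rDel)²) (polar_rel), and
√(A² + B²) <= A + κ B when B <= ρ A (κ = ρ/(1 + √(1+ρ²)): ρ = 15/8 gives 3/5, ρ = 8/15 gives 1/4):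
s >= .85: rGam + (3/5) m r|Del|; .3 <= s <= .85: rGam + (1/4) m r|Del|; s < .3: max(|rGam|) <= ... use √(A²+B²) <= |A| + |B| with
|rGam| <= max(rGam, 2u).  u_Del gives r|Del| <= 1.65u / 2.15u / 3.3u, giving k = .99 = .6·1.65, .5375 (see SC2), 3.3.
p ep >= -P1² (7/2)u⁵ (SUb).  Everything is affine in x in [-m, m] ⊂ [-m1, m1], so >= the value of Uf at one endpoint
x = ±m1: apply SC1 - SC3 (Uf_nonneg1, 2, 3).  P <= P1, z <= z1.
-/

set_option autoImplicit false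

open MeasureTheory Set
open Pool.Agent.Neu
open Pool.Agent.CS4 (Prof2 bb vv eV)

namespace Pool.Agent.FND

variable {K L : ℝ} {φ ψ χ ω : ℝ → ℝ}

private theorem spt_max {T g : ℝ} (h0 : 0 ≤ g) (h1 : g ≤ 1) : -max 0 (-T) ≤ g * T := by
  rcases le_total 0 T with h | h
  · have h2 : max 0 (-T) = 0 := max_eq_left (by linarith)
    rw [h2]
    have := mul_nonneg h0 h
    linarith
  · have h2 : max 0 (-T) = -T := max_eq_right (by linarith)
    rw [h2]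
    nlinarith

private theorem spt_cs {C S A T P κ ρ : ℝ} (h : C ^ 2 + S ^ 2 = P ^ 2) (hP : 0 ≤ P) (hA : 0 ≤ A)
    (hκ0 : 0 ≤ κ) (hκ1 : ρ * (1 - κ ^ 2) = 2 * κ) (hκ2 : κ ≤ 1) (hT : |T| ≤ ρ * A) :
    -(P * (A + κ * |T|)) ≤ C * A + S * T := by
  have hT0 : 0 ≤ |T| := abs_nonneg T
  have h1 : A ^ 2 + T ^ 2 ≤ (A + κ * |T|) ^ 2 := by
    have h2 : |T| * (|T| * (1 - κ ^ 2)) ≤ |T| * (ρ * A * (1 - κ ^ 2)) := by
      refine mul_le_mul_of_nonneg_left (mul_le_mul_of_nonneg_right hT ?_) hT0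
      nlinarith
    have h3 : |T| * (ρ * A * (1 - κ ^ 2)) = |T| * (A * (2 * κ)) := by
      rw [← hκ1]; ring
    have h4 : T ^ 2 = |T| ^ 2 := (sq_abs T).symm
    rw [h4]
    nlinarith
  have h5 : (C * A + S * T) ^ 2 ≤ (P * (A + κ * |T|)) ^ 2 := by
    have h6 : (C * A + S * T) ^ 2 = P ^ 2 * (A ^ 2 + T ^ 2) - (C * T - S * A) ^ 2 := by
      rw [← h]; ring
    have h7 : P ^ 2 * (A ^ 2 + T ^ 2) ≤ P ^ 2 * (A + κ * |T|) ^ 2 :=
      mul_le_mul_of_nonneg_left h1 (_root_.sq_nonneg P)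
    have h8 := _root_.sq_nonneg (C * T - S * A)
    rw [h6, mul_pow]
    linarith
  have h9 : 0 ≤ P * (A + κ * |T|) := mul_nonneg hP (add_nonneg hA (mul_nonneg hκ0 hT0))
  exact (abs_le.1 (abs_le_of_sq_le_sq h5 h9)).1

/-- cells: `m ≤ m1` -/
private theorem spt_m {c : Cell} (hc : IsCell c) {z : ℝ} (hz0 : 0 ≤ z) (hz1 : z ≤ c.z1) :
    0 ≤ 2 * z / (1 + z ^ 2) ∧ 2 * z / (1 + z ^ 2) ≤ c.m1 := by
  have h1 : 0 < 1 + z ^ 2 := by positivity
  refine ⟨by positivity, ?_⟩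
  rw [div_le_iff₀ h1]
  rcases hc with rfl | rfl | rfl
  · simp only [cA] at hz1 ⊢
    nlinarith
  · simp only [cB] at hz1 ⊢
    nlinarith
  · simp only [cC] at hz1 ⊢
    nlinarith

private theorem spt_cell {c : Cell} (hc : IsCell c) : 0 ≤ c.z1 ∧ 0 ≤ c.m1 ∧ c.m1 ≤ 573 / 1000 ∧
    0 ≤ c.P1 ∧ 0 ≤ c.je ∧ 0 ≤ c.jd := by
  rcases hc with rfl | rfl | rfl
  · simp only [cA]; norm_num
  · simp only [cB]; norm_num
  · simp only [cC]; norm_num

/-- `Uf` is affine in `x` -/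
private theorem spt_aff1 {c : Cell} {e k x s : ℝ} (hx : |x| ≤ c.m1)
    (h1 : ∀ x', (x' = c.m1 ∨ x' = -c.m1) →
      0 ≤ Uf K L φ ψ χ ω c (√s * Gam K L φ ψ χ ω x' s) e k x' s) :
    0 ≤ Uf K L φ ψ χ ω c (√s * Gam K L φ ψ χ ω x s) e k x s := by
  have hp := h1 _ (Or.inl rfl)
  have hn := h1 _ (Or.inr rfl)
  obtain ⟨l, u⟩ := abs_le.1 hx
  rcases eq_or_lt_of_le (le_trans (abs_nonneg x) hx) with h0 | h0
  · have : x = c.m1 := by linarith
    rw [this]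
    exact hp
  · have h3 := mul_nonneg (show 0 ≤ c.m1 + x by linarith) hp
    have h4 := mul_nonneg (show 0 ≤ c.m1 - x by linarith) hn
    have h5 : 0 ≤ 2 * c.m1 * Uf K L φ ψ χ ω c (√s * Gam K L φ ψ χ ω x s) e k x s := by
      have h6 : 2 * c.m1 * Uf K L φ ψ χ ω c (√s * Gam K L φ ψ χ ω x s) e k x s =
          (c.m1 + x) * Uf K L φ ψ χ ω c (√s * Gam K L φ ψ χ ω c.m1 s) e k c.m1 s +
          (c.m1 - x) * Uf K L φ ψ χ ω c (√s * Gam K L φ ψ χ ω (-c.m1) s) e k (-c.m1) s := by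
        unfold Uf Gam
        ring
      rw [h6]
      linarith
    exact nonneg_of_mul_nonneg_right h5 (by linarith)

private theorem spt_aff2 {c : Cell} {G e k x s : ℝ} (hx : |x| ≤ c.m1)
    (h1 : ∀ x', (x' = c.m1 ∨ x' = -c.m1) → 0 ≤ Uf K L φ ψ χ ω c G e k x' s) :
    0 ≤ Uf K L φ ψ χ ω c G e k x s := by
  have hp := h1 _ (Or.inl rfl)
  have hn := h1 _ (Or.inr rfl)
  obtain ⟨l, u⟩ := abs_le.1 hx
  rcases eq_or_lt_of_le (le_trans (abs_nonneg x) hx) with h0 | h0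
  · have : x = c.m1 := by linarith
    rw [this]
    exact hp
  · have h3 := mul_nonneg (show 0 ≤ c.m1 + x by linarith) hp
    have h4 := mul_nonneg (show 0 ≤ c.m1 - x by linarith) hn
    have h5 : 0 ≤ 2 * c.m1 * Uf K L φ ψ χ ω c G e k x s := by
      have h6 : 2 * c.m1 * Uf K L φ ψ χ ω c G e k x s =
          (c.m1 + x) * Uf K L φ ψ χ ω c G e k c.m1 s +
          (c.m1 - x) * Uf K L φ ψ χ ω c G e k (-c.m1) s := by
        unfold Uf
        ring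
      rw [h6]
      linarith
    exact nonneg_of_mul_nonneg_right h5 (by linarith)

/-- the lower bound by `Uf` -/
private theorem spt_main {c : Cell} {z P x s G e k A B C1 C3 TS T1 T2 E ep' f h et' q α : ℝ}
    (hP0 : 0 ≤ P) (hP1 : P ≤ c.P1) (hz0 : 0 ≤ z) (hz1 : z ≤ c.z1) (hje : 0 ≤ c.je) (hjd : 0 ≤ c.jd)
    (hs : 0 ≤ s) (hs1 : s ≤ 1) (hf : 0 ≤ f) (het : 0 ≤ et')
    (hep : -(7 / 2 * (1 - s) ^ 5) ≤ ep')
    (hE : E ≤ e * (1 - s) ^ 2) (hD0 : 0 ≤ √s * f * (1 - s * h))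
    (hD1 : √s * f * (1 - s * h) ≤ 74 / 100 * (1 - s) ^ 2)
    (hM : q ≤ 7 / 100 * (1 - s) ^ 2) (hC1 : C1 ≤ P)
    (hG : 0 ≤ G + c.m1 * k * (1 - s)) (hcs : -(P * (G + c.m1 * k * (1 - s))) ≤ TS) (hTS : TS = T1 + T2)
    (hU : 0 ≤ (1 / 2 + x / 2) * (A - c.si * (√s * (s * f * h)) * (1 - s))
      + (1 / 2 - x / 2) * B - c.P1 ^ 2 * (7 / 2 * (1 - s) ^ 5)
      - c.je * (e * (1 - s) ^ 2) - c.jd * (74 / 100 * (1 - s) ^ 2 + c.P1 * (s * et' * f))
      - 24 / 100 * (7 / 100 * (1 - s) ^ 2 + c.P1 * (√s * et'))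
      - c.P1 * (G + c.m1 * k * (1 - s) + 5 * c.z1 * (74 / 100 * (1 - s) ^ 2))) :
    (√s * (s * f * h)) * (5 * (C3 - z * C1) + α * (1 / 2 + x / 2) * C3
        + c.si * (1 / 2 + x / 2) * (1 - s))
      ≤ ((1 / 2 + x / 2) * A + (1 / 2 - x / 2) * B + P ^ 2 * ep' + T1
        + (1 / 2 + x / 2) * α * (√s * (s * f * h)) * C3 + T2
        + 5 * (√s * (s * f * h) * C3 - z * (√s * f) * C1))
        - (c.je * E + c.jd * (√s * f * (1 - s * h) + P * (s * et' * f))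
          + 24 / 100 * (q + P * (√s * et'))) := by
  have hu : 0 ≤ 1 - s := by linarith
  have e1 : -(c.P1 ^ 2 * (7 / 2 * (1 - s) ^ 5)) ≤ P ^ 2 * ep' := by
    have h1 : P ^ 2 * -(7 / 2 * (1 - s) ^ 5) ≤ P ^ 2 * ep' :=
      mul_le_mul_of_nonneg_left hep (_root_.sq_nonneg P)
    have h2 : P ^ 2 * (7 / 2 * (1 - s) ^ 5) ≤ c.P1 ^ 2 * (7 / 2 * (1 - s) ^ 5) :=
      mul_le_mul_of_nonneg_right (pow_le_pow_left₀ hP0 hP1 2) (by positivity)
    linarith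
  have e2 : c.je * E ≤ c.je * (e * (1 - s) ^ 2) := mul_le_mul_of_nonneg_left hE hje
  have e3 : c.jd * (√s * f * (1 - s * h) + P * (s * et' * f)) ≤
      c.jd * (74 / 100 * (1 - s) ^ 2 + c.P1 * (s * et' * f)) := by
    refine mul_le_mul_of_nonneg_left (add_le_add hD1 ?_) hjd
    exact mul_le_mul_of_nonneg_right hP1 (by positivity)
  have e4 : P * (√s * et') ≤ c.P1 * (√s * et') := mul_le_mul_of_nonneg_right hP1 (by positivity)
  have e5 : P * (G + c.m1 * k * (1 - s)) ≤ c.P1 * (G + c.m1 * k * (1 - s)) :=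
    mul_le_mul_of_nonneg_right hP1 hG
  have e6 : 5 * z * C1 * (√s * f * (1 - s * h)) ≤ c.P1 * (5 * c.z1 * (74 / 100 * (1 - s) ^ 2)) := by
    have h1 : z * C1 ≤ c.z1 * c.P1 := by
      have h2 : z * C1 ≤ z * P := mul_le_mul_of_nonneg_left hC1 hz0
      have h3 : z * P ≤ c.z1 * c.P1 := mul_le_mul hz1 hP1 hP0 (by linarith)
      linarith
    have h4 : z * C1 * (√s * f * (1 - s * h)) ≤ c.z1 * c.P1 * (√s * f * (1 - s * h)) :=
      mul_le_mul_of_nonneg_right h1 hD0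
    have h5 : c.z1 * c.P1 * (√s * f * (1 - s * h)) ≤ c.z1 * c.P1 * (74 / 100 * (1 - s) ^ 2) :=
      mul_le_mul_of_nonneg_left hD1 (mul_nonneg (by linarith) (by linarith))
    linarith
  have e7 : (√s * (s * f * h)) * (5 * (C3 - z * C1) + α * (1 / 2 + x / 2) * C3
        + c.si * (1 / 2 + x / 2) * (1 - s)) =
      5 * (√s * (s * f * h) * C3 - z * (√s * f) * C1)
        + (1 / 2 + x / 2) * α * (√s * (s * f * h)) * C3
        + 5 * z * C1 * (√s * f * (1 - s * h))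
        + (1 / 2 + x / 2) * (c.si * (√s * (s * f * h)) * (1 - s)) := by ring
  rw [e7]
  linarith

theorem Ft_in (d : Dat K L φ ψ χ ω) {c : Cell} (hc : IsCell c) {z a b : ℝ} (hz0 : 0 ≤ z)
    (hz1 : z ≤ c.z1) (hp : a ^ 2 + b ^ 2 ≤ c.P1 ^ 2) {y : E} (hy0 : y ≠ 0) (hy : sq y ≤ 1) :
    -max 0 (-Bf (2 * z / (1 + z ^ 2)) z a b 5 (4 * a0 K φ) y
        - c.si * (Nd (2 * z / (1 + z ^ 2)) y / sq y) * (1 - sq y))
      ≤ -Ft K L φ ψ χ ω c.M z (2 * z / (1 + z ^ 2)) a b y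
        - (c.je * jE K φ y + c.jd * jD φ χ √(a ^ 2 + b ^ 2) y
          + 24 / 100 * jM φ χ √(a ^ 2 + b ^ 2) y) := by
  obtain ⟨hz1', hm10, hm11, hP10, hje, hjd⟩ := spt_cell hc
  obtain ⟨hm0, hm1⟩ := spt_m hc hz0 hz1
  obtain ⟨m, hm⟩ : ∃ m, m = 2 * z / (1 + z ^ 2) := ⟨_, rfl⟩
  rw [← hm] at hm0 hm1 ⊢
  obtain ⟨r, hr⟩ : ∃ r, r = √(Neu.sq y) := ⟨_, rfl⟩
  obtain ⟨x, hx⟩ : ∃ x, x = -m * ((y 0 ^ 2 - y 1 ^ 2) / Neu.sq y) := ⟨_, rfl⟩
  obtain ⟨t, ht⟩ : ∃ t, t = -m * (2 * (y 0 * y 1) / Neu.sq y) := ⟨_, rfl⟩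
  obtain ⟨C3, hC3⟩ : ∃ C3, C3 = R3 a b y / r ^ 3 := ⟨_, rfl⟩
  obtain ⟨S3, hS3⟩ : ∃ S3, S3 = I3 a b y / r ^ 3 := ⟨_, rfl⟩
  obtain ⟨C1, hC1⟩ : ∃ C1, C1 = R1 a b y / r := ⟨_, rfl⟩
  obtain ⟨hr0, hr2, hxt, hCS, hC1P, hNd⟩ := polar_rel hy0 hr hx ht hC3 hS3 hC1
  rw [Ft_in_eq d c.M z m a b hy0 hy hr hx ht hC3 hS3 hC1]
  obtain ⟨P, hP⟩ : ∃ P, P = √(a ^ 2 + b ^ 2) := ⟨_, rfl⟩
  have hab : 0 ≤ a ^ 2 + b ^ 2 := by positivity
  have hP0 : 0 ≤ P := hP ▸ Real.sqrt_nonneg _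
  have hP2 : P ^ 2 = a ^ 2 + b ^ 2 := by rw [hP]; exact Real.sq_sqrt hab
  have hP1 : P ≤ c.P1 := by
    refine le_of_sq_le_sq ?_ hP10
    rw [hP2]; exact hp
  have hs0 : 0 < Neu.sq y := by rw [← hr2]; positivity
  have hB : -Bf m z a b 5 (4 * a0 K φ) y - c.si * (Nd m y / Neu.sq y) * (1 - Neu.sq y) =
      -(5 * (C3 - z * C1) + 4 * a0 K φ * (1 / 2 + x / 2) * C3
        + c.si * (1 / 2 + x / 2) * (1 - Neu.sq y)) := by
    unfold Bf
    rw [hNd, ← hr, ← hC3, ← hC1]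
    ring
  rw [hB]
  unfold jE jD jM
  rw [← hP, ← hP2]
  have hx2 : √(m ^ 2 - x ^ 2) = |t| := by
    rw [← hxt, add_sub_cancel_left, Real.sqrt_sq_eq_abs]
  have hxm : |x| ≤ m := by
    refine abs_le_of_sq_le_sq ?_ hm0
    have := _root_.sq_nonneg t
    linarith
  have htm : |t| ≤ m := by
    refine abs_le_of_sq_le_sq ?_ hm0
    have := _root_.sq_nonneg x
    linarith
  have hx1 : |x| ≤ 573 / 1000 := by linarith
  have hC1' : C1 ≤ P := by
    refine le_trans (le_abs_self C1) (abs_le_of_sq_le_sq ?_ hP0)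
    rw [hP2]; exact hC1P
  rw [← hP2] at hCS
  obtain ⟨s, hs⟩ : ∃ s, s = Neu.sq y := ⟨_, rfl⟩
  rw [← hs] at hr hs0 hy ⊢
  have hmem : s ∈ Icc (0 : ℝ) 1 := ⟨hs0.le, hy⟩
  have hf1 := d.prof.one_le _ hmem
  have hc1 := d.prof2.one_le _ hmem
  have hc2 := d.prof2.le _ hmem
  obtain ⟨hE1, hE2⟩ := u_E d hmem
  obtain ⟨hD0, hD1⟩ := u_D d hmem
  have hM := u_M d hmem
  have hep := u_ep d hmem hx1
  obtain ⟨hDel1, hDel2, hDel3⟩ := u_Del d hmem
  obtain ⟨hGam1, hGam2⟩ := u_Gam d hmem hx1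
  obtain ⟨hrat1, hrat2⟩ := u_rat d hmem hm0 (by linarith) hxm
  rw [hx2] at hrat1 hrat2
  have hu : 0 ≤ 1 - s := by linarith
  have het : 0 ≤ et s := et_nonneg hs0.le
  subst hr
  have hg0 : 0 ≤ √s * (s * φ s * χ s) :=
    mul_nonneg hr0.le (mul_nonneg (mul_nonneg hs0.le (by linarith)) (by linarith))
  have hg1 : √s * (s * φ s * χ s) ≤ 1 := by
    have h1 : √s * φ s ≤ 1 := by
      have h2 : (√s * φ s) ^ 2 ≤ 1 := by
        rw [mul_pow, Real.sq_sqrt hs0.le]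
        exact (g2_bd d.prof hmem).2
      exact le_trans (le_abs_self _) ((sq_le_one_iff_abs_le_one _).1 h2)
    have h3 : s * χ s ≤ 1 := by
      have := _root_.sq_nonneg (1 - s)
      linarith
    have h4 : √s * (s * φ s * χ s) = (√s * φ s) * (s * χ s) := by ring
    rw [h4]
    exact mul_le_one₀ h1 (mul_nonneg hs0.le (by linarith)) h3
  refine le_trans (spt_max hg0 hg1) ?_
  -- the two `T` terms
  have htD : ∀ k, √s * |Del K φ ψ χ ω s| ≤ k * (1 - s) → |t * (√s * Del K φ ψ χ ω s)| ≤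
      c.m1 * (k * (1 - s)) := by
    intro k hk
    rw [abs_mul, abs_mul, abs_of_nonneg hr0.le]
    exact mul_le_mul (by linarith) hk (by positivity) (by linarith)
  have key : ∀ G e k : ℝ, |s * et s * φ s - a0 K φ * (1 - s * φ s ^ 2)| ≤ e * (1 - s) ^ 2 →
      0 ≤ G → 0 ≤ k →
      -(P * (G + c.m1 * k * (1 - s))) ≤ C3 * (√s * Gam K L φ ψ χ ω x s)
        + S3 * (t * (√s * Del K φ ψ χ ω s)) →
      0 ≤ Uf K L φ ψ χ ω c G e k x s →
      √s * (s * φ s * χ s) * (5 * (C3 - z * C1) + 4 * a0 K φ * (1 / 2 + x / 2) * C3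
        + c.si * (1 / 2 + x / 2) * (1 - s)) ≤
      (1 / 2 + x / 2) * al K L φ χ c.M s + (1 / 2 - x / 2) * be K L φ ψ χ ω c.M s
        + P ^ 2 * ep K L φ ψ x s + C3 * (√s * Gam K L φ ψ χ ω x s)
        + (1 / 2 + x / 2) * (4 * a0 K φ) * (√s * (s * φ s * χ s)) * C3
        + t * S3 * (√s * Del K φ ψ χ ω s)
        + 5 * (√s * (s * φ s * χ s) * C3 - z * (√s * φ s) * C1)
        - (c.je * |s * et s * φ s - a0 K φ * (1 - s * φ s ^ 2)|
          + c.jd * (√s * φ s * (1 - s * χ s) + P * (s * et s * φ s))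
          + 24 / 100 * (s * |χ s - φ s ^ 2| + P * (√s * et s))) := by
    intro G e k hE hG hk hcs hU
    refine spt_main hP0 hP1 hz0 hz1 hje hjd hs0.le hy (by linarith) het hep hE hD0 hD1 hM hC1'
      ?_ hcs (by ring) ?_
    · exact add_nonneg hG (mul_nonneg (mul_nonneg hm10 hk) hu)
    · unfold Uf at hU
      exact hU
  have hxc : |x| ≤ c.m1 := by linarith
  rcases le_or_gt (85 / 100) s with h85 | h85
  · -- region 1
    have hG0 := hGam2 (by linarith)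
    refine key _ (24 / 100) (99 / 100) (hE2 (by linarith)) (mul_nonneg hr0.le hG0) (by norm_num) ?_
      (spt_aff1 hxc fun x' hx' => Uf_nonneg1 d hc hx' h85 hy)
    have h1 := spt_cs (κ := 3 / 5) (ρ := 15 / 8) hCS hP0 (mul_nonneg hr0.le hG0) (by norm_num)
      (by norm_num) (by norm_num) (T := t * (√s * Del K φ ψ χ ω s)) (by
        rw [abs_mul, abs_mul, abs_of_nonneg hr0.le]
        have h2 := mul_le_mul_of_nonneg_left (hrat2 h85) hr0.le
        linarith)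
    have h3 := htD _ (hDel3 h85)
    have h4 := mul_le_mul_of_nonneg_left h3 hP0
    linarith
  rcases le_total (3 / 10) s with h30 | h30
  · -- region 2
    have hG0 := hGam2 h30
    refine key _ (24 / 100) (54 / 100) (hE2 (by linarith)) (mul_nonneg hr0.le hG0) (by norm_num) ?_
      (spt_aff1 hxc fun x' hx' => Uf_nonneg2 d hc hx' h30 h85.le)
    have h5 : |t| * |Del K φ ψ χ ω s| ≤ 8 / 15 * Gam K L φ ψ χ ω x s := by
      rcases hrat1 h30 with h | h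
      · exact h
      · exact absurd h (not_le.2 h85)
    have h1 := spt_cs (κ := 1 / 4) (ρ := 8 / 15) hCS hP0 (mul_nonneg hr0.le hG0) (by norm_num)
      (by norm_num) (by norm_num) (T := t * (√s * Del K φ ψ χ ω s)) (by
        rw [abs_mul, abs_mul, abs_of_nonneg hr0.le]
        have h2 := mul_le_mul_of_nonneg_left h5 hr0.le
        linarith)
    have h3 := htD _ (hDel2 h30)
    have h4 := mul_le_mul_of_nonneg_left h3 hP0
    have h6 : 0 ≤ P * (c.m1 * (1 - s)) := mul_nonneg hP0 (mul_nonneg hm10 hu)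
    linarith
  · -- region 3
    have h3 := htD _ hDel1
    obtain ⟨A, hA⟩ : ∃ A, A = √s * Gam K L φ ψ χ ω x s := ⟨_, rfl⟩
    obtain ⟨T, hT⟩ : ∃ T, T = t * (√s * Del K φ ψ χ ω s) := ⟨_, rfl⟩
    rw [← hT] at h3
    rw [← hA] at hGam1
    have hC3a : |C3| ≤ P := abs_le_of_sq_le_sq (by nlinarith [_root_.sq_nonneg S3]) hP0
    have hS3a : |S3| ≤ P := abs_le_of_sq_le_sq (by nlinarith [_root_.sq_nonneg C3]) hP0
    have h6 : -(P * (|A| + |T|)) ≤ C3 * A + S3 * T := by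
      have h7 : |C3 * A| ≤ P * |A| := by
        rw [abs_mul]; exact mul_le_mul_of_nonneg_right hC3a (abs_nonneg _)
      have h8 : |S3 * T| ≤ P * |T| := by
        rw [abs_mul]; exact mul_le_mul_of_nonneg_right hS3a (abs_nonneg _)
      have h9 := (abs_le.1 h7).1
      have h10 := (abs_le.1 h8).1
      linarith
    have h7 := mul_le_mul_of_nonneg_left h3 hP0
    rcases le_total 0 A with h0 | h0
    · refine key A (33 / 100) (33 / 10) hE1 h0 (by norm_num) ?_ ?_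
      · rw [← hA, ← hT]
        rw [abs_of_nonneg h0] at h6
        linarith
      · rw [hA]
        exact spt_aff1 hxc fun x' hx' => (Uf_nonneg3 d hc hx' hs0.le h30).1
    · refine key (2 * (1 - s)) (33 / 100) (33 / 10) hE1 (by linarith) (by norm_num) ?_ ?_
      · rw [← hA, ← hT]
        rw [abs_of_nonpos h0] at h6
        have h8 := mul_le_mul_of_nonneg_left (show -A ≤ 2 * (1 - s) by linarith) hP0
        linarith
      · exact spt_aff2 hxc fun x' hx' => (Uf_nonneg3 d hc hx' hs0.le h30).2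

end Pool.Agent.FND
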