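import Pool.Agent.FND.Defs
import Pool.Agent.FND.DIa
import Pool.Agent.FND.Cst

/-!
FND-DIb: integrals over the disc of the pairing with `w`.
-/

set_option autoImplicit false

open MeasureTheory Set
open Pool.Agent.Neu
open Pool.Agent.CS4 (Prof2 bb vv eV)

namespace Pool.Agent.FND

variable {K L : ℝ} {φ ψ χ ω : ℝ → ℝ}

private noncomputable def db_T : E →ₗ[ℝ] E where
  toFun y := !₂[(y 0 - y 1) / √2, (y 0 + y 1) / √2]
  map_add' x y := by
    ext i
    fin_cases i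
    · show ((x + y) 0 - (x + y) 1) / √2 = (x 0 - x 1) / √2 + (y 0 - y 1) / √2
      rw [PiLp.add_apply, PiLp.add_apply]
      ring
    · show ((x + y) 0 + (x + y) 1) / √2 = (x 0 + x 1) / √2 + (y 0 + y 1) / √2
      rw [PiLp.add_apply, PiLp.add_apply]
      ring
  map_smul' c y := by
    ext i
    fin_cases i
    · show ((c • y) 0 - (c • y) 1) / √2 = c * ((y 0 - y 1) / √2)
      rw [PiLp.smul_apply, PiLp.smul_apply, smul_eq_mul, smul_eq_mul]
      ring
    · show ((c • y) 0 + (c • y) 1) / √2 = c * ((y 0 + y 1) / √2)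
      rw [PiLp.smul_apply, PiLp.smul_apply, smul_eq_mul, smul_eq_mul]
      ring

private theorem db_norm (y : E) : ‖db_T y‖ = ‖y‖ := by
  rw [EuclideanSpace.norm_eq, EuclideanSpace.norm_eq, Fin.sum_univ_two, Fin.sum_univ_two]
  congr 1
  rw [Real.norm_eq_abs, Real.norm_eq_abs, Real.norm_eq_abs, Real.norm_eq_abs, sq_abs, sq_abs,
    sq_abs, sq_abs]
  show ((y 0 - y 1) / √2) ^ 2 + ((y 0 + y 1) / √2) ^ 2 = _
  rw [div_pow, div_pow, Real.sq_sqrt (by norm_num)]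
  ring

/-- rotation by 45 degrees -/
private noncomputable def db_rot : E ≃ₗᵢ[ℝ] E :=
  LinearIsometry.toLinearIsometryEquiv ⟨db_T, db_norm⟩ rfl

private theorem db_r0 (y : E) : db_rot y 0 = (y 0 - y 1) / √2 := rfl

private theorem db_r1 (y : E) : db_rot y 1 = (y 0 + y 1) / √2 := rfl

private theorem db_rc (y : E) : db_rot y 0 ^ 2 - db_rot y 1 ^ 2 = -(2 * (y 0 * y 1)) := by
  rw [db_r0, db_r1, div_pow, div_pow, Real.sq_sqrt (by norm_num)]
  ring

private theorem db_rs (y : E) : db_rot y 0 * db_rot y 1 = (y 0 ^ 2 - y 1 ^ 2) / 2 := by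
  have h : √2 * √2 = (2 : ℝ) := Real.mul_self_sqrt (by norm_num)
  rw [db_r0, db_r1, div_mul_div_comm, h]
  ring

private theorem db_rq (y : E) : sq (db_rot y) = sq y := by
  unfold Neu.sq
  rw [db_r0, db_r1, div_pow, div_pow, Real.sq_sqrt (by norm_num)]
  ring

private theorem db_c2 {F : ℝ → ℝ} (hF : Continuous F) :
    ∫ y in D, F (sq y) * (y 0 ^ 2 - y 1 ^ 2) ^ 2
      = Real.pi / 2 * ∫ s in (0 : ℝ)..1, s ^ 2 * F s := by
  have h1 := Radx.integral_iso db_rot (fun y : E => F (sq y) * (y 0 ^ 2 - y 1 ^ 2) ^ 2)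
  simp only [db_rc, db_rq] at h1
  have c1 : Continuous fun y : E => F (sq y) * (y 0 ^ 2 - y 1 ^ 2) ^ 2 := by
    have := M1x.cont_sq
    fun_prop
  have c2 : Continuous fun y : E => F (sq y) * (-(2 * (y 0 * y 1))) ^ 2 := by
    have := M1x.cont_sq
    fun_prop
  have i1 : IntegrableOn (fun y : E => F (sq y) * (y 0 ^ 2 - y 1 ^ 2) ^ 2) D :=
    M1x.intOn c1 M1x.bdD
  have i2 : IntegrableOn (fun y : E => F (sq y) * (-(2 * (y 0 * y 1))) ^ 2) D :=
    M1x.intOn c2 M1x.bdD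
  have h2 : ∫ y in D, ((sq y) ^ 2 * F (sq y)) =
      Real.pi * ∫ s in (0 : ℝ)..1, s ^ 2 * F s :=
    disc_radial (f := fun s => s ^ 2 * F s) (by fun_prop)
  have h3 : ∫ y in D, ((sq y) ^ 2 * F (sq y)) =
      (∫ y in D, F (sq y) * (y 0 ^ 2 - y 1 ^ 2) ^ 2) +
        ∫ y in D, F (sq y) * (-(2 * (y 0 * y 1))) ^ 2 := by
    rw [← integral_add i1 i2]
    refine integral_congr_ae (Filter.Eventually.of_forall fun y => ?_)
    show (sq y) ^ 2 * F (sq y) = F (sq y) * (y 0 ^ 2 - y 1 ^ 2) ^ 2 +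
      F (sq y) * (-(2 * (y 0 * y 1))) ^ 2
    have e : sq y = y 0 ^ 2 + y 1 ^ 2 := rfl
    generalize F (sq y) = f
    rw [e]
    ring
  rw [h1, h2] at h3
  linarith

private theorem db_c11 {F : ℝ → ℝ} (hF : Continuous F) :
    ∫ y in D, F (sq y) * ((y 0 ^ 2 - y 1 ^ 2) * (2 * (y 0 * y 1))) = 0 := by
  have _ := hF
  have h1 := Radx.integral_iso db_rot
    (fun y : E => F (sq y) * ((y 0 ^ 2 - y 1 ^ 2) * (2 * (y 0 * y 1))))
  simp only [db_rc, db_rs, db_rq] at h1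
  have e : (fun y : E => F (sq y) * (-(2 * (y 0 * y 1)) * (2 * ((y 0 ^ 2 - y 1 ^ 2) / 2)))) =
      fun y : E => -(F (sq y) * ((y 0 ^ 2 - y 1 ^ 2) * (2 * (y 0 * y 1)))) := by
    funext y
    ring
  rw [e, integral_neg] at h1
  linarith

private theorem db_sum (h : Prof K φ ψ) :
    ∫ s in (0 : ℝ)..1, s * (zt K φ s * φ s) = 1 / Real.pi := by
  have hp := Real.pi_ne_zero
  have hK : K ≠ 0 := by
    have := h.K_lo
    intro h0
    rw [h0] at this
    norm_num at this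
  have hK1 : K - 1 ≠ 0 := by
    have := h.K_lo
    intro h0
    linarith
  have hφ := h.phi_cont
  have he := cont_et
  have e1 : ∫ s in (0 : ℝ)..1, s * et s * φ s = kap φ / Real.pi := by
    unfold kap
    field_simp
  have e2 : ∫ s in (0 : ℝ)..1, s * φ s ^ 2 = mw K / Real.pi := by
    have h1 := h.int2
    unfold mw
    field_simp
    linarith
  have e3 : (fun s => s * (zt K φ s * φ s)) =
      fun s => s * et s * φ s + a0 K φ * (s * φ s ^ 2) := by
    funext s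
    unfold zt
    ring
  rw [e3, intervalIntegral.integral_add (Continuous.intervalIntegrable (by fun_prop) _ _)
    (Continuous.intervalIntegrable (by fun_prop) _ _), intervalIntegral.integral_const_mul, e1, e2]
  have hm : mw K ≠ 0 := by
    unfold mw
    refine mul_ne_zero hp ?_
    rw [one_sub_div hK]
    exact div_ne_zero hK1 hK
  unfold a0
  field_simp
  ring

private theorem db_one (h : Prof K φ ψ) :
    ∫ s in (0 : ℝ)..1, (zt K φ s + s * ztd K φ ψ s) * (φ s + s * ψ s)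
      = a0 K φ / 2 + K / (4 * Real.pi) := by
  have hφ := h.phi_cont
  have hψ := h.cont
  have hz := cont_zt h
  have hzd := cont_ztd h
  have h1 : φ 1 = 1 := by
    rw [h.out 1 le_rfl]
    simp
  have h2 : ψ 1 = -1 / 2 := by
    rw [h.outd 1 le_rfl]
    simp
  have h3 : et 1 = 0 := by
    unfold et
    norm_num
  have hc1 : Continuous fun s => (zt K φ s + s * ztd K φ ψ s) * (φ s + s * ψ s) := by fun_prop
  have hc2 : Continuous fun s => K / 4 * (s * (zt K φ s * φ s)) := by fun_prop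
  have key : ∫ s in (0 : ℝ)..1, ((zt K φ s + s * ztd K φ ψ s) * (φ s + s * ψ s) -
      K / 4 * (s * (zt K φ s * φ s))) = a0 K φ / 2 := by
    rw [intervalIntegral.integral_eq_sub_of_hasDerivAt_of_le
      (f := fun s : ℝ => s * zt K φ s * φ s + s ^ 2 * ψ s * zt K φ s) zero_le_one
      (Continuous.continuousOn (by fun_prop))]
    · simp only [zt, h1, h2, h3]
      ring
    · intro s hs
      have d1 := h.deriv s
      have d2 := h.ode s hs.2
      have d3 := deriv_zt h s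
      have d4 := (((hasDerivAt_id s).mul d3).mul d1).add (d2.mul d3)
      refine d4.congr_deriv ?_
      simp only [Pi.mul_apply, id]
      ring
    · exact (hc1.sub hc2).intervalIntegrable _ _
  rw [intervalIntegral.integral_sub (hc1.intervalIntegrable _ _) (hc2.intervalIntegrable _ _),
    intervalIntegral.integral_const_mul, db_sum h] at key
  have hp := Real.pi_ne_zero
  have e : K / 4 * (1 / Real.pi) = K / (4 * Real.pi) := by
    field_simp
  rw [e] at key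
  linarith

private theorem db_contNd (m : ℝ) : Continuous (Nd m) := by
  unfold Nd
  fun_prop

private theorem db_contb2 (h : Prof K φ ψ) : Continuous (b2 φ ψ (zt K φ) (ztd K φ ψ)) := by
  have h3 := cont_zt h
  have h4 := cont_ztd h
  have h5 := h.phi_cont
  have h6 := h.cont
  have h7 : Continuous (sq : E → ℝ) := M1x.cont_sq
  unfold b2
  fun_prop

private theorem db_contb3 (h : Prof K φ ψ) (m : ℝ) :
    Continuous (b3 m φ ψ (zt K φ) (ztd K φ ψ)) := by
  have h3 := cont_zt h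
  have h4 := cont_ztd h
  have h5 := h.phi_cont
  have h6 := h.cont
  have h7 : Continuous (sq : E → ℝ) := M1x.cont_sq
  have h8 := db_contNd m
  unfold b3
  fun_prop

private theorem db_b3 (m : ℝ) (ζ ζ' : ℝ → ℝ) (y : E) : b3 m φ ψ ζ ζ' y =
    (ζ (sq y) * ψ (sq y) + ζ' (sq y) * φ (sq y) + 2 * ζ' (sq y) * ψ (sq y) * sq y)
      + m * (2 * ζ' (sq y) * ψ (sq y)) * (y 0 ^ 2 - y 1 ^ 2) := by
  have e : Nd m y = (sq y - m * (y 0 ^ 2 - y 1 ^ 2)) / 2 := by
    unfold Nd Neu.sq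
    ring
  unfold b3
  rw [e]
  ring

/-- the coefficient of `-a` -/
private theorem db_J (h : Prof K φ ψ) (m : ℝ) :
    ∫ y in D, (m * b2 φ ψ (zt K φ) (ztd K φ ψ) y +
      (y 0 ^ 2 - y 1 ^ 2) * b3 m φ ψ (zt K φ) (ztd K φ ψ) y)
      = m / 4 * (K + 2 * Real.pi * a0 K φ) := by
  have hφ := h.phi_cont
  have hψ := h.cont
  have hz := cont_zt h
  have hzd := cont_ztd h
  have hq := M1x.cont_sq
  set F2 : ℝ → ℝ := fun s => zt K φ s * φ s + s * (zt K φ s * ψ s + ztd K φ ψ s * φ s) with hF2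
  set G : ℝ → ℝ := fun s =>
    zt K φ s * ψ s + ztd K φ ψ s * φ s + 2 * ztd K φ ψ s * ψ s * s with hG
  set H : ℝ → ℝ := fun s => 2 * ztd K φ ψ s * ψ s with hH
  have cF2 : Continuous F2 := by rw [hF2]; fun_prop
  have cG : Continuous G := by rw [hG]; fun_prop
  have cH : Continuous H := by rw [hH]; fun_prop
  have i1 : IntegrableOn (fun y : E => m * F2 (sq y)) D :=
    M1x.intOn ((cF2.comp hq).const_mul m) M1x.bdD
  have i2 : IntegrableOn (fun y : E => G (sq y) * bb 0 y) D :=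
    M1x.intOn ((cG.comp hq).mul (Pool.Agent.CS4.cont_bb 0)) M1x.bdD
  have i3 : IntegrableOn (fun y : E => m * (H (sq y) * (y 0 ^ 2 - y 1 ^ 2) ^ 2)) D := by
    refine M1x.intOn ?_ M1x.bdD
    fun_prop
  have e1 : ∫ y in D, (m * b2 φ ψ (zt K φ) (ztd K φ ψ) y +
      (y 0 ^ 2 - y 1 ^ 2) * b3 m φ ψ (zt K φ) (ztd K φ ψ) y) =
      ∫ y in D, (m * F2 (sq y) + G (sq y) * bb 0 y + m * (H (sq y) * (y 0 ^ 2 - y 1 ^ 2) ^ 2)) := by
    refine integral_congr_ae (Filter.Eventually.of_forall fun y => ?_)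
    have eb : bb 0 y = y 0 ^ 2 - y 1 ^ 2 := by
      unfold bb
      rw [if_pos rfl]
    simp only [db_b3, hF2, hG, hH, b2, eb]
    ring
  have e2 : ∫ y in D, (m * F2 (sq y) + G (sq y) * bb 0 y +
      m * (H (sq y) * (y 0 ^ 2 - y 1 ^ 2) ^ 2)) =
      (∫ y in D, (m * F2 (sq y) + G (sq y) * bb 0 y)) +
        ∫ y in D, m * (H (sq y) * (y 0 ^ 2 - y 1 ^ 2) ^ 2) := integral_add (i1.add i2) i3
  rw [e1, e2, integral_add i1 i2, Pool.Agent.CS4.int_bb_disc cG 0, integral_const_mul,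
    integral_const_mul, db_c2 cH, disc_radial cF2]
  have e3 : ∫ s in (0 : ℝ)..1, (zt K φ s + s * ztd K φ ψ s) * (φ s + s * ψ s) =
      (∫ s in (0 : ℝ)..1, F2 s) + ∫ s in (0 : ℝ)..1, 1 / 2 * (s ^ 2 * H s) := by
    rw [← intervalIntegral.integral_add (cF2.intervalIntegrable _ _)
      (Continuous.intervalIntegrable (by fun_prop) _ _)]
    congr 1
    funext s
    simp only [hF2, hH]
    ring
  rw [db_one h, intervalIntegral.integral_const_mul] at e3
  have hp := Real.pi_ne_zero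
  have e4 : m * (Real.pi * ∫ s in (0 : ℝ)..1, F2 s) + 0 +
      m * (Real.pi / 2 * ∫ s in (0 : ℝ)..1, s ^ 2 * H s) =
      m * Real.pi * ((∫ s in (0 : ℝ)..1, F2 s) + 1 / 2 * ∫ s in (0 : ℝ)..1, s ^ 2 * H s) := by
    ring
  rw [e4, ← e3]
  field_simp
  ring

/-- the coefficient of `-b` -/
private theorem db_J2 (h : Prof K φ ψ) (m : ℝ) :
    ∫ y in D, (2 * (y 0 * y 1)) * b3 m φ ψ (zt K φ) (ztd K φ ψ) y = 0 := by
  have hφ := h.phi_cont
  have hψ := h.cont
  have hz := cont_zt h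
  have hzd := cont_ztd h
  have hq := M1x.cont_sq
  set G : ℝ → ℝ := fun s =>
    zt K φ s * ψ s + ztd K φ ψ s * φ s + 2 * ztd K φ ψ s * ψ s * s with hG
  set H : ℝ → ℝ := fun s => 2 * ztd K φ ψ s * ψ s with hH
  have cG : Continuous G := by rw [hG]; fun_prop
  have cH : Continuous H := by rw [hH]; fun_prop
  have i2 : IntegrableOn (fun y : E => G (sq y) * bb 1 y) D :=
    M1x.intOn ((cG.comp hq).mul (Pool.Agent.CS4.cont_bb 1)) M1x.bdD
  have i3 : IntegrableOn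
      (fun y : E => m * (H (sq y) * ((y 0 ^ 2 - y 1 ^ 2) * (2 * (y 0 * y 1))))) D := by
    refine M1x.intOn ?_ M1x.bdD
    fun_prop
  have e1 : ∫ y in D, (2 * (y 0 * y 1)) * b3 m φ ψ (zt K φ) (ztd K φ ψ) y =
      ∫ y in D, (G (sq y) * bb 1 y +
        m * (H (sq y) * ((y 0 ^ 2 - y 1 ^ 2) * (2 * (y 0 * y 1))))) := by
    refine integral_congr_ae (Filter.Eventually.of_forall fun y => ?_)
    have eb : bb 1 y = 2 * (y 0 * y 1) := by
      unfold bb
      rw [if_neg (by decide)]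
    simp only [db_b3, hG, hH, eb]
    ring
  rw [e1, integral_add i2 i3, Pool.Agent.CS4.int_bb_disc cG 1, integral_const_mul, db_c11 cH]
  ring

private theorem db_b1n (m : ℝ) (y : E) : b1 m φ ψ χ ω (-y) = b1 m φ ψ χ ω y := by
  have e1 : sq (-y) = sq y := by
    unfold Neu.sq
    simp only [PiLp.neg_apply]
    ring
  have e2 : Nd m (-y) = Nd m y := by
    simp only [Nd, PiLp.neg_apply]
    ring
  unfold b1
  rw [e1, e2]

private theorem db_split (h : Prof K φ ψ) (m x z : ℝ) {B : E → ℝ} (hB : Continuous B)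
    (hodd : ∀ y, B (-y) + (x * (m * b2 φ ψ (zt K φ) (ztd K φ ψ) (-y) +
      ((-y) 0 ^ 2 - (-y) 1 ^ 2) * b3 m φ ψ (zt K φ) (ztd K φ ψ) (-y)) +
        z * ((2 * ((-y) 0 * (-y) 1)) * b3 m φ ψ (zt K φ) (ztd K φ ψ) (-y))) =
      -(B y + (x * (m * b2 φ ψ (zt K φ) (ztd K φ ψ) y +
      (y 0 ^ 2 - y 1 ^ 2) * b3 m φ ψ (zt K φ) (ztd K φ ψ) y) +
        z * ((2 * (y 0 * y 1)) * b3 m φ ψ (zt K φ) (ztd K φ ψ) y)))) :
    ∫ y in D, B y = -(x * (m / 4 * (K + 2 * Real.pi * a0 K φ))) := by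
  have c2 := db_contb2 h
  have c3 := db_contb3 h m
  have h0 := int_odd_disc (F := fun y => B y + (x * (m * b2 φ ψ (zt K φ) (ztd K φ ψ) y +
      (y 0 ^ 2 - y 1 ^ 2) * b3 m φ ψ (zt K φ) (ztd K φ ψ) y) +
        z * ((2 * (y 0 * y 1)) * b3 m φ ψ (zt K φ) (ztd K φ ψ) y))) hodd
  have i1 : IntegrableOn B D := M1x.intOn hB M1x.bdD
  have i2 : IntegrableOn (fun y : E => x * (m * b2 φ ψ (zt K φ) (ztd K φ ψ) y +
      (y 0 ^ 2 - y 1 ^ 2) * b3 m φ ψ (zt K φ) (ztd K φ ψ) y)) D := by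
    refine M1x.intOn ?_ M1x.bdD
    fun_prop
  have i3 : IntegrableOn (fun y : E =>
      z * ((2 * (y 0 * y 1)) * b3 m φ ψ (zt K φ) (ztd K φ ψ) y)) D := by
    refine M1x.intOn ?_ M1x.bdD
    fun_prop
  have e0 : ∫ y in D, (B y + (x * (m * b2 φ ψ (zt K φ) (ztd K φ ψ) y +
      (y 0 ^ 2 - y 1 ^ 2) * b3 m φ ψ (zt K φ) (ztd K φ ψ) y) +
        z * ((2 * (y 0 * y 1)) * b3 m φ ψ (zt K φ) (ztd K φ ψ) y))) =
      (∫ y in D, B y) + ∫ y in D, (x * (m * b2 φ ψ (zt K φ) (ztd K φ ψ) y +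
      (y 0 ^ 2 - y 1 ^ 2) * b3 m φ ψ (zt K φ) (ztd K φ ψ) y) +
        z * ((2 * (y 0 * y 1)) * b3 m φ ψ (zt K φ) (ztd K φ ψ) y)) :=
    integral_add i1 (i2.add i3)
  rw [e0] at h0
  have e : ∫ y in D, (x * (m * b2 φ ψ (zt K φ) (ztd K φ ψ) y +
      (y 0 ^ 2 - y 1 ^ 2) * b3 m φ ψ (zt K φ) (ztd K φ ψ) y) +
        z * ((2 * (y 0 * y 1)) * b3 m φ ψ (zt K φ) (ztd K φ ψ) y)) =
      x * (m / 4 * (K + 2 * Real.pi * a0 K φ)) := by
    rw [integral_add i2 i3, integral_const_mul, integral_const_mul, db_J h, db_J2 h]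
    ring
  rw [e] at h0
  linarith

private theorem db_sqn (y : E) : sq (-y) = sq y := by
  unfold Neu.sq
  simp only [PiLp.neg_apply]
  ring

theorem int_bR_disc (h : Prof K φ ψ) (h2 : Prof2 L χ ω) (m a b : ℝ) :
    ∫ y in D, bR m a b φ ψ χ ω (zt K φ) (ztd K φ ψ) y
      = -(a * (m / 4 * (K + 2 * Real.pi * a0 K φ))) := by
  refine db_split h m a b (cont_bR h h2 m a b) fun y => ?_
  unfold bR c3
  rw [db_b1n, db_sqn]
  simp only [PiLp.neg_apply]
  ring

theorem int_bI_disc (h : Prof K φ ψ) (h2 : Prof2 L χ ω) (m a b : ℝ) :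
    ∫ y in D, bI m a b φ ψ χ ω (zt K φ) (ztd K φ ψ) y
      = -(b * (m / 4 * (K + 2 * Real.pi * a0 K φ))) := by
  refine db_split h m b (-a) (cont_bI h h2 m a b) fun y => ?_
  unfold bI s3
  rw [db_b1n, db_sqn]
  simp only [PiLp.neg_apply]
  ring

end Pool.Agent.FND
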