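import Pool.Agent.FND.Defs
import Pool.Agent.FND.Base
import Pool.Agent.FND.Cst

/-!
FND-XDi: the pairing of `A` with `w`, inside the disc.
-/

set_option autoImplicit false

open MeasureTheory Set
open Pool.Agent.Neu
open Pool.Agent.CS4 (Prof2 bb vv eV)

namespace Pool.Agent.FND

variable {K L : ℝ} {φ ψ χ ω : ℝ → ℝ}

private noncomputable def qxP (u : ℝ) : ℝ := 1 + u / 2 + u ^ 2 * (762 / 10000 + 59 / 10000 * u)
private noncomputable def qxU (u : ℝ) : ℝ :=
  1 + u / 2 + u ^ 2 * (762 / 10000 + 59 / 10000 * u) + 1 / 10000 * u ^ 2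
private noncomputable def qxL (u : ℝ) : ℝ :=
  1 + u / 2 + u ^ 2 * (762 / 10000 + 59 / 10000 * u) - 1 / 10000 * u ^ 2
private noncomputable def qgP (u : ℝ) : ℝ :=
  u * (1195 / 1000 + 3462 / 10000 * u + 408 / 10000 * u ^ 2)
private noncomputable def qgU (u : ℝ) : ℝ :=
  u * (1195 / 1000 + 3462 / 10000 * u + 408 / 10000 * u ^ 2) + 2 / 10000 * u
private noncomputable def qgL (u : ℝ) : ℝ :=
  u * (1195 / 1000 + 3462 / 10000 * u + 408 / 10000 * u ^ 2) - 2 / 10000 * u
private noncomputable def qcU (u : ℝ) : ℝ :=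
  1 + u + u ^ 2 * (334 / 1000 + 563 / 10000 * u + 65 / 10000 * u ^ 2) + 1 / 10000 * u ^ 2
private noncomputable def qhU (u : ℝ) : ℝ :=
  u * (26641 / 10000 + 16655 / 10000 * u + 3996 / 10000 * u ^ 2 + 644 / 10000 * u ^ 3)
    + 2 / 10000 * u
private noncomputable def qe (u : ℝ) : ℝ := u ^ 3 * (2 - u)
private noncomputable def qE (u : ℝ) : ℝ := u ^ 2 * (-12 + 22 * u - 9 * u ^ 2)

private noncomputable def qA (m u : ℝ) : ℝ :=
  (1 - m) / 2 * (qhU u * qgU u) + ((1 + m) * qcU u - 1) * qxU u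

private noncomputable def qT1 (m P b u : ℝ) : ℝ :=
  115 / 100 * m + P * (17 / 100 + 2 / 10 * m)
    + b / 2 * ((1 - m) * u + m * (1 - (1 - u) * qxU u ^ 2))
    - P * ((1 + m) / 2 * (qe u * qxU u + 3232 / 10000 * qxU u ^ 2)
      + (1 - m) / 2 * (-(qE u * qgP u) + 4 / 10000 * u)
      - (1 - m) / 2 * (3231 / 10000) * qgL u ^ 2)

private noncomputable def qT2 (m P b u : ℝ) : ℝ :=
  115 / 100 * m + P * (17 / 100 + 2 / 10 * m)
    + b / 2 * ((1 - m) * u + m * (1 - (1 - u) * qxU u ^ 2))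
    - P / 2 * ((qe u * qxU u + 3232 / 10000 * qxU u ^ 2) + (-(qE u * qgP u) + 4 / 10000 * u)
      - 3231 / 10000 * qgL u ^ 2 + m * (-(qE u * qxP u) + 2 / 10000 * u ^ 2)
      - m * (qe u * qgL u) - 2 * m * (3231 / 10000) * (qxL u * qgL u))

private theorem uqA10 {r : ℝ} (h0 : 0 ≤ r) (h1 : r ≤ 1 / 2) :
    r * qA (1 / 4) (1 - r ^ 2) ≤ qT1 (1 / 4) (1075 / 1000) (665 / 100) (1 - r ^ 2) := by
  have key : ∀ p q : ℝ, 0 ≤ p → 0 ≤ q → 0 ≤
      (256466763144039 / 2441406250) * q ^ 15 +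
      (721379886552117 / 488281250) * p ^ 1 * q ^ 14 +
      (23427537858895871 / 2441406250) * p ^ 2 * q ^ 13 +
      (93153094567620833 / 2441406250) * p ^ 3 * q ^ 12 +
      (81073752117184961 / 781250000) * p ^ 4 * q ^ 11 +
      (797947442571809111 / 3906250000) * p ^ 5 * q ^ 10 +
      (234564571411100701 / 781250000) * p ^ 6 * q ^ 9 +
      (6542539126316294691 / 19531250000) * p ^ 7 * q ^ 8 +
      (178401967235311018463 / 625000000000) * p ^ 8 * q ^ 7 +
      (115817510285332855609 / 625000000000) * p ^ 9 * q ^ 6 +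
      (56641632539236806481 / 625000000000) * p ^ 10 * q ^ 5 +
      (4083703710057887063 / 125000000000) * p ^ 11 * q ^ 4 +
      (2091747109840210313 / 250000000000) * p ^ 12 * q ^ 3 +
      (1787937356320691979 / 1250000000000) * p ^ 13 * q ^ 2 +
      (726273255486693383 / 5000000000000) * p ^ 14 * q ^ 1 +
      (32935048876416827 / 5000000000000) * p ^ 15 := by
    intro p q hp hq
    positivity
  have h2 := key (r - 0) (1 / 2 - r) (by linarith) (by linarith)
  rw [← sub_nonneg]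
  refine h2.trans_eq ?_
  unfold qT1 qA qxU qgL qgP qgU qcU qhU qE qe
  ring

private theorem uqA11 {r : ℝ} (h0 : 1 / 2 ≤ r) (h1 : r ≤ 3 / 4) :
    r * qA (1 / 4) (1 - r ^ 2) ≤ qT1 (1 / 4) (1075 / 1000) (665 / 100) (1 - r ^ 2) := by
  have key : ∀ p q : ℝ, 0 ≤ p → 0 ≤ q → 0 ≤
      (263480391011334616 / 1220703125) * q ^ 15 +
      (3023215775808255328 / 1220703125) * p ^ 1 * q ^ 14 +
      (3108757553222218938 / 244140625) * p ^ 2 * q ^ 13 +
      (46872564592402581482 / 1220703125) * p ^ 3 * q ^ 12 +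
      (181468449963671043323 / 2441406250) * p ^ 4 * q ^ 11 +
      (114976921879135090771 / 1220703125) * p ^ 5 * q ^ 10 +
      (730423487240868434849 / 9765625000) * p ^ 6 * q ^ 9 +
      (2472295563838576967 / 78125000) * p ^ 7 * q ^ 8 +
      (45951718798141640949 / 7812500000) * p ^ 8 * q ^ 7 +
      (30055758653702720821 / 2441406250) * p ^ 9 * q ^ 6 +
      (4212725937142620715003 / 156250000000) * p ^ 10 * q ^ 5 +
      (4221145584508281358427 / 156250000000) * p ^ 11 * q ^ 4 +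
      (9704493910018711259329 / 625000000000) * p ^ 12 * q ^ 3 +
      (335484515993913092659 / 62500000000) * p ^ 13 * q ^ 2 +
      (2619364342099953863379 / 2500000000000) * p ^ 14 * q ^ 1 +
      (223336575433307299173 / 2500000000000) * p ^ 15 := by
    intro p q hp hq
    positivity
  have h2 := key (r - 1 / 2) (3 / 4 - r) (by linarith) (by linarith)
  rw [← sub_nonneg]
  refine h2.trans_eq ?_
  unfold qT1 qA qxU qgL qgP qgU qcU qhU qE qe
  ring

private theorem uqA12 {r : ℝ} (h0 : 3 / 4 ≤ r) (h1 : r ≤ 1) :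
    r * qA (1 / 4) (1 - r ^ 2) ≤ qT1 (1 / 4) (1075 / 1000) (665 / 100) (1 - r ^ 2) := by
  have key : ∀ p q : ℝ, 0 ≤ p → 0 ≤ q → 0 ≤
      (223336575433307299173 / 2500000000000) * q ^ 15 +
      (4080732920899265111811 / 2500000000000) * p ^ 1 * q ^ 14 +
      (4234817592868360148051 / 312500000000) * p ^ 2 * q ^ 13 +
      (2649725547600783344497 / 39062500000) * p ^ 3 * q ^ 12 +
      (111881936887253394727 / 488281250) * p ^ 4 * q ^ 11 +
      (2703221123636791801713 / 4882812500) * p ^ 5 * q ^ 10 +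
      (4827010307096400471969 / 4882812500) * p ^ 6 * q ^ 9 +
      (6483654792394376475207 / 4882812500) * p ^ 7 * q ^ 8 +
      (1649120521397001728696 / 1220703125) * p ^ 8 * q ^ 7 +
      (1267877809955512444848 / 1220703125) * p ^ 9 * q ^ 6 +
      (727791036256204180864 / 1220703125) * p ^ 10 * q ^ 5 +
      (60889789505895629568 / 244140625) * p ^ 11 * q ^ 4 +
      (88954907957767319552 / 1220703125) * p ^ 12 * q ^ 3 +
      (16848875607933435904 / 1220703125) * p ^ 13 * q ^ 2 +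
      (4583432650752 / 3125) * p ^ 14 * q ^ 1 +
      (38151389184 / 625) * p ^ 15 := by
    intro p q hp hq
    positivity
  have h2 := key (r - 3 / 4) (1 - r) (by linarith) (by linarith)
  rw [← sub_nonneg]
  refine h2.trans_eq ?_
  unfold qT1 qA qxU qgL qgP qgU qcU qhU qE qe
  ring

private theorem uqA20 {r : ℝ} (h0 : 0 ≤ r) (h1 : r ≤ 1 / 2) :
    r * qA (1 / 4) (1 - r ^ 2) ≤ qT2 (1 / 4) (1075 / 1000) (665 / 100) (1 - r ^ 2) := by
  have key : ∀ p q : ℝ, 0 ≤ p → 0 ≤ q → 0 ≤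
      (179629488479824 / 1220703125) * q ^ 15 +
      (514878263999472 / 244140625) * p ^ 1 * q ^ 14 +
      (136494264385553661 / 9765625000) * p ^ 2 * q ^ 13 +
      (554642188331278873 / 9765625000) * p ^ 3 * q ^ 12 +
      (3088850482238297783 / 19531250000) * p ^ 4 * q ^ 11 +
      (6238467785787624261 / 19531250000) * p ^ 5 * q ^ 10 +
      (3772779673999081739 / 7812500000) * p ^ 6 * q ^ 9 +
      (21715230595226892963 / 39062500000) * p ^ 7 * q ^ 8 +
      (153302397630329381811 / 312500000000) * p ^ 8 * q ^ 7 +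
      (103534637684388395189 / 312500000000) * p ^ 9 * q ^ 6 +
      (423804742942023616847 / 2500000000000) * p ^ 10 * q ^ 5 +
      (32199262768187753439 / 500000000000) * p ^ 11 * q ^ 4 +
      (43854974809887113147 / 2500000000000) * p ^ 12 * q ^ 3 +
      (8068737872179122973 / 2500000000000) * p ^ 13 * q ^ 2 +
      (1789891458698806367 / 5000000000000) * p ^ 14 * q ^ 1 +
      (90146616141858799 / 5000000000000) * p ^ 15 := by
    intro p q hp hq
    positivity
  have h2 := key (r - 0) (1 / 2 - r) (by linarith) (by linarith)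
  rw [← sub_nonneg]
  refine h2.trans_eq ?_
  unfold qT2 qA qxU qgL qgP qgU qcU qhU qE qe qxL qxP
  ring

private theorem uqA21 {r : ℝ} (h0 : 1 / 2 ≤ r) (h1 : r ≤ 3 / 4) :
    r * qA (1 / 4) (1 - r ^ 2) ≤ qT2 (1 / 4) (1075 / 1000) (665 / 100) (1 - r ^ 2) := by
  have key : ∀ p q : ℝ, 0 ≤ p → 0 ≤ q → 0 ≤
      (721172929134870392 / 1220703125) * q ^ 15 +
      (9066825070739358352 / 1220703125) * p ^ 1 * q ^ 14 +
      (52301173466129887174 / 1220703125) * p ^ 2 * q ^ 13 +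
      (183181679038610296742 / 1220703125) * p ^ 3 * q ^ 12 +
      (868949771542243178457 / 2441406250) * p ^ 4 * q ^ 11 +
      (737108884807739167574 / 1220703125) * p ^ 5 * q ^ 10 +
      (7375291398371970032477 / 9765625000) * p ^ 6 * q ^ 9 +
      (6923314085637200136567 / 9765625000) * p ^ 7 * q ^ 8 +
      (19792953499067553684873 / 39062500000) * p ^ 8 * q ^ 7 +
      (5502999783338835942349 / 19531250000) * p ^ 9 * q ^ 6 +
      (19875970183870293104277 / 156250000000) * p ^ 10 * q ^ 5 +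
      (7742784301140251454713 / 156250000000) * p ^ 11 * q ^ 4 +
      (10614804446679209573039 / 625000000000) * p ^ 12 * q ^ 3 +
      (364825417841919823131 / 78125000000) * p ^ 13 * q ^ 2 +
      (2124097451690437518891 / 2500000000000) * p ^ 14 * q ^ 1 +
      (181518698763948982861 / 2500000000000) * p ^ 15 := by
    intro p q hp hq
    positivity
  have h2 := key (r - 1 / 2) (3 / 4 - r) (by linarith) (by linarith)
  rw [← sub_nonneg]
  refine h2.trans_eq ?_
  unfold qT2 qA qxU qgL qgP qgU qcU qhU qE qe qxL qxP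
  ring

private theorem uqA22 {r : ℝ} (h0 : 3 / 4 ≤ r) (h1 : r ≤ 1) :
    r * qA (1 / 4) (1 - r ^ 2) ≤ qT2 (1 / 4) (1075 / 1000) (665 / 100) (1 - r ^ 2) := by
  have key : ∀ p q : ℝ, 0 ≤ p → 0 ≤ q → 0 ≤
      (181518698763948982861 / 2500000000000) * q ^ 15 +
      (3321463511228031966939 / 2500000000000) * p ^ 1 * q ^ 14 +
      (111084133611202174269 / 9765625000) * p ^ 2 * q ^ 13 +
      (18579015117901936911319 / 312500000000) * p ^ 3 * q ^ 12 +
      (16446152979776848408663 / 78125000000) * p ^ 4 * q ^ 11 +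
      (41654529319581076189783 / 78125000000) * p ^ 5 * q ^ 10 +
      (9732931075636268614243 / 9765625000) * p ^ 6 * q ^ 9 +
      (1366325214087353251329 / 976562500) * p ^ 7 * q ^ 8 +
      (1813808440994728794672 / 1220703125) * p ^ 8 * q ^ 7 +
      (291004535156086629864 / 244140625) * p ^ 9 * q ^ 6 +
      (872167610482756747328 / 1220703125) * p ^ 10 * q ^ 5 +
      (381983220146384612864 / 1220703125) * p ^ 11 * q ^ 4 +
      (117501813330813120512 / 1220703125) * p ^ 12 * q ^ 3 +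
      (23688270549302607872 / 1220703125) * p ^ 13 * q ^ 2 +
      (4385106263015424 / 1953125) * p ^ 14 * q ^ 1 +
      (336483844096 / 3125) * p ^ 15 := by
    intro p q hp hq
    positivity
  have h2 := key (r - 3 / 4) (1 - r) (by linarith) (by linarith)
  rw [← sub_nonneg]
  refine h2.trans_eq ?_
  unfold qT2 qA qxU qgL qgP qgU qcU qhU qE qe qxL qxP
  ring

private theorem uqA1 {r : ℝ} (h0 : 0 ≤ r) (h1 : r ≤ 1) :
    r * qA (1 / 4) (1 - r ^ 2) ≤ qT1 (1 / 4) (1075 / 1000) (665 / 100) (1 - r ^ 2) := by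
  rcases le_total r (1 / 2) with h | h
  · exact uqA10 h0 h
  · rcases le_total r (3 / 4) with h3 | h3
    · exact uqA11 h h3
    · exact uqA12 h3 h1

private theorem uqA2 {r : ℝ} (h0 : 0 ≤ r) (h1 : r ≤ 1) :
    r * qA (1 / 4) (1 - r ^ 2) ≤ qT2 (1 / 4) (1075 / 1000) (665 / 100) (1 - r ^ 2) := by
  rcases le_total r (1 / 2) with h | h
  · exact uqA20 h0 h
  · rcases le_total r (3 / 4) with h3 | h3
    · exact uqA21 h h3
    · exact uqA22 h3 h1

private theorem uqB10 {r : ℝ} (h0 : 0 ≤ r) (h1 : r ≤ 1 / 2) :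
    r * qA (4 / 10) (1 - r ^ 2) ≤ qT1 (4 / 10) (984 / 1000) (7) (1 - r ^ 2) := by
  have key : ∀ p q : ℝ, 0 ≤ p → 0 ≤ q → 0 ≤
      (16322092601865072 / 152587890625) * q ^ 15 +
      (45965002625595216 / 30517578125) * p ^ 1 * q ^ 14 +
      (299122904130017328 / 30517578125) * p ^ 2 * q ^ 13 +
      (238521928300356432 / 6103515625) * p ^ 3 * q ^ 12 +
      (3255436339613635578 / 30517578125) * p ^ 4 * q ^ 11 +
      (32192431981310253166 / 152587890625) * p ^ 5 * q ^ 10 +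
      (47603343615206339502 / 152587890625) * p ^ 6 * q ^ 9 +
      (53520979465219150908 / 152587890625) * p ^ 7 * q ^ 8 +
      (736889374315763083727 / 2441406250000) * p ^ 8 * q ^ 7 +
      (484404637269918452173 / 2441406250000) * p ^ 9 * q ^ 6 +
      (240730583772973227649 / 2441406250000) * p ^ 10 * q ^ 5 +
      (22147127281420513883 / 610351562500) * p ^ 11 * q ^ 4 +
      (46600012868130086583 / 4882812500000) * p ^ 12 * q ^ 3 +
      (3297603579286386559 / 1953125000000) * p ^ 13 * q ^ 2 +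
      (3498212583572855773 / 19531250000000) * p ^ 14 * q ^ 1 +
      (334822045725653791 / 39062500000000) * p ^ 15 := by
    intro p q hp hq
    positivity
  have h2 := key (r - 0) (1 / 2 - r) (by linarith) (by linarith)
  rw [← sub_nonneg]
  refine h2.trans_eq ?_
  unfold qT1 qA qxU qgL qgP qgU qcU qhU qE qe
  ring

private theorem uqB11 {r : ℝ} (h0 : 1 / 2 ≤ r) (h1 : r ≤ 3 / 4) :
    r * qA (4 / 10) (1 - r ^ 2) ≤ qT1 (4 / 10) (984 / 1000) (7) (1 - r ^ 2) := by
  have key : ∀ p q : ℝ, 0 ≤ p → 0 ≤ q → 0 ≤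
      (42857221852883685248 / 152587890625) * q ^ 15 +
      (516516280992557379136 / 152587890625) * p ^ 1 * q ^ 14 +
      (2832289528843221719776 / 152587890625) * p ^ 2 * q ^ 13 +
      (9320756939930558233872 / 152587890625) * p ^ 3 * q ^ 12 +
      (4085919417790677710072 / 30517578125) * p ^ 4 * q ^ 11 +
      (31255546966488399197876 / 152587890625) * p ^ 5 * q ^ 10 +
      (33972579634405423476134 / 152587890625) * p ^ 6 * q ^ 9 +
      (26207153866655098803637 / 152587890625) * p ^ 7 * q ^ 8 +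
      (28542690020519746983069 / 305175781250) * p ^ 8 * q ^ 7 +
      (23344852421546842672971 / 610351562500) * p ^ 9 * q ^ 6 +
      (20374602247906944263173 / 1220703125000) * p ^ 10 * q ^ 5 +
      (5165066000251045615191 / 488281250000) * p ^ 11 * q ^ 4 +
      (30237499717281246902889 / 4882812500000) * p ^ 12 * q ^ 3 +
      (23040333161654376952719 / 9765625000000) * p ^ 13 * q ^ 2 +
      (9845681797537901837073 / 19531250000000) * p ^ 14 * q ^ 1 +
      (1807239764215186722183 / 39062500000000) * p ^ 15 := by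
    intro p q hp hq
    positivity
  have h2 := key (r - 1 / 2) (3 / 4 - r) (by linarith) (by linarith)
  rw [← sub_nonneg]
  refine h2.trans_eq ?_
  unfold qT1 qA qxU qgL qgP qgU qcU qhU qE qe
  ring

private theorem uqB12 {r : ℝ} (h0 : 3 / 4 ≤ r) (h1 : r ≤ 1) :
    r * qA (4 / 10) (1 - r ^ 2) ≤ qT1 (4 / 10) (984 / 1000) (7) (1 - r ^ 2) := by
  have key : ∀ p q : ℝ, 0 ≤ p → 0 ≤ q → 0 ≤
      (1807239764215186722183 / 39062500000000) * q ^ 15 +
      (2157864333211237374459 / 2441406250000) * p ^ 1 * q ^ 14 +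
      (1171265050604974329108 / 152587890625) * p ^ 2 * q ^ 13 +
      (1222649253288665905638 / 30517578125) * p ^ 3 * q ^ 12 +
      (21448463990803454664912 / 152587890625) * p ^ 4 * q ^ 11 +
      (53647232907657008158096 / 152587890625) * p ^ 5 * q ^ 10 +
      (19788015700932510674152 / 30517578125) * p ^ 6 * q ^ 9 +
      (137117597269037619750072 / 152587890625) * p ^ 7 * q ^ 8 +
      (144006834430386168841216 / 152587890625) * p ^ 8 * q ^ 7 +
      (114573214251901930215936 / 152587890625) * p ^ 9 * q ^ 6 +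
      (68419573364346026872832 / 152587890625) * p ^ 10 * q ^ 5 +
      (30063628208947251175424 / 152587890625) * p ^ 11 * q ^ 4 +
      (9385803741818258325504 / 152587890625) * p ^ 12 * q ^ 3 +
      (1959643813315289284608 / 152587890625) * p ^ 13 * q ^ 2 +
      (624669640097792 / 390625) * p ^ 14 * q ^ 1 +
      (34972039643136 / 390625) * p ^ 15 := by
    intro p q hp hq
    positivity
  have h2 := key (r - 3 / 4) (1 - r) (by linarith) (by linarith)
  rw [← sub_nonneg]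
  refine h2.trans_eq ?_
  unfold qT1 qA qxU qgL qgP qgU qcU qhU qE qe
  ring

private theorem uqB20 {r : ℝ} (h0 : 0 ≤ r) (h1 : r ≤ 1 / 2) :
    r * qA (4 / 10) (1 - r ^ 2) ≤ qT2 (4 / 10) (984 / 1000) (7) (1 - r ^ 2) := by
  have key : ∀ p q : ℝ, 0 ≤ p → 0 ≤ q → 0 ≤
      (5146233188178768 / 30517578125) * q ^ 15 +
      (14838444528536304 / 6103515625) * p ^ 1 * q ^ 14 +
      (2474674221644753016 / 152587890625) * p ^ 2 * q ^ 13 +
      (10128567581923394808 / 152587890625) * p ^ 3 * q ^ 12 +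
      (28428513935739514842 / 152587890625) * p ^ 4 * q ^ 11 +
      (11584418684080007486 / 30517578125) * p ^ 5 * q ^ 10 +
      (88426012700376849192 / 152587890625) * p ^ 6 * q ^ 9 +
      (20578695782709870558 / 30517578125) * p ^ 7 * q ^ 8 +
      (470505218900936617 / 781250000) * p ^ 8 * q ^ 7 +
      (1006449618910086078991 / 2441406250000) * p ^ 9 * q ^ 6 +
      (1045654194814885899101 / 4882812500000) * p ^ 10 * q ^ 5 +
      (404075517686086580599 / 4882812500000) * p ^ 11 * q ^ 4 +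
      (2805298552233866253 / 122070312500) * p ^ 12 * q ^ 3 +
      (337530996612624541 / 78125000000) * p ^ 13 * q ^ 2 +
      (9583098118228199821 / 19531250000000) * p ^ 14 * q ^ 1 +
      (989428815367454959 / 39062500000000) * p ^ 15 := by
    intro p q hp hq
    positivity
  have h2 := key (r - 0) (1 / 2 - r) (by linarith) (by linarith)
  rw [← sub_nonneg]
  refine h2.trans_eq ?_
  unfold qT2 qA qxU qgL qgP qgU qcU qhU qE qe qxL qxP
  ring

private theorem uqB21 {r : ℝ} (h0 : 1 / 2 ≤ r) (h1 : r ≤ 3 / 4) :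
    r * qA (4 / 10) (1 - r ^ 2) ≤ qT2 (4 / 10) (984 / 1000) (7) (1 - r ^ 2) := by
  have key : ∀ p q : ℝ, 0 ≤ p → 0 ≤ q → 0 ≤
      (126646888367034234752 / 152587890625) * q ^ 15 +
      (1622918429125060704832 / 152587890625) * p ^ 1 * q ^ 14 +
      (9561455580716429497312 / 152587890625) * p ^ 2 * q ^ 13 +
      (34274834821803747408912 / 152587890625) * p ^ 3 * q ^ 12 +
      (83358119919959433291928 / 152587890625) * p ^ 4 * q ^ 11 +
      (145149100737976103676788 / 152587890625) * p ^ 5 * q ^ 10 +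
      (186031882530986911198598 / 152587890625) * p ^ 6 * q ^ 9 +
      (177566426097233237581333 / 152587890625) * p ^ 7 * q ^ 8 +
      (252382036376282723174301 / 305175781250) * p ^ 8 * q ^ 7 +
      (264198473569615063555227 / 610351562500) * p ^ 9 * q ^ 6 +
      (199591257350000312066029 / 1220703125000) * p ^ 10 * q ^ 5 +
      (106413527609763567023523 / 2441406250000) * p ^ 11 * q ^ 4 +
      (40653145857675785748129 / 4882812500000) * p ^ 12 * q ^ 3 +
      (13057497158665726160223 / 9765625000000) * p ^ 13 * q ^ 2 +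
      (4178907144480179942001 / 19531250000000) * p ^ 14 * q ^ 1 +
      (850291144618708041927 / 39062500000000) * p ^ 15 := by
    intro p q hp hq
    positivity
  have h2 := key (r - 1 / 2) (3 / 4 - r) (by linarith) (by linarith)
  rw [← sub_nonneg]
  refine h2.trans_eq ?_
  unfold qT2 qA qxU qgL qgP qgU qcU qhU qE qe qxL qxP
  ring

private theorem uqB22 {r : ℝ} (h0 : 3 / 4 ≤ r) (h1 : r ≤ 1) :
    r * qA (4 / 10) (1 - r ^ 2) ≤ qT2 (4 / 10) (984 / 1000) (7) (1 - r ^ 2) := by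
  have key : ∀ p q : ℝ, 0 ≤ p → 0 ≤ q → 0 ≤
      (850291144618708041927 / 39062500000000) * q ^ 15 +
      (1071932503100055085863 / 2441406250000) * p ^ 1 * q ^ 14 +
      (2739585457556721960909 / 610351562500) * p ^ 2 * q ^ 13 +
      (16962029732349304836183 / 610351562500) * p ^ 3 * q ^ 12 +
      (3457322093841646961067 / 30517578125) * p ^ 4 * q ^ 11 +
      (49079045349314359450471 / 152587890625) * p ^ 5 * q ^ 10 +
      (4029833739312429751184 / 6103515625) * p ^ 6 * q ^ 9 +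
      (30608670501190887158712 / 30517578125) * p ^ 7 * q ^ 8 +
      (34831242714325175458304 / 30517578125) * p ^ 8 * q ^ 7 +
      (148833781316408343834624 / 152587890625) * p ^ 9 * q ^ 6 +
      (94850559232053510668288 / 152587890625) * p ^ 10 * q ^ 5 +
      (8851561893139625549824 / 30517578125) * p ^ 11 * q ^ 4 +
      (14611879069646550073344 / 152587890625) * p ^ 12 * q ^ 3 +
      (642346050934956097536 / 30517578125) * p ^ 13 * q ^ 2 +
      (668768940427575296 / 244140625) * p ^ 14 * q ^ 1 +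
      (12330045800448 / 78125) * p ^ 15 := by
    intro p q hp hq
    positivity
  have h2 := key (r - 3 / 4) (1 - r) (by linarith) (by linarith)
  rw [← sub_nonneg]
  refine h2.trans_eq ?_
  unfold qT2 qA qxU qgL qgP qgU qcU qhU qE qe qxL qxP
  ring

private theorem uqB1 {r : ℝ} (h0 : 0 ≤ r) (h1 : r ≤ 1) :
    r * qA (4 / 10) (1 - r ^ 2) ≤ qT1 (4 / 10) (984 / 1000) (7) (1 - r ^ 2) := by
  rcases le_total r (1 / 2) with h | h
  · exact uqB10 h0 h
  · rcases le_total r (3 / 4) with h3 | h3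
    · exact uqB11 h h3
    · exact uqB12 h3 h1

private theorem uqB2 {r : ℝ} (h0 : 0 ≤ r) (h1 : r ≤ 1) :
    r * qA (4 / 10) (1 - r ^ 2) ≤ qT2 (4 / 10) (984 / 1000) (7) (1 - r ^ 2) := by
  rcases le_total r (1 / 2) with h | h
  · exact uqB20 h0 h
  · rcases le_total r (3 / 4) with h3 | h3
    · exact uqB21 h h3
    · exact uqB22 h3 h1

private theorem uqC10 {r : ℝ} (h0 : 0 ≤ r) (h1 : r ≤ 1 / 2) :
    r * qA (573 / 1000) (1 - r ^ 2) ≤ qT1 (573 / 1000) (805 / 1000) (77 / 10) (1 - r ^ 2) := by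
  have key : ∀ p q : ℝ, 0 ≤ p → 0 ≤ q → 0 ≤
      (363482053211739501 / 3051757812500) * q ^ 15 +
      (1030420656035218503 / 610351562500) * p ^ 1 * q ^ 14 +
      (6759594439097674937 / 610351562500) * p ^ 2 * q ^ 13 +
      (27210985355736834999 / 610351562500) * p ^ 3 * q ^ 12 +
      (601068588125150946247 / 4882812500000) * p ^ 4 * q ^ 11 +
      (6025572438948405837409 / 24414062500000) * p ^ 5 * q ^ 10 +
      (2264098469388985674437 / 6103515625000) * p ^ 6 * q ^ 9 +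
      (5191365314287891978891 / 12207031250000) * p ^ 7 * q ^ 8 +
      (292694951051025269004341 / 781250000000000) * p ^ 8 * q ^ 7 +
      (197955501083591062968339 / 781250000000000) * p ^ 9 * q ^ 6 +
      (101842815637945223346367 / 781250000000000) * p ^ 10 * q ^ 5 +
      (39101319891014308756661 / 781250000000000) * p ^ 11 * q ^ 4 +
      (21668364738027458504559 / 1562500000000000) * p ^ 12 * q ^ 3 +
      (817389037215479002013 / 312500000000000) * p ^ 13 * q ^ 2 +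
      (937875609012116479337 / 3125000000000000) * p ^ 14 * q ^ 1 +
      (49348026871268811507 / 3125000000000000) * p ^ 15 := by
    intro p q hp hq
    positivity
  have h2 := key (r - 0) (1 / 2 - r) (by linarith) (by linarith)
  rw [← sub_nonneg]
  refine h2.trans_eq ?_
  unfold qT1 qA qxU qgL qgP qgU qcU qhU qE qe
  ring

private theorem uqC11 {r : ℝ} (h0 : 1 / 2 ≤ r) (h1 : r ≤ 3 / 4) :
    r * qA (573 / 1000) (1 - r ^ 2) ≤ qT1 (573 / 1000) (805 / 1000) (77 / 10) (1 - r ^ 2) := by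
  have key : ∀ p q : ℝ, 0 ≤ p → 0 ≤ q → 0 ≤
      (394784214970150492056 / 762939453125) * q ^ 15 +
      (5131142400779920153912 / 762939453125) * p ^ 1 * q ^ 14 +
      (30834000373989849524182 / 762939453125) * p ^ 2 * q ^ 13 +
      (113565381370595846562444 / 762939453125) * p ^ 3 * q ^ 12 +
      (22923086613179928087083 / 61035156250) * p ^ 4 * q ^ 11 +
      (1048780577248738992794929 / 1525878906250) * p ^ 5 * q ^ 10 +
      (5752063305419820964384359 / 6103515625000) * p ^ 6 * q ^ 9 +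
      (752485645943442198730609 / 762939453125) * p ^ 7 * q ^ 8 +
      (19423504744502764147473553 / 24414062500000) * p ^ 8 * q ^ 7 +
      (12116143701836976682389721 / 24414062500000) * p ^ 9 * q ^ 6 +
      (23329569219714999933757361 / 97656250000000) * p ^ 10 * q ^ 5 +
      (859573287948775946904907 / 9765625000000) * p ^ 11 * q ^ 4 +
      (9520296128618321049221673 / 390625000000000) * p ^ 12 * q ^ 3 +
      (1901731477495115422373839 / 390625000000000) * p ^ 13 * q ^ 2 +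
      (994339598763760597015581 / 1562500000000000) * p ^ 14 * q ^ 1 +
      (16116505479570793512177 / 390625000000000) * p ^ 15 := by
    intro p q hp hq
    positivity
  have h2 := key (r - 1 / 2) (3 / 4 - r) (by linarith) (by linarith)
  rw [← sub_nonneg]
  refine h2.trans_eq ?_
  unfold qT1 qA qxU qgL qgP qgU qcU qhU qE qe
  ring

private theorem uqC12 {r : ℝ} (h0 : 3 / 4 ≤ r) (h1 : r ≤ 1) :
    r * qA (573 / 1000) (1 - r ^ 2) ≤ qT1 (573 / 1000) (805 / 1000) (77 / 10) (1 - r ^ 2) := by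
  have key : ∀ p q : ℝ, 0 ≤ p → 0 ≤ q → 0 ≤
      (16116505479570793512177 / 390625000000000) * q ^ 15 +
      (939641058784734624445659 / 1562500000000000) * p ^ 1 * q ^ 14 +
      (213785823446065564797389 / 48828125000000) * p ^ 2 * q ^ 13 +
      (162077974887803079768091 / 7812500000000) * p ^ 3 * q ^ 12 +
      (53400971061319844051009 / 762939453125) * p ^ 4 * q ^ 11 +
      (2134550505762115807308917 / 12207031250000) * p ^ 5 * q ^ 10 +
      (402876978728194394769979 / 1220703125000) * p ^ 6 * q ^ 9 +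
      (2903610909859499724317237 / 6103515625000) * p ^ 7 * q ^ 8 +
      (401348064753780019144532 / 762939453125) * p ^ 8 * q ^ 7 +
      (339981855458641826739912 / 762939453125) * p ^ 9 * q ^ 6 +
      (218845732781270772247104 / 762939453125) * p ^ 10 * q ^ 5 +
      (105258225009473920893568 / 762939453125) * p ^ 11 * q ^ 4 +
      (36706793380739853191168 / 762939453125) * p ^ 12 * q ^ 3 +
      (8795622102772016193536 / 762939453125) * p ^ 13 * q ^ 2 +
      (3333412732534784 / 1953125) * p ^ 14 * q ^ 1 +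
      (231577120407552 / 1953125) * p ^ 15 := by
    intro p q hp hq
    positivity
  have h2 := key (r - 3 / 4) (1 - r) (by linarith) (by linarith)
  rw [← sub_nonneg]
  refine h2.trans_eq ?_
  unfold qT1 qA qxU qgL qgP qgU qcU qhU qE qe
  ring

private theorem uqC20 {r : ℝ} (h0 : 0 ≤ r) (h1 : r ≤ 1 / 2) :
    r * qA (573 / 1000) (1 - r ^ 2) ≤ qT2 (573 / 1000) (805 / 1000) (77 / 10) (1 - r ^ 2) := by
  have key : ∀ p q : ℝ, 0 ≤ p → 0 ≤ q → 0 ≤
      (29200719057251367 / 152587890625) * q ^ 15 +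
      (84600881991754101 / 30517578125) * p ^ 1 * q ^ 14 +
      (226981720688316260107 / 12207031250000) * p ^ 2 * q ^ 13 +
      (934749848220284863791 / 12207031250000) * p ^ 3 * q ^ 12 +
      (5283791828678384503253 / 24414062500000) * p ^ 4 * q ^ 11 +
      (2170008169391449406387 / 4882812500000) * p ^ 5 * q ^ 10 +
      (33421786499478694462291 / 48828125000000) * p ^ 6 * q ^ 9 +
      (7856150130785440505243 / 9765625000000) * p ^ 7 * q ^ 8 +
      (56774368346549981631023 / 78125000000000) * p ^ 8 * q ^ 7 +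
      (196864367800434523510269 / 390625000000000) * p ^ 9 * q ^ 6 +
      (830529793809028621102201 / 3125000000000000) * p ^ 10 * q ^ 5 +
      (326584688249841397482029 / 3125000000000000) * p ^ 11 * q ^ 4 +
      (740378213463439639161 / 25000000000000) * p ^ 12 * q ^ 3 +
      (3562592516555772131239 / 625000000000000) * p ^ 13 * q ^ 2 +
      (2078828749720570655069 / 3125000000000000) * p ^ 14 * q ^ 1 +
      (110719407277534139913 / 3125000000000000) * p ^ 15 := by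
    intro p q hp hq
    positivity
  have h2 := key (r - 0) (1 / 2 - r) (by linarith) (by linarith)
  rw [← sub_nonneg]
  refine h2.trans_eq ?_
  unfold qT2 qA qxU qgL qgP qgU qcU qhU qE qe qxL qxP
  ring

private theorem uqC21 {r : ℝ} (h0 : 1 / 2 ≤ r) (h1 : r ≤ 3 / 4) :
    r * qA (573 / 1000) (1 - r ^ 2) ≤ qT2 (573 / 1000) (805 / 1000) (77 / 10) (1 - r ^ 2) := by
  have key : ∀ p q : ℝ, 0 ≤ p → 0 ≤ q → 0 ≤
      (885755258220273119304 / 762939453125) * q ^ 15 +
      (11614178311073862564064 / 762939453125) * p ^ 1 * q ^ 14 +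
      (70263989943569310722164 / 762939453125) * p ^ 2 * q ^ 13 +
      (259785436428805153026174 / 762939453125) * p ^ 3 * q ^ 12 +
      (655272387080958491684566 / 762939453125) * p ^ 4 * q ^ 11 +
      (1191757032531956844040571 / 762939453125) * p ^ 5 * q ^ 10 +
      (12880074926414908356081753 / 6103515625000) * p ^ 6 * q ^ 9 +
      (6557540891976900155862169 / 3051757812500) * p ^ 7 * q ^ 8 +
      (40409125902387115613499697 / 24414062500000) * p ^ 8 * q ^ 7 +
      (5851631087015740306401643 / 6103515625000) * p ^ 9 * q ^ 6 +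
      (10032919256944354521019847 / 24414062500000) * p ^ 10 * q ^ 5 +
      (12373427490248795949196423 / 97656250000000) * p ^ 11 * q ^ 4 +
      (5248397354649514890510189 / 195312500000000) * p ^ 12 * q ^ 3 +
      (716885411058606491278349 / 195312500000000) * p ^ 13 * q ^ 2 +
      (463062198287608139712657 / 1562500000000000) * p ^ 14 * q ^ 1 +
      (1225474788222412945827 / 97656250000000) * p ^ 15 := by
    intro p q hp hq
    positivity
  have h2 := key (r - 1 / 2) (3 / 4 - r) (by linarith) (by linarith)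
  rw [← sub_nonneg]
  refine h2.trans_eq ?_
  unfold qT2 qA qxU qgL qgP qgU qcU qhU qE qe qxL qxP
  ring

private theorem uqC22 {r : ℝ} (h0 : 3 / 4 ≤ r) (h1 : r ≤ 1) :
    r * qA (573 / 1000) (1 - r ^ 2) ≤ qT2 (573 / 1000) (805 / 1000) (77 / 10) (1 - r ^ 2) := by
  have key : ∀ p q : ℝ, 0 ≤ p → 0 ≤ q → 0 ≤
      (1225474788222412945827 / 97656250000000) * q ^ 15 +
      (125165700059150074284303 / 1562500000000000) * p ^ 1 * q ^ 14 +
      (251133078317609753557459 / 390625000000000) * p ^ 2 * q ^ 13 +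
      (2485499538094499542843103 / 390625000000000) * p ^ 3 * q ^ 12 +
      (742766529206009442330941 / 19531250000000) * p ^ 4 * q ^ 11 +
      (13650151958131199863149961 / 97656250000000) * p ^ 5 * q ^ 10 +
      (839613151872873547626689 / 2441406250000) * p ^ 6 * q ^ 9 +
      (730030992731177082105307 / 1220703125000) * p ^ 7 * q ^ 8 +
      (115602065617381852706776 / 152587890625) * p ^ 8 * q ^ 7 +
      (540733893911507056387068 / 762939453125) * p ^ 9 * q ^ 6 +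
      (373719826991993492177376 / 762939453125) * p ^ 10 * q ^ 5 +
      (37685992098935417010944 / 152587890625) * p ^ 11 * q ^ 4 +
      (67329324327014205237248 / 762939453125) * p ^ 12 * q ^ 3 +
      (129058437429258010624 / 6103515625) * p ^ 13 * q ^ 2 +
      (3714395462204260352 / 1220703125) * p ^ 14 * q ^ 1 +
      (620639551488 / 3125) * p ^ 15 := by
    intro p q hp hq
    positivity
  have h2 := key (r - 3 / 4) (1 - r) (by linarith) (by linarith)
  rw [← sub_nonneg]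
  refine h2.trans_eq ?_
  unfold qT2 qA qxU qgL qgP qgU qcU qhU qE qe qxL qxP
  ring

private theorem uqC1 {r : ℝ} (h0 : 0 ≤ r) (h1 : r ≤ 1) :
    r * qA (573 / 1000) (1 - r ^ 2) ≤ qT1 (573 / 1000) (805 / 1000) (77 / 10) (1 - r ^ 2) := by
  rcases le_total r (1 / 2) with h | h
  · exact uqC10 h0 h
  · rcases le_total r (3 / 4) with h3 | h3
    · exact uqC11 h h3
    · exact uqC12 h3 h1

private theorem uqC2 {r : ℝ} (h0 : 0 ≤ r) (h1 : r ≤ 1) :
    r * qA (573 / 1000) (1 - r ^ 2) ≤ qT2 (573 / 1000) (805 / 1000) (77 / 10) (1 - r ^ 2) := by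
  rcases le_total r (1 / 2) with h | h
  · exact uqC20 h0 h
  · rcases le_total r (3 / 4) with h3 | h3
    · exact uqC21 h h3
    · exact uqC22 h3 h1

private theorem om_np (h2 : Prof2 L χ ω) {s : ℝ} (h0 : 0 ≤ s) (h1 : s ≤ 1) : s * ω s ≤ 0 := by
  rcases h1.eq_or_lt with h1 | h1
  · rw [h1, h2.outd 1 le_rfl]
    norm_num
  rcases h0.eq_or_lt with h0 | h0
  · rw [← h0, zero_mul]
  have hL : 0 < L := by linarith [h2.L_lo]
  have hanti : AntitoneOn (fun t => t ^ 3 * ω t) (Icc 0 s) := by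
    apply antitoneOn_of_deriv_nonpos (convex_Icc 0 s)
    · exact ((continuous_pow 3).mul h2.cont).continuousOn
    · intro t ht
      rw [interior_Icc] at ht
      exact (h2.ode t (ht.2.trans h1)).differentiableAt.differentiableWithinAt
    · intro t ht
      rw [interior_Icc] at ht
      rw [(h2.ode t (ht.2.trans h1)).deriv]
      have h3 : 1 ≤ χ t := h2.one_le t ⟨ht.1.le, (ht.2.trans h1).le⟩
      have h4 : 0 ≤ L / 4 * (t ^ 2 * χ t) := by positivity
      linarith
  have h3 := hanti (left_mem_Icc.2 h0.le) (right_mem_Icc.2 h0.le) h0.le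
  have h4 : s ^ 3 * ω s ≤ 0 := by
    have h5 : (fun t => t ^ 3 * ω t) 0 = 0 := by simp
    rw [h5] at h3
    exact h3
  have h5 : s ^ 2 * (s * ω s) ≤ 0 := by
    have h6 : s ^ 2 * (s * ω s) = s ^ 3 * ω s := by ring
    rw [h6]
    exact h4
  by_contra h6
  push Not at h6
  have : 0 < s ^ 2 * (s * ω s) := by positivity
  linarith

private theorem alg_mod {s κ σ U B C M G1 G2 : ℝ} (hs : 0 < s) (hk : κ ^ 2 + σ ^ 2 = s ^ 2)
    (hB : |B| ≤ M) (hC : |C| ≤ M) (h1 : s * G1 = s * U + κ * B) (h2 : s * G2 = σ * C) :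
    √(G1 ^ 2 + G2 ^ 2) ≤ |U| + M := by
  have hM : 0 ≤ M := (abs_nonneg B).trans hB
  have hκ : |κ| ≤ s := by
    apply abs_le_of_sq_le_sq _ hs.le
    nlinarith [sq_nonneg σ]
  have hB2 : B ^ 2 ≤ M ^ 2 := by
    rw [← sq_abs B]
    exact pow_le_pow_left₀ (abs_nonneg _) hB 2
  have hC2 : C ^ 2 ≤ M ^ 2 := by
    rw [← sq_abs C]
    exact pow_le_pow_left₀ (abs_nonneg _) hC 2
  have hcr : U * (κ * B) ≤ |U| * (s * M) := by
    refine (le_abs_self _).trans ?_
    rw [abs_mul, abs_mul]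
    exact mul_le_mul_of_nonneg_left (mul_le_mul hκ hB (abs_nonneg _) hs.le) (abs_nonneg _)
  have hU2 : |U| ^ 2 = U ^ 2 := sq_abs U
  have e1 : s ^ 2 * (G1 ^ 2 + G2 ^ 2) = (s * U + κ * B) ^ 2 + (σ * C) ^ 2 := by
    rw [← h1, ← h2]
    ring
  have e2 : κ ^ 2 * B ^ 2 + σ ^ 2 * C ^ 2 ≤ s ^ 2 * M ^ 2 := by
    have h3 := mul_le_mul_of_nonneg_left hB2 (sq_nonneg κ)
    have h4 := mul_le_mul_of_nonneg_left hC2 (sq_nonneg σ)
    have h5 : s ^ 2 * M ^ 2 = κ ^ 2 * M ^ 2 + σ ^ 2 * M ^ 2 := by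
      rw [← hk]
      ring
    linarith
  have e3 : s ^ 2 * (G1 ^ 2 + G2 ^ 2) ≤ s ^ 2 * (|U| + M) ^ 2 := by
    rw [e1]
    have h3 : (s * U + κ * B) ^ 2 + (σ * C) ^ 2
        = s ^ 2 * U ^ 2 + 2 * s * (U * (κ * B)) + (κ ^ 2 * B ^ 2 + σ ^ 2 * C ^ 2) := by ring
    have h4 : s ^ 2 * (|U| + M) ^ 2
        = s ^ 2 * U ^ 2 + 2 * s * (|U| * (s * M)) + s ^ 2 * M ^ 2 := by
      rw [← hU2]
      ring
    rw [h3, h4]
    have h5 := mul_le_mul_of_nonneg_left hcr (by linarith : 0 ≤ 2 * s)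
    linarith
  have e4 : G1 ^ 2 + G2 ^ 2 ≤ (|U| + M) ^ 2 := le_of_mul_le_mul_left e3 (by positivity)
  calc √(G1 ^ 2 + G2 ^ 2) ≤ √((|U| + M) ^ 2) := Real.sqrt_le_sqrt e4
    _ = |U| + M := Real.sqrt_sq (add_nonneg (abs_nonneg _) hM)

/-- the modulus of `y G - P H` -/
private theorem mod_mul (y0 y1 a b G1 G2 H1 H2 : ℝ) :
    √(((y0 * G1 - y1 * G2) - (a * H1 - b * H2)) ^ 2
      + ((y0 * G2 + y1 * G1) - (a * H2 + b * H1)) ^ 2)
      ≤ √(y0 ^ 2 + y1 ^ 2) * √(G1 ^ 2 + G2 ^ 2) + √(a ^ 2 + b ^ 2) * √(H1 ^ 2 + H2 ^ 2) := by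
  have hn : ∀ p q : ℝ, ‖(⟨p, q⟩ : ℂ)‖ = √(p ^ 2 + q ^ 2) := fun p q => by
    rw [Complex.norm_eq_sqrt_sq_add_sq]
  have h1 : (⟨(y0 * G1 - y1 * G2) - (a * H1 - b * H2),
      (y0 * G2 + y1 * G1) - (a * H2 + b * H1)⟩ : ℂ)
      = (⟨y0, y1⟩ : ℂ) * ⟨G1, G2⟩ - (⟨a, b⟩ : ℂ) * ⟨H1, H2⟩ := by
    apply Complex.ext <;> simp
  rw [← hn, ← hn, ← hn, ← hn, ← hn, h1, ← norm_mul, ← norm_mul]
  exact norm_sub_le _ _

/-- the modulus of the `w`-part -/
private theorem G_bd {s κ σ m x p cc o : ℝ} (hm0 : 0 ≤ m) (hs : 0 ≤ s) (hs1 : 0 < s)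
    (hk : κ ^ 2 + σ ^ 2 = s ^ 2) (hx : 0 ≤ x) (hc : 1 ≤ cc) (hp : p ≤ 0) (ho : s * o ≤ 0)
    (hg : 0 ≤ x + 2 * s * p) (hh : 0 ≤ 2 * (cc + s * o)) :
    √(((2 * cc * x + s * (2 * cc * p + o * x) + 2 * o * p * s * (s + m * κ)) - x
        + m * κ * (2 * cc * p + o * x)) ^ 2 + (m * σ * (o * x - 2 * cc * p)) ^ 2)
      ≤ (2 * (cc + s * o)) * (x + 2 * s * p) / 2 + cc * x - x
        + m / 2 * (2 * cc * x - (2 * (cc + s * o)) * (x + 2 * s * p)) := by
  set h := 2 * (cc + s * o) with hh'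
  set g := x + 2 * s * p with hg'
  have hxg : 0 ≤ x - g := by
    rw [hg']
    have := mul_nonneg hs (neg_nonneg.2 hp)
    linarith
  have hch : 0 ≤ 2 * cc - h := by
    rw [hh']
    linarith
  have hM1 : |h * g - 2 * cc * x| ≤ 2 * cc * x - h * g := by
    rw [abs_le]
    constructor
    · linarith
    · have := mul_nonneg (by linarith : 0 ≤ 2 * cc + h) hxg
      have := mul_nonneg hch (by linarith : 0 ≤ x + g)
      linarith
  have hM2 : |2 * cc * g - h * x| ≤ 2 * cc * x - h * g := by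
    rw [abs_le]
    constructor
    · have := mul_nonneg hch (by linarith : 0 ≤ x + g)
      linarith
    · have := mul_nonneg (by linarith : 0 ≤ 2 * cc + h) hxg
      linarith
  have hU : |h * g / 2 + cc * x - x| = h * g / 2 + cc * x - x := by
    apply abs_of_nonneg
    have := mul_nonneg hh hg
    have := mul_nonneg (sub_nonneg.2 hc) hx
    linarith
  have key := alg_mod (s := s) (κ := κ) (σ := σ) (U := h * g / 2 + cc * x - x)
    (B := m / 2 * (h * g - 2 * cc * x)) (C := -(m / 2 * (2 * cc * g - h * x)))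
    (M := m / 2 * (2 * cc * x - h * g))
    (G1 := (2 * cc * x + s * (2 * cc * p + o * x) + 2 * o * p * s * (s + m * κ)) - x
        + m * κ * (2 * cc * p + o * x)) (G2 := m * σ * (o * x - 2 * cc * p)) hs1 hk
    (by
      rw [abs_mul, abs_of_nonneg (by linarith : 0 ≤ m / 2)]
      exact mul_le_mul_of_nonneg_left hM1 (by linarith))
    (by
      rw [abs_neg, abs_mul, abs_of_nonneg (by linarith : 0 ≤ m / 2)]
      exact mul_le_mul_of_nonneg_left hM2 (by linarith))
    (by rw [hh', hg']; ring) (by rw [hh', hg']; ring)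
  rw [hU] at key
  exact key

/-- the modulus of the `P`-part -/
private theorem H_bd {s κ σ m x p z z' M : ℝ} (hm0 : 0 ≤ m) (hs : 0 ≤ s)
    (hk : κ ^ 2 + σ ^ 2 = s ^ 2)
    (hb : |(z + 2 * s * z') * (x + 2 * s * p) + z * x| ≤ M)
    (hc : |(z + 2 * s * z') * x + z * (x + 2 * s * p)| ≤ M)
    (hU : (z + 2 * s * z') * (x + 2 * s * p) ≤ z * x) :
    √((m * (z * x + s * (z * p + z' * x)) + κ * ((z * p + z' * x) + 2 * z' * p * (s + m * κ))) ^ 2
      + (-(σ * ((z * p + z' * x) + 2 * z' * p * (s + m * κ)))) ^ 2)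
      ≤ (z * x - (z + 2 * s * z') * (x + 2 * s * p)) / 2 + m / 2 * M := by
  have hM : 0 ≤ M := (abs_nonneg _).trans hb
  rcases hs.eq_or_lt with h0 | h0
  · subst h0
    have hκ : κ = 0 := by nlinarith [sq_nonneg κ, sq_nonneg σ]
    have hσ : σ = 0 := by nlinarith [sq_nonneg κ, sq_nonneg σ]
    subst hκ hσ
    have h1 : (m * (z * x + 0 * (z * p + z' * x)) + 0 * ((z * p + z' * x)
        + 2 * z' * p * (0 + m * 0))) ^ 2 + (-(0 * ((z * p + z' * x)
        + 2 * z' * p * (0 + m * 0)))) ^ 2 = (m / 2 * (2 * (z * x))) ^ 2 := by ring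
    rw [h1, Real.sqrt_sq_eq_abs, abs_mul, abs_of_nonneg (by linarith : 0 ≤ m / 2)]
    have h2 : |2 * (z * x)| ≤ M := by
      have h3 : (z + 2 * 0 * z') * (x + 2 * 0 * p) + z * x = 2 * (z * x) := by ring
      rw [h3] at hb
      exact hb
    have h3 := mul_le_mul_of_nonneg_left h2 (by linarith : 0 ≤ m / 2)
    have h4 : (z * x - (z + 2 * 0 * z') * (x + 2 * 0 * p)) / 2 = 0 := by ring
    rw [h4]
    linarith
  · set b2 := z * x + s * (z * p + z' * x) with hb2
    set b3 := (z * p + z' * x) + 2 * z' * p * (s + m * κ) with hb3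
    have e1 : (m * b2 + κ * b3) ^ 2 + (-(σ * b3)) ^ 2
        = ((m * b2 * κ + s ^ 2 * b3) / s) ^ 2 + (m * b2 * σ / s) ^ 2 := by
      have h3 : (κ ^ 2 + σ ^ 2) / s ^ 2 = 1 := by
        rw [hk]
        exact div_self (by positivity)
      have h4 : ((m * b2 * κ + s ^ 2 * b3) / s) ^ 2 + (m * b2 * σ / s) ^ 2
          = (m * b2) ^ 2 * ((κ ^ 2 + σ ^ 2) / s ^ 2) + 2 * m * b2 * κ * b3 + s ^ 2 * b3 ^ 2 := by
        field_simp
        ring
      rw [h4, h3, ← hk]
      ring
    rw [e1]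
    have key := alg_mod (s := s) (κ := κ) (σ := σ)
      (U := -((z * x - (z + 2 * s * z') * (x + 2 * s * p)) / 2))
      (B := m / 2 * ((z + 2 * s * z') * (x + 2 * s * p) + z * x))
      (C := m / 2 * ((z + 2 * s * z') * x + z * (x + 2 * s * p)))
      (M := m / 2 * M) (G1 := (m * b2 * κ + s ^ 2 * b3) / s) (G2 := m * b2 * σ / s) h0 hk
      (by
        rw [abs_mul, abs_of_nonneg (by linarith : 0 ≤ m / 2)]
        exact mul_le_mul_of_nonneg_left hb (by linarith))
      (by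
        rw [abs_mul, abs_of_nonneg (by linarith : 0 ≤ m / 2)]
        exact mul_le_mul_of_nonneg_left hc (by linarith))
      (by rw [mul_div_cancel₀ _ h0.ne', hb2, hb3]; ring)
      (by rw [mul_div_cancel₀ _ h0.ne', hb2]; ring)
    rw [abs_neg, abs_of_nonneg (by linarith)] at key
    exact key

private theorem qE_bd {u : ℝ} (h0 : 0 ≤ u) (h1 : u ≤ 1) : |qE u| ≤ 2 := by
  have hv : 0 ≤ 1 - u := by linarith
  rw [abs_le]
  unfold qE
  constructor
  · have h3 : u ^ 2 * (-12 + 22 * u - 9 * u ^ 2) + 2 = 2 * (1 - u) ^ 4 + 8 * u * (1 - u) ^ 3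
        + 6 * u ^ 3 * (1 - u) + 3 * u ^ 4 := by ring
    have h4 : 0 ≤ 2 * (1 - u) ^ 4 + 8 * u * (1 - u) ^ 3 + 6 * u ^ 3 * (1 - u) + 3 * u ^ 4 := by
      positivity
    linarith
  · have h3 : 2 - u ^ 2 * (-12 + 22 * u - 9 * u ^ 2) = 2 * (1 - u) ^ 4 + 8 * u * (1 - u) ^ 3
        + 24 * u ^ 2 * (1 - u) ^ 2 + 10 * u ^ 3 * (1 - u) + u ^ 4 := by ring
    have h4 : 0 ≤ 2 * (1 - u) ^ 4 + 8 * u * (1 - u) ^ 3 + 24 * u ^ 2 * (1 - u) ^ 2
        + 10 * u ^ 3 * (1 - u) + u ^ 4 := by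
      positivity
    linarith

/-- enclosures in terms of `u` -/
private structure QEnc (u x g cc h α : ℝ) : Prop where
  u0 : 0 ≤ u
  u1 : u ≤ 1
  xl : qxL u ≤ x
  xu : x ≤ qxU u
  gl : qgL u ≤ g
  gu : g ≤ qgU u
  cu : cc ≤ qcU u
  hu : h ≤ qhU u
  h0 : 0 ≤ h
  c1 : 1 ≤ cc
  al : 3231 / 10000 ≤ α
  au : α ≤ 3232 / 10000

private theorem qgL0 {u : ℝ} (h0 : 0 ≤ u) : 0 ≤ qgL u := by
  have h : qgL u = u * (1193 / 1000 + 3462 / 10000 * u + 408 / 10000 * u ^ 2)
      + 18 / 10000 * u := by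
    unfold qgL
    ring
  rw [h]
  positivity

private theorem qxL0 {u : ℝ} (h0 : 0 ≤ u) : 0 ≤ qxL u := by
  have h : qxL u = 1 + u / 2 + u ^ 2 * (761 / 10000 + 59 / 10000 * u) := by
    unfold qxL
    ring
  rw [h]
  positivity

private theorem qe0 {u : ℝ} (h0 : 0 ≤ u) (h1 : u ≤ 1) : 0 ≤ qe u := by
  unfold qe
  have : 0 ≤ 2 - u := by linarith
  positivity

private theorem qA_bd {u x g cc h α m : ℝ} (q : QEnc u x g cc h α) (hm0 : 0 ≤ m) (hm1 : m ≤ 1) :
    h * g / 2 + cc * x - x + m / 2 * (2 * cc * x - h * g) ≤ qA m u := by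
  have hg0 : 0 ≤ g := (qgL0 q.u0).trans q.gl
  have hx0 : 0 ≤ x := (qxL0 q.u0).trans q.xl
  have h1 : h * g ≤ qhU u * qgU u := mul_le_mul q.hu q.gu hg0 (q.h0.trans q.hu)
  have h2 : (1 + m) * cc - 1 ≤ (1 + m) * qcU u - 1 := by
    have := mul_le_mul_of_nonneg_left q.cu (by linarith : 0 ≤ 1 + m)
    linarith
  have h3 : 0 ≤ (1 + m) * cc - 1 := by
    have := mul_nonneg hm0 (zero_le_one.trans q.c1)
    linarith [q.c1]
  have h4 : ((1 + m) * cc - 1) * x ≤ ((1 + m) * qcU u - 1) * qxU u :=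
    mul_le_mul h2 q.xu hx0 (h3.trans h2)
  have h5 := mul_le_mul_of_nonneg_left h1 (by linarith : 0 ≤ (1 - m) / 2)
  unfold qA
  have h6 : h * g / 2 + cc * x - x + m / 2 * (2 * cc * x - h * g)
      = (1 - m) / 2 * (h * g) + ((1 + m) * cc - 1) * x := by ring
  linarith

private theorem zx_bd {u x g cc h α : ℝ} (q : QEnc u x g cc h α) :
    (qe u + α * x) * x ≤ qe u * qxU u + 3232 / 10000 * qxU u ^ 2 := by
  have hx0 : 0 ≤ x := (qxL0 q.u0).trans q.xl
  have h1 := mul_le_mul_of_nonneg_left q.xu (qe0 q.u0 q.u1)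
  have h2 : x ^ 2 ≤ qxU u ^ 2 := pow_le_pow_left₀ hx0 q.xu 2
  have h3 : α * x ^ 2 ≤ 3232 / 10000 * qxU u ^ 2 :=
    mul_le_mul q.au h2 (sq_nonneg _) (by norm_num)
  have h4 : (qe u + α * x) * x = qe u * x + α * x ^ 2 := by ring
  linarith

private theorem zg_bd {u x g cc h α : ℝ} (q : QEnc u x g cc h α) :
    -((qE u + α * g) * g) ≤ -(qE u * qgP u) + 4 / 10000 * u - 3231 / 10000 * qgL u ^ 2 := by
  have h0 := qgL0 q.u0
  have h1 : qgL u ^ 2 ≤ g ^ 2 := pow_le_pow_left₀ h0 q.gl 2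
  have h2 : 3231 / 10000 * qgL u ^ 2 ≤ α * g ^ 2 :=
    mul_le_mul q.al h1 (sq_nonneg _) (by linarith [q.al])
  have h3 : |qgP u - g| ≤ 2 / 10000 * u := by
    have h4 := q.gl
    have h5 := q.gu
    unfold qgL at h4
    unfold qgU at h5
    rw [abs_le]
    unfold qgP
    constructor <;> linarith
  have h4 : qE u * (qgP u - g) ≤ 2 * (2 / 10000 * u) := by
    refine (le_abs_self _).trans ?_
    rw [abs_mul]
    exact mul_le_mul (qE_bd q.u0 q.u1) h3 (abs_nonneg _) (by norm_num)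
  have h5 : (qE u + α * g) * g = qE u * qgP u - qE u * (qgP u - g) + α * g ^ 2 := by ring
  linarith

private theorem zx2_bd {u x g cc h α : ℝ} (q : QEnc u x g cc h α) :
    -((qE u + α * g) * x + (qe u + α * x) * g) ≤ (-(qE u * qxP u) + 2 / 10000 * u ^ 2)
      - qe u * qgL u - 2 * (3231 / 10000) * (qxL u * qgL u) := by
  have h0 := qgL0 q.u0
  have hx := qxL0 q.u0
  have h1 := mul_le_mul_of_nonneg_left q.gl (qe0 q.u0 q.u1)
  have h2 : qxL u * qgL u ≤ x * g := mul_le_mul q.xl q.gl h0 (hx.trans q.xl)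
  have h3 : 3231 / 10000 * (qxL u * qgL u) ≤ α * (x * g) :=
    mul_le_mul q.al h2 (mul_nonneg hx h0) (by linarith [q.al])
  have h4 : |qxP u - x| ≤ 1 / 10000 * u ^ 2 := by
    have h4 := q.xl
    have h5 := q.xu
    unfold qxL at h4
    unfold qxU at h5
    rw [abs_le]
    unfold qxP
    constructor <;> linarith
  have h5 : qE u * (qxP u - x) ≤ 2 * (1 / 10000 * u ^ 2) := by
    refine (le_abs_self _).trans ?_
    rw [abs_mul]
    exact mul_le_mul (qE_bd q.u0 q.u1) h4 (abs_nonneg _) (by norm_num)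
  have h6 : (qE u + α * g) * x + (qe u + α * x) * g
      = qE u * qxP u - qE u * (qxP u - x) + qe u * g + 2 * (α * (x * g)) := by ring
  linarith

/-- the final inequality -/
private theorem fin_alg {u x g cc h α m m1 P P1 bS r I : ℝ} (q : QEnc u x g cc h α)
    (hm0 : 0 ≤ m) (hm1 : m ≤ m1) (hm2 : m1 ≤ 1) (hP0 : 0 ≤ P) (hP : P ≤ P1) (hb : 0 ≤ bS)
    (hr : 0 ≤ r) (hM1 : 0 ≤ 2 * cc * x - h * g) (hxg : g ≤ x)
    (hz : (qE u + α * g) ≤ qe u + α * x)
    (hI : ((1 - m) * u + m * (1 - (1 - u) * x ^ 2)) / 2 ≤ I)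
    (hX : 1 - (1 - u) * x ^ 2 ≤ u)
    (k1 : r * qA m1 u ≤ qT1 m1 P1 bS u) (k2 : r * qA m1 u ≤ qT2 m1 P1 bS u) :
    r * (h * g / 2 + cc * x - x + m / 2 * (2 * cc * x - h * g))
      + P * (((qe u + α * x) * x - (qE u + α * g) * g) / 2
        + m / 2 * max ((qE u + α * g) * g + (qe u + α * x) * x)
          (-((qE u + α * g) * x + (qe u + α * x) * g)))
      ≤ 115 / 100 * m1 + P1 * (17 / 100 + 2 / 10 * m1) + bS * I := by
  have hg0 : 0 ≤ g := (qgL0 q.u0).trans q.gl
  have hx0 : 0 ≤ x := (qxL0 q.u0).trans q.xl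
  have hm10 : 0 ≤ m1 := hm0.trans hm1
  have he := qe0 q.u0 q.u1
  have hα : 0 ≤ α := by linarith [q.al]
  have hz0 : 0 ≤ qe u + α * x := by positivity
  -- the first term
  have a1 : r * (h * g / 2 + cc * x - x + m / 2 * (2 * cc * x - h * g)) ≤ r * qA m1 u := by
    apply mul_le_mul_of_nonneg_left _ hr
    have h1 := qA_bd q hm10 hm2
    have h2 := mul_le_mul_of_nonneg_right hm1 hM1
    linarith
  -- the indicator term
  have a2 : bS / 2 * ((1 - m1) * u + m1 * (1 - (1 - u) * qxU u ^ 2)) ≤ bS * I := by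
    have h1 : (1 - u) * x ^ 2 ≤ (1 - u) * qxU u ^ 2 :=
      mul_le_mul_of_nonneg_left (pow_le_pow_left₀ hx0 q.xu 2) (by linarith [q.u1])
    have h2 := mul_le_mul_of_nonneg_left h1 hm10
    have h3 := mul_nonneg (sub_nonneg.2 hm1) (sub_nonneg.2 hX)
    have h4 : ((1 - m1) * u + m1 * (1 - (1 - u) * qxU u ^ 2)) / 2 ≤ I := by
      linarith
    have h5 := mul_le_mul_of_nonneg_left h4 hb
    linarith
  have hM2 : 0 ≤ max ((qE u + α * g) * g + (qe u + α * x) * x)
      (-((qE u + α * g) * x + (qe u + α * x) * g)) := by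
    by_contra hcon
    push Not at hcon
    have h1 := (le_max_left _ _).trans_lt hcon
    have h2 := (le_max_right _ _).trans_lt hcon
    have h3 := mul_nonneg (sub_nonneg.2 hz) (sub_nonneg.2 hxg)
    have h4 := mul_nonneg hz0 (sub_nonneg.2 hxg)
    linarith
  have hU0 : 0 ≤ (qe u + α * x) * x - (qE u + α * g) * g := by
    have h1 := mul_nonneg hz0 (sub_nonneg.2 hxg)
    have h2 := mul_nonneg (sub_nonneg.2 hz) hg0
    linarith
  have a3 : P * (((qe u + α * x) * x - (qE u + α * g) * g) / 2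
        + m / 2 * max ((qE u + α * g) * g + (qe u + α * x) * x)
          (-((qE u + α * g) * x + (qe u + α * x) * g)))
      ≤ P1 * (((qe u + α * x) * x - (qE u + α * g) * g) / 2
        + m1 / 2 * max ((qE u + α * g) * g + (qe u + α * x) * x)
          (-((qE u + α * g) * x + (qe u + α * x) * g))) := by
    have h1 := mul_le_mul_of_nonneg_right hm1 hM2
    have h2 := mul_nonneg hm0 hM2
    apply mul_le_mul hP _ _ (hP0.trans hP)
    · linarith
    · linarith
  have b1 := zx_bd q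
  have b2 := zg_bd q
  have b3 := zx2_bd q
  have hP1 : 0 ≤ P1 := hP0.trans hP
  rcases max_choice ((qE u + α * g) * g + (qe u + α * x) * x)
      (-((qE u + α * g) * x + (qe u + α * x) * g)) with hmax | hmax
  · rw [hmax] at a3 ⊢
    have c1 := mul_le_mul_of_nonneg_left b1 (by linarith : 0 ≤ (1 + m1) / 2)
    have c2 := mul_le_mul_of_nonneg_left b2 (by linarith : 0 ≤ (1 - m1) / 2)
    have c3 : P1 * (((qe u + α * x) * x - (qE u + α * g) * g) / 2
        + m1 / 2 * ((qE u + α * g) * g + (qe u + α * x) * x))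
        ≤ P1 * ((1 + m1) / 2 * (qe u * qxU u + 3232 / 10000 * qxU u ^ 2)
      + (1 - m1) / 2 * (-(qE u * qgP u) + 4 / 10000 * u)
      - (1 - m1) / 2 * (3231 / 10000) * qgL u ^ 2) := by
      apply mul_le_mul_of_nonneg_left _ hP1
      linarith
    unfold qT1 at k1
    linarith
  · rw [hmax] at a3 ⊢
    have c1 := mul_le_mul_of_nonneg_left b3 hm10
    have c3 : P1 * (((qe u + α * x) * x - (qE u + α * g) * g) / 2
        + m1 / 2 * (-((qE u + α * g) * x + (qe u + α * x) * g)))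
        ≤ P1 / 2 * ((qe u * qxU u + 3232 / 10000 * qxU u ^ 2) + (-(qE u * qgP u) + 4 / 10000 * u)
      - 3231 / 10000 * qgL u ^ 2 + m1 * (-(qE u * qxP u) + 2 / 10000 * u ^ 2)
      - m1 * (qe u * qgL u) - 2 * m1 * (3231 / 10000) * (qxL u * qgL u)) := by
      have c4 : ((qe u + α * x) * x - (qE u + α * g) * g)
          + m1 * (-((qE u + α * g) * x + (qe u + α * x) * g))
          ≤ (qe u * qxU u + 3232 / 10000 * qxU u ^ 2) + (-(qE u * qgP u) + 4 / 10000 * u)
      - 3231 / 10000 * qgL u ^ 2 + m1 * (-(qE u * qxP u) + 2 / 10000 * u ^ 2)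
      - m1 * (qe u * qgL u) - 2 * m1 * (3231 / 10000) * (qxL u * qgL u) := by
        linarith
      have c5 := mul_le_mul_of_nonneg_left c4 (by linarith : 0 ≤ P1 / 2)
      linarith
    unfold qT2 at k2
    linarith

/-- inside the disc -/
theorem XD_in (d : Dat K L φ ψ χ ω) {c : Cell} (hc : IsCell c) {m a b : ℝ} (hm0 : 0 ≤ m)
    (hm1 : m ≤ c.m1) (hp : a ^ 2 + b ^ 2 ≤ c.P1 ^ 2) {y : E} (hy : sq y ≤ 1) :
    √((bR m a b φ ψ χ ω (zt K φ) (ztd K φ ψ) y - w φ 0 y) ^ 2
      + (bI m a b φ ψ χ ω (zt K φ) (ztd K φ ψ) y - w φ 1 y) ^ 2)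
      ≤ 115 / 100 * c.m1 + c.P1 * (17 / 100 + 2 / 10 * c.m1) + c.bS * (-GI m φ y) := by
  have hs0 : 0 ≤ sq y := by
    unfold Neu.sq
    positivity
  have hcell : 0 ≤ c.m1 ∧ c.m1 ≤ 1 ∧ 0 ≤ c.P1 ∧ 0 ≤ c.bS := by
    rcases hc with h | h | h <;> rw [h] <;> simp only [cA, cB, cC] <;> norm_num
  obtain ⟨hc1, hc2, hc3, hc4⟩ := hcell
  have hk : (y 0 ^ 2 - y 1 ^ 2) ^ 2 + (2 * (y 0 * y 1)) ^ 2 = sq y ^ 2 := by
    unfold Neu.sq
    ring
  have hsI : sq y ∈ Icc (0 : ℝ) 1 := ⟨hs0, hy⟩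
  have hx1 : 1 ≤ φ (sq y) := d.prof.one_le _ hsI
  have hps : ψ (sq y) ≤ 0 := d.prof.nonpos _ hsI
  have hgn : 0 ≤ φ (sq y) + 2 * sq y * ψ (sq y) := d.prof.mono _ hsI
  have hch1 : 1 ≤ χ (sq y) := d.prof2.one_le _ hsI
  have hom : sq y * ω (sq y) ≤ 0 := om_np d.prof2 hs0 hy
  have ephi := d.enc.phi _ hsI
  have egd := d.enc.gd _ hsI
  have echi := d.enc.chi _ hsI
  have ehd := d.enc.hd _ hsI
  obtain ⟨ha1, ha2⟩ := a0_bd d
  have hu0 : 0 ≤ 1 - sq y := by linarith
  rw [abs_le] at ephi egd echi ehd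
  have hhn : 0 ≤ 2 * (χ (sq y) + sq y * ω (sq y)) := by
    have h4 : 0 ≤ (1 - sq y) * (26639 / 10000 + 16655 / 10000 * (1 - sq y)
      + 3996 / 10000 * (1 - sq y) ^ 2 + 644 / 10000 * (1 - sq y) ^ 3) := by positivity
    linarith [ehd.1]
  have q : QEnc (1 - sq y) (φ (sq y)) (φ (sq y) + 2 * sq y * ψ (sq y)) (χ (sq y))
      (2 * (χ (sq y) + sq y * ω (sq y))) (a0 K φ) := by
    refine ⟨hu0, by linarith, ?_, ?_, ?_, ?_, ?_, ?_, hhn, hch1, ha1.le, ha2.le⟩
    · unfold qxL
      linarith [ephi.1]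
    · unfold qxU
      linarith [ephi.2]
    · unfold qgL
      linarith [egd.1]
    · unfold qgU
      linarith [egd.2]
    · unfold qcU
      linarith [echi.2]
    · unfold qhU
      linarith [ehd.2]
  have hz1 : zt K φ (sq y) = qe (1 - sq y) + a0 K φ * φ (sq y) := by
    unfold zt et qe
    rw [if_pos hy]
    ring
  have hz2 : zt K φ (sq y) + 2 * sq y * ztd K φ ψ (sq y)
      = qE (1 - sq y) + a0 K φ * (φ (sq y) + 2 * sq y * ψ (sq y)) := by
    unfold zt ztd et etd qE
    rw [if_pos hy, if_pos hy]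
    ring
  have hzd : ztd K φ ψ (sq y) ≤ 0 := by
    unfold ztd etd
    rw [if_pos hy]
    have h1 : 0 ≤ 2 * (1 - sq y) ^ 2 * (1 + 2 * sq y) := by positivity
    have h2 : a0 K φ * ψ (sq y) ≤ 0 := mul_nonpos_of_nonneg_of_nonpos (by linarith) hps
    linarith
  have hzz : 0 ≤ zt K φ (sq y) := by
    rw [hz1]
    have := qe0 hu0 (by linarith : 1 - sq y ≤ 1)
    have h2 : 0 ≤ a0 K φ * φ (sq y) := mul_nonneg (by linarith) (by linarith)
    linarith
  have hxg : 0 ≤ -(2 * sq y * ψ (sq y)) := by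
    have := mul_nonneg hs0 (neg_nonneg.2 hps)
    linarith
  have hzg : 0 ≤ -(2 * sq y * ztd K φ ψ (sq y)) := by
    have := mul_nonneg hs0 (neg_nonneg.2 hzd)
    linarith
  have hprod := mul_nonneg hzg hxg
  -- the two parts
  have hR : bR m a b φ ψ χ ω (zt K φ) (ztd K φ ψ) y - w φ 0 y
      = (y 0 * ((2 * χ (sq y) * φ (sq y) + sq y * (2 * χ (sq y) * ψ (sq y) + ω (sq y) * φ (sq y))
          + 2 * ω (sq y) * ψ (sq y) * sq y * (sq y + m * (y 0 ^ 2 - y 1 ^ 2))) - φ (sq y)
          + m * (y 0 ^ 2 - y 1 ^ 2) * (2 * χ (sq y) * ψ (sq y) + ω (sq y) * φ (sq y)))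
        - y 1 * (m * (2 * (y 0 * y 1)) * (ω (sq y) * φ (sq y) - 2 * χ (sq y) * ψ (sq y))))
        - (a * (m * (zt K φ (sq y) * φ (sq y) + sq y * (zt K φ (sq y) * ψ (sq y)
            + ztd K φ ψ (sq y) * φ (sq y))) + (y 0 ^ 2 - y 1 ^ 2) * ((zt K φ (sq y) * ψ (sq y)
            + ztd K φ ψ (sq y) * φ (sq y)) + 2 * ztd K φ ψ (sq y) * ψ (sq y)
              * (sq y + m * (y 0 ^ 2 - y 1 ^ 2))))
          - b * (-(2 * (y 0 * y 1) * ((zt K φ (sq y) * ψ (sq y)
            + ztd K φ ψ (sq y) * φ (sq y)) + 2 * ztd K φ ψ (sq y) * ψ (sq y)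
              * (sq y + m * (y 0 ^ 2 - y 1 ^ 2)))))) := by
    simp only [bR, w, b1, b2, b3, Nd, c3]
    generalize φ (sq y) = x
    generalize ψ (sq y) = p
    generalize χ (sq y) = cc
    generalize ω (sq y) = o
    generalize zt K φ (sq y) = z
    generalize ztd K φ ψ (sq y) = z'
    simp only [Neu.sq]
    ring
  have hI' : bI m a b φ ψ χ ω (zt K φ) (ztd K φ ψ) y - w φ 1 y
      = (y 0 * (m * (2 * (y 0 * y 1)) * (ω (sq y) * φ (sq y) - 2 * χ (sq y) * ψ (sq y)))
        + y 1 * ((2 * χ (sq y) * φ (sq y) + sq y * (2 * χ (sq y) * ψ (sq y) + ω (sq y) * φ (sq y))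
          + 2 * ω (sq y) * ψ (sq y) * sq y * (sq y + m * (y 0 ^ 2 - y 1 ^ 2))) - φ (sq y)
          + m * (y 0 ^ 2 - y 1 ^ 2) * (2 * χ (sq y) * ψ (sq y) + ω (sq y) * φ (sq y))))
        - (a * (-(2 * (y 0 * y 1) * ((zt K φ (sq y) * ψ (sq y)
            + ztd K φ ψ (sq y) * φ (sq y)) + 2 * ztd K φ ψ (sq y) * ψ (sq y)
              * (sq y + m * (y 0 ^ 2 - y 1 ^ 2)))))
          + b * (m * (zt K φ (sq y) * φ (sq y) + sq y * (zt K φ (sq y) * ψ (sq y)
            + ztd K φ ψ (sq y) * φ (sq y))) + (y 0 ^ 2 - y 1 ^ 2) * ((zt K φ (sq y) * ψ (sq y)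
            + ztd K φ ψ (sq y) * φ (sq y)) + 2 * ztd K φ ψ (sq y) * ψ (sq y)
              * (sq y + m * (y 0 ^ 2 - y 1 ^ 2))))) := by
    simp only [bI, w, b1, b2, b3, Nd, s3]
    generalize φ (sq y) = x
    generalize ψ (sq y) = p
    generalize χ (sq y) = cc
    generalize ω (sq y) = o
    generalize zt K φ (sq y) = z
    generalize ztd K φ ψ (sq y) = z'
    simp only [Neu.sq]
    ring
  rw [hR, hI']
  refine (mod_mul _ _ _ _ _ _ _ _).trans ?_
  have hsq : y 0 ^ 2 + y 1 ^ 2 = sq y := rfl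
  rw [hsq]
  have hr0 : 0 ≤ √(sq y) := Real.sqrt_nonneg _
  have hr1 : √(sq y) ≤ 1 := Real.sqrt_le_one.2 hy
  have hr2 : √(sq y) ^ 2 = sq y := Real.sq_sqrt hs0
  have hPP : √(a ^ 2 + b ^ 2) ≤ c.P1 := by
    rw [← Real.sqrt_sq hc3]
    exact Real.sqrt_le_sqrt hp
  -- the `w`-part
  have hG := fun h0 : 0 < sq y => G_bd (m := m) (κ := y 0 ^ 2 - y 1 ^ 2)
    (σ := 2 * (y 0 * y 1)) hm0 hs0 h0 hk (zero_le_one.trans hx1) hch1 hps hom hgn hhn
  have hG2 := mul_nonneg hr0 (le_refl (0 : ℝ))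
  have hH := H_bd (s := sq y) (κ := y 0 ^ 2 - y 1 ^ 2) (σ := 2 * (y 0 * y 1)) (m := m)
    (x := φ (sq y)) (p := ψ (sq y)) (z := zt K φ (sq y)) (z' := ztd K φ ψ (sq y))
    (M := max ((zt K φ (sq y) + 2 * sq y * ztd K φ ψ (sq y)) * (φ (sq y) + 2 * sq y * ψ (sq y))
      + zt K φ (sq y) * φ (sq y)) (-((zt K φ (sq y) + 2 * sq y * ztd K φ ψ (sq y)) * φ (sq y)
      + zt K φ (sq y) * (φ (sq y) + 2 * sq y * ψ (sq y))))) hm0 hs0 hk
    (by
      rw [abs_le]
      constructor
      · have h1 := le_max_right ((zt K φ (sq y) + 2 * sq y * ztd K φ ψ (sq y)) * (φ (sq y)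
          + 2 * sq y * ψ (sq y)) + zt K φ (sq y) * φ (sq y)) (-((zt K φ (sq y)
          + 2 * sq y * ztd K φ ψ (sq y)) * φ (sq y)
          + zt K φ (sq y) * (φ (sq y) + 2 * sq y * ψ (sq y))))
        linarith
      · exact le_max_left _ _)
    (by
      rw [abs_le]
      constructor
      · have h1 := le_max_right ((zt K φ (sq y) + 2 * sq y * ztd K φ ψ (sq y)) * (φ (sq y)
          + 2 * sq y * ψ (sq y)) + zt K φ (sq y) * φ (sq y)) (-((zt K φ (sq y)
          + 2 * sq y * ztd K φ ψ (sq y)) * φ (sq y)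
          + zt K φ (sq y) * (φ (sq y) + 2 * sq y * ψ (sq y))))
        linarith
      · refine le_trans ?_ (le_max_left _ _)
        linarith)
    (by
      have h1 := mul_nonneg hzz hxg
      have h2 := mul_nonneg hzg hgn
      linarith)
  have hcell1 : √(sq y) * qA c.m1 (1 - sq y) ≤ qT1 c.m1 c.P1 c.bS (1 - sq y) := by
    conv_lhs => rw [← hr2]
    conv_rhs => rw [← hr2]
    rw [Real.sqrt_sq hr0]
    rcases hc with h | h | h
    · rw [h]
      exact uqA1 hr0 hr1
    · rw [h]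
      exact uqB1 hr0 hr1
    · rw [h]
      exact uqC1 hr0 hr1
  have hcell2 : √(sq y) * qA c.m1 (1 - sq y) ≤ qT2 c.m1 c.P1 c.bS (1 - sq y) := by
    conv_lhs => rw [← hr2]
    conv_rhs => rw [← hr2]
    rw [Real.sqrt_sq hr0]
    rcases hc with h | h | h
    · rw [h]
      exact uqA2 hr0 hr1
    · rw [h]
      exact uqB2 hr0 hr1
    · rw [h]
      exact uqC2 hr0 hr1
  have hGI := (GI_in d.prof hm0 (hm1.trans hc2) hy).2.2
  have hg2 := (g2_bd d.prof hsI).1
  have hfin := fin_alg (r := √(sq y)) (P := √(a ^ 2 + b ^ 2)) (I := -GI m φ y) q hm0 hm1 hc2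
    (Real.sqrt_nonneg _) hPP hc4 hr0
    (by
      have h1 := mul_nonneg (by linarith : 0 ≤ 2 * χ (sq y) + 2 * (χ (sq y) + sq y * ω (sq y))) hxg
      have h2 := mul_nonneg (by linarith : 0 ≤ -(2 * (sq y * ω (sq y))))
        (by linarith : 0 ≤ 2 * φ (sq y) + 2 * sq y * ψ (sq y))
      linarith)
    (by linarith) (by rw [← hz1, ← hz2]; linarith)
    (by
      have h1 : 1 - (1 - sq y) = sq y := by ring
      rw [h1]
      exact hGI)
    (by
      have h1 : 1 - (1 - sq y) = sq y := by ring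
      rw [h1]
      linarith) hcell1 hcell2
  rw [← hz2, ← hz1] at hfin
  refine le_trans ?_ hfin
  refine add_le_add ?_ (mul_le_mul_of_nonneg_left hH (Real.sqrt_nonneg _))
  rcases hs0.eq_or_lt with h0 | h0
  · rw [← h0, Real.sqrt_zero, zero_mul, zero_mul]
  · exact mul_le_mul_of_nonneg_left (hG h0) hr0

end Pool.Agent.FND
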