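import Pool.Agent.FND.Defs
import Pool.Agent.FND.Base
import Pool.Agent.FND.Cst

/-!
FND-XDo: the pairing of `A` with `w`, outside the disc.
-/

set_option autoImplicit false

open MeasureTheory Set
open Pool.Agent.Neu
open Pool.Agent.CS4 (Prof2 bb vv eV)

namespace Pool.Agent.FND

variable {K L : ℝ} {φ ψ χ ω : ℝ → ℝ}

private theorem tri {X1 Y1 X2 Y2 A B : ℝ} (hA : 0 ≤ A) (hB : 0 ≤ B) (h1 : X1 ^ 2 + Y1 ^ 2 ≤ A ^ 2)
    (h2 : X2 ^ 2 + Y2 ^ 2 ≤ B ^ 2) : √((X1 + X2) ^ 2 + (Y1 + Y2) ^ 2) ≤ A + B := by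
  have h3 : (X1 * X2 + Y1 * Y2) ^ 2 ≤ (A * B) ^ 2 := by
    have h4 := mul_le_mul h1 h2 (by positivity) (by positivity)
    nlinarith [sq_nonneg (X1 * Y2 - X2 * Y1)]
  have h5 : X1 * X2 + Y1 * Y2 ≤ A * B :=
    le_trans (le_abs_self _) (abs_le_of_sq_le_sq h3 (mul_nonneg hA hB))
  rw [Real.sqrt_le_left (by positivity)]
  nlinarith

/-- outside the disc -/
theorem XD_out (d : Dat K L φ ψ χ ω) {m : ℝ} (hm0 : 0 ≤ m) (hm1 : m < 1) (a b : ℝ) {y : E}
    (hy : 1 ≤ sq y) :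
    √((bR m a b φ ψ χ ω (zt K φ) (ztd K φ ψ) y - w φ 0 y) ^ 2
      + (bI m a b φ ψ χ ω (zt K φ) (ztd K φ ψ) y - w φ 1 y) ^ 2)
      ≤ m + √(a ^ 2 + b ^ 2) * a0 K φ * ((1 + m) / 2) + 2 / (1 - m) * GI m φ y := by
  have ha := a0_bd d
  have hs0 : 0 < sq y := by linarith
  have hr0 : 0 < √(sq y) := Real.sqrt_pos.mpr hs0
  have hrs : √(sq y) ^ 2 = sq y := Real.sq_sqrt hs0.le
  have e1 := d.prof.out _ hy
  have e2 := d.prof.outd _ hy
  have e3 := d.prof2.out _ hy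
  have e4 := d.prof2.outd _ hy
  have e5 : et (sq y) = 0 := by
    unfold et
    split_ifs with h
    · have : sq y = 1 := le_antisymm h hy
      rw [this]; norm_num
    · rfl
  have e6 : etd (sq y) = 0 := by
    unfold etd
    split_ifs with h
    · have : sq y = 1 := le_antisymm h hy
      rw [this]; norm_num
    · rfl
  have e7 : zt K φ (sq y) = a0 K φ * φ (sq y) := by unfold zt; rw [e5, zero_add]
  have e8 : ztd K φ ψ (sq y) = a0 K φ * ψ (sq y) := by unfold ztd; rw [e6, zero_add]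
  have hG := GI_out d.prof (m := m) hy
  have hN := Nd_bd hm0 hm1.le y
  have hsq : y 0 ^ 2 + y 1 ^ 2 = sq y := rfl
  have hNd : Nd m y = ((1 - m) * y 0 ^ 2 + (1 + m) * y 1 ^ 2) / 2 := rfl
  set s := sq y with hs
  set r := √s with hr
  set N := Nd m y with hNN
  set α := a0 K φ with hα
  have f1 : b1 m φ ψ χ ω y = 2 * (s - N) / (s ^ 2 * r) := by
    unfold b1
    rw [← hs, e1, e2, e3, e4]
    rw [← hNN]
    field_simp
    ring
  have f2 : b2 φ ψ (zt K φ) (ztd K φ ψ) y = 0 := by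
    unfold b2
    rw [← hs, e7, e8, e1, e2]
    field_simp
    ring
  have f3 : b3 m φ ψ (zt K φ) (ztd K φ ψ) y = -(α * N / s ^ 3) := by
    unfold b3
    rw [← hs, e7, e8, e1, e2, ← hNN, ← hrs]
    field_simp
    ring
  have g1 : bR m a b φ ψ χ ω (zt K φ) (ztd K φ ψ) y - w φ 0 y =
      y 0 / r * (2 * N / s ^ 2 - 1) +
        α * N / s ^ 3 * (a * (y 0 ^ 2 - y 1 ^ 2) + b * (2 * (y 0 * y 1))) := by
    have k1 : y 0 * (2 * (s - N)) - m * s * y 0 - m * c3 y = y 0 * (2 * N) := by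
      unfold c3
      rw [← hsq, hNd]
      ring
    unfold bR w
    rw [f1, f2, f3, ← hs, e1, e2, e3, e4]
    have k2 : y 0 * (2 * (s - N) / (s ^ 2 * r)) + 2 * m * (1 / s) * (-1 / (2 * s * r)) * s * y 0
        + m * (-1 / s ^ 2) * (1 / r) * c3 y = y 0 * (2 * N) / (s ^ 2 * r) := by
      rw [← k1]
      field_simp
      ring
    rw [k2]
    field_simp
    ring
  have g2 : bI m a b φ ψ χ ω (zt K φ) (ztd K φ ψ) y - w φ 1 y =
      y 1 / r * (2 * N / s ^ 2 - 1) +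
        α * N / s ^ 3 * (b * (y 0 ^ 2 - y 1 ^ 2) - a * (2 * (y 0 * y 1))) := by
    have k1 : y 1 * (2 * (s - N)) + m * s * y 1 - m * s3 y = y 1 * (2 * N) := by
      unfold s3
      rw [← hsq, hNd]
      ring
    unfold bI w
    rw [f1, f2, f3, ← hs, e1, e2, e3, e4]
    have k2 : y 1 * (2 * (s - N) / (s ^ 2 * r)) - 2 * m * (1 / s) * (-1 / (2 * s * r)) * s * y 1
        + m * (-1 / s ^ 2) * (1 / r) * s3 y = y 1 * (2 * N) / (s ^ 2 * r) := by
      rw [← k1]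
      field_simp
      ring
    rw [k2]
    field_simp
    ring
  rw [g1, g2]
  have hN0 : 0 ≤ N := le_trans (mul_nonneg (by linarith) hs0.le) hN.1
  have hNs : N / s ≤ (1 + m) / 2 := by
    rw [div_le_iff₀ hs0]; exact hN.2
  have hNs' : (1 - m) / 2 ≤ N / s := by
    rw [le_div_iff₀ hs0]; exact hN.1
  have hsi : 1 / s ≤ 1 := by rw [div_le_one hs0]; exact hy
  have hsi0 : 0 < 1 / s := by positivity
  have hP0 : 0 ≤ √(a ^ 2 + b ^ 2) := Real.sqrt_nonneg _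
  have hα0 : 0 < α := by linarith [ha.1]
  have hP2 : √(a ^ 2 + b ^ 2) ^ 2 = a ^ 2 + b ^ 2 := Real.sq_sqrt (by positivity)
  have hq : |2 * N / s ^ 2 - 1| ≤ m + (1 - 1 / s) := by
    have q1 : 2 * N / s ^ 2 - 1 = (2 * (N / s) - 1) * (1 / s) - (1 - 1 / s) := by
      field_simp
      ring
    rw [q1]
    have q2 : |(2 * (N / s) - 1) * (1 / s)| ≤ m := by
      rw [abs_mul, abs_of_pos hsi0]
      have q3 : |2 * (N / s) - 1| ≤ m := by
        rw [abs_le]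
        constructor
        · linarith
        · linarith
      calc |2 * (N / s) - 1| * (1 / s) ≤ m * 1 := mul_le_mul q3 hsi hsi0.le hm0
        _ = m := mul_one m
    have q4 : |1 - 1 / s| = 1 - 1 / s := abs_of_nonneg (by linarith)
    calc |(2 * (N / s) - 1) * (1 / s) - (1 - 1 / s)|
        ≤ |(2 * (N / s) - 1) * (1 / s)| + |1 - 1 / s| := abs_sub _ _
      _ ≤ m + (1 - 1 / s) := by rw [q4]; linarith
  have t1 : (y 0 / r * (2 * N / s ^ 2 - 1)) ^ 2 + (y 1 / r * (2 * N / s ^ 2 - 1)) ^ 2 ≤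
      (m + (1 - 1 / s)) ^ 2 := by
    have e : (y 0 / r * (2 * N / s ^ 2 - 1)) ^ 2 + (y 1 / r * (2 * N / s ^ 2 - 1)) ^ 2 =
        (2 * N / s ^ 2 - 1) ^ 2 := by
      have e' : (y 0 / r) ^ 2 + (y 1 / r) ^ 2 = 1 := by
        rw [div_pow, div_pow, ← add_div, hsq, hrs, div_self hs0.ne']
      calc (y 0 / r * (2 * N / s ^ 2 - 1)) ^ 2 + (y 1 / r * (2 * N / s ^ 2 - 1)) ^ 2
          = ((y 0 / r) ^ 2 + (y 1 / r) ^ 2) * (2 * N / s ^ 2 - 1) ^ 2 := by ring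
        _ = _ := by rw [e', one_mul]
    rw [e]
    exact sq_le_sq' (by linarith [abs_le.mp hq]) (abs_le.mp hq).2
  have t2 : (α * N / s ^ 3 * (a * (y 0 ^ 2 - y 1 ^ 2) + b * (2 * (y 0 * y 1)))) ^ 2 +
      (α * N / s ^ 3 * (b * (y 0 ^ 2 - y 1 ^ 2) - a * (2 * (y 0 * y 1)))) ^ 2 ≤
      (√(a ^ 2 + b ^ 2) * α * ((1 + m) / 2)) ^ 2 := by
    have e : (α * N / s ^ 3 * (a * (y 0 ^ 2 - y 1 ^ 2) + b * (2 * (y 0 * y 1)))) ^ 2 +
        (α * N / s ^ 3 * (b * (y 0 ^ 2 - y 1 ^ 2) - a * (2 * (y 0 * y 1)))) ^ 2 =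
        (√(a ^ 2 + b ^ 2) * α * (N / s * (1 / s))) ^ 2 := by
      have e' : (√(a ^ 2 + b ^ 2) * α * (N / s * (1 / s))) ^ 2 =
          (a ^ 2 + b ^ 2) * (α * N / s ^ 3) ^ 2 * s ^ 2 := by
        rw [mul_pow, mul_pow, hP2]
        field_simp
      rw [e', ← hsq]
      ring
    rw [e]
    refine pow_le_pow_left₀ (by positivity) ?_ 2
    refine mul_le_mul_of_nonneg_left ?_ (by positivity)
    calc N / s * (1 / s) ≤ (1 + m) / 2 * 1 := mul_le_mul hNs hsi hsi0.le (by linarith)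
      _ = (1 + m) / 2 := mul_one _
  have t3 := tri (A := m + (1 - 1 / s)) (B := √(a ^ 2 + b ^ 2) * α * ((1 + m) / 2)) (by linarith)
    (by positivity) t1 t2
  refine le_trans t3 ?_
  have t4 : 1 - 1 / s ≤ s - 1 := by
    have : s - 1 - (1 - 1 / s) = (s - 1) ^ 2 / s := by field_simp
    have h : 0 ≤ (s - 1) ^ 2 / s := by positivity
    linarith
  have t5 : s - 1 ≤ 2 / (1 - m) * GI m φ y := by
    rw [hG]
    have h1m : 0 < 1 - m := by linarith
    have t6 : s - 1 = 2 / (1 - m) * ((1 - m) / 2 * (s - 1)) := by field_simp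
    calc s - 1 = 2 / (1 - m) * ((1 - m) / 2 * (s - 1)) := t6
      _ ≤ 2 / (1 - m) * (N / s * (s - 1)) := by
        refine mul_le_mul_of_nonneg_left ?_ (by positivity)
        exact mul_le_mul_of_nonneg_right hNs' (by linarith)
  linarith

end Pool.Agent.FND
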