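import Pool.Agent.FND.Defs
import Pool.Agent.FND.XDo
import Pool.Agent.FND.XDi
import Pool.Agent.FND.Wid
import Pool.Agent.FND.DIb
import Pool.Agent.FND.Vol

/-!
FND-XD: the pairing of `A` with `w`: split `W` into the disc, the outer and the inner part and use the pointwise bounds.
-/

set_option autoImplicit false

open MeasureTheory Set
open Pool.Agent.Neu
open Pool.Agent.CS4 (Prof2 bb vv eV)

namespace Pool.Agent.FND

variable {K L : ℝ} {φ ψ χ ω : ℝ → ℝ}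

private theorem xd_cs (d0 d1 X Y : ℝ) :
    |d0 * X + d1 * Y| ≤ √(d0 ^ 2 + d1 ^ 2) * √(X ^ 2 + Y ^ 2) := by
  rw [← Real.sqrt_mul (by positivity)]
  apply Real.abs_le_sqrt
  nlinarith [_root_.sq_nonneg (d0 * Y - d1 * X)]

private theorem xd_num {m1 P1 I1 bS X V m P K a p v O S : ℝ} (hm0 : 0 ≤ m) (hm : m ≤ m1)
    (hm1 : m1 < 1) (hP0 : 0 ≤ P) (hP : P ≤ P1) (hK0 : 0 ≤ K) (hK : K ≤ 339 / 100) (ha0 : 0 ≤ a)
    (ha : a ≤ 3232 / 10000) (hp0 : 0 ≤ p) (hp : p ≤ 3141593 / 1000000) (hv0 : 0 ≤ v) (hO : 0 ≤ O)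
    (hS : 0 ≤ S) (hI : O + S ≤ I1) (hv : (1 - m) / 2 * v ^ 2 ≤ p * (O + S)) (hV0 : 0 ≤ V)
    (hV : 3141593 / 1000000 * I1 * 2 ≤ V ^ 2 * (1 - m1)) (hb : 2 ≤ bS * (1 - m1))
    (hX : m1 / 4 * (339 / 100 + 2 * (3141593 / 1000000) * (3232 / 10000)) * P1
      + (m1 + P1 * (3232 / 10000) * ((1 + m1) / 2)
        + (115 / 100 * m1 + P1 * (17 / 100 + 2 / 10 * m1))) * V + bS * I1 ≤ X) :
    m / 4 * (K + 2 * p * a) * P + ((m + P * a * ((1 + m) / 2)) * v + 2 / (1 - m) * O)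
      + ((115 / 100 * m1 + P1 * (17 / 100 + 2 / 10 * m1)) * v + bS * S) ≤ X := by
  have h1m : 0 < 1 - m1 := by linarith
  have h1m' : 0 < 1 - m := by linarith
  have hm10 : 0 ≤ m1 := hm0.trans hm
  have hP10 : 0 ≤ P1 := hP0.trans hP
  have hOS : 0 ≤ O + S := add_nonneg hO hS
  have hbS : 0 ≤ bS := by
    by_contra h
    have : bS * (1 - m1) ≤ 0 := mul_nonpos_of_nonpos_of_nonneg (not_le.1 h).le h1m.le
    linarith
  have hvV : v ≤ V := by
    have e1 : v ^ 2 * (1 - m1) ≤ v ^ 2 * (1 - m) :=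
      mul_le_mul_of_nonneg_left (by linarith) (by positivity)
    have e2 : p * (O + S) ≤ 3141593 / 1000000 * I1 := mul_le_mul hp hI hOS (by norm_num)
    have e3 : v ^ 2 * (1 - m1) ≤ V ^ 2 * (1 - m1) := by linarith
    have e4 : v ^ 2 ≤ V ^ 2 := le_of_mul_le_mul_right e3 h1m
    exact (pow_le_pow_iff_left₀ hv0 hV0 two_ne_zero).1 e4
  have f1 : m / 4 * (K + 2 * p * a) * P ≤
      m1 / 4 * (339 / 100 + 2 * (3141593 / 1000000) * (3232 / 10000)) * P1 := by
    gcongr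
  have f2 : (m + P * a * ((1 + m) / 2)) * v ≤ (m1 + P1 * (3232 / 10000) * ((1 + m1) / 2)) * V := by
    gcongr
  have f3 : (115 / 100 * m1 + P1 * (17 / 100 + 2 / 10 * m1)) * v ≤
      (115 / 100 * m1 + P1 * (17 / 100 + 2 / 10 * m1)) * V :=
    mul_le_mul_of_nonneg_left hvV (by positivity)
  have f4 : 2 / (1 - m) * O ≤ bS * O := by
    apply mul_le_mul_of_nonneg_right _ hO
    rw [div_le_iff₀ h1m']
    have : bS * (1 - m1) ≤ bS * (1 - m) := mul_le_mul_of_nonneg_left (by linarith) hbS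
    linarith
  have f5 : bS * (O + S) ≤ bS * I1 := mul_le_mul_of_nonneg_left hI hbS
  rw [mul_add] at f5
  rw [add_mul (m1 + P1 * (3232 / 10000) * ((1 + m1) / 2))] at hX
  linarith

private theorem xd_cell {c : Cell} (hc : IsCell c) : 0 ≤ c.P1 ∧ c.m1 < 1 ∧ ∃ V : ℝ, 0 ≤ V ∧
    3141593 / 1000000 * c.I1 * 2 ≤ V ^ 2 * (1 - c.m1) ∧ 2 ≤ c.bS * (1 - c.m1) ∧
    c.m1 / 4 * (339 / 100 + 2 * (3141593 / 1000000) * (3232 / 10000)) * c.P1
      + (c.m1 + c.P1 * (3232 / 10000) * ((1 + c.m1) / 2)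
        + (115 / 100 * c.m1 + c.P1 * (17 / 100 + 2 / 10 * c.m1))) * V + c.bS * c.I1 ≤ c.XD := by
  rcases hc with rfl | rfl | rfl
  · refine ⟨?_, ?_, 12281 / 10000, by norm_num, ?_, ?_, ?_⟩ <;> simp only [cA] <;> norm_num
  · refine ⟨?_, ?_, 12467 / 10000, by norm_num, ?_, ?_, ?_⟩ <;> simp only [cB] <;> norm_num
  · refine ⟨?_, ?_, 11929 / 10000, by norm_num, ?_, ?_, ?_⟩ <;> simp only [cC] <;> norm_num

private theorem xd_int {F G : E → ℝ} (hF : Continuous F) (hG : Continuous G) {V : Set E}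
    (hV : MeasurableSet V) (hb : Bornology.IsBounded V) (h : ∀ y ∈ V, |F y| ≤ G y) :
    |∫ y in V, F y| ≤ ∫ y in V, G y := by
  refine (abs_integral_le_integral_abs).trans ?_
  exact setIntegral_mono_on (M1x.intOn hF.abs hb) (M1x.intOn hG hb) hV h

private theorem xd_lin {G : E → ℝ} (hG : Continuous G) {V : Set E} (hb : Bornology.IsBounded V)
    (R α β : ℝ) :
    ∫ y in V, R * (α + β * G y) = R * (α * volume.real V + β * ∫ y in V, G y) := by
  have i1 : IntegrableOn (fun _ : E => α) V := M1x.intOn continuous_const hb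
  have i2 : IntegrableOn (fun y : E => β * G y) V := M1x.intOn (hG.const_mul β) hb
  rw [integral_const_mul, integral_add i1 i2, integral_const_mul, setIntegral_const, smul_eq_mul,
    mul_comm (volume.real V) α]

theorem XD {W : Set E} {a b : ℝ} (d : Dat K L φ ψ χ ω) (hW : WS φ χ W a b) {c : Cell}
    (hc : IsCell c) {m : ℝ} (hm0 : 0 ≤ m) (hm1 : m ≤ c.m1) (hp : a ^ 2 + b ^ 2 ≤ c.P1 ^ 2)
    (hI : II m φ W ≤ c.I1) (d0 d1 : ℝ) :
    |d0 * (∫ y in W, bR m a b φ ψ χ ω (zt K φ) (ztd K φ ψ) y)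
      + d1 * ∫ y in W, bI m a b φ ψ χ ω (zt K φ) (ztd K φ ψ) y| ≤ c.XD * √(d0 ^ 2 + d1 ^ 2) := by
  obtain ⟨hP10, hc1, V, hV0, hV, hb, hX⟩ := xd_cell hc
  have h := d.prof
  have h2 := d.prof2
  obtain ⟨ha1, ha2⟩ := a0_bd d
  have hmm : m < 1 := lt_of_le_of_lt hm1 hc1
  set BR := bR m a b φ ψ χ ω (zt K φ) (ztd K φ ψ) with hBR
  set BI := bI m a b φ ψ χ ω (zt K φ) (ztd K φ ψ) with hBI
  have cR : Continuous BR := cont_bR h h2 m a b
  have cI : Continuous BI := cont_bI h h2 m a b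
  have cw0 : Continuous (w φ 0) := M1x.cont_w h 0
  have cw1 : Continuous (w φ 1) := M1x.cont_w h 1
  have cG : Continuous (GI m φ) := cont_GI h m
  set R := √(d0 ^ 2 + d1 ^ 2) with hR
  set P := √(a ^ 2 + b ^ 2) with hP
  have hR0 : 0 ≤ R := Real.sqrt_nonneg _
  have hP0 : 0 ≤ P := Real.sqrt_nonneg _
  have hPP : P ≤ c.P1 := by
    rw [hP, Real.sqrt_le_left hP10]
    exact hp
  set F : E → ℝ := fun y => d0 * (BR y - w φ 0 y) + d1 * (BI y - w φ 1 y) with hF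
  have cF : Continuous F := by
    rw [hF]
    exact ((cR.sub cw0).const_mul d0).add ((cI.sub cw1).const_mul d1)
  have intF : ∀ V : Set E, Bornology.IsBounded V → ∫ y in V, F y =
      d0 * ((∫ y in V, BR y) - ∫ y in V, w φ 0 y) + d1 * ((∫ y in V, BI y) - ∫ y in V, w φ 1 y) := by
    intro V hVb
    have i1 := M1x.intOn cR hVb
    have i2 := M1x.intOn cI hVb
    have i3 := M1x.intOn cw0 hVb
    have i4 := M1x.intOn cw1 hVb
    rw [← integral_sub i1 i3, ← integral_sub i2 i4, ← integral_const_mul, ← integral_const_mul]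
    exact integral_add ((i1.sub i3).const_mul d0) ((i2.sub i4).const_mul d1)
  have eW : ∫ y in W, F y = d0 * (∫ y in W, BR y) + d1 * ∫ y in W, BI y := by
    rw [intF W hW.bdd, hW.w0 0, hW.w0 1, sub_zero, sub_zero]
  have hodd : ∀ i : Fin 2, ∫ y in D, w φ i y = 0 := by
    intro i
    apply int_odd_disc
    intro y
    simp only [w, Pool.Agent.Neu.sq, PiLp.neg_apply]
    ring_nf
  have eD : ∫ y in D, F y = -(m / 4 * (K + 2 * Real.pi * a0 K φ)) * (d0 * a + d1 * b) := by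
    rw [intF D M1x.bdD, hodd 0, hodd 1, hBR, hBI, int_bR_disc h h2 m a b, int_bI_disc h h2 m a b]
    ring
  have eS := split_int hW.meas hW.bdd cF
  have hbO : Bornology.IsBounded (W \ D : Set E) := hW.bdd.subset sdiff_subset
  have hbS : Bornology.IsBounded (D \ W : Set E) := M1x.bdD.subset sdiff_subset
  have hO : |∫ y in W \ D, F y| ≤ R * ((m + P * a0 K φ * ((1 + m) / 2)) * volume.real (W \ D)
      + 2 / (1 - m) * ∫ y in W \ D, GI m φ y) := by
    rw [← xd_lin cG hbO]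
    refine xd_int cF (by fun_prop) (hW.meas.diff M1x.measD) hbO (fun y hy => ?_)
    have h3 : 1 ≤ sq y := by
      by_contra h4
      exact hy.2 (M1x.mem_D.2 (not_le.1 h4))
    refine (xd_cs d0 d1 _ _).trans ?_
    exact mul_le_mul_of_nonneg_left (XD_out d hm0 hmm a b h3) hR0
  have hS : |∫ y in D \ W, F y| ≤ R * ((115 / 100 * c.m1 + c.P1 * (17 / 100 + 2 / 10 * c.m1)) *
      volume.real (D \ W) + c.bS * ∫ y in D \ W, -GI m φ y) := by
    rw [← xd_lin (G := fun y => -GI m φ y) cG.neg hbS]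
    refine xd_int cF (by fun_prop) (M1x.measD.diff hW.meas) hbS (fun y hy => ?_)
    have h3 : sq y ≤ 1 := (M1x.mem_D.1 hy.1).le
    refine (xd_cs d0 d1 _ _).trans ?_
    exact mul_le_mul_of_nonneg_left (XD_in d hc hm0 hm1 hp h3) hR0
  have hDD : |∫ y in D, F y| ≤ R * (m / 4 * (K + 2 * Real.pi * a0 K φ) * P) := by
    rw [eD, abs_mul, abs_neg]
    have hK0 : 0 < K := by linarith [d.enc.K_lo]
    have ha0 : 0 < a0 K φ := by linarith
    have hk : 0 ≤ m / 4 * (K + 2 * Real.pi * a0 K φ) := by positivity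
    rw [abs_of_nonneg hk]
    calc m / 4 * (K + 2 * Real.pi * a0 K φ) * |d0 * a + d1 * b|
        ≤ m / 4 * (K + 2 * Real.pi * a0 K φ) * (R * P) :=
          mul_le_mul_of_nonneg_left (xd_cs d0 d1 a b) hk
      _ = _ := by ring
  have hvol := vol_OS hW
  have hIIe := II_eq h hW m
  obtain ⟨hO0, hS0⟩ := II_S h hW hm0 hmm.le
  have hvl := vol_le h hW hm0 hmm
  have hp2 := Real.pi_lt_d6
  norm_num at hp2
  rw [integral_neg] at hS
  set v := volume.real (D \ W) with hv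
  set IO := ∫ y in W \ D, GI m φ y with hIO
  set IS := ∫ y in D \ W, GI m φ y with hIS
  have hnum := xd_num (X := c.XD) (V := V) (K := K) (a := a0 K φ) (p := Real.pi) (v := v) (O := IO)
    (S := -IS) (bS := c.bS) (I1 := c.I1) hm0 hm1 hc1 hP0 hPP (by linarith [d.enc.K_lo]) d.enc.K_hi.le
    (by linarith) ha2.le Real.pi_pos.le hp2.le measureReal_nonneg hO0 hS0 (by linarith)
    (by rw [hIIe] at hvl; linarith) hV0 hV hb hX
  rw [← eW, eS]
  rw [hvol] at hO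
  calc |(∫ y in D, F y) + (∫ y in W \ D, F y) - ∫ y in D \ W, F y|
      ≤ |∫ y in D, F y| + |∫ y in W \ D, F y| + |∫ y in D \ W, F y| := by
        refine (abs_sub _ _).trans ?_
        gcongr
        exact abs_add_le _ _
    _ ≤ R * (m / 4 * (K + 2 * Real.pi * a0 K φ) * P)
        + R * ((m + P * a0 K φ * ((1 + m) / 2)) * v + 2 / (1 - m) * IO)
        + R * ((115 / 100 * c.m1 + c.P1 * (17 / 100 + 2 / 10 * c.m1)) * v + c.bS * -IS) :=
        add_le_add (add_le_add hDD hO) hS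
    _ = R * (m / 4 * (K + 2 * Real.pi * a0 K φ) * P + ((m + P * a0 K φ * ((1 + m) / 2)) * v
        + 2 / (1 - m) * IO) + ((115 / 100 * c.m1 + c.P1 * (17 / 100 + 2 / 10 * c.m1)) * v
        + c.bS * -IS)) := by ring
    _ ≤ R * c.XD := mul_le_mul_of_nonneg_left hnum hR0
    _ = c.XD * R := mul_comm _ _

end Pool.Agent.FND
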