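import Pool.Agent.FND.Defs
import Pool.Agent.FND.Dens
import Pool.Agent.FND.Cross
import Pool.Agent.FND.Proj
import Pool.Agent.FND.CsB
import Pool.Agent.FND.BathO
import Pool.Agent.FND.BathI
import Pool.Agent.FND.EwB
import Pool.Agent.FND.EAB
import Pool.Agent.FND.XD
import Pool.Agent.FND.Sup
import Pool.Agent.FND.Mass
import Pool.Agent.FND.OPt
import Pool.Agent.FND.SPt
import Pool.Agent.Neu.Main1

/-!
FND-Core: the third trial function.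

helper14 does this file.
-/

set_option autoImplicit false

open MeasureTheory Set
open Pool.Agent.Neu
open Pool.Agent.CS4 (Prof2 bb vv eV)

namespace Pool.Agent.FND

variable {K L : ℝ} {φ ψ χ ω : ℝ → ℝ}

private lemma pick {a0 a1 e0 e1 X : ℝ} (h0 : 0 ≤ a0) (h1 : 0 ≤ a1) (g0 : 0 ≤ e0) (g1 : 0 ≤ e1)
    (hs : 0 < a0 + a1) (h : e0 + e1 ≤ X * (a0 + a1)) :
    (0 < a0 ∧ e0 ≤ X * a0) ∨ (0 < a1 ∧ e1 ≤ X * a1) := by
  rcases h0.eq_or_lt with z | p0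
  · right
    rw [← z] at hs h
    exact ⟨by linarith, by linarith⟩
  rcases h1.eq_or_lt with z | p1
  · left
    rw [← z] at hs h
    exact ⟨by linarith, by linarith⟩
  by_cases k : e0 ≤ X * a0
  · exact Or.inl ⟨p0, k⟩
  · exact Or.inr ⟨p1, by push Not at k; linarith⟩

private lemma m_le {z z1 m1 : ℝ} (hz0 : 0 ≤ z) (hz : z ≤ z1) (h0 : 0 < m1) (h1 : m1 ≤ 1) (hz1 : z1 ≤ 1)
    (h : 2 * z1 ≤ m1 * (1 + z1 ^ 2)) : 2 * z / (1 + z ^ 2) ≤ m1 := by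
  rw [div_le_iff₀ (by positivity)]
  have h2 : m1 * (z + z1) ≤ 2 := by nlinarith
  nlinarith [mul_nonneg (sub_nonneg.2 hz) (sub_nonneg.2 h2)]

private lemma gap {T V Ew M1 I x mw' : ℝ} (hT : Real.pi * T = 4 * K + 2 * L) (hT0 : 0 ≤ T)
    (hV : V = Real.pi / 4 + I - x) (hx : x ≤ 4 / 100 * I) (hI0 : 0 ≤ I) (hI : I ≤ 18 / 100)
    (hK : 33899 / 10000 < K) (w1 : 22148 / 10000 < mw') (w2 : mw' < 22149 / 10000)
    (e1 : K * mw' / 2 - 405 / 100 * I ≤ Ew) (e2 : Ew ≤ K * mw' / 2)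
    (m1 : mw' ≤ M1) (m2 : M1 ≤ mw' + 2 * I) :
    0 ≤ 96 / 100 * T * I + 2 / mw' * (K * mw' / 2 - Ew) + 105 / 100 * (M1 - mw') ∧
    L / 2 + (96 / 100 * T * I + 2 / mw' * (K * mw' / 2 - Ew) + 105 / 100 * (M1 - mw'))
      ≤ T * V - 2 * Ew / M1 := by
  have p1 : 0 < mw' := by linarith
  have p2 : 0 < M1 := by linarith
  refine ⟨?_, ?_⟩
  · have a1 : 0 ≤ 96 / 100 * T * I := by positivity
    have a2 : 0 ≤ 2 / mw' * (K * mw' / 2 - Ew) := mul_nonneg (by positivity) (by linarith)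
    linarith
  · have b1 : T * V ≥ K + L / 2 + 96 / 100 * T * I := by
      have : T * x ≤ T * (4 / 100 * I) := mul_le_mul_of_nonneg_left hx hT0
      rw [hV]
      nlinarith
    have b2 : 2 / mw' * (K * mw' / 2 - Ew) = K - 2 * Ew / mw' := by
      field_simp
    have b3 : 105 / 100 * (M1 - mw') ≤ 2 * Ew / mw' - 2 * Ew / M1 := by
      have c1 : 2 * Ew / mw' - 2 * Ew / M1 = 2 * Ew / (mw' * M1) * (M1 - mw') := by
        field_simp
      rw [c1]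
      refine mul_le_mul_of_nonneg_right ?_ (by linarith)
      rw [le_div_iff₀ (by positivity)]
      have c2 : mw' * M1 ≤ 22149 / 10000 * (22149 / 10000 + 36 / 100) :=
        mul_le_mul (by linarith) (by linarith) p2.le (by norm_num)
      have c3 : 33899 / 10000 * (22148 / 10000) ≤ K * mw' :=
        mul_le_mul hK.le w1.le (by norm_num) (by linarith)
      linarith
    linarith

/-- scalar junk estimate -/
private lemma junk {p P eS dd mm M1 Ew XD je jd JE JD JM cr mw' P1 : ℝ}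
    (hP : P ^ 2 = p) (hP0 : 0 ≤ P) (hP1 : P ≤ P1) (hK1 : K < 339 / 100)
    (hL1 : L < 93284 / 10000) (w1 : 22148 / 10000 < mw') (m1 : mw' ≤ M1)
    (hEw0 : 0 ≤ Ew) (e2 : Ew ≤ K * mw' / 2)
    (he : |eS| ≤ JE) (hJE : JE ≤ 117 / 1000) (hd0 : 0 ≤ dd) (hd : dd ≤ JD) (hJD : JD ≤ 31 / 100)
    (hm0 : 0 ≤ mm) (hm : mm ≤ JM) (hJM : JM ≤ 16 / 100) (hcr : |cr| ≤ 9 * P) (hXD : 0 ≤ XD)
    (q1 : 18 / (22148 / 10000) * P1 + 117 / 1000 * (3637 / 1000) * P1 ^ 2 ≤ je)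
    (q2 : 2 / (22148 / 10000) * XD + 31 / 100 * (3637 / 1000) ≤ jd) {dx : ℝ}
    (hdx : |dx| ≤ XD * dd) :
    -(2 / M1 * (eS * cr + dx)) + 2 / M1 ^ 2 * (p * eS ^ 2 + dd ^ 2) * Ew
      + L / 2 * ((p * eS ^ 2 + dd ^ 2) / M1 + mm ^ 2 / Real.pi)
      ≤ je * JE + jd * JD + 24 / 100 * JM := by
  have p1 : 0 < mw' := by linarith
  have p2 : 0 < M1 := by linarith
  have hM1 : 1 / M1 ≤ 1 / (22148 / 10000) := one_div_le_one_div_of_le (by norm_num) (by linarith)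
  have hM0 : 0 < 1 / M1 := by positivity
  have hJE0 : 0 ≤ JE := (abs_nonneg _).trans he
  -- the linear terms
  have t1 : -(eS * cr) ≤ JE * (9 * P) := by
    have : |eS * cr| ≤ JE * (9 * P) := by
      rw [abs_mul]
      exact mul_le_mul he hcr (abs_nonneg _) hJE0
    exact (neg_le_abs _).trans this
  have t2 : -dx ≤ XD * dd := (neg_le_abs _).trans hdx
  have t3 : -(2 / M1 * (eS * cr + dx)) ≤ 2 / (22148 / 10000) * (JE * (9 * P) + XD * dd) := by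
    have h1 : -(2 / M1 * (eS * cr + dx)) ≤ 2 * (1 / M1) * (JE * (9 * P) + XD * dd) := by
      have e : -(2 / M1 * (eS * cr + dx)) = 2 * (1 / M1) * (-(eS * cr) + -dx) := by ring
      rw [e]
      exact mul_le_mul_of_nonneg_left (by linarith) (by positivity)
    have h2 : 0 ≤ JE * (9 * P) + XD * dd := by positivity
    have h3 : 2 * (1 / M1) * (JE * (9 * P) + XD * dd)
        ≤ 2 / (22148 / 10000) * (JE * (9 * P) + XD * dd) :=
      mul_le_mul_of_nonneg_right (by linarith) h2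
    linarith
  -- the quadratic terms
  have k1 : 2 / M1 ^ 2 * Ew ≤ K / mw' := by
    rw [div_mul_eq_mul_div, div_le_div_iff₀ (by positivity) p1]
    have : mw' ^ 2 ≤ M1 ^ 2 := pow_le_pow_left₀ p1.le m1 2
    have hK0 : 0 ≤ K := by
      by_contra hK0
      push Not at hK0
      nlinarith
    nlinarith
  have k2 : K / mw' ≤ 339 / 100 / (22148 / 10000) := by
    rw [div_le_div_iff₀ p1 (by norm_num)]
    nlinarith
  have k3 : L / 2 * (1 / M1) ≤ 93284 / 20000 / (22148 / 10000) := by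
    have : L / 2 * (1 / M1) ≤ 93284 / 20000 * (1 / (22148 / 10000)) :=
      mul_le_mul (by linarith) hM1 hM0.le (by norm_num)
    linarith
  have k4 : 2 / M1 ^ 2 * Ew + L / 2 * (1 / M1) ≤ 3637 / 1000 := by
    norm_num at k1 k2 k3 ⊢
    linarith
  have hq0 : 0 ≤ p * eS ^ 2 + dd ^ 2 := by rw [← hP]; positivity
  have t4 : 2 / M1 ^ 2 * (p * eS ^ 2 + dd ^ 2) * Ew + L / 2 * ((p * eS ^ 2 + dd ^ 2) / M1)
      ≤ 3637 / 1000 * (p * eS ^ 2 + dd ^ 2) := by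
    have e : 2 / M1 ^ 2 * (p * eS ^ 2 + dd ^ 2) * Ew + L / 2 * ((p * eS ^ 2 + dd ^ 2) / M1)
        = (2 / M1 ^ 2 * Ew + L / 2 * (1 / M1)) * (p * eS ^ 2 + dd ^ 2) := by ring
    rw [e]
    exact mul_le_mul_of_nonneg_right k4 hq0
  have s1 : eS ^ 2 ≤ 117 / 1000 * JE := by
    rw [← sq_abs]
    nlinarith [abs_nonneg eS]
  have s2 : dd ^ 2 ≤ 31 / 100 * JD := by nlinarith
  have s3 : mm ^ 2 ≤ 16 / 100 * JM := by nlinarith
  have hP2 : p ≤ P1 ^ 2 := by rw [← hP]; exact pow_le_pow_left₀ hP0 hP1 2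
  have t5 : p * eS ^ 2 ≤ P1 ^ 2 * (117 / 1000 * JE) :=
    mul_le_mul hP2 s1 (_root_.sq_nonneg _) (_root_.sq_nonneg _)
  have t6 : L / 2 * (mm ^ 2 / Real.pi) ≤ 24 / 100 * JM := by
    have hpi : (3141592 / 1000000 : ℝ) < Real.pi := by
      have := Real.pi_gt_d6
      norm_num at this ⊢
      linarith
    have hJM0 : 0 ≤ JM := hm0.trans hm
    have e : L / 2 * (mm ^ 2 / Real.pi) = L / 2 * mm ^ 2 / Real.pi := by ring
    rw [e, div_le_iff₀ Real.pi_pos]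
    have a1 : L / 2 * mm ^ 2 ≤ 93284 / 20000 * (16 / 100 * JM) :=
      mul_le_mul (by linarith) s3 (_root_.sq_nonneg _) (by norm_num)
    nlinarith [mul_le_mul_of_nonneg_left hpi.le hJM0]
  have t7 : JE * (9 * P) ≤ 9 * P1 * JE := by nlinarith
  have t8 : XD * dd ≤ XD * JD := mul_le_mul_of_nonneg_left hd hXD
  have t9 : (18 / (22148 / 10000) * P1 + 117 / 1000 * (3637 / 1000) * P1 ^ 2) * JE ≤ je * JE :=
    mul_le_mul_of_nonneg_right q1 hJE0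
  have t10 : (2 / (22148 / 10000) * XD + 31 / 100 * (3637 / 1000)) * JD ≤ jd * JD :=
    mul_le_mul_of_nonneg_right q2 (hd0.trans hd)
  have t11 : 2 / (22148 / 10000) * (JE * (9 * P) + XD * dd)
      ≤ 2 / (22148 / 10000) * (9 * P1 * JE + XD * JD) :=
    mul_le_mul_of_nonneg_left (by linarith) (by norm_num)
  have e : L / 2 * ((p * eS ^ 2 + dd ^ 2) / M1 + mm ^ 2 / Real.pi)
      = L / 2 * ((p * eS ^ 2 + dd ^ 2) / M1) + L / 2 * (mm ^ 2 / Real.pi) := by ring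
  rw [e]
  nlinarith

private lemma cell_num {c : Cell} (hc : IsCell c) :
    0 < c.m1 ∧ c.m1 < 1 ∧ c.z1 < 1 ∧ 2 * c.z1 ≤ c.m1 * (1 + c.z1 ^ 2) ∧ c.I1 ≤ 18 / 100 ∧
    c.P1 ≤ 1075 / 1000 ∧ 0 ≤ c.P1 ∧ 0 < c.M ∧ 0 < c.sO ∧ 0 < c.si ∧ 0 ≤ c.XD ∧
    18 / (22148 / 10000) * c.P1 + 117 / 1000 * (3637 / 1000) * c.P1 ^ 2 ≤ c.je ∧
    2 / (22148 / 10000) * c.XD + 31 / 100 * (3637 / 1000) ≤ c.jd := by
  rcases hc with rfl | rfl | rfl <;> simp only [cA, cB, cC] <;> norm_num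

/-- positivity of the density part -/
private lemma dpos {W : Set E} {a b : ℝ} (d : Dat K L φ ψ χ ω) (hW : WS φ χ W a b) {c : Cell}
    (hc : IsCell c) {z m : ℝ} (hz0 : 0 ≤ z) (hz1 : z ≤ c.z1) (hm : m = 2 * z / (1 + z ^ 2))
    (hp : a ^ 2 + b ^ 2 ≤ c.P1 ^ 2) :
    c.je * (∫ y in D \ W, jE K φ y) + c.jd * (∫ y in D \ W, jD φ χ √(a ^ 2 + b ^ 2) y)
      + 24 / 100 * (∫ y in D \ W, jM φ χ √(a ^ 2 + b ^ 2) y)
      ≤ (5 - CC K L φ) * (a ^ 2 + b ^ 2) + (∫ y in W \ D, Ft K L φ ψ χ ω c.M z m a b y)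
        - ∫ y in D \ W, Ft K L φ ψ χ ω c.M z m a b y := by
  subst hm
  obtain ⟨-, -, hz2, -, -, -, -, -, hsO, hsi, -, -, -⟩ := cell_num hc
  have hz3 : z < 1 := hz1.trans_lt hz2
  have mD : MeasurableSet (D : Set E) := M1x.measD
  have cF : Continuous (Ft K L φ ψ χ ω c.M z (2 * z / (1 + z ^ 2)) a b) :=
    cont_Ft d.prof d.prof2 _ _ _ _ _
  have iE := M1x.intOn (cont_jE d.prof) (M1x.bdD.subset (diff_subset (s := D) (t := W)))
  have iD := M1x.intOn (cont_jD d.prof d.prof2 √(a ^ 2 + b ^ 2))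
    (M1x.bdD.subset (diff_subset (s := D) (t := W)))
  have iM := M1x.intOn (cont_jM d.prof d.prof2 √(a ^ 2 + b ^ 2))
    (M1x.bdD.subset (diff_subset (s := D) (t := W)))
  have iF := M1x.intOn cF (M1x.bdD.subset (diff_subset (s := D) (t := W)))
  have iO := M1x.intOn cF (hW.bdd.subset (diff_subset (s := W) (t := D)))
  have h1 := bath_out (c := 4 * a0 K φ) (l := 5) (a := a) (b := b) hz0 hz3 hsO
    (hW.meas.diff mD) (fun y hy => not_lt.1 (mt M1x.mem_D.2 hy.2)) iO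
    (fun y hy => Ft_out d hc hz0 hz1 hp (not_lt.1 (mt M1x.mem_D.2 hy.2)))
  have h2 := bath_in (c := 4 * a0 K φ) (l := 5) (a := a) (b := b) (F := fun y =>
      -Ft K L φ ψ χ ω c.M z (2 * z / (1 + z ^ 2)) a b y
        - (c.je * jE K φ y + c.jd * jD φ χ √(a ^ 2 + b ^ 2) y
          + 24 / 100 * jM φ χ √(a ^ 2 + b ^ 2) y)) hz0 hz3 hsi
    (mD.diff hW.meas) diff_subset (iF.neg.sub (((iE.const_mul _).add (iD.const_mul _)).add
      (iM.const_mul _)))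
    (fun y hy hy0 => Ft_in d hc hz0 hz1 hp hy0 (M1x.mem_D.1 hy.1).le)
  have h3 := scalar d hc hz0 hz1
  have e : ∫ y in D \ W, (-Ft K L φ ψ χ ω c.M z (2 * z / (1 + z ^ 2)) a b y
        - (c.je * jE K φ y + c.jd * jD φ χ √(a ^ 2 + b ^ 2) y
          + 24 / 100 * jM φ χ √(a ^ 2 + b ^ 2) y))
      = -(∫ y in D \ W, Ft K L φ ψ χ ω c.M z (2 * z / (1 + z ^ 2)) a b y)
        - (c.je * (∫ y in D \ W, jE K φ y) + c.jd * (∫ y in D \ W, jD φ χ √(a ^ 2 + b ^ 2) y)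
      + 24 / 100 * (∫ y in D \ W, jM φ χ √(a ^ 2 + b ^ 2) y)) := by
    have i1 : IntegrableOn (fun y => c.je * jE K φ y) (D \ W) := iE.const_mul _
    have i2 : IntegrableOn (fun y => c.jd * jD φ χ √(a ^ 2 + b ^ 2) y) (D \ W) := iD.const_mul _
    have i3 : IntegrableOn (fun y => 24 / 100 * jM φ χ √(a ^ 2 + b ^ 2) y) (D \ W) :=
      iM.const_mul _
    have i4 : IntegrableOn (fun y => c.je * jE K φ y + c.jd * jD φ χ √(a ^ 2 + b ^ 2) y) (D \ W) :=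
      i1.add i2
    have i5 : IntegrableOn (fun y => c.je * jE K φ y + c.jd * jD φ χ √(a ^ 2 + b ^ 2) y
      + 24 / 100 * jM φ χ √(a ^ 2 + b ^ 2) y) (D \ W) := i4.add i3
    have i6 : IntegrableOn (fun y => -Ft K L φ ψ χ ω c.M z (2 * z / (1 + z ^ 2)) a b y) (D \ W) :=
      iF.neg
    rw [integral_sub i6 i5, integral_neg, integral_add i4 i3, integral_add i1 i2,
      integral_const_mul, integral_const_mul, integral_const_mul]
  rw [e] at h2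
  have hp0 : 0 ≤ a ^ 2 + b ^ 2 := by positivity
  have h4 := mul_le_mul_of_nonneg_right h3 hp0
  have e2 : 1 / 8 * (1 / c.sO + 1 / c.si) * (50 * Real.pi * (1 + z ^ 2) + 40 * Real.pi * a0 K φ
      + 8 * Real.pi * a0 K φ ^ 2) * (a ^ 2 + b ^ 2)
      = 1 / (8 * c.sO) * (2 * Real.pi * 5 ^ 2 * (1 + z ^ 2) + 2 * Real.pi * 5 * (4 * a0 K φ)
      + Real.pi * (4 * a0 K φ) ^ 2 / 2) * (a ^ 2 + b ^ 2)
      + 1 / (8 * c.si) * (2 * Real.pi * 5 ^ 2 * (1 + z ^ 2) + 2 * Real.pi * 5 * (4 * a0 K φ)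
      + Real.pi * (4 * a0 K φ) ^ 2 / 2) * (a ^ 2 + b ^ 2) := by
    field_simp
    ring
  rw [e2] at h4
  linarith

theorem core {W : Set E} {a b : ℝ} (d : Dat K L φ ψ χ ω) (hW : WS φ χ W a b) {c : Cell}
    (hc : IsCell c) {z m : ℝ} (hz0 : 0 ≤ z) (hz1 : z ≤ c.z1) (hm : m = 2 * z / (1 + z ^ 2))
    (hp : a ^ 2 + b ^ 2 ≤ c.P1 ^ 2) (hI0 : 0 ≤ II m φ W) (hI : II m φ W ≤ c.I1) {x : E}
    (hx : ∀ i, Real.pi * x i = ∫ y in W, y i)
    (hcen : Real.pi * Nd m x ≤ 4 / 100 * II m φ W) :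
    ∃ u : E → ℝ, ContDiff ℝ 1 u ∧ ∫ y in W, u y = 0 ∧ (∀ j, ∫ y in W, u y * w φ j y = 0) ∧
      0 < ∫ y in W, u y ^ 2 ∧
      ∫ y in W, en m u u y ≤ (T0 K L * (∫ y in W, Nd m (y - x))
        - 2 * (∫ y in W, ew m φ ψ y) / ∫ y in W, sq y * φ (sq y) ^ 2) * ∫ y in W, u y ^ 2 := by
  obtain ⟨c1, c2, c3, c4, c5, c6, c6', c7, c8, c9, c10, c11, c12⟩ := cell_num hc
  have hm0 : 0 ≤ m := by rw [hm]; positivity
  have hm1 : m ≤ c.m1 := by rw [hm]; exact m_le hz0 hz1 c1 c2.le c3.le c4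
  have hm1' : m ≤ 1 := hm1.trans c2.le
  have hI' : II m φ W ≤ 18 / 100 := hI.trans c5
  have hp' : a ^ 2 + b ^ 2 ≤ (1075 / 1000) ^ 2 := hp.trans (pow_le_pow_left₀ c6' c6 2)
  set P := √(a ^ 2 + b ^ 2) with hPdef
  have hp0 : 0 ≤ a ^ 2 + b ^ 2 := by positivity
  have hP0 : 0 ≤ P := Real.sqrt_nonneg _
  have hP2 : P ^ 2 = a ^ 2 + b ^ 2 := Real.sq_sqrt hp0
  have hP1 : P ≤ c.P1 := by
    rw [hPdef]
    exact (Real.sqrt_le_sqrt hp).trans_eq (Real.sqrt_sq c6')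
  obtain ⟨w1, w2⟩ := mw_bd d
  obtain ⟨M1a, M1b⟩ := M1_le d hW hm0 hm1'
  have hEw2 := Ew_le d hW hm0 hm1'
  have hEw1 := Ew_ge d hW hm0 hm1'
  have hEA := EA_le d hW hm0 hm1' hI' hp'
  obtain ⟨j1, j2, j3⟩ := sup_j d hW hc hm0 hm1 hP0 hP1 hI
  obtain ⟨eS, d0, d1, k1, k2, k3, k4, k5, k6, k7⟩ := cross d hW
  set M1 := ∫ y in W, sq y * φ (sq y) ^ 2 with hM1
  set Ew := ∫ y in W, ew m φ ψ y with hEw
  have hM1p : 0 < M1 := by linarith
  have hdz := deriv_zt d.prof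
  have cdA : ∀ i, ContDiff ℝ 1 (Af χ (zt K φ) a b i) :=
    fun i => contDiff_Af d.prof2 hdz (cont_ztd d.prof) a b i
  have cdw : ∀ i, ContDiff ℝ 1 (w φ i) := contDiff_w d.prof
  have cw : ∀ i, Continuous (w φ i) := fun i => (cdw i).continuous
  have iw : ∀ i, IntegrableOn (fun y => w φ i y ^ 2) W := fun i => M1x.intOn ((cw i).pow 2) hW.bdd
  have q1 : (∫ y in W, w φ 0 y ^ 2) + (∫ y in W, w φ 1 y ^ 2) = M1 := by
    rw [← integral_add (iw 0) (iw 1), hM1]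
    refine integral_congr_ae (Filter.Eventually.of_forall fun y => ?_)
    show w φ 0 y ^ 2 + w φ 1 y ^ 2 = sq y * φ (sq y) ^ 2
    simp only [w, Pool.Agent.Neu.sq]
    ring
  have q2 : (∫ y in W, w φ 0 y ^ 2) - (∫ y in W, w φ 1 y ^ 2) = 0 := by
    rw [← integral_sub (iw 0) (iw 1)]
    exact hW.w1
  have q3 : ∀ i, ∫ y in W, w φ i y ^ 2 = M1 / 2 := by
    intro i
    fin_cases i
    · show ∫ y in W, w φ 0 y ^ 2 = M1 / 2
      linarith
    · show ∫ y in W, w φ 1 y ^ 2 = M1 / 2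
      linarith
  obtain ⟨u, u1, u2, u3, u4, u5⟩ := proj hW.meas hW.bdd hW.vol cdA cdw hM1p hW.w0 hW.w2 q3 hm0
    hm1' k1 k2 k3 k4
  have r1 : ∫ y in W, (en m (Af χ (zt K φ) a b 0) (Af χ (zt K φ) a b 0) y
      + en m (Af χ (zt K φ) a b 1) (Af χ (zt K φ) a b 1) y)
      = ∫ y in W, eA m a b χ ω (zt K φ) (ztd K φ ψ) y :=
    integral_congr_ae (Filter.Eventually.of_forall fun y => en_AA d.prof2 hdz m a b y)
  have r2 : ∫ y in W, (en m (Af χ (zt K φ) a b 0) (w φ 0) y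
      + en m (Af χ (zt K φ) a b 1) (w φ 1) y)
      = ∫ y in W, bR m a b φ ψ χ ω (zt K φ) (ztd K φ ψ) y :=
    integral_congr_ae (Filter.Eventually.of_forall fun y => en_AwR d.prof d.prof2 hdz m a b y)
  have r3 : ∫ y in W, (en m (Af χ (zt K φ) a b 1) (w φ 0) y
      - en m (Af χ (zt K φ) a b 0) (w φ 1) y)
      = ∫ y in W, bI m a b φ ψ χ ω (zt K φ) (ztd K φ ψ) y :=
    integral_congr_ae (Filter.Eventually.of_forall fun y => en_AwI d.prof d.prof2 hdz m a b y)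
  have r4 : ∫ y in W, (en m (w φ 0) (w φ 0) y + en m (w φ 1) (w φ 1) y) = Ew :=
    integral_congr_ae (Filter.Eventually.of_forall fun y => en_ww d.prof m y)
  have hcs := cs_bar hW.meas hW.bdd cdA cdw hm0 hm1' a b
  rw [r1, r4] at hcs
  rw [r1, r2, r3, r4] at u5
  set cr := a * ((∫ y in W, en m (Af χ (zt K φ) a b 0) (w φ 0) y)
      - ∫ y in W, en m (Af χ (zt K φ) a b 1) (w φ 1) y)
      + b * ((∫ y in W, en m (Af χ (zt K φ) a b 0) (w φ 1) y)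
      + ∫ y in W, en m (Af χ (zt K φ) a b 1) (w φ 0) y) with hcr
  have hEw0 : 0 ≤ Ew := integral_nonneg fun y => ew_nonneg hm0 hm1' φ ψ y
  have hEA0 : 0 ≤ ∫ y in W, eA m a b χ ω (zt K φ) (ztd K φ ψ) y := by
    rw [← r1]
    refine integral_nonneg fun y => ?_
    have h1 : 0 ≤ (1 + m) / 2 := by linarith
    have h2 : 0 ≤ (1 - m) / 2 := by linarith
    simp only [en]
    show (0 : ℝ) ≤ _
    have := mul_self_nonneg (pd 0 (Af χ (zt K φ) a b 0) y)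
    have := mul_self_nonneg (pd 1 (Af χ (zt K φ) a b 0) y)
    have := mul_self_nonneg (pd 0 (Af χ (zt K φ) a b 1) y)
    have := mul_self_nonneg (pd 1 (Af χ (zt K φ) a b 1) y)
    positivity
  have hK1 := d.enc.K_hi
  have hK0 := d.enc.K_lo
  have hcr9 : |cr| ≤ 9 * P := by
    have h1 : Ew ≤ 37544 / 10000 := by
      have : K * mw K ≤ 339 / 100 * (22149 / 10000) :=
        mul_le_mul hK1.le w2.le (by linarith) (by norm_num)
      linarith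
    have h2 : cr ^ 2 ≤ (9 * P) ^ 2 := by
      refine hcs.trans ?_
      have h3 : (∫ y in W, eA m a b χ ω (zt K φ) (ztd K φ ψ) y) * Ew
          ≤ 2139 / 100 * (37544 / 10000) := mul_le_mul hEA h1 hEw0 (by norm_num)
      have h4 : (a ^ 2 + b ^ 2) * ((∫ y in W, eA m a b χ ω (zt K φ) (ztd K φ ψ) y) * Ew)
          ≤ (a ^ 2 + b ^ 2) * 81 := mul_le_mul_of_nonneg_left (by linarith) hp0
      rw [mul_pow, hP2]
      linarith
    exact abs_le_of_sq_le_sq h2 (by positivity)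
  set dd := √(d0 ^ 2 + d1 ^ 2) with hdd
  have hdd0 : 0 ≤ dd := Real.sqrt_nonneg _
  have hdd2 : dd ^ 2 = d0 ^ 2 + d1 ^ 2 := Real.sq_sqrt (by positivity)
  have hXD := XD d hW hc hm0 hm1 hp hI d0 d1
  set mm := √((∫ y in W, Af χ (zt K φ) a b 0 y) ^ 2 + (∫ y in W, Af χ (zt K φ) a b 1 y) ^ 2)
    with hmm
  have hmm0 : 0 ≤ mm := Real.sqrt_nonneg _
  have hmm2 : mm ^ 2 = (∫ y in W, Af χ (zt K φ) a b 0 y) ^ 2
      + (∫ y in W, Af χ (zt K φ) a b 1 y) ^ 2 := Real.sq_sqrt (by positivity)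
  have hMass := mass_ge d hW hc hm0 hm1 hp hI k5 hdd0 k6 hmm0 k7 M1a
  rw [← massA d hW] at hMass
  have hD := dens d hW c.M z m
  have hpos := dpos d hW hc hz0 hz1 hm hp
  have hpi : Real.pi * T0 K L = 4 * K + 2 * L := by
    unfold T0
    field_simp
  obtain ⟨g1, g2⟩ := gap (V := ∫ y in W, Nd m (y - x)) (x := Real.pi * Nd m x) hpi
    (by have := (T0_bd d).1; linarith) (var_eq d.prof hW m hx) hcen hI0 hI' hK0 w1 w2 hEw1 hEw2
    M1a M1b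
  have hJ := junk (p := a ^ 2 + b ^ 2) hP2 hP0 hP1 hK1 d.enc.L_hi w1 M1a hEw0 hEw2 k5 j1 hdd0 k6 j2
    hmm0 k7 j3 hcr9 c10 c11 c12 (hXD.trans_eq (by ring)) (L := L) (eS := eS)
  set EAi := ∫ y in W, eA m a b χ ω (zt K φ) (ztd K φ ψ) y
  set A2 := ∫ y in W, (Af χ (zt K φ) a b 0 y ^ 2 + Af χ (zt K φ) a b 1 y ^ 2)
  set G := 96 / 100 * T0 K L * II m φ W + 2 / mw K * (K * mw K / 2 - Ew)
    + 105 / 100 * (M1 - mw K) with hG
  have hMU : c.M ≤ (∫ y in W, u 0 y ^ 2) + (∫ y in W, u 1 y ^ 2) := by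
    rw [u4, ← hmm2]
    have : (a ^ 2 + b ^ 2) * eS ^ 2 + d0 ^ 2 + d1 ^ 2 = (a ^ 2 + b ^ 2) * eS ^ 2 + dd ^ 2 := by
      rw [hdd2]; ring
    rw [this]
    exact hMass
  set MU := (∫ y in W, u 0 y ^ 2) + (∫ y in W, u 1 y ^ 2) with hMUdef
  set X := T0 K L * (∫ y in W, Nd m (y - x)) - 2 * Ew / M1 with hX
  have hEU : (∫ y in W, en m (u 0) (u 0) y) + (∫ y in W, en m (u 1) (u 1) y) ≤ X * MU := by
    have s1 : (L / 2 + G) * MU ≤ X * MU := mul_le_mul_of_nonneg_right g2 (c7.le.trans hMU)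
    have s2 : c.M * G ≤ MU * G := mul_le_mul_of_nonneg_right hMU g1
    have s3 : L / 2 * MU = L / 2 * A2 - L / 2 * (((a ^ 2 + b ^ 2) * eS ^ 2 + dd ^ 2) / M1
        + mm ^ 2 / Real.pi) := by
      rw [u4, hdd2, hmm2]
      ring
    have s4 : -(2 / M1 * (eS * cr + (d0 * (∫ y in W, bR m a b φ ψ χ ω (zt K φ) (ztd K φ ψ) y)
        + d1 * ∫ y in W, bI m a b φ ψ χ ω (zt K φ) (ztd K φ ψ) y)))
        = - 2 / M1 * (eS * cr + (d0 * ∫ y in W, bR m a b φ ψ χ ω (zt K φ) (ztd K φ ψ) y)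
            + (d1 * ∫ y in W, bI m a b φ ψ χ ω (zt K φ) (ztd K φ ψ) y)) := by
      ring
    have s5 : 2 / M1 ^ 2 * ((a ^ 2 + b ^ 2) * eS ^ 2 + dd ^ 2) * Ew
        = 2 / M1 ^ 2 * ((a ^ 2 + b ^ 2) * eS ^ 2 + d0 ^ 2 + d1 ^ 2) * Ew := by
      rw [hdd2]
      ring
    rw [s4, s5] at hJ
    linarith
  have hen : ∀ i, 0 ≤ ∫ y in W, en m (u i) (u i) y := by
    intro i
    refine integral_nonneg fun y => ?_
    have h1 : 0 ≤ (1 + m) / 2 := by linarith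
    have h2 : 0 ≤ (1 - m) / 2 := by linarith
    simp only [en]
    show (0 : ℝ) ≤ _
    have := mul_self_nonneg (pd 0 (u i) y)
    have := mul_self_nonneg (pd 1 (u i) y)
    positivity
  rcases pick (integral_nonneg fun y => _root_.sq_nonneg _) (integral_nonneg fun y => _root_.sq_nonneg _)
    (hen 0) (hen 1) (c7.trans_le hMU) hEU with ⟨p1, p2⟩ | ⟨p1, p2⟩
  · exact ⟨u 0, u1 0, u2 0, u3 0, p1, p2⟩
  · exact ⟨u 1, u1 1, u2 1, u3 1, p1, p2⟩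

end Pool.Agent.FND
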