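import Mathlib
import Pool.Agent.Neu.Defs
import Pool.Agent.CS4.Defs
import Pool.Agent.NSY.Defs

/-!
Project FND (MP_7e3a18_an, helper14): `F_4(Ω) ≤ F_4(disc)` for every nonempty bounded open plane set with
`2 π I(Ω) ≤ (61/50) |Ω|²`.  Definitions shared by all modules.

Notation of the blueprint: `W` = normalised image of `Ω`, `D` = unit disc, `O = W \ D`, `S = D \ W`,
`s = r² = sq y`, `u = 1 - s`, `g = r φ(s)`, `h = s χ(s)`, `g' = φ + 2 s ψ`, `h' = 2 r (χ + s ω)`,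
`w = φ y`, `V = χ y²` (complex notation), `P = a + i b = ∫_W w V`, `p = |P|²`, `ζ = r η(s)`,
`η = (1-s)³(1+s)`, `Z = ζ + a₀ g = r ζt(s)`, `A = V - P Z e^{-iθ}`, `Q = diag((1+m)/2, (1-m)/2)`,
`N = s ν`, `ν = (1 - m cos 2θ)/2`, `m = 2 z / (1 + z²)`.
-/

set_option autoImplicit false

open MeasureTheory Set
open Pool.Agent.Neu
open Pool.Agent.CS4 (Prof2 bb vv eV)

namespace Pool.Agent.FND

/-- `η` -/
noncomputable def et (s : ℝ) : ℝ := if s ≤ 1 then (1 - s) ^ 3 * (1 + s) else 0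

/-- `η'` -/
noncomputable def etd (s : ℝ) : ℝ := if s ≤ 1 then -2 * (1 - s) ^ 2 * (1 + 2 * s) else 0

/-- `∫_D g²` -/
noncomputable def mw (K : ℝ) : ℝ := Real.pi * (1 - 1 / K)

/-- `∫_D h²` -/
noncomputable def mV (L : ℝ) : ℝ := Real.pi * (1 - 4 / L)

/-- `κ = ∫_D ζ g` -/
noncomputable def kap (φ : ℝ → ℝ) : ℝ := Real.pi * ∫ s in (0 : ℝ)..1, s * et s * φ s

/-- `a₀` -/
noncomputable def a0 (K : ℝ) (φ : ℝ → ℝ) : ℝ := (1 - kap φ) / mw K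

/-- `Z / r` as a function of `s` -/
noncomputable def zt (K : ℝ) (φ : ℝ → ℝ) (s : ℝ) : ℝ := et s + a0 K φ * φ s

/-- derivative of `zt` -/
noncomputable def ztd (K : ℝ) (φ ψ : ℝ → ℝ) (s : ℝ) : ℝ := etd s + a0 K φ * ψ s

/-- `T₀` -/
noncomputable def T0 (K L : ℝ) : ℝ := (4 * K + 2 * L) / Real.pi

/-- energy of `Z e^{-iθ}` on the disc (trace one) -/
noncomputable def CZ (K : ℝ) (φ : ℝ → ℝ) : ℝ :=
  Real.pi * (3 / 20 + 23 / 252) + a0 K φ * K * kap φ + a0 K φ ^ 2 * (K * mw K / 2)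

/-- `c_M` -/
noncomputable def cM (K : ℝ) (φ : ℝ → ℝ) : ℝ := a0 K φ ^ 2 * mw K - Real.pi * (17 / 630)

/-- `C` -/
noncomputable def CC (K L : ℝ) (φ : ℝ → ℝ) : ℝ := CZ K φ + L / 2 * cM K φ

/-- numerical enclosures of the profiles, `u = 1 - s` -/
structure Enc (K L : ℝ) (φ ψ χ ω : ℝ → ℝ) : Prop where
  K_lo : 33899 / 10000 < K
  K_hi : K < 339 / 100
  L_lo : 93283 / 10000 < L
  L_hi : L < 93284 / 10000
  phi : ∀ s ∈ Icc (0 : ℝ) 1, |φ s - (1 + (1 - s) / 2 + (1 - s) ^ 2 *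
    (762 / 10000 + 59 / 10000 * (1 - s)))| ≤ 1 / 10000 * (1 - s) ^ 2
  gd : ∀ s ∈ Icc (0 : ℝ) 1, |φ s + 2 * s * ψ s - (1 - s) *
    (1195 / 1000 + 3462 / 10000 * (1 - s) + 408 / 10000 * (1 - s) ^ 2)| ≤ 2 / 10000 * (1 - s)
  chi : ∀ s ∈ Icc (0 : ℝ) 1, |χ s - (1 + (1 - s) + (1 - s) ^ 2 *
    (334 / 1000 + 563 / 10000 * (1 - s) + 65 / 10000 * (1 - s) ^ 2))| ≤ 1 / 10000 * (1 - s) ^ 2
  hd : ∀ s ∈ Icc (0 : ℝ) 1, |2 * (χ s + s * ω s) - (1 - s) * (26641 / 10000 + 16655 / 10000 * (1 - s)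
    + 3996 / 10000 * (1 - s) ^ 2 + 644 / 10000 * (1 - s) ^ 3)| ≤ 2 / 10000 * (1 - s)

/-- all data of the profiles -/
structure Dat (K L : ℝ) (φ ψ χ ω : ℝ → ℝ) : Prop where
  prof : Prof K φ ψ
  prof2 : Prof2 L χ ω
  enc : Enc K L φ ψ χ ω

/-- the quadratic form `N` of `Q = diag((1+m)/2, (1-m)/2)` (trace one) -/
noncomputable def Nd (m : ℝ) (y : E) : ℝ := ((1 - m) * y 0 ^ 2 + (1 + m) * y 1 ^ 2) / 2

/-- real and imaginary part of `y³` -/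
noncomputable def c3 (y : E) : ℝ := y 0 ^ 3 - 3 * y 0 * y 1 ^ 2
noncomputable def s3 (y : E) : ℝ := 3 * y 0 ^ 2 * y 1 - y 1 ^ 3

/-- `Re (conj P y³)`, `Im (conj P y³)`, `Re (conj P y)` -/
noncomputable def R3 (a b : ℝ) (y : E) : ℝ := a * c3 y + b * s3 y
noncomputable def I3 (a b : ℝ) (y : E) : ℝ := a * s3 y - b * c3 y
noncomputable def R1 (a b : ℝ) (y : E) : ℝ := a * y 0 + b * y 1

/-- `P ȳ` in coordinates -/
noncomputable def pb (a b : ℝ) (i : Fin 2) (y : E) : ℝ :=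
  if i = 0 then a * y 0 + b * y 1 else b * y 0 - a * y 1

/-- the field `A = V - P ζ ȳ` -/
noncomputable def Af (χ ζ : ℝ → ℝ) (a b : ℝ) (i : Fin 2) (y : E) : ℝ :=
  vv χ i y - ζ (sq y) * pb a b i y

/-- energy densities for `Q = diag((1+m)/2, (1-m)/2)` -/
noncomputable def ew (m : ℝ) (φ ψ : ℝ → ℝ) (y : E) : ℝ := eQ φ ψ ((1 + m) / 2) 0 ((1 - m) / 2) y
noncomputable def eVm (m : ℝ) (χ ω : ℝ → ℝ) (y : E) : ℝ := eV χ ω ((1 + m) / 2) 0 ((1 - m) / 2) y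

/-- `Re ∇V · Q ∇ (conj (P ζ ȳ))` -/
noncomputable def X3 (m a b : ℝ) (χ ω ζ ζ' : ℝ → ℝ) (y : E) : ℝ :=
  R3 a b y * ((2 * χ (sq y) * ζ' (sq y) + ω (sq y) * ζ (sq y))
      + 4 * ω (sq y) * ζ' (sq y) * (sq y - Nd m y))
    + m * R1 a b y * (2 * χ (sq y) * ζ (sq y)
      + sq y * (2 * χ (sq y) * ζ' (sq y) + ω (sq y) * ζ (sq y)))

/-- energy density of `A` -/
noncomputable def eA (m a b : ℝ) (χ ω ζ ζ' : ℝ → ℝ) (y : E) : ℝ :=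
  eVm m χ ω y - 2 * X3 m a b χ ω ζ ζ' y + (a ^ 2 + b ^ 2) * ew m ζ ζ' y

/-- coefficients of the density `∇A · Q ∇ (conj w)` -/
noncomputable def b1 (m : ℝ) (φ ψ χ ω : ℝ → ℝ) (y : E) : ℝ :=
  2 * χ (sq y) * φ (sq y) + 2 * χ (sq y) * ψ (sq y) * sq y + ω (sq y) * φ (sq y) * sq y
    + 4 * ω (sq y) * ψ (sq y) * sq y * (sq y - Nd m y)
noncomputable def b2 (φ ψ ζ ζ' : ℝ → ℝ) (y : E) : ℝ :=
  ζ (sq y) * φ (sq y) + sq y * (ζ (sq y) * ψ (sq y) + ζ' (sq y) * φ (sq y))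
noncomputable def b3 (m : ℝ) (φ ψ ζ ζ' : ℝ → ℝ) (y : E) : ℝ :=
  (ζ (sq y) * ψ (sq y) + ζ' (sq y) * φ (sq y)) + 4 * ζ' (sq y) * ψ (sq y) * (sq y - Nd m y)

/-- real and imaginary part of `∇A · Q ∇ (conj w)` -/
noncomputable def bR (m a b : ℝ) (φ ψ χ ω ζ ζ' : ℝ → ℝ) (y : E) : ℝ :=
  y 0 * b1 m φ ψ χ ω y + 2 * m * χ (sq y) * ψ (sq y) * sq y * y 0 + m * ω (sq y) * φ (sq y) * c3 y
    - (a * (m * b2 φ ψ ζ ζ' y + (y 0 ^ 2 - y 1 ^ 2) * b3 m φ ψ ζ ζ' y)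
      + b * (2 * (y 0 * y 1)) * b3 m φ ψ ζ ζ' y)
noncomputable def bI (m a b : ℝ) (φ ψ χ ω ζ ζ' : ℝ → ℝ) (y : E) : ℝ :=
  y 1 * b1 m φ ψ χ ω y - 2 * m * χ (sq y) * ψ (sq y) * sq y * y 1 + m * ω (sq y) * φ (sq y) * s3 y
    - (b * (m * b2 φ ψ ζ ζ' y + (y 0 ^ 2 - y 1 ^ 2) * b3 m φ ψ ζ ζ' y)
      - a * (2 * (y 0 * y 1)) * b3 m φ ψ ζ ζ' y)

/-- density of `I`; on `s ≥ 1` it is `N (1 - 1/s)`, on `s ≤ 1` it is `-(ν(g² - s) + (1 - g²)/2)` -/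
noncomputable def GI (m : ℝ) (φ : ℝ → ℝ) (y : E) : ℝ :=
  Nd m y - φ (sq y) ^ 2 * Nd m y - (1 - sq y * φ (sq y) ^ 2) / 2

/-- `I` -/
noncomputable def II (m : ℝ) (φ : ℝ → ℝ) (W : Set E) : ℝ := (∫ y in W, GI m φ y) + Real.pi / 4

/-- reduced mass density of `A` -/
noncomputable def nr (K : ℝ) (φ χ : ℝ → ℝ) (a b : ℝ) (y : E) : ℝ :=
  Af χ (zt K φ) a b 0 y ^ 2 + Af χ (zt K φ) a b 1 y ^ 2 - (1 + a0 K φ ^ 2 * (a ^ 2 + b ^ 2))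
    + 2 * a0 K φ * (φ (sq y) * χ (sq y) * R3 a b y)

/-- the total density, `λ = 5`, `T' = 96/100 T₀`, `G₁ = 105/100` -/
noncomputable def Ft (K L : ℝ) (φ ψ χ ω : ℝ → ℝ) (M z m a b : ℝ) (y : E) : ℝ :=
  L / 2 * nr K φ χ a b y
    + M * (96 / 100 * T0 K L * GI m φ y - 2 / mw K * ew m φ ψ y
      + 105 / 100 * (sq y * φ (sq y) ^ 2 - 1))
    - eA m a b χ ω (zt K φ) (ztd K φ ψ) y
    + (M * (2 / mw K) + 4 + a0 K φ ^ 2 * (a ^ 2 + b ^ 2)) *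
      (φ (sq y) ^ 2 * Nd m y + (1 - sq y * φ (sq y) ^ 2) / 2)
    - 5 * (φ (sq y) * χ (sq y) * R3 a b y - z * (φ (sq y) * R1 a b y))

/-- majorants of the junk densities on `S`, `P = √(a² + b²)` -/
noncomputable def jE (K : ℝ) (φ : ℝ → ℝ) (y : E) : ℝ :=
  |sq y * et (sq y) * φ (sq y) - a0 K φ * (1 - sq y * φ (sq y) ^ 2)|
noncomputable def jD (φ χ : ℝ → ℝ) (P : ℝ) (y : E) : ℝ :=
  √(sq y) * φ (sq y) * (1 - sq y * χ (sq y)) + P * (sq y * et (sq y) * φ (sq y))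
noncomputable def jM (φ χ : ℝ → ℝ) (P : ℝ) (y : E) : ℝ :=
  sq y * |χ (sq y) - φ (sq y) ^ 2| + P * (√(sq y) * et (sq y))

/-- the boundary multiplier `B = λ (C₃ - z C₁) + c ν C₃` -/
noncomputable def Bf (m z a b l c : ℝ) (y : E) : ℝ :=
  l * (R3 a b y / √(sq y) ^ 3 - z * (R1 a b y / √(sq y)))
    + c * (Nd m y / sq y) * (R3 a b y / √(sq y) ^ 3)

/-- the standing hypotheses on `W` -/
structure WS (φ χ : ℝ → ℝ) (W : Set E) (a b : ℝ) : Prop where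
  meas : MeasurableSet W
  bdd : Bornology.IsBounded W
  vol : volume W = ENNReal.ofReal Real.pi
  w0 : ∀ i, ∫ y in W, w φ i y = 0
  w1 : ∫ y in W, (w φ 0 y ^ 2 - w φ 1 y ^ 2) = 0
  w2 : ∫ y in W, w φ 0 y * w φ 1 y = 0
  Pa : ∫ y in W, φ (sq y) * χ (sq y) * c3 y = a
  Pb : ∫ y in W, φ (sq y) * χ (sq y) * s3 y = b

/-- constants of one cell of the parameter domain -/
structure Cell where
  z1 : ℝ
  m1 : ℝ
  P1 : ℝ
  I1 : ℝ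
  M : ℝ
  si : ℝ
  sO : ℝ
  XD : ℝ
  je : ℝ
  jd : ℝ
  bS : ℝ

noncomputable def cA : Cell :=
  ⟨127 / 1000, 1 / 4, 1075 / 1000, 18 / 100, 162 / 100, 17, 1895 / 100, 285 / 100, 923 / 100, 371 / 100,
    665 / 100⟩
noncomputable def cB : Cell :=
  ⟨2087 / 10000, 4 / 10, 984 / 1000, 1484 / 10000, 1649 / 1000, 177 / 10, 192 / 10, 325 / 100, 841 / 100,
    407 / 100, 7⟩
noncomputable def cC : Cell :=
  ⟨3149 / 10000, 573 / 1000, 805 / 1000, 967 / 10000, 1695 / 1000, 186 / 10, 197 / 10, 34 / 10, 682 / 100,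
    42 / 10, 77 / 10⟩

def IsCell (c : Cell) : Prop := c = cA ∨ c = cB ∨ c = cC

/-- partial derivatives -/
noncomputable def pd (j : Fin 2) (f : E → ℝ) (y : E) : ℝ := fderiv ℝ f y (EuclideanSpace.single j 1)

/-- energy density (bilinear) for `Q = diag((1+m)/2, (1-m)/2)` -/
noncomputable def en (m : ℝ) (f g : E → ℝ) (y : E) : ℝ :=
  (1 + m) / 2 * (pd 0 f y * pd 0 g y) + (1 - m) / 2 * (pd 1 f y * pd 1 g y)

/-- energy density for general `Q = [[p, q], [q, r]]` -/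
noncomputable def enQ (p q r : ℝ) (f : E → ℝ) (y : E) : ℝ :=
  p * pd 0 f y ^ 2 + 2 * q * (pd 0 f y * pd 1 f y) + r * pd 1 f y ^ 2

end Pool.Agent.FND
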