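import Pool.Agent.FND.Defs
import Pool.Agent.CS4.Bes

/-!
FND-EncC: numerical enclosures for `L`, `χ`, `ω`: uniqueness by the Wronskian, alternating series.
-/

set_option autoImplicit false

open MeasureTheory Set
open Pool.Agent.Neu
open Pool.Agent.CS4 (Prof2 bb vv eV)

namespace Pool.Agent.FND

variable {K L : ℝ} {φ ψ χ ω : ℝ → ℝ}


section Aux
open Filter Topology Finset
open scoped Nat

/-- power series -/
private noncomputable def bps (a : ℕ → ℝ) (x : ℝ) : ℝ := ∑' k, a k * x ^ k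

/-- coefficients of the derivative -/
private noncomputable def bsh (a : ℕ → ℝ) (k : ℕ) : ℝ := ((k : ℝ) + 1) * a (k + 1)

private theorem bsh_bd {a : ℕ → ℝ} (h : ∀ k, |a k| ≤ 1 / (k ! : ℝ)) (k : ℕ) :
    |bsh a k| ≤ 1 / (k ! : ℝ) := by
  unfold bsh
  have hk : (0 : ℝ) < (k : ℝ) + 1 := by positivity
  have h1 := h (k + 1)
  rw [abs_mul, abs_of_pos hk]
  calc ((k : ℝ) + 1) * |a (k + 1)| ≤ ((k : ℝ) + 1) * (1 / ((k + 1)! : ℝ)) :=
        mul_le_mul_of_nonneg_left h1 hk.le
    _ = 1 / (k ! : ℝ) := by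
        rw [Nat.factorial_succ]
        push_cast
        have : (k ! : ℝ) ≠ 0 := by positivity
        field_simp

private theorem bps_summable {a : ℕ → ℝ} (h : ∀ k, |a k| ≤ 1 / (k ! : ℝ)) (x : ℝ) :
    Summable (fun k => a k * x ^ k) := by
  refine Summable.of_norm_bounded (Real.summable_pow_div_factorial |x|) (fun k => ?_)
  rw [Real.norm_eq_abs, abs_mul, abs_pow]
  calc |a k| * |x| ^ k ≤ 1 / (k ! : ℝ) * |x| ^ k :=
        mul_le_mul_of_nonneg_right (h k) (by positivity)
    _ = |x| ^ k / (k ! : ℝ) := by ring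

private theorem bps_hasDerivAt {a : ℕ → ℝ} (h : ∀ k, |a k| ≤ 1 / (k ! : ℝ)) (x : ℝ) :
    HasDerivAt (bps a) (bps (bsh a) x) x := by
  set R : ℝ := |x| + 1 with hR
  have hR0 : 0 < R := by positivity
  have hu : Summable (fun n : ℕ => (n : ℝ) * R ^ (n - 1) / (n ! : ℝ)) := by
    rw [← summable_nat_add_iff 1]
    refine (Real.summable_pow_div_factorial R).congr (fun n => ?_)
    rw [Nat.add_sub_cancel, Nat.factorial_succ]
    push_cast
    have : (n ! : ℝ) ≠ 0 := by positivity
    field_simp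
  have hx : x ∈ Metric.ball (0 : ℝ) R := by
    rw [mem_ball_zero_iff, Real.norm_eq_abs, hR]
    linarith
  have key := hasDerivAt_tsum_of_isPreconnected (𝕜 := ℝ)
    (g := fun (n : ℕ) (y : ℝ) => a n * y ^ n)
    (g' := fun (n : ℕ) (y : ℝ) => a n * ((n : ℝ) * y ^ (n - 1))) hu (t := Metric.ball (0 : ℝ) R)
    Metric.isOpen_ball (convex_ball (0 : ℝ) R).isPreconnected
    (fun n y _ => (hasDerivAt_pow n y).const_mul (a n))
    (fun n y hy => by
      rw [mem_ball_zero_iff, Real.norm_eq_abs] at hy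
      rw [Real.norm_eq_abs, abs_mul, abs_mul, abs_pow, Nat.abs_cast]
      calc |a n| * ((n : ℝ) * |y| ^ (n - 1)) ≤ 1 / (n ! : ℝ) * ((n : ℝ) * R ^ (n - 1)) := by
            refine mul_le_mul (h n) ?_ (by positivity) (by positivity)
            exact mul_le_mul_of_nonneg_left (pow_le_pow_left₀ (abs_nonneg y) hy.le _)
              (by positivity)
        _ = (n : ℝ) * R ^ (n - 1) / (n ! : ℝ) := by ring)
    hx (bps_summable h x) hx
  have e : ∑' n : ℕ, a n * ((n : ℝ) * x ^ (n - 1)) = bps (bsh a) x := by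
    have hs : Summable (fun n : ℕ => a n * ((n : ℝ) * x ^ (n - 1))) := by
      rw [← summable_nat_add_iff 1]
      refine (bps_summable (bsh_bd h) x).congr (fun n => ?_)
      unfold bsh
      rw [Nat.add_sub_cancel]
      push_cast
      ring
    rw [hs.tsum_eq_zero_add]
    unfold bps
    have e0 : a 0 * (((0 : ℕ) : ℝ) * x ^ (0 - 1)) = 0 := by simp
    rw [e0, zero_add]
    refine tsum_congr (fun n => ?_)
    unfold bsh
    rw [Nat.add_sub_cancel]
    push_cast
    ring
  rw [e] at key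
  exact key

/-- coefficients of `J` -/
private noncomputable def bc (k : ℕ) : ℝ := (-1) ^ k * (2 / ((k ! : ℝ) * ((k + 2)! : ℝ)))

private theorem bc_bd (k : ℕ) : |bc k| ≤ 1 / (k ! : ℝ) := by
  unfold bc
  rw [abs_mul, abs_pow, abs_neg, abs_one, one_pow, one_mul, abs_of_pos (by positivity)]
  have h2 : (2 : ℝ) ≤ ((k + 2)! : ℝ) := by
    have h : 2 ! ≤ (k + 2)! := Nat.factorial_le (by omega)
    exact_mod_cast h
  have h3 : (0 : ℝ) < (k ! : ℝ) := by positivity
  rw [div_le_div_iff₀ (by positivity) h3]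
  nlinarith

private theorem bc_succ (k : ℕ) :
    bc (k + 1) * (((k : ℝ) + 1) * ((k : ℝ) + 3)) = - bc k := by
  unfold bc
  rw [Nat.factorial_succ (k + 2), Nat.factorial_succ k, pow_succ]
  push_cast
  have : (k ! : ℝ) ≠ 0 := by positivity
  have : ((k + 2)! : ℝ) ≠ 0 := by positivity
  field_simp
  ring

private noncomputable def bj (x : ℝ) : ℝ := bps bc x
private noncomputable def bj1 (x : ℝ) : ℝ := bps (bsh bc) x
private noncomputable def bj2 (x : ℝ) : ℝ := bps (bsh (bsh bc)) x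

private theorem bj_deriv (x : ℝ) : HasDerivAt bj (bj1 x) x := bps_hasDerivAt bc_bd x
private theorem bj1_deriv (x : ℝ) : HasDerivAt bj1 (bj2 x) x := bps_hasDerivAt (bsh_bd bc_bd) x

private theorem bj_ode (x : ℝ) : x * bj2 x + 3 * bj1 x + bj x = 0 := by
  have h2 : HasSum (fun k => bsh (bsh bc) k * x ^ k) (bj2 x) :=
    (bps_summable (bsh_bd (bsh_bd bc_bd)) x).hasSum
  have h1 : HasSum (fun k => bsh bc k * x ^ k) (bj1 x) :=
    (bps_summable (bsh_bd bc_bd) x).hasSum
  have h0 : HasSum (fun k => bc k * x ^ k) (bj x) := (bps_summable bc_bd x).hasSum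
  have h2' := h2.mul_left x
  have h1' := (hasSum_nat_add_iff' 1).2 h1
  have h0' := (hasSum_nat_add_iff' 1).2 h0
  have hs := (h2'.add (h1'.mul_left 3)).add h0'
  have hz : (fun k => x * (bsh (bsh bc) k * x ^ k) + 3 * (bsh bc (k + 1) * x ^ (k + 1)) +
      bc (k + 1) * x ^ (k + 1)) = fun _ => (0 : ℝ) := by
    funext k
    have e := bc_succ (k + 1)
    unfold bsh
    push_cast at e ⊢
    have e' : bc (k + 1) = - (bc (k + 1 + 1) * (((k : ℝ) + 1 + 1) * ((k : ℝ) + 1 + 3))) := by
      linarith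
    rw [e']
    ring
  rw [hz] at hs
  have h3 := hs.unique hasSum_zero
  simp only [Finset.sum_range_one, pow_zero, mul_one] at h3
  have e0 : bc 0 = 1 := by unfold bc; norm_num [Nat.factorial]
  have e1 : bsh bc 0 = -1 / 3 := by
    unfold bsh bc
    norm_num [Nat.factorial]
  rw [e0, e1] at h3
  linarith

/-- positive terms of `J` -/
private noncomputable def bf (x : ℝ) (k : ℕ) : ℝ := 2 / ((k ! : ℝ) * ((k + 2)! : ℝ)) * x ^ k

/-- positive terms of `-J'` -/
private noncomputable def bg (x : ℝ) (k : ℕ) : ℝ :=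
  ((k : ℝ) + 1) * (2 / (((k + 1)! : ℝ) * ((k + 1 + 2)! : ℝ))) * x ^ k

/-- positive terms of `J''` -/
private noncomputable def bh (x : ℝ) (k : ℕ) : ℝ :=
  ((k : ℝ) + 1) * ((k : ℝ) + 2) * (2 / (((k + 2)! : ℝ) * ((k + 2 + 2)! : ℝ))) * x ^ k

private theorem bf_anti {x : ℝ} (h0 : 0 ≤ x) (h1 : x ≤ 12 / 5) : Antitone (bf x) := by
  refine antitone_nat_of_succ_le (fun n => ?_)
  have e : bf x (n + 1) = bf x n * (x / (((n : ℝ) + 1) * ((n : ℝ) + 3))) := by
    unfold bf
    rw [Nat.factorial_succ (n + 2), Nat.factorial_succ n, pow_succ]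
    push_cast
    have : (n ! : ℝ) ≠ 0 := by positivity
    have : ((n + 2)! : ℝ) ≠ 0 := by positivity
    field_simp
    ring
  have hp : 0 ≤ bf x n := by unfold bf; positivity
  rw [e]
  refine mul_le_of_le_one_right hp ?_
  rw [div_le_one (by positivity)]
  have : (0 : ℝ) ≤ n := by positivity
  nlinarith

private theorem bg_anti {x : ℝ} (h0 : 0 ≤ x) (h1 : x ≤ 12 / 5) : Antitone (bg x) := by
  refine antitone_nat_of_succ_le (fun n => ?_)
  have e : bg x (n + 1) = bg x n * (x / (((n : ℝ) + 1) * ((n : ℝ) + 4))) := by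
    unfold bg
    rw [Nat.factorial_succ (n + 1 + 2), Nat.factorial_succ (n + 1), pow_succ]
    push_cast
    have : ((n + 1)! : ℝ) ≠ 0 := by positivity
    have : ((n + 1 + 2)! : ℝ) ≠ 0 := by positivity
    field_simp
    ring
  have hp : 0 ≤ bg x n := by unfold bg; positivity
  rw [e]
  refine mul_le_of_le_one_right hp ?_
  rw [div_le_one (by positivity)]
  have : (0 : ℝ) ≤ n := by positivity
  nlinarith

private theorem bh_anti {x : ℝ} (h0 : 0 ≤ x) (h1 : x ≤ 12 / 5) : Antitone (bh x) := by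
  refine antitone_nat_of_succ_le (fun n => ?_)
  have e : bh x (n + 1) = bh x n * (x / (((n : ℝ) + 1) * ((n : ℝ) + 5))) := by
    unfold bh
    rw [show n + 1 + 2 = (n + 2) + 1 from rfl, show n + 2 + 1 + 2 = (n + 2 + 2) + 1 from rfl,
      Nat.factorial_succ (n + 2 + 2), Nat.factorial_succ (n + 2), pow_succ]
    push_cast
    have : ((n + 2)! : ℝ) ≠ 0 := by positivity
    have : ((n + 2 + 2)! : ℝ) ≠ 0 := by positivity
    field_simp
    ring
  have hp : 0 ≤ bh x n := by unfold bh; positivity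
  rw [e]
  refine mul_le_of_le_one_right hp ?_
  rw [div_le_one (by positivity)]
  have : (0 : ℝ) ≤ n := by positivity
  nlinarith

private theorem bf_tend (x : ℝ) :
    Tendsto (fun n => ∑ i ∈ range n, (-1) ^ i * bf x i) atTop (𝓝 (bj x)) := by
  have h0 : HasSum (fun k => bc k * x ^ k) (bj x) := (bps_summable bc_bd x).hasSum
  refine h0.tendsto_sum_nat.congr (fun n => Finset.sum_congr rfl (fun i _ => ?_))
  unfold bc bf
  ring

private theorem bg_tend (x : ℝ) :
    Tendsto (fun n => ∑ i ∈ range n, (-1) ^ i * bg x i) atTop (𝓝 (-bj1 x)) := by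
  have h0 : HasSum (fun k => bsh bc k * x ^ k) (bj1 x) := (bps_summable (bsh_bd bc_bd) x).hasSum
  refine h0.neg.tendsto_sum_nat.congr (fun n => Finset.sum_congr rfl (fun i _ => ?_))
  unfold bsh bc bg
  ring

private theorem bh_tend (x : ℝ) :
    Tendsto (fun n => ∑ i ∈ range n, (-1) ^ i * bh x i) atTop (𝓝 (bj2 x)) := by
  have h0 : HasSum (fun k => bsh (bsh bc) k * x ^ k) (bj2 x) :=
    (bps_summable (bsh_bd (bsh_bd bc_bd)) x).hasSum
  refine h0.tendsto_sum_nat.congr (fun n => Finset.sum_congr rfl (fun i _ => ?_))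
  unfold bsh bc bh
  push_cast
  ring

private theorem bj_pos {x : ℝ} (h0 : 0 ≤ x) (h1 : x ≤ 12 / 5) : 1 / 5 ≤ bj x := by
  have := (bf_anti h0 h1).alternating_series_le_tendsto (bf_tend x) 1
  simp only [Finset.sum_range_succ, Finset.sum_range_zero, bf] at this
  norm_num [Nat.factorial] at this
  linarith

private theorem bj1_nonpos {x : ℝ} (h0 : 0 ≤ x) (h1 : x ≤ 12 / 5) : bj1 x ≤ 0 := by
  have a1 := (bg_anti h0 h1).alternating_series_le_tendsto (bg_tend x) 1
  simp only [Finset.sum_range_succ, Finset.sum_range_zero, bg] at a1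
  norm_num [Nat.factorial] at a1
  linarith

private theorem bj12_nonpos {x : ℝ} (h0 : 0 ≤ x) (h1 : x ≤ 12 / 5) : bj1 x + bj2 x ≤ 0 := by
  have a1 := (bg_anti h0 h1).alternating_series_le_tendsto (bg_tend x) 1
  have a2 := (bh_anti h0 h1).tendsto_le_alternating_series (bh_tend x) 0
  simp only [Finset.sum_range_succ, Finset.sum_range_zero, bg, bh] at a1 a2
  norm_num [Nat.factorial] at a1 a2
  linarith

/-- `(x J)'` -/
private noncomputable def bD (x : ℝ) : ℝ := bj x + x * bj1 x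

private theorem bD_deriv (x : ℝ) : HasDerivAt bD (-(bj x + bj1 x)) x := by
  have h := (bj_deriv x).add ((hasDerivAt_id x).mul (bj1_deriv x))
  have e : bj1 x + (1 * bj1 x + id x * bj2 x) = -(bj x + bj1 x) := by
    have := bj_ode x
    simp only [id]
    linarith
  rw [e] at h
  exact h

private theorem bj_cont : Continuous bj :=
  continuous_iff_continuousAt.2 fun x => (bj_deriv x).continuousAt
private theorem bj1_cont : Continuous bj1 :=
  continuous_iff_continuousAt.2 fun x => (bj1_deriv x).continuousAt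
private theorem bD_cont : Continuous bD :=
  continuous_iff_continuousAt.2 fun x => (bD_deriv x).continuousAt

private theorem bj_anti : AntitoneOn bj (Icc 0 (12 / 5)) := by
  refine antitoneOn_of_deriv_nonpos (convex_Icc _ _) bj_cont.continuousOn
    (fun x _ => (bj_deriv x).differentiableAt.differentiableWithinAt) (fun x hx => ?_)
  rw [interior_Icc] at hx
  rw [(bj_deriv x).deriv]
  exact bj1_nonpos hx.1.le hx.2.le

private theorem bs_anti : AntitoneOn (fun x => bj x + bj1 x) (Icc 0 (12 / 5)) := by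
  have hd : ∀ x, HasDerivAt (fun x => bj x + bj1 x) (bj1 x + bj2 x) x := fun x =>
    (bj_deriv x).add (bj1_deriv x)
  refine antitoneOn_of_deriv_nonpos (convex_Icc _ _) (bj_cont.add bj1_cont).continuousOn
    (fun x _ => (hd x).differentiableAt.differentiableWithinAt) (fun x hx => ?_)
  rw [interior_Icc] at hx
  rw [(hd x).deriv]
  exact bj12_nonpos hx.1.le hx.2.le

private theorem binner_deriv (K s : ℝ) :
    HasDerivAt (fun t => bj (K * t) / bj K) (K * bj1 (K * s) / bj K) s := by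
  have h1 : HasDerivAt (fun t : ℝ => K * t) K s := by
    simpa using (hasDerivAt_id s).const_mul K
  have h2 := ((bj_deriv (K * s)).comp s h1).div_const (bj K)
  rw [mul_comm (bj1 (K * s)) K] at h2
  exact h2

end Aux

private theorem ec_step {g g' : ℝ → ℝ} (hd : ∀ s, HasDerivAt g (g' s) s)
    (h : ∀ s ∈ Icc (0 : ℝ) 1, g' s ≤ 0) (h1 : g 1 = 0) : ∀ s ∈ Icc (0 : ℝ) 1, 0 ≤ g s := by
  have hanti : AntitoneOn g (Icc 0 1) := by
    refine antitoneOn_of_deriv_nonpos (convex_Icc _ _)
      (fun t _ => (hd t).continuousAt.continuousWithinAt)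
      (fun t _ => (hd t).differentiableAt.differentiableWithinAt) (fun t ht => ?_)
    rw [interior_Icc] at ht
    rw [(hd t).deriv]
    exact h t ⟨ht.1.le, ht.2.le⟩
  intro s hs
  have h2 := hanti hs ⟨zero_le_one, le_rfl⟩ hs.2
  rw [h1] at h2
  exact h2

private theorem ec_abs {g g' : ℝ → ℝ} {e : ℝ} (hd : ∀ s, HasDerivAt g (g' s) s)
    (h : ∀ s ∈ Icc (0 : ℝ) 1, |g' s| ≤ e) (h1 : g 1 = 0) :
    ∀ s ∈ Icc (0 : ℝ) 1, |g s| ≤ e * (1 - s) := by
  have hl : ∀ s : ℝ, HasDerivAt (fun s : ℝ => e * (1 - s)) (-e) s := by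
    intro s
    have h2 := ((hasDerivAt_id s).const_sub 1).const_mul e
    exact h2.congr_deriv (by ring)
  have a1 := ec_step (g := fun s => e * (1 - s) - g s) (g' := fun s => -e - g' s)
    (fun s => (hl s).sub (hd s)) (fun s hs => by
      have h3 := (abs_le.1 (h s hs)).1
      show -e - g' s ≤ 0
      linarith) (by
      show e * (1 - 1) - g 1 = 0
      rw [h1]
      ring)
  have a2 := ec_step (g := fun s => e * (1 - s) + g s) (g' := fun s => -e + g' s)
    (fun s => (hl s).add (hd s)) (fun s hs => by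
      have h3 := (abs_le.1 (h s hs)).2
      show -e + g' s ≤ 0
      linarith) (by
      show e * (1 - 1) + g 1 = 0
      rw [h1]
      ring)
  intro s hs
  have b1 : 0 ≤ e * (1 - s) - g s := a1 s hs
  have b2 : 0 ≤ e * (1 - s) + g s := a2 s hs
  rw [abs_le]
  constructor <;> linarith

private theorem ec_abs2 {g g' g'' : ℝ → ℝ} {e : ℝ} (hd : ∀ s, HasDerivAt g (g' s) s)
    (hd' : ∀ s, HasDerivAt g' (g'' s) s) (h : ∀ s ∈ Icc (0 : ℝ) 1, |g'' s| ≤ e) (h1 : g 1 = 0)
    (h2 : g' 1 = 0) : ∀ s ∈ Icc (0 : ℝ) 1, |g s| ≤ e / 2 * (1 - s) ^ 2 := by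
  have hb := ec_abs hd' h h2
  have hl : ∀ s : ℝ, HasDerivAt (fun s : ℝ => e / 2 * (1 - s) ^ 2) (-(e * (1 - s))) s := by
    intro s
    have h2 := (((hasDerivAt_id s).const_sub 1).pow 2).const_mul (e / 2)
    exact h2.congr_deriv (by
      simp only [id]
      norm_num
      ring)
  have a1 := ec_step (g := fun s => e / 2 * (1 - s) ^ 2 - g s)
    (g' := fun s => -(e * (1 - s)) - g' s) (fun s => (hl s).sub (hd s)) (fun s hs => by
      have h3 := (abs_le.1 (hb s hs)).1
      show -(e * (1 - s)) - g' s ≤ 0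
      linarith) (by
      show e / 2 * (1 - 1) ^ 2 - g 1 = 0
      rw [h1]
      ring)
  have a2 := ec_step (g := fun s => e / 2 * (1 - s) ^ 2 + g s)
    (g' := fun s => -(e * (1 - s)) + g' s) (fun s => (hl s).add (hd s)) (fun s hs => by
      have h3 := (abs_le.1 (hb s hs)).2
      show -(e * (1 - s)) + g' s ≤ 0
      linarith) (by
      show e / 2 * (1 - 1) ^ 2 + g 1 = 0
      rw [h1]
      ring)
  intro s hs
  have b1 : 0 ≤ e / 2 * (1 - s) ^ 2 - g s := a1 s hs
  have b2 : 0 ≤ e / 2 * (1 - s) ^ 2 + g s := a2 s hs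
  rw [abs_le]
  constructor <;> linarith

private theorem ec_poly (a0 a1 a2 a3 a4 a5 a6 a7 s : ℝ) :
    HasDerivAt (fun s => a0 + a1 * s + a2 * s ^ 2 + a3 * s ^ 3 + a4 * s ^ 4 + a5 * s ^ 5 +
      a6 * s ^ 6 + a7 * s ^ 7)
      (a1 + 2 * a2 * s + 3 * a3 * s ^ 2 + 4 * a4 * s ^ 3 + 5 * a5 * s ^ 4 + 6 * a6 * s ^ 5 +
      7 * a7 * s ^ 6) s := by
  have h := ((((((((hasDerivAt_const s a0).add ((hasDerivAt_id s).const_mul a1)).add
    ((hasDerivAt_pow 2 s).const_mul a2)).add ((hasDerivAt_pow 3 s).const_mul a3)).add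
    ((hasDerivAt_pow 4 s).const_mul a4)).add ((hasDerivAt_pow 5 s).const_mul a5)).add
    ((hasDerivAt_pow 6 s).const_mul a6)).add ((hasDerivAt_pow 7 s).const_mul a7))
  exact h.congr_deriv (by
    norm_num
    ring)

private theorem ec_sum_pos {x : ℝ} (h0 : 0 ≤ x) (h1 : x ≤ 12 / 5) : 0 ≤ bj x + bj1 x := by
  have k0 : (0 : ℝ) ≤ 12 / 5 := by norm_num
  have k1 : (12 / 5 : ℝ) ≤ 12 / 5 := le_rfl
  have a1 := (bf_anti k0 k1).alternating_series_le_tendsto (bf_tend _) 2
  have a2 := (bg_anti k0 k1).tendsto_le_alternating_series (bg_tend _) 1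
  simp only [Finset.sum_range_succ, Finset.sum_range_zero, bf, bg] at a1 a2
  norm_num [Nat.factorial] at a1 a2
  have h2 : bj (12 / 5) + bj1 (12 / 5) ≤ bj x + bj1 x := bs_anti ⟨h0, h1⟩ ⟨k0, le_rfl⟩ h1
  linarith

private theorem ec_D_anti : AntitoneOn bD (Icc 0 (12 / 5)) := by
  refine antitoneOn_of_deriv_nonpos (convex_Icc _ _) bD_cont.continuousOn
    (fun x _ => (bD_deriv x).differentiableAt.differentiableWithinAt) (fun x hx => ?_)
  rw [interior_Icc] at hx
  rw [(bD_deriv x).deriv]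
  have := ec_sum_pos hx.1.le hx.2.le
  linarith

private theorem ec_lo : 0 < bD (233209 / 100000) := by
  have h0 : (0 : ℝ) ≤ 233209 / 100000 := by norm_num
  have h1 : (233209 / 100000 : ℝ) ≤ 12 / 5 := by norm_num
  have a1 := (bf_anti h0 h1).alternating_series_le_tendsto (bf_tend _) 5
  have a2 := (bg_anti h0 h1).tendsto_le_alternating_series (bg_tend _) 4
  simp only [Finset.sum_range_succ, Finset.sum_range_zero, bf, bg] at a1 a2
  norm_num [Nat.factorial] at a1 a2
  unfold bD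
  linarith

private theorem ec_hi : bD (583023 / 250000) < 0 := by
  have h0 : (0 : ℝ) ≤ 583023 / 250000 := by norm_num
  have h1 : (583023 / 250000 : ℝ) ≤ 12 / 5 := by norm_num
  have a1 := (bf_anti h0 h1).tendsto_le_alternating_series (bf_tend _) 4
  have a2 := (bg_anti h0 h1).alternating_series_le_tendsto (bg_tend _) 4
  simp only [Finset.sum_range_succ, Finset.sum_range_zero, bf, bg] at a1 a2
  norm_num [Nat.factorial] at a1 a2
  unfold bD
  linarith

private theorem ec_glo : 260763 / 625000 ≤ bj (583023 / 250000) := by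
  have h0 : (0 : ℝ) ≤ 583023 / 250000 := by norm_num
  have h1 : (583023 / 250000 : ℝ) ≤ 12 / 5 := by norm_num
  have a1 := (bf_anti h0 h1).alternating_series_le_tendsto (bf_tend _) 4
  simp only [Finset.sum_range_succ, Finset.sum_range_zero, bf] at a1
  norm_num [Nat.factorial] at a1
  linarith

private theorem ec_ghi : bj (233209 / 100000) ≤ 1043053 / 2500000 := by
  have h0 : (0 : ℝ) ≤ 233209 / 100000 := by norm_num
  have h1 : (233209 / 100000 : ℝ) ≤ 12 / 5 := by norm_num
  have a1 := (bf_anti h0 h1).tendsto_le_alternating_series (bf_tend _) 4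
  simp only [Finset.sum_range_succ, Finset.sum_range_zero, bf] at a1
  norm_num [Nat.factorial] at a1
  linarith

private theorem ec_c {c : ℝ} (h0 : 93 / 40 < c) (h1 : c < 467 / 200) (hc : bD c = 0) :
    233209 / 100000 < c ∧ c < 583023 / 250000 ∧ 260763 / 625000 ≤ bj c ∧ bj c ≤ 1043053 / 2500000 := by
  have hcm : c ∈ Icc (0 : ℝ) (12 / 5) := ⟨by linarith, by linarith⟩
  have m1 : (233209 / 100000 : ℝ) ∈ Icc (0 : ℝ) (12 / 5) := ⟨by norm_num, by norm_num⟩
  have m2 : (583023 / 250000 : ℝ) ∈ Icc (0 : ℝ) (12 / 5) := ⟨by norm_num, by norm_num⟩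
  have e1 : 233209 / 100000 < c := by
    by_contra h
    have h2 := ec_D_anti hcm m1 (not_lt.1 h)
    have h3 := ec_lo
    linarith
  have e2 : c < 583023 / 250000 := by
    by_contra h
    have h2 := ec_D_anti m2 hcm (not_lt.1 h)
    have h3 := ec_hi
    linarith
  exact ⟨e1, e2, ec_glo.trans (bj_anti hcm m2 e2.le), (bj_anti m1 hcm e1.le).trans ec_ghi⟩

private theorem ec_A {c : ℝ} (h1 : 233209 / 100000 < c) (h2 : c < 583023 / 250000)
    (h3 : 260763 / 625000 ≤ bj c) (h4 : bj c ≤ 1043053 / 2500000) (s : ℝ) (hs : s ∈ Icc (0 : ℝ) 1) :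
    |c * (bj2 (c * s) * c) / bj c - (108628419 / 100000000 - 50666267 / 100000000 * s + 38463 / 390625 * s ^ 2 -
      273369 / 25000000 * s ^ 3 + 7969 / 10000000 * s ^ 4 - 413 / 10000000 * s ^ 5)| ≤ 1 / 100000 := by
  have hg : 0 < bj c := by linarith
  have hc0 : 0 ≤ c := by linarith
  have hx0 : 0 ≤ c * s := mul_nonneg hc0 hs.1
  have hx1 : c * s ≤ 12 / 5 := (mul_le_of_le_one_right hc0 hs.2).trans (by linarith)
  have a1 := (bh_anti hx0 hx1).alternating_series_le_tendsto (bh_tend _) 3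
  have a2 := (bh_anti hx0 hx1).tendsto_le_alternating_series (bh_tend _) 3
  simp only [Finset.sum_range_succ, Finset.sum_range_zero, bh] at a1 a2
  norm_num [Nat.factorial] at a1 a2
  have t2a : (679830471 / 125000000 : ℝ) ≤ c ^ 2 := by
    have h := pow_le_pow_left₀ (by norm_num : (0 : ℝ) ≤ 233209 / 100000) h1.le 2
    refine le_trans ?_ h
    norm_num
  have t2b : c ^ 2 ≤ 5438653097 / 1000000000 := by
    have h := pow_le_pow_left₀ hc0 h2.le 2
    refine h.trans ?_
    norm_num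
  have t3a : (2536681349 / 200000000 : ℝ) ≤ c ^ 3 := by
    have h := pow_le_pow_left₀ (by norm_num : (0 : ℝ) ≤ 233209 / 100000) h1.le 3
    refine le_trans ?_ h
    norm_num
  have t3b : c ^ 3 ≤ 6341719689 / 500000000 := by
    have h := pow_le_pow_left₀ hc0 h2.le 3
    refine h.trans ?_
    norm_num
  have t4a : (7394711509 / 250000000 : ℝ) ≤ c ^ 4 := by
    have h := pow_le_pow_left₀ (by norm_num : (0 : ℝ) ≤ 233209 / 100000) h1.le 4
    refine le_trans ?_ h
    norm_num
  have t4b : c ^ 4 ≤ 1848684219 / 62500000 := by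
    have h := pow_le_pow_left₀ hc0 h2.le 4
    refine h.trans ?_
    norm_num
  have t5a : (17245132763 / 250000000 : ℝ) ≤ c ^ 5 := by
    have h := pow_le_pow_left₀ (by norm_num : (0 : ℝ) ≤ 233209 / 100000) h1.le 5
    refine le_trans ?_ h
    norm_num
  have t5b : c ^ 5 ≤ 34490413421 / 500000000 := by
    have h := pow_le_pow_left₀ hc0 h2.le 5
    refine h.trans ?_
    norm_num
  have t6a : (80434403331 / 500000000 : ℝ) ≤ c ^ 6 := by
    have h := pow_le_pow_left₀ (by norm_num : (0 : ℝ) ≤ 233209 / 100000) h1.le 6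
    refine le_trans ?_ h
    norm_num
  have t6b : c ^ 6 ≤ 1256794019 / 7812500 := by
    have h := pow_le_pow_left₀ hc0 h2.le 6
    refine h.trans ?_
    norm_num
  have t7a : (37516053533 / 100000000 : ℝ) ≤ c ^ 7 := by
    have h := pow_le_pow_left₀ (by norm_num : (0 : ℝ) ≤ 233209 / 100000) h1.le 7
    refine le_trans ?_ h
    norm_num
  have t7b : c ^ 7 ≤ 30013023 / 80000 := by
    have h := pow_le_pow_left₀ hc0 h2.le 7
    refine h.trans ?_
    norm_num
  have t8a : (437454066419 / 500000000 : ℝ) ≤ c ^ 8 := by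
    have h := pow_le_pow_left₀ (by norm_num : (0 : ℝ) ≤ 233209 / 100000) h1.le 8
    refine le_trans ?_ h
    norm_num
  have t8b : c ^ 8 ≤ 437457067713 / 500000000 := by
    have h := pow_le_pow_left₀ hc0 h2.le 8
    refine h.trans ?_
    norm_num
  have p0 : ∀ k : ℕ, 0 ≤ s ^ k := fun k => pow_nonneg hs.1 k
  have p1 : ∀ k : ℕ, s ^ k ≤ 1 := fun k => pow_le_one₀ hs.1 hs.2
  have q1 := p1 1
  have q2 := p1 2
  have q3 := p1 3
  have q4 := p1 4
  have q5 := p1 5
  have q6 := p1 6

  have u1a := mul_le_mul_of_nonneg_right t3a (p0 1)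
  have u1b := mul_le_mul_of_nonneg_right t3b (p0 1)

  have u2a := mul_le_mul_of_nonneg_right t4a (p0 2)
  have u2b := mul_le_mul_of_nonneg_right t4b (p0 2)

  have u3a := mul_le_mul_of_nonneg_right t5a (p0 3)
  have u3b := mul_le_mul_of_nonneg_right t5b (p0 3)

  have u4a := mul_le_mul_of_nonneg_right t6a (p0 4)
  have u4b := mul_le_mul_of_nonneg_right t6b (p0 4)

  have u5a := mul_le_mul_of_nonneg_right t7a (p0 5)
  have u5b := mul_le_mul_of_nonneg_right t7b (p0 5)

  have u6a := mul_le_mul_of_nonneg_right t8a (p0 6)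
  have u6b := mul_le_mul_of_nonneg_right t8b (p0 6)

  have v1a := mul_le_mul_of_nonneg_right h3 (p0 1)
  have v1b := mul_le_mul_of_nonneg_right h4 (p0 1)

  have v2a := mul_le_mul_of_nonneg_right h3 (p0 2)
  have v2b := mul_le_mul_of_nonneg_right h4 (p0 2)

  have v3a := mul_le_mul_of_nonneg_right h3 (p0 3)
  have v3b := mul_le_mul_of_nonneg_right h4 (p0 3)

  have v4a := mul_le_mul_of_nonneg_right h3 (p0 4)
  have v4b := mul_le_mul_of_nonneg_right h4 (p0 4)

  have v5a := mul_le_mul_of_nonneg_right h3 (p0 5)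
  have v5b := mul_le_mul_of_nonneg_right h4 (p0 5)

  have b1 := mul_le_mul_of_nonneg_left a1 (sq_nonneg c)
  have b2 := mul_le_mul_of_nonneg_left a2 (sq_nonneg c)
  have z1 := p0 1
  have z2 := p0 2
  have z3 := p0 3
  have z4 := p0 4
  have z5 := p0 5
  have z6 := p0 6
  rw [pow_one] at *
  rw [abs_le]
  constructor
  · rw [neg_le_sub_iff_le_add, ← sub_le_iff_le_add, le_div_iff₀ hg]
    linarith
  · rw [sub_le_iff_le_add, div_le_iff₀ hg]
    linarith

private theorem ec_B {c : ℝ} (h1 : 233209 / 100000 < c) (h2 : c < 583023 / 250000)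
    (h3 : 260763 / 625000 ≤ bj c) (h4 : bj c ≤ 1043053 / 2500000) (s : ℝ) (hs : s ∈ Icc (0 : ℝ) 1) :
    |2 * (-(bj (c * s) + bj1 (c * s)) * c) / bj c - (-(372638729 / 50000000) + 325885257 / 50000000 * s - 20266507 / 10000000 * s ^ 2 +
      25642 / 78125 * s ^ 3 - 820107 / 25000000 * s ^ 4 + 55783 / 25000000 * s ^ 5 -
      11013 / 100000000 * s ^ 6)| ≤ 3 / 100000 := by
  have hg : 0 < bj c := by linarith
  have hc0 : 0 ≤ c := by linarith
  have hx0 : 0 ≤ c * s := mul_nonneg hc0 hs.1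
  have hx1 : c * s ≤ 12 / 5 := (mul_le_of_le_one_right hc0 hs.2).trans (by linarith)
  have a1 := (bf_anti hx0 hx1).alternating_series_le_tendsto (bf_tend _) 4
  have a2 := (bf_anti hx0 hx1).tendsto_le_alternating_series (bf_tend _) 4
  have a3 := (bg_anti hx0 hx1).alternating_series_le_tendsto (bg_tend _) 4
  have a4 := (bg_anti hx0 hx1).tendsto_le_alternating_series (bg_tend _) 3
  simp only [Finset.sum_range_succ, Finset.sum_range_zero, bf, bg] at a1 a2 a3 a4
  norm_num [Nat.factorial] at a1 a2 a3 a4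
  have t2a : (679830471 / 125000000 : ℝ) ≤ c ^ 2 := by
    have h := pow_le_pow_left₀ (by norm_num : (0 : ℝ) ≤ 233209 / 100000) h1.le 2
    refine le_trans ?_ h
    norm_num
  have t2b : c ^ 2 ≤ 5438653097 / 1000000000 := by
    have h := pow_le_pow_left₀ hc0 h2.le 2
    refine h.trans ?_
    norm_num
  have t3a : (2536681349 / 200000000 : ℝ) ≤ c ^ 3 := by
    have h := pow_le_pow_left₀ (by norm_num : (0 : ℝ) ≤ 233209 / 100000) h1.le 3
    refine le_trans ?_ h
    norm_num
  have t3b : c ^ 3 ≤ 6341719689 / 500000000 := by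
    have h := pow_le_pow_left₀ hc0 h2.le 3
    refine h.trans ?_
    norm_num
  have t4a : (7394711509 / 250000000 : ℝ) ≤ c ^ 4 := by
    have h := pow_le_pow_left₀ (by norm_num : (0 : ℝ) ≤ 233209 / 100000) h1.le 4
    refine le_trans ?_ h
    norm_num
  have t4b : c ^ 4 ≤ 1848684219 / 62500000 := by
    have h := pow_le_pow_left₀ hc0 h2.le 4
    refine h.trans ?_
    norm_num
  have t5a : (17245132763 / 250000000 : ℝ) ≤ c ^ 5 := by
    have h := pow_le_pow_left₀ (by norm_num : (0 : ℝ) ≤ 233209 / 100000) h1.le 5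
    refine le_trans ?_ h
    norm_num
  have t5b : c ^ 5 ≤ 34490413421 / 500000000 := by
    have h := pow_le_pow_left₀ hc0 h2.le 5
    refine h.trans ?_
    norm_num
  have t6a : (80434403331 / 500000000 : ℝ) ≤ c ^ 6 := by
    have h := pow_le_pow_left₀ (by norm_num : (0 : ℝ) ≤ 233209 / 100000) h1.le 6
    refine le_trans ?_ h
    norm_num
  have t6b : c ^ 6 ≤ 1256794019 / 7812500 := by
    have h := pow_le_pow_left₀ hc0 h2.le 6
    refine h.trans ?_
    norm_num
  have t7a : (37516053533 / 100000000 : ℝ) ≤ c ^ 7 := by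
    have h := pow_le_pow_left₀ (by norm_num : (0 : ℝ) ≤ 233209 / 100000) h1.le 7
    refine le_trans ?_ h
    norm_num
  have t7b : c ^ 7 ≤ 30013023 / 80000 := by
    have h := pow_le_pow_left₀ hc0 h2.le 7
    refine h.trans ?_
    norm_num
  have t8a : (437454066419 / 500000000 : ℝ) ≤ c ^ 8 := by
    have h := pow_le_pow_left₀ (by norm_num : (0 : ℝ) ≤ 233209 / 100000) h1.le 8
    refine le_trans ?_ h
    norm_num
  have t8b : c ^ 8 ≤ 437457067713 / 500000000 := by
    have h := pow_le_pow_left₀ hc0 h2.le 8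
    refine h.trans ?_
    norm_num
  have t9a : (2040364507511 / 1000000000 : ℝ) ≤ c ^ 9 := by
    have h := pow_le_pow_left₀ (by norm_num : (0 : ℝ) ≤ 233209 / 100000) h1.le 9
    refine le_trans ?_ h
    norm_num
  have t9b : c ^ 9 ≤ 2040380255913 / 1000000000 := by
    have h := pow_le_pow_left₀ hc0 h2.le 9
    refine h.trans ?_
    norm_num
  have p0 : ∀ k : ℕ, 0 ≤ s ^ k := fun k => pow_nonneg hs.1 k
  have p1 : ∀ k : ℕ, s ^ k ≤ 1 := fun k => pow_le_one₀ hs.1 hs.2

  have q1 := p1 1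
  have z1 := p0 1
  have u1a := mul_le_mul_of_nonneg_right t2a (p0 1)
  have u1b := mul_le_mul_of_nonneg_right t2b (p0 1)

  have q2 := p1 2
  have z2 := p0 2
  have u2a := mul_le_mul_of_nonneg_right t3a (p0 2)
  have u2b := mul_le_mul_of_nonneg_right t3b (p0 2)

  have q3 := p1 3
  have z3 := p0 3
  have u3a := mul_le_mul_of_nonneg_right t4a (p0 3)
  have u3b := mul_le_mul_of_nonneg_right t4b (p0 3)

  have q4 := p1 4
  have z4 := p0 4
  have u4a := mul_le_mul_of_nonneg_right t5a (p0 4)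
  have u4b := mul_le_mul_of_nonneg_right t5b (p0 4)

  have q5 := p1 5
  have z5 := p0 5
  have u5a := mul_le_mul_of_nonneg_right t6a (p0 5)
  have u5b := mul_le_mul_of_nonneg_right t6b (p0 5)

  have q6 := p1 6
  have z6 := p0 6
  have u6a := mul_le_mul_of_nonneg_right t7a (p0 6)
  have u6b := mul_le_mul_of_nonneg_right t7b (p0 6)

  have q7 := p1 7
  have z7 := p0 7
  have u7a := mul_le_mul_of_nonneg_right t8a (p0 7)
  have u7b := mul_le_mul_of_nonneg_right t8b (p0 7)

  have q8 := p1 8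
  have z8 := p0 8
  have u8a := mul_le_mul_of_nonneg_right t9a (p0 8)
  have u8b := mul_le_mul_of_nonneg_right t9b (p0 8)

  have v1a := mul_le_mul_of_nonneg_right h3 (p0 1)
  have v1b := mul_le_mul_of_nonneg_right h4 (p0 1)

  have v2a := mul_le_mul_of_nonneg_right h3 (p0 2)
  have v2b := mul_le_mul_of_nonneg_right h4 (p0 2)

  have v3a := mul_le_mul_of_nonneg_right h3 (p0 3)
  have v3b := mul_le_mul_of_nonneg_right h4 (p0 3)

  have v4a := mul_le_mul_of_nonneg_right h3 (p0 4)
  have v4b := mul_le_mul_of_nonneg_right h4 (p0 4)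

  have v5a := mul_le_mul_of_nonneg_right h3 (p0 5)
  have v5b := mul_le_mul_of_nonneg_right h4 (p0 5)

  have v6a := mul_le_mul_of_nonneg_right h3 (p0 6)
  have v6b := mul_le_mul_of_nonneg_right h4 (p0 6)

  have b1 := mul_le_mul_of_nonneg_left a1 hc0
  have b2 := mul_le_mul_of_nonneg_left a2 hc0
  have b3 := mul_le_mul_of_nonneg_left a3 hc0
  have b4 := mul_le_mul_of_nonneg_left a4 hc0
  rw [pow_one] at *
  rw [abs_le]
  constructor
  · rw [neg_le_sub_iff_le_add, ← sub_le_iff_le_add, le_div_iff₀ hg]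
    linarith
  · rw [sub_le_iff_le_add, div_le_iff₀ hg]
    linarith

private theorem ec_R (u v : ℝ) (hu : 0 ≤ u) (hv : 0 ≤ v) (huv : v = 1 - u) :
    |-(2309 / 50000000) + 175529 / 600000000 * u - 39853 / 60000000 * u ^ 2 +
      51001 / 125000000 * u ^ 3 + 123 / 6250000 * u ^ 4 + 59 / 60000000 * u ^ 5| ≤ 19 / 200000 := by
  rw [abs_le]
  constructor
  · have e : (-(2309 / 50000000) + 175529 / 600000000 * u - 39853 / 60000000 * u ^ 2 +
      51001 / 125000000 * u ^ 3 + 123 / 6250000 * u ^ 4 + 59 / 60000000 * u ^ 5) + 19 / 200000 =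
      2441 / 50000000 * v ^ 5 + 321989 / 600000000 * u * v ^ 4 +
      298253 / 300000000 * u ^ 2 * v ^ 3 + 20589 / 31250000 * u ^ 3 * v ^ 2 +
      386009 / 1500000000 * u ^ 4 * v + 105823 / 1000000000 * u ^ 5 := by
      rw [huv]
      ring
    have p : 0 ≤ 2441 / 50000000 * v ^ 5 + 321989 / 600000000 * u * v ^ 4 +
      298253 / 300000000 * u ^ 2 * v ^ 3 + 20589 / 31250000 * u ^ 3 * v ^ 2 +
      386009 / 1500000000 * u ^ 4 * v + 105823 / 1000000000 * u ^ 5 := by positivity
    linarith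
  · have e : 19 / 200000 - (-(2309 / 50000000) + 175529 / 600000000 * u - 39853 / 60000000 * u ^ 2 +
      51001 / 125000000 * u ^ 3 + 123 / 6250000 * u ^ 4 + 59 / 60000000 * u ^ 5) =
      7059 / 50000000 * v ^ 5 + 248011 / 600000000 * u * v ^ 4 +
      271747 / 300000000 * u ^ 2 * v ^ 3 + 19393 / 15625000 * u ^ 3 * v ^ 2 +
      1038991 / 1500000000 * u ^ 4 * v + 84177 / 1000000000 * u ^ 5 := by
      rw [huv]
      ring
    have p : 0 ≤ 7059 / 50000000 * v ^ 5 + 248011 / 600000000 * u * v ^ 4 +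
      271747 / 300000000 * u ^ 2 * v ^ 3 + 19393 / 15625000 * u ^ 3 * v ^ 2 +
      1038991 / 1500000000 * u ^ 4 * v + 84177 / 1000000000 * u ^ 5 := by positivity
    linarith

private theorem ec_D (u v : ℝ) (hu : 0 ≤ u) (hv : 0 ≤ v) (huv : v = 1 - u) :
    |8563 / 100000000 - 66619 / 50000000 * u + 645411 / 100000000 * u ^ 2 -
      1012223 / 100000000 * u ^ 3 + 2329963 / 500000000 * u ^ 4 + 78527 / 300000000 * u ^ 5 +
      11013 / 700000000 * u ^ 6| ≤ 17 / 100000 := by
  rw [abs_le]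
  constructor
  · have e : (8563 / 100000000 - 66619 / 50000000 * u + 645411 / 100000000 * u ^ 2 -
      1012223 / 100000000 * u ^ 3 + 2329963 / 500000000 * u ^ 4 + 78527 / 300000000 * u ^ 5 +
      11013 / 700000000 * u ^ 6) + 17 / 100000 =
      25563 / 100000000 * v ^ 7 + 45703 / 100000000 * u * v ^ 6 +
      191403 / 50000000 * u ^ 2 * v ^ 5 + 1110967 / 100000000 * u ^ 3 * v ^ 4 +
      2752889 / 250000000 * u ^ 4 * v ^ 3 + 5147677 / 1500000000 * u ^ 5 * v ^ 2 +
      502867 / 5250000000 * u ^ 6 * v + 63179 / 328125000 * u ^ 7 := by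
      rw [huv]
      ring
    have p : 0 ≤ 25563 / 100000000 * v ^ 7 + 45703 / 100000000 * u * v ^ 6 +
      191403 / 50000000 * u ^ 2 * v ^ 5 + 1110967 / 100000000 * u ^ 3 * v ^ 4 +
      2752889 / 250000000 * u ^ 4 * v ^ 3 + 5147677 / 1500000000 * u ^ 5 * v ^ 2 +
      502867 / 5250000000 * u ^ 6 * v + 63179 / 328125000 * u ^ 7 := by positivity
    linarith
  · have e : 17 / 100000 - (8563 / 100000000 - 66619 / 50000000 * u + 645411 / 100000000 * u ^ 2 -
      1012223 / 100000000 * u ^ 3 + 2329963 / 500000000 * u ^ 4 + 78527 / 300000000 * u ^ 5 +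
      11013 / 700000000 * u ^ 6) =
      8437 / 100000000 * v ^ 7 + 192297 / 100000000 * u * v ^ 6 +
      165597 / 50000000 * u ^ 2 * v ^ 5 + 79033 / 100000000 * u ^ 3 * v ^ 4 +
      222111 / 250000000 * u ^ 4 * v ^ 3 + 5562323 / 1500000000 * u ^ 5 * v ^ 2 +
      11992133 / 5250000000 * u ^ 6 * v + 96767 / 656250000 * u ^ 7 := by
      rw [huv]
      ring
    have p : 0 ≤ 8437 / 100000000 * v ^ 7 + 192297 / 100000000 * u * v ^ 6 +
      165597 / 50000000 * u ^ 2 * v ^ 5 + 79033 / 100000000 * u ^ 3 * v ^ 4 +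
      222111 / 250000000 * u ^ 4 * v ^ 3 + 5562323 / 1500000000 * u ^ 5 * v ^ 2 +
      11992133 / 5250000000 * u ^ 6 * v + 96767 / 656250000 * u ^ 7 := by positivity
    linarith

private theorem ec_uniq {c : ℝ} {χ ω : ℝ → ℝ} (h2 : Prof2 (4 * c) χ ω) :
    bD c = 0 ∧ (∀ s ∈ Icc (0 : ℝ) 1, χ s = bj (c * s) / bj c) ∧
      ∀ s ∈ Icc (0 : ℝ) 1, ω s = c * bj1 (c * s) / bj c := by
  have l1 := h2.L_lo
  have l2 := h2.L_hi
  have hc0 : 0 < c := by linarith
  have hc1 : c ≤ 12 / 5 := by linarith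
  have hpos : ∀ s ∈ Icc (0 : ℝ) 1, 0 < bj (c * s) := by
    intro s hs
    have h3 := bj_pos (mul_nonneg hc0.le hs.1) ((mul_le_of_le_one_right hc0.le hs.2).trans hc1)
    linarith
  have hlin : ∀ s : ℝ, HasDerivAt (fun t : ℝ => c * t) c s := by
    intro s
    simpa using (hasDerivAt_id s).const_mul c
  have hf : ∀ s : ℝ, HasDerivAt (fun t => bj (c * t)) (bj1 (c * s) * c) s := fun s =>
    (bj_deriv (c * s)).comp s (hlin s)
  have hf1 : ∀ s : ℝ, HasDerivAt (fun t => bj1 (c * t)) (bj2 (c * s) * c) s := fun s =>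
    (bj1_deriv (c * s)).comp s (hlin s)
  have hW : ∀ s : ℝ, s < 1 → HasDerivAt (fun t => (t ^ 3 * ω t) * bj (c * t) -
      χ t * (t ^ 3 * (c * bj1 (c * t)))) 0 s := by
    intro s hs
    have d1 := (h2.ode s hs).mul (hf s)
    have d2 := (h2.deriv s).mul ((hasDerivAt_pow 3 s).mul ((hf1 s).const_mul c))
    have d3 := d1.sub d2
    refine d3.congr_deriv ?_
    have ho := bj_ode (c * s)
    have ho' : bj (c * s) = -(c * s * bj2 (c * s) + 3 * bj1 (c * s)) := by linarith
    rw [ho']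
    simp only [Pi.mul_apply]
    push_cast
    ring
  have hωc := h2.cont
  have hχc : Continuous χ := continuous_iff_continuousAt.2 fun x => (h2.deriv x).continuousAt
  have hfc : Continuous (fun t => bj (c * t)) := bj_cont.comp (continuous_const.mul continuous_id)
  have hf1c : Continuous (fun t => bj1 (c * t)) := bj1_cont.comp (continuous_const.mul continuous_id)
  have hWc : Continuous (fun t => (t ^ 3 * ω t) * bj (c * t) -
      χ t * (t ^ 3 * (c * bj1 (c * t)))) :=
    (((continuous_id.pow 3).mul hωc).mul hfc).sub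
      (hχc.mul ((continuous_id.pow 3).mul (continuous_const.mul hf1c)))
  have hW0 : ∀ s ∈ Icc (0 : ℝ) 1, (s ^ 3 * ω s) * bj (c * s) -
      χ s * (s ^ 3 * (c * bj1 (c * s))) = 0 := by
    intro s hs
    have h3 := constant_of_has_deriv_right_zero (a := 0) (b := 1) hWc.continuousOn
      (fun x hx => (hW x hx.2).hasDerivWithinAt) s hs
    rw [h3]
    ring
  have hr : ∀ s ∈ Ioc (0 : ℝ) 1, ω s * bj (c * s) = χ s * (c * bj1 (c * s)) := by
    intro s hs
    have h3 := hW0 s ⟨hs.1.le, hs.2⟩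
    have h4 : s ^ 3 * (ω s * bj (c * s) - χ s * (c * bj1 (c * s))) = 0 := by
      rw [← h3]
      ring
    rcases mul_eq_zero.1 h4 with h5 | h5
    · exact absurd h5 (pow_ne_zero _ hs.1.ne')
    · linarith
  have hr' : ∀ s ∈ Icc (0 : ℝ) 1, ω s * bj (c * s) = χ s * (c * bj1 (c * s)) := by
    have hcl : IsClosed {s : ℝ | ω s * bj (c * s) = χ s * (c * bj1 (c * s))} :=
      isClosed_eq (hωc.mul hfc) (hχc.mul (continuous_const.mul hf1c))
    have hsub : closure (Ioc (0 : ℝ) 1) ⊆ {s : ℝ | ω s * bj (c * s) = χ s * (c * bj1 (c * s))} :=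
      closure_minimal hr hcl
    rw [closure_Ioc (by norm_num : (0 : ℝ) ≠ 1)] at hsub
    exact hsub
  have hq : ∀ s ∈ Ico (0 : ℝ) 1, HasDerivWithinAt (fun t => χ t / bj (c * t)) 0 (Ici s) s := by
    intro s hs
    have hs' : s ∈ Icc (0 : ℝ) 1 := ⟨hs.1, hs.2.le⟩
    have h3 := (h2.deriv s).div (hf s) (hpos s hs').ne'
    refine (h3.congr_deriv ?_).hasDerivWithinAt
    rw [hr' s hs']
    ring
  have hqc : ContinuousOn (fun t => χ t / bj (c * t)) (Icc 0 1) :=
    hχc.continuousOn.div hfc.continuousOn (fun s hs => (hpos s hs).ne')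
  have hconst := constant_of_has_deriv_right_zero hqc hq
  have hone : χ 1 = 1 := by
    rw [h2.out 1 le_rfl]
    norm_num
  have hχ : ∀ s ∈ Icc (0 : ℝ) 1, χ s = bj (c * s) / bj c := by
    intro s hs
    have h3 := hconst s hs
    have h4 := hconst 1 ⟨zero_le_one, le_rfl⟩
    have h5 : χ s / bj (c * s) = 1 / bj c := by
      have h6 : χ s / bj (c * s) = χ 1 / bj (c * 1) := h3.trans h4.symm
      rw [h6, hone, mul_one]
    rw [div_eq_iff (hpos s hs).ne'] at h5
    rw [h5]
    ring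
  have hω : ∀ s ∈ Icc (0 : ℝ) 1, ω s = c * bj1 (c * s) / bj c := by
    intro s hs
    have h3 := hr' s hs
    have h5 := (hpos s hs).ne'
    have h6 : ω s = χ s * (c * bj1 (c * s)) / bj (c * s) := by
      rw [eq_div_iff h5]
      exact h3
    rw [h6, hχ s hs]
    field_simp
  refine ⟨?_, hχ, hω⟩
  have h3 := hω 1 ⟨zero_le_one, le_rfl⟩
  have h4 : ω 1 = -1 := by
    rw [h2.outd 1 le_rfl]
    norm_num
  have h5 := hpos 1 ⟨zero_le_one, le_rfl⟩
  rw [mul_one] at h3 h5
  rw [h4, eq_div_iff h5.ne'] at h3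
  unfold bD
  linarith

theorem enc_chi (h2 : Prof2 L χ ω) : 93283 / 10000 < L ∧ L < 93284 / 10000 ∧
    (∀ s ∈ Icc (0 : ℝ) 1, |χ s - (1 + (1 - s) + (1 - s) ^ 2 *
      (334 / 1000 + 563 / 10000 * (1 - s) + 65 / 10000 * (1 - s) ^ 2))| ≤ 1 / 10000 * (1 - s) ^ 2) ∧
    ∀ s ∈ Icc (0 : ℝ) 1, |2 * (χ s + s * ω s) - (1 - s) * (26641 / 10000 + 16655 / 10000 * (1 - s)
      + 3996 / 10000 * (1 - s) ^ 2 + 644 / 10000 * (1 - s) ^ 3)| ≤ 2 / 10000 * (1 - s) := by
  obtain ⟨c, hcL⟩ : ∃ c : ℝ, L = 4 * c := ⟨L / 4, by ring⟩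
  rw [hcL] at h2
  obtain ⟨hD, hχ, hω⟩ := ec_uniq h2
  have l1 := h2.L_lo
  have l2 := h2.L_hi
  obtain ⟨c1, c2, g1, g2⟩ := ec_c (by linarith) (by linarith) hD
  have hg : 0 < bj c := by linarith
  have hc1 : c * bj1 c = -bj c := by
    unfold bD at hD
    linarith
  have hlin : ∀ s : ℝ, HasDerivAt (fun t : ℝ => c * t) c s := by
    intro s
    simpa using (hasDerivAt_id s).const_mul c
  refine ⟨by rw [hcL]; linarith, by rw [hcL]; linarith, ?_, ?_⟩
  · have d0 : ∀ s, HasDerivAt (fun s => bj (c * s) / bj c - (2396810823 / 1000000000 - 1117916053 / 600000000 * s + 108628419 / 200000000 * s ^ 2 -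
        50666267 / 600000000 * s ^ 3 + 12821 / 1562500 * s ^ 4 - 273369 / 500000000 * s ^ 5 +
        7969 / 300000000 * s ^ 6 - 59 / 60000000 * s ^ 7))
        (c * bj1 (c * s) / bj c - (-(1117916053 / 600000000) + 108628419 / 100000000 * s - 50666267 / 200000000 * s ^ 2 +
        12821 / 390625 * s ^ 3 - 273369 / 100000000 * s ^ 4 + 7969 / 50000000 * s ^ 5 -
        413 / 60000000 * s ^ 6)) s := by
      intro s
      have e2 : HasDerivAt (fun s : ℝ => 2396810823 / 1000000000 - 1117916053 / 600000000 * s + 108628419 / 200000000 * s ^ 2 -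
        50666267 / 600000000 * s ^ 3 + 12821 / 1562500 * s ^ 4 - 273369 / 500000000 * s ^ 5 +
        7969 / 300000000 * s ^ 6 - 59 / 60000000 * s ^ 7)
          (-(1117916053 / 600000000) + 108628419 / 100000000 * s - 50666267 / 200000000 * s ^ 2 +
        12821 / 390625 * s ^ 3 - 273369 / 100000000 * s ^ 4 + 7969 / 50000000 * s ^ 5 -
        413 / 60000000 * s ^ 6) s := by
        refine ((ec_poly (2396810823 / 1000000000) (-(1117916053 / 600000000)) (108628419 / 200000000) (-(50666267 / 600000000)) (12821 / 1562500) (-(273369 / 500000000)) (7969 / 300000000) (-(59 / 60000000)) s).congr_deriv ?_).congr_of_eventuallyEq ?_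
        · ring
        · refine Filter.Eventually.of_forall fun t => ?_
          ring
      exact (binner_deriv c s).sub e2
    have d1 : ∀ s, HasDerivAt (fun s => c * bj1 (c * s) / bj c - (-(1117916053 / 600000000) + 108628419 / 100000000 * s - 50666267 / 200000000 * s ^ 2 +
        12821 / 390625 * s ^ 3 - 273369 / 100000000 * s ^ 4 + 7969 / 50000000 * s ^ 5 -
        413 / 60000000 * s ^ 6))
        (c * (bj2 (c * s) * c) / bj c - (108628419 / 100000000 - 50666267 / 100000000 * s + 38463 / 390625 * s ^ 2 -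
        273369 / 25000000 * s ^ 3 + 7969 / 10000000 * s ^ 4 - 413 / 10000000 * s ^ 5)) s := by
      intro s
      have e1 : HasDerivAt (fun t => c * bj1 (c * t) / bj c) (c * (bj2 (c * s) * c) / bj c) s :=
        (((bj1_deriv (c * s)).comp s (hlin s)).const_mul c).div_const (bj c)
      have e2 : HasDerivAt (fun s : ℝ => -(1117916053 / 600000000) + 108628419 / 100000000 * s - 50666267 / 200000000 * s ^ 2 +
        12821 / 390625 * s ^ 3 - 273369 / 100000000 * s ^ 4 + 7969 / 50000000 * s ^ 5 -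
        413 / 60000000 * s ^ 6)
          (108628419 / 100000000 - 50666267 / 100000000 * s + 38463 / 390625 * s ^ 2 -
        273369 / 25000000 * s ^ 3 + 7969 / 10000000 * s ^ 4 - 413 / 10000000 * s ^ 5) s := by
        refine ((ec_poly (-(1117916053 / 600000000)) (108628419 / 100000000) (-(50666267 / 200000000)) (12821 / 390625) (-(273369 / 100000000)) (7969 / 50000000) (-(413 / 60000000)) (0) s).congr_deriv ?_).congr_of_eventuallyEq ?_
        · ring
        · refine Filter.Eventually.of_forall fun t => ?_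
          ring
      exact e1.sub e2
    have h5 := ec_abs2 d0 d1 (ec_A c1 c2 g1 g2) (by
      show bj (c * 1) / bj c - _ = 0
      rw [mul_one, div_self hg.ne']
      norm_num) (by
      show c * bj1 (c * 1) / bj c - _ = 0
      rw [mul_one, hc1, neg_div, div_self hg.ne']
      norm_num)
    intro s hs
    have h6 := h5 s hs
    rw [hχ s hs]
    have h7 := ec_R (1 - s) s (by linarith [hs.2]) hs.1 (by ring)
    rw [abs_le] at h6 h7 ⊢
    have h8 := mul_le_mul_of_nonneg_right h7.1 (sq_nonneg (1 - s))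
    have h9 := mul_le_mul_of_nonneg_right h7.2 (sq_nonneg (1 - s))
    constructor <;> nlinarith
  · have d0 : ∀ s, HasDerivAt (fun s => 2 * bD (c * s) / bj c - (6291629591 / 1312500000 - 372638729 / 50000000 * s + 325885257 / 100000000 * s ^ 2 -
        20266507 / 30000000 * s ^ 3 + 12821 / 156250 * s ^ 4 - 820107 / 125000000 * s ^ 5 +
        55783 / 150000000 * s ^ 6 - 11013 / 700000000 * s ^ 7))
        (2 * (-(bj (c * s) + bj1 (c * s)) * c) / bj c - (-(372638729 / 50000000) + 325885257 / 50000000 * s - 20266507 / 10000000 * s ^ 2 +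
        25642 / 78125 * s ^ 3 - 820107 / 25000000 * s ^ 4 + 55783 / 25000000 * s ^ 5 -
        11013 / 100000000 * s ^ 6)) s := by
      intro s
      have e1 : HasDerivAt (fun t => 2 * bD (c * t) / bj c)
          (2 * (-(bj (c * s) + bj1 (c * s)) * c) / bj c) s :=
        (((bD_deriv (c * s)).comp s (hlin s)).const_mul 2).div_const (bj c)
      have e2 : HasDerivAt (fun s : ℝ => 6291629591 / 1312500000 - 372638729 / 50000000 * s + 325885257 / 100000000 * s ^ 2 -
        20266507 / 30000000 * s ^ 3 + 12821 / 156250 * s ^ 4 - 820107 / 125000000 * s ^ 5 +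
        55783 / 150000000 * s ^ 6 - 11013 / 700000000 * s ^ 7)
          (-(372638729 / 50000000) + 325885257 / 50000000 * s - 20266507 / 10000000 * s ^ 2 +
        25642 / 78125 * s ^ 3 - 820107 / 25000000 * s ^ 4 + 55783 / 25000000 * s ^ 5 -
        11013 / 100000000 * s ^ 6) s := by
        refine ((ec_poly (6291629591 / 1312500000) (-(372638729 / 50000000)) (325885257 / 100000000) (-(20266507 / 30000000)) (12821 / 156250) (-(820107 / 125000000)) (55783 / 150000000) (-(11013 / 700000000)) s).congr_deriv ?_).congr_of_eventuallyEq ?_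
        · ring
        · refine Filter.Eventually.of_forall fun t => ?_
          ring
      exact e1.sub e2
    have h5 := ec_abs d0 (ec_B c1 c2 g1 g2) (by
      show 2 * bD (c * 1) / bj c - _ = 0
      rw [mul_one, hD]
      norm_num)
    intro s hs
    have h6 := h5 s hs
    have h7 := ec_D (1 - s) s (by linarith [hs.2]) hs.1 (by ring)
    have h10 : 2 * (χ s + s * ω s) = 2 * bD (c * s) / bj c := by
      rw [hχ s hs, hω s hs]
      unfold bD
      ring
    rw [h10]
    have h11 : 0 ≤ 1 - s := by linarith [hs.2]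
    rw [abs_le] at h6 h7 ⊢
    have h8 := mul_le_mul_of_nonneg_right h7.1 h11
    have h9 := mul_le_mul_of_nonneg_right h7.2 h11
    constructor <;> nlinarith

end Pool.Agent.FND
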