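import Pool.Agent.FND.Defs
import Pool.Agent.Neu.Bes

/-!
FND-EncP: numerical enclosures for `K`, `φ`, `ψ`.

Plan.  Copy (as private lemmas) from Neu/Bes.lean the series F(x) = sum (-1)^k x^k / (4^k k! (k+1)!)
(bj, bj1 = F', bj2 = F'', ODE x F'' + 2 F' + F/4 = 0, alternating bounds).
1. Uniqueness.  For s < 1 put f(s) = F(K s).  By `Prof.ode` and the ODE of F the function
s²(ψ f - φ K F'(K s)) has derivative 0 on s < 1 and vanishes at 0, so ψ f = φ K F'(K s) for 0 < s < 1,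
so φ / f is constant; φ(1) = 1 gives φ(s) = F(K s)/F(K), ψ(s) = K F'(K s)/F(K) on [0,1], and ψ(1) = -1/2
gives F(K) + 2 K F'(K) = 0.
2. K: that function of K is decreasing on [3.38, 3.40] (bF in Neu/Bes), it is > 0 at 3.3899 and < 0 at
3.39 (K = 3.389957).
3. φ'' = K² F''(K s)/F(K) = .189392 - .040127 s + .003401 s² - .00016 s³ (errors < 10⁻⁵ from the series,
< 2 10⁻⁵ from K), in u = 1 - s: q(u) = .152506 + .033805 u + .00292 u² + .00016 u³ (± 3 10⁻⁵).
Integrate twice from s = 1 (φ(1) = 1, φ'(1) = -1/2): φ = 1 + u/2 + u² A with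
A = .076253 + .0056342 u + .000243 u² + .000008 u³ (± 2 10⁻⁵), and compare the polynomials:
A - (.0762 + .0059 u) = .000053 - .000266 u + .000243 u² + .000008 u³.
4. g' = φ + 2 s ψ vanishes at s = 1, and -(g')' = 2.011269 - .946961 s + .140443 s² - .010202 s³ + .00044 s⁴
= 1.194989 + .694921 u + .112477 u² + .008442 u³ + .00044 u⁴, so g' = u B,
B = 1.194989 + .347461 u + .037492 u² + .002111 u³ + .000088 u⁴ (± 4 10⁻⁵);
B - (1.195 + .3462 u + .0408 u²) has absolute value < .00014.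
-/

set_option autoImplicit false

open MeasureTheory Set
open Pool.Agent.Neu
open Pool.Agent.CS4 (Prof2 bb vv eV)

namespace Pool.Agent.FND

section Aux
open Filter Topology Finset
open scoped Nat

/-- power series -/
private noncomputable def bps (a : ℕ → ℝ) (x : ℝ) : ℝ := ∑' k, a k * x ^ k

/-- coefficients of the derivative -/
private noncomputable def bsh (a : ℕ → ℝ) (k : ℕ) : ℝ := ((k : ℝ) + 1) * a (k + 1)

private theorem bsh_bd {a : ℕ → ℝ} (h : ∀ k, |a k| ≤ 1 / (k ! : ℝ)) (k : ℕ) :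
    |bsh a k| ≤ 1 / (k ! : ℝ) := by
  unfold bsh
  have hk : (0 : ℝ) < (k : ℝ) + 1 := by positivity
  have h1 := h (k + 1)
  rw [abs_mul, abs_of_pos hk]
  calc ((k : ℝ) + 1) * |a (k + 1)| ≤ ((k : ℝ) + 1) * (1 / ((k + 1)! : ℝ)) :=
        mul_le_mul_of_nonneg_left h1 hk.le
    _ = 1 / (k ! : ℝ) := by
        rw [Nat.factorial_succ]
        push_cast
        have : (k ! : ℝ) ≠ 0 := by positivity
        field_simp

private theorem bps_summable {a : ℕ → ℝ} (h : ∀ k, |a k| ≤ 1 / (k ! : ℝ)) (x : ℝ) :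
    Summable (fun k => a k * x ^ k) := by
  refine Summable.of_norm_bounded (Real.summable_pow_div_factorial |x|) (fun k => ?_)
  rw [Real.norm_eq_abs, abs_mul, abs_pow]
  calc |a k| * |x| ^ k ≤ 1 / (k ! : ℝ) * |x| ^ k :=
        mul_le_mul_of_nonneg_right (h k) (by positivity)
    _ = |x| ^ k / (k ! : ℝ) := by ring

private theorem bps_hasDerivAt {a : ℕ → ℝ} (h : ∀ k, |a k| ≤ 1 / (k ! : ℝ)) (x : ℝ) :
    HasDerivAt (bps a) (bps (bsh a) x) x := by
  set R : ℝ := |x| + 1 with hR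
  have hR0 : 0 < R := by positivity
  have hu : Summable (fun n : ℕ => (n : ℝ) * R ^ (n - 1) / (n ! : ℝ)) := by
    rw [← summable_nat_add_iff 1]
    refine (Real.summable_pow_div_factorial R).congr (fun n => ?_)
    rw [Nat.add_sub_cancel, Nat.factorial_succ]
    push_cast
    have : (n ! : ℝ) ≠ 0 := by positivity
    field_simp
  have hx : x ∈ Metric.ball (0 : ℝ) R := by
    rw [mem_ball_zero_iff, Real.norm_eq_abs, hR]
    linarith
  have key := hasDerivAt_tsum_of_isPreconnected (𝕜 := ℝ)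
    (g := fun (n : ℕ) (y : ℝ) => a n * y ^ n)
    (g' := fun (n : ℕ) (y : ℝ) => a n * ((n : ℝ) * y ^ (n - 1))) hu (t := Metric.ball (0 : ℝ) R)
    Metric.isOpen_ball (convex_ball (0 : ℝ) R).isPreconnected
    (fun n y _ => (hasDerivAt_pow n y).const_mul (a n))
    (fun n y hy => by
      rw [mem_ball_zero_iff, Real.norm_eq_abs] at hy
      rw [Real.norm_eq_abs, abs_mul, abs_mul, abs_pow, Nat.abs_cast]
      calc |a n| * ((n : ℝ) * |y| ^ (n - 1)) ≤ 1 / (n ! : ℝ) * ((n : ℝ) * R ^ (n - 1)) := by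
            refine mul_le_mul (h n) ?_ (by positivity) (by positivity)
            exact mul_le_mul_of_nonneg_left (pow_le_pow_left₀ (abs_nonneg y) hy.le _)
              (by positivity)
        _ = (n : ℝ) * R ^ (n - 1) / (n ! : ℝ) := by ring)
    hx (bps_summable h x) hx
  have e : ∑' n : ℕ, a n * ((n : ℝ) * x ^ (n - 1)) = bps (bsh a) x := by
    have hs : Summable (fun n : ℕ => a n * ((n : ℝ) * x ^ (n - 1))) := by
      rw [← summable_nat_add_iff 1]
      refine (bps_summable (bsh_bd h) x).congr (fun n => ?_)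
      unfold bsh
      rw [Nat.add_sub_cancel]
      push_cast
      ring
    rw [hs.tsum_eq_zero_add]
    unfold bps
    have e0 : a 0 * (((0 : ℕ) : ℝ) * x ^ (0 - 1)) = 0 := by simp
    rw [e0, zero_add]
    refine tsum_congr (fun n => ?_)
    unfold bsh
    rw [Nat.add_sub_cancel]
    push_cast
    ring
  rw [e] at key
  exact key

/-- coefficients of `j` -/
private noncomputable def bc (k : ℕ) : ℝ := (-1) ^ k * (1 / (4 ^ k * (k ! : ℝ) * ((k + 1)! : ℝ)))

private theorem bc_bd (k : ℕ) : |bc k| ≤ 1 / (k ! : ℝ) := by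
  unfold bc
  rw [abs_mul, abs_pow, abs_neg, abs_one, one_pow, one_mul, abs_of_pos (by positivity)]
  have h1 : (1 : ℝ) ≤ 4 ^ k := one_le_pow₀ (by norm_num)
  have h2 : (1 : ℝ) ≤ ((k + 1)! : ℝ) := by exact_mod_cast Nat.one_le_iff_ne_zero.2 (Nat.factorial_ne_zero _)
  have h3 : (0 : ℝ) < (k ! : ℝ) := by positivity
  apply one_div_le_one_div_of_le h3
  calc (k ! : ℝ) = 1 * (k ! : ℝ) * 1 := by ring
    _ ≤ 4 ^ k * (k ! : ℝ) * ((k + 1)! : ℝ) := by gcongr

private theorem bc_succ (k : ℕ) :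
    bc (k + 1) * (4 * ((k : ℝ) + 1) * ((k : ℝ) + 2)) = - bc k := by
  unfold bc
  rw [Nat.factorial_succ (k + 1), Nat.factorial_succ k, pow_succ, pow_succ]
  push_cast
  have : (k ! : ℝ) ≠ 0 := by positivity
  field_simp
  ring

private noncomputable def bj (x : ℝ) : ℝ := bps bc x
private noncomputable def bj1 (x : ℝ) : ℝ := bps (bsh bc) x
private noncomputable def bj2 (x : ℝ) : ℝ := bps (bsh (bsh bc)) x

private theorem bj_deriv (x : ℝ) : HasDerivAt bj (bj1 x) x := bps_hasDerivAt bc_bd x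
private theorem bj1_deriv (x : ℝ) : HasDerivAt bj1 (bj2 x) x := bps_hasDerivAt (bsh_bd bc_bd) x

private theorem bj_ode (x : ℝ) : x * bj2 x + 2 * bj1 x + bj x / 4 = 0 := by
  have h2 : HasSum (fun k => bsh (bsh bc) k * x ^ k) (bj2 x) :=
    (bps_summable (bsh_bd (bsh_bd bc_bd)) x).hasSum
  have h1 : HasSum (fun k => bsh bc k * x ^ k) (bj1 x) :=
    (bps_summable (bsh_bd bc_bd) x).hasSum
  have h0 : HasSum (fun k => bc k * x ^ k) (bj x) := (bps_summable bc_bd x).hasSum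
  have h2' := h2.mul_left x
  have h1' := (hasSum_nat_add_iff' 1).2 h1
  have h0' := (hasSum_nat_add_iff' 1).2 h0
  have hs := (h2'.add (h1'.mul_left 2)).add (h0'.mul_left (1 / 4))
  have hz : (fun k => x * (bsh (bsh bc) k * x ^ k) + 2 * (bsh bc (k + 1) * x ^ (k + 1)) +
      1 / 4 * (bc (k + 1) * x ^ (k + 1))) = fun _ => (0 : ℝ) := by
    funext k
    have e := bc_succ (k + 1)
    unfold bsh
    push_cast at e ⊢
    have e' : bc (k + 1) = - (bc (k + 1 + 1) * (4 * ((k : ℝ) + 1 + 1) * ((k : ℝ) + 1 + 2))) := by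
      linarith
    rw [e']
    ring
  rw [hz] at hs
  have h3 := hs.unique hasSum_zero
  simp only [Finset.sum_range_one, pow_zero, mul_one] at h3
  have e0 : bc 0 = 1 := by unfold bc; norm_num
  have e1 : bsh bc 0 = -1 / 8 := by
    unfold bsh bc
    norm_num [Nat.factorial]
  rw [e0, e1] at h3
  linarith

/-- positive terms of `j` -/
private noncomputable def bf (x : ℝ) (k : ℕ) : ℝ :=
  1 / (4 ^ k * (k ! : ℝ) * ((k + 1)! : ℝ)) * x ^ k

/-- positive terms of `-j'` -/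
private noncomputable def bg (x : ℝ) (k : ℕ) : ℝ :=
  ((k : ℝ) + 1) * (1 / (4 ^ (k + 1) * ((k + 1)! : ℝ) * ((k + 1 + 1)! : ℝ))) * x ^ k

private theorem bf_anti {x : ℝ} (h0 : 0 ≤ x) (h1 : x ≤ 17 / 5) : Antitone (bf x) := by
  refine antitone_nat_of_succ_le (fun n => ?_)
  have e : bf x (n + 1) = bf x n * (x / (4 * ((n : ℝ) + 1) * ((n : ℝ) + 2))) := by
    unfold bf
    rw [Nat.factorial_succ (n + 1), Nat.factorial_succ n, pow_succ, pow_succ]
    push_cast
    have : (n ! : ℝ) ≠ 0 := by positivity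
    field_simp
    ring
  have hp : 0 ≤ bf x n := by unfold bf; positivity
  rw [e]
  refine mul_le_of_le_one_right hp ?_
  rw [div_le_one (by positivity)]
  have : (0 : ℝ) ≤ n := by positivity
  nlinarith

private theorem bg_anti {x : ℝ} (h0 : 0 ≤ x) (h1 : x ≤ 17 / 5) : Antitone (bg x) := by
  refine antitone_nat_of_succ_le (fun n => ?_)
  have e : bg x (n + 1) = bg x n * (x / (4 * ((n : ℝ) + 1) * ((n : ℝ) + 3))) := by
    unfold bg
    rw [Nat.factorial_succ (n + 1 + 1), Nat.factorial_succ (n + 1), pow_succ, pow_succ]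
    push_cast
    have : (n ! : ℝ) ≠ 0 := by positivity
    have : ((n + 1)! : ℝ) ≠ 0 := by positivity
    field_simp
    ring
  have hp : 0 ≤ bg x n := by unfold bg; positivity
  rw [e]
  refine mul_le_of_le_one_right hp ?_
  rw [div_le_one (by positivity)]
  have : (0 : ℝ) ≤ n := by positivity
  nlinarith

private theorem bf_tend (x : ℝ) :
    Tendsto (fun n => ∑ i ∈ range n, (-1) ^ i * bf x i) atTop (𝓝 (bj x)) := by
  have h0 : HasSum (fun k => bc k * x ^ k) (bj x) := (bps_summable bc_bd x).hasSum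
  refine h0.tendsto_sum_nat.congr (fun n => Finset.sum_congr rfl (fun i _ => ?_))
  unfold bc bf
  ring

private theorem bg_tend (x : ℝ) :
    Tendsto (fun n => ∑ i ∈ range n, (-1) ^ i * bg x i) atTop (𝓝 (-bj1 x)) := by
  have h0 : HasSum (fun k => bsh bc k * x ^ k) (bj1 x) := (bps_summable (bsh_bd bc_bd) x).hasSum
  refine h0.neg.tendsto_sum_nat.congr (fun n => Finset.sum_congr rfl (fun i _ => ?_))
  unfold bsh bc bg
  ring

private theorem bj_lo {x : ℝ} (h0 : 0 ≤ x) (h1 : x ≤ 17 / 5) :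
    1 - x / 8 + x ^ 2 / 192 - x ^ 3 / 9216 ≤ bj x := by
  have := (bf_anti h0 h1).alternating_series_le_tendsto (bf_tend x) 2
  simp only [Finset.sum_range_succ, Finset.sum_range_zero, bf] at this
  norm_num [Nat.factorial] at this
  linarith

private theorem bj1_bds {x : ℝ} (h0 : 0 ≤ x) (h1 : x ≤ 17 / 5) :
    -(1 / 8) ≤ bj1 x ∧ bj1 x ≤ 0 := by
  have a1 := (bg_anti h0 h1).alternating_series_le_tendsto (bg_tend x) 1
  have a2 := (bg_anti h0 h1).tendsto_le_alternating_series (bg_tend x) 0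
  simp only [Finset.sum_range_succ, Finset.sum_range_zero, bg] at a1 a2
  norm_num [Nat.factorial] at a1 a2
  constructor <;> linarith

private noncomputable def bF (x : ℝ) : ℝ := bj x + 2 * x * bj1 x

private theorem bF_lo : 0 < bF (169 / 50) := by
  have h0 : (0 : ℝ) ≤ 169 / 50 := by norm_num
  have h1 : (169 / 50 : ℝ) ≤ 17 / 5 := by norm_num
  have a1 := (bf_anti h0 h1).alternating_series_le_tendsto (bf_tend _) 3
  have a2 := (bg_anti h0 h1).tendsto_le_alternating_series (bg_tend _) 2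
  simp only [Finset.sum_range_succ, Finset.sum_range_zero, bf, bg] at a1 a2
  norm_num [Nat.factorial] at a1 a2
  unfold bF
  linarith

private theorem bF_hi : bF (17 / 5) < 0 := by
  have h0 : (0 : ℝ) ≤ 17 / 5 := by norm_num
  have h1 : (17 / 5 : ℝ) ≤ 17 / 5 := by norm_num
  have a1 := (bf_anti h0 h1).tendsto_le_alternating_series (bf_tend _) 2
  have a2 := (bg_anti h0 h1).alternating_series_le_tendsto (bg_tend _) 2
  simp only [Finset.sum_range_succ, Finset.sum_range_zero, bf, bg] at a1 a2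
  norm_num [Nat.factorial] at a1 a2
  unfold bF
  linarith

private theorem bF_deriv (x : ℝ) : HasDerivAt bF (-bj1 x - bj x / 2) x := by
  have h := (bj_deriv x).add (((hasDerivAt_id x).const_mul 2).mul (bj1_deriv x))
  have e : bj1 x + (2 * 1 * bj1 x + 2 * id x * bj2 x) = -bj1 x - bj x / 2 := by
    have := bj_ode x
    simp only [id]
    linarith
  rw [e] at h
  exact h

private theorem bj_cont : Continuous bj :=
  continuous_iff_continuousAt.2 fun x => (bj_deriv x).continuousAt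
private theorem bj1_cont : Continuous bj1 :=
  continuous_iff_continuousAt.2 fun x => (bj1_deriv x).continuousAt
private theorem bF_cont : Continuous bF :=
  continuous_iff_continuousAt.2 fun x => (bF_deriv x).continuousAt

private theorem bj_pos {x : ℝ} (h0 : 0 ≤ x) (h1 : x ≤ 17 / 5) : 63 / 100 ≤ bj x := by
  have h := bj_lo h0 h1
  have h2 : 0 ≤ (17 / 5 - x) * (1 / 8 - (x + 17 / 5) / 192) :=
    mul_nonneg (by linarith) (by linarith)
  have h3 : x ^ 3 ≤ (17 / 5) ^ 3 := pow_le_pow_left₀ h0 h1 3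
  nlinarith

private theorem bj_anti : AntitoneOn bj (Icc 0 (17 / 5)) := by
  refine antitoneOn_of_deriv_nonpos (convex_Icc _ _) bj_cont.continuousOn
    (fun x _ => (bj_deriv x).differentiableAt.differentiableWithinAt) (fun x hx => ?_)
  rw [interior_Icc] at hx
  rw [(bj_deriv x).deriv]
  exact (bj1_bds hx.1.le hx.2.le).2

private theorem bF_anti : AntitoneOn bF (Icc 0 (17 / 5)) := by
  refine antitoneOn_of_deriv_nonpos (convex_Icc _ _) bF_cont.continuousOn
    (fun x _ => (bF_deriv x).differentiableAt.differentiableWithinAt) (fun x hx => ?_)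
  rw [interior_Icc] at hx
  rw [(bF_deriv x).deriv]
  have h1 := (bj1_bds hx.1.le hx.2.le).1
  have h2 := bj_pos hx.1.le hx.2.le
  linarith


/-- positive terms of the second derivative -/
private noncomputable def bh (x : ℝ) (k : ℕ) : ℝ :=
  ((k : ℝ) + 1) * (((k : ℝ) + 2) * (1 / (4 ^ (k + 2) * ((k + 2)! : ℝ) * ((k + 3)! : ℝ)))) * x ^ k

private theorem bh_anti {x : ℝ} (h0 : 0 ≤ x) (h1 : x ≤ 17 / 5) : Antitone (bh x) := by
  refine antitone_nat_of_succ_le (fun n => ?_)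
  have e : bh x (n + 1) = bh x n * (x / (4 * ((n : ℝ) + 1) * ((n : ℝ) + 4))) := by
    unfold bh
    rw [Nat.factorial_succ (n + 3), Nat.factorial_succ (n + 2), pow_succ, pow_succ]
    push_cast
    have : ((n + 2)! : ℝ) ≠ 0 := by positivity
    have : ((n + 3)! : ℝ) ≠ 0 := by positivity
    field_simp
    ring
  have hp : 0 ≤ bh x n := by unfold bh; positivity
  rw [e]
  refine mul_le_of_le_one_right hp ?_
  rw [div_le_one (by positivity)]
  have : (0 : ℝ) ≤ n := by positivity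
  nlinarith

private theorem bh_tend (x : ℝ) :
    Tendsto (fun n => ∑ i ∈ range n, (-1) ^ i * bh x i) atTop (𝓝 (bj2 x)) := by
  have h0 : HasSum (fun k => bsh (bsh bc) k * x ^ k) (bj2 x) :=
    (bps_summable (bsh_bd (bsh_bd bc_bd)) x).hasSum
  refine h0.tendsto_sum_nat.congr (fun n => Finset.sum_congr rfl (fun i _ => ?_))
  unfold bsh bc bh
  push_cast
  ring

private theorem bj2_bds {x : ℝ} (h0 : 0 ≤ x) (h1 : x ≤ 17 / 5) :
    1 / 96 - x / 1536 + x ^ 2 / 61440 - x ^ 3 / 4423680 ≤ bj2 x ∧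
    bj2 x ≤ 1 / 96 - x / 1536 + x ^ 2 / 61440 - x ^ 3 / 4423680 + x ^ 4 / 495452160 := by
  have a1 := (bh_anti h0 h1).alternating_series_le_tendsto (bh_tend x) 2
  have a2 := (bh_anti h0 h1).tendsto_le_alternating_series (bh_tend x) 2
  simp only [Finset.sum_range_succ, Finset.sum_range_zero, bh] at a1 a2
  norm_num [Nat.factorial] at a1 a2
  constructor <;> linarith

private theorem bj_bds {x : ℝ} (h0 : 0 ≤ x) (h1 : x ≤ 17 / 5) :
    1 - x / 8 + x ^ 2 / 192 - x ^ 3 / 9216 + x ^ 4 / 737280 - x ^ 5 / 88473600 ≤ bj x ∧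
    bj x ≤ 1 - x / 8 + x ^ 2 / 192 - x ^ 3 / 9216 + x ^ 4 / 737280 := by
  have a1 := (bf_anti h0 h1).alternating_series_le_tendsto (bf_tend x) 3
  have a2 := (bf_anti h0 h1).tendsto_le_alternating_series (bf_tend x) 2
  simp only [Finset.sum_range_succ, Finset.sum_range_zero, bf] at a1 a2
  norm_num [Nat.factorial] at a1 a2
  constructor <;> linarith

private theorem bj1_bds2 {x : ℝ} (h0 : 0 ≤ x) (h1 : x ≤ 17 / 5) :
    1 / 8 - x / 96 + x ^ 2 / 3072 - x ^ 3 / 184320 + x ^ 4 / 17694720 - x ^ 5 / 2477260800 ≤ -bj1 x ∧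
    -bj1 x ≤ 1 / 8 - x / 96 + x ^ 2 / 3072 - x ^ 3 / 184320 + x ^ 4 / 17694720 := by
  have a1 := (bg_anti h0 h1).alternating_series_le_tendsto (bg_tend x) 3
  have a2 := (bg_anti h0 h1).tendsto_le_alternating_series (bg_tend x) 2
  simp only [Finset.sum_range_succ, Finset.sum_range_zero, bg] at a1 a2
  norm_num [Nat.factorial] at a1 a2
  constructor <;> linarith

private theorem bF_lo2 : 0 < bF (338995 / 100000) := by
  have h0 : (0 : ℝ) ≤ 338995 / 100000 := by norm_num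
  have h1 : (338995 / 100000 : ℝ) ≤ 17 / 5 := by norm_num
  have a1 := (bf_anti h0 h1).alternating_series_le_tendsto (bf_tend _) 3
  have a2 := (bg_anti h0 h1).tendsto_le_alternating_series (bg_tend _) 3
  simp only [Finset.sum_range_succ, Finset.sum_range_zero, bf, bg] at a1 a2
  norm_num [Nat.factorial] at a1 a2
  unfold bF
  norm_num
  linarith

private theorem bF_hi2 : bF (338997 / 100000) < 0 := by
  have h0 : (0 : ℝ) ≤ 338997 / 100000 := by norm_num
  have h1 : (338997 / 100000 : ℝ) ≤ 17 / 5 := by norm_num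
  have a1 := (bf_anti h0 h1).tendsto_le_alternating_series (bf_tend _) 3
  have a2 := (bg_anti h0 h1).alternating_series_le_tendsto (bg_tend _) 3
  simp only [Finset.sum_range_succ, Finset.sum_range_zero, bf, bg] at a1 a2
  norm_num [Nat.factorial] at a1 a2
  unfold bF
  norm_num
  linarith

private theorem mulb {a d p : ℝ} (ha : |a| ≤ d) (h0 : 0 ≤ p) (h1 : p ≤ 1) : |a * p| ≤ d := by
  rw [abs_mul, abs_of_nonneg h0]
  calc |a| * p ≤ |a| * 1 := mul_le_mul_of_nonneg_left h1 (abs_nonneg _)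
    _ ≤ d := by rw [mul_one]; exact ha

private theorem le_end {g g' : ℝ → ℝ} (hd : ∀ s, HasDerivAt g (g' s) s)
    (h : ∀ s ∈ Icc (0 : ℝ) 1, 0 ≤ g' s) : ∀ s ∈ Icc (0 : ℝ) 1, g s ≤ g 1 := by
  have hm : MonotoneOn g (Icc 0 1) := by
    refine monotoneOn_of_deriv_nonneg (convex_Icc _ _)
      (fun t _ => (hd t).continuousAt.continuousWithinAt)
      (fun t _ => (hd t).differentiableAt.differentiableWithinAt) (fun t ht => ?_)
    rw [interior_Icc] at ht
    rw [(hd t).deriv]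
    exact h t ⟨ht.1.le, ht.2.le⟩
  intro s hs
  exact hm hs ⟨zero_le_one, le_rfl⟩ hs.2

private theorem d_one {E E1 : ℝ → ℝ} {ε : ℝ} (hd : ∀ s, HasDerivAt E (E1 s) s) (h1 : E 1 = 0)
    (h : ∀ s ∈ Icc (0 : ℝ) 1, |E1 s| ≤ ε) : ∀ s ∈ Icc (0 : ℝ) 1, |E s| ≤ ε * (1 - s) := by
  have hl : ∀ s : ℝ, HasDerivAt (fun s => ε * (1 - s)) (-ε) s := by
    intro s
    have := ((hasDerivAt_id s).const_sub 1).const_mul ε
    rw [mul_neg_one] at this
    exact this
  intro s hs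
  have a1 := le_end (g := fun s => E s - ε * (1 - s)) (fun s => (hd s).sub (hl s)) (fun s hs => by
    have := (abs_le.1 (h s hs)).1
    linarith) s hs
  have a2 := le_end (g := fun s => -E s - ε * (1 - s)) (fun s => (hd s).neg.sub (hl s))
    (fun s hs => by
      have := (abs_le.1 (h s hs)).2
      linarith) s hs
  simp only [h1] at a1 a2
  rw [abs_le]
  constructor <;> linarith

private theorem d_two {E E1 E2 : ℝ → ℝ} {ε : ℝ} (hd : ∀ s, HasDerivAt E (E1 s) s)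
    (hd1 : ∀ s, HasDerivAt E1 (E2 s) s) (h1 : E 1 = 0) (h2 : E1 1 = 0)
    (h : ∀ s ∈ Icc (0 : ℝ) 1, |E2 s| ≤ ε) :
    ∀ s ∈ Icc (0 : ℝ) 1, |E s| ≤ ε / 2 * (1 - s) ^ 2 := by
  have h3 := d_one hd1 h2 h
  have hl : ∀ s : ℝ, HasDerivAt (fun s => ε / 2 * (1 - s) ^ 2) (-(ε * (1 - s))) s := by
    intro s
    have := (((hasDerivAt_id s).const_sub 1).pow 2).const_mul (ε / 2)
    refine this.congr_deriv ?_
    simp only [id]
    push_cast
    ring
  intro s hs
  have a1 := le_end (g := fun s => E s - ε / 2 * (1 - s) ^ 2) (fun s => (hd s).sub (hl s))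
    (fun s hs => by
      have := (abs_le.1 (h3 s hs)).1
      linarith) s hs
  have a2 := le_end (g := fun s => -E s - ε / 2 * (1 - s) ^ 2) (fun s => (hd s).neg.sub (hl s))
    (fun s hs => by
      have := (abs_le.1 (h3 s hs)).2
      linarith) s hs
  simp only [h1] at a1 a2
  rw [abs_le]
  constructor <;> linarith

private theorem hp (a b c d e f s : ℝ) :
    HasDerivAt (fun s : ℝ => a + b * (1 - s) + c * (1 - s) ^ 2 + d * (1 - s) ^ 3 + e * (1 - s) ^ 4
      + f * (1 - s) ^ 5) (-(b + 2 * c * (1 - s) + 3 * d * (1 - s) ^ 2 + 4 * e * (1 - s) ^ 3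
        + 5 * f * (1 - s) ^ 4)) s := by
  have h : HasDerivAt (fun s : ℝ => 1 - s) (-1) s := (hasDerivAt_id s).const_sub 1
  have h2 := ((((((hasDerivAt_const s a).add (h.const_mul b)).add ((h.pow 2).const_mul c)).add
    ((h.pow 3).const_mul d)).add ((h.pow 4).const_mul e)).add ((h.pow 5).const_mul f))
  refine h2.congr_deriv ?_
  push_cast
  ring

section Data

variable {K κ : ℝ} (hK1 : 338995 / 100000 < K) (hK2 : K < 338997 / 100000)
  (hκ1 : 1582137 / 1000000 < κ) (hκ2 : κ < 1582143 / 1000000)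

include hK1 hK2 hκ1 hκ2

private theorem pw (n : ℕ) : (338995 / 100000) ^ n * (1582137 / 1000000) ≤ K ^ n * κ ∧
    K ^ n * κ ≤ (338997 / 100000) ^ n * (1582143 / 1000000) := by
  have h0 : (0 : ℝ) ≤ 338995 / 100000 := by norm_num
  have hK0 : (0 : ℝ) ≤ K := h0.trans hK1.le
  have h1 : ((338995 / 100000 : ℝ)) ^ n ≤ K ^ n := pow_le_pow_left₀ h0 hK1.le n
  have h2 : K ^ n ≤ (338997 / 100000 : ℝ) ^ n := pow_le_pow_left₀ hK0 hK2.le n
  constructor
  · exact mul_le_mul h1 hκ1.le (by norm_num) (by positivity)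
  · exact mul_le_mul h2 hκ2.le (by linarith) (by positivity)

private theorem phi2 {s : ℝ} (hs : s ∈ Icc (0 : ℝ) 1) : |K ^ 2 * κ * bj2 (K * s) -
    (189392 / 10 ^ 6 - 40127 / 10 ^ 6 * s + 3401 / 10 ^ 6 * s ^ 2 - 160 / 10 ^ 6 * s ^ 3)| ≤
    8 / 10 ^ 6 := by
  have hK0 : 0 < K := by linarith
  have hκ0 : 0 < κ := by linarith
  have hx0 : 0 ≤ K * s := mul_nonneg hK0.le hs.1
  have hx1 : K * s ≤ 17 / 5 := by nlinarith [hs.1, hs.2]
  obtain ⟨l, u⟩ := bj2_bds hx0 hx1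
  have hp : 0 < K ^ 2 * κ := by positivity
  have l' := mul_le_mul_of_nonneg_left l hp.le
  have u' := mul_le_mul_of_nonneg_left u hp.le
  obtain ⟨p2l, p2u⟩ := pw hK1 hK2 hκ1 hκ2 2
  obtain ⟨p3l, p3u⟩ := pw hK1 hK2 hκ1 hκ2 3
  obtain ⟨p4l, p4u⟩ := pw hK1 hK2 hκ1 hκ2 4
  obtain ⟨p5l, p5u⟩ := pw hK1 hK2 hκ1 hκ2 5
  obtain ⟨p6l, p6u⟩ := pw hK1 hK2 hκ1 hκ2 6
  have s1 : (0 : ℝ) ≤ s := hs.1
  have s1' := hs.2
  have b0 : |K ^ 2 * κ / 96 - 189392 / 10 ^ 6| ≤ 2 / 10 ^ 6 := by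
    rw [abs_le]
    constructor <;> linarith
  have b1 := mulb (a := K ^ 3 * κ / 1536 - 40127 / 10 ^ 6) (d := 5 / 10 ^ 7) (p := s) (by
    rw [abs_le]
    constructor <;> linarith) s1 s1'
  have b2 := mulb (a := K ^ 4 * κ / 61440 - 3401 / 10 ^ 6) (d := 32 / 10 ^ 8) (p := s ^ 2) (by
    rw [abs_le]
    constructor <;> linarith) (by positivity) (pow_le_one₀ s1 s1')
  have b3 := mulb (a := K ^ 5 * κ / 4423680 - 160 / 10 ^ 6) (d := 12 / 10 ^ 8) (p := s ^ 3) (by
    rw [abs_le]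
    constructor <;> linarith) (by positivity) (pow_le_one₀ s1 s1')
  have b4 := mulb (a := K ^ 6 * κ / 495452160) (d := 485 / 10 ^ 8) (p := s ^ 4) (by
    rw [abs_le]
    constructor <;> linarith) (by positivity) (pow_le_one₀ s1 s1')
  have e1 : K ^ 2 * κ * (1 / 96 - K * s / 1536 + (K * s) ^ 2 / 61440 - (K * s) ^ 3 / 4423680) =
      K ^ 2 * κ / 96 - K ^ 3 * κ / 1536 * s + K ^ 4 * κ / 61440 * s ^ 2
        - K ^ 5 * κ / 4423680 * s ^ 3 := by ring
  have e2 : K ^ 2 * κ * (1 / 96 - K * s / 1536 + (K * s) ^ 2 / 61440 - (K * s) ^ 3 / 4423680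
      + (K * s) ^ 4 / 495452160) =
      K ^ 2 * κ / 96 - K ^ 3 * κ / 1536 * s + K ^ 4 * κ / 61440 * s ^ 2
        - K ^ 5 * κ / 4423680 * s ^ 3 + K ^ 6 * κ / 495452160 * s ^ 4 := by ring
  rw [e1] at l'
  rw [e2] at u'
  rw [abs_le] at b0 b1 b2 b3 b4 ⊢
  obtain ⟨c0, d0⟩ := b0
  obtain ⟨c1, d1⟩ := b1
  obtain ⟨c2, d2⟩ := b2
  obtain ⟨c3, d3⟩ := b3
  obtain ⟨c4, d4⟩ := b4
  constructor <;> linarith

private theorem gd2 {s : ℝ} (hs : s ∈ Icc (0 : ℝ) 1) :
    |K * κ * (bj1 (K * s) + bj (K * s) / 2) -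
    (2011269 / 10 ^ 6 - 946961 / 10 ^ 6 * s + 140443 / 10 ^ 6 * s ^ 2 - 10202 / 10 ^ 6 * s ^ 3
      + 440 / 10 ^ 6 * s ^ 4)| ≤ 4 / 10 ^ 5 := by
  have hK0 : 0 < K := by linarith
  have hκ0 : 0 < κ := by linarith
  have hx0 : 0 ≤ K * s := mul_nonneg hK0.le hs.1
  have hx1 : K * s ≤ 17 / 5 := by nlinarith [hs.1, hs.2]
  obtain ⟨l0, u0⟩ := bj_bds hx0 hx1
  obtain ⟨l1, u1⟩ := bj1_bds2 hx0 hx1
  have l : 3 / 8 - 5 / 96 * (K * s) + 7 / 3072 * (K * s) ^ 2 - 1 / 20480 * (K * s) ^ 3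
      + 11 / 17694720 * (K * s) ^ 4 - 1 / 176947200 * (K * s) ^ 5 ≤ bj1 (K * s) + bj (K * s) / 2 := by
    linarith
  have u : bj1 (K * s) + bj (K * s) / 2 ≤
      3 / 8 - 5 / 96 * (K * s) + 7 / 3072 * (K * s) ^ 2 - 1 / 20480 * (K * s) ^ 3
      + 11 / 17694720 * (K * s) ^ 4 + 1 / 2477260800 * (K * s) ^ 5 := by
    linarith
  have hp : 0 < K * κ := by positivity
  have l' := mul_le_mul_of_nonneg_left l hp.le
  have u' := mul_le_mul_of_nonneg_left u hp.le
  obtain ⟨p1l, p1u⟩ := pw hK1 hK2 hκ1 hκ2 1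
  obtain ⟨p2l, p2u⟩ := pw hK1 hK2 hκ1 hκ2 2
  obtain ⟨p3l, p3u⟩ := pw hK1 hK2 hκ1 hκ2 3
  obtain ⟨p4l, p4u⟩ := pw hK1 hK2 hκ1 hκ2 4
  obtain ⟨p5l, p5u⟩ := pw hK1 hK2 hκ1 hκ2 5
  obtain ⟨p6l, p6u⟩ := pw hK1 hK2 hκ1 hκ2 6
  rw [pow_one] at p1l p1u
  have s1 : (0 : ℝ) ≤ s := hs.1
  have s1' := hs.2
  have b0 : |K * κ * (3 / 8) - 2011269 / 10 ^ 6| ≤ 125 / 10 ^ 7 := by
    rw [abs_le]
    constructor <;> linarith
  have b1 := mulb (a := K ^ 2 * κ * (5 / 96) - 946961 / 10 ^ 6) (d := 9 / 10 ^ 6) (p := s) (by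
    rw [abs_le]
    constructor <;> linarith) s1 s1'
  have b2 := mulb (a := K ^ 3 * κ * (7 / 3072) - 140443 / 10 ^ 6) (d := 325 / 10 ^ 8) (p := s ^ 2) (by
    rw [abs_le]
    constructor <;> linarith) (by positivity) (pow_le_one₀ s1 s1')
  have b3 := mulb (a := K ^ 4 * κ * (1 / 20480) - 10202 / 10 ^ 6) (d := 33 / 10 ^ 8) (p := s ^ 3) (by
    rw [abs_le]
    constructor <;> linarith) (by positivity) (pow_le_one₀ s1 s1')
  have b4 := mulb (a := K ^ 5 * κ * (11 / 17694720) - 440 / 10 ^ 6) (d := 33 / 10 ^ 8)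
    (p := s ^ 4) (by
    rw [abs_le]
    constructor <;> linarith) (by positivity) (pow_le_one₀ s1 s1')
  have b5 := mulb (a := K ^ 6 * κ * (1 / 176947200)) (d := 136 / 10 ^ 7)
    (p := s ^ 5) (by
    rw [abs_le]
    constructor <;> linarith) (by positivity) (pow_le_one₀ s1 s1')
  have b6 := mulb (a := K ^ 6 * κ * (1 / 2477260800)) (d := 1 / 10 ^ 6)
    (p := s ^ 5) (by
    rw [abs_le]
    constructor <;> linarith) (by positivity) (pow_le_one₀ s1 s1')
  have e1 : K * κ * (3 / 8 - 5 / 96 * (K * s) + 7 / 3072 * (K * s) ^ 2 - 1 / 20480 * (K * s) ^ 3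
      + 11 / 17694720 * (K * s) ^ 4 - 1 / 176947200 * (K * s) ^ 5) =
      K * κ * (3 / 8) - K ^ 2 * κ * (5 / 96) * s + K ^ 3 * κ * (7 / 3072) * s ^ 2
        - K ^ 4 * κ * (1 / 20480) * s ^ 3 + K ^ 5 * κ * (11 / 17694720) * s ^ 4
        - K ^ 6 * κ * (1 / 176947200) * s ^ 5 := by ring
  have e2 : K * κ * (3 / 8 - 5 / 96 * (K * s) + 7 / 3072 * (K * s) ^ 2 - 1 / 20480 * (K * s) ^ 3
      + 11 / 17694720 * (K * s) ^ 4 + 1 / 2477260800 * (K * s) ^ 5) =
      K * κ * (3 / 8) - K ^ 2 * κ * (5 / 96) * s + K ^ 3 * κ * (7 / 3072) * s ^ 2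
        - K ^ 4 * κ * (1 / 20480) * s ^ 3 + K ^ 5 * κ * (11 / 17694720) * s ^ 4
        + K ^ 6 * κ * (1 / 2477260800) * s ^ 5 := by ring
  rw [e1] at l'
  rw [e2] at u'
  rw [abs_le] at b0 b1 b2 b3 b4 b5 b6 ⊢
  obtain ⟨c0, d0⟩ := b0
  obtain ⟨c1, d1⟩ := b1
  obtain ⟨c2, d2⟩ := b2
  obtain ⟨c3, d3⟩ := b3
  obtain ⟨c4, d4⟩ := b4
  obtain ⟨c5, d5⟩ := b5
  obtain ⟨c6, d6⟩ := b6
  constructor <;> linarith

end Data


private theorem bj_hi2 : bj (338995 / 100000) < 1000000 / 1582137 := by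
  have h0 : (0 : ℝ) ≤ 338995 / 100000 := by norm_num
  have h1 : (338995 / 100000 : ℝ) ≤ 17 / 5 := by norm_num
  have a1 := (bf_anti h0 h1).tendsto_le_alternating_series (bf_tend _) 3
  simp only [Finset.sum_range_succ, Finset.sum_range_zero, bf] at a1
  norm_num [Nat.factorial] at a1
  linarith

private theorem bj_lo2 : 1000000 / 1582143 < bj (338997 / 100000) := by
  have h0 : (0 : ℝ) ≤ 338997 / 100000 := by norm_num
  have h1 : (338997 / 100000 : ℝ) ≤ 17 / 5 := by norm_num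
  have a1 := (bf_anti h0 h1).alternating_series_le_tendsto (bf_tend _) 3
  simp only [Finset.sum_range_succ, Finset.sum_range_zero, bf] at a1
  norm_num [Nat.factorial] at a1
  linarith

end Aux

private theorem dj (K s : ℝ) : HasDerivAt (fun t => bj (K * t)) (K * bj1 (K * s)) s := by
  have h1 : HasDerivAt (fun t : ℝ => K * t) K s := by
    simpa using (hasDerivAt_id s).const_mul K
  have h2 := (bj_deriv (K * s)).comp s h1
  rw [mul_comm (bj1 (K * s)) K] at h2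
  exact h2

private theorem dj1 (K s : ℝ) : HasDerivAt (fun t => bj1 (K * t)) (K * bj2 (K * s)) s := by
  have h1 : HasDerivAt (fun t : ℝ => K * t) K s := by
    simpa using (hasDerivAt_id s).const_mul K
  have h2 := (bj1_deriv (K * s)).comp s h1
  rw [mul_comm (bj2 (K * s)) K] at h2
  exact h2

private theorem prof_eq {K : ℝ} {φ ψ : ℝ → ℝ} (h : Prof K φ ψ) :
    (∀ s ∈ Icc (0 : ℝ) 1, φ s = bj (K * s) / bj K) ∧
    (∀ s ∈ Icc (0 : ℝ) 1, ψ s = K * bj1 (K * s) / bj K) := by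
  have hK0 : 0 < K := by linarith [h.K_lo]
  have hK1 : K ≤ 17 / 5 := by linarith [h.K_hi]
  have hpos : ∀ s ∈ Icc (0 : ℝ) 1, 0 < bj (K * s) := by
    intro s hs
    have h1 : K * s ≤ K := mul_le_of_le_one_right hK0.le hs.2
    have h2 := bj_pos (mul_nonneg hK0.le hs.1) (h1.trans hK1)
    linarith
  have hφc : Continuous φ := continuous_iff_continuousAt.2 fun x => (h.deriv x).continuousAt
  have hKt : Continuous (fun t : ℝ => K * t) := continuous_const.mul continuous_id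
  have hjc : Continuous (fun t : ℝ => bj (K * t)) := bj_cont.comp hKt
  have hj1c : Continuous (fun t : ℝ => K * bj1 (K * t)) :=
    continuous_const.mul (bj1_cont.comp hKt)
  -- the Wronskian
  have hW : ∀ s ∈ Icc (0 : ℝ) 1, s ^ 2 * ψ s * bj (K * s) - φ s * (s ^ 2 * (K * bj1 (K * s))) = 0 := by
    have hc : Continuous (fun s : ℝ => s ^ 2 * ψ s * bj (K * s) -
        φ s * (s ^ 2 * (K * bj1 (K * s)))) :=
      (((continuous_id.pow 2).mul h.cont).mul hjc).sub (hφc.mul ((continuous_id.pow 2).mul hj1c))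
    have hd : ∀ s ∈ Ico (0 : ℝ) 1, HasDerivWithinAt (fun s : ℝ => s ^ 2 * ψ s * bj (K * s) -
        φ s * (s ^ 2 * (K * bj1 (K * s)))) 0 (Ici s) s := by
      intro s hs
      have h1 := (h.ode s hs.2).mul (dj K s)
      have h2 : HasDerivAt (fun t : ℝ => t ^ 2 * (K * bj1 (K * t)))
          (-(K / 4) * (s * bj (K * s))) s := by
        have h3 := (hasDerivAt_pow 2 s).mul ((dj1 K s).const_mul K)
        refine h3.congr_deriv ?_
        have ho := bj_ode (K * s)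
        have ho' : bj (K * s) = -4 * (K * s * bj2 (K * s) + 2 * bj1 (K * s)) := by linarith
        rw [ho']
        norm_num
        ring
      have h3 := h1.sub ((h.deriv s).mul h2)
      refine (h3.congr_deriv ?_).hasDerivWithinAt
      ring
    intro s hs
    have h4 := constant_of_has_deriv_right_zero hc.continuousOn hd s hs
    rw [h4]
    ring
  have hV : ∀ s ∈ Icc (0 : ℝ) 1, ψ s * bj (K * s) - φ s * (K * bj1 (K * s)) = 0 := by
    have hc : Continuous (fun s : ℝ => ψ s * bj (K * s) - φ s * (K * bj1 (K * s))) :=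
      (h.cont.mul hjc).sub (hφc.mul hj1c)
    have hcl : IsClosed {s : ℝ | ψ s * bj (K * s) - φ s * (K * bj1 (K * s)) = 0} :=
      isClosed_eq hc continuous_const
    have hsub : Ioo (0 : ℝ) 1 ⊆ {s : ℝ | ψ s * bj (K * s) - φ s * (K * bj1 (K * s)) = 0} := by
      intro s hs
      have h1 := hW s ⟨hs.1.le, hs.2.le⟩
      have h2 : s ^ 2 * (ψ s * bj (K * s) - φ s * (K * bj1 (K * s))) = 0 := by
        rw [← h1]
        ring
      rcases mul_eq_zero.1 h2 with h3 | h3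
      · exact absurd h3 (pow_ne_zero 2 hs.1.ne')
      · exact h3
    intro s hs
    have h3 := hcl.closure_subset_iff.2 hsub
    rw [closure_Ioo (zero_ne_one)] at h3
    exact h3 hs
  have hG : ∀ s ∈ Icc (0 : ℝ) 1, φ s / bj (K * s) = φ 0 / bj (K * 0) := by
    have hc : ContinuousOn (fun s : ℝ => φ s / bj (K * s)) (Icc 0 1) :=
      hφc.continuousOn.div hjc.continuousOn fun s hs => (hpos s hs).ne'
    have hd : ∀ s ∈ Ico (0 : ℝ) 1, HasDerivWithinAt (fun s : ℝ => φ s / bj (K * s)) 0 (Ici s) s := by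
      intro s hs
      have h1 := (h.deriv s).div (dj K s) (hpos s ⟨hs.1, hs.2.le⟩).ne'
      refine (h1.congr_deriv ?_).hasDerivWithinAt
      rw [hV s ⟨hs.1, hs.2.le⟩, zero_div]
    exact fun s hs => constant_of_has_deriv_right_zero hc hd s hs
  have h1 : φ 1 = 1 := by
    rw [h.out 1 le_rfl, Real.sqrt_one, one_div_one]
  have hG1 := hG 1 ⟨zero_le_one, le_rfl⟩
  rw [h1, mul_one] at hG1
  have hφ : ∀ s ∈ Icc (0 : ℝ) 1, φ s = bj (K * s) / bj K := by
    intro s hs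
    have h2 := hG s hs
    rw [← hG1, div_eq_iff (hpos s hs).ne'] at h2
    rw [h2]
    ring
  refine ⟨hφ, fun s hs => ?_⟩
  have h2 := hV s hs
  rw [hφ s hs] at h2
  have h3 := (hpos s hs).ne'
  have h4 : bj (K * s) * (ψ s - K * bj1 (K * s) / bj K) = 0 := by
    rw [← h2]
    ring
  rcases mul_eq_zero.1 h4 with h5 | h5
  · exact absurd h5 h3
  · linarith

private theorem cub {u : ℝ} (h0 : 0 ≤ u) (h1 : u ≤ 1) :
    |-11 / 10 ^ 6 + 12605 / 10 ^ 7 * u - 9923 / 3000000 * u ^ 2 + 4221 / 2000000 * u ^ 3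
      + 88 / 10 ^ 6 * u ^ 4| ≤ 16 / 10 ^ 5 := by
  have h2 : 0 ≤ 1 - u := by linarith
  rw [abs_le]
  constructor
  · nlinarith [mul_nonneg h0 (sq_nonneg (u - 3 / 4)), mul_nonneg h0 (sq_nonneg (u - 1)),
      mul_nonneg h0 h2, pow_nonneg h0 4, mul_nonneg h2 (sq_nonneg (u - 3 / 4))]
  · nlinarith [mul_nonneg h0 (sq_nonneg (u - 1)), mul_nonneg h2 (sq_nonneg (u - 1 / 4)),
      mul_nonneg h0 (sq_nonneg (u - 1 / 4)), mul_nonneg (pow_nonneg h0 3) h2, mul_nonneg h0 h2,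
      mul_nonneg h2 (sq_nonneg (u - 3 / 10)), mul_nonneg h0 (sq_nonneg (u - 9 / 10))]

private theorem quad {u : ℝ} (h0 : 0 ≤ u) (h1 : u ≤ 1) :
    |53 / 10 ^ 6 - 319 / 1200000 * u + 2921 / 12000000 * u ^ 2 + 1 / 125000 * u ^ 3| ≤
      96 / 10 ^ 6 := by
  have h2 : 0 ≤ 1 - u := by linarith
  rw [abs_le]
  constructor
  · nlinarith [sq_nonneg (u - 11 / 20), pow_nonneg h0 3]
  · nlinarith [mul_nonneg h0 h2, mul_nonneg (pow_nonneg h0 2) h2]

variable {K L : ℝ} {φ ψ χ ω : ℝ → ℝ}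

theorem enc_phi (h : Prof K φ ψ) : 33899 / 10000 < K ∧ K < 339 / 100 ∧
    (∀ s ∈ Icc (0 : ℝ) 1, |φ s - (1 + (1 - s) / 2 + (1 - s) ^ 2 *
      (762 / 10000 + 59 / 10000 * (1 - s)))| ≤ 1 / 10000 * (1 - s) ^ 2) ∧
    ∀ s ∈ Icc (0 : ℝ) 1, |φ s + 2 * s * ψ s - (1 - s) *
      (1195 / 1000 + 3462 / 10000 * (1 - s) + 408 / 10000 * (1 - s) ^ 2)| ≤ 2 / 10000 * (1 - s) := by
  obtain ⟨hφ, hψ⟩ := prof_eq h
  have hKa : K ∈ Icc (0 : ℝ) (17 / 5) := ⟨by linarith [h.K_lo], by linarith [h.K_hi]⟩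
  have hjK := bj_pos hKa.1 hKa.2
  have hjp : 0 < bj K := by linarith
  have h1 : K * bj1 K / bj K = -1 / 2 := by
    have h2 := hψ 1 ⟨zero_le_one, le_rfl⟩
    rw [h.outd 1 le_rfl, Real.sqrt_one, mul_one, mul_one K] at h2
    rw [← h2]
    norm_num
  have hF : bF K = 0 := by
    unfold bF
    rw [div_eq_iff hjp.ne'] at h1
    linarith
  have hK1 : 338995 / 100000 < K := by
    by_contra hcon
    have h2 := bF_anti hKa (show (338995 / 100000 : ℝ) ∈ Icc (0 : ℝ) (17 / 5) by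
      constructor <;> norm_num) (not_lt.1 hcon)
    have h3 := bF_lo2
    linarith
  have hK2 : K < 338997 / 100000 := by
    by_contra hcon
    have h2 := bF_anti (show (338997 / 100000 : ℝ) ∈ Icc (0 : ℝ) (17 / 5) by
      constructor <;> norm_num) hKa (not_lt.1 hcon)
    have h3 := bF_hi2
    linarith
  obtain ⟨κ, hκ⟩ : ∃ κ : ℝ, κ = 1 / bj K := ⟨_, rfl⟩
  have hκj : κ * bj K = 1 := by
    rw [hκ]
    field_simp
  have hκ1 : 1582137 / 1000000 < κ := by
    have h2 := bj_anti (show (338995 / 100000 : ℝ) ∈ Icc (0 : ℝ) (17 / 5) by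
      constructor <;> norm_num) hKa hK1.le
    have h3 := bj_hi2
    rw [hκ, lt_div_iff₀ hjp]
    linarith
  have hκ2 : κ < 1582143 / 1000000 := by
    have h2 := bj_anti hKa (show (338997 / 100000 : ℝ) ∈ Icc (0 : ℝ) (17 / 5) by
      constructor <;> norm_num) hK2.le
    have h3 := bj_lo2
    rw [hκ, div_lt_iff₀ hjp]
    linarith
  have hφ' : ∀ s ∈ Icc (0 : ℝ) 1, φ s = κ * bj (K * s) := by
    intro s hs
    rw [hφ s hs, hκ]
    ring
  have hψ' : ∀ s ∈ Icc (0 : ℝ) 1, ψ s = κ * (K * bj1 (K * s)) := by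
    intro s hs
    rw [hψ s hs, hκ]
    ring
  have hκ3 : κ * (K * bj1 K) = -1 / 2 := by
    rw [← h1, hκ]
    ring
  refine ⟨by linarith, by linarith, ?_, ?_⟩
  · have key := d_two (ε := 8 / 10 ^ 6)
      (E := fun s => κ * bj (K * s) - (1 + 1 / 2 * (1 - s) + 76253 / 10 ^ 6 * (1 - s) ^ 2
        + 6761 / 1200000 * (1 - s) ^ 3 + 2921 / 12000000 * (1 - s) ^ 4 + 1 / 125000 * (1 - s) ^ 5))
      (E1 := fun s => κ * (K * bj1 (K * s)) + (1 / 2 + 76253 / 500000 * (1 - s)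
        + 6761 / 400000 * (1 - s) ^ 2 + 2921 / 3000000 * (1 - s) ^ 3 + 1 / 25000 * (1 - s) ^ 4
        + 0 * (1 - s) ^ 5))
      (E2 := fun s => κ * (K * (K * bj2 (K * s))) - (76253 / 500000
        + 6761 / 200000 * (1 - s) + 2921 / 1000000 * (1 - s) ^ 2 + 4 / 25000 * (1 - s) ^ 3))
      (fun s => by
        refine (((dj K s).const_mul κ).sub (hp _ _ _ _ _ _ s)).congr_deriv ?_
        ring)
      (fun s => by
        refine ((((dj1 K s).const_mul K).const_mul κ).add (hp _ _ _ _ _ _ s)).congr_deriv ?_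
        ring)
      (by
        simp only [mul_one, sub_self]
        rw [hκj]
        norm_num)
      (by
        simp only [mul_one, sub_self]
        rw [hκ3]
        norm_num)
      (fun s hs => by
        have h2 := phi2 hK1 hK2 hκ1 hκ2 hs
        have e : κ * (K * (K * bj2 (K * s))) - (76253 / 500000
          + 6761 / 200000 * (1 - s) + 2921 / 1000000 * (1 - s) ^ 2 + 4 / 25000 * (1 - s) ^ 3) =
          K ^ 2 * κ * bj2 (K * s) -
            (189392 / 10 ^ 6 - 40127 / 10 ^ 6 * s + 3401 / 10 ^ 6 * s ^ 2 - 160 / 10 ^ 6 * s ^ 3) := by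
          ring
        rw [e]
        exact h2)
    intro s hs
    have h2 := key s hs
    have h3 := quad (u := 1 - s) (by linarith [hs.2]) (by linarith [hs.1])
    rw [hφ' s hs]
    have h4 : 0 ≤ (1 - s) ^ 2 := sq_nonneg _
    have h5 : κ * bj (K * s) - (1 + (1 - s) / 2 + (1 - s) ^ 2 *
        (762 / 10000 + 59 / 10000 * (1 - s))) =
        (κ * bj (K * s) - (1 + 1 / 2 * (1 - s) + 76253 / 10 ^ 6 * (1 - s) ^ 2
        + 6761 / 1200000 * (1 - s) ^ 3 + 2921 / 12000000 * (1 - s) ^ 4 + 1 / 125000 * (1 - s) ^ 5))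
        + (1 - s) ^ 2 * (53 / 10 ^ 6 - 319 / 1200000 * (1 - s) + 2921 / 12000000 * (1 - s) ^ 2
          + 1 / 125000 * (1 - s) ^ 3) := by ring
    rw [h5]
    refine (abs_add_le _ _).trans ?_
    rw [abs_mul ((1 - s) ^ 2), abs_of_nonneg h4]
    have h6 := mul_le_mul_of_nonneg_left h3 h4
    linarith
  · have key := d_one (ε := 4 / 10 ^ 5)
      (E := fun s => κ * bF (K * s) - (0 + 1194989 / 10 ^ 6 * (1 - s) + 694921 / 2000000 * (1 - s) ^ 2
        + 112477 / 3000000 * (1 - s) ^ 3 + 4221 / 2000000 * (1 - s) ^ 4 + 11 / 125000 * (1 - s) ^ 5))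
      (E1 := fun s => κ * ((-bj1 (K * s) - bj (K * s) / 2) * K) + (1194989 / 10 ^ 6
        + 694921 / 10 ^ 6 * (1 - s) + 112477 / 10 ^ 6 * (1 - s) ^ 2 + 4221 / 500000 * (1 - s) ^ 3
        + 11 / 25000 * (1 - s) ^ 4))
      (fun s => by
        have h2 : HasDerivAt (fun t : ℝ => K * t) K s := by
          simpa using (hasDerivAt_id s).const_mul K
        have h3 := (bF_deriv (K * s)).comp s h2
        refine ((h3.const_mul κ).sub (hp _ _ _ _ _ _ s)).congr_deriv ?_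
        ring)
      (by
        simp only [mul_one, sub_self]
        rw [hF]
        norm_num)
      (fun s hs => by
        have h2 := gd2 hK1 hK2 hκ1 hκ2 hs
        rw [← abs_neg]
        have e : -(κ * ((-bj1 (K * s) - bj (K * s) / 2) * K) + (1194989 / 10 ^ 6
          + 694921 / 10 ^ 6 * (1 - s) + 112477 / 10 ^ 6 * (1 - s) ^ 2 + 4221 / 500000 * (1 - s) ^ 3
          + 11 / 25000 * (1 - s) ^ 4)) =
          K * κ * (bj1 (K * s) + bj (K * s) / 2) -
          (2011269 / 10 ^ 6 - 946961 / 10 ^ 6 * s + 140443 / 10 ^ 6 * s ^ 2 - 10202 / 10 ^ 6 * s ^ 3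
            + 440 / 10 ^ 6 * s ^ 4) := by
          ring
        rw [e]
        exact h2)
    intro s hs
    have h2 := key s hs
    have h4 : 0 ≤ 1 - s := by linarith [hs.2]
    have h3 := cub (u := 1 - s) h4 (by linarith [hs.1])
    rw [hφ' s hs, hψ' s hs]
    have h5 : κ * bj (K * s) + 2 * s * (κ * (K * bj1 (K * s))) - (1 - s) *
        (1195 / 1000 + 3462 / 10000 * (1 - s) + 408 / 10000 * (1 - s) ^ 2) =
        (κ * bF (K * s) - (0 + 1194989 / 10 ^ 6 * (1 - s) + 694921 / 2000000 * (1 - s) ^ 2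
        + 112477 / 3000000 * (1 - s) ^ 3 + 4221 / 2000000 * (1 - s) ^ 4 + 11 / 125000 * (1 - s) ^ 5))
        + (1 - s) * (-11 / 10 ^ 6 + 12605 / 10 ^ 7 * (1 - s) - 9923 / 3000000 * (1 - s) ^ 2
          + 4221 / 2000000 * (1 - s) ^ 3 + 88 / 10 ^ 6 * (1 - s) ^ 4) := by
      unfold bF
      ring
    rw [h5]
    refine (abs_add_le _ _).trans ?_
    rw [abs_mul (1 - s), abs_of_nonneg h4]
    have h6 := mul_le_mul_of_nonneg_left h3 h4
    linarith

end Pool.Agent.FND
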