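import Pool.Agent.FND.Defs
import Pool.Agent.FND.Base
import Pool.Agent.Neu.Grad

/-!
FND-FinG: energy of a composition with `T` (chain rule).
-/

set_option autoImplicit false

open MeasureTheory Set
open Pool.Agent.Neu
open Pool.Agent.CS4 (Prof2 bb vv eV)

namespace Pool.Agent.FND

variable {K L : ℝ} {φ ψ χ ω : ℝ → ℝ}

/-- energy of a composition with `T` -/
theorem grad_T {f : E → ℝ} (hf : ContDiff ℝ 1 f) (σ a b : ℝ) (c x : E) :
    ‖fderiv ℝ (fun x => f (T σ a b c x)) x‖ ^ 2
      = enQ (Qp σ a b) (Qm σ a b) (Qr σ a b) f (T σ a b c x) := by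
  have h0 := Gradx.hasFDerivAt_T_zero σ a b c x
  have h1 := Gradx.hasFDerivAt_T_one σ a b c x
  have hT : DifferentiableAt ℝ (T σ a b c) x := by
    rw [differentiableAt_euclidean]
    intro i
    fin_cases i
    · exact h0.differentiableAt
    · exact h1.differentiableAt
  have hTF : ∀ i : Fin 2, HasFDerivAt (fun x => T σ a b c x i)
      ((Gradx.pr i).comp (fderiv ℝ (T σ a b c) x)) x := fun i =>
    (Gradx.pr i).hasFDerivAt.comp x hT.hasFDerivAt
  have u0 := (hTF 0).unique h0
  have u1 := (hTF 1).unique h1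
  have hfd : HasFDerivAt f (fderiv ℝ f (T σ a b c x)) (T σ a b c x) :=
    (hf.differentiable one_ne_zero (T σ a b c x)).hasFDerivAt
  have hc := (hfd.comp x hT.hasFDerivAt).fderiv
  have hc' : fderiv ℝ (fun x => f (T σ a b c x)) x =
      (pd 0 f (T σ a b c x) * (σ * (√(1 + a ^ 2 + b ^ 2) + a)) + pd 1 f (T σ a b c x) * (σ * b)) •
        Gradx.pr 0 +
      (pd 0 f (T σ a b c x) * (σ * b) + pd 1 f (T σ a b c x) * (σ * (√(1 + a ^ 2 + b ^ 2) - a))) •
        Gradx.pr 1 := by
    have h2 : fderiv ℝ (fun x => f (T σ a b c x)) x =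
        (fderiv ℝ f (T σ a b c x)).comp (fderiv ℝ (T σ a b c) x) := hc
    rw [h2]
    ext v
    have hw : ∀ w : E, (fderiv ℝ f (T σ a b c x)) w =
        w 0 * pd 0 f (T σ a b c x) + w 1 * pd 1 f (T σ a b c x) := by
      intro w
      have hws : w = w 0 • EuclideanSpace.single (0 : Fin 2) (1 : ℝ) +
          w 1 • EuclideanSpace.single (1 : Fin 2) (1 : ℝ) := by
        ext i
        fin_cases i
        · simp
        · simp
      conv_lhs => rw [hws]
      rw [map_add, map_smul, map_smul, smul_eq_mul, smul_eq_mul]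
      rfl
    rw [ContinuousLinearMap.comp_apply, hw]
    have v0 := congrArg (fun l : E →L[ℝ] ℝ => l v) u0
    have v1 := congrArg (fun l : E →L[ℝ] ℝ => l v) u1
    have hp : ∀ (i : Fin 2) (w : E), Gradx.pr i w = w i := fun i w => rfl
    simp only [ContinuousLinearMap.comp_apply, add_apply, smul_apply, smul_eq_mul, hp] at v0 v1
    rw [v0, v1]
    simp only [add_apply, smul_apply, smul_eq_mul, hp]
    ring
  rw [hc', Gradx.norm_sq_fun]
  unfold enQ Qp Qm Qr
  ring

end Pool.Agent.FND
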