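import Pool.Agent.FND.Defs
import Pool.Agent.FND.Base
import Pool.Agent.FND.Cst

/-!
FND-PVp: pointwise inequality for PV.

With `u = 1 - s`, `r = √s ≤ 1 - u/2 - u²/8`, `X = 1 - sφ²`, `ν = Nd/s ∈ [.2135, .7865]` one has
`-GI = ν u + (1/2 - ν) X`; the inequality is affine in `ν`, so it is enough to check the two ends, where
everything is `u` times a polynomial of degree 10 in `u`: a positive quadratic plus `u³` times something
positive on `[0, 1]`.
-/

set_option autoImplicit false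

open MeasureTheory Set
open Pool.Agent.Neu
open Pool.Agent.CS4 (Prof2 bb vv eV)

namespace Pool.Agent.FND

variable {K L : ℝ} {φ ψ χ ω : ℝ → ℝ}

private theorem pvp_A {u : ℝ} (h0 : 0 ≤ u) (h1 : u ≤ 1) :
    0 ≤ (427 / 2000) * u + (1 / 2 - (427 / 2000)) * (1 - (1 - u) * (1 + u / 2 + u ^ 2 * (763 / 10000 + 59 / 10000 * u)) ^ 2)
      - 96 / 100 * (427 / 2000) * u * ((1 - u / 2 - u ^ 2 / 8) * ((1 - u) *
        (1 + u / 2 + u ^ 2 * (763 / 10000 + 59 / 10000 * u)) *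
        (1 + u + u ^ 2 * (3341 / 10000 + 563 / 10000 * u + 65 / 10000 * u ^ 2))))
      - 900 / 6283 * ((1 - u / 2 - u ^ 2 / 8) * (1 + u / 2 + u ^ 2 * (763 / 10000 + 59 / 10000 * u)) *
        (1 - (1 - u) * (1 + u + u ^ 2 * (3339 / 10000 + 563 / 10000 * u + 65 / 10000 * u ^ 2)))) := by
  have e : (427 / 2000) * u + (1 / 2 - (427 / 2000)) * (1 - (1 - u) * (1 + u / 2 + u ^ 2 * (763 / 10000 + 59 / 10000 * u)) ^ 2)
      - 96 / 100 * (427 / 2000) * u * ((1 - u / 2 - u ^ 2 / 8) * ((1 - u) *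
        (1 + u / 2 + u ^ 2 * (763 / 10000 + 59 / 10000 * u)) *
        (1 + u + u ^ 2 * (3341 / 10000 + 563 / 10000 * u + 65 / 10000 * u ^ 2))))
      - 900 / 6283 * ((1 - u / 2 - u ^ 2 / 8) * (1 + u / 2 + u ^ 2 * (763 / 10000 + 59 / 10000 * u)) *
        (1 - (1 - u) * (1 + u + u ^ 2 * (3339 / 10000 + 563 / 10000 * u + 65 / 10000 * u ^ 2)))) =
      u * (((427 / 50000) + (4758774933 / 62830000000) * u + (779230924239 / 3141500000000) * u ^ 2) + u ^ 3 * ((150298210411929 / 1256600000000000) + (-154360079767047 / 31415000000000000) * u + (-663414690585909 / 31415000000000000) * u ^ 2 + (-33838317447459 / 3926875000000000) * u ^ 3 + (-61890553037709 / 31415000000000000) * u ^ 4 + (-273696858231 / 981718750000000) * u ^ 5 + (-737540668791 / 31415000000000000) * u ^ 6 + (-982527 / 1000000000000) * u ^ 7)) := by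
    ring
  rw [e]
  have p2 : u ^ 2 ≤ 1 := pow_le_one₀ h0 h1
  have p3 : u ^ 3 ≤ 1 := pow_le_one₀ h0 h1
  have p4 : u ^ 4 ≤ 1 := pow_le_one₀ h0 h1
  have p5 : u ^ 5 ≤ 1 := pow_le_one₀ h0 h1
  have p6 : u ^ 6 ≤ 1 := pow_le_one₀ h0 h1
  have p7 : u ^ 7 ≤ 1 := pow_le_one₀ h0 h1
  have a1 : 0 ≤ (427 / 50000) + (4758774933 / 62830000000) * u + (779230924239 / 3141500000000) * u ^ 2 := by
    nlinarith [_root_.sq_nonneg (u - 2228 / 10000)]
  have a2 : 0 ≤ (150298210411929 / 1256600000000000) + (-154360079767047 / 31415000000000000) * u + (-663414690585909 / 31415000000000000) * u ^ 2 + (-33838317447459 / 3926875000000000) * u ^ 3 + (-61890553037709 / 31415000000000000) * u ^ 4 + (-273696858231 / 981718750000000) * u ^ 5 + (-737540668791 / 31415000000000000) * u ^ 6 + (-982527 / 1000000000000) * u ^ 7 := by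
    linarith
  have a3 : 0 ≤ u ^ 3 := pow_nonneg h0 3
  exact mul_nonneg h0 (add_nonneg a1 (mul_nonneg a3 a2))

private theorem pvp_B {u : ℝ} (h0 : 0 ≤ u) (h1 : u ≤ 1) :
    0 ≤ (1573 / 2000) * u + (1 / 2 - (1573 / 2000)) * (1 - (1 - u) * (1 + u / 2 + u ^ 2 * (761 / 10000 + 59 / 10000 * u)) ^ 2)
      - 96 / 100 * (1573 / 2000) * u * ((1 - u / 2 - u ^ 2 / 8) * ((1 - u) *
        (1 + u / 2 + u ^ 2 * (763 / 10000 + 59 / 10000 * u)) *
        (1 + u + u ^ 2 * (3341 / 10000 + 563 / 10000 * u + 65 / 10000 * u ^ 2))))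
      - 900 / 6283 * ((1 - u / 2 - u ^ 2 / 8) * (1 + u / 2 + u ^ 2 * (763 / 10000 + 59 / 10000 * u)) *
        (1 - (1 - u) * (1 + u + u ^ 2 * (3339 / 10000 + 563 / 10000 * u + 65 / 10000 * u ^ 2)))) := by
  have e : (1573 / 2000) * u + (1 / 2 - (1573 / 2000)) * (1 - (1 - u) * (1 + u / 2 + u ^ 2 * (761 / 10000 + 59 / 10000 * u)) ^ 2)
      - 96 / 100 * (1573 / 2000) * u * ((1 - u / 2 - u ^ 2 / 8) * ((1 - u) *
        (1 + u / 2 + u ^ 2 * (763 / 10000 + 59 / 10000 * u)) *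
        (1 + u + u ^ 2 * (3341 / 10000 + 563 / 10000 * u + 65 / 10000 * u ^ 2))))
      - 900 / 6283 * ((1 - u / 2 - u ^ 2 / 8) * (1 + u / 2 + u ^ 2 * (763 / 10000 + 59 / 10000 * u)) *
        (1 - (1 - u) * (1 + u + u ^ 2 * (3339 / 10000 + 563 / 10000 * u + 65 / 10000 * u ^ 2)))) =
      u * (((1573 / 50000) + (-16755775251 / 62830000000) * u + (1880188347711 / 3141500000000) * u ^ 2) + u ^ 3 * ((352882361483439 / 1256600000000000) + (-2709742979927253 / 31415000000000000) * u + (-3078155089709991 / 31415000000000000) * u ^ 2 + (-140867797174041 / 3926875000000000) * u ^ 3 + (-245416211196291 / 31415000000000000) * u ^ 4 + (-2105502929913 / 1963437500000000) * u ^ 5 + (-2774877847209 / 31415000000000000) * u ^ 6 + (-3619473 / 1000000000000) * u ^ 7)) := by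
    ring
  rw [e]
  have p2 : u ^ 2 ≤ 1 := pow_le_one₀ h0 h1
  have p3 : u ^ 3 ≤ 1 := pow_le_one₀ h0 h1
  have p4 : u ^ 4 ≤ 1 := pow_le_one₀ h0 h1
  have p5 : u ^ 5 ≤ 1 := pow_le_one₀ h0 h1
  have p6 : u ^ 6 ≤ 1 := pow_le_one₀ h0 h1
  have p7 : u ^ 7 ≤ 1 := pow_le_one₀ h0 h1
  have a1 : 0 ≤ (1573 / 50000) + (-16755775251 / 62830000000) * u + (1880188347711 / 3141500000000) * u ^ 2 := by
    nlinarith [_root_.sq_nonneg (u - 2228 / 10000)]
  have a2 : 0 ≤ (352882361483439 / 1256600000000000) + (-2709742979927253 / 31415000000000000) * u + (-3078155089709991 / 31415000000000000) * u ^ 2 + (-140867797174041 / 3926875000000000) * u ^ 3 + (-245416211196291 / 31415000000000000) * u ^ 4 + (-2105502929913 / 1963437500000000) * u ^ 5 + (-2774877847209 / 31415000000000000) * u ^ 6 + (-3619473 / 1000000000000) * u ^ 7 := by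
    linarith
  have a3 : 0 ≤ u ^ 3 := pow_nonneg h0 3
  exact mul_nonneg h0 (add_nonneg a1 (mul_nonneg a3 a2))

private theorem pvp_lin {u X T S v : ℝ} (v1 : 2135 / 10000 ≤ v) (v2 : v ≤ 7865 / 10000)
    (hA : 0 ≤ 427 / 2000 * u + (1 / 2 - 427 / 2000) * X - 96 / 100 * (427 / 2000) * u * T
      - 900 / 6283 * S)
    (hB : 0 ≤ 1573 / 2000 * u + (1 / 2 - 1573 / 2000) * X - 96 / 100 * (1573 / 2000) * u * T
      - 900 / 6283 * S) :
    0 ≤ v * u + (1 / 2 - v) * X - 96 / 100 * v * u * T - 900 / 6283 * S := by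
  have h1 := mul_nonneg (sub_nonneg.2 v2) hA
  have h2 := mul_nonneg (sub_nonneg.2 v1) hB
  have e : (573 / 1000) * (v * u + (1 / 2 - v) * X - 96 / 100 * v * u * T - 900 / 6283 * S) =
      (7865 / 10000 - v) * (427 / 2000 * u + (1 / 2 - 427 / 2000) * X
        - 96 / 100 * (427 / 2000) * u * T - 900 / 6283 * S)
      + (v - 2135 / 10000) * (1573 / 2000 * u + (1 / 2 - 1573 / 2000) * X
        - 96 / 100 * (1573 / 2000) * u * T - 900 / 6283 * S) := by
    ring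
  linarith

private theorem pvp_r {u r : ℝ} (h0 : 0 ≤ u) (h1 : u ≤ 1) (hr : r ^ 2 = 1 - u) :
    r ≤ 1 - u / 2 - u ^ 2 / 8 := by
  by_contra h
  push Not at h
  have h2 : 0 ≤ 1 - u / 2 - u ^ 2 / 8 := by nlinarith
  have h3 : (1 - u / 2 - u ^ 2 / 8) ^ 2 < r ^ 2 := pow_lt_pow_left₀ h h2 (by norm_num)
  have h4 : (1 - u / 2 - u ^ 2 / 8) ^ 2 = 1 - u + (u ^ 3 / 8 + u ^ 4 / 64) := by ring
  have h5 : 0 ≤ u ^ 3 / 8 + u ^ 4 / 64 := by positivity
  linarith

private theorem pvp_c {u a : ℝ} (h0 : 0 ≤ u) (h1 : u ≤ 1) (ha0 : 0 ≤ a) (ha : a ≤ 1 / 2) :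
    0 ≤ 1 - (1 - u) * (1 + u + u ^ 2 * (a + 563 / 10000 * u + 65 / 10000 * u ^ 2)) := by
  have e : 1 - (1 - u) * (1 + u + u ^ 2 * (a + 563 / 10000 * u + 65 / 10000 * u ^ 2)) =
      u ^ 2 * (1 - (1 - u) * (a + 563 / 10000 * u + 65 / 10000 * u ^ 2)) := by ring
  rw [e]
  have h2 : u ^ 2 ≤ 1 := pow_le_one₀ h0 h1
  have h3 : a + 563 / 10000 * u + 65 / 10000 * u ^ 2 ≤ 1 := by linarith
  have h4 : 0 ≤ a + 563 / 10000 * u + 65 / 10000 * u ^ 2 := by positivity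
  have h5 : (1 - u) * (a + 563 / 10000 * u + 65 / 10000 * u ^ 2) ≤ 1 :=
    mul_le_one₀ (by linarith) h4 h3
  exact mul_nonneg (by positivity) (by linarith)

private theorem pvp_alg {u r f c v k : ℝ} (h0 : 0 ≤ u) (h1 : u ≤ 1) (hr0 : 0 ≤ r)
    (hr1 : r ^ 2 = 1 - u)
    (f1 : 1 + u / 2 + u ^ 2 * (761 / 10000 + 59 / 10000 * u) ≤ f)
    (f2 : f ≤ 1 + u / 2 + u ^ 2 * (763 / 10000 + 59 / 10000 * u))
    (c1 : 1 + u + u ^ 2 * (3339 / 10000 + 563 / 10000 * u + 65 / 10000 * u ^ 2) ≤ c)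
    (c2 : c ≤ 1 + u + u ^ 2 * (3341 / 10000 + 563 / 10000 * u + 65 / 10000 * u ^ 2))
    (v1 : 2135 / 10000 ≤ v) (v2 : v ≤ 7865 / 10000) (k1 : k ≤ 900 / 6283) :
    96 / 100 * (r * ((1 - u) * f * c)) * v * u + k * (r * f * (1 - (1 - u) * c)) ≤
      v * (1 - u) * (f ^ 2 - 1) + (1 - (1 - u) * f ^ 2) / 2 := by
  have hA := pvp_A h0 h1
  have hB := pvp_B h0 h1
  have hR := pvp_r h0 h1 hr1
  have hC := pvp_c h0 h1 (a := 3341 / 10000) (by norm_num) (by norm_num)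
  have hs : 0 ≤ 1 - u := by linarith
  have hF0 : 0 ≤ 1 + u / 2 + u ^ 2 * (763 / 10000 + 59 / 10000 * u) := by positivity
  have hG0 : 0 ≤ 1 + u / 2 + u ^ 2 * (761 / 10000 + 59 / 10000 * u) := by positivity
  have hP0 : 0 ≤ 1 + u + u ^ 2 * (3341 / 10000 + 563 / 10000 * u + 65 / 10000 * u ^ 2) := by
    positivity
  have hM0 : 0 ≤ 1 + u + u ^ 2 * (3339 / 10000 + 563 / 10000 * u + 65 / 10000 * u ^ 2) := by
    positivity
  generalize hF : 1 + u / 2 + u ^ 2 * (763 / 10000 + 59 / 10000 * u) = F at *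
  generalize hG : 1 + u / 2 + u ^ 2 * (761 / 10000 + 59 / 10000 * u) = G at *
  generalize hP : 1 + u + u ^ 2 * (3341 / 10000 + 563 / 10000 * u + 65 / 10000 * u ^ 2) = P at *
  generalize hM : 1 + u + u ^ 2 * (3339 / 10000 + 563 / 10000 * u + 65 / 10000 * u ^ 2) = M at *
  generalize hRR : 1 - u / 2 - u ^ 2 / 8 = R at *
  clear hF hG hP hM hRR
  have hR0 : 0 ≤ R := hr0.trans hR
  have hf0 : 0 ≤ f := hG0.trans f1
  have hc0 : 0 ≤ c := hM0.trans c1
  have t1 : r * ((1 - u) * f * c) ≤ R * ((1 - u) * F * P) :=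
    mul_le_mul hR (mul_le_mul (mul_le_mul_of_nonneg_left f2 hs) c2 hc0 (mul_nonneg hs hF0))
      (mul_nonneg (mul_nonneg hs hf0) hc0) hR0
  have s0 : (1 - u) * c ≤ (1 - u) * P := mul_le_mul_of_nonneg_left c2 hs
  have s1 : (1 - u) * M ≤ (1 - u) * c := mul_le_mul_of_nonneg_left c1 hs
  have t2 : r * f * (1 - (1 - u) * c) ≤ R * F * (1 - (1 - u) * M) :=
    mul_le_mul (mul_le_mul hR f2 hf0 hR0) (by linarith) (by linarith) (mul_nonneg hR0 hF0)
  have t3 : 0 ≤ r * f * (1 - (1 - u) * c) :=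
    mul_nonneg (mul_nonneg hr0 hf0) (by linarith)
  have x1 : (1 - u) * f ^ 2 ≤ (1 - u) * F ^ 2 :=
    mul_le_mul_of_nonneg_left (pow_le_pow_left₀ hf0 f2 2) hs
  have x2 : (1 - u) * G ^ 2 ≤ (1 - u) * f ^ 2 :=
    mul_le_mul_of_nonneg_left (pow_le_pow_left₀ hG0 f1 2) hs
  generalize hT : R * ((1 - u) * F * P) = T at *
  generalize hS : R * F * (1 - (1 - u) * M) = S at *
  have hv0 : 0 ≤ v := by linarith
  have g1 : 96 / 100 * (r * ((1 - u) * f * c)) * v * u ≤ 96 / 100 * T * v * u :=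
    mul_le_mul_of_nonneg_right (mul_le_mul_of_nonneg_right (by linarith) hv0) h0
  have g2 : k * (r * f * (1 - (1 - u) * c)) ≤ 900 / 6283 * S :=
    mul_le_mul k1 t2 t3 (by norm_num)
  have g3 : 0 ≤ v * u + (1 / 2 - v) * (1 - (1 - u) * f ^ 2) - 96 / 100 * v * u * T
      - 900 / 6283 * S := by
    refine pvp_lin v1 v2 ?_ ?_
    · linarith
    · linarith
  have e : v * (1 - u) * (f ^ 2 - 1) + (1 - (1 - u) * f ^ 2) / 2 =
      v * u + (1 / 2 - v) * (1 - (1 - u) * f ^ 2) := by ring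
  rw [e]
  have e2 : 96 / 100 * T * v * u = 96 / 100 * v * u * T := by ring
  rw [e2] at g1
  linarith

/-- pointwise inequality; `g² ≥ ...` -/
theorem PV_pt (d : Dat K L φ ψ χ ω) {m : ℝ} (hm0 : 0 ≤ m) (hm1 : m ≤ 573 / 1000) {y : E}
    (hy0 : y ≠ 0) (hy : sq y ≤ 1) :
    96 / 100 * (√(sq y) * (sq y * φ (sq y) * χ (sq y))) * (Nd m y / sq y) * (1 - sq y)
      + 45 / 100 / Real.pi * (√(sq y) * φ (sq y) * (1 - sq y * χ (sq y))) ≤ -GI m φ y := by
  have hs0 : 0 ≤ sq y := M1x.sq_nonneg y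
  have hsp : 0 < sq y := by
    rcases hs0.lt_or_eq with h | h
    · exact h
    · exfalso
      apply hy0
      unfold Pool.Agent.Neu.sq at h
      have h0 : y 0 = 0 := by nlinarith [_root_.sq_nonneg (y 0), _root_.sq_nonneg (y 1)]
      have h1 : y 1 = 0 := by nlinarith [_root_.sq_nonneg (y 0), _root_.sq_nonneg (y 1)]
      ext i
      fin_cases i
      · exact h0
      · exact h1
  have hsI : sq y ∈ Icc (0 : ℝ) 1 := ⟨hs0, hy⟩
  obtain ⟨n1, n2⟩ := Nd_bd hm0 (by linarith : m ≤ 1) y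
  have hphi := abs_le.1 (d.enc.phi _ hsI)
  have hchi := abs_le.1 (d.enc.chi _ hsI)
  have hr1 : √(sq y) ^ 2 = 1 - (1 - sq y) := by
    rw [Real.sq_sqrt hs0]
    ring
  have hr0 : 0 ≤ √(sq y) := Real.sqrt_nonneg _
  have v1 : 2135 / 10000 ≤ Nd m y / sq y := by
    rw [le_div_iff₀ hsp]
    nlinarith
  have v2 : Nd m y / sq y ≤ 7865 / 10000 := by
    rw [div_le_iff₀ hsp]
    nlinarith
  have hnv : Nd m y = Nd m y / sq y * sq y := by
    rw [div_mul_cancel₀ _ hsp.ne']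
  have hp := Real.pi_gt_d4
  have hp0 := Real.pi_pos
  norm_num at hp
  have k1 : 45 / 100 / Real.pi ≤ 900 / 6283 := by
    rw [div_le_iff₀ hp0]
    linarith
  have key := pvp_alg (u := 1 - sq y) (r := √(sq y)) (f := φ (sq y)) (c := χ (sq y))
    (v := Nd m y / sq y) (k := 45 / 100 / Real.pi) (by linarith) (by linarith) hr0 hr1
    (by linarith [hphi.1]) (by linarith [hphi.2]) (by linarith [hchi.1]) (by linarith [hchi.2])
    v1 v2 k1
  rw [show 1 - (1 - sq y) = sq y by ring] at key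
  refine key.trans (le_of_eq ?_)
  unfold GI
  rw [← hnv]
  ring

end Pool.Agent.FND
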