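import Pool.Agent.FND.Defs
import Pool.Agent.FND.PVp
import Pool.Agent.FND.Wid
import Pool.Agent.FND.Vol
import Pool.Agent.FND.BathO
import Pool.Agent.FND.BathI
import Pool.Agent.FND.Cst

/-!
FND-PV: `|P|²` is controlled by `I`.

Plan.  p = a² + b², P = √p, zeta-free: (a,b) are the first moments of w: fields of WS give
a = ∫_W w-component (see the definition of pb, R1, R3, C3, WS in Defs).  As in CS4/PV (same statement with other
constants): with e = (a,b)/P and w = R3-type integrand,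
p = ∫_{W\D}(...) - ∫_{D\W}(...), where (out) the integrand is at most the linear function along e of y, and (in) it is
P(s φ χ r ν-part) ...; precisely P = ∫_W f with f = φχ R3 - z φ R1 contracted with e, f = C3 out.
1. crude: |f| <= 1 on both sides, so P <= 2|S| (S = D\W), |S| <= √(pi II/νmin) (Vol.vol_le), hence z P <= .45 for every z
with z² <= 22/222 (II <= (pi/4)(.22 - 2.22 z²)/(.96(1+z²))).
2. mu = 1/(pi(1+z²)) ; bath_out (BathO) with sigma = 1, c = 0, l = mu: and bath_in (BathI) with sigma = .96 and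
PV_pt: ∫_{W\D}(GI - mu P C3 ...) >= -mu²... ; adding up:
 II >= mu (P · P) - (mu² P² pi(1+z²)/2)(...) = P²/(2 pi (1+z²)) (1/... ) and the constant .979 = 2 - 1/2 - 1/(2·.96)·...:
 with both halves: II >= mu p - (mu² p pi (1+z²)/4)(1 + 1/.96) = p/(pi (1+z²)) (1 - .25 - .2604) = .4896 p/(pi(1+z²)).
(2 · .4896 = .979.)  See the statements of BathO/BathI for the exact form of the two baths.
-/

set_option autoImplicit false

open MeasureTheory Set
open Pool.Agent.Neu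
open Pool.Agent.CS4 (Prof2 bb vv eV)

namespace Pool.Agent.FND

variable {K L : ℝ} {φ ψ χ ω : ℝ → ℝ}

private theorem pv_R3 (a b : ℝ) (y : E) : R3 a b y ^ 2 ≤ (a ^ 2 + b ^ 2) * sq y ^ 3 := by
  have h : R3 a b y ^ 2 = (a ^ 2 + b ^ 2) * sq y ^ 3 - I3 a b y ^ 2 := by
    unfold R3 I3 c3 s3 Neu.sq
    ring
  rw [h]
  linarith [_root_.sq_nonneg (I3 a b y)]

private theorem pv_R1 (a b : ℝ) (y : E) : R1 a b y ^ 2 ≤ (a ^ 2 + b ^ 2) * sq y := by
  have h : R1 a b y ^ 2 = (a ^ 2 + b ^ 2) * sq y - (a * y 1 - b * y 0) ^ 2 := by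
    unfold R1 Neu.sq
    ring
  rw [h]
  linarith [_root_.sq_nonneg (a * y 1 - b * y 0)]

/-- `C₃`, `C₁` are bounded by `P` -/
private theorem pv_C3 (a b : ℝ) {y : E} (hs : 0 < sq y) :
    |R3 a b y / √(sq y) ^ 3| ≤ √(a ^ 2 + b ^ 2) := by
  have hr : 0 < √(sq y) := Real.sqrt_pos.2 hs
  have hr2 : √(sq y) ^ 2 = sq y := Real.sq_sqrt hs.le
  refine Real.abs_le_sqrt ?_
  rw [div_pow, div_le_iff₀ (by positivity)]
  calc R3 a b y ^ 2 ≤ (a ^ 2 + b ^ 2) * sq y ^ 3 := pv_R3 a b y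
    _ = (a ^ 2 + b ^ 2) * (√(sq y) ^ 3) ^ 2 := by
      rw [← pow_mul, show 3 * 2 = 2 * 3 by norm_num, pow_mul, hr2]

private theorem pv_C1 (a b : ℝ) {y : E} (hs : 0 < sq y) :
    |R1 a b y / √(sq y)| ≤ √(a ^ 2 + b ^ 2) := by
  have hr : 0 < √(sq y) := Real.sqrt_pos.2 hs
  have hr2 : √(sq y) ^ 2 = sq y := Real.sq_sqrt hs.le
  refine Real.abs_le_sqrt ?_
  rw [div_pow, div_le_iff₀ (by positivity), hr2]
  exact pv_R1 a b y

private theorem pv_phi (h : Prof K φ ψ) : Continuous φ :=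
  continuous_iff_continuousAt.2 fun s => (h.deriv s).continuousAt

private theorem pv_chi (h : Prof2 L χ ω) : Continuous χ :=
  continuous_iff_continuousAt.2 fun s => (h.deriv s).continuousAt

private theorem pv_contR3 (a b : ℝ) : Continuous (R3 a b) := by
  unfold R3 c3 s3
  fun_prop

private theorem pv_contR1 (a b : ℝ) : Continuous (R1 a b) := by
  unfold R1
  fun_prop

/-- odd functions have integral zero on the disc -/
private theorem pv_odd {F : E → ℝ} (hF : ∀ y, F (-y) = -F y) : ∫ y in D, F y = 0 := by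
  rw [← integral_indicator M1x.measD]
  have h1 : ∫ y, (D : Set E).indicator F (-y) = ∫ y, (D : Set E).indicator F y :=
    integral_neg_eq_self _ _
  have h2 : ∀ y, (D : Set E).indicator F (-y) = -(D : Set E).indicator F y := by
    intro y
    by_cases hy : y ∈ (D : Set E)
    · have hy' : -y ∈ (D : Set E) := by
        rw [mem_ball_zero_iff] at hy ⊢
        rwa [norm_neg]
      rw [indicator_of_mem hy, indicator_of_mem hy', hF]
    · have hy' : -y ∉ (D : Set E) := by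
        intro h
        apply hy
        rw [mem_ball_zero_iff] at h ⊢
        rwa [norm_neg] at h
      rw [indicator_of_notMem hy, indicator_of_notMem hy', neg_zero]
  simp only [h2] at h1
  rw [integral_neg] at h1
  linarith

private theorem pv_sq_neg (y : E) : sq (-y) = sq y := by
  unfold Neu.sq
  simp

private theorem pv_R3_neg (a b : ℝ) (y : E) : R3 a b (-y) = -R3 a b y := by
  unfold R3 c3 s3
  simp only [PiLp.neg_apply]
  ring

private theorem pv_R1_neg (a b : ℝ) (y : E) : R1 a b (-y) = -R1 a b y := by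
  unfold R1
  simp only [PiLp.neg_apply]
  ring

/-- `κ = r³ φ χ` -/
private theorem pv_kap (h : Prof K φ ψ) (h2 : Prof2 L χ ω) {s : ℝ} (hs : s ∈ Icc (0 : ℝ) 1) :
    0 ≤ √s * φ s ∧ √s * φ s ≤ 1 ∧ 0 ≤ s * χ s ∧ s * χ s ≤ 1 := by
  have h3 := h.one_le s hs
  have h4 := h2.one_le s hs
  have h5 := h2.le s hs
  have h6 := (g2_bd h hs).2
  have hr : 0 ≤ √s := Real.sqrt_nonneg _
  have h7 : 0 ≤ √s * φ s := mul_nonneg hr (by linarith)
  refine ⟨h7, ?_, mul_nonneg hs.1 (by linarith), ?_⟩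
  · have h8 : (√s * φ s) ^ 2 ≤ 1 := by
      rw [mul_pow, Real.sq_sqrt hs.1]
      exact h6
    nlinarith
  · nlinarith [_root_.sq_nonneg (1 - s)]

private theorem pv_min {κ X : ℝ} (h0 : 0 ≤ κ) (h1 : κ ≤ 1) : -max 0 (-X) ≤ κ * X := by
  rcases le_total 0 X with h | h
  · rw [max_eq_left (by linarith)]
    simpa using mul_nonneg h0 h
  · rw [max_eq_right (by linarith)]
    nlinarith

private theorem pv_alg {r s f c ν l z C3 C1 G Q P : ℝ} (h0 : 96 / 100 * (r * (s * f * c)) * ν * (1 - s)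
    + Q * (r * f * (1 - s * c)) ≤ G) (k1 : 0 ≤ r * f) (k2 : r * f ≤ 1) (k3 : 0 ≤ s * c)
    (k4 : s * c ≤ 1) (hl : 0 ≤ l) (hz0 : 0 ≤ z) (hP : l * (z * P) ≤ Q) (hC1 : |C1| ≤ P) :
    -max 0 (-(l * (C3 - z * C1)) - 96 / 100 * ν * (1 - s)) ≤
      G + l * (f * c * (r * s * C3) - z * (f * (r * C1))) := by
  have hκ0 : 0 ≤ (r * f) * (s * c) := mul_nonneg k1 k3
  have hκ1 : (r * f) * (s * c) ≤ 1 := mul_le_one₀ k2 k3 k4
  have hX := pv_min (X := l * (C3 - z * C1) + 96 / 100 * ν * (1 - s)) hκ0 hκ1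
  rw [show -(l * (C3 - z * C1)) - 96 / 100 * ν * (1 - s) =
    -(l * (C3 - z * C1) + 96 / 100 * ν * (1 - s)) by ring]
  refine hX.trans ?_
  have h5 : l * (z * C1) ≤ Q := by
    refine le_trans ?_ hP
    exact mul_le_mul_of_nonneg_left (mul_le_mul_of_nonneg_left ((le_abs_self _).trans hC1) hz0) hl
  have h6 : l * (z * C1) * (r * f * (1 - s * c)) ≤ Q * (r * f * (1 - s * c)) :=
    mul_le_mul_of_nonneg_right h5 (mul_nonneg k1 (by linarith))
  have h7 : l * (f * c * (r * s * C3) - z * (f * (r * C1))) =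
      (r * f) * (s * c) * (l * (C3 - z * C1)) - l * (z * C1) * (r * f * (1 - s * c)) := by ring
  rw [h7]
  have h8 : 96 / 100 * (r * (s * f * c)) * ν * (1 - s) =
      (r * f) * (s * c) * (96 / 100 * ν * (1 - s)) := by ring
  rw [h8] at h0
  linarith

/-- pointwise inequality inside -/
private theorem pv_in (d : Dat K L φ ψ χ ω) {z a b l : ℝ} (hz0 : 0 ≤ z)
    (hm : 2 * z / (1 + z ^ 2) ≤ 573 / 1000) (hl : 0 ≤ l)
    (hP : l * (z * √(a ^ 2 + b ^ 2)) ≤ 45 / 100 / Real.pi) {y : E} (hy : sq y ≤ 1) (hy0 : y ≠ 0)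
    (hs : 0 < sq y) :
    -max 0 (-Bf (2 * z / (1 + z ^ 2)) z a b l 0 y
      - 96 / 100 * (Nd (2 * z / (1 + z ^ 2)) y / sq y) * (1 - sq y)) ≤
    -GI (2 * z / (1 + z ^ 2)) φ y + l * (φ (sq y) * χ (sq y) * R3 a b y
      - z * (φ (sq y) * R1 a b y)) := by
  have h0 := PV_pt d (m := 2 * z / (1 + z ^ 2)) (by positivity) hm hy0 hy
  obtain ⟨k1, k2, k3, k4⟩ := pv_kap d.prof d.prof2 ⟨hs.le, hy⟩
  have hr : 0 < √(sq y) := Real.sqrt_pos.2 hs
  have hr2 : √(sq y) ^ 2 = sq y := Real.sq_sqrt hs.le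
  have hC1 := pv_C1 a b hs
  have h := pv_alg (C3 := R3 a b y / √(sq y) ^ 3) h0 k1 k2 k3 k4 hl hz0 hP hC1
  have e3 : √(sq y) * sq y * (R3 a b y / √(sq y) ^ 3) = R3 a b y := by
    have h3 : √(sq y) * sq y = √(sq y) ^ 3 := by
      nth_rewrite 2 [← hr2]
      ring
    rw [h3]
    field_simp
  have e1 : √(sq y) * (R1 a b y / √(sq y)) = R1 a b y := by
    field_simp
  have eB : Bf (2 * z / (1 + z ^ 2)) z a b l 0 y =
      l * (R3 a b y / √(sq y) ^ 3 - z * (R1 a b y / √(sq y))) := by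
    unfold Bf
    ring
  rw [e3, e1] at h
  rw [eB]
  exact h

/-- pointwise identity outside -/
private theorem pv_out (d : Dat K L φ ψ χ ω) (z a b : ℝ) {y : E} (hy : 1 ≤ sq y) :
    φ (sq y) * χ (sq y) * R3 a b y - z * (φ (sq y) * R1 a b y) =
      R3 a b y / √(sq y) ^ 3 - z * (R1 a b y / √(sq y)) := by
  have hs : 0 < sq y := by linarith
  have hr : 0 < √(sq y) := Real.sqrt_pos.2 hs
  have hr2 : √(sq y) ^ 2 = sq y := Real.sq_sqrt hs.le
  rw [d.prof.out _ hy, d.prof2.out _ hy]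
  have h3 : √(sq y) ^ 3 = √(sq y) * sq y := by
    nth_rewrite 3 [← hr2]
    ring
  rw [h3]
  field_simp

theorem PV {W : Set E} {a b : ℝ} (d : Dat K L φ ψ χ ω) (hW : WS φ χ W a b) {z : ℝ} (hz0 : 0 ≤ z)
    (hz : z ^ 2 ≤ 22 / 222)
    (hI : II (2 * z / (1 + z ^ 2)) φ W
      ≤ Real.pi / 4 * (22 / 100 - 222 / 100 * z ^ 2) / (96 / 100 * (1 + z ^ 2))) :
    979 / 1000 * (a ^ 2 + b ^ 2) ≤ 2 * Real.pi * (1 + z ^ 2) * II (2 * z / (1 + z ^ 2)) φ W := by
  have hφ := pv_phi d.prof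
  have hχ := pv_chi d.prof2
  have cR3 := pv_contR3 a b
  have cR1 := pv_contR1 a b
  have cs := M1x.cont_sq
  have hpi := Real.pi_pos
  have hz1 : z < 1 := by nlinarith
  have hz2 : z ≤ 31481 / 100000 := by nlinarith
  have hz3 : 0 < 1 + z ^ 2 := by positivity
  have hm : 2 * z / (1 + z ^ 2) ≤ 573 / 1000 := by
    rw [div_le_iff₀ hz3]
    nlinarith [_root_.sq_nonneg (z - 31481 / 100000)]
  have hm0 : 0 ≤ 2 * z / (1 + z ^ 2) := by positivity
  have cG := cont_GI d.prof (2 * z / (1 + z ^ 2))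
  have hOm : MeasurableSet (W \ D) := hW.meas.diff M1x.measD
  have hSm : MeasurableSet ((D : Set E) \ W) := M1x.measD.diff hW.meas
  have hOb : Bornology.IsBounded (W \ D) := hW.bdd.subset sdiff_subset
  have hSb : Bornology.IsBounded ((D : Set E) \ W) := M1x.bdD.subset sdiff_subset
  have hOs : ∀ y ∈ W \ D, 1 ≤ sq y := fun y hy => by
    have := hy.2
    rw [M1x.mem_D] at this
    linarith
  have hSs : ∀ y ∈ (D : Set E) \ W, sq y ≤ 1 := fun y hy => (M1x.mem_D.1 hy.1).le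
  have hOf : volume (W \ D) < ⊤ := hOb.measure_lt_top
  have hSf : volume ((D : Set E) \ W) < ⊤ := hSb.measure_lt_top
  have hvol := vol_OS hW
  obtain ⟨P, hP⟩ : ∃ P, P = √(a ^ 2 + b ^ 2) := ⟨_, rfl⟩
  have hP0 : 0 ≤ P := hP ▸ Real.sqrt_nonneg _
  have hP2 : P ^ 2 = a ^ 2 + b ^ 2 := by
    rw [hP]
    exact Real.sq_sqrt (by positivity)
  -- crude bound
  have cF0 : Continuous fun y : E => φ (sq y) * χ (sq y) * R3 a b y := by fun_prop
  have hcr : P ≤ 2 * volume.real ((D : Set E) \ W) := by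
    have h1 := split_int hW.meas hW.bdd cF0
    rw [W_P d.prof d.prof2 hW, pv_odd (fun y => by simp only [pv_sq_neg, pv_R3_neg]; ring)] at h1
    have h2 : ‖∫ y in W \ D, φ (sq y) * χ (sq y) * R3 a b y‖ ≤ P * volume.real (W \ D) := by
      refine norm_setIntegral_le_of_norm_le_const hOf fun y hy => ?_
      have hy1 := hOs y hy
      have h3 := pv_out d 0 a b hy1
      simp only [zero_mul, sub_zero] at h3
      rw [h3, Real.norm_eq_abs, hP]
      exact pv_C3 a b (by linarith)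
    have h4 : ‖∫ y in (D : Set E) \ W, φ (sq y) * χ (sq y) * R3 a b y‖ ≤
        P * volume.real ((D : Set E) \ W) := by
      refine norm_setIntegral_le_of_norm_le_const hSf fun y hy => ?_
      have hy1 := hSs y hy
      obtain ⟨k1, k2, k3, k4⟩ := pv_kap d.prof d.prof2 ⟨M1x.sq_nonneg y, hy1⟩
      rw [Real.norm_eq_abs, hP]
      refine Real.abs_le_sqrt ?_
      have h5 := pv_R3 a b y
      have h6 : (φ (sq y) * χ (sq y) * R3 a b y) ^ 2 ≤
          (φ (sq y) * χ (sq y)) ^ 2 * ((a ^ 2 + b ^ 2) * sq y ^ 3) := by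
        rw [mul_pow]
        exact mul_le_mul_of_nonneg_left h5 (_root_.sq_nonneg _)
      refine h6.trans ?_
      have h7 : (φ (sq y) * χ (sq y)) ^ 2 * ((a ^ 2 + b ^ 2) * sq y ^ 3) =
          (a ^ 2 + b ^ 2) * ((√(sq y) * φ (sq y)) ^ 2 * (sq y * χ (sq y)) ^ 2) := by
        rw [mul_pow (√(sq y)), Real.sq_sqrt (M1x.sq_nonneg y)]
        ring
      rw [h7]
      have h8 : (√(sq y) * φ (sq y)) ^ 2 * (sq y * χ (sq y)) ^ 2 ≤ 1 :=
        mul_le_one₀ (pow_le_one₀ k1 k2) (_root_.sq_nonneg _) (pow_le_one₀ k3 k4)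
      exact mul_le_of_le_one_right (by positivity) h8
    rw [Real.norm_eq_abs, abs_le] at h2 h4
    rw [hvol] at h2
    obtain ⟨v, hv⟩ : ∃ v, v = volume.real ((D : Set E) \ W) := ⟨_, rfl⟩
    rw [← hv] at h2 h4 ⊢
    have h9 : P ^ 2 ≤ 2 * (P * v) := by
      rw [hP2]
      linarith [h2.2, h4.1]
    rcases hP0.eq_or_lt with h | h
    · rw [← h]
      have : 0 ≤ v := hv ▸ measureReal_nonneg
      linarith
    · by_contra hc
      push Not at hc
      nlinarith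
  have hv2 := vol_le d.prof hW hm0 (by linarith : 2 * z / (1 + z ^ 2) < 1)
  obtain ⟨v, hv⟩ : ∃ v, v = volume.real ((D : Set E) \ W) := ⟨_, rfl⟩
  rw [← hv] at hcr hv2
  have hv0 : 0 ≤ v := hv ▸ measureReal_nonneg
  obtain ⟨J, hJ⟩ : ∃ J, J = II (2 * z / (1 + z ^ 2)) φ W := ⟨_, rfl⟩
  rw [← hJ] at hv2 hI ⊢
  have hzP : z * P ≤ 45 / 100 := by
    have h1 : (1 - 2 * z / (1 + z ^ 2)) / 2 = (1 - z) ^ 2 / (2 * (1 + z ^ 2)) := by
      field_simp
      ring
    rw [h1] at hv2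
    have h2 : (1 - z) ^ 2 / (2 * (1 + z ^ 2)) * v ^ 2 ≤
        Real.pi * (Real.pi / 4 * (22 / 100 - 222 / 100 * z ^ 2) / (96 / 100 * (1 + z ^ 2))) :=
      hv2.trans (mul_le_mul_of_nonneg_left hI hpi.le)
    have h3 : (1 - z) ^ 2 * v ^ 2 ≤
        Real.pi ^ 2 * (22 / 100 - 222 / 100 * z ^ 2) / (192 / 100) := by
      have h4 := mul_le_mul_of_nonneg_left h2 (by positivity : 0 ≤ 2 * (1 + z ^ 2))
      have h5 : 2 * (1 + z ^ 2) * ((1 - z) ^ 2 / (2 * (1 + z ^ 2)) * v ^ 2) =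
          (1 - z) ^ 2 * v ^ 2 := by field_simp
      have h6 : 2 * (1 + z ^ 2) *
          (Real.pi * (Real.pi / 4 * (22 / 100 - 222 / 100 * z ^ 2) / (96 / 100 * (1 + z ^ 2)))) =
          Real.pi ^ 2 * (22 / 100 - 222 / 100 * z ^ 2) / (192 / 100) := by
        field_simp
        ring
      rw [h5, h6] at h4
      exact h4
    have hq : 0 ≤ 22 / 100 - 222 / 100 * z ^ 2 := by linarith
    have hp2 : Real.pi ^ 2 ≤ 98697 / 10000 := by
      have := Real.pi_lt_d6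
      nlinarith [Real.pi_gt_d6]
    have h7 : (1 - z) ^ 2 * v ^ 2 ≤ 98697 / 10000 * (22 / 100 - 222 / 100 * z ^ 2) / (192 / 100) :=
      h3.trans (by
        apply div_le_div_of_nonneg_right _ (by norm_num)
        exact mul_le_mul_of_nonneg_right hp2 hq)
    have h8 : z ^ 2 * (98697 / 10000 * (22 / 100 - 222 / 100 * z ^ 2) / (192 / 100)) ≤
        2025 / 40000 * (1 - z) ^ 2 := by
      nlinarith [_root_.sq_nonneg (z ^ 2 - 56574 / 1000000), _root_.sq_nonneg (z - 24 / 100)]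
    have h9 : (1 - z) ^ 2 * (z * v) ^ 2 ≤ 2025 / 40000 * (1 - z) ^ 2 := by
      have h10 := mul_le_mul_of_nonneg_left h7 (_root_.sq_nonneg z)
      have h10' : (1 - z) ^ 2 * (z * v) ^ 2 = z ^ 2 * ((1 - z) ^ 2 * v ^ 2) := by ring
      rw [h10']
      linarith
    have h11 : (z * v) ^ 2 ≤ (225 / 1000) ^ 2 := by
      have h12 : 0 < (1 - z) ^ 2 := by
        have : 0 < 1 - z := by linarith
        positivity
      by_contra hc
      push Not at hc
      nlinarith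
    have h13 : z * v ≤ 225 / 1000 := by
      by_contra hc
      push Not at hc
      nlinarith
    nlinarith
  -- the two baths
  obtain ⟨l, hl⟩ : ∃ l, l = 1 / (Real.pi * (1 + z ^ 2)) := ⟨_, rfl⟩
  have hl0 : 0 < l := by
    rw [hl]
    positivity
  have hlz : l * (z * √(a ^ 2 + b ^ 2)) ≤ 45 / 100 / Real.pi := by
    rw [← hP]
    have h1 : l ≤ 1 / Real.pi := by
      rw [hl]
      apply one_div_le_one_div_of_le hpi
      nlinarith [mul_nonneg hpi.le (_root_.sq_nonneg z)]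
    calc l * (z * P) ≤ 1 / Real.pi * (45 / 100) :=
          mul_le_mul h1 hzP (mul_nonneg hz0 hP0) (by positivity)
      _ = 45 / 100 / Real.pi := by ring
  have cF : Continuous fun y : E => φ (sq y) * χ (sq y) * R3 a b y - z * (φ (sq y) * R1 a b y) := by
    fun_prop
  have hout := bath_out (a := a) (b := b) (l := l) (c := 0) (σ := 1) (T := W \ D)
    (F := fun y => GI (2 * z / (1 + z ^ 2)) φ y - l * (φ (sq y) * χ (sq y) * R3 a b y
      - z * (φ (sq y) * R1 a b y))) hz0 hz1 one_pos hOm hOs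
    (M1x.intOn (cG.sub (cF.const_mul l)) hOb) (fun y hy => by
      have hy1 := hOs y hy
      have h1 := pv_out d z a b hy1
      have h2 := GI_out d.prof (m := 2 * z / (1 + z ^ 2)) hy1
      simp only [h1, h2]
      have h3 := le_max_right (0 : ℝ) (Bf (2 * z / (1 + z ^ 2)) z a b l 0 y
        - 1 * (Nd (2 * z / (1 + z ^ 2)) y / sq y) * (sq y - 1))
      have h4 : Bf (2 * z / (1 + z ^ 2)) z a b l 0 y =
          l * (R3 a b y / √(sq y) ^ 3 - z * (R1 a b y / √(sq y))) := by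
        unfold Bf
        ring
      rw [h4] at h3 ⊢
      linarith)
  have hin := bath_in (a := a) (b := b) (l := l) (c := 0) (σ := 96 / 100) (T := (D : Set E) \ W)
    (F := fun y => -GI (2 * z / (1 + z ^ 2)) φ y + l * (φ (sq y) * χ (sq y) * R3 a b y
      - z * (φ (sq y) * R1 a b y))) hz0 hz1 (by norm_num) hSm sdiff_subset
    (M1x.intOn (cG.neg.add (cF.const_mul l)) hSb) (fun y hy hy0 => by
      have hs : 0 < sq y := by
        rw [M1x.sq_eq]
        have := norm_pos_iff.2 hy0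
        positivity
      exact pv_in d hz0 hm hl0.le hlz (hSs y hy) hy0 hs)
  -- integrals
  have i1 : ∫ y in W \ D, (GI (2 * z / (1 + z ^ 2)) φ y - l * (φ (sq y) * χ (sq y) * R3 a b y
      - z * (φ (sq y) * R1 a b y))) = (∫ y in W \ D, GI (2 * z / (1 + z ^ 2)) φ y) -
      l * ∫ y in W \ D, (φ (sq y) * χ (sq y) * R3 a b y - z * (φ (sq y) * R1 a b y)) := by
    rw [integral_sub (M1x.intOn cG hOb) ((M1x.intOn cF hOb).const_mul l), integral_const_mul]
  have i2 : ∫ y in (D : Set E) \ W, (-GI (2 * z / (1 + z ^ 2)) φ y + l * (φ (sq y) * χ (sq y) * R3 a b y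
      - z * (φ (sq y) * R1 a b y))) = -(∫ y in (D : Set E) \ W, GI (2 * z / (1 + z ^ 2)) φ y) +
      l * ∫ y in (D : Set E) \ W, (φ (sq y) * χ (sq y) * R3 a b y - z * (φ (sq y) * R1 a b y)) := by
    have hn : Integrable (fun y => -GI (2 * z / (1 + z ^ 2)) φ y)
        (volume.restrict ((D : Set E) \ W)) := (M1x.intOn cG hSb).neg
    rw [integral_add hn ((M1x.intOn cF hSb).const_mul l), integral_const_mul, integral_neg]
  rw [i1] at hout
  rw [i2] at hin
  have i3 := split_int hW.meas hW.bdd cF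
  rw [pv_odd (fun y => by simp only [pv_sq_neg, pv_R3_neg, pv_R1_neg]; ring)] at i3
  have i4 : ∫ y in W, (φ (sq y) * χ (sq y) * R3 a b y - z * (φ (sq y) * R1 a b y)) =
      a ^ 2 + b ^ 2 := by
    rw [integral_sub (M1x.intOn cF0 hW.bdd)
      ((M1x.intOn (by fun_prop : Continuous fun y : E => φ (sq y) * R1 a b y) hW.bdd).const_mul z),
      integral_const_mul, W_P d.prof d.prof2 hW, W_R1 d.prof hW a b]
    ring
  rw [i4] at i3
  have i5 := II_eq d.prof hW (2 * z / (1 + z ^ 2))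
  rw [← hJ] at i5
  obtain ⟨A1, hA1⟩ : ∃ A1, A1 = ∫ y in W \ D, GI (2 * z / (1 + z ^ 2)) φ y := ⟨_, rfl⟩
  obtain ⟨A2, hA2⟩ : ∃ A2, A2 = ∫ y in (D : Set E) \ W, GI (2 * z / (1 + z ^ 2)) φ y := ⟨_, rfl⟩
  obtain ⟨B1, hB1⟩ : ∃ B1, B1 = ∫ y in W \ D, (φ (sq y) * χ (sq y) * R3 a b y
    - z * (φ (sq y) * R1 a b y)) := ⟨_, rfl⟩
  obtain ⟨B2, hB2⟩ : ∃ B2, B2 = ∫ y in (D : Set E) \ W, (φ (sq y) * χ (sq y) * R3 a b y
    - z * (φ (sq y) * R1 a b y)) := ⟨_, rfl⟩
  rw [← hA1, ← hB1] at hout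
  rw [← hA2, ← hB2] at hin
  rw [← hB1, ← hB2] at i3
  rw [← hA1, ← hA2] at i5
  obtain ⟨p, hp⟩ : ∃ p, p = a ^ 2 + b ^ 2 := ⟨_, rfl⟩
  have hp0 : 0 ≤ p := hp ▸ (by positivity)
  rw [← hp] at hout hin i3 ⊢
  have hlp : l * (Real.pi * (1 + z ^ 2)) = 1 := by
    rw [hl]
    field_simp
  have e1 : 1 / (8 * 1) * (2 * Real.pi * l ^ 2 * (1 + z ^ 2) + 2 * Real.pi * l * 0
      + Real.pi * 0 ^ 2 / 2) * p = 1 / 4 * l * p := by
    linear_combination (1 / 4 * l * p) * hlp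
  have e2 : 1 / (8 * (96 / 100)) * (2 * Real.pi * l ^ 2 * (1 + z ^ 2) + 2 * Real.pi * l * 0
      + Real.pi * 0 ^ 2 / 2) * p = 25 / 96 * l * p := by
    linear_combination (25 / 96 * l * p) * hlp
  rw [e1] at hout
  rw [e2] at hin
  have h19 : l * p = l * B1 - l * B2 := by
    rw [i3]
    ring
  have h20 : (1 - 1 / 4 - 25 / 96) * (l * p) ≤ J := by
    rw [i5]
    linarith
  have h21 : 2 * (Real.pi * (1 + z ^ 2)) * ((1 - 1 / 4 - 25 / 96) * (l * p)) ≤
      2 * (Real.pi * (1 + z ^ 2)) * J := mul_le_mul_of_nonneg_left h20 (by positivity)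
  have h22 : 2 * (Real.pi * (1 + z ^ 2)) * ((1 - 1 / 4 - 25 / 96) * (l * p)) =
      2 * (1 - 1 / 4 - 25 / 96) * p := by
    linear_combination (2 * (1 - 1 / 4 - 25 / 96) * p) * hlp
  rw [h22] at h21
  have h23 : 2 * Real.pi * (1 + z ^ 2) * J = 2 * (Real.pi * (1 + z ^ 2)) * J := by ring
  rw [h23]
  linarith

end Pool.Agent.FND
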