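import Pool.Agent.FND.Defs
import Pool.Agent.FND.Core
import Pool.Agent.FND.CenA
import Pool.Agent.FND.Cen
import Pool.Agent.FND.PV

/-!
FND-WThm: the theorem for `W` with diagonal `Q`.

helper14 does this file.
-/

set_option autoImplicit false

open MeasureTheory Set
open Pool.Agent.Neu
open Pool.Agent.CS4 (Prof2 bb vv eV)

namespace Pool.Agent.FND

variable {K L : ℝ} {φ ψ χ ω : ℝ → ℝ}

private lemma bdsI {I q q0 : ℝ} (hI0 : 0 ≤ I) (hq0 : 0 ≤ q0) (hq : q0 ≤ q)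
    (h : I * (96 / 100 * (1 + q)) ≤ Real.pi / 4 * (22 / 100 - 222 / 100 * q)) :
    I * (96 / 100 * (1 + q0)) ≤ Real.pi / 4 * (22 / 100 - 222 / 100 * q0) := by
  have h1 : I * (96 / 100 * (1 + q0)) ≤ I * (96 / 100 * (1 + q)) :=
    mul_le_mul_of_nonneg_left (by linarith) hI0
  have h2 : Real.pi / 4 * (22 / 100 - 222 / 100 * q) ≤ Real.pi / 4 * (22 / 100 - 222 / 100 * q0) :=
    mul_le_mul_of_nonneg_left (by linarith) (by positivity)
  linarith

private lemma bdsP {I q p : ℝ} (hq0 : 0 ≤ q) (hq : q ≤ 22 / 222)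
    (h : I * (96 / 100 * (1 + q)) ≤ Real.pi / 4 * (22 / 100 - 222 / 100 * q))
    (hp : 979 / 1000 * p ≤ 2 * Real.pi * (1 + q) * I) :
    p ≤ 11552 / 10000 - 11656 / 1000 * q := by
  have hpi := Real.pi_lt_d6
  have hpi2 := Real.pi_gt_d6
  norm_num at hpi hpi2
  have h1 : 2 * Real.pi * (1 + q) * I * (96 / 100) ≤ Real.pi ^ 2 / 2 * (22 / 100 - 222 / 100 * q) := by
    have := mul_le_mul_of_nonneg_left h (by positivity : 0 ≤ 2 * Real.pi)
    linarith
  have h2 : Real.pi ^ 2 ≤ 9869607 / 1000000 := by nlinarith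
  have h3 : 0 ≤ 22 / 100 - 222 / 100 * q := by linarith
  have h4 : Real.pi ^ 2 / 2 * (22 / 100 - 222 / 100 * q)
      ≤ 9869607 / 2000000 * (22 / 100 - 222 / 100 * q) :=
    mul_le_mul_of_nonneg_right (by linarith) h3
  linarith

theorem wthm {W : Set E} {a b : ℝ} (d : Dat K L φ ψ χ ω) (hW : WS φ χ W a b) {z m : ℝ}
    (hz0 : 0 ≤ z) (hz1 : z < 1) (hm : m = 2 * z / (1 + z ^ 2)) {x : E}
    (hx : ∀ i, Real.pi * x i = ∫ y in W, y i)
    (hV : ∫ y in W, Nd m (y - x) ≤ Real.pi / 4 * (61 / 50) * ((1 - z ^ 2) / (1 + z ^ 2))) :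
    ∃ u : E → ℝ, ContDiff ℝ 1 u ∧ ∫ y in W, u y = 0 ∧ (∀ j, ∫ y in W, u y * w φ j y = 0) ∧
      0 < ∫ y in W, u y ^ 2 ∧
      ∫ y in W, en m u u y ≤ (T0 K L * (∫ y in W, Nd m (y - x))
        - 2 * (∫ y in W, ew m φ ψ y) / ∫ y in W, sq y * φ (sq y) ^ 2) * ∫ y in W, u y ^ 2 := by
  have hm0 : 0 ≤ m := by rw [hm]; positivity
  have hq0 : 0 ≤ z ^ 2 := by positivity
  have hm1 : m < 1 := by
    rw [hm, div_lt_one (by positivity)]
    nlinarith [mul_pos (sub_pos.2 hz1) (sub_pos.2 hz1)]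
  have hpi := Real.pi_lt_d6
  have hpi2 := Real.pi_gt_d6
  norm_num at hpi hpi2
  have hr : (1 - z ^ 2) / (1 + z ^ 2) ≤ 1 := by
    rw [div_le_one (by positivity)]
    linarith
  have hO : (volume (W \ D)).toReal ≤ 10 / 11 * Real.pi := by
    rcases cenA d hW hm0 hm1 hx with h | h
    · exact h
    · exfalso
      have : Real.pi / 4 * (61 / 50) * ((1 - z ^ 2) / (1 + z ^ 2)) ≤ Real.pi / 4 * (61 / 50) * 1 :=
        mul_le_mul_of_nonneg_left hr (by positivity)
      linarith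
  have hV' := hV
  rw [hm] at hV'
  obtain ⟨g1, g2⟩ := cen d hW hz0 hz1 hx hO hV'
  rw [← hm] at g1 g2
  have hvar := var_eq d.prof hW m hx
  have hN : 0 ≤ Nd m x := by
    unfold Nd
    have h1 : 0 ≤ 1 - m := by linarith
    have h2 : 0 ≤ 1 + m := by linarith
    positivity
  have hN' : 0 ≤ Real.pi * Nd m x := by positivity
  have hI0 : 0 ≤ II m φ W := by linarith
  have hV2 : (∫ y in W, Nd m (y - x)) * (1 + z ^ 2) ≤ Real.pi / 4 * (61 / 50) * (1 - z ^ 2) := by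
    have h1 := mul_le_mul_of_nonneg_right hV (by positivity : 0 ≤ 1 + z ^ 2)
    have h2 : Real.pi / 4 * (61 / 50) * ((1 - z ^ 2) / (1 + z ^ 2)) * (1 + z ^ 2)
        = Real.pi / 4 * (61 / 50) * (1 - z ^ 2) := by
      field_simp
    linarith
  have hq : z ^ 2 ≤ 22 / 222 := by
    have h1 := mul_le_mul_of_nonneg_right g1 (by positivity : 0 ≤ 1 + z ^ 2)
    have h2 : Real.pi * (1 + z ^ 2) ≤ Real.pi * (61 / 50 * (1 - z ^ 2)) := by linarith
    have h3 := le_of_mul_le_mul_left h2 Real.pi_pos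
    linarith
  have hIu : II m φ W * (96 / 100 * (1 + z ^ 2)) ≤ Real.pi / 4 * (22 / 100 - 222 / 100 * z ^ 2) := by
    have h1 : 96 / 100 * II m φ W ≤ (∫ y in W, Nd m (y - x)) - Real.pi / 4 := by linarith
    have h2 := mul_le_mul_of_nonneg_right h1 (by positivity : 0 ≤ 1 + z ^ 2)
    nlinarith
  have hP := PV d hW hz0 hq (by
    rw [← hm, le_div_iff₀ (by positivity)]
    exact hIu)
  rw [← hm] at hP
  have hp := bdsP hq0 hq hIu hP
  rcases le_or_gt z (127 / 1000) with h | h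
  · refine core d hW (c := cA) (Or.inl rfl) hz0 h hm ?_ hI0 ?_ hx g2
    · simp only [cA]
      nlinarith
    · have := bdsI hI0 le_rfl hq0 hIu
      simp only [cA]
      nlinarith
  rcases le_or_gt z (2087 / 10000) with h' | h'
  · have hqq : (127 / 1000) ^ 2 ≤ z ^ 2 := pow_le_pow_left₀ (by norm_num) h.le 2
    refine core d hW (c := cB) (Or.inr (Or.inl rfl)) hz0 h' hm ?_ hI0 ?_ hx g2
    · simp only [cB]
      nlinarith
    · have := bdsI hI0 (by norm_num) hqq hIu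
      simp only [cB]
      nlinarith
  · have hqq : (2087 / 10000) ^ 2 ≤ z ^ 2 := pow_le_pow_left₀ (by norm_num) h'.le 2
    refine core d hW (c := cC) (Or.inr (Or.inr rfl)) hz0 ?_ hm ?_ hI0 ?_ hx g2
    · simp only [cC]
      by_contra hc
      push Not at hc
      nlinarith
    · simp only [cC]
      nlinarith
    · have := bdsI hI0 (by norm_num) hqq hIu
      simp only [cC]
      nlinarith

end Pool.Agent.FND
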