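import Pool.Agent.FND.Defs
import Pool.Agent.FND.WThm
import Pool.Agent.NSY.Rot
import Pool.Agent.Neu.Main1

/-!
FND-Rot: general `Q` by rotation.

Plan.  General W (nonempty bounded measurable, |W| = pi, the six conditions w0, w1, w2, ... in the normalised position for a
general Q) to diagonal Q: rotate coordinates.  Q symmetric positive semidefinite 2x2 (the second moment matrix of Ω about its
centroid), trace tr, diagonalise by a rotation R_θ; all functions φ(|y|²) y, χ(|y|²)(y²) transform by e^{iθ}, e^{2iθ}; the set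
R_θ W satisfies WS again (see the fields of WS) with (a, b) rotated; z from m = √(1 - 4 det/tr²), m = 2z/(1+z²),
z = (1 - √(1-m²))/m or 0.  Compare Neu/Rot*.lean or NSY for the way rotations are handled.
-/

set_option autoImplicit false

open MeasureTheory Set
open Pool.Agent.Neu
open Pool.Agent.CS4 (Prof2 bb vv eV)

namespace Pool.Agent.FND

variable {K L : ℝ} {φ ψ χ ω : ℝ → ℝ}

private theorem ro0 (α : ℝ) (x : E) : (NSY.rot α x) 0 = Real.cos α * x 0 - Real.sin α * x 1 := rfl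

private theorem ro1 (α : ℝ) (x : E) : (NSY.rot α x) 1 = Real.sin α * x 0 + Real.cos α * x 1 := rfl

private theorem ron0 (α : ℝ) (x : E) :
    (NSY.rot (-α) x) 0 = Real.cos α * x 0 + Real.sin α * x 1 := by
  rw [ro0, Real.cos_neg, Real.sin_neg]
  ring

private theorem ron1 (α : ℝ) (x : E) :
    (NSY.rot (-α) x) 1 = -(Real.sin α * x 0) + Real.cos α * x 1 := by
  rw [ro1, Real.cos_neg, Real.sin_neg]
  ring

/-- the rotation as an isometry -/
private noncomputable def roE (α : ℝ) : E ≃ₗᵢ[ℝ] E where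
  toFun := NSY.rot α
  invFun := NSY.rot (-α)
  left_inv := fun x => by
    show NSY.rot (-α) (NSY.rot α x) = x
    rw [NSY.rot_rot, neg_add_cancel, NSY.rot_zero]
  right_inv := fun x => by
    show NSY.rot α (NSY.rot (-α) x) = x
    rw [NSY.rot_rot, add_neg_cancel, NSY.rot_zero]
  map_add' := fun x y => (NSY.rotL α).map_add x y
  map_smul' := fun c x => (NSY.rotL α).map_smul c x
  norm_map' := fun x => NSY.norm_rot α x

private theorem ro_inv (α : ℝ) (x : E) : NSY.rot (-α) (NSY.rot α x) = x := by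
  rw [NSY.rot_rot, neg_add_cancel, NSY.rot_zero]

private theorem ro_inv2 (α : ℝ) (x : E) : NSY.rot α (NSY.rot (-α) x) = x := by
  rw [NSY.rot_rot, add_neg_cancel, NSY.rot_zero]

private theorem ro_cv (α : ℝ) (W : Set E) (g : E → ℝ) :
    ∫ y in W, g y = ∫ y in NSY.rot α ⁻¹' W, g (NSY.rot α y) :=
  ((NSY.rot_mp α).setIntegral_preimage_emb (roE α).toHomeomorph.measurableEmbedding g W).symm

private theorem ro_cvi (α : ℝ) (W : Set E) (g : E → ℝ) :
    ∫ y in NSY.rot α ⁻¹' W, g y = ∫ y in W, g (NSY.rot (-α) y) := by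
  rw [ro_cv α W fun y => g (NSY.rot (-α) y)]
  simp only [ro_inv]

private theorem ro_sq (α : ℝ) (x : E) : Neu.sq (NSY.rot α x) = Neu.sq x := by
  rw [M1x.sq_eq, M1x.sq_eq, NSY.norm_rot]

private theorem ro_w0 (α : ℝ) (y : E) :
    w φ 0 (NSY.rot (-α) y) = Real.cos α * w φ 0 y + Real.sin α * w φ 1 y := by
  unfold w
  rw [ro_sq, ron0]
  ring

private theorem ro_w1 (α : ℝ) (y : E) :
    w φ 1 (NSY.rot (-α) y) = -(Real.sin α) * w φ 0 y + Real.cos α * w φ 1 y := by
  unfold w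
  rw [ro_sq, ron1]
  ring

private theorem ro_cont (α : ℝ) : Continuous (NSY.rot α) := (NSY.rotL α).continuous

private theorem ro_lin {W : Set E} (hW : Bornology.IsBounded W) {F G : E → ℝ} (cF : Continuous F)
    (cG : Continuous G) (x z : ℝ) :
    ∫ y in W, (x * F y + z * G y) = x * (∫ y in W, F y) + z * ∫ y in W, G y := by
  have j1 : IntegrableOn (fun y => x * F y) W := M1x.intOn (cF.const_mul x) hW
  have j2 : IntegrableOn (fun y => z * G y) W := M1x.intOn (cG.const_mul z) hW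
  rw [integral_add j1 j2, integral_const_mul, integral_const_mul]

private theorem ro_pd {u : E → ℝ} (hu : ContDiff ℝ 1 u) (α : ℝ) (y : E) :
    pd 0 (fun x => u (NSY.rot (-α) x)) y =
        Real.cos α * pd 0 u (NSY.rot (-α) y) - Real.sin α * pd 1 u (NSY.rot (-α) y) ∧
      pd 1 (fun x => u (NSY.rot (-α) x)) y =
        Real.sin α * pd 0 u (NSY.rot (-α) y) + Real.cos α * pd 1 u (NSY.rot (-α) y) := by
  have hd : HasFDerivAt (fun x => u (NSY.rot (-α) x))
      ((fderiv ℝ u (NSY.rot (-α) y)).comp (NSY.rotL (-α))) y := by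
    have h1 : HasFDerivAt u (fderiv ℝ u (NSY.rotL (-α) y)) (NSY.rotL (-α) y) :=
      (hu.differentiable one_ne_zero _).hasFDerivAt
    exact h1.comp y (NSY.rotL (-α)).hasFDerivAt
  have e0 : NSY.rotL (-α) (EuclideanSpace.single 0 1) =
      Real.cos α • (EuclideanSpace.single 0 1 : E) - Real.sin α • EuclideanSpace.single 1 1 := by
    rw [NSY.rotL_apply]
    ext i
    fin_cases i
    · show (NSY.rot (-α) _) 0 = _
      rw [ron0]
      simp
    · show (NSY.rot (-α) _) 1 = _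
      rw [ron1]
      simp
  have e1 : NSY.rotL (-α) (EuclideanSpace.single 1 1) =
      Real.sin α • (EuclideanSpace.single 0 1 : E) + Real.cos α • EuclideanSpace.single 1 1 := by
    rw [NSY.rotL_apply]
    ext i
    fin_cases i
    · show (NSY.rot (-α) _) 0 = _
      rw [ron0]
      simp
    · show (NSY.rot (-α) _) 1 = _
      rw [ron1]
      simp
  unfold pd
  rw [hd.fderiv, ContinuousLinearMap.comp_apply, ContinuousLinearMap.comp_apply, e0, e1, map_sub,
    map_add, map_smul, map_smul, map_smul, map_smul, smul_eq_mul, smul_eq_mul, smul_eq_mul,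
    smul_eq_mul]
  exact ⟨rfl, rfl⟩

private theorem ro_N {p q r τ m α : ℝ} (hp : p = τ * (1 + m * (Real.cos α ^ 2 - Real.sin α ^ 2)) / 2)
    (hr : r = τ * (1 - m * (Real.cos α ^ 2 - Real.sin α ^ 2)) / 2)
    (hq : q = τ * m * Real.sin α * Real.cos α) (y : E) :
    N p q r (NSY.rot α y) = τ * Nd m y := by
  have hk := Real.sin_sq_add_cos_sq α
  unfold N Nd
  rw [ro0, ro1, hp, hr, hq]
  obtain ⟨c, hc⟩ : ∃ c, c = Real.cos α := ⟨_, rfl⟩
  obtain ⟨s, hs⟩ : ∃ s, s = Real.sin α := ⟨_, rfl⟩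
  rw [← hc, ← hs] at hk ⊢
  linear_combination (τ / 2 * ((y 0 ^ 2 + y 1 ^ 2) - m * (s ^ 2 + c ^ 2 + 1) *
    (y 0 ^ 2 - y 1 ^ 2))) * hk

private theorem ro_e {p q r τ m c s : ℝ} (hk : s ^ 2 + c ^ 2 = 1)
    (hp : p = τ * (1 + m * (c ^ 2 - s ^ 2)) / 2)
    (hr : r = τ * (1 - m * (c ^ 2 - s ^ 2)) / 2)
    (hq : q = τ * m * s * c) (A B : ℝ) :
    p * (c * A - s * B) ^ 2 + 2 * q * ((c * A - s * B) * (s * A + c * B)) +
      r * (s * A + c * B) ^ 2 = τ * ((1 + m) / 2 * (A * A) + (1 - m) / 2 * (B * B)) := by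
  rw [hp, hr, hq]
  linear_combination (τ / 2 * ((A ^ 2 + B ^ 2) + m * (s ^ 2 + c ^ 2 + 1) * (A ^ 2 - B ^ 2))) * hk

private theorem ro_par {p q r : ℝ} (hp : 0 ≤ p) (hr : 0 ≤ r) (hd : q ^ 2 < p * r) :
    ∃ τ m α z : ℝ, 0 < τ ∧ p + r = τ ∧
      p = τ * (1 + m * (Real.cos α ^ 2 - Real.sin α ^ 2)) / 2 ∧
      r = τ * (1 - m * (Real.cos α ^ 2 - Real.sin α ^ 2)) / 2 ∧
      q = τ * m * Real.sin α * Real.cos α ∧ 0 ≤ z ∧ z < 1 ∧ m = 2 * z / (1 + z ^ 2) ∧
      2 * √(p * r - q ^ 2) = τ * ((1 - z ^ 2) / (1 + z ^ 2)) := by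
  have hτ : 0 < p + r := by
    have h1 : 0 < p * r := lt_of_le_of_lt (sq_nonneg q) hd
    have h2 : p ≠ 0 := by
      rintro rfl
      rw [zero_mul] at h1
      exact lt_irrefl _ h1
    have h3 : 0 < p := lt_of_le_of_ne hp (Ne.symm h2)
    linarith
  obtain ⟨δ, hδ⟩ : ∃ δ, δ = ‖(⟨p - r, 2 * q⟩ : ℂ)‖ := ⟨_, rfl⟩
  obtain ⟨α, hα⟩ : ∃ α, α = Complex.arg (⟨p - r, 2 * q⟩ : ℂ) / 2 := ⟨_, rfl⟩
  have hδ0 : 0 ≤ δ := by
    rw [hδ]
    exact norm_nonneg _
  have hδ2 : δ ^ 2 = (p - r) ^ 2 + (2 * q) ^ 2 := by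
    rw [hδ, Complex.sq_norm, Complex.normSq_apply]
    ring
  have ha : Complex.arg (⟨p - r, 2 * q⟩ : ℂ) = 2 * α := by
    rw [hα]
    ring
  have h1 : δ * (Real.cos α ^ 2 - Real.sin α ^ 2) = p - r := by
    have h := Complex.norm_mul_cos_arg (⟨p - r, 2 * q⟩ : ℂ)
    rw [ha, ← hδ, Real.cos_two_mul'] at h
    exact h
  have h2 : δ * (2 * Real.sin α * Real.cos α) = 2 * q := by
    have h := Complex.norm_mul_sin_arg (⟨p - r, 2 * q⟩ : ℂ)
    rw [ha, ← hδ, Real.sin_two_mul] at h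
    exact h
  have hlt : δ < p + r := by
    refine lt_of_pow_lt_pow_left₀ 2 hτ.le ?_
    rw [hδ2]
    nlinarith
  obtain ⟨m, hm⟩ : ∃ m, m = δ / (p + r) := ⟨_, rfl⟩
  have hm0 : 0 ≤ m := by
    rw [hm]
    positivity
  have hm1 : m < 1 := by
    rw [hm, div_lt_one hτ]
    exact hlt
  have hmτ : (p + r) * m = δ := by
    rw [hm]
    field_simp
  obtain ⟨κ, hκ⟩ : ∃ κ, κ = √(1 - m ^ 2) := ⟨_, rfl⟩
  have hκ2 : κ ^ 2 = 1 - m ^ 2 := by
    rw [hκ]
    exact Real.sq_sqrt (by nlinarith)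
  have hκ0 : 0 ≤ κ := by
    rw [hκ]
    exact Real.sqrt_nonneg _
  have hκp : 0 < κ := by
    rw [hκ]
    exact Real.sqrt_pos.2 (by nlinarith)
  have hk1 : (1 + κ) ≠ 0 := by positivity
  have hz2 : 1 + (m / (1 + κ)) ^ 2 = 2 / (1 + κ) := by
    field_simp
    nlinarith
  have hz3 : 1 - (m / (1 + κ)) ^ 2 = 2 * κ / (1 + κ) := by
    field_simp
    nlinarith
  refine ⟨p + r, m, α, m / (1 + κ), hτ, rfl, ?_, ?_, ?_, by positivity, ?_, ?_, ?_⟩
  · rw [mul_add, mul_one, ← mul_assoc, hmτ, h1]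
    ring
  · rw [mul_sub, mul_one, ← mul_assoc, hmτ, h1]
    ring
  · rw [hmτ]
    linarith
  · rw [div_lt_one (by positivity)]
    linarith
  · rw [hz2]
    field_simp
  · rw [hz2, hz3]
    have e1 : p * r - q ^ 2 = ((p + r) * κ / 2) ^ 2 := by
      have e2 : ((p + r) * κ / 2) ^ 2 = ((p + r) ^ 2 - ((p + r) * m) ^ 2) / 4 := by
        rw [div_pow, mul_pow, hκ2]
        ring
      rw [e2, hmτ, hδ2]
      ring
    rw [e1, Real.sqrt_sq (by positivity)]
    field_simp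

theorem wgen {W : Set E} (d : Dat K L φ ψ χ ω) (hWm : MeasurableSet W)
    (hWb : Bornology.IsBounded W) (hWv : volume W = ENNReal.ofReal Real.pi)
    (w0 : ∀ i, ∫ y in W, w φ i y = 0) (w1 : ∫ y in W, (w φ 0 y ^ 2 - w φ 1 y ^ 2) = 0)
    (w2 : ∫ y in W, w φ 0 y * w φ 1 y = 0) {p q r : ℝ} (hp : 0 ≤ p) (hr : 0 ≤ r)
    (hd : q ^ 2 < p * r) {x : E} (hx : ∀ i, Real.pi * x i = ∫ y in W, y i)
    (hV : ∫ y in W, N p q r (y - x) ≤ Real.pi / 4 * (61 / 50) * (2 * √(p * r - q ^ 2))) :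
    ∃ u : E → ℝ, ContDiff ℝ 1 u ∧ ∫ y in W, u y = 0 ∧ (∀ j, ∫ y in W, u y * w φ j y = 0) ∧
      0 < ∫ y in W, u y ^ 2 ∧
      ∫ y in W, enQ p q r u y ≤ (T0 K L * (∫ y in W, N p q r (y - x))
        - 2 * (∫ y in W, eQ φ ψ p q r y) / ∫ y in W, sq y * φ (sq y) ^ 2) *
          ∫ y in W, u y ^ 2 := by
  obtain ⟨τ, m, α, z, hτ, hpr, ep, er, eq, hz0, hz1, hm, hs⟩ := ro_par hp hr hd
  obtain ⟨W', hW'⟩ : ∃ W' : Set E, W' = NSY.rot α ⁻¹' W := ⟨_, rfl⟩
  have cv : ∀ g : E → ℝ, ∫ y in W, g y = ∫ y in W', g (NSY.rot α y) := by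
    intro g
    rw [hW']
    exact ro_cv α W g
  have cvi : ∀ g : E → ℝ, ∫ y in W', g y = ∫ y in W, g (NSY.rot (-α) y) := by
    intro g
    rw [hW']
    exact ro_cvi α W g
  have cw : ∀ i, Continuous (w φ i) := fun i => M1x.cont_w d.prof i
  have cw0 := cw 0
  have cw1 := cw 1
  have hb' : Bornology.IsBounded W' := by
    have e : W' = NSY.rot (-α) '' W := by
      rw [hW']
      ext y
      constructor
      · intro hy
        exact ⟨NSY.rot α y, hy, ro_inv α y⟩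
      · rintro ⟨x', hx', rfl⟩
        show NSY.rot α (NSY.rot (-α) x') ∈ W
        rw [ro_inv2]
        exact hx'
    rw [e]
    exact (NSY.rotL (-α)).lipschitz.isBounded_image hWb
  have hWS : WS φ χ W' (∫ y in W', φ (sq y) * χ (sq y) * c3 y)
      (∫ y in W', φ (sq y) * χ (sq y) * s3 y) := by
    refine ⟨?_, hb', ?_, ?_, ?_, ?_, rfl, rfl⟩
    · rw [hW']
      exact (ro_cont α).measurable hWm
    · rw [hW', (NSY.rot_mp α).measure_preimage hWm.nullMeasurableSet]
      exact hWv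
    · intro i
      rw [cvi]
      fin_cases i
      · show ∫ y in W, w φ 0 (NSY.rot (-α) y) = 0
        simp only [ro_w0]
        rw [ro_lin hWb cw0 cw1, w0, w0]
        ring
      · show ∫ y in W, w φ 1 (NSY.rot (-α) y) = 0
        simp only [ro_w1]
        rw [ro_lin hWb cw0 cw1, w0, w0]
        ring
    · rw [cvi]
      have e : ∀ y, w φ 0 (NSY.rot (-α) y) ^ 2 - w φ 1 (NSY.rot (-α) y) ^ 2 =
          (Real.cos α ^ 2 - Real.sin α ^ 2) * (w φ 0 y ^ 2 - w φ 1 y ^ 2) +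
            (4 * Real.cos α * Real.sin α) * (w φ 0 y * w φ 1 y) := by
        intro y
        rw [ro_w0, ro_w1]
        ring
      simp only [e]
      rw [ro_lin hWb (by fun_prop) (by fun_prop), w1, w2]
      ring
    · rw [cvi]
      have e : ∀ y, w φ 0 (NSY.rot (-α) y) * w φ 1 (NSY.rot (-α) y) =
          (-(Real.cos α * Real.sin α)) * (w φ 0 y ^ 2 - w φ 1 y ^ 2) +
            (Real.cos α ^ 2 - Real.sin α ^ 2) * (w φ 0 y * w φ 1 y) := by
        intro y
        rw [ro_w0, ro_w1]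
        ring
      simp only [e]
      rw [ro_lin hWb (by fun_prop) (by fun_prop), w1, w2]
      ring
  have cy : ∀ i : Fin 2, Continuous fun y : E => y i := fun i => by fun_prop
  have hx' : ∀ i, Real.pi * (NSY.rot (-α) x) i = ∫ y in W', y i := by
    intro i
    rw [cvi fun y => y i]
    fin_cases i
    · show Real.pi * (NSY.rot (-α) x) 0 = ∫ y in W, (NSY.rot (-α) y) 0
      simp only [ron0]
      rw [ro_lin hWb (cy 0) (cy 1), ← hx 0, ← hx 1]
      ring
    · show Real.pi * (NSY.rot (-α) x) 1 = ∫ y in W, (NSY.rot (-α) y) 1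
      have e : ∀ y : E, (NSY.rot (-α) y) 1 = (-Real.sin α) * y 0 + Real.cos α * y 1 := by
        intro y
        rw [ron1]
        ring
      simp only [e]
      rw [ro_lin hWb (cy 0) (cy 1), ← hx 0, ← hx 1]
      ring
  have eN : ∫ y in W, N p q r (y - x) = τ * ∫ y in W', Nd m (y - NSY.rot (-α) x) := by
    rw [cv, ← integral_const_mul]
    refine integral_congr_ae (Filter.Eventually.of_forall fun y => ?_)
    show N p q r (NSY.rot α y - x) = τ * Nd m (y - NSY.rot (-α) x)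
    rw [← ro_N ep er eq]
    congr 1
    have e1 : NSY.rot α (y - NSY.rot (-α) x) = NSY.rot α y - NSY.rot α (NSY.rot (-α) x) :=
      (NSY.rotL α).map_sub _ _
    rw [e1, ro_inv2]
  have eE : ∫ y in W, eQ φ ψ p q r y = τ * ∫ y in W', ew m φ ψ y := by
    rw [cv, ← integral_const_mul]
    refine integral_congr_ae (Filter.Eventually.of_forall fun y => ?_)
    show eQ φ ψ p q r (NSY.rot α y) = τ * ew m φ ψ y
    unfold ew eQ
    rw [ro_sq, ro_N ep er eq, hpr]
    unfold Nd N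
    ring
  have eS : ∫ y in W, sq y * φ (sq y) ^ 2 = ∫ y in W', sq y * φ (sq y) ^ 2 := by
    rw [cv fun y => sq y * φ (sq y) ^ 2]
    simp only [ro_sq]
  have hV' : ∫ y in W', Nd m (y - NSY.rot (-α) x) ≤
      Real.pi / 4 * (61 / 50) * ((1 - z ^ 2) / (1 + z ^ 2)) := by
    rw [eN, hs] at hV
    have e : Real.pi / 4 * (61 / 50) * (τ * ((1 - z ^ 2) / (1 + z ^ 2))) =
        τ * (Real.pi / 4 * (61 / 50) * ((1 - z ^ 2) / (1 + z ^ 2))) := by ring
    rw [e] at hV
    exact le_of_mul_le_mul_left hV hτ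
  obtain ⟨u, hu, hu0, huw, hupos, hle⟩ := wthm d hWS hz0 hz1 hm hx' hV'
  refine ⟨fun y => u (NSY.rot (-α) y), hu.comp (NSY.rotL (-α)).contDiff, ?_, ?_, ?_, ?_⟩
  · rw [← cvi u]
    exact hu0
  · intro j
    have cu := hu.continuous
    have ea : ∀ i, ∫ y in W, u (NSY.rot (-α) y) * w φ i (NSY.rot (-α) y) = 0 := by
      intro i
      rw [← cvi fun y => u y * w φ i y]
      exact huw i
    have ca : ∀ i, Continuous fun y => u (NSY.rot (-α) y) * w φ i (NSY.rot (-α) y) := fun i =>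
      (cu.comp (ro_cont _)).mul ((cw i).comp (ro_cont _))
    have hk := Real.sin_sq_add_cos_sq α
    fin_cases j
    · show ∫ y in W, u (NSY.rot (-α) y) * w φ 0 y = 0
      have e : ∀ y, u (NSY.rot (-α) y) * w φ 0 y =
          Real.cos α * (u (NSY.rot (-α) y) * w φ 0 (NSY.rot (-α) y)) +
            (-Real.sin α) * (u (NSY.rot (-α) y) * w φ 1 (NSY.rot (-α) y)) := by
        intro y
        rw [ro_w0, ro_w1]
        linear_combination (-(u (NSY.rot (-α) y) * w φ 0 y)) * hk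
      simp only [e]
      rw [ro_lin hWb (ca 0) (ca 1), ea, ea]
      ring
    · show ∫ y in W, u (NSY.rot (-α) y) * w φ 1 y = 0
      have e : ∀ y, u (NSY.rot (-α) y) * w φ 1 y =
          Real.sin α * (u (NSY.rot (-α) y) * w φ 0 (NSY.rot (-α) y)) +
            Real.cos α * (u (NSY.rot (-α) y) * w φ 1 (NSY.rot (-α) y)) := by
        intro y
        rw [ro_w0, ro_w1]
        linear_combination (-(u (NSY.rot (-α) y) * w φ 1 y)) * hk
      simp only [e]
      rw [ro_lin hWb (ca 0) (ca 1), ea, ea]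
      ring
  · show 0 < ∫ y in W, u (NSY.rot (-α) y) ^ 2
    rw [← cvi fun y => u y ^ 2]
    exact hupos
  · have e1 : ∫ y in W, enQ p q r (fun y => u (NSY.rot (-α) y)) y =
        τ * ∫ y in W', en m u u y := by
      rw [cvi fun y => en m u u y, ← integral_const_mul]
      refine integral_congr_ae (Filter.Eventually.of_forall fun y => ?_)
      show enQ p q r (fun y => u (NSY.rot (-α) y)) y = τ * en m u u (NSY.rot (-α) y)
      obtain ⟨h0, h1⟩ := ro_pd hu α y
      unfold enQ en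
      rw [h0, h1]
      exact ro_e (Real.sin_sq_add_cos_sq α) ep er eq _ _
    show ∫ y in W, enQ p q r (fun y => u (NSY.rot (-α) y)) y ≤ (T0 K L * (∫ y in W, N p q r (y - x))
        - 2 * (∫ y in W, eQ φ ψ p q r y) / ∫ y in W, sq y * φ (sq y) ^ 2) *
          ∫ y in W, u (NSY.rot (-α) y) ^ 2
    rw [e1, eN, eE, eS, ← cvi fun y => u y ^ 2]
    have h2 := mul_le_mul_of_nonneg_left hle hτ.le
    refine h2.trans (le_of_eq ?_)
    ring

end Pool.Agent.FND
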