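import Pool.Agent.FND.Defs
import Pool.Agent.FND.Rot
import Pool.Agent.FND.FinG
import Pool.Agent.FND.EncP
import Pool.Agent.FND.EncC
import Pool.Agent.CS4.UB
import Pool.Agent.CS4.DL

/-!
FND-Fin: the final theorem.

helper14 does this file.
-/

set_option autoImplicit false

open MeasureTheory Set
open Pool.Agent.Neu
open Pool.Agent.CS4 (Prof2 bb vv eV)

namespace Pool.Agent.FND

variable {K L : ℝ} {φ ψ χ ω : ℝ → ℝ}

open Pool.Agent.NSY (FF)

theorem FF_le (d : Dat K L φ ψ χ ω) {Ω : Set E} (hΩ : IsOpen Ω) (hb : Bornology.IsBounded Ω)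
    (hne : Ω.Nonempty)
    (hI : 2 * Real.pi * ∫ x in Ω, ‖x - (volume Ω).toReal⁻¹ • ∫ y in Ω, y‖ ^ 2
      ≤ 61 / 50 * (volume Ω).toReal ^ 2) :
    FF 4 Ω ≤ 2 * Real.pi ^ 2 * (2 * K + L) := by
  have h := d.prof
  have hm : MeasurableSet Ω := hΩ.measurableSet
  have hfin : volume Ω ≠ ⊤ := hb.measure_lt_top.ne
  have hpos : 0 < volume Ω := hΩ.measure_pos volume hne
  set A : ℝ := (volume Ω).toReal with hAdef
  have hA : 0 < A := ENNReal.toReal_pos hpos.ne' hfin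
  have hpi := Real.pi_pos
  have hK1 : (1 : ℝ) < K := by have := h.K_lo; linarith
  have hK0 : (0 : ℝ) < K := by linarith
  have hL0 : (0 : ℝ) < L := by have := d.prof2.L_lo; linarith
  set xb : E := A⁻¹ • ∫ y in Ω, y with hxb
  set I : ℝ := ∫ x in Ω, ‖x - xb‖ ^ 2 with hI'
  have hI0 : 0 ≤ I := integral_nonneg fun x => by positivity
  set σ : ℝ := √(Real.pi / A) with hσdef
  have hσ : 0 < σ := Real.sqrt_pos.2 (by positivity)
  have hσ2 : σ ^ 2 = Real.pi / A := Real.sq_sqrt (by positivity)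
  have hσA : σ ^ 2 * A = Real.pi := by rw [hσ2]; field_simp
  obtain ⟨a, b, c, t0, t1, t2⟩ := h.exists_T hm hb hσ hσA
  set W : Set E := T σ a b c '' Ω with hWdef
  have hWm : MeasurableSet W := measurableSet_T hσ a b c hm
  have hWb : Bornology.IsBounded W := isBounded_T σ a b c hb
  have hWv : volume W = ENNReal.ofReal Real.pi := by
    rw [hWdef, volume_T hσ a b c hm, ← ENNReal.ofReal_toReal hfin,
      ← ENNReal.ofReal_mul (by positivity), ← hAdef, hσA]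
  have key := fun f : E → ℝ => integral_T hσ a b c hm f
  have w0 : ∀ i, ∫ y in W, w φ i y = 0 := by
    intro i
    rw [hWdef, key, t0 i, mul_zero]
  have w1 : ∫ y in W, (w φ 0 y ^ 2 - w φ 1 y ^ 2) = 0 := by
    rw [hWdef, key (fun y => w φ 0 y ^ 2 - w φ 1 y ^ 2), t1, mul_zero]
  have w2 : ∫ y in W, w φ 0 y * w φ 1 y = 0 := by
    rw [hWdef, key (fun y => w φ 0 y * w φ 1 y), t2, mul_zero]
  -- the right-hand side
  have hR : ∫ y in W, N (Qp σ a b) (Qm σ a b) (Qr σ a b) (y - T σ a b c xb)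
      = σ ^ 2 * (σ ^ 4 * I) := by
    rw [hWdef, key (fun y => N (Qp σ a b) (Qm σ a b) (Qr σ a b) (y - T σ a b c xb))]
    congr 1
    rw [hI', ← integral_const_mul]
    exact integral_congr_ae (Filter.Eventually.of_forall fun x => N_T σ a b c x xb)
  have hdet : Qp σ a b * Qr σ a b - Qm σ a b ^ 2 = (σ ^ 2) ^ 2 := by
    have hm' : √(1 + a ^ 2 + b ^ 2) ^ 2 = 1 + a ^ 2 + b ^ 2 := Real.sq_sqrt (by positivity)
    have h1 : (√(1 + a ^ 2 + b ^ 2) ^ 2 - a ^ 2 - b ^ 2) ^ 2 = 1 := by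
      rw [hm']
      ring
    have h2 : Qp σ a b * Qr σ a b - Qm σ a b ^ 2
        = σ ^ 4 * (√(1 + a ^ 2 + b ^ 2) ^ 2 - a ^ 2 - b ^ 2) ^ 2 := by
      unfold Qp Qr Qm
      ring
    rw [h2, h1]
    ring
  have hdet' : Qm σ a b ^ 2 < Qp σ a b * Qr σ a b := by
    have : 0 < (σ ^ 2) ^ 2 := by positivity
    linarith
  have hVle : ∫ y in W, N (Qp σ a b) (Qm σ a b) (Qr σ a b) (y - T σ a b c xb)
      ≤ Real.pi / 4 * (61 / 50) * (2 * √(Qp σ a b * Qr σ a b - Qm σ a b ^ 2)) := by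
    rw [hR, hdet, Real.sqrt_sq (by positivity)]
    have h1 : σ ^ 4 * I ≤ Real.pi / 4 * (61 / 50) * 2 := by
      have h2 : σ ^ 4 = (Real.pi / A) ^ 2 := by rw [← hσ2]; ring
      have h3 : σ ^ 4 * I = Real.pi / 2 * (2 * Real.pi * I) / A ^ 2 := by
        rw [h2]
        field_simp
      rw [h3, div_le_iff₀ (by positivity)]
      have := mul_le_mul_of_nonneg_left hI (by positivity : 0 ≤ Real.pi / 2)
      linarith
    have h4 := mul_le_mul_of_nonneg_left h1 (by positivity : 0 ≤ σ ^ 2)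
    linarith
  obtain ⟨u, uc, u0, u1, u2, u3⟩ := wgen d hWm hWb hWv w0 w1 w2 (Qp_nonneg σ a b)
    (Qr_nonneg σ a b) hdet' (x := T σ a b c xb) (fun i => centroid_T hσ a b c hm hb hσA i) hVle
  -- trial functions
  set v : Fin 2 → E → ℝ := fun i x => w φ i (T σ a b c x) with hv
  have vc : ∀ i, ContDiff ℝ 1 (v i) := fun i => h.contDiff_wT σ a b c i
  have Tc : ContDiff ℝ 1 (T σ a b c) := by
    unfold T
    rw [contDiff_piLp]
    intro i
    fin_cases i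
    · simp only [Fin.zero_eta, Matrix.cons_val_zero]
      fun_prop
    · simp only [Fin.mk_one, Matrix.cons_val_one, Matrix.cons_val_zero]
      fun_prop
  set U : E → ℝ := fun x => u (T σ a b c x) with hU
  have Uc : ContDiff ℝ 1 U := uc.comp Tc
  have hσ2p : 0 < σ ^ 2 := by positivity
  have U0 : ∫ x in Ω, U x = 0 := by
    rw [hWdef, key] at u0
    exact (mul_eq_zero.1 u0).resolve_left hσ2p.ne'
  have Uv : ∀ j, ∫ x in Ω, U x * v j x = 0 := by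
    intro j
    have := u1 j
    rw [hWdef, key (fun y => u y * w φ j y)] at this
    exact (mul_eq_zero.1 this).resolve_left hσ2p.ne'
  have hgr : Continuous fun x => ‖fderiv ℝ (v 0) x‖ ^ 2 :=
    ((vc 0).continuous_fderiv one_ne_zero).norm.pow 2
  have hgr1 : Continuous fun x => ‖fderiv ℝ (v 1) x‖ ^ 2 :=
    ((vc 1).continuous_fderiv one_ne_zero).norm.pow 2
  set Ew := ∫ y in W, eQ φ ψ (Qp σ a b) (Qm σ a b) (Qr σ a b) y with hEw
  set M1 := ∫ y in W, Pool.Agent.Neu.sq y * φ (Pool.Agent.Neu.sq y) ^ 2 with hM1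
  have hE : σ ^ 2 * ((∫ x in Ω, ‖fderiv ℝ (v 0) x‖ ^ 2) + ∫ x in Ω, ‖fderiv ℝ (v 1) x‖ ^ 2)
      = Ew := by
    rw [hEw, hWdef, key, ← integral_add (intOn hgr hb) (intOn hgr1 hb)]
    congr 1
    exact integral_congr_ae (Filter.Eventually.of_forall fun x => h.grad_wT σ a b c x)
  have i0 : IntegrableOn (fun x => v 0 x ^ 2) Ω := intOn ((vc 0).continuous.pow 2) hb
  have i1 : IntegrableOn (fun x => v 1 x ^ 2) Ω := intOn ((vc 1).continuous.pow 2) hb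
  have hsum : σ ^ 2 * ((∫ x in Ω, v 0 x ^ 2) + ∫ x in Ω, v 1 x ^ 2) = M1 := by
    rw [hM1, hWdef, key (fun y => Pool.Agent.Neu.sq y * φ (Pool.Agent.Neu.sq y) ^ 2),
      ← integral_add i0 i1]
    congr 1
    refine integral_congr_ae (Filter.Eventually.of_forall fun x => ?_)
    simp only [hv, w, Pool.Agent.Neu.sq]
    ring
  have hdiff : (∫ x in Ω, v 0 x ^ 2) - ∫ x in Ω, v 1 x ^ 2 = 0 := by
    rw [← integral_sub i0 i1]
    exact t1
  have hM1pos : 0 < M1 := by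
    have h1 : Real.pi * (1 - 1 / K) ≤ M1 := h.mass_ge hWm hWv
    have h2 : 1 / K < 1 := by rw [div_lt_one hK0]; exact hK1
    have h3 : 0 < Real.pi * (1 - 1 / K) := mul_pos hpi (by linarith)
    linarith
  set M : ℝ := ∫ x in Ω, v 0 x ^ 2 with hM
  have hM' : ∫ x in Ω, v 1 x ^ 2 = M := by linarith
  have hMM : σ ^ 2 * (2 * M) = M1 := by
    rw [← hsum, hM']
    ring
  have hMpos : 0 < M := by
    by_contra hc
    push Not at hc
    nlinarith
  have hUU : σ ^ 2 * ∫ x in Ω, U x ^ 2 = ∫ y in W, u y ^ 2 := by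
    rw [hWdef, key (fun y => u y ^ 2)]
  have hUpos : 0 < ∫ x in Ω, U x ^ 2 := by
    rw [← hUU] at u2
    exact (mul_pos_iff_of_pos_left hσ2p).1 u2
  have hUE : σ ^ 2 * ∫ x in Ω, ‖fderiv ℝ U x‖ ^ 2
      = ∫ y in W, enQ (Qp σ a b) (Qm σ a b) (Qr σ a b) u y := by
    rw [hWdef, key]
    congr 1
    exact integral_congr_ae (Filter.Eventually.of_forall fun x => grad_T uc σ a b c x)
  rw [hR, ← hUE, ← hUU] at u3
  have hmu := CS4.mu_sum3 hΩ hb hne vc Uc t0 t2 hMpos (by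
    intro i
    fin_cases i
    · rfl
    · exact hM') U0 Uv hUpos rfl
  have e1 : ((∫ x in Ω, ‖fderiv ℝ (v 0) x‖ ^ 2) + ∫ x in Ω, ‖fderiv ℝ (v 1) x‖ ^ 2) / M
      = 2 * Ew / M1 := by
    rw [← hE, ← hMM]
    field_simp
  have e2 : (∫ x in Ω, ‖fderiv ℝ U x‖ ^ 2) / (∫ x in Ω, U x ^ 2)
      ≤ T0 K L * (σ ^ 2 * (σ ^ 4 * I)) - 2 * Ew / M1 := by
    rw [div_le_iff₀ hUpos]
    have : σ ^ 2 * ∫ x in Ω, ‖fderiv ℝ U x‖ ^ 2
        ≤ σ ^ 2 * ((T0 K L * (σ ^ 2 * (σ ^ 4 * I)) - 2 * Ew / M1) * ∫ x in Ω, U x ^ 2) := by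
      refine u3.trans_eq ?_
      ring
    exact le_of_mul_le_mul_left this hσ2p
  have hfin4 : mu Ω 2 + mu Ω 3 + mu Ω 4 ≤ T0 K L * (σ ^ 2 * (σ ^ 4 * I)) := by
    rw [e1] at hmu
    linarith
  have hsum4 : ∑ k ∈ Finset.Icc 2 4, mu Ω k = mu Ω 2 + mu Ω 3 + mu Ω 4 := by
    have : Finset.Icc 2 4 = ({2, 3, 4} : Finset ℕ) := by decide
    rw [this, Finset.sum_insert (by decide), Finset.sum_pair (by decide)]
    ring
  unfold FF
  rw [hsum4]
  change (mu Ω 2 + mu Ω 3 + mu Ω 4) * A ^ 3 / I ≤ _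
  rcases hI0.eq_or_lt with hI00 | hIpos
  · rw [← hI00, div_zero]; positivity
  rw [div_le_iff₀ hIpos]
  refine (mul_le_mul_of_nonneg_right hfin4 (by positivity)).trans (le_of_eq ?_)
  have hσ6 : σ ^ 2 * (σ ^ 4 * I) = (Real.pi / A) ^ 3 * I := by rw [← hσ2]; ring
  rw [hσ6]
  unfold T0
  field_simp
  ring

theorem main {Ω : Set E} (hΩ : IsOpen Ω) (hb : Bornology.IsBounded Ω) (hne : Ω.Nonempty)
    (hI : 2 * Real.pi * ∫ x in Ω, ‖x - (volume Ω).toReal⁻¹ • ∫ y in Ω, y‖ ^ 2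
      ≤ 61 / 50 * (volume Ω).toReal ^ 2) :
    FF 4 Ω ≤ FF 4 D := by
  obtain ⟨K, φ, ψ, h⟩ := exists_prof
  obtain ⟨L, χ, ω, h2⟩ := CS4.exists_prof2
  obtain ⟨e1, e2, e3, e4⟩ := enc_phi h
  obtain ⟨e5, e6, e7, e8⟩ := enc_chi h2
  have d : Dat K L φ ψ χ ω := ⟨h, h2, ⟨e1, e2, e5, e6, e3, e4, e7, e8⟩⟩
  exact (FF_le d hΩ hb hne hI).trans (CS4.FF_disc_ge d.prof d.prof2)

end Pool.Agent.FND
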